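import Pool.Agent.Lib.MP_b1ea0f_al.Defs4

/-!
# BMap: base change of H

Base change. `k' ⊗ H n x` is generated by a star triple for `mapx f x`; universal properties in both directions.
-/

namespace SYM
open Polynomial Module

open scoped TensorProduct in
theorem bc_equiv {k k' : Type} [CommRing k] [CommRing k'] [Algebra k k'] (n : ℕ) (x : J n → kˣ) :
    ∃ e : TensorProduct k k' (H n x) ≃ₐ[k'] H n (mapx (algebraMap k k') x),
      ∀ h, e (1 ⊗ₜ h) = hmap (algebraMap k k') n x h := by
  let f := algebraMap k k'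
  let a1 : Algebra k (H n (mapx f x)) := Algebra.compHom _ f
  have a2 : IsScalarTower k k' (H n (mapx f x)) := IsScalarTower.of_algebraMap_eq (fun r => rfl)
  let g : H n x →ₐ[k] H n (mapx f x) :=
    { hmap f n x with commutes' := fun r => hmap_algebraMap f n x r }
  have hg : ∀ h, g h = hmap f n x h := fun h => rfl
  let F : TensorProduct k k' (H n x) →ₐ[k'] H n (mapx f x) :=
    Algebra.TensorProduct.lift (Algebra.ofId k' _) g (fun a b => Algebra.commutes a (g b))
  have hF : ∀ h, F (1 ⊗ₜ h) = hmap f n x h := by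
    intro h
    have h1 := Algebra.TensorProduct.lift_tmul (Algebra.ofId k' (H n (mapx f x))) g
      (fun a b => Algebra.commutes a (g b)) (1 : k') h
    refine h1.trans ?_
    rw [map_one, one_mul]
    rfl
  let G : H n (mapx f x) →ₐ[k'] TensorProduct k k' (H n x) :=
    lift n (mapx f x) (fun i => (1 : k') ⊗ₜ[k] gen n x i) (by
      have hs := (isStar_gen n x).map
        (Algebra.TensorProduct.includeRight : H n x →ₐ[k] TensorProduct k k' (H n x))
      refine ⟨fun i => ?_, hs.cyc1, hs.cyc2⟩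
      have h2 := hs.poly i
      rw [P_mapx, Polynomial.aeval_map_algebraMap]
      exact h2)
  have hG : ∀ i, G (gen n (mapx f x) i) = (1 : k') ⊗ₜ[k] gen n x i := fun i => lift_gen _ _ _ _ i
  refine ⟨AlgEquiv.ofAlgHom F G ?_ ?_, ?_⟩
  · apply hom_ext
    intro i
    rw [AlgHom.comp_apply, hG, hF, hmap_gen]
    rfl
  · apply Algebra.TensorProduct.ext
    · ext
    · apply hom_ext
      intro i
      change G (F ((1 : k') ⊗ₜ[k] gen n x i)) = (1 : k') ⊗ₜ[k] gen n x i
      rw [hF, hmap_gen, hG]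
  · intro h
    exact hF h

theorem exists_basis_map {k k' : Type} [CommRing k] [CommRing k'] (f : k →+* k') (n : ℕ)
    (x : J n → kˣ) {ι : Type} (b : Basis ι k (H n x)) :
    ∃ b' : Basis ι k' (H n (mapx f x)), ∀ i, b' i = hmap f n x (b i) := by
  let _ : Algebra k k' := f.toAlgebra
  obtain ⟨e, he⟩ := bc_equiv (k' := k') n x
  refine ⟨(Algebra.TensorProduct.basis k' b).map e.toLinearEquiv, fun i => ?_⟩
  rw [Basis.map_apply, Algebra.TensorProduct.basis_apply]
  exact he (b i)

theorem finrank_map_field {κ κ' : Type} [Field κ] [Field κ'] (f : κ →+* κ') (n : ℕ)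
    (x : J n → κˣ) : finrank κ' (H n (mapx f x)) = finrank κ (H n x) := by
  let _ : Algebra κ κ' := f.toAlgebra
  obtain ⟨e, he⟩ := bc_equiv (k' := κ') n x
  have h1 := e.toLinearEquiv.finrank_eq
  rw [Module.finrank_baseChange] at h1
  exact h1.symm

theorem hmap_injective_field {κ κ' : Type} [Field κ] [Field κ'] (f : κ →+* κ') (n : ℕ)
    (x : J n → κˣ) : Function.Injective (hmap f n x) := by
  let _ : Algebra κ κ' := f.toAlgebra
  obtain ⟨e, he⟩ := bc_equiv (k' := κ') n x
  intro a b hab
  have h1 : e (1 ⊗ₜ a) = e (1 ⊗ₜ b) := by rw [he, he]; exact hab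
  have h2 := e.injective h1
  exact Algebra.TensorProduct.includeRight_injective (R := κ) (A := κ') (B := H n x)
    (algebraMap κ κ').injective h2

theorem hmap_span {k k' : Type} [CommRing k] [CommRing k'] (f : k →+* k') (n : ℕ)
    (x : J n → kˣ) : Submodule.span k' (Set.range (hmap f n x)) = ⊤ := by
  let _ : Algebra k k' := f.toAlgebra
  obtain ⟨e, he⟩ := bc_equiv (k' := k') n x
  rw [eq_top_iff]
  intro y _
  obtain ⟨t, rfl⟩ := e.surjective y
  induction t using TensorProduct.induction_on with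
  | zero => rw [map_zero]; exact Submodule.zero_mem _
  | tmul a h =>
    have h1 : (a ⊗ₜ h : TensorProduct k k' (H n x)) = a • ((1 : k') ⊗ₜ h) := by
      rw [TensorProduct.smul_tmul', smul_eq_mul, mul_one]
    rw [h1, map_smul, he]
    exact Submodule.smul_mem _ _ (Submodule.subset_span ⟨h, rfl⟩)
  | add u v hu hv => rw [map_add]; exact Submodule.add_mem _ (hu trivial) (hv trivial)

/-- linear extension of a linear form -/
theorem exists_form_map {k k' : Type} [CommRing k] [CommRing k'] (f : k →+* k') (n : ℕ)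
    (x : J n → kˣ) (T : H n x →ₗ[k] k) :
    ∃ T' : H n (mapx f x) →ₗ[k'] k', ∀ h, T' (hmap f n x h) = f (T h) := by
  let _ : Algebra k k' := f.toAlgebra
  obtain ⟨e, he⟩ := bc_equiv (k' := k') n x
  let L : TensorProduct k k' (H n x) →ₗ[k'] k' :=
    (Algebra.TensorProduct.rid k k' k').toLinearMap ∘ₗ T.baseChange k'
  refine ⟨L ∘ₗ e.symm.toLinearMap, fun h => ?_⟩
  have h1 : e.symm (hmap f n x h) = 1 ⊗ₜ h := by
    rw [AlgEquiv.symm_apply_eq]
    exact (he h).symm
  change L (e.symm (hmap f n x h)) = f (T h)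
  rw [h1]
  simp only [L, LinearMap.comp_apply, LinearMap.baseChange_tmul]
  change (Algebra.TensorProduct.rid k k' k') (1 ⊗ₜ T h) = f (T h)
  rw [Algebra.TensorProduct.rid_tmul, Algebra.smul_def, mul_one]
  rfl

/-- base change of Frobenius systems -/
theorem Frob.map {k k' : Type} [CommRing k] [CommRing k'] (f : k →+* k') (n : ℕ)
    (x : J n → kˣ) (T : H n x →ₗ[k] k) (hT : Frob T) (T' : H n (mapx f x) →ₗ[k'] k')
    (h : ∀ h, T' (hmap f n x h) = f (T h)) : Frob T' := by
  obtain ⟨m, u, v, huv⟩ := hT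
  refine ⟨m, fun i => hmap f n x (u i), fun i => hmap f n x (v i), ?_⟩
  let L : H n (mapx f x) →ₗ[k'] H n (mapx f x) :=
    ∑ i, (LinearMap.toSpanSingleton k' _ (hmap f n x (v i))) ∘ₗ T' ∘ₗ
      (LinearMap.mulRight k' (hmap f n x (u i)))
  have hL : ∀ y, L y = ∑ i, T' (y * hmap f n x (u i)) • hmap f n x (v i) := by
    intro y
    simp [L]
  have h2 : LinearMap.id = L := by
    apply LinearMap.ext_on (hmap_span f n x)
    rintro _ ⟨y, rfl⟩
    rw [hL, LinearMap.id_apply]
    conv_lhs => rw [huv y]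
    rw [map_sum]
    refine Finset.sum_congr rfl fun i _ => ?_
    rw [hmap_smul, ← map_mul, h]
  intro y
  rw [← hL, ← h2, LinearMap.id_apply]

end SYM
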