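import Pool.Agent.Lib.MP_b1ea0f_al.EXIota

/-
MP_b1ea0f_al, module EXDec.  AE E = Σ_{l < m} Z^l i(H(W)).
-/

namespace SYM
open Polynomial Module BraidData

variable {D : BraidData} (E : Emb D)

/-- the unit `Z` -/
private noncomputable def zU : (AE E)ˣ := wE E (FreeGroup.of 0 * FreeGroup.of 1 * FreeGroup.of 2)

private theorem zU_val : ((zU E : (AE E)ˣ) : AE E) = zE E := (zE_eq E).symm

private theorem zU_comm (e : ℤ) (a : AE E) : ((zU E ^ e : (AE E)ˣ) : AE E) * a = a * ((zU E ^ e : (AE E)ˣ) : AE E) := by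
  have h : Commute ((zU E : (AE E)ˣ) : AE E) a := by
    rw [zU_val]; exact zE_comm E a
  exact (h.units_zpow_left e).eq

/-- the image of `T_b` as a unit -/
private noncomputable def iU (I : Iota E) : D.Braid →* (AE E)ˣ :=
  ((I.i : D.HW →* AE E).comp (D.T _)).toHomUnits

private theorem iU_val (I : Iota E) (b : D.Braid) : ((iU E I b : (AE E)ˣ) : AE E) = I.i (D.T _ b) := rfl

private theorem iU_mk (I : Iota E) (w : FreeGroup (Fin D.gens)) :
    iU E I (QuotientGroup.mk w : D.Braid) = wE E (FreeGroup.lift E.ι w) := by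
  apply Units.ext
  exact (iU_val E I _).trans (I.word w)

private theorem iU_w (I : Iota E) : iU E I E.w = zU E ^ E.m := by
  rw [← E.ww_eq, iU_mk, zU, ← map_pow]
  apply wE_congr
  exact E.forthw.symm

theorem iota_w (I : Iota E) : I.i (D.T _ E.w) = zE E ^ E.m := by
  have h := congrArg Units.val (iU_w E I)
  rw [iU_val, Units.val_pow_eq_pow_val, zU_val] at h
  exact h

private theorem genE_eq (I : Iota E) (g : Fin 3) :
    BMM.gen D.R (PE E) g = ((zU E ^ (E.kk g) : (AE E)ˣ) : AE E) * I.i (D.T _ (E.u g)) := by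
  rw [← wE_of E g, ← iU_val, ← Units.val_mul, ← E.uw_eq g, iU_mk, zU, ← map_zpow, ← map_mul]
  congr 1
  apply wE_congr
  exact E.forth g

/-- the set of all `Σ Z^l i(h_l)` -/
private def SS (I : Iota E) : Submodule D.R (AE E) where
  carrier := {a | ∃ h : Fin E.m → D.HW, a = ∑ l : Fin E.m, zE E ^ (l : ℕ) * I.i (h l)}
  add_mem' := by
    rintro a b ⟨h, rfl⟩ ⟨h', rfl⟩
    refine ⟨h + h', ?_⟩
    rw [← Finset.sum_add_distrib]
    refine Finset.sum_congr rfl fun l _ => ?_
    rw [Pi.add_apply, map_add, mul_add]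
  zero_mem' := ⟨0, by simp⟩
  smul_mem' := by
    rintro r a ⟨h, rfl⟩
    refine ⟨r • h, ?_⟩
    rw [Finset.smul_sum]
    refine Finset.sum_congr rfl fun l _ => ?_
    rw [Pi.smul_apply, map_smul, mul_smul_comm]

private theorem mem_SS_pow (I : Iota E) (l : ℕ) (hl : l < E.m) (h : D.HW) :
    zE E ^ l * I.i h ∈ SS E I := by
  refine ⟨Pi.single ⟨l, hl⟩ h, ?_⟩
  rw [Finset.sum_eq_single (⟨l, hl⟩ : Fin E.m)]
  · rw [Pi.single_eq_same]
  · intro j _ hj
    rw [Pi.single_eq_of_ne hj, map_zero, mul_zero]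
  · intro h; exact absurd (Finset.mem_univ _) h

private theorem mem_SS_zpow (I : Iota E) (e : ℤ) (h : D.HW) :
    ((zU E ^ e : (AE E)ˣ) : AE E) * I.i h ∈ SS E I := by
  have hm : (E.m : ℤ) ≠ 0 := by have := E.hm; omega
  have hpos : (0 : ℤ) < E.m := by have := E.hm; omega
  obtain ⟨l, hl⟩ : ∃ l : ℕ, e % E.m = l := ⟨(e % E.m).toNat, by
    rw [Int.toNat_of_nonneg (Int.emod_nonneg e hm)]⟩
  have hlm : l < E.m := by
    have := Int.emod_lt_of_pos e hpos
    omega
  have he : e = l + E.m * (e / E.m) := by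
    rw [← hl]; exact (Int.emod_add_mul_ediv e E.m).symm
  have h1 : ((zU E ^ e : (AE E)ˣ) : AE E) * I.i h =
      zE E ^ l * I.i (D.T _ (E.w ^ (e / E.m)) * h) := by
    conv_lhs => rw [he]
    rw [zpow_add, zpow_mul, zpow_natCast, zpow_natCast, ← iU_w E I, ← map_zpow, Units.val_mul, Units.val_pow_eq_pow_val,
      zU_val, iU_val, map_mul, mul_assoc]
  rw [h1]
  exact mem_SS_pow E I l hlm _

private theorem SS_mul_i (I : Iota E) {a : AE E} (ha : a ∈ SS E I) (e : ℤ) (h' : D.HW) :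
    a * (((zU E ^ e : (AE E)ˣ) : AE E) * I.i h') ∈ SS E I := by
  obtain ⟨h, rfl⟩ := ha
  rw [Finset.sum_mul]
  refine Submodule.sum_mem _ fun l _ => ?_
  have h1 : zE E ^ (l : ℕ) * I.i (h l) * (((zU E ^ e : (AE E)ˣ) : AE E) * I.i h') =
      ((zU E ^ ((l : ℤ) + e) : (AE E)ˣ) : AE E) * I.i (h l * h') := by
    rw [map_mul, zpow_add, Units.val_mul, zpow_natCast, Units.val_pow_eq_pow_val, zU_val]
    calc _ = zE E ^ (l : ℕ) * (I.i (h l) * ((zU E ^ e : (AE E)ˣ) : AE E)) * I.i h' := by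
          simp only [mul_assoc]
      _ = zE E ^ (l : ℕ) * (((zU E ^ e : (AE E)ˣ) : AE E) * I.i (h l)) * I.i h' := by
          rw [zU_comm]
      _ = _ := by simp only [mul_assoc]
  rw [h1]
  exact mem_SS_zpow E I _ _

theorem exists_decomp (I : Iota E) (a : AE E) : ∃ h : Fin E.m → D.HW,
    a = ∑ l : Fin E.m, zE E ^ (l : ℕ) * I.i (h l) := by
  have h1 : (1 : AE E) ∈ SS E I := by
    have h := mem_SS_zpow E I 0 1
    simpa using h
  have h2 : ∀ s ∈ SS E I, s * a ∈ SS E I := by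
    refine BMM.HA.induction (p := fun a : AE E => ∀ s ∈ SS E I, s * a ∈ SS E I) ?_ ?_ ?_ ?_ a
    · intro r s hs
      rw [← Algebra.commutes, ← Algebra.smul_def]
      exact Submodule.smul_mem _ _ hs
    · intro g s hs
      rw [genE_eq E I g]
      exact SS_mul_i E I hs _ _
    · intro u v hu hv s hs
      rw [mul_add]
      exact Submodule.add_mem _ (hu s hs) (hv s hs)
    · intro u v hu hv s hs
      rw [← mul_assoc]
      exact hv _ (hu s hs)
  have h3 := h2 1 h1
  rw [one_mul] at h3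
  exact h3

end SYM
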