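import Pool.Agent.Lib.MP_b1ea0f_al.EXTr
import Pool.Agent.Lib.MP_b1ea0f_al.EXDec

/-
MP_b1ea0f_al, module EXBar (about 80 lines).  Condition (3).

word_bar: S.bar w: bar (S.T (wd w⁻¹)) * CC = S.T (wd w * zz^N); apply F = Laurent.lift x (x = t.x):
F (bar r) = LO.conj (F r) for all r (two ring homs Laurent → LO D.Par; lift_comp / laurent_ext: F (bar (var l)) =
F ((var l)⁻¹) = (x l)⁻¹ = LO.conj (x l), (t.isLeg g).conj).  F (S.T (wd w⁻¹)) = dbl (t.T (wE w⁻¹)) and
F (S.T (wd w * zz^N)) = dbl (t.T (wE (w * (of 0 * of 1 * of 2)^N))) (t.word; zz = gen 0 * gen 1 * gen 2 =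
wd (of 0 * of 1 * of 2), N = NZ n).  LO.conj (dbl r) = dbl (D.star r) (conj_dbl).  So
dbl (star (t.T (wE w⁻¹))) * F CC = dbl (t.T (wE w * zE^N)).  For w = 1: F CC = dbl (t.T (zE^N)) (TrE.one, map_one).
dbl is injective: star (t.T (wE w⁻¹)) * t.T (zE^N) = t.T (wE w * zE^N).
iota_pi: D.pi = w^{zord} (E.centre), i (T (w^{zord})) = (i (T w))^{zord} = zE^{m zord} = zE^{N} (iota_w, E.mz).
tau_bar: b = mk w' (surjective), i (T b⁻¹) = wE (lift ι w'⁻¹), i (T (b * π)) = i (T b) * zE^N.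
-/

namespace SYM
open Polynomial Module BraidData

variable {D : BraidData} {E : Emb D} {S : StarTrace E.n}

private theorem lift_bar (t : TrE E S) (r : RR E.n) :
    Laurent.lift t.x (Laurent.bar r) = LO.conj (Laurent.lift t.x r) := by
  have h : (Laurent.lift t.x).comp Laurent.bar =
      (LO.conj : LO D.Par →+* LO D.Par).comp (Laurent.lift t.x) := by
    apply laurent_ext
    intro l
    rw [RingHom.comp_apply, RingHom.comp_apply, Laurent.lift_var]
    have h1 : Laurent.bar (Laurent.var l : Laurent (J E.n)) =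
        (((Laurent.var l)⁻¹ : (Laurent (J E.n))ˣ) : Laurent (J E.n)) := by
      rw [Laurent.bar, Laurent.lift_var]
    have h2 : Laurent.lift t.x (((Laurent.var l)⁻¹ : (Laurent (J E.n))ˣ) : Laurent (J E.n)) =
        (((t.x l)⁻¹ : (LO D.Par)ˣ) : LO D.Par) := by
      have h3 : Units.map (Laurent.lift t.x : Laurent (J E.n) →* LO D.Par) (Laurent.var l) =
          t.x l := Units.ext (Laurent.lift_var t.x l)
      have h4 := congrArg (fun u : (LO D.Par)ˣ => ((u⁻¹ : (LO D.Par)ˣ) : LO D.Par)) h3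
      rw [← h4, ← map_inv]
      rfl
    rw [h1, h2]
    exact ((t.isLeg l.1).conj l.2).symm
  exact congrArg (fun f => f r) h

private theorem wE_zE (w : FreeGroup (Fin 3)) (N : ℕ) :
    ((wE E w : (AE E)ˣ) : AE E) * zE E ^ N =
      (wE E (w * (FreeGroup.of 0 * FreeGroup.of 1 * FreeGroup.of 2) ^ N) : (AE E)ˣ) := by
  rw [map_mul (wE E) w, Units.val_mul, map_pow, Units.val_pow_eq_pow_val, ← zE_eq]

private theorem wd_zz (n : ℕ) (w : FreeGroup (Fin 3)) (N : ℕ) :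
    ((wd n (XX n) w : (H n (XX n))ˣ) : H n (XX n)) * zz n (XX n) ^ N =
      (wd n (XX n) (w * (FreeGroup.of 0 * FreeGroup.of 1 * FreeGroup.of 2) ^ N) :
        (H n (XX n))ˣ) := by
  rw [map_mul (wd n (XX n)) w, Units.val_mul, map_pow, Units.val_pow_eq_pow_val, ← zu_val, zu]

theorem word_bar (t : TrE E S) (w : FreeGroup (Fin 3)) :
    D.star (t.T (wE E w⁻¹ : (AE E)ˣ)) * t.T (zE E ^ NZ E.n) =
      t.T ((wE E w : (AE E)ˣ) * zE E ^ NZ E.n) := by
  apply dbl_injective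
  have h1 : (CC E.n : RR E.n) = S.T (wd E.n (XX E.n)
      (1 * (FreeGroup.of 0 * FreeGroup.of 1 * FreeGroup.of 2) ^ NZ E.n) :
        (H E.n (XX E.n))ˣ) := by
    have h2 := S.bar 1
    rw [wd_zz, inv_one, map_one, Units.val_one, S.one, map_one, one_mul] at h2
    exact h2
  have h3 : dbl (t.T (zE E ^ NZ E.n)) = Laurent.lift t.x (CC E.n : RR E.n) := by
    rw [h1, ← t.word, ← wE_zE, map_one, Units.val_one, one_mul]
  rw [map_mul, ← conj_dbl, t.word, ← lift_bar, h3, ← map_mul, S.bar, wd_zz, wE_zE, t.word]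

theorem iota_pi (I : Iota E) : I.i (D.T _ D.pi) = zE E ^ NZ E.n := by
  rw [BraidData.pi, E.centre, map_pow, map_pow, iota_w, ← pow_mul, E.mz]

theorem tau_bar (t : TrE E S) (I : Iota E) (b : D.Braid) :
    D.star (t.T (I.i (D.T _ b⁻¹))) * t.T (I.i (D.T _ D.pi)) = t.T (I.i (D.T _ (b * D.pi))) := by
  obtain ⟨w, hw⟩ := QuotientGroup.mk_surjective b
  have hw' : (QuotientGroup.mk w : D.Braid) = b := hw
  have hinv : (QuotientGroup.mk w⁻¹ : D.Braid) = b⁻¹ := by
    rw [← hw']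
    rfl
  have h0 : I.i (D.T _ b) = (wE E (FreeGroup.lift E.ι w) : (AE E)ˣ) := by
    rw [← hw']
    exact I.word w
  have h1 : I.i (D.T _ b⁻¹) = (wE E (FreeGroup.lift E.ι w)⁻¹ : (AE E)ˣ) := by
    rw [← hinv, ← map_inv]
    exact I.word w⁻¹
  have h2 : I.i (D.T _ (b * D.pi)) =
      (wE E (FreeGroup.lift E.ι w) : (AE E)ˣ) * zE E ^ NZ E.n := by
    rw [map_mul, map_mul, iota_pi, h0]
  rw [h1, h2, iota_pi]
  exact word_bar t _

end SYM
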