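import Pool.Agent.Lib.MP_b1ea0f_al.Defs3

/-
MP_b1ea0f_al, module EXFrob (about 90 lines).  Abstract descent of dual bases, and the consequences.

frob_descent: let a = Σ_k T(a u_k) v_k (k : Fin N).  Write u_k = Σ_{l<m} z^l i(u_{kl}), v_k = Σ z^l i(v_{kl})
(hspan, choose).  For h : B: T (i h * u_k) = Σ_l T (z^l i(h u_{kl})) (z central) = T (i (h * u_{k0})) (hgr for l > 0,
Fin index 0 = ⟨0, hm⟩: Finset.sum_eq_single).  Apply lam to i h = Σ_k T(i h u_k) v_k: lam (i h) = h (hlam, l = 0),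
lam v_k = v_{k0}.  So h = Σ_k T(i(h u_{k0})) v_{k0}.
frob_finite: the v_i span (Module.Finite.of_fg / Submodule.fg_iff; ⟨Finset.univ.image v, ..⟩).
frob_projective: Module.Projective.of_split (i : H → (Fin m → R), h ↦ (τ(h u_i))_i; s : r ↦ Σ r_i v_i).
frob_bijective: injective: if τ(h h') = 0 for all h' then h = Σ τ(h u_i) v_i = 0.  Surjective: for φ put
h = Σ_i φ(v_i) • u_i: τ(h * h') = Σ φ(v_i) τ(u_i h') = Σ φ(v_i) τ(h' u_i) = φ(Σ τ(h' u_i) v_i) = φ h'.
-/

namespace SYM
open Polynomial Module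

theorem frob_descent {R A B : Type} [CommRing R] [Ring A] [Algebra R A] [Ring B] [Algebra R B]
    (i : B →ₐ[R] A) (z : A) (hz : ∀ a, z * a = a * z) (m : ℕ) (hm : 0 < m) (lam : A →ₗ[R] B)
    (hlam : ∀ l : ℕ, l < m → ∀ h : B, lam (z ^ l * i h) = if l = 0 then h else 0)
    (hspan : ∀ a : A, ∃ h : Fin m → B, a = ∑ l : Fin m, z ^ (l : ℕ) * i (h l))
    (T : A →ₗ[R] R) (hF : Frob T)
    (hgr : ∀ l : ℕ, 0 < l → l < m → ∀ h : B, T (z ^ l * i h) = 0) :
    Frob (T ∘ₗ i.toLinearMap) := by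
  obtain ⟨N, u, v, huv⟩ := hF
  choose U hU using fun k => hspan (u k)
  choose V hV using fun k => hspan (v k)
  have hcz : ∀ (a : A) (l : ℕ), a * z ^ l = z ^ l * a := fun a l =>
    ((show Commute z a from hz a).pow_left l).symm.eq
  refine ⟨N, fun k => U k ⟨0, hm⟩, fun k => V k ⟨0, hm⟩, fun h => ?_⟩
  have h1 : ∀ k, T (i h * u k) = T (i (h * U k ⟨0, hm⟩)) := by
    intro k
    rw [hU k, Finset.mul_sum, map_sum, Finset.sum_eq_single (⟨0, hm⟩ : Fin m)]
    · rw [map_mul i]
      simp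
    · intro l _ hl
      rw [← mul_assoc, hcz, mul_assoc, ← map_mul i]
      apply hgr _ _ l.2
      apply Nat.pos_of_ne_zero
      intro h0
      exact hl (Fin.ext h0)
    · intro h0
      exact absurd (Finset.mem_univ _) h0
  have h2 : ∀ k, lam (v k) = V k ⟨0, hm⟩ := by
    intro k
    rw [hV k, map_sum, Finset.sum_eq_single (⟨0, hm⟩ : Fin m)]
    · rw [hlam _ hm, if_pos rfl]
    · intro l _ hl
      rw [hlam _ l.2, if_neg]
      intro h0
      exact hl (Fin.ext h0)
    · intro h0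
      exact absurd (Finset.mem_univ _) h0
  have h3 : lam (i h) = h := by
    have := hlam 0 hm h
    rwa [pow_zero, one_mul, if_pos rfl] at this
  have h4 := congrArg lam (huv (i h))
  rw [h3, map_sum] at h4
  rw [h4]
  apply Finset.sum_congr rfl
  intro k _
  rw [map_smul, h1, h2, ← h4]
  rfl

theorem frob_finite {R B : Type} [CommRing R] [Ring B] [Algebra R B] (τ : B →ₗ[R] R)
    (hF : Frob τ) : Module.Finite R B := by
  obtain ⟨N, u, v, huv⟩ := hF
  classical
  refine ⟨⟨Finset.univ.image v, ?_⟩⟩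
  rw [eq_top_iff]
  intro h _
  rw [huv h]
  apply Submodule.sum_mem
  intro k _
  apply Submodule.smul_mem
  apply Submodule.subset_span
  simp

theorem frob_projective {R B : Type} [CommRing R] [Ring B] [Algebra R B] (τ : B →ₗ[R] R)
    (hF : Frob τ) : Module.Projective R B := by
  obtain ⟨N, u, v, huv⟩ := hF
  let f : B →ₗ[R] (Fin N → R) := LinearMap.pi fun k => τ ∘ₗ LinearMap.mulRight R (u k)
  let g : (Fin N → R) →ₗ[R] B := ∑ k, (LinearMap.toSpanSingleton R B (v k)) ∘ₗ LinearMap.proj k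
  apply Module.Projective.of_split f g
  ext h
  simp only [LinearMap.comp_apply, LinearMap.id_apply, g, f, LinearMap.sum_apply,
    LinearMap.pi_apply, LinearMap.proj_apply, LinearMap.toSpanSingleton_apply,
    LinearMap.mulRight_apply]
  exact (huv h).symm

theorem frob_bijective {R B : Type} [CommRing R] [Ring B] [Algebra R B] (τ : B →ₗ[R] R)
    (hF : Frob τ) (hc : ∀ h h', τ (h * h') = τ (h' * h)) :
    Function.Bijective (fun h : B => τ ∘ₗ LinearMap.mulLeft R h) := by
  obtain ⟨N, u, v, huv⟩ := hF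
  constructor
  · intro h h' heq
    have h1 : ∀ w, τ (h * w) = τ (h' * w) := fun w => LinearMap.congr_fun heq w
    rw [huv h, huv h']
    exact Finset.sum_congr rfl fun k _ => by rw [h1]
  · intro φ
    refine ⟨∑ k, φ (v k) • u k, ?_⟩
    ext h'
    simp only [LinearMap.comp_apply, LinearMap.mulLeft_apply]
    rw [Finset.sum_mul, map_sum]
    conv_rhs => rw [huv h', map_sum]
    apply Finset.sum_congr rfl
    intro k _
    rw [smul_mul_assoc, map_smul, map_smul, hc, smul_eq_mul, smul_eq_mul, mul_comm]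

end SYM
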