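import Pool.Agent.Lib.MP_b1ea0f_al.DefsW

/-
MP_b1ea0f_al, module EXHecke.  The Hecke algebra: RingQuot of the group algebra.
-/

namespace SYM
open Polynomial Module BraidData

variable (D : BraidData) {k : Type*} [CommRing k]

theorem isUnit_T (y : D.Par → kˣ) (b : D.Braid) : IsUnit (D.T y b) := by
  exact ⟨(D.T y).toHomUnits b, rfl⟩

theorem T_poly (y : D.Par → kˣ) (b : D.Braid) (i : Fin D.gens) :
    aeval (D.T y (b * D.s i * b⁻¹))
      (∏ j : Fin (D.ord (D.cl i)), (X - C ((y ⟨D.cl i, j⟩ : kˣ) : k))) = 0 := by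
  have h : D.hmk y _ = D.hmk y _ := RingQuot.mkAlgHom_rel k (HRel.poly (D := D) (y := y) b i)
  rw [map_zero, ← aeval_algHom_apply] at h
  exact h

private theorem aeval_conj' {R A : Type*} [CommRing R] [Ring A] [Algebra R A] (v : Aˣ) (a : A)
    (q : R[X]) : aeval ((v : A) * a * ((v⁻¹ : Aˣ) : A)) q = (v : A) * aeval a q * ((v⁻¹ : Aˣ) : A) := by
  induction q using Polynomial.induction_on' with
  | add p q hp hq => rw [map_add, map_add, hp, hq, mul_add, add_mul]
  | monomial n r =>
    rw [aeval_monomial, aeval_monomial]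
    have h : ((v : A) * a * ((v⁻¹ : Aˣ) : A)) ^ n = (v : A) * a ^ n * ((v⁻¹ : Aˣ) : A) := by
      induction n with
      | zero => simp
      | succ n ih =>
        rw [pow_succ, ih, pow_succ]
        calc _ = (v : A) * a ^ n * (((v⁻¹ : Aˣ) : A) * (v : A)) * a * ((v⁻¹ : Aˣ) : A) := by
              simp only [mul_assoc]
          _ = _ := by rw [Units.inv_mul, mul_one]; simp only [mul_assoc]
    rw [h, ← mul_assoc, ← mul_assoc, ← mul_assoc, Algebra.commutes r (v : A)]

/-- universal property of the Hecke algebra -/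
theorem exists_heckeLift (y : D.Par → kˣ) {A : Type*} [Ring A] [Algebra k A] (f : D.Braid →* Aˣ)
    (hf : ∀ i : Fin D.gens, aeval ((f (D.s i) : Aˣ) : A)
      (∏ j : Fin (D.ord (D.cl i)), (X - C ((y ⟨D.cl i, j⟩ : kˣ) : k))) = 0) :
    ∃ F : D.Hecke y →ₐ[k] A, ∀ b, F (D.T y b) = ((f b : Aˣ) : A) := by
  set L : MonoidAlgebra k D.Braid →ₐ[k] A := MonoidAlgebra.lift k A D.Braid ((Units.coeHom A).comp f)
    with hL
  have hLof : ∀ b, L (MonoidAlgebra.of k D.Braid b) = ((f b : Aˣ) : A) := by
    intro b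
    rw [hL, MonoidAlgebra.lift_of]
    rfl
  have h : ∀ ⦃u v : MonoidAlgebra k D.Braid⦄, D.HRel y u v → L u = L v := by
    intro u v huv
    cases huv with
    | poly b i =>
      rw [map_zero, ← aeval_algHom_apply, hLof, map_mul, map_mul, map_inv, Units.val_mul,
        Units.val_mul, aeval_conj', hf, mul_zero, zero_mul]
  refine ⟨RingQuot.liftAlgHom k ⟨L, h⟩, ?_⟩
  intro b
  rw [← hLof b]
  exact RingQuot.liftAlgHom_mkAlgHom_apply k L h _

theorem T_span (y : D.Par → kˣ) : Submodule.span k (Set.range (D.T y)) = ⊤ := by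
  rw [eq_top_iff]
  rintro u -
  obtain ⟨v, rfl⟩ := RingQuot.mkAlgHom_surjective k (D.HRel y) u
  induction v using MonoidAlgebra.induction_on with
  | of b => exact Submodule.subset_span ⟨b, rfl⟩
  | add a b ha hb => rw [map_add]; exact Submodule.add_mem _ ha hb
  | smul r a ha => rw [map_smul]; exact Submodule.smul_mem _ _ ha

theorem hecke_hom_ext (y : D.Par → kˣ) {A : Type*} [Semiring A] [Algebra k A]
    {F G : D.Hecke y →ₐ[k] A} (h : ∀ b, F (D.T y b) = G (D.T y b)) : F = G := by
  apply AlgHom.ext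
  intro u
  have hu : u ∈ Submodule.span k (Set.range (D.T y)) := by rw [T_span]; trivial
  induction hu using Submodule.span_induction with
  | mem x hx =>
    obtain ⟨b, rfl⟩ := hx
    exact h b
  | zero => rw [map_zero, map_zero]
  | add a b _ _ ha hb => rw [map_add, map_add, ha, hb]
  | smul r a _ ha => rw [map_smul, map_smul, ha]

end SYM
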