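import Pool.Agent.Lib.MP_b1ea0f_al.DefsD
import Pool.Agent.Lib.MP_b1ea0f_al.EXHecke

/-
MP_b1ea0f_al, module EXIota.  The map H(W) → AE E.
-/

namespace SYM
open Polynomial Module BraidData

variable {D : BraidData} (E : Emb D)

private theorem gen_pow (g : Fin 3) (hg : E.lt g = .killed) :
    wE E (FreeGroup.of g) ^ leg E.n g = 1 := by
  apply Units.ext
  rw [Units.val_pow_eq_pow_val, wE_of, Units.val_one]
  have h := (BMM.isTriple_gen D.R (PE E)).pol g
  have h1 : PE E g = X ^ leg E.n g - 1 := by rw [PE, hg]; rfl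
  rw [h1, map_sub, map_pow, aeval_X, map_one, sub_eq_zero] at h
  exact h

theorem exists_sg : ∃ F : (SG E.n fun g => E.lt g = .killed) →* (AE E)ˣ,
    ∀ w : FreeGroup (Fin 3), F (QuotientGroup.mk w) = wE E w := by
  have h : ∀ r ∈ {w | KRel E.n (fun g => E.lt g = .killed) w},
      FreeGroup.lift (fun g => wE E (FreeGroup.of g)) r = 1 := by
    have h0 : FreeGroup.lift (fun g => wE E (FreeGroup.of g)) = wE E := by
      apply FreeGroup.ext_hom
      intro g
      rw [FreeGroup.lift_apply_of]
    intro r hr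
    rw [h0]
    cases hr with
    | pow g hg =>
      rw [map_pow]
      exact gen_pow E g hg
    | comm g =>
      rw [map_mul, map_mul, map_inv, map_inv, mul_inv_eq_one, mul_inv_eq_iff_eq_mul]
      apply Units.ext
      rw [map_mul, Units.val_mul, Units.val_mul, ← zE_eq, zE_comm]
  refine ⟨PresentedGroup.toGroup h, ?_⟩
  intro w
  have h1 : (PresentedGroup.toGroup h).comp (PresentedGroup.mk _) = wE E := by
    apply FreeGroup.ext_hom
    intro g
    exact PresentedGroup.toGroup.of h
  exact DFunLike.congr_fun h1 w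

theorem wE_congr {w w' : FreeGroup (Fin 3)}
    (h : (QuotientGroup.mk w : SG E.n fun g => E.lt g = .killed) = QuotientGroup.mk w') :
    wE E w = wE E w' := by
  obtain ⟨F, hF⟩ := exists_sg E
  rw [← hF, ← hF, h]

private theorem aeval_conj {R A : Type*} [CommRing R] [Ring A] [Algebra R A] (v : Aˣ) (a : A)
    (q : R[X]) : aeval ((v : A) * a * ((v⁻¹ : Aˣ) : A)) q = (v : A) * aeval a q * ((v⁻¹ : Aˣ) : A) := by
  induction q using Polynomial.induction_on' with
  | add p q hp hq => rw [map_add, map_add, hp, hq, mul_add, add_mul]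
  | monomial n r =>
    rw [aeval_monomial, aeval_monomial]
    have h : ((v : A) * a * ((v⁻¹ : Aˣ) : A)) ^ n = (v : A) * a ^ n * ((v⁻¹ : Aˣ) : A) := by
      induction n with
      | zero => simp
      | succ n ih =>
        rw [pow_succ, ih, pow_succ]
        calc _ = (v : A) * a ^ n * (((v⁻¹ : Aˣ) : A) * (v : A)) * a * ((v⁻¹ : Aˣ) : A) := by
              simp only [mul_assoc]
          _ = _ := by rw [Units.inv_mul, mul_one]; simp only [mul_assoc]
    rw [h, ← mul_assoc, ← mul_assoc, ← mul_assoc, Algebra.commutes r (v : A)]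

theorem exists_iota : Nonempty (Iota E) := by
  have h0 : ∀ w, FreeGroup.lift (fun i => wE E (E.ι i)) w = wE E (FreeGroup.lift E.ι w) := by
    have h : FreeGroup.lift (fun i => wE E (E.ι i)) = (wE E).comp (FreeGroup.lift E.ι) := by
      apply FreeGroup.ext_hom
      intro i
      rw [MonoidHom.comp_apply, FreeGroup.lift_apply_of, FreeGroup.lift_apply_of]
    intro w
    rw [h]
    rfl
  have h1 : ∀ r ∈ {r : FreeGroup (Fin D.gens) | ∃ p ∈ D.rels, r = D.word p.1 * (D.word p.2)⁻¹},
      FreeGroup.lift (fun i => wE E (E.ι i)) r = 1 := by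
    rintro r ⟨p, hp, rfl⟩
    rw [map_mul, map_inv, mul_inv_eq_one, h0, h0]
    exact wE_congr E (E.rel p hp)
  set f : D.Braid →* (AE E)ˣ := PresentedGroup.toGroup h1 with hf
  have h2 : ∀ w : FreeGroup (Fin D.gens), f (QuotientGroup.mk w : D.Braid) =
      wE E (FreeGroup.lift E.ι w) := by
    have h : f.comp (PresentedGroup.mk _) = (wE E).comp (FreeGroup.lift E.ι) := by
      apply FreeGroup.ext_hom
      intro i
      rw [MonoidHom.comp_apply, MonoidHom.comp_apply, FreeGroup.lift_apply_of]
      exact PresentedGroup.toGroup.of h1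
    intro w
    exact DFunLike.congr_fun h w
  have h3 : ∀ i, f (D.s i) = wE E (E.ι i) := fun i => PresentedGroup.toGroup.of h1
  obtain ⟨F, hF⟩ := exists_heckeLift D (Laurent.var (σ := D.Par)) f (by
    intro i
    rw [h3]
    change aeval ((wE E (E.ι i) : (AE E)ˣ) : AE E) (PC D (D.cl i)) = 0
    obtain ⟨g, v, hg | hg⟩ := E.gens i
    · rw [wE_congr E hg.2, map_mul, map_mul, map_inv, Units.val_mul, Units.val_mul, aeval_conj,
        wE_of]
      have h4 := (BMM.isTriple_gen D.R (PE E)).pol g
      have h5 : PE E g = PC D (D.cl i) := by rw [PE, hg.1]; rfl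
      rw [← h5, h4, mul_zero, zero_mul]
    · rw [wE_congr E hg.2, map_mul, map_mul, map_inv, map_pow, Units.val_mul, Units.val_mul,
        aeval_conj, Units.val_pow_eq_pow_val, wE_of]
      have h4 := (BMM.isTriple_gen D.R (PE E)).pol g
      have h5 : PE E g = (PC D (D.cl i)).comp (X ^ 2) := by rw [PE, hg.1]; rfl
      rw [h5, aeval_comp, map_pow, aeval_X] at h4
      rw [h4, mul_zero, zero_mul])
  exact ⟨⟨F, fun w => (hF _).trans (congrArg Units.val (h2 w))⟩⟩

end SYM
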