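import Pool.Agent.Lib.MP_b1ea0f_al.EXTr
import Pool.Agent.Lib.MP_b1ea0f_al.EXIota

/-
MP_b1ea0f_al, module EXGr.  The grading by the exponent sums.
-/

namespace SYM
open Polynomial Module BraidData

variable {D : BraidData} {E : Emb D} {S : StarTrace E.n}

theorem T_word_zero (t : TrE E S) (g : Fin 3) (w : FreeGroup (Fin 3))
    (h : ¬ (((E.lt g).d (leg E.n g) : ℕ) : ℤ) ∣ (expo g w).toAdd) :
    t.T (wE E w : (AE E)ˣ) = 0 := by
  apply dbl_injective
  rw [t.word, map_zero]
  set s := Laurent.lift t.x (S.T (wd E.n (XX E.n) w : (H E.n (XX E.n))ˣ)) with hs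
  obtain ⟨lam, hlam, π, hπ⟩ := (t.isLeg g).rot
  have h1 := S.scale _ t.x (fun g' => if g' = g then lam else 1) w
  have h2 : (fun l : J E.n => (if l.1 = g then lam else 1) * t.x l) =
      fun l => t.x (permJ (Function.update (fun _ => Equiv.refl _) g π) l) := by
    funext l
    obtain ⟨g', j⟩ := l
    by_cases hg : g' = g
    · subst hg
      simp only [if_true, permJ, Function.update_self]
      exact (hπ j).symm
    · simp only [if_neg hg, one_mul, permJ, Function.update_of_ne hg]
      rfl
  rw [h2, perm_eval] at h1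
  have h3 : (∏ g', (if g' = g then lam else 1 : (LO D.Par)ˣ) ^ (expo g' w).toAdd) =
      lam ^ (expo g w).toAdd := by
    rw [Finset.prod_eq_single g]
    · rw [if_pos rfl]
    · intro g' _ hg'
      rw [if_neg hg', one_zpow]
    · intro hg; exact absurd (Finset.mem_univ _) hg
  rw [h3, ← hs] at h1
  have h4 : (((lam ^ (expo g w).toAdd : (LO D.Par)ˣ) : LO D.Par) - 1) * s = 0 := by
    rw [sub_mul, one_mul, ← h1, sub_self]
  rcases mul_eq_zero.1 h4 with h5 | h5
  · exfalso
    apply h
    apply hlam
    apply Units.ext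
    rw [Units.val_one]
    exact sub_eq_zero.1 h5
  · exact h5

private theorem expo_z (g : Fin 3) (l : ℕ) :
    (expo g ((FreeGroup.of 0 * FreeGroup.of 1 * FreeGroup.of 2) ^ l)).toAdd = (l : ℤ) := by
  have h : (expo g (FreeGroup.of 0 * FreeGroup.of 1 * FreeGroup.of 2)).toAdd = (1 : ℤ) := by
    rw [map_mul (expo g), map_mul (expo g), expo, FreeGroup.lift_apply_of, FreeGroup.lift_apply_of,
      FreeGroup.lift_apply_of]
    fin_cases g <;> rfl
  rw [map_pow, toAdd_pow, h, nsmul_eq_mul, mul_one]

private theorem dvd_expo (g : Fin 3) (d : ℤ) (hd : ∀ i, d ∣ (expo g (E.ι i)).toAdd)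
    (w : FreeGroup (Fin D.gens)) : d ∣ (expo g (FreeGroup.lift E.ι w)).toAdd := by
  induction w using FreeGroup.induction_on with
  | C1 => rw [map_one, map_one]; exact dvd_zero _
  | of i => rw [FreeGroup.lift_apply_of]; exact hd i
  | inv_of i ih => rw [map_inv, map_inv, toAdd_inv, dvd_neg]; exact ih
  | mul x y hx hy => rw [map_mul, map_mul, toAdd_mul]; exact dvd_add hx hy

theorem T_gr (t : TrE E S) (I : Iota E) (l : ℕ) (h0 : 0 < l) (hl : l < E.m) (h : D.HW) :
    t.T (zE E ^ l * I.i h) = 0 := by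
  have hh : h ∈ Submodule.span D.R (Set.range (D.T (Laurent.var (σ := D.Par)))) := by
    rw [T_span]; trivial
  induction hh using Submodule.span_induction with
  | mem x hx =>
    obtain ⟨b, rfl⟩ := hx
    obtain ⟨w, rfl⟩ := QuotientGroup.mk_surjective b
    have h1 : zE E ^ l * I.i (D.T _ (QuotientGroup.mk w : D.Braid)) =
        ((wE E ((FreeGroup.of 0 * FreeGroup.of 1 * FreeGroup.of 2) ^ l * FreeGroup.lift E.ι w) :
          (AE E)ˣ) : AE E) := by
      rw [map_mul, map_pow, Units.val_mul, Units.val_pow_eq_pow_val, ← zE_eq]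
      exact congrArg _ (I.word w)
    refine Eq.trans (congrArg _ h1) ?_
    by_contra hne
    have h2 : ∀ g, (((E.lt g).d (leg E.n g) : ℕ) : ℤ) ∣
        (expo g ((FreeGroup.of 0 * FreeGroup.of 1 * FreeGroup.of 2) ^ l *
          FreeGroup.lift E.ι w)).toAdd := by
      intro g
      by_contra h3
      exact hne (T_word_zero t g _ h3)
    have h3 : (E.m : ℤ) ∣ l := by
      apply E.lcm
      · intro g hg
        have h4 := h2 g
        rw [hg, map_mul, toAdd_mul, expo_z] at h4
        have h5 := dvd_expo (E := E) g _ (E.exK g hg) w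
        exact (dvd_add_left h5).1 h4
      · intro g c hg
        have h4 := h2 g
        rw [hg, map_mul, toAdd_mul, expo_z] at h4
        have h5 := dvd_expo (E := E) g _ (E.exS g c hg) w
        exact (dvd_add_left h5).1 h4
    have h4 := Int.le_of_dvd (by omega) h3
    omega
  | zero => rw [map_zero, mul_zero, map_zero]
  | add a b _ _ ha hb => rw [map_add, mul_add, map_add, ha, hb, add_zero]
  | smul r a _ ha => rw [map_smul, mul_smul_comm, map_smul, ha, smul_zero]

end SYM
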