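import Pool.Agent.Lib.MP_b1ea0f_al.DefsE

/-
MP_b1ea0f_al, module EXGrp (about 130 lines).  The reflection group embeds into the star group.

(→ part) refl_to_gg: the group hom D.Braid →* GG n induced by i ↦ FreeGroup.lift (gg n) (ι i): there is a hom
SG n K →* GG n, PresentedGroup.of g ↦ gg g (its relators are relators of GG n), so E.rel gives the braid
relations (PresentedGroup.toGroup), and on mk w it is lift gg (lift ι w).  It kills s_i ^ ord (cl i): by E.gens
the image of s_i is conjugate to gg g, lt g = free (cl i), ord = leg n g (E.free_ord), gg g ^ leg n g = 1; or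
conjugate to gg g ^ 2, lt g = sq (cl i), g = 2, n = 4, ord = 2 (E.sq_ord), gg 2 ^ 4 = 1.  So the image of
Subgroup.normalClosure is trivial (Subgroup.normalClosure_le_normal / QuotientGroup.lift).  Hence
(mk (mk w) : D.Refl) = 1 implies lift gg (lift ι w) = 1.
(← part) Let W = D.Refl, Q = (W × Multiplicative ℤ) ⧸ N, N = Subgroup.zpowers (mk w⁻¹, ofAdd m), w = E.w: N is normal
because mk w⁻¹ is central in W (E.w_comm; every element of W is mk b) (Subgroup.Normal from centrality).
Define GG n →* Q by gg g ↦ [(mk (u g), ofAdd (kk g))] (PresentedGroup.toGroup).  In Q: [(w^r, -m r)] = 1, i.e.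
[(mk w^r, ofAdd (-(m r)))] = 1 for all r.
comm relators: the product of the three images is [(w^r, 1 - m r)] = [(1, 1)] (E.prod) which is central in Q.
pow relators: free c: kk g = 0, u g = b s_i b⁻¹ (E.freeu), D.ord c = leg n g: (b s_i b⁻¹)^ord = 1 in W
(s_i^{ord} lies in the normal closure: QuotientGroup.eq_one_iff, Subgroup.subset_normalClosure).
killed: [(u^p, p kk)] = [(w^{-r}, m r)] = 1 by E.kill.  sq c: [(u^2, 2 kk)] = [(u^2, m r)] = [(w^r u^2, 0)] =
[(b s b⁻¹, 0)], squared = 1 (ord c = 2), and leg 4 2 = 4 = 2 * 2 (E.sq_ord).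
The composition FreeGroup (Fin gens) → GG n → Q, w' ↦ lift gg (lift ι w') ↦ [lift (u, kk) (lift ι w')], on a
generator i: [lift (u, kk) (ι i)] = [(s_i w^e, -(m e))] = [(s_i, 0)] (E.back; map D.Braid × ℤ → W × ℤ).  So it is
w' ↦ [(mk mk w', 0)].  If lift gg (lift ι w') = 1 then (mk mk w', 0) ∈ N: (mk mk w', 0) = (w^{-j}, m j):
m j = 0, so j = 0 (E.hm), mk mk w' = 1 (Subgroup.mem_zpowers_iff, Prod.ext_iff).
-/

namespace SYM
open Polynomial Module BraidData

variable {D : BraidData} (E : Emb D)

private theorem lift_gg_eq (n : ℕ) (w : FreeGroup (Fin 3)) :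
    FreeGroup.lift (gg n) w = PresentedGroup.mk {w | GRel n w} w := by
  have h : FreeGroup.lift (gg n) = PresentedGroup.mk {w | GRel n w} := by
    ext i
    simp [gg, PresentedGroup.of]
  rw [h]

private theorem gg_pow (n : ℕ) (g : Fin 3) : gg n g ^ leg n g = 1 := by
  have h := PresentedGroup.one_of_mem (rels := {w | GRel n w}) (GRel.pow (n := n) g)
  rw [← lift_gg_eq] at h
  simpa using h

/-- the map of the star group with killed legs onto the star group -/
private noncomputable def phiS (n : ℕ) (K : Fin 3 → Prop) : SG n K →* GG n :=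
  PresentedGroup.toGroup (f := gg n) (by
    intro r hr
    rw [lift_gg_eq]
    apply PresentedGroup.one_of_mem
    rcases hr with ⟨g, hg⟩ | ⟨g⟩
    · exact GRel.pow g
    · exact GRel.comm g)

private theorem phiS_mk (n : ℕ) (K : Fin 3 → Prop) (w : FreeGroup (Fin 3)) :
    phiS n K (QuotientGroup.mk w) = FreeGroup.lift (gg n) w := rfl

private theorem lift_comp (w : FreeGroup (Fin D.gens)) :
    FreeGroup.lift (fun i => FreeGroup.lift (gg E.n) (E.ι i)) w =
      FreeGroup.lift (gg E.n) (FreeGroup.lift E.ι w) := by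
  have h : FreeGroup.lift (fun i => FreeGroup.lift (gg E.n) (E.ι i)) =
      (FreeGroup.lift (gg E.n)).comp (FreeGroup.lift E.ι) := by
    ext i
    simp
  rw [h]
  rfl

private noncomputable def psiB : D.Braid →* GG E.n :=
  PresentedGroup.toGroup (f := fun i => FreeGroup.lift (gg E.n) (E.ι i)) (by
    rintro r ⟨p, hp, rfl⟩
    rw [lift_comp, map_mul, map_inv, map_mul, map_inv]
    have h := congrArg (phiS E.n fun g => E.lt g = .killed) (E.rel p hp)
    rw [phiS_mk, phiS_mk] at h
    rw [h, mul_inv_cancel])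

private theorem psiB_mk (w : FreeGroup (Fin D.gens)) :
    psiB E (QuotientGroup.mk w) = FreeGroup.lift (gg E.n) (FreeGroup.lift E.ι w) := by
  rw [← lift_comp]
  rfl

private theorem psiB_s (i : Fin D.gens) :
    psiB E (D.s i) = FreeGroup.lift (gg E.n) (E.ι i) := by
  have h := psiB_mk E (FreeGroup.of i)
  rw [FreeGroup.lift_apply_of] at h
  exact h

private theorem psiB_pow (i : Fin D.gens) : psiB E (D.s i ^ D.ord (D.cl i)) = 1 := by
  rw [map_pow, psiB_s]
  obtain ⟨g, v, h | h⟩ := E.gens i
  · obtain ⟨h1, h2⟩ := h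
    have h3 := congrArg (phiS E.n fun g => E.lt g = .killed) h2
    rw [phiS_mk, phiS_mk] at h3
    rw [h3, map_mul, map_mul, map_inv, FreeGroup.lift_apply_of, conj_pow, E.free_ord g _ h1,
      gg_pow, mul_one, mul_inv_cancel]
  · obtain ⟨h1, h2⟩ := h
    have h3 := congrArg (phiS E.n fun g => E.lt g = .killed) h2
    rw [phiS_mk, phiS_mk] at h3
    obtain ⟨hg, hn, ho⟩ := E.sq_ord g _ h1
    have h4 : (gg E.n g ^ 2) ^ 2 = 1 := by
      have h5 := gg_pow E.n g
      rw [hg] at h5 ⊢
      rw [← pow_mul]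
      have h6 : leg E.n 2 = 2 * 2 := by
        rw [hn]
        rfl
      rw [← h6]
      exact h5
    rw [h3, map_mul, map_mul, map_inv, map_pow, FreeGroup.lift_apply_of, conj_pow, ho,
      h4, mul_one, mul_inv_cancel]

theorem gg_one_of_refl (w : FreeGroup (Fin D.gens))
    (h : (QuotientGroup.mk (QuotientGroup.mk w : D.Braid) : D.Refl) = 1) :
    FreeGroup.lift (gg E.n) (FreeGroup.lift E.ι w) = 1 := by
  have h' : (QuotientGroup.mk (PresentedGroup.mk _ w : D.Braid) : D.Refl) = 1 := h
  have h0 : (PresentedGroup.mk _ w : D.Braid) ∈ Subgroup.normalClosure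
      (Set.range fun i : Fin D.gens => D.s i ^ D.ord (D.cl i)) :=
    (QuotientGroup.eq_one_iff (PresentedGroup.mk _ w : D.Braid)).1 h'
  have h1 : Subgroup.normalClosure (Set.range fun i : Fin D.gens => D.s i ^ D.ord (D.cl i)) ≤
      (psiB E).ker := by
    apply Subgroup.normalClosure_le_normal
    rintro x ⟨i, rfl⟩
    exact psiB_pow E i
  have h2 := MonoidHom.mem_ker.1 (h1 h0)
  exact (psiB_mk E w).symm.trans h2

/-- the projection of the braid group onto the reflection group -/
private noncomputable def piR (D : BraidData) : D.Braid →* D.Refl := QuotientGroup.mk' _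

private theorem piR_surj (x : D.Refl) : ∃ b, piR D b = x := QuotientGroup.mk'_surjective _ x

private theorem piR_pow (i : Fin D.gens) : piR D (D.s i) ^ D.ord (D.cl i) = 1 := by
  rw [← map_pow]
  exact (QuotientGroup.eq_one_iff _).2 (Subgroup.subset_normalClosure ⟨i, rfl⟩)

private noncomputable def zEx : D.Refl × Multiplicative ℤ :=
  (piR D E.w⁻¹, Multiplicative.ofAdd (E.m : ℤ))

private theorem w_central (x : D.Refl) : piR D E.w * x = x * piR D E.w := by
  obtain ⟨b, rfl⟩ := piR_surj x
  rw [← map_mul, ← map_mul, E.w_comm]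

private theorem zEx_comm (x : D.Refl × Multiplicative ℤ) : Commute (zEx E) x := by
  apply Prod.ext
  · show piR D E.w⁻¹ * x.1 = x.1 * piR D E.w⁻¹
    rw [map_inv]
    have h : Commute (piR D E.w) x.1 := w_central E x.1
    exact h.inv_left
  · show Multiplicative.ofAdd (E.m : ℤ) * x.2 = x.2 * Multiplicative.ofAdd (E.m : ℤ)
    rw [mul_comm]

private theorem zEx_normal : (Subgroup.zpowers (zEx E)).Normal := by
  constructor
  intro x hx y
  obtain ⟨k, rfl⟩ := Subgroup.mem_zpowers_iff.1 hx
  have h : Commute (zEx E ^ k) y := (zEx_comm E y).zpow_left k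
  rw [← h.eq, mul_inv_cancel_right]
  exact hx

private theorem zEx_zpow (j : ℤ) :
    zEx E ^ j = (piR D (E.w ^ (-j)), Multiplicative.ofAdd (E.m * j : ℤ)) := by
  apply Prod.ext
  · show (piR D E.w⁻¹) ^ j = piR D (E.w ^ (-j))
    rw [map_inv, map_zpow, inv_zpow, zpow_neg]
  · show (Multiplicative.ofAdd (E.m : ℤ)) ^ j = Multiplicative.ofAdd (E.m * j : ℤ)
    rw [← ofAdd_zsmul, smul_eq_mul, mul_comm]

/-- the pairs `(u_g, k_g)` in `W × ℤ` -/
private noncomputable def ug (g : Fin 3) : D.Refl × Multiplicative ℤ :=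
  (piR D (E.u g), Multiplicative.ofAdd (E.kk g))

private theorem ug_pow (g : Fin 3) : ug E g ^ leg E.n g ∈ Subgroup.zpowers (zEx E) := by
  rcases hl : E.lt g with c | _ | c
  · obtain ⟨hk, b, i, hi, hu⟩ := E.freeu g c hl
    have h : ug E g ^ leg E.n g = 1 := by
      apply Prod.ext
      · show (piR D (E.u g)) ^ leg E.n g = 1
        rw [hu, map_mul, map_mul, map_inv, conj_pow, ← E.free_ord g c hl, ← hi, piR_pow, mul_one,
          mul_inv_cancel]
      · show (Multiplicative.ofAdd (E.kk g)) ^ leg E.n g = 1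
        rw [hk, ofAdd_zero, one_pow]
    rw [h]
    exact one_mem _
  · obtain ⟨r, hr, hw⟩ := E.kill g hl
    have h : ug E g ^ leg E.n g = zEx E ^ r := by
      rw [zEx_zpow]
      apply Prod.ext
      · show (piR D (E.u g)) ^ leg E.n g = piR D (E.w ^ (-r))
        rw [← map_pow, zpow_neg, eq_inv_of_mul_eq_one_right hw]
      · show (Multiplicative.ofAdd (E.kk g)) ^ leg E.n g = Multiplicative.ofAdd (E.m * r : ℤ)
        rw [← hr, ← ofAdd_nsmul, nsmul_eq_mul, mul_comm]
    rw [h]
    exact Subgroup.zpow_mem_zpowers _ _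
  · obtain ⟨hg, hn, ho⟩ := E.sq_ord g c hl
    obtain ⟨r, hr, b, i, hi, hb⟩ := E.squ g c hl
    have hleg : leg E.n g = 2 * 2 := by
      rw [hg, hn]
      rfl
    have h : ug E g ^ leg E.n g = zEx E ^ (r + r) := by
      rw [zEx_zpow, hleg]
      apply Prod.ext
      · show (piR D (E.u g)) ^ (2 * 2) = piR D (E.w ^ (-(r + r)))
        have h1 : piR D (E.w ^ r * E.u g ^ 2) ^ 2 = 1 := by
          rw [hb, map_mul, map_mul, map_inv, conj_pow]
          have h2 := piR_pow i
          rw [hi, ho] at h2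
          rw [h2, mul_one, mul_inv_cancel]
        have hc : Commute (E.w ^ r) (E.u g ^ 2) := by
          have h3 : Commute E.w (E.u g ^ 2) := E.w_comm _
          exact h3.zpow_left r
        rw [← map_pow, hc.mul_pow, map_mul] at h1
        rw [pow_mul, ← map_pow, ← map_pow, zpow_neg, zpow_add, ← sq, map_inv]
        exact eq_inv_of_mul_eq_one_right h1
      · show (Multiplicative.ofAdd (E.kk g)) ^ (2 * 2) = Multiplicative.ofAdd (E.m * (r + r) : ℤ)
        rw [← ofAdd_nsmul, mul_add, ← hr]
        congr 1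
        simp
        ring
    rw [h]
    exact Subgroup.zpow_mem_zpowers _ _

private theorem ug_prod_comm (x : D.Refl × Multiplicative ℤ) :
    Commute (ug E 0 * ug E 1 * ug E 2) x := by
  obtain ⟨r, hr, hw⟩ := E.prod
  apply Prod.ext
  · show piR D (E.u 0) * piR D (E.u 1) * piR D (E.u 2) * x.1 =
      x.1 * (piR D (E.u 0) * piR D (E.u 1) * piR D (E.u 2))
    rw [← map_mul, ← map_mul, hw, map_zpow]
    have h : Commute (piR D E.w) x.1 := w_central E x.1
    exact h.zpow_left r
  · exact mul_comm _ _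

theorem refl_of_gg_one (w : FreeGroup (Fin D.gens))
    (h : FreeGroup.lift (gg E.n) (FreeGroup.lift E.ι w) = 1) :
    (QuotientGroup.mk (QuotientGroup.mk w : D.Braid) : D.Refl) = 1 := by
  have := zEx_normal E
  let q : D.Refl × Multiplicative ℤ →* (D.Refl × Multiplicative ℤ) ⧸ Subgroup.zpowers (zEx E) :=
    QuotientGroup.mk' _
  have hlift : ∀ v : FreeGroup (Fin 3), FreeGroup.lift (fun g => q (ug E g)) v =
      q (FreeGroup.lift (ug E) v) := by
    intro v
    have : FreeGroup.lift (fun g => q (ug E g)) = q.comp (FreeGroup.lift (ug E)) := by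
      ext i
      simp
    rw [this]
    rfl
  have hq1 : ∀ x, q x = 1 ↔ x ∈ Subgroup.zpowers (zEx E) := fun x => QuotientGroup.eq_one_iff x
  let χ : GG E.n →* (D.Refl × Multiplicative ℤ) ⧸ Subgroup.zpowers (zEx E) :=
    PresentedGroup.toGroup (f := fun g => q (ug E g)) (by
      rintro r (⟨g⟩ | ⟨g⟩)
      · rw [hlift, hq1, map_pow, FreeGroup.lift_apply_of]
        exact ug_pow E g
      · rw [hlift]
        simp only [map_mul, map_inv, FreeGroup.lift_apply_of]
        have h1 := (ug_prod_comm E (ug E g)).eq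
        rw [← map_mul, ← map_mul, ← map_mul, h1, map_mul, mul_assoc, mul_assoc,
          mul_inv_cancel_left, mul_inv_cancel])
  have hχ : ∀ v : FreeGroup (Fin 3), χ (FreeGroup.lift (gg E.n) v) =
      q (FreeGroup.lift (ug E) v) := by
    intro v
    rw [← hlift, lift_gg_eq]
    rfl
  have hug : ∀ v : FreeGroup (Fin 3), FreeGroup.lift (ug E) v =
      (MonoidHom.prodMap (piR D) (MonoidHom.id (Multiplicative ℤ)))
        (FreeGroup.lift (fun g => ((E.u g, Multiplicative.ofAdd (E.kk g)) :
          D.Braid × Multiplicative ℤ)) v) := by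
    intro v
    have : FreeGroup.lift (ug E) = (MonoidHom.prodMap (piR D) (MonoidHom.id (Multiplicative ℤ))).comp
        (FreeGroup.lift (fun g => ((E.u g, Multiplicative.ofAdd (E.kk g)) :
          D.Braid × Multiplicative ℤ))) := by
      ext i
      · simp [ug]
      · simp [ug]
    rw [this]
    rfl
  have hgen : ∀ i : Fin D.gens, q (FreeGroup.lift (ug E) (E.ι i)) = q (piR D (D.s i), 1) := by
    intro i
    obtain ⟨e, he⟩ := E.back i
    rw [hug, he]
    have h2 : (MonoidHom.prodMap (piR D) (MonoidHom.id (Multiplicative ℤ)))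
        (D.s i * E.w ^ e, Multiplicative.ofAdd (-(E.m * e : ℤ))) =
        (piR D (D.s i), 1) * zEx E ^ (-e) := by
      rw [zEx_zpow]
      apply Prod.ext
      · show piR D (D.s i * E.w ^ e) = piR D (D.s i) * piR D (E.w ^ (-(-e)))
        rw [map_mul, neg_neg]
      · show Multiplicative.ofAdd (-(E.m * e : ℤ)) = 1 * Multiplicative.ofAdd (E.m * (-e) : ℤ)
        rw [one_mul, mul_neg]
    rw [h2, map_mul, (hq1 _).2 (Subgroup.zpow_mem_zpowers _ _), mul_one]
  have hall : ∀ v : FreeGroup (Fin D.gens), q (FreeGroup.lift (ug E) (FreeGroup.lift E.ι v)) =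
      q (piR D (QuotientGroup.mk v), 1) := by
    intro v
    have : (q.comp (FreeGroup.lift (ug E))).comp (FreeGroup.lift E.ι) =
        (q.comp (MonoidHom.inl D.Refl (Multiplicative ℤ))).comp
          ((piR D).comp (PresentedGroup.mk _)) := by
      ext i
      simp only [MonoidHom.comp_apply, FreeGroup.lift_apply_of]
      rw [hgen]
      rfl
    exact DFunLike.congr_fun this v
  have h3 := hall w
  rw [← hχ, h, map_one] at h3
  have h4 := (hq1 _).1 h3.symm
  obtain ⟨j, hj⟩ := Subgroup.mem_zpowers_iff.1 h4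
  rw [zEx_zpow] at hj
  have h5 : Multiplicative.ofAdd (E.m * j : ℤ) = 1 := congrArg Prod.snd hj
  have h6 : (E.m * j : ℤ) = 0 := by
    rw [← ofAdd_zero] at h5
    exact Multiplicative.ofAdd.injective h5
  have h7 : j = 0 := by
    rcases mul_eq_zero.1 h6 with h8 | h8
    · exfalso
      have := E.hm
      omega
    · exact h8
  have h9 : piR D (E.w ^ (-j)) = piR D (QuotientGroup.mk w) := congrArg Prod.fst hj
  rw [h7, neg_zero, zpow_zero, map_one] at h9
  exact h9.symm

end SYM
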