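import Pool.Agent.Lib.MP_b1ea0f_al.EXTr

/-
MP_b1ea0f_al, module EXPt (about 40 lines).  The value at the group point.

D.θ r = toC D (dbl r) (toC_dbl), so D.θ (t.T (wE E w)) = toC D (Laurent.lift t.x (S.T (wd w))) (t.word)
= f (S.T (wd w)) with f = (toC D).comp (Laurent.lift t.x) : RR n →+* ℂ, and isGroupPoint_xE gives ξ with
IsGroupPoint ξ (mapx f (XX n)).  S.group ℂ f ξ _ w.
-/

namespace SYM
open Polynomial Module BraidData

variable {D : BraidData} {E : Emb D} {S : StarTrace E.n}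

theorem theta_T (t : TrE E S) (w : FreeGroup (Fin 3)) :
    (FreeGroup.lift (gg E.n) w = 1 → D.θ (t.T (wE E w : (AE E)ˣ)) = 1) ∧
    (FreeGroup.lift (gg E.n) w ≠ 1 → D.θ (t.T (wE E w : (AE E)ˣ)) = 0) := by
  obtain ⟨ξ, hξ⟩ := isGroupPoint_xE E t.x t.isLeg
  have key : D.θ (t.T (wE E w : (AE E)ˣ)) =
      ((toC D).comp (Laurent.lift t.x)) (S.T (wd E.n (XX E.n) w)) := by
    rw [← toC_dbl, t.word w]
    rfl
  have hS := S.group ℂ ((toC D).comp (Laurent.lift t.x)) ξ hξ w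
  rw [key]
  exact hS

end SYM
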