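import Pool.Agent.Lib.MP_b1ea0f_al.EXKap
import Pool.Agent.Lib.MP_b1ea0f_al.EXGr
import Pool.Agent.Lib.MP_b1ea0f_al.EXFrob
import Pool.Agent.Lib.MP_b1ea0f_al.EXBar
import Pool.Agent.Lib.MP_b1ea0f_al.EXGrp
import Pool.Agent.Lib.MP_b1ea0f_al.EXPt

/-!
# MP_b1ea0f_al, module EXAsm: the descent theorem
-/

namespace SYM
open Polynomial Module BraidData

theorem bmm_of_emb (D : BraidData) (E : Emb D) (S : StarTrace E.n) : D.BMM := by
  obtain ⟨t⟩ := exists_TrE E S
  obtain ⟨I⟩ := exists_iota E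
  obtain ⟨lam, hlam⟩ := exists_lam E I
  set τ : D.HW →ₗ[D.R] D.R := t.T ∘ₗ I.i.toLinearMap with hτ
  have hτa : ∀ h, τ h = t.T (I.i h) := fun _ => rfl
  have hF : Frob τ := frob_descent I.i (zE E) (zE_comm E) E.m E.hm lam hlam (exists_decomp E I)
    t.T t.frob (fun l h0 hl h => T_gr t I l h0 hl h)
  have hc : ∀ h h', τ (h * h') = τ (h' * h) := by
    intro h h'
    rw [hτa, hτa, map_mul I.i, map_mul I.i, t.comm]
  have hbar : ∀ b : D.Braid, D.star (τ (D.T _ b⁻¹)) * τ (D.T _ D.pi) = τ (D.T _ (b * D.pi)) := by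
    intro b
    rw [hτa, hτa, hτa]
    exact tau_bar t I b
  have h1 : τ (D.T _ 1) = 1 := by
    rw [hτa, map_one (D.T _), map_one I.i, t.one]
  refine ⟨frob_finite τ hF, frob_projective τ hF, τ, hc, frob_bijective τ hF hc, ?_, ?_, hbar⟩
  · intro b
    obtain ⟨w, rfl⟩ := QuotientGroup.mk_surjective b
    have h2 : τ (D.T _ (QuotientGroup.mk w : D.Braid)) =
        t.T (wE E (FreeGroup.lift E.ι w) : (AE E)ˣ) := by
      rw [hτa, I.word]
    have h3 := theta_T t (FreeGroup.lift E.ι w)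
    constructor
    · intro hw
      refine Eq.trans (congrArg _ h2) (h3.1 ?_)
      exact gg_one_of_refl E w hw
    · intro hw
      refine Eq.trans (congrArg _ h2) (h3.2 ?_)
      intro hw2
      exact hw (refl_of_gg_one E w hw2)
  · have h4 := hbar D.pi⁻¹
    rw [inv_mul_cancel, h1, inv_inv] at h4
    exact IsUnit.of_mul_eq_one_right _ h4

end SYM
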