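import Pool.Agent.Lib.MP_b1ea0f_al.EWords

/-!
# MP_b1ea0f_al: embedding data of `G13`

`b³ = 1`, `s = c²`, `t = a`, `u = cac⁻¹`, `b = Z⁻² ust`, `c = Z³ (tust)⁻¹`, `m = 6`, `w = (stu)³`.
-/

set_option linter.unusedSimpArgs false
set_option linter.unusedTactic false
set_option linter.unreachableTactic false
set_option linter.unusedVariables false

namespace SYM
open BraidData EmbW

theorem embG13aux :
    Nonempty (Emb ⟨3, 2, ![0,1,1], fun _ => 2,
      [([1,2,0,1],[2,0,1,2]),([0,1,2,0,1],[2,0,1,2,0])], [0,1,2,0,1,2,0,1,2], 4⟩) := by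
  set D : BraidData := ⟨3, 2, ![0,1,1], fun _ => 2,
      [([1,2,0,1],[2,0,1,2]),([0,1,2,0,1],[2,0,1,2,0])], [0,1,2,0,1,2,0,1,2], 4⟩ with hD
  let s : D.Braid := D.s (0 : Fin 3)
  let t : D.Braid := D.s (1 : Fin 3)
  let u : D.Braid := D.s (2 : Fin 3)
  have hr1 : t*(u*(s*t)) = u*(s*(t*u)) := by
    have := s_rel D (p := ([1,2,0,1],[2,0,1,2])) (List.mem_cons_self)
    simp only [List.map_cons, List.map_nil, List.prod_cons, List.prod_nil, mul_one] at this
    exact this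
  have hr2 : s*(t*(u*(s*t))) = u*(s*(t*(u*s))) := by
    have := s_rel D (p := ([0,1,2,0,1],[2,0,1,2,0])) (List.mem_cons_of_mem _ (List.mem_singleton.2 rfl))
    simp only [List.map_cons, List.map_nil, List.prod_cons, List.prod_nil, mul_one] at this
    exact this
  obtain ⟨hws, hwt, hwu, b4, b5, b6, b7, b8⟩ := br13 hr1 hr2
  let lt : Fin 3 → LegT D := ![LegT.free (1 : Fin 2), LegT.killed, LegT.sq (0 : Fin 2)]
  let K : Fin 3 → Prop := fun g => lt g = .killed
  let φ : FreeGroup (Fin 3) →* SG 4 K := PresentedGroup.mk _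
  let a : SG 4 K := PresentedGroup.of 0
  let b : SG 4 K := PresentedGroup.of 1
  let c : SG 4 K := PresentedGroup.of 2
  let ι : Fin 3 → FreeGroup (Fin 3) := ![FreeGroup.of 2 ^ 2, FreeGroup.of 0, FreeGroup.of 2 * FreeGroup.of 0 * (FreeGroup.of 2)⁻¹]
  let ψ : FreeGroup (Fin D.gens) →* SG 4 K := φ.comp (FreeGroup.lift ι)
  let S : FreeGroup (Fin D.gens) := FreeGroup.of (0 : Fin 3)
  let T : FreeGroup (Fin D.gens) := FreeGroup.of (1 : Fin 3)
  let U : FreeGroup (Fin D.gens) := FreeGroup.of (2 : Fin 3)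
  have hS : ψ S = c ^ 2 := by
    simp only [ψ, S, MonoidHom.comp_apply, FreeGroup.lift_apply_of]; rfl
  have hT : ψ T = a := by
    simp only [ψ, T, MonoidHom.comp_apply, FreeGroup.lift_apply_of]; rfl
  have hU : ψ U = c * a * c⁻¹ := by
    simp only [ψ, U, MonoidHom.comp_apply, FreeGroup.lift_apply_of]; rfl
  obtain ⟨q1, q2, q3, q4, q5⟩ := rel13 a b c (c ^ 2) (c * a * c⁻¹) (SG.pow (n := 4) (K := K) 1 rfl) (SG.comm 1)
    (SG.comm 2) rfl rfl
  refine ⟨⟨4, Or.inr (Or.inl rfl), 6, by norm_num, (s * t * u) ^ 3, lt, ι, ![0, -2, 3], ![t, u * s * t, (t * u * s * t)⁻¹],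
    ?_, ?_, ?_, ?_, ?_, ?_, ?_, ?_, ?_, ?_, ?_, ?_, ![T, U * S * T, (T * U * S * T)⁻¹], ?_, ?_, (S * T * U) ^ 3,
    ?_, ?_, ?_, ?_, ?_, ?_, ?_⟩⟩
  · -- w_comm
    refine s_comm D _ ?_
    show ∀ i : Fin 3, _
    intro i
    fin_cases i
    · exact hws
    · exact hwt
    · exact hwu
  · -- free_ord
    show ∀ g : Fin 3, ∀ c : Fin 2, _
    intro g c h
    fin_cases g
    · obtain rfl : (1 : Fin 2) = c := by simpa [lt] using h
      exact rfl
    · simp [lt] at h
    · simp [lt] at h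
  · -- sq_ord
    show ∀ g : Fin 3, ∀ c : Fin 2, _
    intro g c h
    fin_cases g
    · simp [lt] at h
    · simp [lt] at h
    · obtain rfl : (0 : Fin 2) = c := by simpa [lt] using h
      exact ⟨rfl, rfl, rfl⟩
  · -- par
    show ∀ c : Fin 2, _
    intro c
    fin_cases c
    · exact ⟨2, Or.inr rfl⟩
    · exact ⟨0, Or.inl rfl⟩
  · -- inj
    show ∀ g g' : Fin 3, ∀ c : Fin 2, _
    intro g g' c h h'
    fin_cases g <;> fin_cases g' <;> first
      | rfl
      | (exfalso; simp [lt] at h h'; done)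
      | (exfalso; simp [lt] at h h'; exact absurd (show (0 : ℕ) = 1 from congrArg Fin.val (h.trans h'.symm)) (by decide))
      | (exfalso; simp [lt] at h h'; exact absurd (show (1 : ℕ) = 0 from congrArg Fin.val (h.trans h'.symm)) (by decide))
  · -- rel
    intro p hp
    rw [List.mem_pair] at hp
    rcases hp with rfl | rfl
    · show ψ (T * (U * (S * (T * 1)))) = ψ (U * (S * (T * (U * 1))))
      simp only [map_mul, map_one, mul_one, hS, hT, hU]
      exact q1
    · show ψ (S * (T * (U * (S * (T * 1))))) = ψ (U * (S * (T * (U * (S * 1)))))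
      simp only [map_mul, map_one, mul_one, hS, hT, hU]
      exact q2
  · -- prod
    refine ⟨0, rfl, ?_⟩
    show t * (u * s * t) * (t * u * s * t)⁻¹ = ((s * t * u) ^ 3) ^ (0 : ℤ)
    rw [zpow_zero]; exact b8
  · -- kill
    intro g hg
    fin_cases g
    · simp [lt] at hg
    · refine ⟨-1, rfl, ?_⟩
      show ((s * t * u) ^ 3) ^ (-1 : ℤ) * (u * s * t) ^ 3 = 1
      rw [zpow_neg_one]; exact b4
    · simp [lt] at hg
  · -- freeu
    show ∀ g : Fin 3, ∀ c : Fin 2, _
    intro g c h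
    fin_cases g
    · obtain rfl : (1 : Fin 2) = c := by simpa [lt] using h
      exact ⟨rfl, 1, (1 : Fin 3), rfl, by rw [one_mul, inv_one, mul_one]; rfl⟩
    · simp [lt] at h
    · simp [lt] at h
  · -- squ
    show ∀ g : Fin 3, ∀ c : Fin 2, _
    intro g c h
    fin_cases g
    · simp [lt] at h
    · simp [lt] at h
    · obtain rfl : (0 : Fin 2) = c := by simpa [lt] using h
      refine ⟨1, rfl, 1, (0 : Fin 3), rfl, ?_⟩
      show ((s * t * u) ^ 3) ^ (1 : ℤ) * ((t * u * s * t)⁻¹) ^ 2 = 1 * s * 1⁻¹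
      rw [zpow_one, one_mul, inv_one, mul_one]; exact b5
  · -- gens
    show ∀ i : Fin 3, _
    intro i
    fin_cases i
    · refine ⟨2, 1, Or.inr ⟨rfl, ?_⟩⟩
      rw [one_mul, inv_one, mul_one]; rfl
    · refine ⟨0, 1, Or.inl ⟨rfl, ?_⟩⟩
      rw [one_mul, inv_one, mul_one]; rfl
    · refine ⟨0, FreeGroup.of 2, Or.inl ⟨rfl, ?_⟩⟩
      rfl
  · -- back
    show ∀ i : Fin 3, _
    intro i
    fin_cases i
    · refine ⟨-1, ?_⟩
      show FreeGroup.lift (fun g => (((![t, u * s * t, (t * u * s * t)⁻¹] : Fin 3 → D.Braid) g,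
        Multiplicative.ofAdd ((![0, -2, 3] : Fin 3 → ℤ) g)) : D.Braid × Multiplicative ℤ)) (FreeGroup.of 2 ^ 2) = _
      simp only [map_mul, map_inv, map_pow, FreeGroup.lift_apply_of]
      refine Prod.ext ?_ ?_
      · show ((t * u * s * t)⁻¹) ^ 2 = s * ((s * t * u) ^ 3) ^ (-1 : ℤ)
        rw [zpow_neg_one, pow_two]; exact b7
      · rfl
    · refine ⟨0, ?_⟩
      show FreeGroup.lift (fun g => (((![t, u * s * t, (t * u * s * t)⁻¹] : Fin 3 → D.Braid) g,
        Multiplicative.ofAdd ((![0, -2, 3] : Fin 3 → ℤ) g)) : D.Braid × Multiplicative ℤ)) (FreeGroup.of 0) = _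
      simp only [map_mul, map_inv, map_pow, FreeGroup.lift_apply_of]
      refine Prod.ext ?_ ?_
      · show t = t * ((s * t * u) ^ 3) ^ (0 : ℤ)
        rw [zpow_zero, mul_one]
      · rfl
    · refine ⟨0, ?_⟩
      show FreeGroup.lift (fun g => (((![t, u * s * t, (t * u * s * t)⁻¹] : Fin 3 → D.Braid) g,
        Multiplicative.ofAdd ((![0, -2, 3] : Fin 3 → ℤ) g)) : D.Braid × Multiplicative ℤ)) (FreeGroup.of 2 * FreeGroup.of 0 * (FreeGroup.of 2)⁻¹) = _
      simp only [map_mul, map_inv, map_pow, FreeGroup.lift_apply_of]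
      refine Prod.ext ?_ ?_
      · show (t * u * s * t)⁻¹ * t * ((t * u * s * t)⁻¹)⁻¹ = u * ((s * t * u) ^ 3) ^ (0 : ℤ)
        rw [zpow_zero, mul_one, inv_inv]; exact b6
      · rfl
  · -- uw_eq
    intro g
    fin_cases g <;> rfl
  · -- forth
    intro g
    fin_cases g
    · show a = (a * b * c) ^ (0 : ℤ) * ψ (T)
      simp only [map_mul, map_inv, map_pow, hS, hT, hU]
      rw [zpow_zero, one_mul]
    · show b = (a * b * c) ^ (-2 : ℤ) * ψ (U * S * T)
      simp only [map_mul, map_inv, map_pow, hS, hT, hU]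
      rw [zpow_neg, show (2 : ℤ) = ((2 : ℕ) : ℤ) from rfl, zpow_natCast]; exact q3
    · show c = (a * b * c) ^ (3 : ℤ) * ψ ((T * U * S * T)⁻¹)
      simp only [map_mul, map_inv, map_pow, hS, hT, hU]
      rw [show (3 : ℤ) = ((3 : ℕ) : ℤ) from rfl, zpow_natCast]; exact q4
  · -- ww_eq
    rfl
  · -- forthw
    show (a * b * c) ^ 6 = ψ ((S * T * U) ^ 3)
    simp only [map_mul, map_inv, map_pow, hS, hT, hU]
    rw [q5]; simp only [mul_assoc, mul_inv_rev, inv_inv, inv_one, mul_one, one_mul, inv_mul_cancel_left, mul_inv_cancel_left, inv_mul_cancel, mul_inv_cancel, pow_succ, pow_zero, and_true, true_and, and_self]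
  · -- exK
    show ∀ g : Fin 3, lt g = .killed → ∀ i : Fin 3, _
    intro g hg i
    fin_cases g
    · simp [lt] at hg
    · fin_cases i <;> simp [ι, expo]
    · simp [lt] at hg
  · -- exS
    show ∀ g : Fin 3, ∀ c : Fin 2, _ → ∀ i : Fin 3, _
    intro g c h i
    fin_cases g
    · simp [lt] at h
    · simp [lt] at h
    · fin_cases i <;> simp [ι, expo]
  · -- lcm
    intro j h h2
    have h0 : (2 : ℤ) ∣ j := h2 2 (0 : Fin 2) rfl
    have h1 : (3 : ℤ) ∣ j := h 1 rfl
    show (6 : ℤ) ∣ j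
    omega
  · -- mz
    exact rfl
  · -- centre
    show ([D.s (0 : Fin 3), D.s (1 : Fin 3), D.s (2 : Fin 3), D.s (0 : Fin 3), D.s (1 : Fin 3), D.s (2 : Fin 3), D.s (0 : Fin 3), D.s (1 : Fin 3), D.s (2 : Fin 3)]).prod = (s * t * u) ^ 3
    simp only [List.prod_cons, List.prod_nil]
    simp only [mul_assoc, mul_inv_rev, inv_inv, inv_one, mul_one, one_mul, inv_mul_cancel_left, mul_inv_cancel_left, inv_mul_cancel, mul_inv_cancel, pow_succ, pow_zero, and_true, true_and, and_self]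
    rfl

theorem embG13 : Nonempty (Emb G13) := embG13aux

end SYM
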