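import Pool.Agent.Lib.MP_b1ea0f_al.EWords

/-!
# MP_b1ea0f_al: embedding data of `G20`

`a² = c⁵ = 1`, `s = b`, `t = aba⁻¹`, `a = Z⁵ (ststs)⁻¹`, `c = Z⁻⁴ (ts)²`, `m = 10`, `w = (st)⁵`.
-/

set_option linter.unusedSimpArgs false
set_option linter.unusedTactic false
set_option linter.unreachableTactic false
set_option linter.unusedVariables false

namespace SYM
open BraidData EmbW

theorem embG20aux :
    Nonempty (Emb ⟨2, 1, fun _ => 0, fun _ => 3, [([0,1,0,1,0],[1,0,1,0,1])],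
      [0,1,0,1,0,1,0,1,0,1], 6⟩) := by
  set D : BraidData := ⟨2, 1, fun _ => 0, fun _ => 3, [([0,1,0,1,0],[1,0,1,0,1])],
      [0,1,0,1,0,1,0,1,0,1], 6⟩ with hD
  let s : D.Braid := D.s (0 : Fin 2)
  let t : D.Braid := D.s (1 : Fin 2)
  have hr1 : s*(t*(s*(t*s))) = t*(s*(t*(s*t))) := by
    have := s_rel D (p := ([0,1,0,1,0],[1,0,1,0,1])) (List.mem_singleton.2 rfl)
    simp only [List.map_cons, List.map_nil, List.prod_cons, List.prod_nil, mul_one] at this
    exact this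
  obtain ⟨hws, hwt, b3, b4, b5, b6⟩ := br20 hr1
  let lt : Fin 3 → LegT D := ![LegT.killed, LegT.free (0 : Fin 1), LegT.killed]
  let K : Fin 3 → Prop := fun g => lt g = .killed
  let φ : FreeGroup (Fin 3) →* SG 5 K := PresentedGroup.mk _
  let a : SG 5 K := PresentedGroup.of 0
  let b : SG 5 K := PresentedGroup.of 1
  let c : SG 5 K := PresentedGroup.of 2
  let ι : Fin 2 → FreeGroup (Fin 3) := ![FreeGroup.of 1, FreeGroup.of 0 * FreeGroup.of 1 * (FreeGroup.of 0)⁻¹]
  let ψ : FreeGroup (Fin D.gens) →* SG 5 K := φ.comp (FreeGroup.lift ι)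
  let S : FreeGroup (Fin D.gens) := FreeGroup.of (0 : Fin 2)
  let T : FreeGroup (Fin D.gens) := FreeGroup.of (1 : Fin 2)
  have hS : ψ S = b := by
    simp only [ψ, S, MonoidHom.comp_apply, FreeGroup.lift_apply_of]; rfl
  have hT : ψ T = a * b * a⁻¹ := by
    simp only [ψ, T, MonoidHom.comp_apply, FreeGroup.lift_apply_of]; rfl
  obtain ⟨q1, q2, q3, q4⟩ := rel20 a b c (a * b * a⁻¹) (SG.pow (n := 5) (K := K) 0 rfl) (SG.pow (n := 5) (K := K) 2 rfl)
    (SG.comm 0) (SG.comm 2) rfl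
  refine ⟨⟨5, Or.inr (Or.inr rfl), 10, by norm_num, (s * t) ^ 5, lt, ι, ![5, 0, -4], ![(s * t * s * t * s)⁻¹, s, t * s * t * s],
    ?_, ?_, ?_, ?_, ?_, ?_, ?_, ?_, ?_, ?_, ?_, ?_, ![(S * T * S * T * S)⁻¹, S, T * S * T * S], ?_, ?_, (S * T) ^ 5,
    ?_, ?_, ?_, ?_, ?_, ?_, ?_⟩⟩
  · -- w_comm
    refine s_comm D _ ?_
    show ∀ i : Fin 2, _
    intro i
    fin_cases i
    · exact hws
    · exact hwt
  · -- free_ord
    show ∀ g : Fin 3, ∀ c : Fin 1, _
    intro g c h
    fin_cases g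
    · simp [lt] at h
    · obtain rfl : c = 0 := Subsingleton.elim _ _
      exact rfl
    · simp [lt] at h
  · -- sq_ord
    show ∀ g : Fin 3, ∀ c : Fin 1, _
    intro g c h
    fin_cases g
    · simp [lt] at h
    · simp [lt] at h
    · simp [lt] at h
  · -- par
    show ∀ c : Fin 1, _
    intro c
    fin_cases c
    · exact ⟨1, Or.inl rfl⟩
  · -- inj
    show ∀ g g' : Fin 3, ∀ c : Fin 1, _
    intro g g' c h h'
    fin_cases g <;> fin_cases g' <;> first
      | rfl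
      | (exfalso; simp [lt] at h h'; done)
  · -- rel
    intro p hp
    rw [List.mem_singleton] at hp
    subst hp
    · show ψ (S * (T * (S * (T * (S * 1))))) = ψ (T * (S * (T * (S * (T * 1)))))
      simp only [map_mul, map_one, mul_one, hS, hT]
      exact q1
  · -- prod
    refine ⟨0, rfl, ?_⟩
    show (s * t * s * t * s)⁻¹ * s * (t * s * t * s) = ((s * t) ^ 5) ^ (0 : ℤ)
    rw [zpow_zero]; exact b6
  · -- kill
    intro g hg
    fin_cases g
    · refine ⟨1, rfl, ?_⟩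
      show ((s * t) ^ 5) ^ (1 : ℤ) * ((s * t * s * t * s)⁻¹) ^ 2 = 1
      rw [zpow_one]; exact b3
    · simp [lt] at hg
    · refine ⟨-2, rfl, ?_⟩
      show ((s * t) ^ 5) ^ (-2 : ℤ) * (t * s * t * s) ^ 5 = 1
      rw [show (-2 : ℤ) = -1 + -1 from rfl, zpow_add, zpow_neg_one]; exact b4
  · -- freeu
    show ∀ g : Fin 3, ∀ c : Fin 1, _
    intro g c h
    fin_cases g
    · simp [lt] at h
    · obtain rfl : c = 0 := Subsingleton.elim _ _
      exact ⟨rfl, 1, (0 : Fin 2), rfl, by rw [one_mul, inv_one, mul_one]; rfl⟩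
    · simp [lt] at h
  · -- squ
    show ∀ g : Fin 3, ∀ c : Fin 1, _
    intro g c h
    fin_cases g
    · simp [lt] at h
    · simp [lt] at h
    · simp [lt] at h
  · -- gens
    show ∀ i : Fin 2, _
    intro i
    fin_cases i
    · refine ⟨1, 1, Or.inl ⟨rfl, ?_⟩⟩
      rw [one_mul, inv_one, mul_one]; rfl
    · refine ⟨1, FreeGroup.of 0, Or.inl ⟨rfl, ?_⟩⟩
      rfl
  · -- back
    show ∀ i : Fin 2, _
    intro i
    fin_cases i
    · refine ⟨0, ?_⟩
      show FreeGroup.lift (fun g => (((![(s * t * s * t * s)⁻¹, s, t * s * t * s] : Fin 3 → D.Braid) g,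
        Multiplicative.ofAdd ((![5, 0, -4] : Fin 3 → ℤ) g)) : D.Braid × Multiplicative ℤ)) (FreeGroup.of 1) = _
      simp only [map_mul, map_inv, map_pow, FreeGroup.lift_apply_of]
      refine Prod.ext ?_ ?_
      · show s = s * ((s * t) ^ 5) ^ (0 : ℤ)
        rw [zpow_zero, mul_one]
      · rfl
    · refine ⟨0, ?_⟩
      show FreeGroup.lift (fun g => (((![(s * t * s * t * s)⁻¹, s, t * s * t * s] : Fin 3 → D.Braid) g,
        Multiplicative.ofAdd ((![5, 0, -4] : Fin 3 → ℤ) g)) : D.Braid × Multiplicative ℤ)) (FreeGroup.of 0 * FreeGroup.of 1 * (FreeGroup.of 0)⁻¹) = _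
      simp only [map_mul, map_inv, map_pow, FreeGroup.lift_apply_of]
      refine Prod.ext ?_ ?_
      · show (s * t * s * t * s)⁻¹ * s * ((s * t * s * t * s)⁻¹)⁻¹ = t * ((s * t) ^ 5) ^ (0 : ℤ)
        rw [zpow_zero, mul_one, inv_inv]; exact b5
      · rfl
  · -- uw_eq
    intro g
    fin_cases g <;> rfl
  · -- forth
    intro g
    fin_cases g
    · show a = (a * b * c) ^ (5 : ℤ) * ψ ((S * T * S * T * S)⁻¹)
      simp only [map_mul, map_inv, map_pow, hS, hT]
      rw [show (5 : ℤ) = ((5 : ℕ) : ℤ) from rfl, zpow_natCast]; exact q2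
    · show b = (a * b * c) ^ (0 : ℤ) * ψ (S)
      simp only [map_mul, map_inv, map_pow, hS, hT]
      rw [zpow_zero, one_mul]
    · show c = (a * b * c) ^ (-4 : ℤ) * ψ (T * S * T * S)
      simp only [map_mul, map_inv, map_pow, hS, hT]
      rw [zpow_neg, show (4 : ℤ) = ((4 : ℕ) : ℤ) from rfl, zpow_natCast]; exact q3
  · -- ww_eq
    rfl
  · -- forthw
    show (a * b * c) ^ 10 = ψ ((S * T) ^ 5)
    simp only [map_mul, map_inv, map_pow, hS, hT]
    rw [q4]; simp only [mul_assoc, mul_inv_rev, inv_inv, inv_one, mul_one, one_mul, inv_mul_cancel_left, mul_inv_cancel_left, inv_mul_cancel, mul_inv_cancel, pow_succ, pow_zero, and_true, true_and, and_self]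
  · -- exK
    show ∀ g : Fin 3, lt g = .killed → ∀ i : Fin 2, _
    intro g hg i
    fin_cases g
    · fin_cases i <;> simp [ι, expo]
    · simp [lt] at hg
    · fin_cases i <;> simp [ι, expo]
  · -- exS
    show ∀ g : Fin 3, ∀ c : Fin 1, _ → ∀ i : Fin 2, _
    intro g c h i
    fin_cases g
    · simp [lt] at h
    · simp [lt] at h
    · simp [lt] at h
  · -- lcm
    intro j h h2
    have h0 : (2 : ℤ) ∣ j := h 0 rfl
    have h1 : (5 : ℤ) ∣ j := h 2 rfl
    show (10 : ℤ) ∣ j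
    omega
  · -- mz
    exact rfl
  · -- centre
    show ([D.s (0 : Fin 2), D.s (1 : Fin 2), D.s (0 : Fin 2), D.s (1 : Fin 2), D.s (0 : Fin 2), D.s (1 : Fin 2), D.s (0 : Fin 2), D.s (1 : Fin 2), D.s (0 : Fin 2), D.s (1 : Fin 2)]).prod = (s * t) ^ 5
    simp only [List.prod_cons, List.prod_nil]
    simp only [mul_assoc, mul_inv_rev, inv_inv, inv_one, mul_one, one_mul, inv_mul_cancel_left, mul_inv_cancel_left, inv_mul_cancel, mul_inv_cancel, pow_succ, pow_zero, and_true, true_and, and_self]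
    rfl

theorem embG20 : Nonempty (Emb G20) := embG20aux

end SYM
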