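import Pool.Agent.Lib.MP_b1ea0f_al.EWords

/-!
# MP_b1ea0f_al: embedding data of `G14`

`cⁿ = 1`, `s = a`, `t = b`, `c = Z (ab)⁻¹`, `m = n`, `w = (st)ⁿ`.
-/

set_option linter.unusedSimpArgs false
set_option linter.unusedTactic false
set_option linter.unreachableTactic false
set_option linter.unusedVariables false

namespace SYM
open BraidData EmbW

theorem embC4 :
    Nonempty (Emb ⟨2, 2, id, ![2,3], [([0,1,0,1,0,1,0,1],[1,0,1,0,1,0,1,0])], [0,1,0,1,0,1,0,1], 6⟩) := by
  set D : BraidData := ⟨2, 2, id, ![2,3], [([0,1,0,1,0,1,0,1],[1,0,1,0,1,0,1,0])], [0,1,0,1,0,1,0,1], 6⟩ with hD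
  let s : D.Braid := D.s (0 : Fin 2)
  let t : D.Braid := D.s (1 : Fin 2)
  have hr1 : (s * t) ^ 4 = (t * s) ^ 4 := by
    have := s_rel D (p := ([0,1,0,1,0,1,0,1],[1,0,1,0,1,0,1,0])) (List.mem_singleton.2 rfl)
    simp only [List.map_cons, List.map_nil, List.prod_cons, List.prod_nil, mul_one] at this
    simp only [mul_assoc, mul_inv_rev, inv_inv, inv_one, mul_one, one_mul, inv_mul_cancel_left, mul_inv_cancel_left, inv_mul_cancel, mul_inv_cancel, pow_succ, pow_zero, and_true, true_and, and_self]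
    exact this
  obtain ⟨hws, hwt⟩ := brE hr1
  let lt : Fin 3 → LegT D := ![LegT.free (0 : Fin 2), LegT.free (1 : Fin 2), LegT.killed]
  let K : Fin 3 → Prop := fun g => lt g = .killed
  let φ : FreeGroup (Fin 3) →* SG 4 K := PresentedGroup.mk _
  let a : SG 4 K := PresentedGroup.of 0
  let b : SG 4 K := PresentedGroup.of 1
  let c : SG 4 K := PresentedGroup.of 2
  let ι : Fin 2 → FreeGroup (Fin 3) := ![FreeGroup.of 0, FreeGroup.of 1]
  let ψ : FreeGroup (Fin D.gens) →* SG 4 K := φ.comp (FreeGroup.lift ι)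
  let S : FreeGroup (Fin D.gens) := FreeGroup.of (0 : Fin 2)
  let T : FreeGroup (Fin D.gens) := FreeGroup.of (1 : Fin 2)
  have hS : ψ S = a := by
    simp only [ψ, S, MonoidHom.comp_apply, FreeGroup.lift_apply_of]; rfl
  have hT : ψ T = b := by
    simp only [ψ, T, MonoidHom.comp_apply, FreeGroup.lift_apply_of]; rfl
  obtain ⟨q1, q2, q3⟩ := relC4 a b c (SG.pow (n := 4) (K := K) 2 rfl) (SG.comm 0) (SG.comm 2)
  refine ⟨⟨4, Or.inr (Or.inl rfl), 4, by norm_num, (s * t) ^ 4, lt, ι, ![0, 0, 1], ![s, t, (s * t)⁻¹],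
    ?_, ?_, ?_, ?_, ?_, ?_, ?_, ?_, ?_, ?_, ?_, ?_, ![S, T, (S * T)⁻¹], ?_, ?_, (S * T) ^ 4,
    ?_, ?_, ?_, ?_, ?_, ?_, ?_⟩⟩
  · -- w_comm
    refine s_comm D _ ?_
    show ∀ i : Fin 2, _
    intro i
    fin_cases i
    · exact hws
    · exact hwt
  · -- free_ord
    show ∀ g : Fin 3, ∀ c : Fin 2, _
    intro g c h
    fin_cases g
    · obtain rfl : (0 : Fin 2) = c := by simpa [lt] using h
      exact rfl
    · obtain rfl : (1 : Fin 2) = c := by simpa [lt] using h
      exact rfl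
    · simp [lt] at h
  · -- sq_ord
    show ∀ g : Fin 3, ∀ c : Fin 2, _
    intro g c h
    fin_cases g
    · simp [lt] at h
    · simp [lt] at h
    · simp [lt] at h
  · -- par
    show ∀ c : Fin 2, _
    intro c
    fin_cases c
    · exact ⟨0, Or.inl rfl⟩
    · exact ⟨1, Or.inl rfl⟩
  · -- inj
    show ∀ g g' : Fin 3, ∀ c : Fin 2, _
    intro g g' c h h'
    fin_cases g <;> fin_cases g' <;> first
      | rfl
      | (exfalso; simp [lt] at h h'; done)
      | (exfalso; simp [lt] at h h'; exact absurd (show (0 : ℕ) = 1 from congrArg Fin.val (h.trans h'.symm)) (by decide))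
      | (exfalso; simp [lt] at h h'; exact absurd (show (1 : ℕ) = 0 from congrArg Fin.val (h.trans h'.symm)) (by decide))
  · -- rel
    intro p hp
    rw [List.mem_singleton] at hp
    subst hp
    · show ψ (S * (T * (S * (T * (S * (T * (S * (T * 1)))))))) = ψ (T * (S * (T * (S * (T * (S * (T * (S * 1))))))))
      simp only [map_mul, map_one, mul_one, hS, hT]
      exact q1
  · -- prod
    refine ⟨0, rfl, ?_⟩
    show s * t * (s * t)⁻¹ = ((s * t) ^ 4) ^ (0 : ℤ)
    rw [zpow_zero]; simp only [mul_assoc, mul_inv_rev, inv_inv, inv_one, mul_one, one_mul, inv_mul_cancel_left, mul_inv_cancel_left, inv_mul_cancel, mul_inv_cancel, pow_succ, pow_zero, and_true, true_and, and_self]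
  · -- kill
    intro g hg
    fin_cases g
    · simp [lt] at hg
    · simp [lt] at hg
    · refine ⟨1, rfl, ?_⟩
      show ((s * t) ^ 4) ^ (1 : ℤ) * ((s * t)⁻¹) ^ 4 = 1
      rw [zpow_one]; simp only [mul_assoc, mul_inv_rev, inv_inv, inv_one, mul_one, one_mul, inv_mul_cancel_left, mul_inv_cancel_left, inv_mul_cancel, mul_inv_cancel, pow_succ, pow_zero, and_true, true_and, and_self]
  · -- freeu
    show ∀ g : Fin 3, ∀ c : Fin 2, _
    intro g c h
    fin_cases g
    · obtain rfl : (0 : Fin 2) = c := by simpa [lt] using h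
      exact ⟨rfl, 1, (0 : Fin 2), rfl, by rw [one_mul, inv_one, mul_one]; rfl⟩
    · obtain rfl : (1 : Fin 2) = c := by simpa [lt] using h
      exact ⟨rfl, 1, (1 : Fin 2), rfl, by rw [one_mul, inv_one, mul_one]; rfl⟩
    · simp [lt] at h
  · -- squ
    show ∀ g : Fin 3, ∀ c : Fin 2, _
    intro g c h
    fin_cases g
    · simp [lt] at h
    · simp [lt] at h
    · simp [lt] at h
  · -- gens
    show ∀ i : Fin 2, _
    intro i
    fin_cases i
    · refine ⟨0, 1, Or.inl ⟨rfl, ?_⟩⟩
      rw [one_mul, inv_one, mul_one]; rfl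
    · refine ⟨1, 1, Or.inl ⟨rfl, ?_⟩⟩
      rw [one_mul, inv_one, mul_one]; rfl
  · -- back
    show ∀ i : Fin 2, _
    intro i
    fin_cases i
    · refine ⟨0, ?_⟩
      show FreeGroup.lift (fun g => (((![s, t, (s * t)⁻¹] : Fin 3 → D.Braid) g,
        Multiplicative.ofAdd ((![0, 0, 1] : Fin 3 → ℤ) g)) : D.Braid × Multiplicative ℤ)) (FreeGroup.of 0) = _
      simp only [map_mul, map_inv, map_pow, FreeGroup.lift_apply_of]
      refine Prod.ext ?_ ?_
      · show s = s * ((s * t) ^ 4) ^ (0 : ℤ)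
        rw [zpow_zero, mul_one]
      · rfl
    · refine ⟨0, ?_⟩
      show FreeGroup.lift (fun g => (((![s, t, (s * t)⁻¹] : Fin 3 → D.Braid) g,
        Multiplicative.ofAdd ((![0, 0, 1] : Fin 3 → ℤ) g)) : D.Braid × Multiplicative ℤ)) (FreeGroup.of 1) = _
      simp only [map_mul, map_inv, map_pow, FreeGroup.lift_apply_of]
      refine Prod.ext ?_ ?_
      · show t = t * ((s * t) ^ 4) ^ (0 : ℤ)
        rw [zpow_zero, mul_one]
      · rfl
  · -- uw_eq
    intro g
    fin_cases g <;> rfl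
  · -- forth
    intro g
    fin_cases g
    · show a = (a * b * c) ^ (0 : ℤ) * ψ (S)
      simp only [map_mul, map_inv, map_pow, hS, hT]
      rw [zpow_zero, one_mul]
    · show b = (a * b * c) ^ (0 : ℤ) * ψ (T)
      simp only [map_mul, map_inv, map_pow, hS, hT]
      rw [zpow_zero, one_mul]
    · show c = (a * b * c) ^ (1 : ℤ) * ψ ((S * T)⁻¹)
      simp only [map_mul, map_inv, map_pow, hS, hT]
      rw [zpow_one]; exact q2
  · -- ww_eq
    rfl
  · -- forthw
    show (a * b * c) ^ 4 = ψ ((S * T) ^ 4)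
    simp only [map_mul, map_inv, map_pow, hS, hT]
    rw [q3]; simp only [mul_assoc, mul_inv_rev, inv_inv, inv_one, mul_one, one_mul, inv_mul_cancel_left, mul_inv_cancel_left, inv_mul_cancel, mul_inv_cancel, pow_succ, pow_zero, and_true, true_and, and_self]
  · -- exK
    show ∀ g : Fin 3, lt g = .killed → ∀ i : Fin 2, _
    intro g hg i
    fin_cases g
    · simp [lt] at hg
    · simp [lt] at hg
    · fin_cases i <;> simp [ι, expo]
  · -- exS
    show ∀ g : Fin 3, ∀ c : Fin 2, _ → ∀ i : Fin 2, _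
    intro g c h i
    fin_cases g
    · simp [lt] at h
    · simp [lt] at h
    · simp [lt] at h
  · -- lcm
    intro j h h2
    exact h 2 rfl
  · -- mz
    exact rfl
  · -- centre
    show ([D.s (0 : Fin 2), D.s (1 : Fin 2), D.s (0 : Fin 2), D.s (1 : Fin 2), D.s (0 : Fin 2), D.s (1 : Fin 2), D.s (0 : Fin 2), D.s (1 : Fin 2)]).prod = (s * t) ^ 4
    simp only [List.prod_cons, List.prod_nil]
    simp only [mul_assoc, mul_inv_rev, inv_inv, inv_one, mul_one, one_mul, inv_mul_cancel_left, mul_inv_cancel_left, inv_mul_cancel, mul_inv_cancel, pow_succ, pow_zero, and_true, true_and, and_self]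
    rfl

theorem embG14 : Nonempty (Emb G14) := embC4

end SYM
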