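import Pool.Agent.Lib.MP_b1ea0f_al.EWords

/-!
# MP_b1ea0f_al: embedding data of `G4`, `G8`, `G16`

`a² = b³ = 1`, `s = c`, `t = bcb⁻¹`, `a = Z³ (sts)⁻¹`, `b = Z⁻² st`, `m = 6`, `w = (st)³`.
-/

set_option linter.unusedSimpArgs false
set_option linter.unusedTactic false
set_option linter.unreachableTactic false
set_option linter.unusedVariables false

namespace SYM
open BraidData EmbW

theorem embD (n : ℕ) (hn : HN n) (o : Fin 1 → ℕ) (zo : ℕ) (h0 : o 0 = n) (hz : NZ n = 6 * zo) :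
    Nonempty (Emb ⟨2, 1, fun _ => 0, o, [([0,1,0],[1,0,1])], [0,1,0,1,0,1], zo⟩) := by
  set D : BraidData := ⟨2, 1, fun _ => 0, o, [([0,1,0],[1,0,1])], [0,1,0,1,0,1], zo⟩ with hD
  let s : D.Braid := D.s (0 : Fin 2)
  let t : D.Braid := D.s (1 : Fin 2)
  have hr1 : s*(t*s) = t*(s*t) := by
    have := s_rel D (p := ([0,1,0],[1,0,1])) (List.mem_singleton.2 rfl)
    simp only [List.map_cons, List.map_nil, List.prod_cons, List.prod_nil, mul_one] at this
    exact this
  obtain ⟨hws, hwt, b3, b4⟩ := brD hr1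
  let lt : Fin 3 → LegT D := ![LegT.killed, LegT.killed, LegT.free (0 : Fin 1)]
  let K : Fin 3 → Prop := fun g => lt g = .killed
  let φ : FreeGroup (Fin 3) →* SG n K := PresentedGroup.mk _
  let a : SG n K := PresentedGroup.of 0
  let b : SG n K := PresentedGroup.of 1
  let c : SG n K := PresentedGroup.of 2
  let ι : Fin 2 → FreeGroup (Fin 3) := ![FreeGroup.of 2, FreeGroup.of 1 * FreeGroup.of 2 * (FreeGroup.of 1)⁻¹]
  let ψ : FreeGroup (Fin D.gens) →* SG n K := φ.comp (FreeGroup.lift ι)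
  let S : FreeGroup (Fin D.gens) := FreeGroup.of (0 : Fin 2)
  let T : FreeGroup (Fin D.gens) := FreeGroup.of (1 : Fin 2)
  have hS : ψ S = c := by
    simp only [ψ, S, MonoidHom.comp_apply, FreeGroup.lift_apply_of]; rfl
  have hT : ψ T = b * c * b⁻¹ := by
    simp only [ψ, T, MonoidHom.comp_apply, FreeGroup.lift_apply_of]; rfl
  obtain ⟨q1, q2, q3, q4⟩ := relD a b c (b * c * b⁻¹) (SG.pow (n := n) (K := K) 0 rfl) (SG.pow (n := n) (K := K) 1 rfl)
    (SG.comm 0) (SG.comm 1) rfl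
  refine ⟨⟨n, hn, 6, by norm_num, (s * t) ^ 3, lt, ι, ![3, -2, 0], ![(s * t * s)⁻¹, s * t, s],
    ?_, ?_, ?_, ?_, ?_, ?_, ?_, ?_, ?_, ?_, ?_, ?_, ![(S * T * S)⁻¹, S * T, S], ?_, ?_, (S * T) ^ 3,
    ?_, ?_, ?_, ?_, ?_, ?_, ?_⟩⟩
  · -- w_comm
    refine s_comm D _ ?_
    show ∀ i : Fin 2, _
    intro i
    fin_cases i
    · exact hws
    · exact hwt
  · -- free_ord
    show ∀ g : Fin 3, ∀ c : Fin 1, _
    intro g c h
    fin_cases g
    · simp [lt] at h
    · simp [lt] at h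
    · obtain rfl : c = 0 := Subsingleton.elim _ _
      exact h0
  · -- sq_ord
    show ∀ g : Fin 3, ∀ c : Fin 1, _
    intro g c h
    fin_cases g
    · simp [lt] at h
    · simp [lt] at h
    · simp [lt] at h
  · -- par
    show ∀ c : Fin 1, _
    intro c
    fin_cases c
    · exact ⟨2, Or.inl rfl⟩
  · -- inj
    show ∀ g g' : Fin 3, ∀ c : Fin 1, _
    intro g g' c h h'
    fin_cases g <;> fin_cases g' <;> first
      | rfl
      | (exfalso; simp [lt] at h h'; done)
  · -- rel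
    intro p hp
    rw [List.mem_singleton] at hp
    subst hp
    · show ψ (S * (T * (S * 1))) = ψ (T * (S * (T * 1)))
      simp only [map_mul, map_one, mul_one, hS, hT]
      exact q1
  · -- prod
    refine ⟨0, rfl, ?_⟩
    show (s * t * s)⁻¹ * (s * t) * s = ((s * t) ^ 3) ^ (0 : ℤ)
    rw [zpow_zero]; simp only [mul_assoc, mul_inv_rev, inv_inv, inv_one, mul_one, one_mul, inv_mul_cancel_left, mul_inv_cancel_left, inv_mul_cancel, mul_inv_cancel, pow_succ, pow_zero, and_true, true_and, and_self]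
  · -- kill
    intro g hg
    fin_cases g
    · refine ⟨1, rfl, ?_⟩
      show ((s * t) ^ 3) ^ (1 : ℤ) * ((s * t * s)⁻¹) ^ 2 = 1
      rw [zpow_one]; exact b3
    · refine ⟨-1, rfl, ?_⟩
      show ((s * t) ^ 3) ^ (-1 : ℤ) * (s * t) ^ 3 = 1
      rw [zpow_neg_one, inv_mul_cancel]
    · simp [lt] at hg
  · -- freeu
    show ∀ g : Fin 3, ∀ c : Fin 1, _
    intro g c h
    fin_cases g
    · simp [lt] at h
    · simp [lt] at h
    · obtain rfl : c = 0 := Subsingleton.elim _ _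
      exact ⟨rfl, 1, (0 : Fin 2), rfl, by rw [one_mul, inv_one, mul_one]; rfl⟩
  · -- squ
    show ∀ g : Fin 3, ∀ c : Fin 1, _
    intro g c h
    fin_cases g
    · simp [lt] at h
    · simp [lt] at h
    · simp [lt] at h
  · -- gens
    show ∀ i : Fin 2, _
    intro i
    fin_cases i
    · refine ⟨2, 1, Or.inl ⟨rfl, ?_⟩⟩
      rw [one_mul, inv_one, mul_one]; rfl
    · refine ⟨2, FreeGroup.of 1, Or.inl ⟨rfl, ?_⟩⟩
      rfl
  · -- back
    show ∀ i : Fin 2, _
    intro i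
    fin_cases i
    · refine ⟨0, ?_⟩
      show FreeGroup.lift (fun g => (((![(s * t * s)⁻¹, s * t, s] : Fin 3 → D.Braid) g,
        Multiplicative.ofAdd ((![3, -2, 0] : Fin 3 → ℤ) g)) : D.Braid × Multiplicative ℤ)) (FreeGroup.of 2) = _
      simp only [map_mul, map_inv, map_pow, FreeGroup.lift_apply_of]
      refine Prod.ext ?_ ?_
      · show s = s * ((s * t) ^ 3) ^ (0 : ℤ)
        rw [zpow_zero, mul_one]
      · rfl
    · refine ⟨0, ?_⟩
      show FreeGroup.lift (fun g => (((![(s * t * s)⁻¹, s * t, s] : Fin 3 → D.Braid) g,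
        Multiplicative.ofAdd ((![3, -2, 0] : Fin 3 → ℤ) g)) : D.Braid × Multiplicative ℤ)) (FreeGroup.of 1 * FreeGroup.of 2 * (FreeGroup.of 1)⁻¹) = _
      simp only [map_mul, map_inv, map_pow, FreeGroup.lift_apply_of]
      refine Prod.ext ?_ ?_
      · show (s * t) * s * (s * t)⁻¹ = t * ((s * t) ^ 3) ^ (0 : ℤ)
        rw [zpow_zero, mul_one]; exact b4
      · rfl
  · -- uw_eq
    intro g
    fin_cases g <;> rfl
  · -- forth
    intro g
    fin_cases g
    · show a = (a * b * c) ^ (3 : ℤ) * ψ ((S * T * S)⁻¹)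
      simp only [map_mul, map_inv, map_pow, hS, hT]
      rw [show (3 : ℤ) = ((3 : ℕ) : ℤ) from rfl, zpow_natCast]; exact q2
    · show b = (a * b * c) ^ (-2 : ℤ) * ψ (S * T)
      simp only [map_mul, map_inv, map_pow, hS, hT]
      rw [zpow_neg, show (2 : ℤ) = ((2 : ℕ) : ℤ) from rfl, zpow_natCast]; exact q3
    · show c = (a * b * c) ^ (0 : ℤ) * ψ (S)
      simp only [map_mul, map_inv, map_pow, hS, hT]
      rw [zpow_zero, one_mul]
  · -- ww_eq
    rfl
  · -- forthw
    show (a * b * c) ^ 6 = ψ ((S * T) ^ 3)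
    simp only [map_mul, map_inv, map_pow, hS, hT]
    rw [q4]; simp only [mul_assoc, mul_inv_rev, inv_inv, inv_one, mul_one, one_mul, inv_mul_cancel_left, mul_inv_cancel_left, inv_mul_cancel, mul_inv_cancel, pow_succ, pow_zero, and_true, true_and, and_self]
  · -- exK
    show ∀ g : Fin 3, lt g = .killed → ∀ i : Fin 2, _
    intro g hg i
    fin_cases g
    · fin_cases i <;> simp [ι, expo]
    · fin_cases i <;> simp [ι, expo]
    · simp [lt] at hg
  · -- exS
    show ∀ g : Fin 3, ∀ c : Fin 1, _ → ∀ i : Fin 2, _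
    intro g c h i
    fin_cases g
    · simp [lt] at h
    · simp [lt] at h
    · simp [lt] at h
  · -- lcm
    intro j h h2
    have h0 : (2 : ℤ) ∣ j := h 0 rfl
    have h1 : (3 : ℤ) ∣ j := h 1 rfl
    show (6 : ℤ) ∣ j
    omega
  · -- mz
    exact hz
  · -- centre
    show ([D.s (0 : Fin 2), D.s (1 : Fin 2), D.s (0 : Fin 2), D.s (1 : Fin 2), D.s (0 : Fin 2), D.s (1 : Fin 2)]).prod = (s * t) ^ 3
    simp only [List.prod_cons, List.prod_nil]
    simp only [mul_assoc, mul_inv_rev, inv_inv, inv_one, mul_one, one_mul, inv_mul_cancel_left, mul_inv_cancel_left, inv_mul_cancel, mul_inv_cancel, pow_succ, pow_zero, and_true, true_and, and_self]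
    rfl

theorem embG4 : Nonempty (Emb G4) := embD 3 (Or.inl rfl) (fun _ => 3) 2 rfl rfl
theorem embG8 : Nonempty (Emb G8) := embD 4 (Or.inr (Or.inl rfl)) (fun _ => 4) 4 rfl rfl
theorem embG16 : Nonempty (Emb G16) := embD 5 (Or.inr (Or.inr rfl)) (fun _ => 5) 10 rfl rfl

end SYM
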