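import Pool.Agent.Lib.MP_b1ea0f_al.EmbT
import Pool.Agent.Lib.MP_b1ea0f_al.EmbA
import Pool.Agent.Lib.MP_b1ea0f_al.EmbB
import Pool.Agent.Lib.MP_b1ea0f_al.EmbC4
import Pool.Agent.Lib.MP_b1ea0f_al.EmbC5
import Pool.Agent.Lib.MP_b1ea0f_al.EmbD
import Pool.Agent.Lib.MP_b1ea0f_al.Emb20
import Pool.Agent.Lib.MP_b1ea0f_al.Emb15
import Pool.Agent.Lib.MP_b1ea0f_al.Emb13
import Pool.Agent.Lib.MP_b1ea0f_al.Emb12
import Pool.Agent.Lib.MP_b1ea0f_al.Emb22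

/-!
# MP_b1ea0f_al: all embedding data
-/
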