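import Pool.Agent.Lib.MP_b1ea0f_al.VMain
import Pool.Agent.Lib.MP_b1ea0f_al.EXAsm
import Pool.Agent.Lib.MP_b1ea0f_al.EmbAll

/-!
# Assembly of the main theorem
-/

namespace SYM
open Polynomial Module BraidData

theorem bmm_of_emb' (D : BraidData) (h : Nonempty (Emb D)) : D.BMM := by
  obtain ⟨E⟩ := h
  obtain ⟨S⟩ := exists_starTrace E.n E.hn
  exact bmm_of_emb D E S

/-- **Main theorem.** -/
theorem main : ∀ D ∈ [G4, G5, G6, G7, G8, G9, G10, G11, G12, G13, G14, G15, G16, G17, G18, G19,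
    G20, G21, G22], D.BMM := by
  intro D hD
  simp only [List.mem_cons, List.not_mem_nil, or_false] at hD
  rcases hD with rfl | rfl | rfl | rfl | rfl | rfl | rfl | rfl | rfl | rfl | rfl | rfl | rfl | rfl |
    rfl | rfl | rfl | rfl | rfl
  · exact bmm_of_emb' _ embG4
  · exact bmm_of_emb' _ embG5
  · exact bmm_of_emb' _ embG6
  · exact bmm_of_emb' _ embG7
  · exact bmm_of_emb' _ embG8
  · exact bmm_of_emb' _ embG9
  · exact bmm_of_emb' _ embG10
  · exact bmm_of_emb' _ embG11
  · exact bmm_of_emb' _ embG12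
  · exact bmm_of_emb' _ embG13
  · exact bmm_of_emb' _ embG14
  · exact bmm_of_emb' _ embG15
  · exact bmm_of_emb' _ embG16
  · exact bmm_of_emb' _ embG17
  · exact bmm_of_emb' _ embG18
  · exact bmm_of_emb' _ embG19
  · exact bmm_of_emb' _ embG20
  · exact bmm_of_emb' _ embG21
  · exact bmm_of_emb' _ embG22

end SYM
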