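import Pool.Agent.Lib.MP_b1ea0f_al.StmtW
import Pool.Agent.Lib.MP_b1ea0f_al.StFin

/-!
# MP_b1ea0f_al: comparison of the definitions of `StmtW` with those of `DefsW`
-/

namespace SymTrace
open Polynomial

/-- the same data in the form of `DefsW` -/
def old (D : Data) : SYM.BraidData := ⟨D.gens, D.classes, D.cl, D.ord, D.rels, D.centre, D.zord⟩

theorem rel_eq (D : Data) :
    rel D.s D.poly = (old D).HRel (k := Laur D.Par) (SYM.Laurent.var (σ := D.Par)) := by
  funext x y
  apply propext
  constructor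
  · rintro ⟨b, i, rfl, rfl⟩
    exact SYM.BraidData.HRel.poly (D := old D) b i
  · rintro ⟨b, i⟩
    exact ⟨b, i, rfl, rfl⟩

/-- the conditions for the quotient by a relation `r` -/
def CondR {B R : Type} [Group B] [CommRing R] (r : MonoidAlgebra R B → MonoidAlgebra R B → Prop)
    (θ : R →+* ℂ) (inv : R →+* R) (N : Subgroup B) (π : B) : Prop :=
  Module.Finite R (RingQuot r) ∧ Module.Projective R (RingQuot r) ∧
  ∃ τ : RingQuot r →ₗ[R] R,
    (∀ h h', τ (h * h') = τ (h' * h)) ∧
    Function.Bijective (fun h : RingQuot r => τ ∘ₗ LinearMap.mulLeft R h) ∧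
    (∀ b, (b ∈ N → θ (τ (RingQuot.mkAlgHom R r (MonoidAlgebra.of R B b))) = 1) ∧
      (b ∉ N → θ (τ (RingQuot.mkAlgHom R r (MonoidAlgebra.of R B b))) = 0)) ∧
    IsUnit (τ (RingQuot.mkAlgHom R r (MonoidAlgebra.of R B π))) ∧
    ∀ b, inv (τ (RingQuot.mkAlgHom R r (MonoidAlgebra.of R B b⁻¹))) *
      τ (RingQuot.mkAlgHom R r (MonoidAlgebra.of R B π)) =
        τ (RingQuot.mkAlgHom R r (MonoidAlgebra.of R B (b * π)))

theorem conditions_iff {B R I : Type} [Group B] [CommRing R] (s : I → B) (P : I → R[X])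
    (θ : R →+* ℂ) (inv : R →+* R) (N : Subgroup B) (π : B) :
    Conditions s P θ inv N π ↔ CondR (rel s P) θ inv N π := Iff.rfl

theorem condR_of_old (D : Data) (h : (old D).BMM) :
    CondR ((old D).HRel (k := Laur D.Par) (SYM.Laurent.var (σ := D.Par))) D.θ D.inv D.kernel
      D.pi := by
  obtain ⟨h1, h2, τ, h3, h4, h5, h6, h7⟩ := h
  refine ⟨h1, h2, τ, h3, h4, fun b => ⟨fun hb => (h5 b).1 ?_, fun hb => (h5 b).2 ?_⟩, h6, h7⟩
  · have : D.kernel.Normal := Subgroup.normalClosure_normal
    exact (QuotientGroup.eq_one_iff (N := D.kernel) b).2 hb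
  · have : D.kernel.Normal := Subgroup.normalClosure_normal
    exact fun h => hb ((QuotientGroup.eq_one_iff (N := D.kernel) b).1 h)

theorem bmm_of_old (D : Data) (h : (old D).BMM) : D.BMM := by
  have h1 := condR_of_old D h
  rw [← rel_eq] at h1
  exact h1

/-- equality of data from equality of the fields -/
theorem ext_data {n c : ℕ} {f g : Fin n → Fin c} {e e' : Fin c → ℕ}
    {r r' : List (List (Fin n) × List (Fin n))} {z z' : List (Fin n)} {m : ℕ} (h1 : ∀ i, f i = g i)
    (h2 : ∀ i, e i = e' i) (h3 : r = r') (h4 : z = z') :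
    (⟨n, c, f, e, r, z, m⟩ : SYM.BraidData) = ⟨n, c, g, e', r', z', m⟩ := by
  obtain rfl := funext h1
  obtain rfl := funext h2
  subst h3 h4
  rfl

theorem oldG4 : old G4 = SYM.G4 :=
  ext_data (n := 2) (c := 1) (f := ![0,0]) (g := fun _ => 0) (e := ![3]) (e' := fun _ => 3)
    (by decide) (by decide) rfl rfl
theorem oldG5 : old G5 = SYM.G5 :=
  ext_data (n := 2) (c := 2) (f := ![0,1]) (g := id) (e := ![3,3]) (e' := fun _ => 3)
    (by decide) (by decide) rfl rfl
theorem oldG6 : old G6 = SYM.G6 :=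
  ext_data (n := 2) (c := 2) (f := ![0,1]) (g := id) (e := ![2,3]) (e' := ![2,3])
    (by decide) (by decide) rfl rfl
theorem oldG7 : old G7 = SYM.G7 :=
  ext_data (n := 3) (c := 3) (f := ![0,1,2]) (g := id) (e := ![2,3,3]) (e' := ![2,3,3])
    (by decide) (by decide) rfl rfl
theorem oldG8 : old G8 = SYM.G8 :=
  ext_data (n := 2) (c := 1) (f := ![0,0]) (g := fun _ => 0) (e := ![4]) (e' := fun _ => 4)
    (by decide) (by decide) rfl rfl
theorem oldG9 : old G9 = SYM.G9 :=
  ext_data (n := 2) (c := 2) (f := ![0,1]) (g := id) (e := ![2,4]) (e' := ![2,4])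
    (by decide) (by decide) rfl rfl
theorem oldG10 : old G10 = SYM.G10 :=
  ext_data (n := 2) (c := 2) (f := ![0,1]) (g := id) (e := ![3,4]) (e' := ![3,4])
    (by decide) (by decide) rfl rfl
theorem oldG11 : old G11 = SYM.G11 :=
  ext_data (n := 3) (c := 3) (f := ![0,1,2]) (g := id) (e := ![2,3,4]) (e' := ![2,3,4])
    (by decide) (by decide) rfl rfl
theorem oldG12 : old G12 = SYM.G12 :=
  ext_data (n := 3) (c := 1) (f := ![0,0,0]) (g := fun _ => 0) (e := ![2]) (e' := fun _ => 2)
    (by decide) (by decide) rfl rfl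
theorem oldG13 : old G13 = SYM.G13 :=
  ext_data (n := 3) (c := 2) (f := ![0,1,1]) (g := ![0,1,1]) (e := ![2,2]) (e' := fun _ => 2)
    (by decide) (by decide) rfl rfl
theorem oldG14 : old G14 = SYM.G14 :=
  ext_data (n := 2) (c := 2) (f := ![0,1]) (g := id) (e := ![2,3]) (e' := ![2,3])
    (by decide) (by decide) rfl rfl
theorem oldG15 : old G15 = SYM.G15 :=
  ext_data (n := 3) (c := 3) (f := ![0,1,2]) (g := id) (e := ![2,3,2]) (e' := ![2,3,2])
    (by decide) (by decide) rfl rfl
theorem oldG16 : old G16 = SYM.G16 :=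
  ext_data (n := 2) (c := 1) (f := ![0,0]) (g := fun _ => 0) (e := ![5]) (e' := fun _ => 5)
    (by decide) (by decide) rfl rfl
theorem oldG17 : old G17 = SYM.G17 :=
  ext_data (n := 2) (c := 2) (f := ![0,1]) (g := id) (e := ![2,5]) (e' := ![2,5])
    (by decide) (by decide) rfl rfl
theorem oldG18 : old G18 = SYM.G18 :=
  ext_data (n := 2) (c := 2) (f := ![0,1]) (g := id) (e := ![3,5]) (e' := ![3,5])
    (by decide) (by decide) rfl rfl
theorem oldG19 : old G19 = SYM.G19 :=
  ext_data (n := 3) (c := 3) (f := ![0,1,2]) (g := id) (e := ![2,3,5]) (e' := ![2,3,5])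
    (by decide) (by decide) rfl rfl
theorem oldG20 : old G20 = SYM.G20 :=
  ext_data (n := 2) (c := 1) (f := ![0,0]) (g := fun _ => 0) (e := ![3]) (e' := fun _ => 3)
    (by decide) (by decide) rfl rfl
theorem oldG21 : old G21 = SYM.G21 :=
  ext_data (n := 2) (c := 2) (f := ![0,1]) (g := id) (e := ![2,3]) (e' := ![2,3])
    (by decide) (by decide) rfl rfl
theorem oldG22 : old G22 = SYM.G22 :=
  ext_data (n := 3) (c := 1) (f := ![0,0,0]) (g := fun _ => 0) (e := ![2]) (e' := fun _ => 2)
    (by decide) (by decide) rfl rfl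

/-- **Main theorem** in the form of `StmtW`. -/
theorem main : ∀ D ∈ [G4, G5, G6, G7, G8, G9, G10, G11, G12, G13, G14, G15, G16, G17, G18, G19,
    G20, G21, G22], D.BMM := by
  intro D hD
  apply bmm_of_old
  apply SYM.main
  simp only [List.mem_cons, List.not_mem_nil, or_false] at hD ⊢
  rcases hD with rfl | rfl | rfl | rfl | rfl | rfl | rfl | rfl | rfl | rfl |
    rfl | rfl | rfl | rfl | rfl | rfl | rfl | rfl | rfl
  · simp only [oldG4, true_or]
  · simp only [oldG5, true_or, or_true]
  · simp only [oldG6, true_or, or_true]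
  · simp only [oldG7, true_or, or_true]
  · simp only [oldG8, true_or, or_true]
  · simp only [oldG9, true_or, or_true]
  · simp only [oldG10, true_or, or_true]
  · simp only [oldG11, true_or, or_true]
  · simp only [oldG12, true_or, or_true]
  · simp only [oldG13, true_or, or_true]
  · simp only [oldG14, true_or, or_true]
  · simp only [oldG15, true_or, or_true]
  · simp only [oldG16, true_or, or_true]
  · simp only [oldG17, true_or, or_true]
  · simp only [oldG18, true_or, or_true]
  · simp only [oldG19, true_or, or_true]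
  · simp only [oldG20, true_or, or_true]
  · simp only [oldG21, true_or, or_true]
  · simp only [oldG22, or_true]

end SymTrace
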