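import Pool.Agent.Lib.BMM.Ops

/-!
# MP_b1ea0f_al: definitions for the symmetrising trace conjecture in rank 2

The star algebras `H n x` (`n = 3, 4, 5`): over a commutative ring `k` with units `x_{g,j}`
(`g = 0, 1, 2` a leg, `1 ≤ j ≤ p_g`, `p = (2,3,n)`), generators `a_0, a_1, a_2`, relations
`∏_j (a_g - x_{g,j}) = 0` and `a_0 a_1 a_2 = a_1 a_2 a_0 = a_2 a_0 a_1`.
(The algebra is the one of the library `BMM`.)
-/

namespace SYM

open Polynomial

/-- sizes of the three legs -/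
abbrev leg (n : ℕ) : Fin 3 → ℕ := BMM.pp n

/-- index set of the parameters -/
abbrev J (n : ℕ) := BMM.J n

section
variable {k : Type*} [CommRing k]

/-- the polynomial `∏_j (X - x_{g,j})` of the leg `g` -/
noncomputable def P (n : ℕ) (x : J n → kˣ) (g : Fin 3) : k[X] :=
  ∏ j : Fin (leg n g), (X - C ((x ⟨g, j⟩ : kˣ) : k))

/-- the polynomials in the notation of the library `BMM` -/
theorem P_eq (n : ℕ) (x : J n → kˣ) : P n x = BMM.PX (fun j => ((x j : kˣ) : k)) := rfl

/-- a triple of elements satisfying the relations of the star algebra -/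
structure IsStar {A : Type*} [Ring A] [Algebra k A] (n : ℕ) (x : J n → kˣ) (a : Fin 3 → A) :
    Prop where
  poly : ∀ g, aeval (a g) (P n x g) = 0
  cyc1 : a 0 * a 1 * a 2 = a 1 * a 2 * a 0
  cyc2 : a 0 * a 1 * a 2 = a 2 * a 0 * a 1

theorem isStar_iff {A : Type*} [Ring A] [Algebra k A] {n : ℕ} {x : J n → kˣ} {a : Fin 3 → A} :
    IsStar n x a ↔ BMM.IsTriple (P n x) a :=
  ⟨fun h => ⟨h.cyc1, h.cyc2, h.poly⟩, fun h => ⟨h.pol, h.cyc₁, h.cyc₂⟩⟩

/-- the star algebra -/
abbrev H (n : ℕ) (x : J n → kˣ) : Type _ := BMM.HA k (P n x)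

/-- the projection from the free algebra -/
noncomputable def mk (n : ℕ) (x : J n → kˣ) : FreeAlgebra k (Fin 3) →ₐ[k] H n x :=
  BMM.mkA k (P n x)

theorem mk_surjective (n : ℕ) (x : J n → kˣ) : Function.Surjective (mk n x) :=
  BMM.mkA_surjective k (P n x)

/-- the generators of the star algebra -/
noncomputable def gen (n : ℕ) (x : J n → kˣ) (g : Fin 3) : H n x := BMM.gen k (P n x) g

theorem gen_eq (n : ℕ) (x : J n → kˣ) : gen n x = BMM.gen k (P n x) := rfl

theorem isStar_gen (n : ℕ) (x : J n → kˣ) : IsStar n x (gen n x) :=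
  isStar_iff.2 (BMM.isTriple_gen k (P n x))

/-- the universal property -/
noncomputable def lift (n : ℕ) (x : J n → kˣ) {A : Type*} [Ring A] [Algebra k A] (a : Fin 3 → A)
    (ha : IsStar n x a) : H n x →ₐ[k] A := BMM.lift a (isStar_iff.1 ha)

@[simp] theorem lift_gen (n : ℕ) (x : J n → kˣ) {A : Type*} [Ring A] [Algebra k A]
    (a : Fin 3 → A) (ha : IsStar n x a) (g : Fin 3) : lift n x a ha (gen n x g) = a g :=
  BMM.lift_gen a (isStar_iff.1 ha) g

theorem hom_ext {n : ℕ} {x : J n → kˣ} {A : Type*} [Ring A] [Algebra k A]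
    {f f' : H n x →ₐ[k] A} (h : ∀ g, f (gen n x g) = f' (gen n x g)) : f = f' :=
  BMM.algHom_ext h

theorem IsStar.map {A B : Type*} [Ring A] [Algebra k A] [Ring B] [Algebra k B] {n : ℕ}
    {x : J n → kˣ} {a : Fin 3 → A} (ha : IsStar n x a) (f : A →ₐ[k] B) :
    IsStar n x (fun g => f (a g)) := by
  refine ⟨fun g => ?_, ?_, ?_⟩
  · rw [Polynomial.aeval_algHom_apply, ha.poly, map_zero]
  · simp only [← map_mul, ha.cyc1]
  · simp only [← map_mul]
    rw [ha.cyc2]

/-- the central element `z = a_0 a_1 a_2` -/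
noncomputable def zz (n : ℕ) (x : J n → kˣ) : H n x := BMM.zz k (P n x)

theorem zz_eq (n : ℕ) (x : J n → kˣ) : zz n x = gen n x 0 * gen n x 1 * gen n x 2 := rfl

theorem adjoin_gen (n : ℕ) (x : J n → kˣ) : Algebra.adjoin k (Set.range (gen n x)) = ⊤ :=
  BMM.adjoin_gen (A := k) (P := P n x)

theorem IsStar.comm {A : Type*} [Ring A] [Algebra k A] {n : ℕ} {x : J n → kˣ} {a : Fin 3 → A}
    (ha : IsStar n x a) (g : Fin 3) : a 0 * a 1 * a 2 * a g = a g * (a 0 * a 1 * a 2) :=
  ((isStar_iff.1 ha).comm_z g).symm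

theorem zz_comm (n : ℕ) (x : J n → kˣ) (h : H n x) : zz n x * h = h * zz n x :=
  (BMM.zz_comm h).symm

end
end SYM
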