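import Pool.Agent.Lib.MP_b1ea0f_al.Defs

/-!
# MP_b1ea0f_al: roots, characters, Schur elements, base change
-/

namespace SYM

open Polynomial

/-- hypothesis on `n` -/
abbrev HN (n : ℕ) : Prop := n = 3 ∨ n = 4 ∨ n = 5

/-! ## roots -/

/-- integer vectors indexed by `J n` -/
abbrev Vec (n : ℕ) := J n → ℤ

/-- the degree (dimension) of a vector: the sum over the first leg -/
abbrev deg {n : ℕ} (v : Vec n) : ℤ := BMM.lev v

/-- the lattice `Q`: equal sums on the three legs -/
abbrev IsQ {n : ℕ} (v : Vec n) : Prop := BMM.InQ v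

/-- the form -/
abbrev ip {n : ℕ} (v w : Vec n) : ℤ := BMM.bil v w

/-- roots -/
abbrev IsRoot {n : ℕ} (v : Vec n) : Prop := BMM.IsRoot v

instance {n : ℕ} (v : Vec n) : Decidable (IsQ v) := by unfold IsQ BMM.InQ; infer_instance
instance {n : ℕ} (v : Vec n) : Decidable (IsRoot v) := by
  unfold IsRoot BMM.IsRoot BMM.InQ; infer_instance

/-- the positive roots of degree at least one (`R°` in the paper), for `n = 3, 4, 5` -/
def Rc (n : ℕ) : Finset (Vec n) :=
  (Fintype.piFinset fun _ => ({0, 1, 2, 3} : Finset ℤ)).filter fun v => IsRoot v ∧ 1 ≤ deg v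

/-- the degree as a natural number -/
def dg {n : ℕ} (v : Vec n) : ℕ := (deg v).toNat

/-- order of the centre of the reflection group: `12, 24, 60` -/
def NZ (n : ℕ) : ℕ := if n = 3 then 12 else if n = 4 then 24 else 60

/-- the vector `ϖ = (N/4,N/4; N/6,N/6,N/6; N/2n,...)` -/
def varpi (n : ℕ) : Vec n := fun l => ((NZ n / (2 * leg n l.1) : ℕ) : ℤ)

/-- the sign `κ` -/
abbrev sgn (n : ℕ) : ℤ := BMM.kap n

/-- a half of `Γ_α = {c root : (c,α) = 1}`: one element of each pair `{c, α - c}`,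
together with the decomposition of the sum -/
structure Half {n : ℕ} (α : Vec n) where
  L : Finset (Vec n)
  mu : Vec n
  eps : ℕ
  isQ_mu : IsQ mu
  isRoot : ∀ c ∈ L, IsRoot c
  ip_eq : ∀ c ∈ L, ip c α = 1
  half : ∀ c, IsRoot c → ip c α = 1 → (c ∈ L ↔ α - c ∉ L)
  sum_eq : ∑ c ∈ L, c = 2 • mu + eps • α
  even : Even L.card

section
variable {k : Type*} [CommRing k]

/-- the monomial `x^v` -/
def mon {n : ℕ} (x : J n → kˣ) (v : Vec n) : kˣ := ∏ l, x l ^ v l

/-- the character `q^v = x^v z^{-|v|}` -/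
def qch {n : ℕ} (x : J n → kˣ) (z : kˣ) (v : Vec n) : kˣ := mon x v * z ^ (-deg v)

/-- `x_{g,j} = ξ^{N (j+1) / p_g}` -/
def IsGroupPoint {κ : Type} [Field κ] {n : ℕ} (ξ : κˣ) (x : J n → κˣ) : Prop :=
  IsPrimitiveRoot ξ (NZ n) ∧ ∀ l : J n, x l = ξ ^ (NZ n / leg n l.1 * ((l.2 : ℕ) + 1))

/-- the product over a half, one factor `c₀` removed -/
noncomputable def Half.D' {n : ℕ} {α : Vec n} (h : Half α) (c₀ : Vec n) (x : J n → kˣ)
    (z : kˣ) : k :=
  (-1) ^ h.eps * ((qch x z (-h.mu) : kˣ) : k) * ∏ c ∈ h.L.erase c₀, (((qch x z c : kˣ) : k) - 1)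

/-- the product over a half -/
noncomputable def Half.D {n : ℕ} {α : Vec n} (h : Half α) (x : J n → kˣ) (z : kˣ) : k :=
  (-1) ^ h.eps * ((qch x z (-h.mu) : kˣ) : k) * ∏ c ∈ h.L, (((qch x z c : kˣ) : k) - 1)

open Classical in
/-- the Schur element `s_α = κ q^{-ϖ} D(α; q)` -/
noncomputable def schur {n : ℕ} (α : Vec n) (x : J n → kˣ) (z : kˣ) : k :=
  if h : Nonempty (Half α) then
    (sgn n : k) * ((qch x z (-varpi n) : kˣ) : k) * (Classical.choice h).D x z
  else 0

/-! ## base change -/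

/-- the image of the parameters under a ring homomorphism -/
def mapx {n : ℕ} {k k' : Type*} [CommRing k] [CommRing k'] (f : k →+* k') (x : J n → kˣ) :
    J n → k'ˣ := fun l => Units.map (f : k →* k') (x l)

/-- multiplicative independence of the parameters -/
def Indep {n : ℕ} (x : J n → kˣ) : Prop := ∀ v : Vec n, mon x v = 1 → v = 0

/-- genericity (G1), (G2) -/
structure Gen {n : ℕ} (x : J n → kˣ) : Prop where
  g1 : ∀ α ∈ Rc n, ∀ β ∈ Rc n, mon x α ^ dg β = mon x β ^ dg α → α = β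
  g2 : ∀ g (j j' : Fin (leg n g)), x ⟨g, j⟩ = x ⟨g, j'⟩ → j = j'

end

/-! ## modules over a field: flags and dimension vectors -/
section
variable {κ : Type*} [Field κ] {V W : Type*} [AddCommGroup V] [Module κ V] [AddCommGroup W]
  [Module κ W]

/-- the dimension vector of a triple of operators -/
noncomputable abbrev dv {n : ℕ} (x : J n → κˣ) (a : Fin 3 → Module.End κ V) : Vec n :=
  BMM.dimv (fun j => ((x j : κˣ) : κ)) a

/-- intertwiners of two operators -/
def cm (f : Module.End κ V) (f' : Module.End κ W) : Submodule κ (V →ₗ[κ] W) where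
  carrier := {s | s ∘ₗ f = f' ∘ₗ s}
  add_mem' := by
    intro s t hs ht
    simp only [Set.mem_ofPred_eq] at *
    rw [LinearMap.add_comp, LinearMap.comp_add, hs, ht]
  zero_mem' := by simp
  smul_mem' := by
    intro c s hs
    simp only [Set.mem_ofPred_eq] at *
    rw [LinearMap.smul_comp, LinearMap.comp_smul, hs]

/-- intertwiners of two triples -/
def homs (a : Fin 3 → Module.End κ V) (a' : Fin 3 → Module.End κ W) : Submodule κ (V →ₗ[κ] W) :=
  ⨅ g, cm (a g) (a' g)

/-- `I_g = {s f - f' s}` -/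
def Isp (f : Module.End κ V) (f' : Module.End κ W) : Submodule κ (V →ₗ[κ] W) :=
  LinearMap.range (LinearMap.lcomp κ W f - LinearMap.llcomp κ V W W f')

end
end SYM
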