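import Pool.Agent.Lib.MP_b1ea0f_al.Defs2

/-!
# MP_b1ea0f_al: base change maps, Laurent polynomial rings, trace functional
-/

namespace SYM

open Polynomial

section
variable {k k' : Type*} [CommRing k] [CommRing k']

theorem P_mapx (f : k →+* k') (n : ℕ) (x : J n → kˣ) (g : Fin 3) :
    P n (mapx f x) g = (P n x g).map f := by
  simp [P, mapx, Polynomial.map_prod]

/-- the base change map `H(k,x) → H(k',f(x))` -/
noncomputable def hmap (f : k →+* k') (n : ℕ) (x : J n → kˣ) : H n x →+* H n (mapx f x) :=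
  letI : Algebra k (H n (mapx f x)) := Algebra.compHom _ f
  (lift n x (gen n (mapx f x)) (by
    have h := isStar_gen n (mapx f x)
    refine ⟨fun g => ?_, h.cyc1, h.cyc2⟩
    have h2 := h.poly g
    rw [P_mapx, Polynomial.aeval_def, Polynomial.eval₂_map] at h2
    rw [Polynomial.aeval_def]
    exact h2)).toRingHom

@[simp] theorem hmap_gen (f : k →+* k') (n : ℕ) (x : J n → kˣ) (g : Fin 3) :
    hmap f n x (gen n x g) = gen n (mapx f x) g := by
  let : Algebra k (H n (mapx f x)) := Algebra.compHom _ f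
  exact lift_gen n x _ _ g

theorem hmap_algebraMap (f : k →+* k') (n : ℕ) (x : J n → kˣ) (r : k) :
    hmap f n x (algebraMap k (H n x) r) = algebraMap k' (H n (mapx f x)) (f r) := by
  let : Algebra k (H n (mapx f x)) := Algebra.compHom _ f
  exact AlgHom.commutes (lift n x (gen n (mapx f x)) _) r

theorem hmap_smul (f : k →+* k') (n : ℕ) (x : J n → kˣ) (r : k) (h : H n x) :
    hmap f n x (r • h) = f r • hmap f n x h := by
  rw [Algebra.smul_def, map_mul, hmap_algebraMap, Algebra.smul_def]

@[simp] theorem hmap_zz (f : k →+* k') (n : ℕ) (x : J n → kˣ) :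
    hmap f n x (zz n x) = zz n (mapx f x) := by
  simp only [zz_eq, map_mul, hmap_gen]

end

/-- a linear form `t` on an algebra admits dual bases (Frobenius system): the algebra is then
finitely generated projective and the form `(h,h') ↦ t(hh')` is perfect -/
def Frob {k A : Type*} [CommRing k] [Ring A] [Algebra k A] (t : A →ₗ[k] k) : Prop :=
  ∃ (m : ℕ) (u v : Fin m → A), ∀ h : A, h = ∑ i, t (h * u i) • v i

/-! ## Laurent polynomial rings over `ℤ` -/

/-- the ring of Laurent polynomials over `ℤ` in the variables `σ` -/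
abbrev Laurent (σ : Type) : Type := AddMonoidAlgebra ℤ (σ →₀ ℤ)

/-- the variables, as units -/
noncomputable def Laurent.var {σ : Type} (i : σ) : (Laurent σ)ˣ where
  val := AddMonoidAlgebra.single (Finsupp.single i 1) 1
  inv := AddMonoidAlgebra.single (Finsupp.single i (-1)) 1
  val_inv := by
    rw [AddMonoidAlgebra.single_mul_single, ← Finsupp.single_add]
    simp [AddMonoidAlgebra.one_def]
  inv_val := by
    rw [AddMonoidAlgebra.single_mul_single, ← Finsupp.single_add]
    simp [AddMonoidAlgebra.one_def]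

/-- the multiplicative map `v ↦ ∏ y_i^{v_i}` -/
noncomputable def Laurent.monHom {σ : Type} {k : Type*} [CommRing k] (y : σ → kˣ) :
    Multiplicative (σ →₀ ℤ) →* k where
  toFun v := ((v.toAdd.prod fun i e => (y i) ^ e : kˣ) : k)
  map_one' := by simp
  map_mul' v w := by
    rw [toAdd_mul, ← Units.val_mul, Finsupp.prod_add_index']
    · intro i; simp
    · intro i e e'; exact zpow_add _ _ _

/-- the ring homomorphism given by the images of the variables -/
noncomputable def Laurent.lift {σ : Type} {k : Type*} [CommRing k] (y : σ → kˣ) :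
    Laurent σ →+* k :=
  (AddMonoidAlgebra.lift ℤ k (σ →₀ ℤ) (Laurent.monHom y)).toRingHom

@[simp] theorem Laurent.lift_var {σ : Type} {k : Type*} [CommRing k] (y : σ → kˣ) (i : σ) :
    Laurent.lift y (Laurent.var i : (Laurent σ)) = y i := by
  simp only [Laurent.lift, Laurent.var, AlgHom.toRingHom_eq_coe, RingHom.coe_coe,
    AddMonoidAlgebra.lift_single, one_smul]
  show (((Finsupp.single i (1 : ℤ)).prod fun i e => y i ^ e : kˣ) : k) = y i
  rw [Finsupp.prod_single_index] <;> simp

/-- base ring of the star algebras -/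
abbrev RR (n : ℕ) : Type := Laurent (J n)

/-- the universal parameters -/
noncomputable def XX (n : ℕ) : J n → (RR n)ˣ := Laurent.var

/-! ## the trace functional -/
section
variable {κ : Type} [Field κ]

/-- `ω(z) = 1/(d² s_α(z))` on `z^d = x^α` -/
def IsOmega {n : ℕ} (x : J n → κˣ) (ω : κ[X]) : Prop :=
  ∀ α ∈ Rc n, ∀ (E : Type) [CommRing E] (f : κ →+* E) (ζ : Eˣ),
    ζ ^ dg α = mon (mapx f x) α →
      ω.eval₂ f (ζ : E) * (dg α : E) ^ 2 * schur α (mapx f x) ζ = 1

/-- `t(h) = Tr(L_{h ω(z)})` -/
noncomputable def tr {n : ℕ} (x : J n → κˣ) (ω : κ[X]) : H n x →ₗ[κ] κ :=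
  (LinearMap.trace κ (H n x)) ∘ₗ (LinearMap.mul κ (H n x)) ∘ₗ
    (LinearMap.mulRight κ (aeval (zz n x) ω))

theorem tr_apply {n : ℕ} (x : J n → κˣ) (ω : κ[X]) (h : H n x) :
    tr x ω h = LinearMap.trace κ (H n x)
      (LinearMap.mulLeft κ (h * aeval (zz n x) ω)) := rfl

end
end SYM
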