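import Pool.Agent.Lib.MP_b1ea0f_al.RQch
import Pool.Agent.Lib.BMM.HalfEx

/-
MP_b1ea0f_al, module RHalf (about 100 lines).  Translation of BMM.RootA, RootB, HalfEx to the
definitions of this folder.
`leg`, `J`, `deg`, `IsQ`, `ip`, `IsRoot` are abbreviations of BMM.pp, BMM.J, BMM.lev, BMM.InQ, BMM.bil,
BMM.IsRoot. `Rc n` here is a Finset (entries 0..3, IsRoot, 1 ≤ deg), `BMM.Rc n` is the Set
{v | IsRoot v ∧ 1 ≤ lev v}; by BMM.Rc_nonneg they have the same elements. Half here = BMM.Half with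
the extra field `even` (BMM.half_card_even) and with natural number multiples 2 • mu, eps • α.
exists_half_mem: take a BMM half containing c. dg_bounds: BMM.Rc_iff (lev ≤ dmax ≤ 6; 1..6 divide 60).
-/

namespace SYM

variable {n : ℕ}

theorem mem_Rc_iff_BMM (hn : HN n) {v : Vec n} : v ∈ Rc n ↔ v ∈ BMM.Rc n := by
  unfold Rc
  rw [Finset.mem_filter, Fintype.mem_piFinset]
  constructor
  · exact fun h => h.2
  · intro h
    refine ⟨fun l => ?_, h⟩
    obtain ⟨h0, h3⟩ := BMM.Rc_nonneg hn h l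
    have h4 : v l = 0 ∨ v l = 1 ∨ v l = 2 ∨ v l = 3 := by omega
    simp only [Finset.mem_insert, Finset.mem_singleton]
    exact h4

theorem mem_Rc (hn : HN n) {v : Vec n} : v ∈ Rc n ↔ IsRoot v ∧ 1 ≤ deg v :=
  mem_Rc_iff_BMM hn

theorem mem_Rc_of (hn : HN n) {v : Vec n} (hQ : IsQ v) (_h0 : ∀ l, 0 ≤ v l) (hd : 1 ≤ deg v)
    (h2 : ip v v ≤ 2) : v ∈ Rc n :=
  (mem_Rc_iff_BMM hn).2 (BMM.root_of_le_two hn hQ hd h2)

theorem Rc_nonneg {v : Vec n} (hv : v ∈ Rc n) (l : J n) : 0 ≤ v l ∧ v l ≤ 3 := by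
  unfold Rc at hv
  rw [Finset.mem_filter, Fintype.mem_piFinset] at hv
  have h := hv.1 l
  simp only [Finset.mem_insert, Finset.mem_singleton] at h
  omega

theorem dg_bounds (hn : HN n) {v : Vec n} (hv : v ∈ Rc n) :
    (dg v : ℤ) = deg v ∧ 1 ≤ dg v ∧ dg v ≤ 6 ∧ dg v ∣ 60 := by
  obtain ⟨hQ, h1, h2, h3⟩ := (BMM.Rc_iff hn v).1 ((mem_Rc_iff_BMM hn).1 hv)
  have h5 : BMM.lev v ≤ 6 := by
    refine le_trans h2 ?_
    rcases hn with rfl | rfl | rfl <;> decide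
  have h6 : (dg v : ℤ) = deg v := by
    unfold dg
    have : (0 : ℤ) ≤ deg v := le_trans zero_le_one h1
    exact Int.toNat_of_nonneg this
  have h7 : 1 ≤ dg v := by
    have : (1 : ℤ) ≤ (dg v : ℤ) := by rw [h6]; exact h1
    exact_mod_cast this
  have h8 : dg v ≤ 6 := by
    have : (dg v : ℤ) ≤ 6 := by rw [h6]; exact h5
    exact_mod_cast this
  refine ⟨h6, h7, h8, ?_⟩
  have h9 : ∀ m : ℕ, 1 ≤ m → m ≤ 6 → m ∣ 60 := by
    intro m hm1 hm2
    interval_cases m <;> decide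
  exact h9 _ h7 h8

theorem sum_dg (hn : HN n) : ∑ α ∈ Rc n, dg α ^ 3 = NZ n ^ 2 := by
  have h1 : Rc n = BMM.Rset n := by
    ext v
    rw [BMM.mem_Rset hn, mem_Rc_iff_BMM hn]
  have h2 := BMM.Rc_sum hn
  rw [← h1] at h2
  have h3 : ((∑ α ∈ Rc n, dg α ^ 3 : ℕ) : ℤ) = ((NZ n ^ 2 : ℕ) : ℤ) := by
    push_cast
    rw [NZ_eq hn, ← h2]
    refine Finset.sum_congr rfl fun v hv => ?_
    rw [(dg_bounds hn hv).1]
  exact_mod_cast h3

theorem ip_pos (hn : HN n) {v : Vec n} (hQ : IsQ v) (hv : v ≠ 0) : 0 < ip v v :=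
  BMM.bil_pos hn hQ hv

theorem ip_even {v : Vec n} (hQ : IsQ v) : Even (ip v v) := BMM.bil_even hQ

theorem ip_cases (hn : HN n) {α β : Vec n} (hα : IsRoot α) (hβ : IsRoot β) (h1 : α ≠ β)
    (h2 : α ≠ -β) : ip α β = -1 ∨ ip α β = 0 ∨ ip α β = 1 :=
  BMM.bil_roots hn hα hβ h1 h2

theorem Rc_prop (hn : HN n) {α β : Vec n} (hα : α ∈ Rc n) (hβ : IsRoot β)
    (h : deg β • α = deg α • β) : β = α ∨ β = -α := by
  have hα' := (mem_Rc_iff_BMM hn).1 hα
  rcases lt_trichotomy (deg β) 0 with h0 | h0 | h0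
  · right
    have hb : -β ∈ BMM.Rc n := by
      refine ⟨BMM.neg_root hβ, ?_⟩
      have : BMM.lev (-β) = -BMM.lev β := deg_neg' β
      rw [this]
      change deg β < 0 at h0
      have h00 : BMM.lev β < 0 := h0
      omega
    have h1 : α = -β := by
      apply BMM.eq_of_prop hn hα' hb
      have : BMM.lev (-β) = -BMM.lev β := deg_neg' β
      rw [this, neg_smul, smul_neg]
      exact congrArg Neg.neg h
    rw [h1, neg_neg]
  · exfalso
    have h1 : 1 ≤ deg α := ((mem_Rc hn).1 hα).2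
    rw [h0, zero_smul] at h
    have h2 : β = 0 := by
      have h3 := h.symm
      rw [smul_eq_zero] at h3
      rcases h3 with h3 | h3
      · omega
      · exact h3
    have h4 := hβ.2
    rw [h2] at h4
    simp [BMM.bil, BMM.lev] at h4
  · left
    exact (BMM.eq_of_prop hn hα' ⟨hβ, h0⟩ h).symm

/-- translation of a half -/
private def ofBMM {α : Vec n} (h : BMM.Half α) (he : Even h.L.card) : Half α where
  L := h.L
  mu := h.μ
  eps := h.ε
  isQ_mu := h.hμ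
  isRoot c hc := (h.mem c hc).1
  ip_eq c hc := (h.mem c hc).2
  half := h.half
  sum_eq := by
    rw [h.sum, natCast_zsmul]
    congr 1
  even := he

theorem exists_half_mem (hn : HN n) {α : Vec n} (hα : α ∈ Rc n) {c : Vec n} (hc : IsRoot c)
    (hcα : ip c α = 1) : ∃ h : Half α, c ∈ h.L := by
  have hα' := (mem_Rc_iff_BMM hn).1 hα
  obtain ⟨h, hh⟩ := BMM.half_exists_mem hn hα' hc hcα
  exact ⟨ofBMM h (BMM.half_card_even hn hα' h), hh⟩

theorem exists_half (hn : HN n) {α : Vec n} (hα : α ∈ Rc n) : Nonempty (Half α) := by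
  have hα' := (mem_Rc_iff_BMM hn).1 hα
  obtain ⟨h⟩ := BMM.half_exists hn hα'
  exact ⟨ofBMM h (BMM.half_card_even hn hα' h)⟩

theorem exists_one (hn : HN n) {α : Vec n} (hα : α ∈ Rc n) : ∃ l, α l = 1 :=
  BMM.Rc_one hn ((mem_Rc_iff_BMM hn).1 hα)

private theorem varpi_eq (hn : HN n) : varpi n = BMM.varpi n := by
  funext l
  unfold varpi BMM.varpi
  rw [NZ_eq hn]
  push_cast
  rfl

theorem growth (hn : HN n) {α : Vec n} (hα : α ∈ Rc n) (h : Half α) (l : J n) :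
    |2 * (varpi n l * deg α - deg (varpi n) * α l)| ≤
      ∑ c ∈ h.L, |c l * deg α - deg c * α l| := by
  have hα' := (mem_Rc_iff_BMM hn).1 hα
  have hr : ((h.eps / 2 : ℕ) : ℤ) * 2 + ((h.eps % 2 : ℕ) : ℤ) = (h.eps : ℤ) := by
    exact_mod_cast Nat.div_add_mod' h.eps 2
  let h' : BMM.Half α :=
    { L := h.L
      mem := fun c hc => ⟨h.isRoot c hc, h.ip_eq c hc⟩
      half := h.half
      ε := h.eps % 2
      μ := h.mu + ((h.eps / 2 : ℕ) : ℤ) • α
      hμ := BMM.inQ_add h.isQ_mu (BMM.inQ_smul _ hα'.1.1)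
      hε := by omega
      sum := by
        rw [h.sum_eq, ← natCast_zsmul _ h.eps, ← natCast_zsmul _ 2, ← hr]
        push_cast
        module }
  have h1 := BMM.growth hn hα' h' l
  rw [← varpi_eq hn] at h1
  exact h1

theorem deg_varpi (hn : HN n) : IsQ (varpi n) ∧ 2 * deg (varpi n) = NZ n ∧
    ∀ l : J n, 2 * varpi n l = ((NZ n / leg n l.1 : ℕ) : ℤ) := by
  obtain ⟨h1, h2, -⟩ := BMM.varpi_facts hn
  rw [← varpi_eq hn] at h1 h2
  rw [← NZ_eq hn] at h2
  refine ⟨h1, h2, ?_⟩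
  rcases hn with rfl | rfl | rfl <;> decide +kernel

end SYM
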