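import Pool.Agent.Lib.MP_b1ea0f_al.RInd
import Pool.Agent.Lib.MP_b1ea0f_al.RHalf

/-
MP_b1ea0f_al, module RPerm (about 130 lines).  Root appendix L1.5 and scaling.
schur_perm. permJ σ is a bijection of J n preserving the legs (Equiv.sigmaCongrRight). For v put
v^σ l = v (permJ σ l): deg, IsQ, ip, IsRoot are invariant (reindex the sums: Equiv.sum_comp on each leg
and on J n), and qch (x ∘ permJ σ) z (v ∘ permJ σ) = qch x z v (Equiv.prod_comp). If h is a half of α, the
image of h.L under v ↦ v^σ, mu^σ, eps give a half of α^σ (v ↦ v^σ is a bijection of the roots with inverse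
v ↦ v^{σ⁻¹}). varpi^σ = varpi (it depends only on the leg). schur_eq on both sides (q^α = 1 on both).
qch_scale: mon multiplies by ∏_g lam g ^ (Σ_j v(g,j)) = ∏_g lam g ^ deg v, and z^{-deg v} by
(lam 0 lam 1 lam 2)^{-deg v}. schur_scale: schur_eq on both sides with the same half (all the vectors
involved, mu, c ∈ L, varpi, are in Q).
-/

namespace SYM

variable {n : ℕ}

/-- permutation of the indices inside each leg -/
def permJ (σ : ∀ g, Equiv.Perm (Fin (leg n g))) : J n → J n := fun l => ⟨l.1, σ l.1 l.2⟩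

/-- the vector `v` with permuted indices -/
private def pv (σ : ∀ g, Equiv.Perm (Fin (leg n g))) {β : Type*} (v : J n → β) : J n → β :=
  fun l => v (permJ σ l)

private def iσ (σ : ∀ g, Equiv.Perm (Fin (leg n g))) : ∀ g, Equiv.Perm (Fin (leg n g)) :=
  fun g => (σ g).symm

private theorem pv_pv_inv (σ : ∀ g, Equiv.Perm (Fin (leg n g))) {β : Type*} (v : J n → β) :
    pv σ (pv (iσ σ) v) = v := by
  funext l
  obtain ⟨g, i⟩ := l
  exact congrArg (fun j => v ⟨g, j⟩) (Equiv.symm_apply_apply (σ g) i)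

private theorem pv_inv_pv (σ : ∀ g, Equiv.Perm (Fin (leg n g))) {β : Type*} (v : J n → β) :
    pv (iσ σ) (pv σ v) = v := by
  funext l
  obtain ⟨g, i⟩ := l
  exact congrArg (fun j => v ⟨g, j⟩) (Equiv.apply_symm_apply (σ g) i)

private theorem sum_leg (σ : ∀ g, Equiv.Perm (Fin (leg n g))) (v : Vec n) (g : Fin 3) :
    ∑ i : Fin (leg n g), pv σ v ⟨g, i⟩ = ∑ i : Fin (leg n g), v ⟨g, i⟩ :=
  Equiv.sum_comp (σ g) (fun i => v ⟨g, i⟩)

private theorem deg_pv (σ : ∀ g, Equiv.Perm (Fin (leg n g))) (v : Vec n) :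
    deg (pv σ v) = deg v := sum_leg σ v 0

private theorem isQ_pv (σ : ∀ g, Equiv.Perm (Fin (leg n g))) {v : Vec n} (h : IsQ v) :
    IsQ (pv σ v) := by
  intro g
  have h1 := h g
  have h2 := sum_leg σ v g
  have h3 : BMM.lev (pv σ v) = BMM.lev v := deg_pv σ v
  rw [h3, ← h1]
  exact h2

private theorem ip_pv (σ : ∀ g, Equiv.Perm (Fin (leg n g))) (v w : Vec n) :
    ip (pv σ v) (pv σ w) = ip v w := by
  unfold ip BMM.bil
  have h3 : BMM.lev (pv σ v) = BMM.lev v := deg_pv σ v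
  have h4 : BMM.lev (pv σ w) = BMM.lev w := deg_pv σ w
  rw [h3, h4]
  congr 1
  exact Equiv.sum_comp (Equiv.sigmaCongrRight σ) (fun l => v l * w l)

private theorem isRoot_pv (σ : ∀ g, Equiv.Perm (Fin (leg n g))) {v : Vec n} (h : IsRoot v) :
    IsRoot (pv σ v) := by
  refine ⟨isQ_pv σ h.1, ?_⟩
  have := ip_pv σ v v
  exact this.trans h.2

private theorem pv_add (σ : ∀ g, Equiv.Perm (Fin (leg n g))) (v w : Vec n) :
    pv σ (v + w) = pv σ v + pv σ w := rfl

private theorem pv_sub (σ : ∀ g, Equiv.Perm (Fin (leg n g))) (v w : Vec n) :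
    pv σ (v - w) = pv σ v - pv σ w := rfl

private theorem pv_inj (σ : ∀ g, Equiv.Perm (Fin (leg n g))) :
    Function.Injective (pv σ : Vec n → Vec n) := by
  intro v w h
  rw [← pv_inv_pv σ v, h, pv_inv_pv]

private theorem mon_pv (σ : ∀ g, Equiv.Perm (Fin (leg n g))) {k : Type*} [CommRing k]
    (x : J n → kˣ) (v : Vec n) : mon (pv σ x) (pv σ v) = mon x v :=
  Equiv.prod_comp (Equiv.sigmaCongrRight σ) (fun l => x l ^ v l)

private theorem qch_pv (σ : ∀ g, Equiv.Perm (Fin (leg n g))) {k : Type*} [CommRing k]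
    (x : J n → kˣ) (z : kˣ) (v : Vec n) : qch (pv σ x) z (pv σ v) = qch x z v := by
  unfold qch
  rw [mon_pv, deg_pv]

private def permHalf (σ : ∀ g, Equiv.Perm (Fin (leg n g))) {α : Vec n} (h : Half α) :
    Half (pv σ α) where
  L := h.L.image (pv σ)
  mu := pv σ h.mu
  eps := h.eps
  isQ_mu := isQ_pv σ h.isQ_mu
  isRoot c hc := by
    obtain ⟨d, hd, rfl⟩ := Finset.mem_image.1 hc
    exact isRoot_pv σ (h.isRoot d hd)
  ip_eq c hc := by
    obtain ⟨d, hd, rfl⟩ := Finset.mem_image.1 hc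
    exact (ip_pv σ d α).trans (h.ip_eq d hd)
  half c hc hc1 := by
    obtain ⟨d, rfl⟩ : ∃ d, c = pv σ d := ⟨pv (iσ σ) c, (pv_pv_inv σ c).symm⟩
    have hd : IsRoot d := by
      have := isRoot_pv (iσ σ) hc
      rwa [pv_inv_pv] at this
    have hd1 : ip d α = 1 := (ip_pv σ d α).symm.trans hc1
    have hm : ∀ e : Vec n, pv σ e ∈ h.L.image (pv σ) ↔ e ∈ h.L := by
      intro e
      constructor
      · intro he
        obtain ⟨f, hf, hfe⟩ := Finset.mem_image.1 he
        rwa [← pv_inj σ hfe]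
      · exact fun he => Finset.mem_image_of_mem _ he
    rw [hm, ← pv_sub, hm]
    exact h.half d hd hd1
  sum_eq := by
    rw [Finset.sum_image (fun a _ b _ hab => pv_inj σ hab)]
    have h1 : ∑ c ∈ h.L, pv σ c = pv σ (∑ c ∈ h.L, c) := by
      funext l
      simp only [pv, Finset.sum_apply]
    rw [h1, h.sum_eq]
    rfl
  even := by
    rw [Finset.card_image_of_injective _ (pv_inj σ)]
    exact h.even

theorem schur_perm (hn : HN n) (σ : ∀ g, Equiv.Perm (Fin (leg n g))) {α : Vec n} (hα : α ∈ Rc n)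
    {k : Type*} [CommRing k] (x : J n → kˣ) (z : kˣ) (hq : qch x z α = 1) :
    (fun l => α (permJ σ l)) ∈ Rc n ∧
    schur (fun l => α (permJ σ l)) (fun l => x (permJ σ l)) z = schur α x z := by
  change pv σ α ∈ Rc n ∧ schur (pv σ α) (pv σ x) z = schur α x z
  have hα' : pv σ α ∈ Rc n := by
    obtain ⟨h1, h2⟩ := (mem_Rc hn).1 hα
    refine (mem_Rc hn).2 ⟨isRoot_pv σ h1, ?_⟩
    rw [deg_pv]
    exact h2
  refine ⟨hα', ?_⟩
  obtain ⟨h⟩ := exists_half hn hα
  have hq' : qch (pv σ x) z (pv σ α) = 1 := by rw [qch_pv, hq]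
  rw [schur_eq hn hα' (permHalf σ h) (pv σ x) z hq', schur_eq hn hα h x z hq]
  have e1 : qch (pv σ x) z (-varpi n) = qch x z (-varpi n) := by
    have : (-varpi n : Vec n) = pv σ (-varpi n) := rfl
    rw [this, qch_pv]
    rfl
  have e2 : (permHalf σ h).D (pv σ x) z = h.D x z := by
    unfold Half.D
    have e3 : qch (pv σ x) z (-(permHalf σ h).mu) = qch x z (-h.mu) := by
      have : (-(permHalf σ h).mu : Vec n) = pv σ (-h.mu) := rfl
      rw [this, qch_pv]
    rw [e3]
    congr 1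
    change ∏ c ∈ h.L.image (pv σ), _ = _
    rw [Finset.prod_image (fun a _ b _ hab => pv_inj σ hab)]
    refine Finset.prod_congr rfl fun c _ => ?_
    rw [qch_pv]
  rw [e1, e2]

theorem qch_scale {k : Type*} [CommRing k] (x : J n → kˣ) (z : kˣ) (lam : Fin 3 → kˣ) {v : Vec n}
    (hv : IsQ v) :
    qch (fun l => lam l.1 * x l) (lam 0 * lam 1 * lam 2 * z) v = qch x z v := by
  have h1 : mon (fun l => lam l.1 * x l) v = (lam 0 * lam 1 * lam 2) ^ deg v * mon x v := by
    unfold mon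
    simp only [mul_zpow, Finset.prod_mul_distrib]
    congr 1
    rw [Fintype.prod_sigma]
    have h2 : ∀ g : Fin 3, ∏ i : Fin (BMM.pp n g), lam (⟨g, i⟩ : J n).1 ^ v ⟨g, i⟩
        = lam g ^ deg v := by
      intro g
      change ∏ i : Fin (BMM.pp n g), lam g ^ v ⟨g, i⟩ = lam g ^ deg v
      have h3 : ∏ i : Fin (BMM.pp n g), lam g ^ v ⟨g, i⟩ =
          lam g ^ (∑ i : Fin (BMM.pp n g), v ⟨g, i⟩) := by
        have : ∀ s : Finset (Fin (BMM.pp n g)), ∏ i ∈ s, lam g ^ v ⟨g, i⟩ =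
            lam g ^ (∑ i ∈ s, v ⟨g, i⟩) := by
          intro s
          induction s using Finset.induction_on with
          | empty => simp
          | insert a s ha ih => rw [Finset.prod_insert ha, Finset.sum_insert ha, ih, zpow_add]
        exact this _
      rw [h3, hv g]
    simp only [h2]
    rw [Fin.prod_univ_three]
  unfold qch
  rw [h1, mul_zpow _ z, mul_mul_mul_comm, ← zpow_add, add_neg_cancel, zpow_zero, one_mul]

private theorem isQ_neg {v : Vec n} (h : IsQ v) : IsQ (-v) := by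
  have := BMM.inQ_smul (-1) h
  rwa [neg_one_smul] at this

theorem schur_scale (hn : HN n) {α : Vec n} (hα : α ∈ Rc n) {k : Type*} [CommRing k]
    (x : J n → kˣ) (z : kˣ) (lam : Fin 3 → kˣ) (hq : qch x z α = 1) :
    schur α (fun l => lam l.1 * x l) (lam 0 * lam 1 * lam 2 * z) = schur α x z := by
  obtain ⟨h⟩ := exists_half hn hα
  have hr := ((mem_Rc hn).1 hα).1
  have hq' : qch (fun l => lam l.1 * x l) (lam 0 * lam 1 * lam 2 * z) α = 1 := by
    rw [qch_scale x z lam hr.1, hq]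
  rw [schur_eq hn hα h _ _ hq', schur_eq hn hα h x z hq,
    qch_scale x z lam (isQ_neg (deg_varpi hn).1)]
  congr 1
  unfold Half.D
  rw [qch_scale x z lam (isQ_neg h.isQ_mu)]
  congr 1
  refine Finset.prod_congr rfl fun c hc => ?_
  rw [qch_scale x z lam (h.isRoot c hc).1]

end SYM
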