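import Pool.Agent.Lib.MP_b1ea0f_al.GSplit
import Pool.Agent.Lib.MP_b1ea0f_al.RPerm

/-!
# MP_b1ea0f_al: further definitions (linear algebra, flatness, local theorem, star trace)
-/

namespace SYM
open Polynomial Module

theorem leg_pos {n : ℕ} (hn : HN n) (g : Fin 3) : 0 < leg n g := by
  rcases hn with rfl | rfl | rfl <;> fin_cases g <;> simp [leg, BMM.pp]

/-- a root of `P` is a unit (the constant term of `P` is a unit) -/
theorem isUnit_of_P {n : ℕ} {k A : Type*} [CommRing k] [Ring A] [Algebra k A]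
    (x : J n → kˣ) (g : Fin 3) (a : A) (ha : aeval a (P n x g) = 0) : IsUnit a := by
  have h0 : IsUnit ((P n x g).coeff 0) := by
    have h1 : (P n x g).coeff 0 = ∏ j : Fin (leg n g), (- ((x ⟨g, j⟩ : kˣ) : k)) := by
      rw [Polynomial.coeff_zero_eq_eval_zero]
      simp [P, Polynomial.eval_prod]
    rw [h1]
    have h2 : (∏ j : Fin (leg n g), (- ((x ⟨g, j⟩ : kˣ) : k))) =
        ((∏ j : Fin (leg n g), (- x ⟨g, j⟩) : kˣ) : k) := by simp
    rw [h2]
    exact Units.isUnit _
  obtain ⟨c, hc⟩ := h0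
  have h2 : P n x g = Polynomial.divX (P n x g) * X + C ((P n x g).coeff 0) :=
    (Polynomial.divX_mul_X_add _).symm
  rw [h2, map_add, map_mul, aeval_X, aeval_C, ← hc] at ha
  have h3 : aeval a (Polynomial.divX (P n x g)) * a = - algebraMap k A c :=
    eq_neg_of_add_eq_zero_left ha
  have h4 : Commute (aeval a (Polynomial.divX (P n x g))) a := by
    have h6 : aeval a (Polynomial.divX (P n x g) * X) = aeval a (X * Polynomial.divX (P n x g)) := by
      rw [mul_comm]
    rw [map_mul, map_mul, aeval_X] at h6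
    exact h6
  have h5 : IsUnit (- algebraMap k A (c : k)) := (c.isUnit.map (algebraMap k A)).neg
  rw [← h3] at h5
  exact (h4.isUnit_mul_iff.1 h5).2

theorem isUnit_gen {n : ℕ} {k : Type*} [CommRing k] (x : J n → kˣ) (g : Fin 3) :
    IsUnit (gen n x g) := isUnit_of_P x g _ ((isStar_gen n x).poly g)

/-- the image of a word in `a,b,c` -/
noncomputable def wd (n : ℕ) {k : Type*} [CommRing k] (x : J n → kˣ) :
    FreeGroup (Fin 3) →* (H n x)ˣ := FreeGroup.lift fun g => (isUnit_gen x g).unit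

@[simp] theorem wd_of (n : ℕ) {k : Type*} [CommRing k] (x : J n → kˣ) (g : Fin 3) :
    ((wd n x (FreeGroup.of g) : (H n x)ˣ) : H n x) = gen n x g := by
  simp [wd]

/-- `z` as a unit -/
noncomputable def zu (n : ℕ) {k : Type*} [CommRing k] (x : J n → kˣ) : (H n x)ˣ :=
  wd n x (FreeGroup.of 0 * FreeGroup.of 1 * FreeGroup.of 2)

@[simp] theorem zu_val (n : ℕ) {k : Type*} [CommRing k] (x : J n → kˣ) :
    ((zu n x : (H n x)ˣ) : H n x) = zz n x := by
  simp [zu, zz_eq, map_mul]

/-- unobstructed triple: `D_g = I_g`, `im dP_g = centraliser`, `ker L ∩ I³ = d1(I³)` -/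
structure Unob {κ A : Type} [Field κ] [Ring A] [Algebra κ A] (n : ℕ) (x : J n → κˣ)
    (a : Fin 3 → A) : Prop where
  star : IsStar n x a
  ker : ∀ g η, dP (P n x g) (a g) η = 0 → ∃ s, η = s * a g - a g * s
  im : ∀ g η, η * a g = a g * η → ∃ ρ, η = dP (P n x g) (a g) ρ
  ex : ∀ σ : Fin 3 → A, (∀ g, ∃ s, σ g = s * a g - a g * s) → Lr a σ = 0 →
    ∃ δ : Fin 3 → A, (∀ g, ∃ s, δ g = s * a g - a g * s) ∧
      ∀ g, σ g * (a 0 * a 1 * a 2) = a 0 * a 1 * a 2 * δ g - δ g * (a 0 * a 1 * a 2)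
        + (Lr a δ * a g - a g * Lr a δ)

/-- the consequence of projectivity: first order deformations are trivial -/
def ProjH {κ A : Type} [Field κ] [Ring A] [Algebra κ A] (n : ℕ) (x : J n → κˣ)
    (a : Fin 3 → A) : Prop :=
  ∀ δ : Fin 3 → A, (∀ g, dP (P n x g) (a g) (δ g) = 0) →
    (∀ g, a 0 * a 1 * a 2 * δ g - δ g * (a 0 * a 1 * a 2) + (Lr a δ * a g - a g * Lr a δ) = 0) →
    ∃ s, ∀ g, δ g = s * a g - a g * s

/-- `D(T) = ∏ (T^d - x^α)` -/
noncomputable def DD {k : Type*} [CommRing k] (n : ℕ) (x : J n → kˣ) : k[X] :=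
  ∏ α ∈ Rc n, (X ^ dg α - C ((mon x α : kˣ) : k))

/-! ## the star group -/

/-- the relations of the star group `⟨a,b,c | a²,b³,cⁿ, abc central⟩` -/
inductive GRel (n : ℕ) : FreeGroup (Fin 3) → Prop
  | pow (g : Fin 3) : GRel n (FreeGroup.of g ^ leg n g)
  | comm (g : Fin 3) : GRel n ((FreeGroup.of 0 * FreeGroup.of 1 * FreeGroup.of 2) * FreeGroup.of g *
      (FreeGroup.of 0 * FreeGroup.of 1 * FreeGroup.of 2)⁻¹ * (FreeGroup.of g)⁻¹)

/-- the star group -/
abbrev GG (n : ℕ) : Type := PresentedGroup {w | GRel n w}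

/-- generators of the star group -/
def gg (n : ℕ) (g : Fin 3) : GG n := PresentedGroup.of g

/-- exponent sum of the generator `g` -/
def expo (g : Fin 3) : FreeGroup (Fin 3) →* Multiplicative ℤ :=
  FreeGroup.lift fun i => if i = g then Multiplicative.ofAdd 1 else 1

/-! ## the fraction field, curves -/

/-- the fraction field of the base ring -/
abbrev KF (n : ℕ) : Type := FractionRing (RR n)

/-- parameters in the fraction field -/
noncomputable abbrev xK (n : ℕ) : J n → (KF n)ˣ := mapx (algebraMap (RR n) (KF n)) (XX n)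

/-- the curve `x_k = y_k + s`, `x_l = y_l` for `l ≠ k` -/
noncomputable def curve {σ : Type} [DecidableEq σ] {KK : Type} [Field KK] (k : σ) (y : σ → KKˣ) :
    Laurent σ →+* PowerSeries KK :=
  Laurent.lift fun l => if l = k then
      { val := PowerSeries.C (y k : KK) + PowerSeries.X
        inv := (PowerSeries.C (y k : KK) + PowerSeries.X)⁻¹
        val_inv := PowerSeries.mul_inv_cancel _ (by simp)
        inv_val := PowerSeries.inv_mul_cancel _ (by simp) }
    else Units.map (PowerSeries.C : KK →+* PowerSeries KK) (y l)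

/-- the involution `x ↦ x^{-1}` -/
noncomputable def Laurent.bar {σ : Type} : Laurent σ →+* Laurent σ :=
  Laurent.lift fun i => (Laurent.var i)⁻¹

/-- `C = ∏ x_{g,j}^{N/p_g}` -/
noncomputable def CC (n : ℕ) : (RR n)ˣ := mon (XX n) (2 • varpi n)

/-! ## the local situation -/
section LT
variable {KK : Type} [Field KK] {n : ℕ}

/-- the curve `x_k = y + s`, the other parameters constant and multiplicatively independent -/
structure LocHyp (n : ℕ) (x : J n → (PowerSeries KK)ˣ) (k : J n) : Prop where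
  const : ∀ l, l ≠ k → ((x l : (PowerSeries KK)ˣ) : (PowerSeries KK)) = PowerSeries.C ((PowerSeries.constantCoeff (R := KK)) ((x l : (PowerSeries KK)ˣ) : (PowerSeries KK)))
  lin : ((x k : (PowerSeries KK)ˣ) : (PowerSeries KK)) = PowerSeries.C ((PowerSeries.constantCoeff (R := KK)) ((x k : (PowerSeries KK)ˣ) : (PowerSeries KK))) + PowerSeries.X
  ind : ∀ v : Vec n, v k = 0 → mon (mapx (PowerSeries.constantCoeff (R := KK)) x) v = 1 → v = 0

/-- `u'(0)/u(0)` -/
noncomputable def dlog (u : (PowerSeries KK)ˣ) : KK := PowerSeries.coeff 1 (u : (PowerSeries KK)) / (PowerSeries.constantCoeff (R := KK)) (u : (PowerSeries KK))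

/-- everything about the local situation: lifted roots and lattice representations -/
structure LocData (n : ℕ) (x : J n → (PowerSeries KK)ˣ) (k : J n) where
  hl : LocHyp n x k
  zl : Idx (mapx (PowerSeries.constantCoeff (R := KK)) x) → (PowerSeries KK)ˣ
  zl_pow : ∀ i, zl i ^ dg i.1.1 = mon x i.1.1
  zl_cc : ∀ i, Units.map ((PowerSeries.constantCoeff (R := KK)) : (PowerSeries KK) →* KK) (zl i) = i.1.2
  σ : ∀ i : Idx (mapx (PowerSeries.constantCoeff (R := KK)) x), H n x →ₐ[(PowerSeries KK)] Matrix (Fin (dg i.1.1 ^ 2)) (Fin (dg i.1.1 ^ 2)) (PowerSeries KK)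
  σ_zz : ∀ i, σ i (zz n x) = (zl i : (PowerSeries KK)) • 1
  σ_tr : ∀ i g (p : (PowerSeries KK)[X]), Matrix.trace (σ i (aeval (gen n x g) p)) =
        dg i.1.1 * ∑ j, (i.1.1 ⟨g, j⟩ : (PowerSeries KK)) * p.eval ((x ⟨g, j⟩ : (PowerSeries KK)ˣ) : (PowerSeries KK))

/-- the summand `tr σ_i(h) / (d_i² s_i)` -/
noncomputable def LocData.term {x : J n → (PowerSeries KK)ˣ} {k : J n} (D : LocData n x k)
    (i : Idx (mapx (PowerSeries.constantCoeff (R := KK)) x)) (h : H n x) : (LaurentSeries KK) :=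
  algebraMap (PowerSeries KK) (LaurentSeries KK) (Matrix.trace (D.σ i h)) / ((dg i.1.1 : (LaurentSeries KK)) ^ 2 *
          algebraMap (PowerSeries KK) (LaurentSeries KK) (schur i.1.1 x (D.zl i)))

/-- the coefficient of `s` in `S_i = d_i s_i` -/
noncomputable def LocData.res {x : J n → (PowerSeries KK)ˣ} {k : J n} (D : LocData n x k)
    (i : Idx (mapx (PowerSeries.constantCoeff (R := KK)) x)) : KK :=
  (dg i.1.1 : KK) * PowerSeries.coeff 1 (schur i.1.1 x (D.zl i))

/-- the reduction of `tr σ_i` is `d_i ∑_j m_j tr ρ_j` -/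
def LocData.Red {x : J n → (PowerSeries KK)ˣ} {k : J n} (D : LocData n x k) (w : Wed KK (H n (mapx (PowerSeries.constantCoeff (R := KK)) x)))
    (i : Idx (mapx (PowerSeries.constantCoeff (R := KK)) x)) (m : Fin w.r → ℕ) : Prop :=
  ∀ h : H n x, (PowerSeries.constantCoeff (R := KK)) (Matrix.trace (D.σ i h)) =
    (dg i.1.1 : KK) * ∑ j, (m j : KK) * LinearMap.trace KK _ (w.ρ j (hmap (PowerSeries.constantCoeff (R := KK)) n x h))

/-- the situation at one eigenvalue `z0` of `z` on `H(KK, x(0))` -/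
inductive BlockCase {x : J n → (PowerSeries KK)ˣ} {k : J n} (D : LocData n x k)
    (w : Wed KK (H n (mapx (PowerSeries.constantCoeff (R := KK)) x))) (z0 : KKˣ) : Prop
  /-- all Schur elements are units, the irreducible representations at `z0` are the reductions -/
  | unit (f : {i : Idx (mapx (PowerSeries.constantCoeff (R := KK)) x) // i.1.2 = z0} ≃ {j : Fin w.r // w.ρ j (zz n _) = (z0 : KK) • 1})
      (hd : ∀ i, w.d (f i).1 = dg i.1.1.1)
      (hr : ∀ i, D.Red w i.1 (Pi.single (f i).1 1))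
      (hu : ∀ i : {i : Idx (mapx (PowerSeries.constantCoeff (R := KK)) x) // i.1.2 = z0}, (PowerSeries.constantCoeff (R := KK)) (schur i.1.1.1 x (D.zl i.1)) ≠ 0) :
      BlockCase D w z0
  /-- two roots differing by a leg root, one irreducible representation -/
  | leg (γ β : Idx (mapx (PowerSeries.constantCoeff (R := KK)) x)) (j : Fin w.r) (hne : γ ≠ β)
      (hG : ∀ i : Idx (mapx (PowerSeries.constantCoeff (R := KK)) x), i.1.2 = z0 ↔ i = γ ∨ i = β)
      (hW : ∀ i, w.ρ i (zz n _) = (z0 : KK) • 1 ↔ i = j)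
      (hdg : dg γ.1.1 = dg β.1.1) (hd : w.d j = dg γ.1.1)
      (hrγ : D.Red w γ (Pi.single j 1)) (hrβ : D.Red w β (Pi.single j 1))
      (h0γ : (PowerSeries.constantCoeff (R := KK)) (schur γ.1.1 x (D.zl γ)) = 0) (h0β : (PowerSeries.constantCoeff (R := KK)) (schur β.1.1 x (D.zl β)) = 0)
      (h1 : D.res γ ≠ 0) (h2 : D.res β = - D.res γ)
      (h3 : PowerSeries.coeff 1 (D.zl γ : (PowerSeries KK)) ≠ PowerSeries.coeff 1 (D.zl β : (PowerSeries KK))) :
      BlockCase D w z0
  /-- `γ, δ, β = γ + δ`, two irreducible representations -/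
  | A2 (γ δ β : Idx (mapx (PowerSeries.constantCoeff (R := KK)) x)) (j j' : Fin w.r) (hjj : j ≠ j') (hne : γ ≠ δ) (hne' : γ ≠ β)
      (hne'' : δ ≠ β)
      (hG : ∀ i : Idx (mapx (PowerSeries.constantCoeff (R := KK)) x), i.1.2 = z0 ↔ i = γ ∨ i = δ ∨ i = β)
      (hW : ∀ i, w.ρ i (zz n _) = (z0 : KK) • 1 ↔ i = j ∨ i = j')
      (hdg : dg β.1.1 = dg γ.1.1 + dg δ.1.1) (hd : w.d j = dg γ.1.1) (hd' : w.d j' = dg δ.1.1)
      (hrγ : D.Red w γ (Pi.single j 1)) (hrδ : D.Red w δ (Pi.single j' 1))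
      (hrβ : D.Red w β (Pi.single j 1 + Pi.single j' 1))
      (h0γ : (PowerSeries.constantCoeff (R := KK)) (schur γ.1.1 x (D.zl γ)) = 0) (h0δ : (PowerSeries.constantCoeff (R := KK)) (schur δ.1.1 x (D.zl δ)) = 0)
      (h0β : (PowerSeries.constantCoeff (R := KK)) (schur β.1.1 x (D.zl β)) = 0)
      (h1 : D.res γ ≠ 0) (h2 : D.res β = - D.res γ) (h2' : D.res β = - D.res δ)
      (h3 : PowerSeries.coeff 1 (D.zl γ : (PowerSeries KK)) ≠ PowerSeries.coeff 1 (D.zl β : (PowerSeries KK)))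
      (h3' : PowerSeries.coeff 1 (D.zl δ : (PowerSeries KK)) ≠ PowerSeries.coeff 1 (D.zl β : (PowerSeries KK)))
      (hdist : ∀ g (i i' : Fin (leg n g)), mapx (PowerSeries.constantCoeff (R := KK)) x ⟨g, i⟩ = mapx (PowerSeries.constantCoeff (R := KK)) x ⟨g, i'⟩ → i = i')
      (hip : ip (dv (mapx (PowerSeries.constantCoeff (R := KK)) x) fun g => w.ρ j (gen n (mapx (PowerSeries.constantCoeff (R := KK)) x) g))
          (dv (mapx (PowerSeries.constantCoeff (R := KK)) x) fun g => w.ρ j (gen n (mapx (PowerSeries.constantCoeff (R := KK)) x) g)) = 2)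
      (hip' : ip (dv (mapx (PowerSeries.constantCoeff (R := KK)) x) fun g => w.ρ j' (gen n (mapx (PowerSeries.constantCoeff (R := KK)) x) g))
          (dv (mapx (PowerSeries.constantCoeff (R := KK)) x) fun g => w.ρ j' (gen n (mapx (PowerSeries.constantCoeff (R := KK)) x) g)) = 2) :
      BlockCase D w z0

end LT

/-! ## the result for the star algebras -/

/-- a symmetrising trace on the generic star algebra with all its properties -/
structure StarTrace (n : ℕ) where
  T : H n (XX n) →ₗ[RR n] RR n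
  frob : Frob T
  comm : ∀ h h', T (h * h') = T (h' * h)
  one : T 1 = 1
  group : ∀ (κ : Type) [Field κ] [CharZero κ] [IsAlgClosed κ] (f : RR n →+* κ) (ξ : κˣ),
    IsGroupPoint ξ (mapx f (XX n)) → ∀ w : FreeGroup (Fin 3),
    (FreeGroup.lift (gg n) w = 1 → f (T (wd n (XX n) w : H n (XX n))) = 1) ∧
    (FreeGroup.lift (gg n) w ≠ 1 → f (T (wd n (XX n) w : H n (XX n))) = 0)
  bar : ∀ w : FreeGroup (Fin 3), Laurent.bar (T (wd n (XX n) w⁻¹ : H n (XX n))) * (CC n : RR n) =
      T ((wd n (XX n) w : H n (XX n)) * zz n (XX n) ^ NZ n)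
  perm : ∀ (σ : ∀ g, Equiv.Perm (Fin (leg n g))) (w : FreeGroup (Fin 3)),
    Laurent.lift (fun l => XX n (permJ σ l)) (T (wd n (XX n) w : H n (XX n))) =
      T (wd n (XX n) w : H n (XX n))
  scale : ∀ (k : Type) [CommRing k] (x : J n → kˣ) (lam : Fin 3 → kˣ) (w : FreeGroup (Fin 3)),
    Laurent.lift (fun l => lam l.1 * x l) (T (wd n (XX n) w : H n (XX n))) =
      ((∏ g, lam g ^ (expo g w).toAdd : kˣ) : k) *
        Laurent.lift x (T (wd n (XX n) w : H n (XX n)))

end SYM
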