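import Pool.Agent.Lib.MP_b1ea0f_al.DefsE

/-!
# MP_b1ea0f_al: definitions for the descent (section 9), no unproved statement

* `ZO = ℤ[ζ]`, `ζ = ze` a primitive 60-th root of unity;
* `LO σ` = Laurent polynomials over `ZO` in the variables `v_p`, `p ∈ σ`;
* `dbl : Laurent σ → LO σ`, `u_p ↦ v_p²`;
* `gal g ε`, `LO.conj`: automorphisms of `LO σ`; `toC`: the evaluation `LO D.Par → ℂ`;
* `PE E`: the polynomials of the star algebra over `R(W)`, `AE E` the star algebra, `wE` words.
-/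

namespace SYM
open Polynomial Module BraidData

/-! ## the ring `ℤ[ζ₆₀]` -/

/-- the ring `ℤ[ζ₆₀]` -/
abbrev ZO : Type := AdjoinRoot (cyclotomic 60 ℤ)

/-- the root of unity `ζ` -/
noncomputable def ze : ZO := AdjoinRoot.root (cyclotomic 60 ℤ)

instance : IsDomain ZO :=
  AdjoinRoot.isDomain_of_prime (cyclotomic.irreducible (by norm_num : 0 < 60)).prime

instance : CharZero ZO := by
  have h0 : (cyclotomic 60 ℤ).degree ≠ 0 := by
    rw [degree_cyclotomic, show Nat.totient 60 = 16 by decide]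
    norm_num
  have h : Function.Injective (algebraMap ℤ ZO) :=
    AdjoinRoot.of.injective_of_degree_ne_zero (f := cyclotomic 60 ℤ) h0
  exact charZero_of_injective_algebraMap h

theorem isPrimitiveRoot_ze : IsPrimitiveRoot ze 60 := by
  rw [← isRoot_cyclotomic_iff]
  have h := AdjoinRoot.eval₂_root (cyclotomic 60 ℤ)
  rw [Polynomial.eval₂_eq_eval_map, map_cyclotomic] at h
  exact h

/-- `ζ ↦ b` -/
noncomputable def ZO.lift {B : Type*} [CommRing B] (b : B) (hb : (cyclotomic 60 B).IsRoot b) :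
    ZO →+* B :=
  AdjoinRoot.lift (Int.castRingHom B) b (by
    rw [Polynomial.eval₂_eq_eval_map, map_cyclotomic]
    exact hb)

@[simp] theorem ZO.lift_ze {B : Type*} [CommRing B] (b : B) (hb : (cyclotomic 60 B).IsRoot b) :
    ZO.lift b hb ze = b := AdjoinRoot.lift_root _

/-- ring homomorphisms on `ℤ[ζ₆₀]` are determined by the image of `ζ` -/
theorem ZO.hom_ext {B : Type*} [CommRing B] {f g : ZO →+* B} (h : f ze = g ze) : f = g := by
  apply RingHom.ext
  intro a
  obtain ⟨q, rfl⟩ := AdjoinRoot.mk_surjective a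
  induction q using Polynomial.induction_on' with
  | add p q hp hq => rw [map_add, map_add, map_add, hp, hq]
  | monomial n a =>
    rw [← Polynomial.C_mul_X_pow_eq_monomial, map_mul, map_mul, map_mul, map_pow, map_pow, map_pow]
    have h1 : AdjoinRoot.mk (cyclotomic 60 ℤ) X = ze := AdjoinRoot.mk_X
    rw [h1, h, AdjoinRoot.mk_C]
    congr 1
    rw [show a = (Int.castRingHom ℤ) a from rfl, eq_intCast, eq_intCast, map_intCast, map_intCast]

/-! ## Laurent polynomials over `ℤ[ζ₆₀]` -/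

/-- Laurent polynomials over `ℤ[ζ₆₀]` in the variables `v_p`, `p ∈ σ` -/
abbrev LO (σ : Type) : Type := AddMonoidAlgebra ZO (σ →₀ ℤ)

/-- the variables, as units -/
noncomputable def LO.var {σ : Type} (i : σ) : (LO σ)ˣ where
  val := AddMonoidAlgebra.single (Finsupp.single i 1) 1
  inv := AddMonoidAlgebra.single (Finsupp.single i (-1)) 1
  val_inv := by
    rw [AddMonoidAlgebra.single_mul_single, ← Finsupp.single_add]
    simp [AddMonoidAlgebra.one_def]
  inv_val := by
    rw [AddMonoidAlgebra.single_mul_single, ← Finsupp.single_add]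
    simp [AddMonoidAlgebra.one_def]

/-- the constants -/
noncomputable def LO.C {σ : Type} : ZO →+* LO σ := AddMonoidAlgebra.singleZeroRingHom

/-- the ring homomorphism given by its values on the constants and on the variables -/
noncomputable def LO.lift {σ : Type} {B : Type*} [CommRing B] (g : ZO →+* B) (y : σ → Bˣ) :
    LO σ →+* B :=
  AddMonoidAlgebra.liftNCRingHom g (Laurent.monHom y) (fun _ _ => Commute.all _ _)

@[simp] theorem LO.lift_C {σ : Type} {B : Type*} [CommRing B] (g : ZO →+* B) (y : σ → Bˣ)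
    (o : ZO) : LO.lift g y (LO.C o) = g o := by
  simp only [LO.lift, LO.C, AddMonoidAlgebra.singleZeroRingHom_apply]
  simp [AddMonoidAlgebra.liftNCRingHom]

@[simp] theorem LO.lift_var {σ : Type} {B : Type*} [CommRing B] (g : ZO →+* B) (y : σ → Bˣ)
    (i : σ) : LO.lift g y (LO.var i : LO σ) = y i := by
  have h : ((Finsupp.single i (1 : ℤ)).prod fun i e => y i ^ e : Bˣ) = y i := by
    rw [Finsupp.prod_single_index] <;> simp
  have h2 : Laurent.monHom y (Multiplicative.ofAdd (Finsupp.single i (1 : ℤ))) = (y i : B) := by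
    show (((Finsupp.single i (1 : ℤ)).prod fun i e => y i ^ e : Bˣ) : B) = y i
    rw [h]
  simp only [LO.lift, LO.var, AddMonoidAlgebra.liftNCRingHom]
  simp [h2]

/-- `u_p ↦ v_p²` -/
noncomputable def dbl {σ : Type} : Laurent σ →+* LO σ := Laurent.lift fun p => LO.var p ^ 2

@[simp] theorem dbl_var {σ : Type} (p : σ) :
    dbl (Laurent.var p : Laurent σ) = ((LO.var p : (LO σ)ˣ) : LO σ) ^ 2 := by
  rw [dbl, Laurent.lift_var, Units.val_pow_eq_pow_val]

/-- the endomorphism `ζ ↦ g ζ`, `v_p ↦ ε_p v_p` -/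
noncomputable def gal {σ : Type} (g : ZO →+* ZO) (ε : σ → (LO σ)ˣ) : LO σ →+* LO σ :=
  LO.lift (LO.C.comp g) fun p => ε p * LO.var p

/-- `ζ` as a unit -/
noncomputable def zeU : ZOˣ := Units.ofPowEqOne ze 60 isPrimitiveRoot_ze.pow_eq_one (by norm_num)

@[simp] theorem coe_zeU : (zeU : ZO) = ze := rfl

theorem isPrimitiveRoot_inv_ze : IsPrimitiveRoot ((zeU⁻¹ : ZOˣ) : ZO) 60 := by
  have h : IsPrimitiveRoot zeU 60 := IsPrimitiveRoot.coe_units_iff.1 isPrimitiveRoot_ze
  exact IsPrimitiveRoot.coe_units_iff.2 h.inv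

/-- `ζ ↦ ζ⁻¹` -/
noncomputable def ZO.conj : ZO →+* ZO :=
  ZO.lift ((zeU⁻¹ : ZOˣ) : ZO) (isPrimitiveRoot_inv_ze.isRoot_cyclotomic (by norm_num))

/-- `ζ ↦ ζ⁻¹`, `v_p ↦ v_p⁻¹` -/
noncomputable def LO.conj {σ : Type} : LO σ →+* LO σ :=
  LO.lift (LO.C.comp ZO.conj) fun p => (LO.var p)⁻¹

/-- `ζ ↦ exp(2πi/60)` -/
noncomputable def ZO.toC : ZO →+* ℂ :=
  ZO.lift (Complex.exp (2 * Real.pi * Complex.I / (60 : ℕ)))
    ((Complex.isPrimitiveRoot_exp 60 (by norm_num)).isRoot_cyclotomic (by norm_num))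

/-! ## the algebra over `R(W)` -/

section
variable {D : BraidData}

/-- `ζ ↦ exp(2πi/60)`, `v_{c,j} ↦ exp(2πi(j+1)/(2 e_c))` -/
noncomputable def toC (D : BraidData) : LO D.Par →+* ℂ :=
  LO.lift ZO.toC fun p : D.Par =>
    Units.mk0 (Complex.exp (2 * Real.pi * Complex.I * ((p.2 : ℕ) + 1) / (2 * D.ord p.1)))
      (Complex.exp_ne_zero _)

/-- `∏_j (X - u_{c,j})` -/
noncomputable def PC (D : BraidData) (c : Fin D.cls) : D.R[X] :=
  ∏ j : Fin (D.ord c), (X - C ((Laurent.var (⟨c, j⟩ : D.Par) : (D.R)ˣ) : D.R))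

/-- the polynomial of a leg of the type `t` and the size `p` -/
noncomputable def PT (p : ℕ) : LegT D → D.R[X]
  | .free c => PC D c
  | .killed => X ^ p - 1
  | .sq c => (PC D c).comp (X ^ 2)

/-- the polynomials of the legs -/
noncomputable def PE (E : Emb D) (g : Fin 3) : D.R[X] := PT (leg E.n g) (E.lt g)

/-- the star algebra over `R(W)` -/
abbrev AE (E : Emb D) : Type := BMM.HA D.R (PE E)

theorem isUnit_coeff_PC (c : Fin D.cls) : IsUnit ((PC D c).coeff 0) := by
  rw [PC, Polynomial.coeff_zero_eq_eval_zero, Polynomial.eval_prod, IsUnit.prod_univ_iff]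
  intro j
  rw [Polynomial.eval_sub, Polynomial.eval_X, Polynomial.eval_C, zero_sub, IsUnit.neg_iff]
  exact Units.isUnit _

theorem isUnit_coeff_PT {p : ℕ} (hp : 0 < p) (t : LegT D) :
    IsUnit ((PT p t : D.R[X]).coeff 0) := by
  cases t with
  | free c => exact isUnit_coeff_PC c
  | killed =>
    rw [PT, Polynomial.coeff_zero_eq_eval_zero]
    simp [hp.ne']
  | sq c =>
    rw [PT, Polynomial.coeff_zero_eq_eval_zero, Polynomial.eval_comp]
    simp only [eval_pow, eval_X, ne_eq, OfNat.ofNat_ne_zero, not_false_eq_true, zero_pow]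
    rw [← Polynomial.coeff_zero_eq_eval_zero]
    exact isUnit_coeff_PC c

theorem isUnit_coeff_PE (E : Emb D) (g : Fin 3) : IsUnit ((PE E g).coeff 0) :=
  isUnit_coeff_PT (leg_pos E.hn g) _

/-- words in `a, b, c` -/
noncomputable def wE (E : Emb D) : FreeGroup (Fin 3) →* (AE E)ˣ :=
  FreeGroup.lift fun g => (BMM.isUnit_gen (isUnit_coeff_PE E) g).unit

/-- the central element -/
noncomputable def zE (E : Emb D) : AE E := BMM.zz D.R (PE E)

theorem wE_of (E : Emb D) (g : Fin 3) :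
    ((wE E (FreeGroup.of g) : (AE E)ˣ) : AE E) = BMM.gen D.R (PE E) g := by
  simp [wE]

theorem zE_comm (E : Emb D) (a : AE E) : zE E * a = a * zE E := (BMM.zz_comm a).symm

theorem zE_eq (E : Emb D) : zE E =
    (wE E (FreeGroup.of 0 * FreeGroup.of 1 * FreeGroup.of 2) : (AE E)ˣ) := by
  rw [map_mul, map_mul, Units.val_mul, Units.val_mul, wE_of, wE_of, wE_of]
  rfl

/-! ## legs -/

/-- the order of the symmetry of a leg of the type `t` and the size `p` -/
def LegT.d (p : ℕ) : LegT D → ℕ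
  | .free _ => 1
  | .killed => p
  | .sq _ => 2

/-- parameters `x_1, …, x_p` in `LO D.Par` for a leg of the type `t` and the size `p` -/
structure IsLeg (D : BraidData) (p : ℕ) (t : LegT D) (x : Fin p → (LO D.Par)ˣ) : Prop where
  /-- they are the roots of the polynomial of the leg -/
  poly : ∏ j, (X - C ((x j : (LO D.Par)ˣ) : LO D.Par)) = (PT p t).map dbl
  /-- they are permuted by the automorphisms -/
  gal : ∀ (g : ZO →+* ZO) (ε : D.Par → (LO D.Par)ˣ), (∀ q, ε q = 1 ∨ ε q = -1) →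
    ∃ π : Equiv.Perm (Fin p), ∀ j, gal g ε (x j : LO D.Par) = (x (π j) : LO D.Par)
  conj : ∀ j, LO.conj (x j : LO D.Par) = (((x j)⁻¹ : (LO D.Par)ˣ) : LO D.Par)
  /-- the group point -/
  pt : ∀ j, toC D (x j : LO D.Par) =
    Complex.exp (2 * Real.pi * Complex.I * ((j : ℕ) + 1) / (p : ℕ))
  /-- the symmetry of the leg -/
  rot : ∃ lam : (LO D.Par)ˣ, (∀ e : ℤ, lam ^ e = 1 → (t.d p : ℤ) ∣ e) ∧
    ∃ π : Equiv.Perm (Fin p), ∀ j, x (π j) = lam * x j

/-- a trace on the star algebra over `R(W)` that comes from the generic one -/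
structure TrE (E : Emb D) (S : StarTrace E.n) where
  x : J E.n → (LO D.Par)ˣ
  isLeg : ∀ g, IsLeg D (leg E.n g) (E.lt g) fun j => x ⟨g, j⟩
  T : AE E →ₗ[D.R] D.R
  frob : Frob T
  comm : ∀ h h', T (h * h') = T (h' * h)
  word : ∀ w : FreeGroup (Fin 3), dbl (T (wE E w : (AE E)ˣ)) =
    Laurent.lift x (S.T (wd E.n (XX E.n) w : (H E.n (XX E.n))ˣ))

/-- the embedding of the Hecke algebra -/
structure Iota (E : Emb D) where
  i : D.HW →ₐ[D.R] AE E
  word : ∀ w : FreeGroup (Fin D.gens), i (D.T _ (QuotientGroup.mk w : D.Braid)) =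
    (wE E (FreeGroup.lift E.ι w) : (AE E)ˣ)

end

end SYM
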