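import Pool.Agent.Lib.MP_b1ea0f_al.Defs3

/-!
# MP_b1ea0f_al: braid groups, reflection groups and Hecke algebras of `G4, ..., G22`

Presentations of the braid groups: Broué–Malle–Rouquier (Bannai).
-/

namespace SYM
open Polynomial

/-- combinatorial data of a complex reflection group `W` of rank two: number of generators
`s_0, s_1, ...` of the braid group (braided reflections), number of conjugacy classes of
distinguished reflections, the class of each generator, the order `e` of the reflections of each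
class, the braid relations, the word of the generator `z` of the centre of the braid group and
the order of the centre of `W` -/
structure BraidData where
  gens : ℕ
  cls : ℕ
  cl : Fin gens → Fin cls
  ord : Fin cls → ℕ
  rels : List (List (Fin gens) × List (Fin gens))
  centre : List (Fin gens)
  zord : ℕ

namespace BraidData
variable (D : BraidData)

/-- a word as an element of the free group -/
def word (l : List (Fin D.gens)) : FreeGroup (Fin D.gens) := (l.map FreeGroup.of).prod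

/-- the braid group `B(W)` -/
abbrev Braid : Type :=
  PresentedGroup {r : FreeGroup (Fin D.gens) | ∃ p ∈ D.rels, r = D.word p.1 * (D.word p.2)⁻¹}

/-- the generators (braided reflections) -/
def s (i : Fin D.gens) : D.Braid := PresentedGroup.of i

/-- the reflection group `W`: the quotient of `B(W)` by the relations `s^{e_s} = 1` -/
abbrev Refl : Type := D.Braid ⧸ Subgroup.normalClosure
  (Set.range fun i : Fin D.gens => D.s i ^ D.ord (D.cl i))

/-- indices of the parameters `u_{s,j}` -/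
abbrev Par : Type := (c : Fin D.cls) × Fin (D.ord c)

/-- the element `π` of the braid group (the full twist), `π = z^{|Z(W)|}` -/
def pi : D.Braid := ((D.centre.map D.s).prod) ^ D.zord

section
variable {k : Type*} [CommRing k]

/-- the relations of the Hecke algebra: `∏_j (s - u_{s,j}) = 0` for all braided reflections, i.e.
all conjugates of the generators -/
inductive HRel (y : D.Par → kˣ) : MonoidAlgebra k D.Braid → MonoidAlgebra k D.Braid → Prop
  | poly (b : D.Braid) (i : Fin D.gens) :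
      HRel y (aeval (MonoidAlgebra.of k D.Braid (b * D.s i * b⁻¹))
        (∏ j : Fin (D.ord (D.cl i)), (X - C ((y ⟨D.cl i, j⟩ : kˣ) : k)))) 0

/-- the Hecke algebra over `k` with parameters `y` -/
def Hecke (y : D.Par → kˣ) : Type _ := RingQuot (D.HRel y)

noncomputable instance (y : D.Par → kˣ) : Ring (D.Hecke y) :=
  inferInstanceAs (Ring (RingQuot (D.HRel y)))

noncomputable instance (y : D.Par → kˣ) : Algebra k (D.Hecke y) :=
  inferInstanceAs (Algebra k (RingQuot (D.HRel y)))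

/-- the projection from the group algebra -/
noncomputable def hmk (y : D.Par → kˣ) : MonoidAlgebra k D.Braid →ₐ[k] D.Hecke y :=
  RingQuot.mkAlgHom k (D.HRel y)

/-- the image `T_b` of `b ∈ B(W)` in the Hecke algebra -/
noncomputable def T (y : D.Par → kˣ) : D.Braid →* D.Hecke y :=
  ((D.hmk y : MonoidAlgebra k D.Braid →* D.Hecke y)).comp (MonoidAlgebra.of k D.Braid)

end

/-- the base ring `R(W) = ℤ[u_{s,j}^{±1}]` -/
abbrev R : Type := Laurent D.Par

/-- the generic Hecke algebra `H(W)` -/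
abbrev HW : Type := D.Hecke (k := D.R) (Laurent.var (σ := D.Par))

/-- the specialisation `u_{s,j} ↦ exp(2π√-1 j/e_s)`, `j = 1, …, e_s` -/
noncomputable def θ : D.R →+* ℂ :=
  Laurent.lift fun p : D.Par =>
    Units.mk0 (Complex.exp (2 * Real.pi * Complex.I * ((p.2 : ℕ) + 1) / D.ord p.1))
      (Complex.exp_ne_zero _)

/-- the involution `u_{s,j} ↦ u_{s,j}^{-1}` of `R(W)` -/
noncomputable def star : D.R →+* D.R := Laurent.lift fun p => (Laurent.var p)⁻¹

/-- The assertion of the Broué–Malle–Michel conjecture for the group with the data `D`. -/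
def BMM : Prop :=
  Module.Finite D.R D.HW ∧ Module.Projective D.R D.HW ∧
  ∃ τ : D.HW →ₗ[D.R] D.R,
    -- (1) symmetrising trace: trace form, perfect
    (∀ h h', τ (h * h') = τ (h' * h)) ∧
    Function.Bijective (fun h : D.HW => τ ∘ₗ LinearMap.mulLeft D.R h) ∧
    -- (2) specialises to the canonical trace of the group algebra
    (∀ b : D.Braid, ((QuotientGroup.mk b : D.Refl) = 1 → D.θ (τ (D.T _ b)) = 1) ∧
      ((QuotientGroup.mk b : D.Refl) ≠ 1 → D.θ (τ (D.T _ b)) = 0)) ∧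
    -- (3)
    IsUnit (τ (D.T _ D.pi)) ∧
    (∀ b : D.Braid, D.star (τ (D.T _ b⁻¹)) * τ (D.T _ D.pi) = τ (D.T _ (b * D.pi)))

end BraidData

open BraidData

/-- data of the groups `G4, …, G22` (generators `s, t, u = 0, 1, 2`) -/
def G4 : BraidData := ⟨2, 1, fun _ => 0, fun _ => 3, [([0,1,0],[1,0,1])], [0,1,0,1,0,1], 2⟩
def G5 : BraidData := ⟨2, 2, id, fun _ => 3, [([0,1,0,1],[1,0,1,0])], [0,1,0,1], 6⟩
def G6 : BraidData := ⟨2, 2, id, ![2,3], [([0,1,0,1,0,1],[1,0,1,0,1,0])], [0,1,0,1,0,1], 4⟩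
def G7 : BraidData := ⟨3, 3, id, ![2,3,3], [([0,1,2],[1,2,0]),([0,1,2],[2,0,1])], [0,1,2], 12⟩
def G8 : BraidData := ⟨2, 1, fun _ => 0, fun _ => 4, [([0,1,0],[1,0,1])], [0,1,0,1,0,1], 4⟩
def G9 : BraidData := ⟨2, 2, id, ![2,4], [([0,1,0,1,0,1],[1,0,1,0,1,0])], [0,1,0,1,0,1], 8⟩
def G10 : BraidData := ⟨2, 2, id, ![3,4], [([0,1,0,1],[1,0,1,0])], [0,1,0,1], 12⟩
def G11 : BraidData := ⟨3, 3, id, ![2,3,4], [([0,1,2],[1,2,0]),([0,1,2],[2,0,1])], [0,1,2], 24⟩
def G12 : BraidData := ⟨3, 1, fun _ => 0, fun _ => 2,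
  [([0,1,2,0],[1,2,0,1]),([0,1,2,0],[2,0,1,2])], [0,1,2,0,1,2,0,1,2,0,1,2], 2⟩
def G13 : BraidData := ⟨3, 2, ![0,1,1], fun _ => 2,
  [([1,2,0,1],[2,0,1,2]),([0,1,2,0,1],[2,0,1,2,0])], [0,1,2,0,1,2,0,1,2], 4⟩
def G14 : BraidData := ⟨2, 2, id, ![2,3], [([0,1,0,1,0,1,0,1],[1,0,1,0,1,0,1,0])],
  [0,1,0,1,0,1,0,1], 6⟩
def G15 : BraidData := ⟨3, 3, id, ![2,3,2], [([0,1,2],[1,2,0]),([2,0,1,2,1],[0,1,2,1,2])],
  [0,1,2,1,2], 12⟩
def G16 : BraidData := ⟨2, 1, fun _ => 0, fun _ => 5, [([0,1,0],[1,0,1])], [0,1,0,1,0,1], 10⟩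
def G17 : BraidData := ⟨2, 2, id, ![2,5], [([0,1,0,1,0,1],[1,0,1,0,1,0])], [0,1,0,1,0,1], 20⟩
def G18 : BraidData := ⟨2, 2, id, ![3,5], [([0,1,0,1],[1,0,1,0])], [0,1,0,1], 30⟩
def G19 : BraidData := ⟨3, 3, id, ![2,3,5], [([0,1,2],[1,2,0]),([0,1,2],[2,0,1])], [0,1,2], 60⟩
def G20 : BraidData := ⟨2, 1, fun _ => 0, fun _ => 3, [([0,1,0,1,0],[1,0,1,0,1])],
  [0,1,0,1,0,1,0,1,0,1], 6⟩
def G21 : BraidData := ⟨2, 2, id, ![2,3], [([0,1,0,1,0,1,0,1,0,1],[1,0,1,0,1,0,1,0,1,0])],
  [0,1,0,1,0,1,0,1,0,1], 12⟩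
def G22 : BraidData := ⟨3, 1, fun _ => 0, fun _ => 2,
  [([0,1,2,0,1],[1,2,0,1,2]),([0,1,2,0,1],[2,0,1,2,0])],
  [0,1,2,0,1,2,0,1,2,0,1,2,0,1,2], 4⟩

end SYM
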