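import Pool.Agent.Lib.MP_b1ea0f_al.Defs4
import Pool.Agent.Lib.MP_b1ea0f_al.DefsW

/-!
# MP_b1ea0f_al: embedding data (section 9), no unproved statement
-/

namespace SYM
open Polynomial Module BraidData

/-- how the parameters of a leg of the star algebra are specialised -/
inductive LegT (D : BraidData) : Type
  /-- the parameters of the class `c` -/
  | free (c : Fin D.cls)
  /-- the leg is killed: `a^p = 1` -/
  | killed
  /-- `v₁, -v₁, v₂, -v₂` with `v_i² = u_{c,i}` -/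
  | sq (c : Fin D.cls)

/-- the star group with the killed legs -/
inductive KRel (n : ℕ) (K : Fin 3 → Prop) : FreeGroup (Fin 3) → Prop
  | pow (g : Fin 3) (hg : K g) : KRel n K (FreeGroup.of g ^ leg n g)
  | comm (g : Fin 3) : KRel n K ((FreeGroup.of 0 * FreeGroup.of 1 * FreeGroup.of 2) *
      FreeGroup.of g * (FreeGroup.of 0 * FreeGroup.of 1 * FreeGroup.of 2)⁻¹ * (FreeGroup.of g)⁻¹)

/-- the star group with killed legs `K` -/
abbrev SG (n : ℕ) (K : Fin 3 → Prop) : Type := PresentedGroup {w | KRel n K w}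

/-- group theoretic data describing the Hecke algebra of `D` inside the star algebra `n` -/
structure Emb (D : BraidData) where
  n : ℕ
  hn : HN n
  m : ℕ
  hm : 0 < m
  /-- `Z^m = w` -/
  w : D.Braid
  lt : Fin 3 → LegT D
  /-- the images of the generators -/
  ι : Fin D.gens → FreeGroup (Fin 3)
  kk : Fin 3 → ℤ
  u : Fin 3 → D.Braid
  w_comm : ∀ b : D.Braid, w * b = b * w
  free_ord : ∀ g c, lt g = .free c → D.ord c = leg n g
  sq_ord : ∀ g c, lt g = .sq c → g = 2 ∧ n = 4 ∧ D.ord c = 2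
  par : ∀ c : Fin D.cls, ∃ g, lt g = .free c ∨ lt g = .sq c
  inj : ∀ g g' c, (lt g = .free c ∨ lt g = .sq c) → (lt g' = .free c ∨ lt g' = .sq c) → g = g'
  /-- the relations of `D` hold in the star group -/
  rel : ∀ p ∈ D.rels, (QuotientGroup.mk (FreeGroup.lift ι (D.word p.1)) :
      SG n fun g => lt g = .killed) = QuotientGroup.mk (FreeGroup.lift ι (D.word p.2))
  prod : ∃ r : ℤ, kk 0 + kk 1 + kk 2 + m * r = 1 ∧ u 0 * u 1 * u 2 = w ^ r
  kill : ∀ g, lt g = .killed → ∃ r : ℤ, kk g * leg n g = m * r ∧ w ^ r * u g ^ leg n g = 1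
  freeu : ∀ g c, lt g = .free c → kk g = 0 ∧ ∃ b i, D.cl i = c ∧ u g = b * D.s i * b⁻¹
  squ : ∀ g c, lt g = .sq c → ∃ r : ℤ, kk g * 2 = m * r ∧
    ∃ b i, D.cl i = c ∧ w ^ r * u g ^ 2 = b * D.s i * b⁻¹
  /-- the generators are conjugate to `a_g` resp. `a_g²` -/
  gens : ∀ i : Fin D.gens, ∃ g, ∃ v : FreeGroup (Fin 3),
    (lt g = .free (D.cl i) ∧ (QuotientGroup.mk (ι i) : SG n fun g => lt g = .killed) =
      QuotientGroup.mk (v * FreeGroup.of g * v⁻¹)) ∨
    (lt g = .sq (D.cl i) ∧ (QuotientGroup.mk (ι i) : SG n fun g => lt g = .killed) =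
      QuotientGroup.mk (v * FreeGroup.of g ^ 2 * v⁻¹))
  /-- `κ(ι(s)) = s` -/
  back : ∀ i : Fin D.gens, ∃ e : ℤ,
    FreeGroup.lift (fun g => ((u g, Multiplicative.ofAdd (kk g)) : D.Braid × Multiplicative ℤ)) (ι i)
      = (D.s i * w ^ e, Multiplicative.ofAdd (-(m * e)))
  /-- `a_g = Z^{k_g} ι(u_g)`, with words representing the `u_g` and `w` -/
  uw : Fin 3 → FreeGroup (Fin D.gens)
  uw_eq : ∀ g, (QuotientGroup.mk (uw g) : D.Braid) = u g
  forth : ∀ g, (PresentedGroup.of g : SG n fun g => lt g = .killed) =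
    (PresentedGroup.of 0 * PresentedGroup.of 1 * PresentedGroup.of 2) ^ kk g *
      QuotientGroup.mk (FreeGroup.lift ι (uw g))
  ww : FreeGroup (Fin D.gens)
  ww_eq : (QuotientGroup.mk ww : D.Braid) = w
  forthw : (PresentedGroup.of 0 * PresentedGroup.of 1 * PresentedGroup.of 2 :
    SG n fun g => lt g = .killed) ^ m = QuotientGroup.mk (FreeGroup.lift ι ww)
  /-- exponent sums -/
  exK : ∀ g, lt g = .killed → ∀ i, (leg n g : ℤ) ∣ (expo g (ι i)).toAdd
  exS : ∀ g c, lt g = .sq c → ∀ i, (2 : ℤ) ∣ (expo g (ι i)).toAdd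
  /-- the exponent sums detect the powers of `Z` -/
  lcm : ∀ j : ℤ, (∀ g, lt g = .killed → (leg n g : ℤ) ∣ j) →
    (∀ g c, lt g = .sq c → (2 : ℤ) ∣ j) → (m : ℤ) ∣ j
  /-- the centre -/
  mz : NZ n = m * D.zord
  centre : (D.centre.map D.s).prod = w

end SYM
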