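import Pool.Agent.Lib.MP_b1ea0f_al.Defs3

/-!
# MP_b1ea0f_al: definitions for the linear algebra part (no unproved statement)
-/

namespace SYM
open Polynomial Module

/-- derivative of `a ↦ p(a)` at `a` in the direction `η` -/
noncomputable def dP {κ A : Type*} [CommRing κ] [Ring A] [Algebra κ A] (p : κ[X]) (a η : A) : A :=
  p.sum fun k c => c • ∑ i ∈ Finset.range k, a ^ i * η * a ^ (k - 1 - i)

/-- it is the derivative of the library `BMM` -/
theorem dP_eq {κ A : Type*} [CommRing κ] [Ring A] [Algebra κ A] (p : κ[X]) (a η : A) :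
    dP p a η = BMM.dP p a η := rfl

/-- `L(δ) = δ_a b c + a δ_b c + a b δ_c` (for intertwiners) -/
def Lm {κ V W : Type*} [Field κ] [AddCommGroup V] [Module κ V] [AddCommGroup W] [Module κ W]
    (a : Fin 3 → Module.End κ V) (b : Fin 3 → Module.End κ W) :
    (Fin 3 → (V →ₗ[κ] W)) →ₗ[κ] (V →ₗ[κ] W) where
  toFun δ := δ 0 ∘ₗ (a 1 * a 2) + b 0 ∘ₗ δ 1 ∘ₗ a 2 + (b 0 * b 1) ∘ₗ δ 2
  map_add' := by
    intro δ δ'
    ext v
    simp
    abel
  map_smul' := by
    intro c δ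
    ext v
    simp

/-- `L(δ)` in a ring -/
def Lr {A : Type*} [Ring A] (a δ : Fin 3 → A) : A := δ 0 * a 1 * a 2 + a 0 * δ 1 * a 2 + a 0 * a 1 * δ 2

/-- Wedderburn data of a finite-dimensional algebra -/
structure Wed (κ BB : Type) [Field κ] [Ring BB] [Algebra κ BB] where
  r : ℕ
  d : Fin r → ℕ
  ρ : ∀ i, BB →ₐ[κ] Module.End κ (Fin (d i) → κ)
  pos : ∀ i, 0 < d i
  surj : ∀ f : (∀ i, Module.End κ (Fin (d i) → κ)), ∃ h, ∀ i, ρ i h = f i
  nil : ∃ N : ℕ, ∀ l : List BB, l.length = N → (∀ h ∈ l, ∀ i, ρ i h = 0) → l.prod = 0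

end SYM
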