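import Pool.Agent.Lib.MP_b1ea0f_al.DefsE

/-!
# MP_b1ea0f_al: tools for the embedding data
-/

namespace SYM.EmbW
open BraidData

/-! ### rewriting rules in groups -/

/-- rules for a central element `z` -/
theorem cen {G : Type*} [Group G] {z a : G} (h : z * a = a * z) :
    a * z = z * a ∧ (∀ x, a * (z * x) = z * (a * x)) ∧ a⁻¹ * z = z * a⁻¹ ∧
    (∀ x, a⁻¹ * (z * x) = z * (a⁻¹ * x)) ∧ a * z⁻¹ = z⁻¹ * a ∧
    (∀ x, a * (z⁻¹ * x) = z⁻¹ * (a * x)) ∧ a⁻¹ * z⁻¹ = z⁻¹ * a⁻¹ ∧
    (∀ x, a⁻¹ * (z⁻¹ * x) = z⁻¹ * (a⁻¹ * x)) := by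
  have c : Commute a z := h.symm
  exact ⟨c.eq, fun x => by rw [← mul_assoc, c.eq, mul_assoc], c.inv_left.eq,
    fun x => by rw [← mul_assoc, c.inv_left.eq, mul_assoc], c.inv_right.eq,
    fun x => by rw [← mul_assoc, c.inv_right.eq, mul_assoc], c.inv_left.inv_right.eq,
    fun x => by rw [← mul_assoc, c.inv_left.inv_right.eq, mul_assoc]⟩

theorem ord2 {G : Type*} [Group G] {a : G} (h : a ^ 2 = 1) :
    a⁻¹ = a ∧ a * a = 1 ∧ ∀ x, a * (a * x) = x := by
  have h2 : a * a = 1 := by rw [← pow_two, h]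
  exact ⟨inv_eq_of_mul_eq_one_left h2, h2, fun x => by rw [← mul_assoc, h2, one_mul]⟩

theorem ord3 {G : Type*} [Group G] {a : G} (h : a ^ 3 = 1) :
    a⁻¹ = a * a ∧ a * (a * a) = 1 ∧ ∀ x, a * (a * (a * x)) = x := by
  have h2 : a * (a * a) = 1 := by rw [← h, pow_succ, pow_two, mul_assoc]
  exact ⟨inv_eq_of_mul_eq_one_right h2, h2, fun x => by
    rw [← mul_assoc a a x, ← mul_assoc a (a * a) x, h2, one_mul]⟩

theorem ord4 {G : Type*} [Group G] {a : G} (h : a ^ 4 = 1) :
    a⁻¹ = a * (a * a) ∧ a * (a * (a * a)) = 1 ∧ ∀ x, a * (a * (a * (a * x))) = x := by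
  have h2 : a * (a * (a * a)) = 1 := by
    rw [← h]; simp only [pow_succ, pow_zero, one_mul, mul_assoc]
  exact ⟨inv_eq_of_mul_eq_one_right h2, h2, fun x => by
    rw [← mul_assoc a a x, ← mul_assoc a (a * a) x, ← mul_assoc a (a * (a * a)) x, h2, one_mul]⟩

theorem ord5 {G : Type*} [Group G] {a : G} (h : a ^ 5 = 1) :
    a⁻¹ = a * (a * (a * a)) ∧ a * (a * (a * (a * a))) = 1 ∧
      ∀ x, a * (a * (a * (a * (a * x)))) = x := by
  have h2 : a * (a * (a * (a * a))) = 1 := by
    rw [← h]; simp only [pow_succ, pow_zero, one_mul, mul_assoc]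
  exact ⟨inv_eq_of_mul_eq_one_right h2, h2, fun x => by
    rw [← mul_assoc a a x, ← mul_assoc a (a * a) x, ← mul_assoc a (a * (a * a)) x,
      ← mul_assoc a (a * (a * (a * a))) x, h2, one_mul]⟩

/-! ### the star group -/
section
variable {n : ℕ} {K : Fin 3 → Prop}

theorem SG.comm (g : Fin 3) :
    (PresentedGroup.of 0 * PresentedGroup.of 1 * PresentedGroup.of 2 : SG n K) *
      PresentedGroup.of g =
    PresentedGroup.of g *
      (PresentedGroup.of 0 * PresentedGroup.of 1 * PresentedGroup.of 2 : SG n K) := by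
  have h := PresentedGroup.one_of_mem (rels := {w | KRel n K w}) (KRel.comm (K := K) (n := n) g)
  rw [map_mul, map_inv, mul_inv_eq_one, map_mul, map_inv, mul_inv_eq_iff_eq_mul] at h
  simp only [map_mul] at h
  exact h

theorem SG.pow (g : Fin 3) (hg : K g) : (PresentedGroup.of g : SG n K) ^ leg n g = 1 := by
  have h := PresentedGroup.one_of_mem (rels := {w | KRel n K w}) (KRel.pow (K := K) (n := n) g hg)
  rwa [map_pow] at h

/-- unfolding words in the star group -/
theorem sg_word {D : BraidData} (ι : Fin D.gens → FreeGroup (Fin 3)) (l : List (Fin D.gens)) :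
    (QuotientGroup.mk (FreeGroup.lift ι (D.word l)) : SG n K) =
      (l.map fun i => (QuotientGroup.mk (ι i) : SG n K)).prod := by
  rw [word]
  induction l with
  | nil => rw [List.map_nil, List.prod_nil, map_one, List.map_nil, List.prod_nil]; rfl
  | cons a l ih =>
    rw [List.map_cons, List.prod_cons, map_mul, List.map_cons, List.prod_cons, ← ih,
      FreeGroup.lift_apply_of]
    rfl

theorem sg_mk_mul (x y : FreeGroup (Fin 3)) : (QuotientGroup.mk (x * y) : SG n K) =
    (QuotientGroup.mk x : SG n K) * (QuotientGroup.mk y : SG n K) := rfl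

theorem sg_mk_inv (x : FreeGroup (Fin 3)) : (QuotientGroup.mk (x⁻¹) : SG n K) =
    (QuotientGroup.mk x : SG n K)⁻¹ := rfl

theorem sg_mk_one : (QuotientGroup.mk (1 : FreeGroup (Fin 3)) : SG n K) = 1 := rfl

theorem sg_mk_of (g : Fin 3) : (QuotientGroup.mk (FreeGroup.of g) : SG n K) =
    PresentedGroup.of g := rfl

theorem sg_mk_pow (x : FreeGroup (Fin 3)) (e : ℕ) : (QuotientGroup.mk (x ^ e) : SG n K) =
    (QuotientGroup.mk x : SG n K) ^ e := rfl

end

/-! ### braid groups -/
section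
variable (D : BraidData)

theorem s_rel {p : List (Fin D.gens) × List (Fin D.gens)} (hp : p ∈ D.rels) :
    (p.1.map D.s).prod = (p.2.map D.s).prod := by
  have h := PresentedGroup.one_of_mem
    (rels := {r : FreeGroup (Fin D.gens) | ∃ p ∈ D.rels, r = D.word p.1 * (D.word p.2)⁻¹})
    ⟨p, hp, rfl⟩
  rw [map_mul, map_inv, mul_inv_eq_one] at h
  have e : ∀ l : List (Fin D.gens), PresentedGroup.mk
      {r : FreeGroup (Fin D.gens) | ∃ p ∈ D.rels, r = D.word p.1 * (D.word p.2)⁻¹} (D.word l) =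
      (l.map D.s).prod := by
    intro l
    rw [word]
    induction l with
    | nil => rw [List.map_nil, List.prod_nil, map_one, List.map_nil, List.prod_nil]
    | cons a l ih =>
      rw [List.map_cons, List.prod_cons, map_mul, ih, List.map_cons, List.prod_cons]
      rfl
  rwa [e, e] at h

theorem s_comm (w : D.Braid) (h : ∀ i, w * D.s i = D.s i * w) (b : D.Braid) : w * b = b * w := by
  have h1 : b ∈ Subgroup.closure (Set.range (PresentedGroup.of : Fin D.gens → D.Braid)) := by
    rw [PresentedGroup.closure_range_of]; exact Subgroup.mem_top b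
  have h2 : Subgroup.closure (Set.range (PresentedGroup.of : Fin D.gens → D.Braid)) ≤
      Subgroup.centralizer {w} := by
    rw [Subgroup.closure_le]
    rintro _ ⟨i, rfl⟩
    rw [SetLike.mem_coe, Subgroup.mem_centralizer_singleton_iff]
    exact (h i).symm
  have h3 := h2 h1
  rw [Subgroup.mem_centralizer_singleton_iff] at h3
  exact h3.symm

theorem br_mk_mul (x y : FreeGroup (Fin D.gens)) : (QuotientGroup.mk (x * y) : D.Braid) =
    (QuotientGroup.mk x : D.Braid) * (QuotientGroup.mk y : D.Braid) := rfl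

theorem br_mk_inv (x : FreeGroup (Fin D.gens)) : (QuotientGroup.mk (x⁻¹) : D.Braid) =
    (QuotientGroup.mk x : D.Braid)⁻¹ := rfl

theorem br_mk_of (g : Fin D.gens) : (QuotientGroup.mk (FreeGroup.of g) : D.Braid) = D.s g := rfl

end

end SYM.EmbW
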