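import Pool.Agent.Lib.MP_b1ea0f_al.EBase

/-!
# MP_b1ea0f_al: word identities in the star groups and in the braid groups
-/

set_option linter.unusedSimpArgs false

namespace SYM.EmbW

/-! ### identities in the star groups -/

/-- type T -/
theorem relT {G : Type*} [Group G] (a b c : G) (h0 : a*b*c*a = a*(a*b*c))
    (h2 : a*b*c*c = c*(a*b*c)) : a*(b*c) = b*(c*a) ∧ a*(b*c) = c*(a*b) := by
  constructor
  · have h : a*(b*(c*a)) = a*(a*(b*c)) := by simpa only [mul_assoc] using h0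
    exact (mul_left_cancel h).symm
  · have h : a*(b*c)*c = c*(a*b)*c := by simpa only [mul_assoc] using h2
    exact mul_right_cancel h

/-- type A: `a² = 1` -/
theorem relA {G : Type*} [Group G] (a b c : G) (ha : a ^ 2 = 1) (h0 : a*b*c*a = a*(a*b*c))
    (h2 : a*b*c*c = c*(a*b*c)) : b*(c*(b*c)) = c*(b*(c*b)) ∧ a = a * b * c * (b * c)⁻¹ ∧
    (a * b * c) ^ 2 = b * c * b * c := by
  obtain ⟨z, hz⟩ : ∃ z, z = a*b*c := ⟨_, rfl⟩
  rw [← hz] at h0 h2 ⊢
  have hb : b = a⁻¹ * (z * c⁻¹) := by rw [hz]; group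
  clear hz
  subst hb
  simp only [cen h0, cen h2, ord2 ha, mul_assoc, mul_inv_rev, inv_inv, inv_one, mul_one, one_mul, inv_mul_cancel_left, mul_inv_cancel_left, inv_mul_cancel, mul_inv_cancel, pow_succ, pow_zero, and_true, true_and, and_self]

/-- type B: `b³ = 1`: `s = a`, `t = c`, `b = Z (ca)⁻¹`, `w = (ac)³` -/
theorem relB {G : Type*} [Group G] (a b c : G) (hb : b ^ 3 = 1) (h1 : a*b*c*b = b*(a*b*c))
    (h2 : a*b*c*c = c*(a*b*c)) : a*(c*(a*(c*(a*c)))) = c*(a*(c*(a*(c*a)))) ∧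
    b = a * b * c * (c * a)⁻¹ ∧ (a * b * c) ^ 3 = a*(c*(a*(c*(a*c)))) := by
  obtain ⟨z, hz⟩ : ∃ z, z = a*b*c := ⟨_, rfl⟩
  rw [← hz] at h1 h2 ⊢
  have hb : a = z * c⁻¹ * b⁻¹ := by rw [hz]; group
  clear hz
  subst hb
  simp only [cen h1, cen h2, ord3 hb, mul_assoc, mul_inv_rev, inv_inv, inv_one, mul_one, one_mul, inv_mul_cancel_left, mul_inv_cancel_left, inv_mul_cancel, mul_inv_cancel, pow_succ, pow_zero, and_true, true_and, and_self]

/-- type C: `c⁴ = 1` -/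
theorem relC4 {G : Type*} [Group G] (a b c : G) (hc : c ^ 4 = 1) (h0 : a*b*c*a = a*(a*b*c))
    (h2 : a*b*c*c = c*(a*b*c)) : a*(b*(a*(b*(a*(b*(a*b)))))) = b*(a*(b*(a*(b*(a*(b*a)))))) ∧
    c = a * b * c * (a * b)⁻¹ ∧ (a * b * c) ^ 4 = a*(b*(a*(b*(a*(b*(a*b)))))) := by
  obtain ⟨z, hz⟩ : ∃ z, z = a*b*c := ⟨_, rfl⟩
  rw [← hz] at h0 h2 ⊢
  have hb : b = a⁻¹ * (z * c⁻¹) := by rw [hz]; group
  clear hz
  subst hb
  simp only [cen h0, cen h2, ord4 hc, mul_assoc, mul_inv_rev, inv_inv, inv_one, mul_one, one_mul, inv_mul_cancel_left, mul_inv_cancel_left, inv_mul_cancel, mul_inv_cancel, pow_succ, pow_zero, and_true, true_and, and_self]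

/-- type C: `c⁵ = 1` -/
theorem relC5 {G : Type*} [Group G] (a b c : G) (hc : c ^ 5 = 1) (h0 : a*b*c*a = a*(a*b*c))
    (h2 : a*b*c*c = c*(a*b*c)) : a*(b*(a*(b*(a*(b*(a*(b*(a*b)))))))) = b*(a*(b*(a*(b*(a*(b*(a*(b*a)))))))) ∧
    c = a * b * c * (a * b)⁻¹ ∧ (a * b * c) ^ 5 = a*(b*(a*(b*(a*(b*(a*(b*(a*b)))))))) := by
  obtain ⟨z, hz⟩ : ∃ z, z = a*b*c := ⟨_, rfl⟩
  rw [← hz] at h0 h2 ⊢
  have hb : b = a⁻¹ * (z * c⁻¹) := by rw [hz]; group
  clear hz
  subst hb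
  simp only [cen h0, cen h2, ord5 hc, mul_assoc, mul_inv_rev, inv_inv, inv_one, mul_one, one_mul, inv_mul_cancel_left, mul_inv_cancel_left, inv_mul_cancel, mul_inv_cancel, pow_succ, pow_zero, and_true, true_and, and_self]

/-- type D: `a² = b³ = 1`, `s = c`, `t = bcb⁻¹`, `a = Z³ (sts)⁻¹`, `b = Z⁻² st` -/
theorem relD {G : Type*} [Group G] (a b c t : G) (ha : a ^ 2 = 1) (hb : b ^ 3 = 1)
    (h0 : a*b*c*a = a*(a*b*c)) (h1 : a*b*c*b = b*(a*b*c)) (ht : t = b * c * b⁻¹) :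
    c*(t*c) = t*(c*t) ∧ a = (a * b * c)^3 * (c*t*c)⁻¹ ∧ b = ((a * b * c) ^ 2)⁻¹ * (c * t) ∧
      (a * b * c) ^ 6 = c*(t*(c*(t*(c*t)))) := by
  obtain ⟨z, hz⟩ : ∃ z, z = a*b*c := ⟨_, rfl⟩
  rw [← hz] at h0 h1 ⊢
  have hb : c = b⁻¹ * (a⁻¹ * z) := by rw [hz]; group
  clear hz
  subst hb
  subst ht
  simp only [cen h0, cen h1, ord2 ha, ord3 hb, mul_assoc, mul_inv_rev, inv_inv, inv_one, mul_one, one_mul, inv_mul_cancel_left, mul_inv_cancel_left, inv_mul_cancel, mul_inv_cancel, pow_succ, pow_zero, and_true, true_and, and_self]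

/-- type G20: `a² = c⁵ = 1`, `s = b`, `t = aba⁻¹`, `a = Z⁵ (ststs)⁻¹`, `c = Z⁻⁴ (ts)²` -/
theorem rel20 {G : Type*} [Group G] (a b c t : G) (ha : a ^ 2 = 1) (hc : c ^ 5 = 1)
    (h0 : a*b*c*a = a*(a*b*c)) (h2 : a*b*c*c = c*(a*b*c)) (ht : t = a * b * a⁻¹) :
    b*(t*(b*(t*b))) = t*(b*(t*(b*t))) ∧ a = (a * b * c)^5 * (b*t*b*t*b)⁻¹ ∧
      c = ((a * b * c) ^ 4)⁻¹ * (t * b * t * b) ∧
      (a * b * c) ^ 10 = b*(t*(b*(t*(b*(t*(b*(t*(b*t)))))))) := by
  obtain ⟨z, hz⟩ : ∃ z, z = a*b*c := ⟨_, rfl⟩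
  rw [← hz] at h0 h2 ⊢
  have hb : b = a⁻¹ * (z * c⁻¹) := by rw [hz]; group
  clear hz
  subst hb
  subst ht
  simp only [cen h0, cen h2, ord2 ha, ord5 hc, mul_assoc, mul_inv_rev, inv_inv, inv_one, mul_one, one_mul, inv_mul_cancel_left, mul_inv_cancel_left, inv_mul_cancel, mul_inv_cancel, pow_succ, pow_zero, and_true, true_and, and_self]

/-- type G15: `s = a⁻¹c²a`, `t = b`, `u = a` -/
theorem rel15 {G : Type*} [Group G] (a b c s : G) 
    (h0 : a*b*c*a = a*(a*b*c)) (h1 : a*b*c*b = b*(a*b*c)) (hs : s = a⁻¹ * c ^ 2 * a) :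
    s*(b*a) = b*(a*s) ∧ a*(s*(b*(a*b))) = s*(b*(a*(b*a))) ∧ c = a * b * c * (a * b)⁻¹ ∧
      (a * b * c) ^ 2 = s*(b*(a*(b*a))) := by
  obtain ⟨z, hz⟩ : ∃ z, z = a*b*c := ⟨_, rfl⟩
  rw [← hz] at h0 h1 ⊢
  have hb : c = b⁻¹ * (a⁻¹ * z) := by rw [hz]; group
  clear hz
  subst hb
  subst hs
  simp only [cen h0, cen h1, mul_assoc, mul_inv_rev, inv_inv, inv_one, mul_one, one_mul, inv_mul_cancel_left, mul_inv_cancel_left, inv_mul_cancel, mul_inv_cancel, pow_succ, pow_zero, and_true, true_and, and_self]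

/-- type G13: `b³ = 1`, `s = c²`, `t = a`, `u = cac⁻¹`, `b = Z⁻² ust`, `c = Z³ (tust)⁻¹` -/
theorem rel13 {G : Type*} [Group G] (a b c s u : G) (hb : b ^ 3 = 1)
    (h1 : a*b*c*b = b*(a*b*c)) (h2 : a*b*c*c = c*(a*b*c)) (hs : s = c ^ 2)
    (hu : u = c * a * c⁻¹) :
    a*(u*(s*a)) = u*(s*(a*u)) ∧ s*(a*(u*(s*a))) = u*(s*(a*(u*s))) ∧
      b = ((a * b * c) ^ 2)⁻¹ * (u * s * a) ∧ c = (a * b * c) ^ 3 * (a * u * s * a)⁻¹ ∧ 
      (a * b * c) ^ 6 = s*(a*(u*(s*(a*(u*(s*(a*u))))))) := by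
  obtain ⟨z, hz⟩ : ∃ z, z = a*b*c := ⟨_, rfl⟩
  rw [← hz] at h1 h2 ⊢
  have hb : a = z * c⁻¹ * b⁻¹ := by rw [hz]; group
  clear hz
  subst hb
  subst hs
  subst hu
  simp only [cen h1, cen h2, ord3 hb, mul_assoc, mul_inv_rev, inv_inv, inv_one, mul_one, one_mul, inv_mul_cancel_left, mul_inv_cancel_left, inv_mul_cancel, mul_inv_cancel, pow_succ, pow_zero, and_true, true_and, and_self]

/-- type G12: `b³ = c⁴ = 1`, `s = a`, `t = bab⁻¹`, `u = cac⁻¹`, `b = Z⁴ (stus)⁻¹`, `c = Z⁻³ stu` -/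
theorem rel12 {G : Type*} [Group G] (a b c t u : G) (hb : b ^ 3 = 1) (hc : c ^ 4 = 1)
    (h1 : a*b*c*b = b*(a*b*c)) (h2 : a*b*c*c = c*(a*b*c)) (ht : t = b * a * b⁻¹)
    (hu : u = c * a * c⁻¹) :
    a*(t*(u*a)) = t*(u*(a*t)) ∧ a*(t*(u*a)) = u*(a*(t*u)) ∧
      b = (a * b * c) ^ 4 * (a * t * u * a)⁻¹ ∧ c = ((a * b * c) ^ 3)⁻¹ * (a * t * u) ∧ 
      (a * b * c) ^ 12 = a*(t*(u*(a*(t*(u*(a*(t*(u*(a*(t*u)))))))))) := by
  obtain ⟨z, hz⟩ : ∃ z, z = a*b*c := ⟨_, rfl⟩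
  rw [← hz] at h1 h2 ⊢
  have hb : a = z * c⁻¹ * b⁻¹ := by rw [hz]; group
  clear hz
  subst hb
  subst ht
  subst hu
  simp only [cen h1, cen h2, ord3 hb, ord4 hc, mul_assoc, mul_inv_rev, inv_inv, inv_one, mul_one, one_mul, inv_mul_cancel_left, mul_inv_cancel_left, inv_mul_cancel, mul_inv_cancel, pow_succ, pow_zero, and_true, true_and, and_self]

/-- type G22: `b³ = c⁵ = 1`, `s = a`, `t = bab⁻¹`, `u = cac⁻¹`, `b = Z⁻⁵ stust`, `c = Z⁶ (stu)⁻²` -/
theorem rel22 {G : Type*} [Group G] (a b c t u : G) (hb : b ^ 3 = 1) (hc : c ^ 5 = 1)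
    (h1 : a*b*c*b = b*(a*b*c)) (h2 : a*b*c*c = c*(a*b*c)) (ht : t = b * a * b⁻¹)
    (hu : u = c * a * c⁻¹) :
    a*(t*(u*(a*t))) = t*(u*(a*(t*u))) ∧ a*(t*(u*(a*t))) = u*(a*(t*(u*a))) ∧
      b = ((a * b * c) ^ 5)⁻¹ * (a * t * u * a * t) ∧ c = (a * b * c) ^ 6 * (a * t * u * a * t * u)⁻¹ ∧ 
      (a * b * c) ^ 15 = a*(t*(u*(a*(t*(u*(a*(t*(u*(a*(t*(u*(a*(t*u))))))))))))) := by
  obtain ⟨z, hz⟩ : ∃ z, z = a*b*c := ⟨_, rfl⟩
  rw [← hz] at h1 h2 ⊢
  have hb : a = z * c⁻¹ * b⁻¹ := by rw [hz]; group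
  clear hz
  subst hb
  subst ht
  subst hu
  simp only [cen h1, cen h2, ord3 hb, ord5 hc, mul_assoc, mul_inv_rev, inv_inv, inv_one, mul_one, one_mul, inv_mul_cancel_left, mul_inv_cancel_left, inv_mul_cancel, mul_inv_cancel, pow_succ, pow_zero, and_true, true_and, and_self]


/-! ### identities in the braid groups -/

section
variable {G : Type*} [Group G]

theorem cyc3 {y a b c : G} (e1 : a*y = y*b) (e2 : b*y = y*c) (e3 : c*y = y*a) :
    y*(y*y)*a = a*(y*(y*y)) := by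
  symm
  calc a*(y*(y*y)) = (a*y)*(y*y) := by simp only [mul_assoc, mul_inv_rev, inv_inv, inv_one, mul_one, one_mul, inv_mul_cancel_left, mul_inv_cancel_left, inv_mul_cancel, mul_inv_cancel, pow_succ, pow_zero, and_true, true_and, and_self]
    _ = (y*b)*(y*y) := by rw [e1]
    _ = y*((b*y)*y) := by simp only [mul_assoc, mul_inv_rev, inv_inv, inv_one, mul_one, one_mul, inv_mul_cancel_left, mul_inv_cancel_left, inv_mul_cancel, mul_inv_cancel, pow_succ, pow_zero, and_true, true_and, and_self]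
    _ = y*((y*c)*y) := by rw [e2]
    _ = y*(y*(c*y)) := by simp only [mul_assoc, mul_inv_rev, inv_inv, inv_one, mul_one, one_mul, inv_mul_cancel_left, mul_inv_cancel_left, inv_mul_cancel, mul_inv_cancel, pow_succ, pow_zero, and_true, true_and, and_self]
    _ = y*(y*(y*a)) := by rw [e3]
    _ = _ := by simp only [mul_assoc, mul_inv_rev, inv_inv, inv_one, mul_one, one_mul, inv_mul_cancel_left, mul_inv_cancel_left, inv_mul_cancel, mul_inv_cancel, pow_succ, pow_zero, and_true, true_and, and_self]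

/-- `(st)^k = (ts)^k` is central -/
theorem brE {s t : G} {k : ℕ} (h : (s*t)^k = (t*s)^k) :
    (s*t)^k * s = s * (s*t)^k ∧ (s*t)^k * t = t * (s*t)^k := by
  constructor
  · rw [mul_pow_mul, h]
  · rw [h, mul_pow_mul, h]

/-- the star groups -/
theorem brT {s t u : G} (h1 : s*(t*u) = t*(u*s)) (h2 : s*(t*u) = u*(s*t)) :
    s*t*u * s = s * (s*t*u) ∧ s*t*u * t = t * (s*t*u) ∧ s*t*u * u = u * (s*t*u) := by
  refine ⟨?_, ?_, ?_⟩
  · calc _ = s*(t*(u*s)) := by simp only [mul_assoc, mul_inv_rev, inv_inv, inv_one, mul_one, one_mul, inv_mul_cancel_left, mul_inv_cancel_left, inv_mul_cancel, mul_inv_cancel, pow_succ, pow_zero, and_true, true_and, and_self]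
      _ = s*(s*(t*u)) := by rw [h1]
      _ = _ := by simp only [mul_assoc, mul_inv_rev, inv_inv, inv_one, mul_one, one_mul, inv_mul_cancel_left, mul_inv_cancel_left, inv_mul_cancel, mul_inv_cancel, pow_succ, pow_zero, and_true, true_and, and_self]
  · calc _ = (s*(t*u))*t := by simp only [mul_assoc, mul_inv_rev, inv_inv, inv_one, mul_one, one_mul, inv_mul_cancel_left, mul_inv_cancel_left, inv_mul_cancel, mul_inv_cancel, pow_succ, pow_zero, and_true, true_and, and_self]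
      _ = (t*(u*s))*t := by rw [h1]
      _ = t*(u*(s*t)) := by simp only [mul_assoc, mul_inv_rev, inv_inv, inv_one, mul_one, one_mul, inv_mul_cancel_left, mul_inv_cancel_left, inv_mul_cancel, mul_inv_cancel, pow_succ, pow_zero, and_true, true_and, and_self]
      _ = t*(s*(t*u)) := by rw [h2]
      _ = _ := by simp only [mul_assoc, mul_inv_rev, inv_inv, inv_one, mul_one, one_mul, inv_mul_cancel_left, mul_inv_cancel_left, inv_mul_cancel, mul_inv_cancel, pow_succ, pow_zero, and_true, true_and, and_self]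
  · calc _ = (s*(t*u))*u := by simp only [mul_assoc, mul_inv_rev, inv_inv, inv_one, mul_one, one_mul, inv_mul_cancel_left, mul_inv_cancel_left, inv_mul_cancel, mul_inv_cancel, pow_succ, pow_zero, and_true, true_and, and_self]
      _ = (u*(s*t))*u := by rw [h2]
      _ = _ := by simp only [mul_assoc, mul_inv_rev, inv_inv, inv_one, mul_one, one_mul, inv_mul_cancel_left, mul_inv_cancel_left, inv_mul_cancel, mul_inv_cancel, pow_succ, pow_zero, and_true, true_and, and_self]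

/-- `Δ = sts = tst` -/
theorem brD {s t : G} (h : s*(t*s) = t*(s*t)) :
    (s*t)^3 * s = s * (s*t)^3 ∧ (s*t)^3 * t = t * (s*t)^3 ∧
    (s*t)^3 * ((s*t*s)⁻¹)^2 = 1 ∧ (s*t) * s * (s*t)⁻¹ = t := by
  have e1 : s*t*s = t*s*t := by simp only [h, mul_assoc, mul_inv_rev, inv_inv, inv_one, mul_one, one_mul, inv_mul_cancel_left, mul_inv_cancel_left, inv_mul_cancel, mul_inv_cancel, pow_succ, pow_zero, and_true, true_and, and_self]
  have h1 : s*(s*t*s) = (s*t*s)*t := by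
    rw [e1]
    have : s*(t*s*t) = (s*t*s)*t := by simp only [mul_assoc, mul_inv_rev, inv_inv, inv_one, mul_one, one_mul, inv_mul_cancel_left, mul_inv_cancel_left, inv_mul_cancel, mul_inv_cancel, pow_succ, pow_zero, and_true, true_and, and_self]
    rw [this, e1]
  have h2 : t*(s*t*s) = (s*t*s)*s := by
    have : t*(s*t*s) = (t*s*t)*s := by simp only [mul_assoc, mul_inv_rev, inv_inv, inv_one, mul_one, one_mul, inv_mul_cancel_left, mul_inv_cancel_left, inv_mul_cancel, mul_inv_cancel, pow_succ, pow_zero, and_true, true_and, and_self]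
    rw [this, e1]
  have h3 : (s*t)^3 = (s*t*s)*(s*t*s) := by
    have : (s*t)^3 = (s*t*s)*(t*s*t) := by simp only [mul_assoc, mul_inv_rev, inv_inv, inv_one, mul_one, one_mul, inv_mul_cancel_left, mul_inv_cancel_left, inv_mul_cancel, mul_inv_cancel, pow_succ, pow_zero, and_true, true_and, and_self]
    rw [this, ← e1]
  refine ⟨?_, ?_, ?_, ?_⟩
  · rw [h3, mul_assoc, ← h2, ← mul_assoc, ← h1, mul_assoc]
  · rw [h3, mul_assoc, ← h1, ← mul_assoc, ← h2, mul_assoc]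
  · rw [h3]; simp only [mul_assoc, mul_inv_rev, inv_inv, inv_one, mul_one, one_mul, inv_mul_cancel_left, mul_inv_cancel_left, inv_mul_cancel, mul_inv_cancel, pow_succ, pow_zero, and_true, true_and, and_self]
  · rw [mul_inv_eq_iff_eq_mul, ← mul_assoc, e1]

/-- `Δ = ststs = tstst` -/
theorem br20 {s t : G} (h : s*(t*(s*(t*s))) = t*(s*(t*(s*t)))) :
    (s*t)^5 * s = s * (s*t)^5 ∧ (s*t)^5 * t = t * (s*t)^5 ∧
    (s*t)^5 * ((s*t*s*t*s)⁻¹)^2 = 1 ∧ ((s*t)^5)⁻¹ * ((s*t)^5)⁻¹ * (t*s*t*s)^5 = 1 ∧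
    (s*t*s*t*s)⁻¹ * s * (s*t*s*t*s) = t ∧ (s*t*s*t*s)⁻¹ * s * (t*s*t*s) = 1 := by
  have e1 : s*t*s*t*s = t*s*t*s*t := by simp only [h, mul_assoc, mul_inv_rev, inv_inv, inv_one, mul_one, one_mul, inv_mul_cancel_left, mul_inv_cancel_left, inv_mul_cancel, mul_inv_cancel, pow_succ, pow_zero, and_true, true_and, and_self]
  have h1 : s*(s*t*s*t*s) = (s*t*s*t*s)*t := by
    rw [e1]
    have : s*(t*s*t*s*t) = (s*t*s*t*s)*t := by simp only [mul_assoc, mul_inv_rev, inv_inv, inv_one, mul_one, one_mul, inv_mul_cancel_left, mul_inv_cancel_left, inv_mul_cancel, mul_inv_cancel, pow_succ, pow_zero, and_true, true_and, and_self]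
    rw [this, e1]
  have h2 : t*(s*t*s*t*s) = (s*t*s*t*s)*s := by
    have : t*(s*t*s*t*s) = (t*s*t*s*t)*s := by simp only [mul_assoc, mul_inv_rev, inv_inv, inv_one, mul_one, one_mul, inv_mul_cancel_left, mul_inv_cancel_left, inv_mul_cancel, mul_inv_cancel, pow_succ, pow_zero, and_true, true_and, and_self]
    rw [this, e1]
  have h3 : (s*t)^5 = (s*t*s*t*s)*(s*t*s*t*s) := by
    have : (s*t)^5 = (s*t*s*t*s)*(t*s*t*s*t) := by simp only [mul_assoc, mul_inv_rev, inv_inv, inv_one, mul_one, one_mul, inv_mul_cancel_left, mul_inv_cancel_left, inv_mul_cancel, mul_inv_cancel, pow_succ, pow_zero, and_true, true_and, and_self]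
    rw [this, ← e1]
  have h4 : (t*s*t*s)^5 = ((s*t*s*t*s)*(s*t*s*t*s))*((s*t*s*t*s)*(s*t*s*t*s)) := by
    have : (t*s*t*s)^5 = ((t*s*t*s*t)*(s*t*s*t*s))*((t*s*t*s*t)*(s*t*s*t*s)) := by simp only [mul_assoc, mul_inv_rev, inv_inv, inv_one, mul_one, one_mul, inv_mul_cancel_left, mul_inv_cancel_left, inv_mul_cancel, mul_inv_cancel, pow_succ, pow_zero, and_true, true_and, and_self]
    rw [this, ← e1]
  refine ⟨?_, ?_, ?_, ?_, ?_, ?_⟩
  · rw [h3, mul_assoc, ← h2, ← mul_assoc, ← h1, mul_assoc]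
  · rw [h3, mul_assoc, ← h1, ← mul_assoc, ← h2, mul_assoc]
  · rw [h3]; simp only [mul_assoc, mul_inv_rev, inv_inv, inv_one, mul_one, one_mul, inv_mul_cancel_left, mul_inv_cancel_left, inv_mul_cancel, mul_inv_cancel, pow_succ, pow_zero, and_true, true_and, and_self]
  · rw [h3, h4]; simp only [mul_assoc, mul_inv_rev, inv_inv, inv_one, mul_one, one_mul, inv_mul_cancel_left, mul_inv_cancel_left, inv_mul_cancel, mul_inv_cancel, pow_succ, pow_zero, and_true, true_and, and_self]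
  · rw [mul_assoc, inv_mul_eq_iff_eq_mul, h1]
  · rw [mul_assoc, inv_mul_eq_iff_eq_mul]; simp only [mul_assoc, mul_inv_rev, inv_inv, inv_one, mul_one, one_mul, inv_mul_cancel_left, mul_inv_cancel_left, inv_mul_cancel, mul_inv_cancel, pow_succ, pow_zero, and_true, true_and, and_self]

/-- G15 -/
theorem br15 {s t u : G} (h1 : s*(t*u) = t*(u*s)) (h2 : u*(s*(t*(u*t))) = s*(t*(u*(t*u)))) :
    s*t*u*t*u * s = s * (s*t*u*t*u) ∧ s*t*u*t*u * t = t * (s*t*u*t*u) ∧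
    s*t*u*t*u * u = u * (s*t*u*t*u) ∧ s*t*u*t*u * ((u*t)⁻¹)^2 = u * s * u⁻¹ ∧
    u⁻¹ * ((u*t)⁻¹)^2 * u = s * (s*t*u*t*u)⁻¹ := by
  have k1 : s*(t*u) = (t*u)*s := by rw [h1, mul_assoc]
  have hw : s*t*u*t*u = s*((t*u)*(t*u)) := by simp only [mul_assoc, mul_inv_rev, inv_inv, inv_one, mul_one, one_mul, inv_mul_cancel_left, mul_inv_cancel_left, inv_mul_cancel, mul_inv_cancel, pow_succ, pow_zero, and_true, true_and, and_self]
  have a1 : s*t*u*t*u * s = s * (s*t*u*t*u) := by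
    calc _ = s*((t*u)*((t*u)*s)) := by simp only [mul_assoc, mul_inv_rev, inv_inv, inv_one, mul_one, one_mul, inv_mul_cancel_left, mul_inv_cancel_left, inv_mul_cancel, mul_inv_cancel, pow_succ, pow_zero, and_true, true_and, and_self]
      _ = s*((t*u)*(s*(t*u))) := by rw [k1]
      _ = s*(((t*u)*s)*(t*u)) := by simp only [mul_assoc, mul_inv_rev, inv_inv, inv_one, mul_one, one_mul, inv_mul_cancel_left, mul_inv_cancel_left, inv_mul_cancel, mul_inv_cancel, pow_succ, pow_zero, and_true, true_and, and_self]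
      _ = s*((s*(t*u))*(t*u)) := by rw [k1]
      _ = _ := by simp only [mul_assoc, mul_inv_rev, inv_inv, inv_one, mul_one, one_mul, inv_mul_cancel_left, mul_inv_cancel_left, inv_mul_cancel, mul_inv_cancel, pow_succ, pow_zero, and_true, true_and, and_self]
  have a3 : s*t*u*t*u * u = u * (s*t*u*t*u) := by
    calc _ = (s*(t*(u*(t*u))))*u := by simp only [mul_assoc, mul_inv_rev, inv_inv, inv_one, mul_one, one_mul, inv_mul_cancel_left, mul_inv_cancel_left, inv_mul_cancel, mul_inv_cancel, pow_succ, pow_zero, and_true, true_and, and_self]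
      _ = (u*(s*(t*(u*t))))*u := by rw [h2]
      _ = _ := by simp only [mul_assoc, mul_inv_rev, inv_inv, inv_one, mul_one, one_mul, inv_mul_cancel_left, mul_inv_cancel_left, inv_mul_cancel, mul_inv_cancel, pow_succ, pow_zero, and_true, true_and, and_self]
  have a4 : s*t*u*t*u * (t*u) = (t*u) * (s*t*u*t*u) := by
    calc _ = (s*(t*u))*((t*u)*(t*u)) := by simp only [mul_assoc, mul_inv_rev, inv_inv, inv_one, mul_one, one_mul, inv_mul_cancel_left, mul_inv_cancel_left, inv_mul_cancel, mul_inv_cancel, pow_succ, pow_zero, and_true, true_and, and_self]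
      _ = ((t*u)*s)*((t*u)*(t*u)) := by rw [k1]
      _ = _ := by simp only [mul_assoc, mul_inv_rev, inv_inv, inv_one, mul_one, one_mul, inv_mul_cancel_left, mul_inv_cancel_left, inv_mul_cancel, mul_inv_cancel, pow_succ, pow_zero, and_true, true_and, and_self]
  have a2 : s*t*u*t*u * t = t * (s*t*u*t*u) := by
    have := a4
    rw [← mul_assoc, ← mul_right_cancel_iff (a := u⁻¹)] at this
    calc _ = s*t*u*t*u * t * u * u⁻¹ := by simp only [mul_assoc, mul_inv_rev, inv_inv, inv_one, mul_one, one_mul, inv_mul_cancel_left, mul_inv_cancel_left, inv_mul_cancel, mul_inv_cancel, pow_succ, pow_zero, and_true, true_and, and_self]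
      _ = t*u * (s*t*u*t*u) * u⁻¹ := this
      _ = t * (u * (s*t*u*t*u)) * u⁻¹ := by simp only [mul_assoc, mul_inv_rev, inv_inv, inv_one, mul_one, one_mul, inv_mul_cancel_left, mul_inv_cancel_left, inv_mul_cancel, mul_inv_cancel, pow_succ, pow_zero, and_true, true_and, and_self]
      _ = t * ((s*t*u*t*u) * u) * u⁻¹ := by rw [a3]
      _ = _ := by simp only [mul_assoc, mul_inv_rev, inv_inv, inv_one, mul_one, one_mul, inv_mul_cancel_left, mul_inv_cancel_left, inv_mul_cancel, mul_inv_cancel, pow_succ, pow_zero, and_true, true_and, and_self]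
  refine ⟨a1, a2, a3, ?_, ?_⟩
  · have : s*t*u*t*u = u * (s*t*u*t*u) * u⁻¹ := by rw [← a3]; simp only [mul_assoc, mul_inv_rev, inv_inv, inv_one, mul_one, one_mul, inv_mul_cancel_left, mul_inv_cancel_left, inv_mul_cancel, mul_inv_cancel, pow_succ, pow_zero, and_true, true_and, and_self]
    rw [this]
    simp only [mul_assoc, mul_inv_rev, inv_inv, inv_one, mul_one, one_mul, inv_mul_cancel_left, mul_inv_cancel_left, inv_mul_cancel, mul_inv_cancel, pow_succ, pow_zero, and_true, true_and, and_self]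
  · have c1 : Commute s (s*t*u*t*u)⁻¹ := Commute.inv_right a1.symm
    rw [c1.eq]; simp only [mul_assoc, mul_inv_rev, inv_inv, inv_one, mul_one, one_mul, inv_mul_cancel_left, mul_inv_cancel_left, inv_mul_cancel, mul_inv_cancel, pow_succ, pow_zero, and_true, true_and, and_self]

/-- G13: `y = tust = ustu`, `w = (stu)³` -/
theorem br13 {s t u : G} (h1 : t*(u*(s*t)) = u*(s*(t*u)))
    (h2 : s*(t*(u*(s*t))) = u*(s*(t*(u*s)))) :
    (s*t*u)^3 * s = s * (s*t*u)^3 ∧ (s*t*u)^3 * t = t * (s*t*u)^3 ∧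
    (s*t*u)^3 * u = u * (s*t*u)^3 ∧ ((s*t*u)^3)⁻¹ * (u*s*t)^3 = 1 ∧
    (s*t*u)^3 * ((t*u*s*t)⁻¹)^2 = s ∧ (t*u*s*t)⁻¹ * t * (t*u*s*t) = u ∧
    (t*u*s*t)⁻¹ * (t*u*s*t)⁻¹ = s * ((s*t*u)^3)⁻¹ ∧ t*(u*s*t)*(t*u*s*t)⁻¹ = 1 := by
  obtain ⟨y, hy⟩ : ∃ y, y = t*(u*(s*t)) := ⟨_, rfl⟩
  have hy' : t*u*s*t = y := by rw [hy]; simp only [mul_assoc, mul_inv_rev, inv_inv, inv_one, mul_one, one_mul, inv_mul_cancel_left, mul_inv_cancel_left, inv_mul_cancel, mul_inv_cancel, pow_succ, pow_zero, and_true, true_and, and_self]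
  have hy2 : y = u*(s*(t*u)) := by rw [hy, h1]
  have e1 : s*y = y*s := by
    rw [hy, h2]; rw [h1]; simp only [mul_assoc, mul_inv_rev, inv_inv, inv_one, mul_one, one_mul, inv_mul_cancel_left, mul_inv_cancel_left, inv_mul_cancel, mul_inv_cancel, pow_succ, pow_zero, and_true, true_and, and_self]
  have e2 : t*y = y*u := by
    rw [hy2]
    calc _ = (t*(u*(s*t)))*u := by simp only [mul_assoc, mul_inv_rev, inv_inv, inv_one, mul_one, one_mul, inv_mul_cancel_left, mul_inv_cancel_left, inv_mul_cancel, mul_inv_cancel, pow_succ, pow_zero, and_true, true_and, and_self]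
      _ = _ := by rw [h1]
  have e3 : (s*t*u)^3 = s*(y*y) := by
    calc _ = s*((t*(u*(s*t)))*(u*(s*(t*u)))) := by simp only [mul_assoc, mul_inv_rev, inv_inv, inv_one, mul_one, one_mul, inv_mul_cancel_left, mul_inv_cancel_left, inv_mul_cancel, mul_inv_cancel, pow_succ, pow_zero, and_true, true_and, and_self]
      _ = _ := by rw [← hy, ← hy2]
  have e4 : y = u*(s*t*u) := by rw [hy2]; simp only [mul_assoc, mul_inv_rev, inv_inv, inv_one, mul_one, one_mul, inv_mul_cancel_left, mul_inv_cancel_left, inv_mul_cancel, mul_inv_cancel, pow_succ, pow_zero, and_true, true_and, and_self]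
  have hu : u = y*(s*t*u)⁻¹ := by rw [eq_mul_inv_iff_mul_eq, ← e4]
  have ws : (s*t*u)^3 * s = s * (s*t*u)^3 := by
    rw [e3, mul_assoc, mul_assoc, ← e1, ← mul_assoc y s y, ← e1]; simp only [mul_assoc, mul_inv_rev, inv_inv, inv_one, mul_one, one_mul, inv_mul_cancel_left, mul_inv_cancel_left, inv_mul_cancel, mul_inv_cancel, pow_succ, pow_zero, and_true, true_and, and_self]
  have wy : (s*t*u)^3 * y = y * (s*t*u)^3 := by
    rw [e3, ← mul_assoc y s, ← e1]; simp only [mul_assoc, mul_inv_rev, inv_inv, inv_one, mul_one, one_mul, inv_mul_cancel_left, mul_inv_cancel_left, inv_mul_cancel, mul_inv_cancel, pow_succ, pow_zero, and_true, true_and, and_self]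
  have wx : (s*t*u)^3 * (s*t*u) = (s*t*u) * (s*t*u)^3 := by rw [← pow_succ, pow_succ']
  have wu : (s*t*u)^3 * u = u * (s*t*u)^3 := by
    have c1 : Commute ((s*t*u)^3) (y*(s*t*u)⁻¹) :=
      Commute.mul_right wy (Commute.inv_right wx)
    rw [← hu] at c1
    exact c1.eq
  have ht : t = y*u*y⁻¹ := by rw [← e2]; simp only [mul_assoc, mul_inv_rev, inv_inv, inv_one, mul_one, one_mul, inv_mul_cancel_left, mul_inv_cancel_left, inv_mul_cancel, mul_inv_cancel, pow_succ, pow_zero, and_true, true_and, and_self]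
  have wt : (s*t*u)^3 * t = t * (s*t*u)^3 := by
    have c1 : Commute ((s*t*u)^3) (y*u*y⁻¹) :=
      Commute.mul_right (Commute.mul_right wy wu) (Commute.inv_right wy)
    rw [← ht] at c1
    exact c1.eq
  refine ⟨ws, wt, wu, ?_, ?_, ?_, ?_, ?_⟩
  · have : (u*s*t)^3 = u*(s*t*u)^3*u⁻¹ := by simp only [mul_assoc, mul_inv_rev, inv_inv, inv_one, mul_one, one_mul, inv_mul_cancel_left, mul_inv_cancel_left, inv_mul_cancel, mul_inv_cancel, pow_succ, pow_zero, and_true, true_and, and_self]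
    rw [this, ← wu]; group
  · rw [hy', e3]; simp only [mul_assoc, mul_inv_rev, inv_inv, inv_one, mul_one, one_mul, inv_mul_cancel_left, mul_inv_cancel_left, inv_mul_cancel, mul_inv_cancel, pow_succ, pow_zero, and_true, true_and, and_self]
  · rw [hy', mul_assoc, e2]; group
  · have c1 : Commute s ((s*t*u)^3)⁻¹ := Commute.inv_right ws.symm
    rw [hy', c1.eq, e3]; simp only [mul_assoc, mul_inv_rev, inv_inv, inv_one, mul_one, one_mul, inv_mul_cancel_left, mul_inv_cancel_left, inv_mul_cancel, mul_inv_cancel, pow_succ, pow_zero, and_true, true_and, and_self]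
  · simp only [mul_assoc, mul_inv_rev, inv_inv, inv_one, mul_one, one_mul, inv_mul_cancel_left, mul_inv_cancel_left, inv_mul_cancel, mul_inv_cancel, pow_succ, pow_zero, and_true, true_and, and_self]

/-- G12: `y = stus = tust = ustu`, `x = stu`, `w = x⁴ = y³` -/
theorem br12 {s t u : G} (h1 : s*(t*(u*s)) = t*(u*(s*t)))
    (h2 : s*(t*(u*s)) = u*(s*(t*u))) :
    (s*t*u)^4 * s = s * (s*t*u)^4 ∧ (s*t*u)^4 * t = t * (s*t*u)^4 ∧
    (s*t*u)^4 * u = u * (s*t*u)^4 ∧ (s*t*u)^4 * ((s*t*u*s)⁻¹)^3 = 1 ∧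
    (s*t*u*s)⁻¹ * s * (s*t*u*s) = t ∧ (s*t*u) * s * (s*t*u)⁻¹ = u := by
  obtain ⟨y, hy⟩ : ∃ y, y = s*(t*(u*s)) := ⟨_, rfl⟩
  have hy' : s*t*u*s = y := by rw [hy]; simp only [mul_assoc, mul_inv_rev, inv_inv, inv_one, mul_one, one_mul, inv_mul_cancel_left, mul_inv_cancel_left, inv_mul_cancel, mul_inv_cancel, pow_succ, pow_zero, and_true, true_and, and_self]
  have hy2 : y = t*(u*(s*t)) := by rw [hy, h1]
  have hy3 : y = u*(s*(t*u)) := by rw [hy, h2]
  have e1 : s*y = y*t := by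
    rw [hy2]
    calc _ = (s*(t*(u*s)))*t := by simp only [mul_assoc, mul_inv_rev, inv_inv, inv_one, mul_one, one_mul, inv_mul_cancel_left, mul_inv_cancel_left, inv_mul_cancel, mul_inv_cancel, pow_succ, pow_zero, and_true, true_and, and_self]
      _ = _ := by rw [h1]
  have e2 : t*y = y*u := by
    rw [hy3]
    calc _ = (t*(u*(s*t)))*u := by simp only [mul_assoc, mul_inv_rev, inv_inv, inv_one, mul_one, one_mul, inv_mul_cancel_left, mul_inv_cancel_left, inv_mul_cancel, mul_inv_cancel, pow_succ, pow_zero, and_true, true_and, and_self]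
      _ = _ := by rw [← h1, h2]
  have e3 : u*y = y*s := by
    rw [hy]
    calc _ = (u*(s*(t*u)))*s := by simp only [mul_assoc, mul_inv_rev, inv_inv, inv_one, mul_one, one_mul, inv_mul_cancel_left, mul_inv_cancel_left, inv_mul_cancel, mul_inv_cancel, pow_succ, pow_zero, and_true, true_and, and_self]
      _ = _ := by rw [← h2]
  have e4 : (s*t*u)^4 = y*(y*y) := by
    calc _ = (s*(t*(u*s)))*((t*(u*(s*t)))*(u*(s*(t*u)))) := by simp only [mul_assoc, mul_inv_rev, inv_inv, inv_one, mul_one, one_mul, inv_mul_cancel_left, mul_inv_cancel_left, inv_mul_cancel, mul_inv_cancel, pow_succ, pow_zero, and_true, true_and, and_self]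
      _ = _ := by rw [← hy, ← hy2, ← hy3]
  refine ⟨?_, ?_, ?_, ?_, ?_, ?_⟩
  · rw [e4, cyc3 e1 e2 e3]
  · rw [e4, cyc3 e2 e3 e1]
  · rw [e4, cyc3 e3 e1 e2]
  · rw [hy', e4]; group
  · rw [hy', mul_assoc, e1]; group
  · rw [mul_inv_eq_iff_eq_mul, hy', hy3]; simp only [mul_assoc, mul_inv_rev, inv_inv, inv_one, mul_one, one_mul, inv_mul_cancel_left, mul_inv_cancel_left, inv_mul_cancel, mul_inv_cancel, pow_succ, pow_zero, and_true, true_and, and_self]

/-- G22: `y = stust = tustu = ustus`, `x = stu`, `w = x⁵ = y³` -/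
theorem br22 {s t u : G} (h1 : s*(t*(u*(s*t))) = t*(u*(s*(t*u))))
    (h2 : s*(t*(u*(s*t))) = u*(s*(t*(u*s)))) :
    (s*t*u)^5 * s = s * (s*t*u)^5 ∧ (s*t*u)^5 * t = t * (s*t*u)^5 ∧
    (s*t*u)^5 * u = u * (s*t*u)^5 ∧ ((s*t*u)^5)⁻¹ * (s*t*u*s*t)^3 = 1 ∧
    (s*t*u)^5 * (s*t*u)^5 * ((s*t*u*s*t*u)⁻¹)^5 = 1 ∧
    (s*t*u*s*t) * s * (s*t*u*s*t)⁻¹ = t ∧ (s*t*u*s*t*u)⁻¹ * s * (s*t*u*s*t*u) = u ∧
    s * (s*t*u*s*t) * (s*t*u*s*t*u)⁻¹ = 1 := by
  obtain ⟨y, hy⟩ : ∃ y, y = s*(t*(u*(s*t))) := ⟨_, rfl⟩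
  have hy' : s*t*u*s*t = y := by rw [hy]; simp only [mul_assoc, mul_inv_rev, inv_inv, inv_one, mul_one, one_mul, inv_mul_cancel_left, mul_inv_cancel_left, inv_mul_cancel, mul_inv_cancel, pow_succ, pow_zero, and_true, true_and, and_self]
  have hy2 : y = t*(u*(s*(t*u))) := by rw [hy, h1]
  have hy3 : y = u*(s*(t*(u*s))) := by rw [hy, h2]
  have e1 : s*y = y*u := by
    rw [hy2]
    calc _ = (s*(t*(u*(s*t))))*u := by simp only [mul_assoc, mul_inv_rev, inv_inv, inv_one, mul_one, one_mul, inv_mul_cancel_left, mul_inv_cancel_left, inv_mul_cancel, mul_inv_cancel, pow_succ, pow_zero, and_true, true_and, and_self]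
      _ = _ := by rw [h1]
  have e2 : t*y = y*s := by
    rw [hy3]
    calc _ = (t*(u*(s*(t*u))))*s := by simp only [mul_assoc, mul_inv_rev, inv_inv, inv_one, mul_one, one_mul, inv_mul_cancel_left, mul_inv_cancel_left, inv_mul_cancel, mul_inv_cancel, pow_succ, pow_zero, and_true, true_and, and_self]
      _ = _ := by rw [← h1, h2]
  have e3 : u*y = y*t := by
    rw [hy]
    calc _ = (u*(s*(t*(u*s))))*t := by simp only [mul_assoc, mul_inv_rev, inv_inv, inv_one, mul_one, one_mul, inv_mul_cancel_left, mul_inv_cancel_left, inv_mul_cancel, mul_inv_cancel, pow_succ, pow_zero, and_true, true_and, and_self]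
      _ = _ := by rw [← h2]
  have e4 : (s*t*u)^5 = y*(y*y) := by
    calc _ = (s*(t*(u*(s*t))))*((u*(s*(t*(u*s))))*(t*(u*(s*(t*u))))) := by simp only [mul_assoc, mul_inv_rev, inv_inv, inv_one, mul_one, one_mul, inv_mul_cancel_left, mul_inv_cancel_left, inv_mul_cancel, mul_inv_cancel, pow_succ, pow_zero, and_true, true_and, and_self]
      _ = _ := by rw [← hy, ← hy2, ← hy3]
  have e5 : s*t*u*s*t*u = y*u := by rw [hy]; simp only [mul_assoc, mul_inv_rev, inv_inv, inv_one, mul_one, one_mul, inv_mul_cancel_left, mul_inv_cancel_left, inv_mul_cancel, mul_inv_cancel, pow_succ, pow_zero, and_true, true_and, and_self]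
  refine ⟨?_, ?_, ?_, ?_, ?_, ?_, ?_, ?_⟩
  · rw [e4, cyc3 e1 e3 e2]
  · rw [e4, cyc3 e2 e1 e3]
  · rw [e4, cyc3 e3 e2 e1]
  · rw [hy', e4]; group
  · have : (s*t*u*s*t*u)^5 = (s*t*u)^5 * (s*t*u)^5 := by simp only [mul_assoc, mul_inv_rev, inv_inv, inv_one, mul_one, one_mul, inv_mul_cancel_left, mul_inv_cancel_left, inv_mul_cancel, mul_inv_cancel, pow_succ, pow_zero, and_true, true_and, and_self]
    rw [inv_pow, this]; group
  · rw [hy', mul_inv_eq_iff_eq_mul, e2]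
  · rw [mul_assoc, inv_mul_eq_iff_eq_mul, e5, ← mul_assoc, e1]
  · rw [e5, hy', e1]; simp only [mul_assoc, mul_inv_rev, inv_inv, inv_one, mul_one, one_mul, inv_mul_cancel_left, mul_inv_cancel_left, inv_mul_cancel, mul_inv_cancel, pow_succ, pow_zero, and_true, true_and, and_self]

end

end SYM.EmbW
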