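import Mathlib

/-
MP_b1ea0f_al, module EXComp (about 90 lines).  An m-th root of a central unit, as a matrix.

Y := the matrix with entries Y i j = if j.1 + 1 = i.1 then 1 else if i.1 = 0 ∧ j.1 = m - 1 then t else 0
(for m = 1 only the second case: Y = (t)).  For l ≤ m the first column of Y^l (column 0) is: entry i = 1 if
i.1 = l (l < m), and Y^m has the column 0 equal to (t, 0, …, 0).
Better: work with the module description.  (Y^l) i j = if i.1 = j.1 + l then 1 else if i.1 + m = j.1 + l
then t else 0 for 0 ≤ l ≤ m (induction on l; Matrix.mul_apply, Finset.sum_eq_single; Y^(l+1) = Y * Y^l or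
Y^l * Y); for l = m: i.1 + m = j.1 + m iff i = j, and i.1 = j.1 + m is impossible: Y^m = diagonal t = t • 1.
So Y * (Y^(m-1) * diag t⁻¹) = 1, and on the other side as well: Y is a unit.  Commute Y (scalar a): entries of Y are
0, 1, t, all commuting with a (ht): Matrix.ext, mul_diagonal, diagonal_mul.
The scalar matrix of a is Matrix.diagonal fun _ => a.
-/

namespace SYM
open Matrix

private def cY {A : Type} [Ring A] (m : ℕ) (t : A) : Matrix (Fin m) (Fin m) A :=
  fun i j => if i.1 = j.1 + 1 then 1 else if i.1 + m = j.1 + 1 then t else 0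

private theorem cY_pow {A : Type} [Ring A] (m : ℕ) (t : A) (l : ℕ) (hl : l ≤ m)
    (i j : Fin m) : (cY m t ^ l) i j =
      if i.1 = j.1 + l then 1 else if i.1 + m = j.1 + l then t else 0 := by
  induction l generalizing i j with
  | zero =>
    rw [pow_zero, Matrix.one_apply]
    by_cases h : i = j
    · subst h; simp
    · have h1 : i.1 ≠ j.1 := fun h' => h (Fin.ext h')
      have h2 : i.1 + m ≠ j.1 := by have := j.2; omega
      simp [h, h1, h2]
  | succ l ih =>
    rw [pow_succ, Matrix.mul_apply]
    by_cases hj : j.1 + 1 < m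
    · rw [Finset.sum_eq_single (⟨j.1 + 1, hj⟩ : Fin m)]
      · rw [ih (by omega)]
        have h1 : cY m t ⟨j.1 + 1, hj⟩ j = 1 := by simp [cY]
        rw [h1, mul_one]
        simp only [Nat.add_assoc, Nat.add_comm 1 l]
      · intro k _ hk
        have h1 : cY m t k j = 0 := by
          have h2 : k.1 ≠ j.1 + 1 := fun h' => hk (Fin.ext h')
          have h3 : k.1 + m ≠ j.1 + 1 := by omega
          simp [cY, h2, h3]
        rw [h1, mul_zero]
      · intro h
        exact absurd (Finset.mem_univ _) h
    · have hj' : j.1 + 1 = m := by have := j.2; omega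
      have hm : 0 < m := by omega
      rw [Finset.sum_eq_single (⟨0, hm⟩ : Fin m)]
      · rw [ih (by omega)]
        have h1 : cY m t ⟨0, hm⟩ j = t := by
          have h2 : ¬ (0 = j.1 + 1) := by omega
          have h3 : 0 + m = j.1 + 1 := by omega
          unfold cY
          rw [if_neg h2, if_pos h3]
        rw [h1]
        have h2 : ¬ (i.1 + m = 0 + l) := by omega
        have h3 : ¬ (i.1 = j.1 + (l + 1)) := by have := i.2; omega
        simp only [h2, h3, if_false]
        by_cases h4 : i.1 = 0 + l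
        · have h5 : i.1 + m = j.1 + (l + 1) := by omega
          rw [if_pos h4, if_pos h5, one_mul]
        · have h5 : ¬ (i.1 + m = j.1 + (l + 1)) := by omega
          simp only [h4, h5, if_false, zero_mul]
      · intro k _ hk
        have h1 : cY m t k j = 0 := by
          have h2 : k.1 ≠ j.1 + 1 := by have := k.2; omega
          have h3 : k.1 + m ≠ j.1 + 1 := by
            have : k.1 ≠ 0 := fun h' => hk (Fin.ext h')
            omega
          simp [cY, h2, h3]
        rw [h1, mul_zero]
      · intro h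
        exact absurd (Finset.mem_univ _) h

private theorem cY_pow_m {A : Type} [Ring A] (m : ℕ) (t : A) :
    cY m t ^ m = Matrix.diagonal (fun _ => t) := by
  ext i j
  rw [cY_pow m t m le_rfl, Matrix.diagonal_apply]
  have h1 : ¬ (i.1 = j.1 + m) := by have := i.2; omega
  by_cases h : i = j
  · subst h
    rw [if_neg h1, if_pos rfl, if_pos rfl]
  · have h2 : ¬ (i.1 + m = j.1 + m) := by
      intro h'
      exact h (Fin.ext (by omega))
    rw [if_neg h1, if_neg h2, if_neg h]

private theorem cY_comm {A : Type} [Ring A] (m : ℕ) (t : A) (ht : ∀ a : A, t * a = a * t) (a : A) :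
    cY m t * Matrix.diagonal (fun _ => a) = Matrix.diagonal (fun _ => a) * cY m t := by
  ext i j
  rw [Matrix.mul_diagonal, Matrix.diagonal_mul]
  unfold cY
  split_ifs
  · simp
  · exact ht a
  · simp

theorem exists_companion {A : Type} [Ring A] (m : ℕ) (hm : 0 < m) (t : Aˣ)
    (ht : ∀ a : A, (t : A) * a = a * t) :
    ∃ Y : (Matrix (Fin m) (Fin m) A)ˣ,
      ((Y ^ m : (Matrix (Fin m) (Fin m) A)ˣ) : Matrix (Fin m) (Fin m) A) =
        Matrix.diagonal (fun _ => (t : A)) ∧
      (∀ a : A, (Y : Matrix (Fin m) (Fin m) A) * Matrix.diagonal (fun _ => a) =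
        Matrix.diagonal (fun _ => a) * (Y : Matrix (Fin m) (Fin m) A)) ∧
      ∀ l : ℕ, l < m → ((Y ^ l : (Matrix (Fin m) (Fin m) A)ˣ) : Matrix (Fin m) (Fin m) A)
        ⟨0, hm⟩ ⟨0, hm⟩ = if l = 0 then 1 else 0 := by
  have hc := cY_comm m (t : A) ht
  have hpow : cY m (t : A) * cY m (t : A) ^ (m - 1) = Matrix.diagonal (fun _ => (t : A)) := by
    rw [← pow_succ', Nat.sub_add_cancel hm, cY_pow_m]
  have hpow' : cY m (t : A) ^ (m - 1) * cY m (t : A) = Matrix.diagonal (fun _ => (t : A)) := by
    rw [← pow_succ, Nat.sub_add_cancel hm, cY_pow_m]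
  have hd : Matrix.diagonal (fun _ : Fin m => (t : A)) *
      Matrix.diagonal (fun _ => ((t⁻¹ : Aˣ) : A)) = 1 := by
    rw [Matrix.diagonal_mul_diagonal]
    simp
  refine ⟨⟨cY m (t : A), cY m (t : A) ^ (m - 1) * Matrix.diagonal (fun _ => ((t⁻¹ : Aˣ) : A)),
    ?_, ?_⟩, ?_, ?_, ?_⟩
  · rw [← mul_assoc, hpow, hd]
  · rw [mul_assoc, ← hc, ← mul_assoc, hpow', hd]
  · rw [Units.val_pow_eq_pow_val]
    exact cY_pow_m m (t : A)
  · exact hc
  · intro l hl
    rw [Units.val_pow_eq_pow_val]
    show (cY m (t : A) ^ l) ⟨0, hm⟩ ⟨0, hm⟩ = _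
    rw [cY_pow m (t : A) l hl.le]
    rcases Nat.eq_zero_or_pos l with h | h
    · subst h; simp
    · have h1 : ¬ (0 = 0 + l) := by omega
      have h2 : ¬ (0 + m = 0 + l) := by omega
      have h3 : l ≠ 0 := by omega
      simp only [h1, h2, h3, if_false]

end SYM
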