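import Pool.Agent.Lib.MP_b1ea0f_al.DefsD

/-
MP_b1ea0f_al, module EXLo (about 110 lines).  Laurent polynomials: ring homomorphisms.

LO.hom_ext: elements of AddMonoidAlgebra ZO (σ →₀ ℤ) are sums of single e o
(AddMonoidAlgebra.induction_linear or Finsupp.induction_linear, or AddMonoidAlgebra.ringHom_ext);
single e o = LO.C o * ∏_{p ∈ e.support} (LO.var p ^ (e p) : units)  (product of units; prove it by
e.induction or with Laurent.monHom: the map e ↦ single e 1 is a monoid hom from Multiplicative (σ →₀ ℤ),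
two monoid homs to Bˣ on Multiplicative (σ →₀ ℤ) agreeing on all ofAdd (single p 1) are equal:
Finsupp.addHom_ext' / zmultiples: f (single p m) = f (single p 1) ^ m).
laurent_ext: the same with ℤ instead of ZO (f (C m) = m is automatic: map_intCast).
isDomain_LO: instance NoZeroDivisors (AddMonoidAlgebra R A) from UniqueSums/TwoUniqueSums (σ →₀ ℤ); try
inferInstance first (IsDomain (AddMonoidAlgebra ℤ _) is found by infer_instance in StFlat).
lift_comp: laurent_ext. conj_dbl, toC_dbl: laurent_ext on the compositions; for toC_dbl one needs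
exp(2πi(j+1)/(2e))^2 = exp(2πi(j+1)/e): Complex.exp_nat_mul or ← Complex.exp_add, ring_nf; D.ord p.1 ≠ 0
since p.2 : Fin (D.ord p.1).
charZero_LO: from the injectivity of LO.C or IsDomain and AddMonoidAlgebra.
-/

namespace SYM
open Polynomial Module BraidData

private theorem single_zpow {σ : Type} {A : Type*} [CommRing A] (p : σ)
    (u : (AddMonoidAlgebra A (σ →₀ ℤ))ˣ)
    (hu : (u : AddMonoidAlgebra A (σ →₀ ℤ)) = AddMonoidAlgebra.single (Finsupp.single p 1) 1)
    (m : ℤ) : ((u ^ m : (AddMonoidAlgebra A (σ →₀ ℤ))ˣ) : AddMonoidAlgebra A (σ →₀ ℤ)) =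
      AddMonoidAlgebra.single (Finsupp.single p m) 1 := by
  have hinv : ((u⁻¹ : (AddMonoidAlgebra A (σ →₀ ℤ))ˣ) : AddMonoidAlgebra A (σ →₀ ℤ)) =
      AddMonoidAlgebra.single (Finsupp.single p (-1)) 1 := by
    rw [Units.inv_eq_of_mul_eq_one_right]
    rw [hu, AddMonoidAlgebra.single_mul_single, ← Finsupp.single_add]
    simp [AddMonoidAlgebra.one_def]
  induction m using Int.induction_on with
  | zero => simp [AddMonoidAlgebra.one_def]
  | succ i ih =>
    rw [zpow_add_one, Units.val_mul, ih, hu, AddMonoidAlgebra.single_mul_single,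
      ← Finsupp.single_add, mul_one]
  | pred i ih =>
    rw [zpow_sub_one, Units.val_mul, ih, hinv, AddMonoidAlgebra.single_mul_single,
      ← Finsupp.single_add, mul_one]
    rfl

private theorem gen_ext {σ : Type} {A B : Type*} [CommRing A] [CommRing B]
    {f g : AddMonoidAlgebra A (σ →₀ ℤ) →+* B} (v : σ → (AddMonoidAlgebra A (σ →₀ ℤ))ˣ)
    (hv : ∀ p, (v p : AddMonoidAlgebra A (σ →₀ ℤ)) =
      AddMonoidAlgebra.single (Finsupp.single p 1) 1)
    (hC : ∀ o, f (AddMonoidAlgebra.single 0 o) = g (AddMonoidAlgebra.single 0 o))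
    (h : ∀ p, f (v p : AddMonoidAlgebra A (σ →₀ ℤ)) = g (v p)) : f = g := by
  apply AddMonoidAlgebra.ringHom_ext hC
  intro a
  induction a using Finsupp.induction_linear with
  | zero => exact hC 1
  | add a b ha hb =>
    have e : (AddMonoidAlgebra.single (a + b) (1 : A) : AddMonoidAlgebra A (σ →₀ ℤ)) =
        AddMonoidAlgebra.single a 1 * AddMonoidAlgebra.single b 1 := by
      rw [AddMonoidAlgebra.single_mul_single, mul_one]
    rw [e, map_mul, map_mul, ha, hb]
  | single p m =>
    rw [← single_zpow p (v p) (hv p) m]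
    have h1 : Units.map (f : AddMonoidAlgebra A (σ →₀ ℤ) →* B) (v p) =
        Units.map (g : AddMonoidAlgebra A (σ →₀ ℤ) →* B) (v p) := Units.ext (h p)
    have h2 : Units.map (f : AddMonoidAlgebra A (σ →₀ ℤ) →* B) (v p ^ m) =
        Units.map (g : AddMonoidAlgebra A (σ →₀ ℤ) →* B) (v p ^ m) := by
      rw [map_zpow, map_zpow, h1]
    exact congrArg Units.val h2

theorem LO.hom_ext {σ : Type} {B : Type*} [CommRing B] {f g : LO σ →+* B}
    (hC : ∀ o, f (LO.C o) = g (LO.C o)) (hv : ∀ p, f (LO.var p : (LO σ)ˣ) = g (LO.var p : (LO σ)ˣ)) :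
    f = g := gen_ext LO.var (fun _ => rfl) hC hv

theorem laurent_ext {σ : Type} {B : Type*} [CommRing B] {f g : Laurent σ →+* B}
    (hv : ∀ p, f (Laurent.var p : (Laurent σ)ˣ) = g (Laurent.var p : (Laurent σ)ˣ)) : f = g := by
  refine gen_ext Laurent.var (fun _ => rfl) (fun o => ?_) hv
  have h : (AddMonoidAlgebra.single 0 o : Laurent σ) = ((o : ℤ) : Laurent σ) :=
    (AddMonoidAlgebra.intCast_def o).symm
  rw [h, map_intCast, map_intCast]

instance isDomain_LO (σ : Type) : IsDomain (LO σ) := by infer_instance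

theorem LO.C_injective (σ : Type) : Function.Injective (LO.C : ZO →+* LO σ) := by
  intro a b h
  simp only [LO.C, AddMonoidAlgebra.singleZeroRingHom_apply] at h
  have h1 := congrArg (fun x : LO σ => x.coeff 0) h
  simpa using h1

instance charZero_LO (σ : Type) : CharZero (LO σ) :=
  charZero_of_injective_ringHom (LO.C_injective σ)

theorem lift_comp {σ : Type} {A B : Type*} [CommRing A] [CommRing B] (y : σ → Aˣ) (g : A →+* B)
    (r : Laurent σ) : g (Laurent.lift y r) = Laurent.lift (fun p => Units.map (g : A →* B) (y p)) r := by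
  have h : g.comp (Laurent.lift y) = Laurent.lift (fun p => Units.map (g : A →* B) (y p)) := by
    apply laurent_ext
    intro p
    rw [RingHom.comp_apply, Laurent.lift_var, Laurent.lift_var]
    rfl
  exact congrArg (fun f : Laurent σ →+* B => f r) h

private theorem map_inv' {A B : Type*} [CommRing A] [CommRing B] (f : A →+* B) (u : Aˣ) (w : Bˣ)
    (h : f u = w) : f ((u⁻¹ : Aˣ) : A) = ((w⁻¹ : Bˣ) : B) := by
  have h1 : Units.map (f : A →* B) u = w := Units.ext h
  rw [← h1, ← map_inv]
  rfl

theorem conj_dbl {D : BraidData} (r : D.R) : LO.conj (dbl r) = dbl (D.star r) := by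
  have h : (LO.conj (σ := D.Par)).comp dbl = dbl.comp D.star := by
    apply laurent_ext
    intro p
    rw [RingHom.comp_apply, RingHom.comp_apply, dbl_var, map_pow, BraidData.star,
      Laurent.lift_var, map_inv' dbl (Laurent.var p) (LO.var p ^ 2)
        (by rw [dbl_var, Units.val_pow_eq_pow_val]), LO.conj, LO.lift_var, ← inv_pow,
      Units.val_pow_eq_pow_val]
  exact congrArg (fun f : D.R →+* LO D.Par => f r) h

theorem toC_dbl {D : BraidData} (r : D.R) : toC D (dbl r) = D.θ r := by
  have h : (toC D).comp dbl = D.θ := by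
    apply laurent_ext
    intro p
    rw [RingHom.comp_apply, dbl_var, map_pow, toC, LO.lift_var, BraidData.θ, Laurent.lift_var,
      Units.val_mk0, Units.val_mk0, ← Complex.exp_nat_mul]
    congr 1
    have h0 : (D.ord p.1 : ℂ) ≠ 0 := by
      have : 0 < D.ord p.1 := lt_of_le_of_lt (Nat.zero_le _) p.2.2
      exact_mod_cast this.ne'
    field_simp
    norm_num
  exact congrArg (fun f : D.R →+* ℂ => f r) h

end SYM
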