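import Pool.Agent.Lib.MP_b1ea0f_al.EXZo
import Pool.Agent.Lib.MP_b1ea0f_al.EXLo

/-
MP_b1ea0f_al, module EXFix (about 100 lines).  Elements of LO σ fixed by all gal g ε lie in the range of
dbl (u_p ↦ v_p²).

gal g ε (single e o) = (∏_p ε_p^{e_p}) * single e (g o)  (LO.lift = liftNCRingHom, on single e o it is
LO.C (g o) * monHom y (e), y p = ε p * var p, e.prod of a product of units = product of the e.prod's,
and e.prod (fun p k => var p ^ k) has value single e 1).
(a) ε = 1: the coefficient of s at e satisfies g (s e) = s e for all g : ZO →+* ZO, so s e = m_e ∈ ℤ by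
ZO.fixed.
(b) g = id, ε = Function.update 1 p (-1) (classical): the coefficient at e of gal g ε s is
(-1)^{e p} * s e; it equals s e, so if e p is odd then 2 * s e = 0 and s e = 0 (ZO is a domain of
characteristic 0).  Hence s e ≠ 0 implies e = 2 • e'.
So s = Σ_{e ∈ support} single (2 • e') (m_e) = dbl (Σ single e' m_e), where
dbl (single e' m) = single (2 • e') (m : ZO).  (The range of a ring hom is closed under sums:
write s = s.sum single and use sum_mem.)
-/

namespace SYM
open Polynomial Module BraidData

private theorem fx_var_zpow {σ : Type} (p : σ) (m : ℤ) :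
    ((LO.var p ^ m : (LO σ)ˣ) : LO σ) = AddMonoidAlgebra.single (Finsupp.single p m) 1 := by
  induction m using Int.induction_on with
  | zero => simp [AddMonoidAlgebra.one_def]
  | succ i ih =>
    rw [zpow_add, Units.val_mul, ih, zpow_one]
    show _ * AddMonoidAlgebra.single (Finsupp.single p 1) 1 = _
    rw [AddMonoidAlgebra.single_mul_single, ← Finsupp.single_add, one_mul]
  | pred i ih =>
    rw [sub_eq_add_neg, zpow_add, Units.val_mul, ih, zpow_neg_one]
    show _ * AddMonoidAlgebra.single (Finsupp.single p (-1)) 1 = _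
    rw [AddMonoidAlgebra.single_mul_single, ← Finsupp.single_add, one_mul]

private theorem fx_prod {σ : Type} (e : σ →₀ ℤ) :
    ((e.prod fun p k => LO.var p ^ k : (LO σ)ˣ) : LO σ) = AddMonoidAlgebra.single e 1 := by
  induction e using Finsupp.induction_linear with
  | zero => simp [AddMonoidAlgebra.one_def]
  | add e f he hf =>
    rw [Finsupp.prod_add_index' (fun _ => zpow_zero _) (fun _ _ _ => zpow_add _ _ _),
      Units.val_mul, he, hf, AddMonoidAlgebra.single_mul_single, one_mul]
  | single p m =>
    rw [Finsupp.prod_single_index (zpow_zero _), fx_var_zpow]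

private theorem fx_gal_single {σ : Type} (g : ZO →+* ZO) (ε : σ → (LO σ)ˣ) (e : σ →₀ ℤ) (o : ZO) :
    gal g ε (AddMonoidAlgebra.single e o) =
      ((e.prod fun p k => ε p ^ k : (LO σ)ˣ) : LO σ) * AddMonoidAlgebra.single e (g o) := by
  unfold gal LO.lift
  rw [AddMonoidAlgebra.liftNCRingHom_single]
  show (LO.C.comp g) o * ((e.prod fun p k => (ε p * LO.var p) ^ k : (LO σ)ˣ) : LO σ) = _
  have h1 : (e.prod fun p k => (ε p * LO.var p) ^ k : (LO σ)ˣ) =
      (e.prod fun p k => ε p ^ k) * (e.prod fun p k => LO.var p ^ k) := by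
    rw [← Finsupp.prod_mul]
    exact Finsupp.prod_congr fun p _ => mul_zpow _ _ _
  rw [h1, Units.val_mul, fx_prod]
  show (AddMonoidAlgebra.single 0 (g o) : LO σ) * _ = _
  rw [mul_left_comm, AddMonoidAlgebra.single_mul_single, zero_add, mul_one]

private theorem fx_gal_one {σ : Type} (g : ZO →+* ZO) (s : LO σ) (e : σ →₀ ℤ) :
    (gal g (fun _ => 1) s).coeff e = g (s.coeff e) := by
  induction s using AddMonoidAlgebra.induction_linear with
  | zero => simp
  | add s t hs ht =>
    rw [map_add, AddMonoidAlgebra.coeff_add, Finsupp.add_apply, hs, ht,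
      AddMonoidAlgebra.coeff_add, Finsupp.add_apply, map_add]
  | single f o =>
    rw [fx_gal_single]
    have h1 : (f.prod fun (_ : σ) k => (1 : (LO σ)ˣ) ^ k) = 1 := by
      simp
    rw [h1, Units.val_one, one_mul]
    classical
    rw [AddMonoidAlgebra.coeff_single, AddMonoidAlgebra.coeff_single, Finsupp.single_apply,
      Finsupp.single_apply]
    split_ifs
    · rfl
    · rw [map_zero]

open Classical in
private theorem fx_sign {σ : Type} (p : σ) (e : σ →₀ ℤ) :
    (e.prod fun q k => (Function.update (fun _ => (1 : (LO σ)ˣ)) p (-1)) q ^ k) =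
      (-1 : (LO σ)ˣ) ^ (e p) := by
  induction e using Finsupp.induction_linear with
  | zero => simp
  | add e f he hf =>
    rw [Finsupp.prod_add_index' (fun _ => zpow_zero _) (fun _ _ _ => zpow_add _ _ _), he, hf,
      Finsupp.add_apply, zpow_add]
  | single q m =>
    rw [Finsupp.prod_single_index (zpow_zero _)]
    by_cases h : q = p
    · subst h
      rw [Function.update_self, Finsupp.single_eq_same]
    · rw [Function.update_of_ne h, Finsupp.single_eq_of_ne (Ne.symm h), one_zpow, zpow_zero]

open Classical in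
private theorem fx_gal_neg {σ : Type} (p : σ) (s : LO σ) (e : σ →₀ ℤ) (he : ¬ Even (e p)) :
    (gal (RingHom.id ZO) (Function.update (fun _ => (1 : (LO σ)ˣ)) p (-1)) s).coeff e =
      - s.coeff e := by
  induction s using AddMonoidAlgebra.induction_linear with
  | zero => simp
  | add s t hs ht =>
    rw [map_add, AddMonoidAlgebra.coeff_add, Finsupp.add_apply, hs, ht,
      AddMonoidAlgebra.coeff_add, Finsupp.add_apply, neg_add]
  | single f o =>
    rw [fx_gal_single, fx_sign, RingHom.id_apply]
    rcases Int.even_or_odd (f p) with h | h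
    · rw [h.neg_one_zpow, Units.val_one, one_mul, AddMonoidAlgebra.coeff_single,
        Finsupp.single_apply]
      have : f ≠ e := by
        rintro rfl
        exact he h
      rw [if_neg this, neg_zero]
    · rw [h.neg_one_zpow, Units.val_neg, Units.val_one, neg_one_mul]
      rfl

private theorem fx_dbl {σ : Type} (e : σ →₀ ℤ) (m : ℤ) :
    dbl (AddMonoidAlgebra.single e m : Laurent σ) =
      (AddMonoidAlgebra.single ((2 : ℕ) • e) (m : ZO) : LO σ) := by
  unfold dbl Laurent.lift
  rw [AlgHom.toRingHom_eq_coe, RingHom.coe_coe, AddMonoidAlgebra.lift_single]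
  show m • ((e.prod fun p k => (LO.var p ^ 2) ^ k : (LO σ)ˣ) : LO σ) = _
  have h1 : (e.prod fun p k => (LO.var p ^ 2) ^ k : (LO σ)ˣ) =
      (e.prod fun p k => LO.var p ^ k) ^ 2 := by
    unfold Finsupp.prod
    rw [← Finset.prod_pow]
    refine Finset.prod_congr rfl fun p _ => ?_
    show (LO.var p ^ 2) ^ (e p) = (LO.var p ^ (e p)) ^ 2
    rw [← zpow_natCast, ← zpow_natCast, ← zpow_mul, ← zpow_mul, mul_comm]
  rw [h1, Units.val_pow_eq_pow_val, fx_prod, pow_two, AddMonoidAlgebra.single_mul_single,
    one_mul, ← two_nsmul, AddMonoidAlgebra.smul_single]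
  congr 1
  simp

theorem mem_range_dbl {σ : Type} (s : LO σ)
    (h : ∀ (g : ZO →+* ZO) (ε : σ → (LO σ)ˣ), (∀ p, ε p = 1 ∨ ε p = -1) → gal g ε s = s) :
    s ∈ (dbl : Laurent σ →+* LO σ).range := by
  classical
  have h1 : ∀ e, ∃ m : ℤ, s.coeff e = (m : ZO) := by
    intro e
    apply ZO.fixed
    intro g
    rw [← fx_gal_one, h g (fun _ => 1) (fun _ => Or.inl rfl)]
  have h2 : ∀ e p, s.coeff e ≠ 0 → Even (e p) := by
    intro e p hne
    by_contra hodd
    have h3 := fx_gal_neg p s e hodd
    rw [h (RingHom.id ZO) _ (by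
      intro q
      by_cases hq : q = p
      · subst hq
        right
        rw [Function.update_self]
      · left
        rw [Function.update_of_ne hq])] at h3
    apply hne
    have h4 : (2 : ZO) * s.coeff e = 0 := by
      rw [two_mul]
      nth_rewrite 1 [h3]
      exact neg_add_cancel _
    rcases mul_eq_zero.1 h4 with h5 | h5
    · exact absurd h5 two_ne_zero
    · exact h5
  have h3 : s = ∑ e ∈ s.coeff.support, AddMonoidAlgebra.single e (s.coeff e) := by
    apply AddMonoidAlgebra.coeff_injective
    ext e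
    rw [AddMonoidAlgebra.coeff_sum, Finsupp.finsetSum_apply]
    simp only [AddMonoidAlgebra.coeff_single, Finsupp.single_apply]
    rw [Finset.sum_ite_eq']
    split_ifs with h5
    · rfl
    · exact Finsupp.notMem_support_iff.1 h5
  rw [h3]
  refine sum_mem fun e he => ?_
  obtain ⟨m, hm⟩ := h1 e
  rw [hm]
  have hne : s.coeff e ≠ 0 := Finsupp.mem_support_iff.1 he
  refine ⟨AddMonoidAlgebra.single (e.mapRange (fun k => k / 2) (by simp)) m, ?_⟩
  rw [fx_dbl]
  congr 1
  ext p
  have h4 := h2 e p hne
  obtain ⟨r, hr⟩ := h4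
  simp [hr]
  omega

end SYM
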