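import Pool.Agent.Lib.MP_b1ea0f_al.EXPar
import Pool.Agent.Lib.MP_b1ea0f_al.EXFix

/-
MP_b1ea0f_al, module EXInv (about 50 lines).  The values of the trace on words lie in the range of dbl.

Let s = Laurent.lift x (S.T (wd w)).  By mem_range_dbl it is enough that gal g ε s = s for all g and all
signs ε.  gal g ε s = Laurent.lift (fun l => Units.map (gal g ε) (x l)) (S.T ..) (lift_comp of EXLo).
By (hx g').gal choose permutations π g' (Classical.choose / choose) with gal g ε (x ⟨g', j⟩) = x ⟨g', π g' j⟩
= x (permJ π ⟨g', j⟩).  perm_eval: for all σ, Laurent.lift (fun l => x (permJ σ l)) (S.T (wd w)) =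
Laurent.lift x (S.T (wd w)): apply Laurent.lift x to S.perm σ w and use lift_comp
(Units.map (Laurent.lift x) (XX n l) = x l by Laurent.lift_var).
-/

namespace SYM
open Polynomial Module BraidData

theorem perm_eval {n : ℕ} (S : StarTrace n) {k : Type} [CommRing k] (x : J n → kˣ)
    (σ : ∀ g, Equiv.Perm (Fin (leg n g))) (w : FreeGroup (Fin 3)) :
    Laurent.lift (fun l => x (permJ σ l)) (S.T (wd n (XX n) w : (H n (XX n))ˣ)) =
      Laurent.lift x (S.T (wd n (XX n) w : (H n (XX n))ˣ)) := by
  have h := congrArg (Laurent.lift x) (S.perm σ w)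
  rw [lift_comp] at h
  have e : (fun p => Units.map ((Laurent.lift x : Laurent (J n) →+* k) : Laurent (J n) →* k)
      (XX n (permJ σ p))) = fun l => x (permJ σ l) := by
    funext l
    apply Units.ext
    simp [XX]
  rw [e] at h
  exact h

theorem lift_mem_range {D : BraidData} (E : Emb D) (S : StarTrace E.n)
    (x : J E.n → (LO D.Par)ˣ) (hx : ∀ g, IsLeg D (leg E.n g) (E.lt g) fun j => x ⟨g, j⟩)
    (w : FreeGroup (Fin 3)) :
    Laurent.lift x (S.T (wd E.n (XX E.n) w : (H E.n (XX E.n))ˣ)) ∈
      (dbl : D.R →+* LO D.Par).range := by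
  apply mem_range_dbl
  intro g ε hε
  choose π hπ using fun g' => (hx g').gal g ε hε
  rw [lift_comp]
  have e : (fun l => Units.map ((gal g ε : LO D.Par →+* LO D.Par) : LO D.Par →* LO D.Par)
      (x l)) = fun l => x (permJ π l) := by
    funext l
    apply Units.ext
    exact hπ l.1 l.2
  rw [e]
  exact perm_eval S x π w

end SYM
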