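import Pool.Agent.Lib.MP_b1ea0f_al.EXIota
import Pool.Agent.Lib.MP_b1ea0f_al.EXComp

/-
MP_b1ea0f_al, module EXKap.  The representation κ of AE E by matrices over H(W).
-/

namespace SYM
open Polynomial Module BraidData

variable {D : BraidData} (E : Emb D)

section abstract_part
variable {M : Type} [Ring M] [Algebra D.R M] (dg : D.HW →ₐ[D.R] M) (Y : Mˣ)

private noncomputable def Dg : D.Braid →* Mˣ :=
  ((dg : D.HW →* M).comp (D.T _)).toHomUnits

private theorem Dg_val (b : D.Braid) : ((Dg dg b : Mˣ) : M) = dg (D.T _ b) := rfl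

private theorem comm_Dg (hY : ∀ a, (Y : M) * dg a = dg a * (Y : M)) (b : D.Braid) :
    Commute (Dg dg b) Y := by
  apply Units.ext
  rw [Units.val_mul, Units.val_mul, Dg_val]
  exact (hY _).symm

private noncomputable def Phi (hY : ∀ a, (Y : M) * dg a = dg a * (Y : M)) :
    D.Braid × Multiplicative ℤ →* Mˣ where
  toFun p := Dg dg p.1 * Y ^ p.2.toAdd
  map_one' := by simp
  map_mul' p q := by
    have h := (comm_Dg dg Y hY q.1).zpow_right p.2.toAdd
    simp only [Prod.fst_mul, Prod.snd_mul, map_mul, toAdd_mul, zpow_add]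
    calc Dg dg p.1 * Dg dg q.1 * (Y ^ p.2.toAdd * Y ^ q.2.toAdd)
        = Dg dg p.1 * (Dg dg q.1 * Y ^ p.2.toAdd) * Y ^ q.2.toAdd := by simp only [mul_assoc]
      _ = Dg dg p.1 * (Y ^ p.2.toAdd * Dg dg q.1) * Y ^ q.2.toAdd := by rw [h.eq]
      _ = _ := by simp only [mul_assoc]

private theorem Phi_apply (hY : ∀ a, (Y : M) * dg a = dg a * (Y : M)) (b : D.Braid) (e : ℤ) :
    Phi dg Y hY (b, Multiplicative.ofAdd e) = Dg dg b * Y ^ e := rfl

private theorem Phi_w (hY : ∀ a, (Y : M) * dg a = dg a * (Y : M))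
    (hm : ((Y ^ E.m : Mˣ) : M) = dg (D.T _ E.w)) (r : ℤ) (e : ℤ) :
    Phi dg Y hY (E.w ^ r, Multiplicative.ofAdd e) = Y ^ (E.m * r + e) := by
  have h : Dg dg E.w = Y ^ E.m := by
    apply Units.ext
    rw [hm, Dg_val]
  rw [Phi_apply, map_zpow, h, zpow_add, zpow_mul, zpow_natCast]

private theorem aeval_of_root {A B : Type*} {R : Type*} [CommRing R] [Ring A] [Algebra R A]
    [Ring B] [Algebra R B] (f : A →ₐ[R] B) (a : A) (q : R[X]) (h : aeval a q = 0) :
    aeval (f a) q = 0 := by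
  rw [aeval_algHom_apply, h, map_zero]

private theorem isTriple_K (hY : ∀ a, (Y : M) * dg a = dg a * (Y : M))
    (hm : ((Y ^ E.m : Mˣ) : M) = dg (D.T _ E.w)) :
    (Phi dg Y hY (E.u 0, Multiplicative.ofAdd (E.kk 0)) *
      Phi dg Y hY (E.u 1, Multiplicative.ofAdd (E.kk 1)) *
      Phi dg Y hY (E.u 2, Multiplicative.ofAdd (E.kk 2)) = Y) ∧
    BMM.IsTriple (PE E) (fun g => ((Phi dg Y hY (E.u g, Multiplicative.ofAdd (E.kk g)) : Mˣ) : M)) := by
  set K : Fin 3 → Mˣ := fun g => Phi dg Y hY (E.u g, Multiplicative.ofAdd (E.kk g)) with hK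
  have h0 : K 0 * K 1 * K 2 = Y := by
    obtain ⟨r, hr1, hr2⟩ := E.prod
    rw [hK]
    simp only [← map_mul, Prod.mk_mul_mk, ← ofAdd_add]
    rw [hr2, Phi_w E dg Y hY hm]
    have : (E.m : ℤ) * r + (E.kk 0 + E.kk 1 + E.kk 2) = 1 := by linarith
    rw [this, zpow_one]
  have hc : ∀ g, Commute (K g) Y := fun g => by
    have h1 : K g = Dg dg (E.u g) * Y ^ (E.kk g) := rfl
    rw [h1]
    exact (comm_Dg dg Y hY _).mul_left ((Commute.refl Y).zpow_left _)
  refine ⟨h0, ⟨?_, ?_, ?_⟩⟩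
  · have h1 : K 1 * K 2 * K 0 = Y := by
      have h2 : K 1 * K 2 * K 0 = (K 0)⁻¹ * (K 0 * K 1 * K 2) * K 0 := by group
      rw [h2, h0, mul_assoc, ← (hc 0).eq, inv_mul_cancel_left]
    exact_mod_cast congrArg (Units.val) (h0.trans h1.symm)
  · have h1 : K 2 * K 0 * K 1 = Y := by
      have h2 : K 2 * K 0 * K 1 = K 2 * (K 0 * K 1 * K 2) * (K 2)⁻¹ := by group
      rw [h2, h0, (hc 2).eq, mul_inv_cancel_right]
    exact_mod_cast congrArg (Units.val) (h0.trans h1.symm)
  · intro g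
    rcases hg : E.lt g with c | _ | c
    · obtain ⟨hk, b, i, hc, hu⟩ := E.freeu g c hg
      have h1 : PE E g = PC D c := by rw [PE, hg]; rfl
      have h2 : ((K g : Mˣ) : M) = dg (D.T _ (b * D.s i * b⁻¹)) := by
        have h3 : K g = Dg dg (E.u g) * Y ^ (E.kk g) := rfl
        rw [h3, hk, zpow_zero, mul_one, hu, Dg_val]
      rw [h1]
      show aeval ((K g : Mˣ) : M) (PC D c) = 0
      rw [h2]
      apply aeval_of_root
      subst hc
      exact T_poly D _ b i
    · obtain ⟨r, hr1, hr2⟩ := E.kill g hg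
      have h1 : PE E g = X ^ leg E.n g - 1 := by rw [PE, hg]; rfl
      have h2 : K g ^ leg E.n g = 1 := by
        rw [hK]
        simp only
        rw [← map_pow, Prod.pow_mk, ← ofAdd_nsmul]
        have h3 : E.u g ^ leg E.n g = E.w ^ (-r) := by
          rw [zpow_neg]; exact eq_inv_of_mul_eq_one_right hr2
        rw [h3, Phi_w E dg Y hY hm]
        have h4 : (E.m : ℤ) * -r + leg E.n g • E.kk g = 0 := by
          rw [nsmul_eq_mul, mul_comm ((leg E.n g : ℕ) : ℤ) (E.kk g), hr1]; ring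
        rw [h4, zpow_zero]
      rw [h1]
      show aeval ((K g : Mˣ) : M) (X ^ leg E.n g - 1 : D.R[X]) = 0
      rw [map_sub, map_pow, aeval_X, map_one, ← Units.val_pow_eq_pow_val, h2, Units.val_one, sub_self]
    · obtain ⟨r, hr1, b, i, hc, hr2⟩ := E.squ g c hg
      have h1 : PE E g = (PC D c).comp (X ^ 2) := by rw [PE, hg]; rfl
      have h2 : K g ^ 2 = Dg dg (b * D.s i * b⁻¹) := by
        rw [hK]
        simp only
        rw [← map_pow, Prod.pow_mk, ← ofAdd_nsmul]
        have h3 : (E.u g ^ 2, Multiplicative.ofAdd (2 • E.kk g)) =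
            ((E.w ^ (-r), Multiplicative.ofAdd (2 • E.kk g)) : D.Braid × Multiplicative ℤ) *
              (b * D.s i * b⁻¹, Multiplicative.ofAdd 0) := by
          rw [← hr2, Prod.mk_mul_mk, ofAdd_zero, mul_one, ← mul_assoc, ← zpow_add]
          simp
        rw [h3, map_mul, Phi_w E dg Y hY hm, Phi_apply, zpow_zero, mul_one]
        have h4 : (E.m : ℤ) * -r + 2 • E.kk g = 0 := by
          rw [nsmul_eq_mul]; push_cast; linarith
        rw [h4, zpow_zero, one_mul]
      rw [h1]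
      show aeval ((K g : Mˣ) : M) ((PC D c).comp (X ^ 2)) = 0
      rw [aeval_comp, map_pow, aeval_X, ← Units.val_pow_eq_pow_val, h2, Dg_val]
      apply aeval_of_root
      subst hc
      exact T_poly D _ b i

private theorem exists_kappa (I : Iota E) (hY : ∀ a, (Y : M) * dg a = dg a * (Y : M))
    (hm : ((Y ^ E.m : Mˣ) : M) = dg (D.T _ E.w)) :
    ∃ κ : AE E →ₐ[D.R] M, κ (zE E) = (Y : M) ∧ ∀ h, κ (I.i h) = dg h := by
  obtain ⟨h0, htr⟩ := isTriple_K E dg Y hY hm
  set K : Fin 3 → Mˣ := fun g => Phi dg Y hY (E.u g, Multiplicative.ofAdd (E.kk g)) with hK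
  refine ⟨BMM.lift _ htr, ?_, ?_⟩
  · have h1 := congrArg Units.val h0
    rw [zE, BMM.zz, map_mul, map_mul, BMM.lift_gen, BMM.lift_gen, BMM.lift_gen, ← h1]
    rfl
  · set κ := BMM.lift _ htr with hκ
    have h1 : (Units.map (κ : AE E →* M)).comp (wE E) = FreeGroup.lift K := by
      apply FreeGroup.ext_hom
      intro g
      apply Units.ext
      rw [MonoidHom.comp_apply, Units.coe_map, FreeGroup.lift_apply_of]
      show κ ((wE E (FreeGroup.of g) : (AE E)ˣ) : AE E) = _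
      rw [wE_of, hκ, BMM.lift_gen]
    have h2 : ∀ w, κ ((wE E w : (AE E)ˣ) : AE E) = ((FreeGroup.lift K w : Mˣ) : M) := by
      intro w
      rw [← h1]
      rfl
    have h3 : (FreeGroup.lift K) = (Phi dg Y hY).comp (FreeGroup.lift
        (fun g => ((E.u g, Multiplicative.ofAdd (E.kk g)) : D.Braid × Multiplicative ℤ))) := by
      apply FreeGroup.ext_hom
      intro g
      rw [MonoidHom.comp_apply, FreeGroup.lift_apply_of, FreeGroup.lift_apply_of]
    have h4 : (FreeGroup.lift K).comp (FreeGroup.lift E.ι) =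
        (Dg dg).comp (PresentedGroup.mk _ : FreeGroup (Fin D.gens) →* D.Braid) := by
      apply FreeGroup.ext_hom
      intro i
      rw [MonoidHom.comp_apply, MonoidHom.comp_apply, FreeGroup.lift_apply_of, h3,
        MonoidHom.comp_apply]
      obtain ⟨e, he⟩ := E.back i
      rw [he]
      have h5 : ((D.s i * E.w ^ e, Multiplicative.ofAdd (-((E.m : ℤ) * e))) :
          D.Braid × Multiplicative ℤ) = (D.s i, Multiplicative.ofAdd 0) *
            (E.w ^ e, Multiplicative.ofAdd (-((E.m : ℤ) * e))) := by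
        rw [Prod.mk_mul_mk, ofAdd_zero, one_mul]
      rw [h5, map_mul, Phi_w E dg Y hY hm, Phi_apply, zpow_zero, mul_one, add_neg_cancel, zpow_zero,
        mul_one]
      rfl
    have h6 : (κ.comp I.i) = dg := by
      apply hecke_hom_ext
      intro b
      obtain ⟨w, rfl⟩ := QuotientGroup.mk_surjective b
      rw [AlgHom.comp_apply, I.word, h2]
      have h7 := DFunLike.congr_fun h4 w
      rw [MonoidHom.comp_apply] at h7
      rw [h7]
      rfl
    intro h
    exact DFunLike.congr_fun h6 h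

end abstract_part

private theorem T_w_comm (a : D.HW) : D.T _ E.w * a = a * D.T _ E.w := by
  have h : a ∈ Submodule.span D.R (Set.range (D.T (Laurent.var (σ := D.Par)))) := by
    rw [T_span]; trivial
  induction h using Submodule.span_induction with
  | mem x hx =>
    obtain ⟨b, rfl⟩ := hx
    rw [← map_mul, E.w_comm, map_mul]
  | zero => simp
  | add x y _ _ hx hy => rw [mul_add, add_mul, hx, hy]
  | smul r x _ hx => rw [mul_smul_comm, smul_mul_assoc, hx]

theorem exists_lam (I : Iota E) : ∃ lam : AE E →ₗ[D.R] D.HW, ∀ l : ℕ, l < E.m → ∀ h : D.HW,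
    lam (zE E ^ l * I.i h) = if l = 0 then h else 0 := by
  obtain ⟨Y, hY1, hY2, hY3⟩ := exists_companion E.m E.hm
    ((D.T (Laurent.var (σ := D.Par))).toHomUnits E.w) (T_w_comm E)
  obtain ⟨κ, hκ1, hκ2⟩ := exists_kappa E (Matrix.scalarAlgHom (Fin E.m) D.R (α := D.HW)) Y I hY2 hY1
  refine ⟨(Matrix.entryLinearMap D.R D.HW ⟨0, E.hm⟩ ⟨0, E.hm⟩) ∘ₗ κ.toLinearMap, ?_⟩
  intro l hl h
  rw [LinearMap.comp_apply, AlgHom.toLinearMap_apply, map_mul, map_pow, hκ1, hκ2]
  rw [← Units.val_pow_eq_pow_val]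
  change (((Y ^ l : (Matrix (Fin E.m) (Fin E.m) D.HW)ˣ) : Matrix (Fin E.m) (Fin E.m) D.HW) *
    (Matrix.diagonal (fun _ => h) : Matrix (Fin E.m) (Fin E.m) D.HW)) ⟨0, E.hm⟩ ⟨0, E.hm⟩ = _
  rw [Matrix.mul_diagonal, hY3 l hl]
  split_ifs <;> simp

end SYM
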