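import Pool.Agent.Lib.MP_b1ea0f_al.EXLo

/-
MP_b1ea0f_al, module EXLegF (about 60 lines).  A free leg: x j = (v_{c,j})².

x j := LO.var ⟨c, j⟩ ^ 2.  poly: PT p (.free c) = PC D c = ∏ (X - C (var ⟨c,j⟩)); Polynomial.map_prod,
map_sub, map_C, dbl_var.  gal: π = 1: gal g ε (var p ^ 2) = (ε p * var p)^2 = var p ^ 2 since ε p = ± 1
(gal is LO.lift, LO.lift_var; map_pow).  conj: LO.conj (var p) = (var p)⁻¹ (LO.lift_var), map_pow.
pt: toC D (var p ^ 2) = exp(2πi(j+1)/(2 e))^2 = exp(2πi(j+1)/e) (← Complex.exp_nat_mul, congr 1, field_simp;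
e = D.ord c ≠ 0 because j : Fin (D.ord c)).  rot: lam = 1, π = 1, LegT.d = 1 divides everything.
-/

namespace SYM
open Polynomial Module BraidData

theorem exists_leg_free (D : BraidData) (c : Fin D.cls) :
    ∃ x : Fin (D.ord c) → (LO D.Par)ˣ, IsLeg D (D.ord c) (.free c) x := by
  refine ⟨fun j => LO.var (⟨c, j⟩ : D.Par) ^ 2, ?_, ?_, ?_, ?_, ?_⟩
  · rw [PT, PC, Polynomial.map_prod]
    refine Finset.prod_congr rfl fun j _ => ?_
    rw [Polynomial.map_sub, Polynomial.map_X, Polynomial.map_C, dbl_var,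
      Units.val_pow_eq_pow_val]
  · intro g ε hε
    refine ⟨1, fun j => ?_⟩
    rw [Equiv.Perm.one_apply, Units.val_pow_eq_pow_val, map_pow, SYM.gal, LO.lift_var,
      Units.val_mul, mul_pow]
    rcases hε (⟨c, j⟩ : D.Par) with h | h
    · rw [h]
      simp
    · rw [h]
      simp
  · intro j
    rw [Units.val_pow_eq_pow_val, map_pow, LO.conj, LO.lift_var, ← Units.val_pow_eq_pow_val,
      inv_pow]
  · intro j
    have he : ((D.ord c : ℕ) : ℂ) ≠ 0 := by
      have := j.pos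
      exact_mod_cast this.ne'
    rw [Units.val_pow_eq_pow_val, map_pow, toC, LO.lift_var, Units.val_mk0, ← Complex.exp_nat_mul]
    congr 1
    push_cast
    field_simp
  · refine ⟨1, fun e _ => ?_, 1, fun j => ?_⟩
    · simp [LegT.d]
    · rw [Equiv.Perm.one_apply, one_mul]

end SYM
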