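import Pool.Agent.Lib.MP_b1ea0f_al.EXLo

/-
MP_b1ea0f_al, module EXLegK (about 110 lines).  A killed leg: x j = ζ^{(60/p)(j+1)}, p ∣ 60.

Put μ := LO.C ze ^ (60/p) as a unit of LO D.Par (Units.map LO.C zeU ^ (60/p)); it is a primitive p-th root of
unity in the domain LO D.Par (isPrimitiveRoot_ze.pow, LO.C_injective: IsPrimitiveRoot.map_of_injective).
x j := μ ^ (j+1).
poly: ∏_{j : Fin p} (X - C (μ^(j+1))) = X^p - 1: X_pow_sub_one_eq_prod (over nthRootsFinset) with a bijection,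
or IsPrimitiveRoot / Polynomial.prod_multiset_X_sub_C..; e.g. reindex by finRotate to μ^j and use
IsPrimitiveRoot.nthRoots_one_eq_biUnion.. ; simplest: both sides are monic of degree p and the p distinct
elements μ^(j+1) are roots of X^p - 1 (Polynomial.eq_of_degree_sub_lt_of_eval_finset_eq or
Polynomial.prod_multiset_X_sub_C_of_monic_of_roots_card_eq).
gal: gal g ε (LO.C o) = LO.C (g o) (LO.lift_C).  g ze is a p-th.. : g injective? use: g ze ^ 60 = 1, and
g ze is a primitive 60-th root of unity since it is a root of cyclotomic 60 ZO (map the relation; DefsD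
isPrimitiveRoot_ze, isRoot_cyclotomic_iff).  So gal g ε (μ^(j+1)) = ν^(j+1), ν = LO.C (g ze)^(60/p), a
primitive p-th root of unity, ν = μ^a with a coprime to p (IsPrimitiveRoot.isPrimitiveRoot_iff /
eq_pow_of_pow_eq_one).  The map j ↦ the index of μ^(a(j+1)) among the x: for every j there is j' with
ν^(j+1) = x j' (every p-th root of unity is some μ^(j'+1): eq_pow_of_pow_eq_one; index i with μ^i, 0 ≤ i < p,
j' = i - 1 or p - 1 if i = 0).  Choose π₀ : Fin p → Fin p; injective since ν^(j+1) = ν^(k+1) implies j = k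
(IsPrimitiveRoot.pow_inj or pow_inj mod p); Equiv.ofBijective (Finite.injective_iff_bijective).
A general private lemma is useful: for two families y, x : Fin p → M, both injective with y j ∈ range x, there is
a permutation π with y j = x (π j).
conj: LO.conj (LO.C o) = LO.C (ZO.conj o), ZO.conj ze = zeU⁻¹ (ZO.lift_ze).
pt: toC D (LO.C ze) = exp(2πi/60) (LO.lift_C, ZO.lift_ze), so (..)^((60/p)(j+1)) = exp(2πi(j+1)/p)
(← Complex.exp_nat_mul; ((60/p : ℕ) : ℂ) = 60/p by Nat.cast_div).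
rot: lam = μ, μ^e = 1 ↔ p ∣ e (IsPrimitiveRoot.zpow_eq_one_iff_dvd), π from the general lemma
with y j = μ * x j.
-/

namespace SYM
open Polynomial Module BraidData

private theorem surj_pow {B : Type*} [CommRing B] [IsDomain B] {p : ℕ} (hp : 0 < p) {μ : Bˣ}
    (hμ : IsPrimitiveRoot (μ : B) p) {u : Bˣ} (hu : u ^ p = 1) :
    ∃ j : Fin p, u = μ ^ ((j : ℕ) + 1) := by
  have hu' : (u : B) ^ p = 1 := by
    rw [← Units.val_pow_eq_pow_val, hu, Units.val_one]
  have : NeZero p := ⟨hp.ne'⟩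
  obtain ⟨i, hi, hiu⟩ := hμ.eq_pow_of_pow_eq_one hu'
  rcases Nat.eq_zero_or_pos i with h0 | h0
  · refine ⟨⟨p - 1, by omega⟩, ?_⟩
    apply Units.ext
    have h1 : p - 1 + 1 = p := by omega
    show (u : B) = ((μ ^ (p - 1 + 1) : Bˣ) : B)
    rw [h1, Units.val_pow_eq_pow_val, hμ.pow_eq_one, ← hiu, h0, pow_zero]
  · refine ⟨⟨i - 1, by omega⟩, ?_⟩
    apply Units.ext
    have h1 : i - 1 + 1 = i := by omega
    show (u : B) = ((μ ^ (i - 1 + 1) : Bˣ) : B)
    rw [h1, Units.val_pow_eq_pow_val, hiu]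

private theorem inj_pow {B : Type*} [CommRing B] {p : ℕ} {μ : Bˣ}
    (hμ : IsPrimitiveRoot (μ : B) p) : Function.Injective fun j : Fin p => μ ^ ((j : ℕ) + 1) := by
  intro j k h
  have h1 : μ ^ (j : ℕ) = μ ^ (k : ℕ) := by
    have h2 : μ ^ ((j : ℕ) + 1) = μ ^ ((k : ℕ) + 1) := h
    rw [pow_succ, pow_succ] at h2
    exact mul_right_cancel h2
  have h3 : (μ : B) ^ (j : ℕ) = (μ : B) ^ (k : ℕ) := by
    rw [← Units.val_pow_eq_pow_val, ← Units.val_pow_eq_pow_val, h1]
  exact Fin.ext (hμ.pow_inj j.2 k.2 h3)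

private theorem exists_perm {B : Type*} [CommRing B] [IsDomain B] {p : ℕ} (hp : 0 < p) {μ : Bˣ}
    (hμ : IsPrimitiveRoot (μ : B) p) (y : Fin p → Bˣ) (hy : ∀ j, y j ^ p = 1)
    (hi : Function.Injective y) :
    ∃ π : Equiv.Perm (Fin p), ∀ j, y j = μ ^ ((π j : ℕ) + 1) := by
  choose f hf using fun j => surj_pow hp hμ (hy j)
  have hfi : Function.Injective f := by
    intro j k h
    apply hi
    rw [hf j, hf k, h]
  exact ⟨Equiv.ofBijective f (Finite.injective_iff_bijective.1 hfi), fun j => hf j⟩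

private theorem prod_root {B : Type*} [CommRing B] [IsDomain B] {p : ℕ} (hp : 0 < p) {μ : Bˣ}
    (hμ : IsPrimitiveRoot (μ : B) p) :
    ∏ j : Fin p, (X - C ((μ ^ ((j : ℕ) + 1) : Bˣ) : B)) = X ^ p - 1 := by
  classical
  rw [X_pow_sub_one_eq_prod hp hμ]
  have hinj : Function.Injective fun j : Fin p => ((μ ^ ((j : ℕ) + 1) : Bˣ) : B) :=
    Units.val_injective.comp (inj_pow hμ)
  have him : nthRootsFinset p (1 : B)
      = Finset.univ.image fun j : Fin p => ((μ ^ ((j : ℕ) + 1) : Bˣ) : B) := by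
    ext u
    rw [mem_nthRootsFinset hp, Finset.mem_image]
    constructor
    · intro hu
      have hunit : IsUnit u := IsUnit.of_pow_eq_one hu hp.ne'
      obtain ⟨v, rfl⟩ := hunit
      have hv : v ^ p = 1 := by
        apply Units.ext
        rw [Units.val_pow_eq_pow_val, hu, Units.val_one]
      obtain ⟨j, hj⟩ := surj_pow hp hμ hv
      exact ⟨j, Finset.mem_univ _, by rw [hj]⟩
    · rintro ⟨j, _, rfl⟩
      rw [Units.val_pow_eq_pow_val, ← pow_mul, mul_comm, pow_mul, hμ.pow_eq_one, one_pow]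
  rw [him, Finset.prod_image fun a _ b _ h => hinj h]

private theorem prim_map (g : ZO →+* ZO) : IsPrimitiveRoot (g ze) 60 := by
  rw [← isRoot_cyclotomic_iff]
  have h := (isPrimitiveRoot_ze.isRoot_cyclotomic (by norm_num)).map (f := g)
  rw [map_cyclotomic] at h
  exact h

private theorem exp_pow (p : ℕ) (hp : 0 < p) (hp' : p ∣ 60) (j : ℕ) :
    (Complex.exp (2 * Real.pi * Complex.I / (60 : ℕ)) ^ (60 / p)) ^ (j + 1)
      = Complex.exp (2 * Real.pi * Complex.I * (j + 1) / (p : ℕ)) := by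
  rw [← Complex.exp_nat_mul, ← Complex.exp_nat_mul]
  congr 1
  have h1 : ((60 / p : ℕ) : ℂ) = 60 / p := by
    rw [Nat.cast_div hp' (Nat.cast_ne_zero.2 hp.ne')]
    norm_num
  have h2 : (p : ℂ) ≠ 0 := Nat.cast_ne_zero.2 hp.ne'
  rw [h1]
  push_cast
  field_simp


theorem exists_leg_killed (D : BraidData) (p : ℕ) (hp : 0 < p) (hp' : p ∣ 60) :
    ∃ x : Fin p → (LO D.Par)ˣ, IsLeg D p .killed x := by
  obtain ⟨q, hq⟩ := hp'
  have h60 : 60 / p = q := by
    rw [hq, Nat.mul_div_cancel_left _ hp]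
  set ν : ZOˣ := zeU ^ (60 / p) with hν
  have hνp : IsPrimitiveRoot (ν : ZO) p := by
    rw [hν, Units.val_pow_eq_pow_val, coe_zeU]
    exact isPrimitiveRoot_ze.pow (by norm_num) (by rw [h60, hq, mul_comm])
  set μ : (LO D.Par)ˣ := Units.map ((LO.C : ZO →+* LO D.Par) : ZO →* LO D.Par) ν with hμd
  have hμv : (μ : LO D.Par) = LO.C (ν : ZO) := rfl
  have hμ : IsPrimitiveRoot (μ : LO D.Par) p := by
    rw [hμv]
    exact hνp.map_of_injective (LO.C_injective D.Par)
  have hμ1 : μ ^ p = 1 := by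
    apply Units.ext
    rw [Units.val_pow_eq_pow_val, hμ.pow_eq_one, Units.val_one]
  refine ⟨fun j => μ ^ ((j : ℕ) + 1), ?_, ?_, ?_, ?_, ?_⟩
  · rw [prod_root hp hμ, PT, Polynomial.map_sub, Polynomial.map_pow, Polynomial.map_X,
      Polynomial.map_one]
  · intro g ε _
    have hg : ∀ o : ZO, SYM.gal g ε (LO.C o) = LO.C (g o) := by
      intro o
      rw [SYM.gal, LO.lift_C]
      rfl
    have hgν : IsPrimitiveRoot (g (ν : ZO)) p := by
      rw [hν, Units.val_pow_eq_pow_val, coe_zeU, map_pow]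
      exact (prim_map g).pow (by norm_num) (by rw [h60, hq, mul_comm])
    have h1 : IsPrimitiveRoot
        ((Units.map ((SYM.gal g ε : LO D.Par →+* LO D.Par) : LO D.Par →* LO D.Par) μ :
          (LO D.Par)ˣ) : LO D.Par) p := by
      show IsPrimitiveRoot (SYM.gal g ε (μ : LO D.Par)) p
      rw [hμv, hg]
      exact hgν.map_of_injective (LO.C_injective D.Par)
    obtain ⟨π, hπ⟩ := exists_perm hp hμ
      (fun j : Fin p => (Units.map ((SYM.gal g ε : LO D.Par →+* LO D.Par) :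
        LO D.Par →* LO D.Par) μ) ^ ((j : ℕ) + 1))
      (fun j => by
        show (_ ^ ((j : ℕ) + 1)) ^ p = 1
        rw [← pow_mul, mul_comm, pow_mul, ← map_pow, hμ1, map_one, one_pow])
      (inj_pow h1)
    refine ⟨π, fun j => ?_⟩
    have h2 : Units.map ((SYM.gal g ε : LO D.Par →+* LO D.Par) : LO D.Par →* LO D.Par)
        (μ ^ ((j : ℕ) + 1)) = μ ^ ((π j : ℕ) + 1) := by
      rw [map_pow]
      exact hπ j
    exact congrArg Units.val h2
  · intro j
    have h1 : Units.map ((LO.conj : LO D.Par →+* LO D.Par) : LO D.Par →* LO D.Par) μ = μ⁻¹ := by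
      have h2 : Units.map ((ZO.conj : ZO →+* ZO) : ZO →* ZO) ν = ν⁻¹ := by
        have h3 : Units.map ((ZO.conj : ZO →+* ZO) : ZO →* ZO) zeU = zeU⁻¹ := by
          apply Units.ext
          show ZO.conj ze = ((zeU⁻¹ : ZOˣ) : ZO)
          rw [ZO.conj, ZO.lift_ze]
        rw [hν, map_pow, h3, inv_pow]
      apply Units.ext
      show LO.conj (LO.C (ν : ZO)) = ((μ⁻¹ : (LO D.Par)ˣ) : LO D.Par)
      rw [LO.conj, LO.lift_C]
      show LO.C (ZO.conj (ν : ZO)) = ((μ⁻¹ : (LO D.Par)ˣ) : LO D.Par)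
      have h4 : ZO.conj (ν : ZO) = ((ν⁻¹ : ZOˣ) : ZO) := congrArg Units.val h2
      rw [h4, hμd, ← map_inv]
      rfl
    have h5 : Units.map ((LO.conj : LO D.Par →+* LO D.Par) : LO D.Par →* LO D.Par)
        (μ ^ ((j : ℕ) + 1)) = (μ ^ ((j : ℕ) + 1))⁻¹ := by
      rw [map_pow, h1, inv_pow]
    exact congrArg Units.val h5
  · intro j
    show toC D ((μ ^ ((j : ℕ) + 1) : (LO D.Par)ˣ) : LO D.Par) = _
    rw [Units.val_pow_eq_pow_val, map_pow, hμv, toC, LO.lift_C, hν, Units.val_pow_eq_pow_val,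
      coe_zeU, map_pow, ZO.toC, ZO.lift_ze]
    exact exp_pow p hp ⟨q, hq⟩ j
  · refine ⟨μ, ?_, ?_⟩
    · intro e he
      have h1 : IsPrimitiveRoot μ p := IsPrimitiveRoot.coe_units_iff.1 hμ
      exact (h1.zpow_eq_one_iff_dvd e).1 he
    · obtain ⟨π, hπ⟩ := exists_perm hp hμ (fun j : Fin p => μ * μ ^ ((j : ℕ) + 1))
        (fun j => by
          show (μ * μ ^ ((j : ℕ) + 1)) ^ p = 1
          rw [mul_pow, hμ1, one_mul, ← pow_mul, mul_comm, pow_mul, hμ1, one_pow])
        (fun j k h => inj_pow hμ (mul_left_cancel h))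
      exact ⟨π, fun j => (hπ j).symm⟩

end SYM
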