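import Pool.Agent.Lib.MP_b1ea0f_al.EXLo

/-
MP_b1ea0f_al, module EXLegS (about 110 lines).  A leg of the type sq: x = (v_0, v_1, -v_0, -v_1).

v i := LO.var ⟨c, i⟩ for i = 0, 1 : Fin (D.ord c) (D.ord c = 2; i = Fin.cast hc.symm).
x := ![v 0, v 1, -v 0, -v 1].
poly: PT 4 (.sq c) = (PC D c).comp (X^2), PC D c = (X - C u_0)(X - C u_1) (prod over Fin (D.ord c): use
Fin.prod_congr' or (finCongr hc) with Fintype.prod_equiv, then Fin.prod_univ_two); after map dbl:
(X^2 - C v_0^2)(X^2 - C v_1^2) = (X - v_0)(X - v_1)(X + v_0)(X + v_1): Fin.prod_univ_four, simp, ring.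
gal: gal g ε (v i) = ε i * v i = ± v i: four cases (ε_0 = ±1, ε_1 = ±1): π = 1, swap 0 2, swap 1 3,
swap 0 2 * swap 1 3; check with Fin.forall_fin_succ / fin_cases j (Fin 4).
conj: (v⁻¹), (-v)⁻¹ = -v⁻¹ (map_neg, Units: inv_neg).
pt: toC D (v 0) = exp(2πi·1/4), toC D (v 1) = exp(2πi·2/4); -exp(2πi/4) = exp(2πi·3/4),
-exp(2πi·2/4) = exp(2πi·4/4) (Complex.exp_add, Complex.exp_pi_mul_I : exp(πi) = -1).
rot: lam = -1, (-1)^e = 1 → 2 ∣ e (units of a domain of characteristic 0: Int.even_or_odd, Even.neg_one_zpow,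
Odd.neg_one_zpow, -1 ≠ 1), π = swap 0 2 * swap 1 3 (or finRotate twice): x (π j) = - x j.
-/

namespace SYM
open Polynomial Module BraidData

private theorem perm02 : ((Equiv.swap (0 : Fin 4) 2) 0 = 2 ∧ (Equiv.swap (0 : Fin 4) 2) 1 = 1) ∧
    ((Equiv.swap (0 : Fin 4) 2) 2 = 0 ∧ (Equiv.swap (0 : Fin 4) 2) 3 = 3) := by decide

private theorem perm13 : ((Equiv.swap (1 : Fin 4) 3) 0 = 0 ∧ (Equiv.swap (1 : Fin 4) 3) 1 = 3) ∧
    ((Equiv.swap (1 : Fin 4) 3) 2 = 2 ∧ (Equiv.swap (1 : Fin 4) 3) 3 = 1) := by decide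

private theorem perm0213 : ((Equiv.swap (0 : Fin 4) 2 * Equiv.swap (1 : Fin 4) 3) 0 = 2 ∧
      (Equiv.swap (0 : Fin 4) 2 * Equiv.swap (1 : Fin 4) 3) 1 = 3) ∧
    ((Equiv.swap (0 : Fin 4) 2 * Equiv.swap (1 : Fin 4) 3) 2 = 0 ∧
      (Equiv.swap (0 : Fin 4) 2 * Equiv.swap (1 : Fin 4) 3) 3 = 1) := by decide

private theorem exp_two : -Complex.exp (2 * Real.pi * Complex.I * (0 + 1) / 4) =
    Complex.exp (2 * Real.pi * Complex.I * (2 + 1) / 4) := by
  have h : 2 * Real.pi * Complex.I * (2 + 1) / 4 =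
      2 * Real.pi * Complex.I * (0 + 1) / 4 + Real.pi * Complex.I := by ring
  rw [h, Complex.exp_add, Complex.exp_pi_mul_I, mul_neg, mul_one]

private theorem exp_three : -Complex.exp (2 * Real.pi * Complex.I * (1 + 1) / 4) =
    Complex.exp (2 * Real.pi * Complex.I * (3 + 1) / 4) := by
  have h : 2 * Real.pi * Complex.I * (3 + 1) / 4 =
      2 * Real.pi * Complex.I * (1 + 1) / 4 + Real.pi * Complex.I := by ring
  rw [h, Complex.exp_add, Complex.exp_pi_mul_I, mul_neg, mul_one]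

private theorem forall4 {P : Fin 4 → Prop} (h0 : P 0) (h1 : P 1) (h2 : P 2) (h3 : P 3) :
    ∀ j, P j := by
  intro j
  fin_cases j
  · exact h0
  · exact h1
  · exact h2
  · exact h3


theorem exists_leg_sq (D : BraidData) (c : Fin D.cls) (hc : D.ord c = 2) :
    ∃ x : Fin 4 → (LO D.Par)ˣ, IsLeg D 4 (.sq c) x := by
  set v : Fin 2 → (LO D.Par)ˣ := fun i => LO.var ⟨c, Fin.cast hc.symm i⟩ with hv
  set x : Fin 4 → (LO D.Par)ˣ := ![v 0, v 1, -v 0, -v 1] with hx
  have x0 : x 0 = v 0 := rfl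
  have x1 : x 1 = v 1 := rfl
  have x2 : x 2 = -v 0 := rfl
  have x3 : x 3 = -v 1 := rfl
  refine ⟨x, ?_, ?_, ?_, ?_, ?_⟩
  · have hPC : (PC D c).map (dbl : D.R →+* LO D.Par) =
        (X - C (((v 0 : (LO D.Par)ˣ) : LO D.Par) ^ 2)) *
          (X - C (((v 1 : (LO D.Par)ˣ) : LO D.Par) ^ 2)) := by
      rw [PC, Polynomial.map_prod, ← (finCongr hc.symm).prod_comp, Fin.prod_univ_two,
        Polynomial.map_sub, Polynomial.map_sub, Polynomial.map_X, Polynomial.map_C,
        Polynomial.map_C, dbl_var, dbl_var]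
      rfl
    rw [PT, Polynomial.map_comp, hPC, Polynomial.map_pow, Polynomial.map_X, Fin.prod_univ_four,
      x0, x1, x2, x3, Units.val_neg, Units.val_neg, mul_comp, sub_comp, sub_comp, X_comp, C_comp,
      C_comp, C_neg, C_neg, C_pow, C_pow]
    ring
  · intro g ε hε
    have hg : ∀ i : Fin 2, SYM.gal g ε ((v i : (LO D.Par)ˣ) : LO D.Par) =
        ((ε ⟨c, Fin.cast hc.symm i⟩ : (LO D.Par)ˣ) : LO D.Par) * v i := by
      intro i
      rw [hv, SYM.gal, LO.lift_var, Units.val_mul]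
    have hg' : ∀ i : Fin 2, SYM.gal g ε ((-v i : (LO D.Par)ˣ) : LO D.Par) =
        -(((ε ⟨c, Fin.cast hc.symm i⟩ : (LO D.Par)ˣ) : LO D.Par) * v i) := by
      intro i
      rw [Units.val_neg, map_neg, hg]
    rcases hε ⟨c, Fin.cast hc.symm 0⟩ with h0 | h0 <;>
      rcases hε ⟨c, Fin.cast hc.symm 1⟩ with h1 | h1
    · refine ⟨1, forall4 ?_ ?_ ?_ ?_⟩
      · rw [Equiv.Perm.one_apply, x0, hg, h0, Units.val_one, one_mul]
      · rw [Equiv.Perm.one_apply, x1, hg, h1, Units.val_one, one_mul]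
      · rw [Equiv.Perm.one_apply, x2, hg', h0, Units.val_one, one_mul, Units.val_neg]
      · rw [Equiv.Perm.one_apply, x3, hg', h1, Units.val_one, one_mul, Units.val_neg]
    · obtain ⟨⟨p0, p1⟩, p2, p3⟩ := perm13
      refine ⟨Equiv.swap (1 : Fin 4) 3, forall4 ?_ ?_ ?_ ?_⟩
      · rw [p0, x0, hg, h0, Units.val_one, one_mul]
      · rw [p1, x1, x3, hg, h1, Units.val_neg, Units.val_neg, Units.val_one, neg_one_mul]
      · rw [p2, x2, hg', h0, Units.val_one, one_mul, Units.val_neg]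
      · rw [p3, x3, x1, hg', h1, Units.val_neg, Units.val_one, neg_one_mul, neg_neg]
    · obtain ⟨⟨p0, p1⟩, p2, p3⟩ := perm02
      refine ⟨Equiv.swap (0 : Fin 4) 2, forall4 ?_ ?_ ?_ ?_⟩
      · rw [p0, x0, x2, hg, h0, Units.val_neg, Units.val_neg, Units.val_one, neg_one_mul]
      · rw [p1, x1, hg, h1, Units.val_one, one_mul]
      · rw [p2, x2, x0, hg', h0, Units.val_neg, Units.val_one, neg_one_mul, neg_neg]
      · rw [p3, x3, hg', h1, Units.val_one, one_mul, Units.val_neg]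
    · obtain ⟨⟨p0, p1⟩, p2, p3⟩ := perm0213
      refine ⟨Equiv.swap (0 : Fin 4) 2 * Equiv.swap (1 : Fin 4) 3, forall4 ?_ ?_ ?_ ?_⟩
      · rw [p0, x0, x2, hg, h0, Units.val_neg, Units.val_neg, Units.val_one, neg_one_mul]
      · rw [p1, x1, x3, hg, h1, Units.val_neg, Units.val_neg, Units.val_one, neg_one_mul]
      · rw [p2, x2, x0, hg', h0, Units.val_neg, Units.val_one, neg_one_mul, neg_neg]
      · rw [p3, x3, x1, hg', h1, Units.val_neg, Units.val_one, neg_one_mul, neg_neg]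
  · have hcj : ∀ i : Fin 2, LO.conj ((v i : (LO D.Par)ˣ) : LO D.Par) =
        (((v i)⁻¹ : (LO D.Par)ˣ) : LO D.Par) := by
      intro i
      rw [hv, LO.conj, LO.lift_var]
    have hcj' : ∀ i : Fin 2, LO.conj ((-v i : (LO D.Par)ˣ) : LO D.Par) =
        (((-v i)⁻¹ : (LO D.Par)ˣ) : LO D.Par) := by
      intro i
      rw [Units.val_neg, map_neg, hcj, inv_neg, Units.val_neg]
    exact forall4 (hcj 0) (hcj 1) (hcj' 0) (hcj' 1)
  · have ht : ∀ i : Fin 2, toC D ((v i : (LO D.Par)ˣ) : LO D.Par) =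
        Complex.exp (2 * Real.pi * Complex.I * ((i : ℕ) + 1) / 4) := by
      intro i
      rw [hv, toC, LO.lift_var, Units.val_mk0]
      congr 2
      show (2 * (D.ord c : ℂ)) = 4
      rw [hc]
      norm_num
    have ht0 := ht 0
    have ht1 := ht 1
    refine forall4 ?_ ?_ ?_ ?_
    · rw [x0, ht0]; simp
    · rw [x1, ht1]; simp
    · rw [x2, Units.val_neg, map_neg, ht0]
      have h := exp_two
      simpa using h
    · rw [x3, Units.val_neg, map_neg, ht1]
      have h := exp_three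
      simpa using h
  · refine ⟨-1, ?_, Equiv.swap (0 : Fin 4) 2 * Equiv.swap (1 : Fin 4) 3, ?_⟩
    · intro e he
      show (2 : ℤ) ∣ e
      rcases Int.even_or_odd e with h | h
      · exact h.two_dvd
      · exfalso
        rw [h.neg_one_zpow] at he
        have h2 := congrArg (Units.val) he
        rw [Units.val_neg, Units.val_one] at h2
        have h3 : (2 : LO D.Par) = 0 := by
          have h4 : (1 : LO D.Par) + 1 = 0 := by
            nth_rewrite 1 [← h2]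
            exact neg_add_cancel 1
          rw [← one_add_one_eq_two, h4]
        exact two_ne_zero h3
    · obtain ⟨⟨p0, p1⟩, p2, p3⟩ := perm0213
      refine forall4 ?_ ?_ ?_ ?_
      · rw [p0, x0, x2, neg_one_mul]
      · rw [p1, x1, x3, neg_one_mul]
      · rw [p2, x2, x0, neg_one_mul, neg_neg]
      · rw [p3, x3, x1, neg_one_mul, neg_neg]

end SYM
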