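import Pool.Agent.Lib.MP_b1ea0f_al.EXLegF
import Pool.Agent.Lib.MP_b1ea0f_al.EXLegK
import Pool.Agent.Lib.MP_b1ea0f_al.EXLegS

/-
MP_b1ea0f_al, module EXPar (about 60 lines).  The parameters of the star algebra over LO D.Par.

exists_xE: for every g there is x_g : Fin (leg E.n g) → (LO D.Par)ˣ with IsLeg: cases on E.lt g (keep the
equation h): free c: E.free_ord g c h : D.ord c = leg n g, rewrite exists_leg_free; killed: exists_leg_killed,
leg n g ∈ {2,3,n} divides 60; sq c: E.sq_ord: g = 2, n = 4, D.ord c = 2, leg 4 2 = 4.  (Generalise: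
∀ p t, p = leg n g → ... to avoid dependent rewriting.)  choose, x ⟨g, j⟩ := x_g j.
P_xE: P n x g = ∏ (X - C (x ⟨g, j⟩)) is (isLeg g).poly.
mapP_xE: P n x = BMM.mapP (P n (XX n)) (Laurent.lift x): P_mapx with mapx (Laurent.lift x) (XX n) = x
(funext, Units.ext, Laurent.lift_var).
isGroupPoint_xE: ξ := exp(2πi/NZ n) (Complex.isPrimitiveRoot_exp, as a unit); toC D (x l) =
exp(2πi(j+1)/leg) = ξ ^ (NZ n / leg * (j+1)): ← Complex.exp_nat_mul, Nat.cast_div (leg n g ∣ NZ n; three values of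
n, fin_cases), field_simp.
-/

namespace SYM
open Polynomial Module BraidData

private theorem exp_leg_dvd {n : ℕ} (hn : HN n) (g : Fin 3) : leg n g ∣ 60 := by
  rcases hn with rfl | rfl | rfl <;> fin_cases g <;> decide

private theorem exp_leg_dvd_NZ {n : ℕ} (hn : HN n) (g : Fin 3) : leg n g ∣ NZ n := by
  rcases hn with rfl | rfl | rfl <;> fin_cases g <;> decide

private theorem exp_NZ_pos {n : ℕ} (hn : HN n) : 0 < NZ n := by
  rcases hn with rfl | rfl | rfl <;> decide

theorem exists_xE {D : BraidData} (E : Emb D) : ∃ x : J E.n → (LO D.Par)ˣ,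
    ∀ g, IsLeg D (leg E.n g) (E.lt g) fun j => x ⟨g, j⟩ := by
  have key : ∀ g, ∃ x : Fin (leg E.n g) → (LO D.Par)ˣ, IsLeg D (leg E.n g) (E.lt g) x := by
    intro g
    have gen : ∀ t : LegT D, E.lt g = t → ∀ p, p = leg E.n g →
        ∃ x : Fin p → (LO D.Par)ˣ, IsLeg D p t x := by
      intro t ht p hp
      cases t with
      | free c =>
        have h1 := E.free_ord g c ht
        rw [← hp] at h1
        subst h1
        exact exists_leg_free D c
      | killed =>
        subst hp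
        exact exists_leg_killed D _ (leg_pos E.hn g) (exp_leg_dvd E.hn g)
      | sq c =>
        obtain ⟨hg, h4, hc⟩ := E.sq_ord g c ht
        have h1 : p = 4 := by
          rw [hp, hg, h4]
          rfl
        subst h1
        exact exists_leg_sq D c hc
    exact gen _ rfl _ rfl
  choose x hx using key
  exact ⟨fun l => x l.1 l.2, hx⟩

theorem P_xE {D : BraidData} (E : Emb D) (x : J E.n → (LO D.Par)ˣ)
    (hx : ∀ g, IsLeg D (leg E.n g) (E.lt g) fun j => x ⟨g, j⟩) :
    P E.n x = BMM.mapP (PE E) (dbl : D.R →+* LO D.Par) := by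
  funext g
  exact (hx g).poly

theorem mapx_XX {k : Type} [CommRing k] {n : ℕ} (x : J n → kˣ) : mapx (Laurent.lift x) (XX n) = x := by
  funext l
  apply Units.ext
  exact Laurent.lift_var x l

theorem mapP_xE {k : Type} [CommRing k] {n : ℕ} (x : J n → kˣ) :
    P n x = BMM.mapP (P n (XX n)) (Laurent.lift x) := by
  funext g
  have h1 := P_mapx (Laurent.lift x) n (XX n) g
  rw [mapx_XX] at h1
  exact h1

theorem isGroupPoint_xE {D : BraidData} (E : Emb D) (x : J E.n → (LO D.Par)ˣ)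
    (hx : ∀ g, IsLeg D (leg E.n g) (E.lt g) fun j => x ⟨g, j⟩) :
    ∃ ξ : ℂˣ, IsGroupPoint ξ (mapx ((toC D).comp (Laurent.lift x)) (XX E.n)) := by
  have hN := exp_NZ_pos E.hn
  refine ⟨Units.mk0 (Complex.exp (2 * Real.pi * Complex.I / (NZ E.n : ℕ)))
    (Complex.exp_ne_zero _), ?_, ?_⟩
  · rw [← IsPrimitiveRoot.coe_units_iff, Units.val_mk0]
    exact Complex.isPrimitiveRoot_exp _ hN.ne'
  · rintro ⟨g, j⟩
    apply Units.ext
    rw [Units.val_pow_eq_pow_val, Units.val_mk0]
    have h1 : ((mapx ((toC D).comp (Laurent.lift x)) (XX E.n) ⟨g, j⟩ : ℂˣ) : ℂ) =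
        toC D (x ⟨g, j⟩ : LO D.Par) := by
      change (toC D) (Laurent.lift x (Laurent.var (⟨g, j⟩ : J E.n) : Laurent (J E.n))) = _
      rw [Laurent.lift_var]
    have h2 := (hx g).pt j
    rw [h1]
    refine h2.trans ?_
    rw [← Complex.exp_nat_mul]
    congr 1
    have hl : ((leg E.n g : ℕ) : ℂ) ≠ 0 := by
      have := leg_pos E.hn g
      exact_mod_cast this.ne'
    have hN' : ((NZ E.n : ℕ) : ℂ) ≠ 0 := by exact_mod_cast hN.ne'
    push_cast [Nat.cast_div (exp_leg_dvd_NZ E.hn g) hl]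
    field_simp

end SYM
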