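import Pool.Agent.Lib.MP_b1ea0f_al.EXTens

/-
MP_b1ea0f_al, module EXPull (about 90 lines).  Descent of a symmetrising trace along a ring map with a
retraction.

f is injective: ρ (f a) = ρ (f a * 1) = a.  For h ∈ HA A P let T h := ρ (T' (mapH h)); as T' (mapH h) =
f a for some a, T h = a and f (T h) = T' (mapH h).  T is A-linear: T (r • h) = ρ (T' (f r • mapH h)) =
ρ (f r * T' (mapH h)) = r * T h.  comm: clear from hc.
Frob: letI := f.toAlgebra, e from exists_tens; let R : B ⊗[A] HA A P →+ HA A P be the additive map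
b ⊗ a ↦ ρ b • a: it is TensorProduct.lift of the A-bilinear map; ρ is A-linear for the A-module structure
of f.toAlgebra (a • b = f a * b): build ρ' : B →ₗ[A] A and R := TensorProduct.lift (LinearMap.mk₂ ..) or
(TensorProduct.lid A _) ∘ (ρ'.rTensor _).  Put r := R ∘ e : HA B _ →+ HA A P; r (b • mapH h) = ρ b • h
(e is B-linear: b • (1 ⊗ h) = b ⊗ h).  Let h' = Σ_i T'(h' u_i) v_i be the dual bases of T'.  By span_mapH
every u_i = Σ_s b_{is} mapH u_{is}, v_i = Σ_t b'_{it} mapH v_{it} (finite sums; Submodule.mem_span /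
span_induction, or Finsupp.mem_span_range_iff_exists_finsupp).  Then for h ∈ HA A P
mapH h = Σ_{i,s,t} (b_{is} b'_{it} f (T (h u_{is}))) • mapH v_{it}; apply r:
h = Σ_{i,s,t} T (h u_{is}) ρ(b_{is} b'_{it}) • v_{it} = Σ T (h u_{is}) • (ρ(b_{is} b'_{it}) • v_{it}).
To get an index set Fin m: first prove the statement with a Fintype index (or Finset sum) and transport by
Fintype.equivFin; a clean way: call a function φ : HA A P → HA A P good if it is of the form
h ↦ Σ_{i : Fin m} T (h * u i) • v i; good functions are closed under addition (Fin.append / Fin.sum_univ_add)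
and contain 0; show by span_induction in u and in v that h ↦ r (T' (mapH h * u) • v) is good.
-/

/-
MP_b1ea0f_al, module EXPull (about 90 lines).  Descent of a symmetrising trace along a ring map with a
retraction.

f is injective: ρ (f a) = ρ (f a * 1) = a.  For h ∈ HA A P let T h := ρ (T' (mapH h)); as T' (mapH h) =
f a for some a, T h = a and f (T h) = T' (mapH h).  T is A-linear: T (r • h) = ρ (T' (f r • mapH h)) =
ρ (f r * T' (mapH h)) = r * T h.  comm: clear from hc.
Frob: letI := f.toAlgebra, e from exists_tens; let R : B ⊗[A] HA A P →+ HA A P be the additive map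
b ⊗ a ↦ ρ b • a: it is TensorProduct.lift of the A-bilinear map; ρ is A-linear for the A-module structure
of f.toAlgebra (a • b = f a * b): build ρ' : B →ₗ[A] A and R := TensorProduct.lift (LinearMap.mk₂ ..) or
(TensorProduct.lid A _) ∘ (ρ'.rTensor _).  Put r := R ∘ e : HA B _ →+ HA A P; r (b • mapH h) = ρ b • h
(e is B-linear: b • (1 ⊗ h) = b ⊗ h).  Let h' = Σ_i T'(h' u_i) v_i be the dual bases of T'.  By span_mapH
every u_i = Σ_s b_{is} mapH u_{is}, v_i = Σ_t b'_{it} mapH v_{it} (finite sums; Submodule.mem_span /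
span_induction, or Finsupp.mem_span_range_iff_exists_finsupp).  Then for h ∈ HA A P
mapH h = Σ_{i,s,t} (b_{is} b'_{it} f (T (h u_{is}))) • mapH v_{it}; apply r:
h = Σ_{i,s,t} T (h u_{is}) ρ(b_{is} b'_{it}) • v_{it} = Σ T (h u_{is}) • (ρ(b_{is} b'_{it}) • v_{it}).
To get an index set Fin m: first prove the statement with a Fintype index (or Finset sum) and transport by
Fintype.equivFin; a clean way: call a function φ : HA A P → HA A P good if it is of the form
h ↦ Σ_{i : Fin m} T (h * u i) • v i; good functions are closed under addition (Fin.append / Fin.sum_univ_add)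
and contain 0; show by span_induction in u and in v that h ↦ r (T' (mapH h * u) • v) is good.
-/

namespace SYM
open Polynomial Module TensorProduct

private def EPGood {A X : Type} [CommRing A] [Ring X] [Algebra A X] (T : X →ₗ[A] A)
    (φ : X → X) : Prop :=
  ∃ (ι : Type) (_ : Fintype ι) (u v : ι → X), ∀ h, φ h = ∑ i, T (h * u i) • v i

private theorem EPGood.add {A X : Type} [CommRing A] [Ring X] [Algebra A X] {T : X →ₗ[A] A}
    {φ ψ : X → X} (h1 : EPGood T φ) (h2 : EPGood T ψ) : EPGood T (fun h => φ h + ψ h) := by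
  obtain ⟨ι, _, u, v, h1⟩ := h1
  obtain ⟨κ, _, u', v', h2⟩ := h2
  refine ⟨ι ⊕ κ, inferInstance, Sum.elim u u', Sum.elim v v', fun h => ?_⟩
  change φ h + ψ h = _
  rw [Fintype.sum_sum_type, h1, h2]
  rfl

private theorem EPGood.sum {A X : Type} [CommRing A] [Ring X] [Algebra A X] {T : X →ₗ[A] A}
    {m : ℕ} {φ : Fin m → X → X} (h1 : ∀ i, EPGood T (φ i)) :
    EPGood T (fun h => ∑ i, φ i h) := by
  choose ι hι u v h1 using h1
  refine ⟨Σ i, ι i, inferInstance, fun p => u p.1 p.2, fun p => v p.1 p.2, fun h => ?_⟩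
  rw [Fintype.sum_sigma]
  exact Finset.sum_congr rfl fun i _ => h1 i h

private theorem ep_exists_r {A B : Type} [CommRing A] [CommRing B] (P : Fin 3 → A[X]) (f : A →+* B)
    (ρ : B →+ A) (hρ : ∀ a b, ρ (f a * b) = a * ρ b) :
    ∃ r : BMM.HA B (BMM.mapP P f) →+ BMM.HA A P,
      ∀ b h, r (b • BMM.mapH P f h) = ρ b • h := by
  let _ := f.toAlgebra
  obtain ⟨e, he⟩ := exists_tens (A := A) (B := B) P
  let R : TensorProduct A B (BMM.HA A P) →+ BMM.HA A P :=
    TensorProduct.liftAddHom ((smulAddHom A (BMM.HA A P)).comp ρ) (by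
      intro a b n
      change ρ (a • b) • n = ρ b • (a • n)
      rw [Algebra.smul_def]
      change ρ (f a * b) • n = ρ b • (a • n)
      rw [hρ, mul_comm, mul_smul])
  refine ⟨R.comp e.toLinearMap.toAddMonoidHom, fun b h => ?_⟩
  change R (e (b • BMM.mapH P (algebraMap A B) h)) = ρ b • h
  rw [map_smul, he, TensorProduct.smul_tmul', smul_eq_mul, mul_one]
  exact TensorProduct.liftAddHom_tmul _ _ _ _

theorem frob_pull {A B : Type} [CommRing A] [CommRing B] (P : Fin 3 → A[X]) (f : A →+* B)
    (ρ : B →+ A) (hρ : ∀ a b, ρ (f a * b) = a * ρ b) (hρ1 : ρ 1 = 1)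
    (T' : BMM.HA B (BMM.mapP P f) →ₗ[B] B) (hF : Frob T') (hc : ∀ h h', T' (h * h') = T' (h' * h))
    (hr : ∀ h : BMM.HA A P, T' (BMM.mapH P f h) ∈ f.range) :
    ∃ T : BMM.HA A P →ₗ[A] A, Frob T ∧ (∀ h h', T (h * h') = T (h' * h)) ∧
      ∀ h, f (T h) = T' (BMM.mapH P f h) := by
  obtain ⟨r, hr1⟩ := ep_exists_r P f ρ hρ
  let T : BMM.HA A P →ₗ[A] A :=
    { toFun := fun h => ρ (T' (BMM.mapH P f h))
      map_add' := fun h h' => by rw [map_add, map_add, map_add]
      map_smul' := fun c h => by
        rw [BMM.mapH_smul, map_smul, smul_eq_mul, hρ]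
        rfl }
  have hT : ∀ h, T h = ρ (T' (BMM.mapH P f h)) := fun h => rfl
  have hfT : ∀ h, f (T h) = T' (BMM.mapH P f h) := by
    intro h
    obtain ⟨a, ha⟩ := hr h
    have h1 := hρ a 1
    rw [mul_one, hρ1, mul_one] at h1
    rw [hT, ← ha, h1]
  have hsemi : ∀ (t : A) (w : BMM.HA B (BMM.mapP P f)), r (f t • w) = t • r w := by
    intro t w
    have hw : w ∈ Submodule.span B (Set.range (BMM.mapH P f)) := by
      rw [span_mapH]; trivial
    suffices h : ∀ (c : B), r (f t • c • w) = t • r (c • w) by
      have := h 1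
      rwa [one_smul] at this
    induction hw using Submodule.span_induction with
    | mem y hy =>
      obtain ⟨a, rfl⟩ := hy
      intro c
      rw [smul_smul, hr1, hr1, hρ, mul_smul]
    | zero => intro c; simp
    | add y z _ _ hy hz =>
      intro c
      rw [smul_add, smul_add, map_add, map_add, hy, hz, smul_add]
    | smul d y _ hy =>
      intro c
      rw [smul_smul c d y]
      exact hy _
  have hgood : ∀ u v : BMM.HA B (BMM.mapP P f),
      EPGood T (fun h => r (T' (BMM.mapH P f h * u) • v)) := by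
    intro u
    have hu : u ∈ Submodule.span B (Set.range (BMM.mapH P f)) := by
      rw [span_mapH]; trivial
    induction hu using Submodule.span_induction with
    | mem y hy =>
      obtain ⟨a, rfl⟩ := hy
      intro v
      refine ⟨Unit, inferInstance, fun _ => a, fun _ => r v, fun h => ?_⟩
      change r (T' (BMM.mapH P f h * BMM.mapH P f a) • v) = _
      rw [← map_mul (BMM.mapH P f), ← hfT, hsemi]
      simp
    | zero =>
      intro v
      refine ⟨Empty, inferInstance, fun e => e.elim, fun e => e.elim, fun h => ?_⟩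
      simp
    | add y z _ _ hy hz =>
      intro v
      have h1 := (hy v).add (hz v)
      have h2 : (fun h => r (T' (BMM.mapH P f h * (y + z)) • v)) =
          fun h => r (T' (BMM.mapH P f h * y) • v) + r (T' (BMM.mapH P f h * z) • v) := by
        funext h
        rw [mul_add, map_add, add_smul, map_add]
      rw [h2]
      exact h1
    | smul d y _ hy =>
      intro v
      have h2 : (fun h => r (T' (BMM.mapH P f h * (d • y)) • v)) =
          fun h => r (T' (BMM.mapH P f h * y) • (d • v)) := by
        funext h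
        rw [mul_smul_comm, LinearMap.map_smul T', smul_smul, smul_eq_mul, mul_comm]
      rw [h2]
      exact hy _
  refine ⟨T, ?_, fun h h' => by rw [hT, hT, map_mul (BMM.mapH P f), map_mul (BMM.mapH P f), hc], hfT⟩
  obtain ⟨m, u, v, huv⟩ := hF
  have h1 : EPGood T (fun h => ∑ i, r (T' (BMM.mapH P f h * u i) • v i)) :=
    EPGood.sum (φ := fun i h => r (T' (BMM.mapH P f h * u i) • v i)) fun i => hgood (u i) (v i)
  obtain ⟨ι, _, u', v', h1⟩ := h1
  refine ⟨Fintype.card ι, fun i => u' ((Fintype.equivFin ι).symm i),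
    fun i => v' ((Fintype.equivFin ι).symm i), fun h => ?_⟩
  have h2 : h = r (BMM.mapH P f h) := by
    have := hr1 1 h
    rw [one_smul, hρ1, one_smul] at this
    exact this.symm
  rw [Equiv.sum_comp (Fintype.equivFin ι).symm (fun i => T (h * u' i) • v' i), ← h1]
  conv_lhs => rw [h2, huv (BMM.mapH P f h)]
  rw [map_sum]

end SYM
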