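import Pool.Agent.Lib.MP_b1ea0f_al.EXTens

/-
MP_b1ea0f_al, module EXPush (about 70 lines).  A symmetrising trace after change of the base ring.

Let letI := f.toAlgebra (so algebraMap A B = f, RingHom.algebraMap_toAlgebra), e from exists_tens.
T' := (TensorProduct.rid-like map B ⊗[A] A → B) ∘ (T.baseChange B) ∘ e, i.e. T' (mapH h) = f (T h)
(LinearMap.baseChange_tmul; the map B ⊗[A] A →ₗ[B] B is Algebra.TensorProduct.rid or
TensorProduct.AlgebraTensorModule.rid A B B: b ⊗ a ↦ a • b).
comm: both sides are B-bilinear, and by span_mapH it is enough to take h = mapH u, h' = mapH v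
(Submodule.span_induction twice): T' (mapH (u * v)) = f (T (u * v)).
Frob: if h = Σ T(h * u_i) • v_i for h ∈ HA A P, take mapH u_i, mapH v_i: both sides of
h' = Σ T'(h' * mapH u_i) • mapH v_i are B-linear in h'; for h' = mapH h: T' (mapH (h * u_i)) =
f (T (h * u_i)) and mapH (r • v) = f r • mapH v (BMM.mapH_smul), map_sum.
-/

namespace SYM
open Polynomial Module TensorProduct

theorem frob_push {A B : Type} [CommRing A] [CommRing B] (P : Fin 3 → A[X]) (f : A →+* B)
    (T : BMM.HA A P →ₗ[A] A) (hF : Frob T) (hc : ∀ h h', T (h * h') = T (h' * h)) :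
    ∃ T' : BMM.HA B (BMM.mapP P f) →ₗ[B] B, Frob T' ∧ (∀ h h', T' (h * h') = T' (h' * h)) ∧
      ∀ h, T' (BMM.mapH P f h) = f (T h) := by
  let _ : Algebra A B := f.toAlgebra
  obtain ⟨e, he⟩ := exists_tens (A := A) (B := B) P
  let r : TensorProduct A B A →ₗ[B] B := (TensorProduct.AlgebraTensorModule.rid A B B).toLinearMap
  let T' : BMM.HA B (BMM.mapP P f) →ₗ[B] B := r ∘ₗ (T.baseChange B) ∘ₗ e.toLinearMap
  have h1 : ∀ h, T' (BMM.mapH P f h) = f (T h) := by
    intro h
    have h2 : e (BMM.mapH P f h) = 1 ⊗ₜ h := he h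
    change r (T.baseChange B (e (BMM.mapH P f h))) = _
    rw [h2, LinearMap.baseChange_tmul]
    change (TensorProduct.AlgebraTensorModule.rid A B B) (1 ⊗ₜ T h) = _
    rw [TensorProduct.AlgebraTensorModule.rid_tmul, Algebra.smul_def, mul_one]
    rfl
  have hs := span_mapH P f
  have hind : ∀ (p : BMM.HA B (BMM.mapP P f) → Prop), (∀ h, p (BMM.mapH P f h)) → p 0 →
      (∀ u v, p u → p v → p (u + v)) → (∀ (c : B) u, p u → p (c • u)) → ∀ u, p u := by
    intro p h2 h3 h4 h5 u
    have hu : u ∈ Submodule.span B (Set.range (BMM.mapH P f)) := by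
      rw [hs]
      trivial
    induction hu using Submodule.span_induction with
    | mem u hu =>
      obtain ⟨h, rfl⟩ := hu
      exact h2 h
    | zero => exact h3
    | add u v _ _ hu hv => exact h4 u v hu hv
    | smul c u _ hu => exact h5 c u hu
  refine ⟨T', ?_, ?_, h1⟩
  · obtain ⟨m, u, v, huv⟩ := hF
    refine ⟨m, fun i => BMM.mapH P f (u i), fun i => BMM.mapH P f (v i), ?_⟩
    refine hind _ ?_ ?_ ?_ ?_
    · intro h
      conv_lhs => rw [huv h, map_sum]
      refine Finset.sum_congr rfl fun i _ => ?_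
      rw [BMM.mapH_smul, ← map_mul, h1]
    · simp
    · intro a b ha hb
      conv_lhs => rw [ha, hb]
      rw [← Finset.sum_add_distrib]
      refine Finset.sum_congr rfl fun i _ => ?_
      rw [add_mul, map_add, add_smul]
    · intro c a ha
      conv_lhs => rw [ha]
      rw [Finset.smul_sum]
      refine Finset.sum_congr rfl fun i _ => ?_
      rw [smul_mul_assoc, map_smul, smul_assoc]
  · refine hind _ ?_ ?_ ?_ ?_
    · intro h
      refine hind _ ?_ ?_ ?_ ?_
      · intro h'
        rw [← map_mul, ← map_mul, h1, h1, hc]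
      · rw [mul_zero, zero_mul]
      · intro a b ha hb
        rw [mul_add, add_mul, map_add, map_add, ha, hb]
      · intro c a ha
        rw [mul_smul_comm, smul_mul_assoc, map_smul, map_smul, ha]
    · intro h'
      rw [mul_zero, zero_mul]
    · intro a b ha hb h'
      rw [mul_add, add_mul, map_add, map_add, ha, hb]
    · intro c a ha h'
      rw [mul_smul_comm, smul_mul_assoc, map_smul, map_smul, ha]

end SYM
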