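import Pool.Agent.Lib.MP_b1ea0f_al.EXZo

/-
MP_b1ea0f_al, module EXRet (about 90 lines).  Retraction of dbl : Laurent σ → LO σ.

dbl (single e m) = single (2 • e) (m : ZO)   (prove this first: dbl is a ring hom; single e m =
m • ∏ var p ^ (e p); easier: by definition dbl = Laurent.lift y with y p = LO.var p ^ 2 and
Laurent.lift y (single e m) = m • (e.prod fun p k => (y p) ^ k : unit) by AddMonoidAlgebra.lift_single;
and (e.prod fun p k => (LO.var p ^ 2) ^ k) has value single (2 • e) 1: Finsupp.induction on e, or: both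
sides are monoid homs Multiplicative (σ →₀ ℤ) →* LO σ agreeing on single p m).
dbl_retract: let ρ₀ from ZO.exists_retract.  For a finitely supported s : (σ →₀ ℤ) →₀ ZO put
ρ s := Σ_e single e (ρ₀ (s (2 • e))): i.e. ρ s = (Finsupp.mapRange ρ₀ s).comapDomain (2 • ·) (injective).
It is additive.  ρ (dbl r * s) = r * ρ s: additive in r and s, so check r = single e m, s = single e' o:
dbl r * s = single (2e + e') (m o); if e' = 2e'' both sides are single (e + e'') (m ρ₀ o) (ρ₀ (m * o) =
m * ρ₀ o as ρ₀ is additive: map_zsmul), and if e' is not of the form 2e'' both sides are 0.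
ρ 1 = 1 as ρ₀ 1 = 1, 1 = single 0 1.
dbl_injective: ρ (dbl r) = ρ (dbl r * 1) = r.
-/

namespace SYM
open Polynomial Module BraidData

private theorem var_eq {σ : Type} (p : σ) : (LO.var p : (LO σ)ˣ) =
    MonoidHom.toHomUnits (AddMonoidAlgebra.of ZO (σ →₀ ℤ))
      (Multiplicative.ofAdd (Finsupp.single p (1 : ℤ))) := by
  apply Units.ext
  rfl

private theorem monHom_dbl {σ : Type} (e : σ →₀ ℤ) :
    Laurent.monHom (fun p => (LO.var p : (LO σ)ˣ) ^ 2) (Multiplicative.ofAdd e) =
      AddMonoidAlgebra.single (2 • e) (1 : ZO) := by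
  induction e using Finsupp.induction_linear with
  | zero =>
    rw [ofAdd_zero, map_one, smul_zero, AddMonoidAlgebra.one_def]
  | add f g hf hg =>
    rw [ofAdd_add, map_mul, hf, hg, AddMonoidAlgebra.single_mul_single, smul_add, mul_one]
  | single p k =>
    show (((Finsupp.single p k).prod fun i e => ((LO.var i : (LO σ)ˣ) ^ 2) ^ e : (LO σ)ˣ) : LO σ) = _
    rw [Finsupp.prod_single_index (zpow_zero _), var_eq, ← map_pow, ← map_zpow,
      MonoidHom.coe_toHomUnits, AddMonoidAlgebra.of_apply]
    congr 1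
    rw [toAdd_zpow, toAdd_pow, toAdd_ofAdd]
    ext q
    simp only [Finsupp.smul_apply, smul_eq_mul, nsmul_eq_mul]
    by_cases hq : p = q
    · subst hq; simp; ring
    · simp [Finsupp.single_eq_of_ne' hq]

private theorem dbl_single {σ : Type} (e : σ →₀ ℤ) (m : ℤ) :
    dbl (AddMonoidAlgebra.single e m : Laurent σ) =
      AddMonoidAlgebra.single (2 • e) (m : ZO) := by
  have h : dbl (AddMonoidAlgebra.single e m : Laurent σ) =
      m • Laurent.monHom (fun p => (LO.var p : (LO σ)ˣ) ^ 2) (Multiplicative.ofAdd e) :=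
    AddMonoidAlgebra.lift_single _ _ _
  rw [h, monHom_dbl, AddMonoidAlgebra.smul_single, zsmul_one]

theorem dbl_retract (σ : Type) : ∃ ρ : LO σ →+ Laurent σ,
    (∀ (r : Laurent σ) (s : LO σ), ρ (dbl r * s) = r * ρ s) ∧ ρ 1 = 1 := by
  classical
  obtain ⟨ρ₀, h1⟩ := ZO.exists_retract
  have hinj : Function.Injective (fun e : σ →₀ ℤ => 2 • e) := by
    intro a b hab
    ext q
    have h := DFunLike.congr_fun hab q
    simp only [Finsupp.smul_apply, nsmul_eq_mul] at h
    exact mul_left_cancel₀ (by norm_num) h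
  let ρ : LO σ →+ Laurent σ :=
    (AddMonoidAlgebra.coeffAddEquiv (R := ℤ) (M := σ →₀ ℤ)).symm.toAddMonoidHom.comp
      ((Finsupp.comapDomain.addMonoidHom hinj).comp
        ((Finsupp.mapRange.addMonoidHom ρ₀).comp
          (AddMonoidAlgebra.coeffAddEquiv (R := ZO) (M := σ →₀ ℤ)).toAddMonoidHom))
  have hρ : ∀ (s : LO σ) (e : σ →₀ ℤ), (ρ s).coeff e = ρ₀ (s.coeff (2 • e)) := fun s e => rfl
  refine ⟨ρ, ?_, ?_⟩
  · intro r s
    induction r using AddMonoidAlgebra.induction_linear with
    | zero => rw [map_zero, zero_mul, zero_mul, map_zero]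
    | add f g hf hg => rw [map_add, add_mul, map_add, hf, hg, add_mul]
    | single e m =>
      rw [dbl_single]
      apply AddMonoidAlgebra.coeff_injective
      ext x
      rw [hρ, AddMonoidAlgebra.coeff_single_mul_apply, AddMonoidAlgebra.coeff_single_mul_apply, hρ,
        smul_add, smul_neg, ← zsmul_eq_mul, map_zsmul, smul_eq_mul]
  · apply AddMonoidAlgebra.coeff_injective
    ext x
    rw [hρ, AddMonoidAlgebra.one_def, AddMonoidAlgebra.one_def, AddMonoidAlgebra.coeff_single,
      AddMonoidAlgebra.coeff_single]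
    by_cases hx : x = 0
    · subst hx
      rw [smul_zero, Finsupp.single_eq_same, Finsupp.single_eq_same, h1]
    · have h2 : (2 : ℕ) • x ≠ 0 := fun h => hx (hinj (by simpa using h))
      rw [Finsupp.single_eq_of_ne h2, Finsupp.single_eq_of_ne hx, map_zero]

theorem dbl_injective (σ : Type) : Function.Injective (dbl : Laurent σ →+* LO σ) := by
  obtain ⟨ρ, h, h1⟩ := dbl_retract σ
  intro r r' hr
  have h2 : ∀ r, ρ (dbl r) = r := fun r => by
    have := h r 1
    rwa [mul_one, h1, mul_one] at this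
  rw [← h2 r, ← h2 r', hr]

end SYM
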