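import Pool.Agent.Lib.MP_b1ea0f_al.Defs3

/-
MP_b1ea0f_al, module EXTens (about 70 lines).  Base change of the algebras BMM.HA (library BMM, Defs).

exists_tens: the triple g x := 1 ⊗ₜ gen A P x of the B-algebra B ⊗[A] HA A P satisfies the relations with
the polynomials (P x).map (algebraMap A B): the cyclic relations by Algebra.TensorProduct.tmul_mul_tmul;
aeval (1 ⊗ u) ((P x).map (algebraMap A B)) = aeval (1 ⊗ u) (P x) (aeval_map_algebraMap) =
1 ⊗ aeval u (P x) (aeval_algHom_apply for Algebra.TensorProduct.includeRight).  e := BMM.lift g hg.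
e (mapH h) = 1 ⊗ₜ h: HA.induction on h (algebraMap: mapH_algebraMap, e (algebraMap B _ (algebraMap A B r)) =
algebraMap .. ⊗ 1 = 1 ⊗ algebraMap r).
span_mapH: the set {b • mapH h} spans: the span S is stable under multiplication
(b • mapH h * (b' • mapH h') = (b b') • mapH (h h')), contains 1 and the generators; use
BMM.HA.induction for HA B (mapP P f) with p u := u ∈ S (hmul by Submodule.span_induction twice or
Submodule.span_mul_span).
-/

namespace SYM
open Polynomial Module TensorProduct

theorem exists_tens {A B : Type} [CommRing A] [CommRing B] [Algebra A B] (P : Fin 3 → A[X]) :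
    ∃ e : BMM.HA B (BMM.mapP P (algebraMap A B)) →ₐ[B] TensorProduct A B (BMM.HA A P),
      ∀ h, e (BMM.mapH P (algebraMap A B) h) = 1 ⊗ₜ h := by
  have ht := BMM.isTriple_gen A P
  have hg : BMM.IsTriple (BMM.mapP P (algebraMap A B))
      (fun x => (1 : B) ⊗ₜ[A] BMM.gen A P x) := by
    refine ⟨?_, ?_, fun x => ?_⟩
    · simp only [Algebra.TensorProduct.tmul_mul_tmul, mul_one]
      rw [ht.cyc₁]
    · simp only [Algebra.TensorProduct.tmul_mul_tmul, mul_one]
      rw [ht.cyc₂]
    · rw [aeval_map_algebraMap]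
      have h1 : (1 : B) ⊗ₜ[A] BMM.gen A P x =
          (Algebra.TensorProduct.includeRight : BMM.HA A P →ₐ[A] TensorProduct A B (BMM.HA A P))
            (BMM.gen A P x) := rfl
      rw [h1, aeval_algHom_apply, ht.pol x, map_zero]
  refine ⟨BMM.lift _ hg, fun h => ?_⟩
  induction h using BMM.HA.induction with
  | h1 r =>
    rw [BMM.mapH_algebraMap, AlgHom.commutes]
    rw [Algebra.TensorProduct.algebraMap_apply, Algebra.algebraMap_self, RingHom.id_apply,
      Algebra.algebraMap_eq_smul_one, Algebra.algebraMap_eq_smul_one, smul_tmul]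
  | hg x =>
    rw [BMM.mapH_gen, BMM.lift_gen]
  | hadd u v hu hv =>
    rw [map_add, map_add, hu, hv, tmul_add]
  | hmul u v hu hv =>
    rw [map_mul, map_mul, hu, hv, Algebra.TensorProduct.tmul_mul_tmul, mul_one]

theorem span_mapH {A B : Type} [CommRing A] [CommRing B] (P : Fin 3 → A[X]) (f : A →+* B) :
    Submodule.span B (Set.range (BMM.mapH P f)) = ⊤ := by
  rw [eq_top_iff]
  intro u _
  induction u using BMM.HA.induction with
  | h1 r =>
    rw [Algebra.algebraMap_eq_smul_one]
    exact Submodule.smul_mem _ _ (Submodule.subset_span ⟨1, map_one _⟩)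
  | hg x => exact Submodule.subset_span ⟨BMM.gen A P x, BMM.mapH_gen P f x⟩
  | hadd u v hu hv => exact Submodule.add_mem _ (hu trivial) (hv trivial)
  | hmul u v hu hv =>
    have h1 := Submodule.mul_mem_mul (hu trivial) (hv trivial)
    rw [Submodule.span_mul_span] at h1
    refine Submodule.span_mono ?_ h1
    rintro _ ⟨_, ⟨a, rfl⟩, _, ⟨b, rfl⟩, rfl⟩
    exact ⟨a * b, map_mul _ _ _⟩

end SYM
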