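import Pool.Agent.Lib.MP_b1ea0f_al.EXInv
import Pool.Agent.Lib.MP_b1ea0f_al.EXPush
import Pool.Agent.Lib.MP_b1ea0f_al.EXPull
import Pool.Agent.Lib.MP_b1ea0f_al.EXRet

/-
MP_b1ea0f_al, module EXTr (about 90 lines).  The trace on the star algebra over R(W).

Take x from exists_xE.  frob_push for P = P n (XX n), f = Laurent.lift x and T = S.T (H n x is BMM.HA k (P n x))
gives T₁ on BMM.HA (LO D.Par) (BMM.mapP (P n (XX n)) (Laurent.lift x)).  This algebra is, by mapP_xE and P_xE,
HA (LO D.Par) Q with Q = BMM.mapP (PE E) dbl.  To avoid casts prove the private lemma: for all Q with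
hQ : Q = BMM.mapP (P n (XX n)) (Laurent.lift x) there is T₁ : BMM.HA _ Q →ₗ _ with Frob, comm and
T₁ (a word w in the generators gen _ Q) = Laurent.lift x (S.T (wd w)) (subst hQ).  Words in an algebra
HA B Q: for hQu : ∀ g, IsUnit ((Q g).coeff 0) put wQ := FreeGroup.lift (fun g => (BMM.isUnit_gen hQu g).unit);
mapH (word) = word: BMM.mapH maps (wd w : unit) to wQ w: two group homs FreeGroup (Fin 3) →* (HA B Q)ˣ
(Units.map mapH ∘ wd and wQ) agree on generators (FreeGroup.ext_hom).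
frob_pull for P = PE E, f = dbl, ρ from dbl_retract, T' = T₁: need T₁ (mapH h) ∈ dbl.range for all h ∈ AE E:
the set of such h is an R(W)-submodule (T₁ (mapH (r • h)) = dbl r * ..) and contains all words wE E w
(lift_mem_range); the words span AE E: exists by span_wE (the span of the words is stable under
multiplication, contains 1 and the generators; BMM.HA.induction).
TrE.one: dbl (T 1) = Laurent.lift x (S.T 1) = 1 = dbl 1 (word 1, S.one), dbl_injective.
-/

namespace SYM
open Polynomial Module BraidData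

private theorem isUnit_P {n : ℕ} {k : Type*} [CommRing k] (x : J n → kˣ) (g : Fin 3) :
    IsUnit ((P n x g).coeff 0) := by
  rw [Polynomial.coeff_zero_eq_eval_zero, P, Polynomial.eval_prod, IsUnit.prod_univ_iff]
  intro j
  rw [Polynomial.eval_sub, Polynomial.eval_X, Polynomial.eval_C, zero_sub, IsUnit.neg_iff]
  exact Units.isUnit _

/-- words in the algebra `HA B Q` -/
private noncomputable def wQ {B : Type*} [CommRing B] {Q : Fin 3 → B[X]}
    (hQ : ∀ g, IsUnit ((Q g).coeff 0)) : FreeGroup (Fin 3) →* (BMM.HA B Q)ˣ :=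
  FreeGroup.lift fun g => (BMM.isUnit_gen hQ g).unit

private theorem mapH_word {A B : Type*} [CommRing A] [CommRing B] (P : Fin 3 → A[X])
    (f : A →+* B) (hP : ∀ g, IsUnit ((P g).coeff 0))
    (hQ : ∀ g, IsUnit ((BMM.mapP P f g).coeff 0)) (w : FreeGroup (Fin 3)) :
    BMM.mapH P f ((wQ hP w : (BMM.HA A P)ˣ) : BMM.HA A P) =
      ((wQ hQ w : (BMM.HA B (BMM.mapP P f))ˣ) : BMM.HA B (BMM.mapP P f)) := by
  have h : (Units.map (BMM.mapH P f : BMM.HA A P →* BMM.HA B (BMM.mapP P f))).comp (wQ hP) =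
      wQ hQ := by
    apply FreeGroup.ext_hom
    intro g
    apply Units.ext
    rw [MonoidHom.comp_apply, Units.coe_map, wQ, wQ, FreeGroup.lift_apply_of,
      FreeGroup.lift_apply_of, IsUnit.unit_spec, IsUnit.unit_spec]
    exact BMM.mapH_gen P f g
  exact congrArg (fun φ : FreeGroup (Fin 3) →* (BMM.HA B (BMM.mapP P f))ˣ =>
    ((φ w : (BMM.HA B (BMM.mapP P f))ˣ) : BMM.HA B (BMM.mapP P f))) h

private theorem push {B : Type} [CommRing B] {n : ℕ} (S : StarTrace n) (x : J n → Bˣ)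
    (Q : Fin 3 → B[X]) (hQ : Q = BMM.mapP (P n (XX n)) (Laurent.lift x))
    (hQu : ∀ g, IsUnit ((Q g).coeff 0)) :
    ∃ T₁ : BMM.HA B Q →ₗ[B] B, Frob T₁ ∧ (∀ h h', T₁ (h * h') = T₁ (h' * h)) ∧
      ∀ w : FreeGroup (Fin 3), T₁ ((wQ hQu w : (BMM.HA B Q)ˣ) : BMM.HA B Q) =
        Laurent.lift x (S.T (wd n (XX n) w : (H n (XX n))ˣ)) := by
  subst hQ
  obtain ⟨T₁, hF, hc, h⟩ := frob_push (P n (XX n)) (Laurent.lift x) S.T S.frob S.comm
  refine ⟨T₁, hF, hc, fun w => ?_⟩
  rw [← h, ← mapH_word (P n (XX n)) (Laurent.lift x) (isUnit_P (XX n)) hQu w]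
  rfl

theorem span_wE {D : BraidData} (E : Emb D) :
    Submodule.span D.R (Set.range fun w : FreeGroup (Fin 3) => ((wE E w : (AE E)ˣ) : AE E)) = ⊤ := by
  set M := Submodule.span D.R (Set.range fun w : FreeGroup (Fin 3) => ((wE E w : (AE E)ˣ) : AE E))
    with hM
  have h1 : (1 : AE E) ∈ M := by
    refine Submodule.subset_span ⟨1, ?_⟩
    change ((wE E 1 : (AE E)ˣ) : AE E) = 1
    rw [map_one, Units.val_one]
  have hMM : M * M ≤ M := by
    rw [hM, Submodule.span_mul_span]
    refine Submodule.span_mono ?_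
    rintro _ ⟨_, ⟨w, rfl⟩, _, ⟨w', rfl⟩, rfl⟩
    refine ⟨w * w', ?_⟩
    change ((wE E (w * w') : (AE E)ˣ) : AE E) = (wE E w : (AE E)ˣ) * (wE E w' : (AE E)ˣ)
    rw [map_mul, Units.val_mul]
  rw [eq_top_iff]
  intro u _
  induction u using BMM.HA.induction with
  | h1 r =>
    rw [Algebra.algebraMap_eq_smul_one]
    exact M.smul_mem _ h1
  | hg g => exact Submodule.subset_span ⟨FreeGroup.of g, wE_of E g⟩
  | hadd u v hu hv => exact M.add_mem (hu trivial) (hv trivial)
  | hmul u v hu hv => exact hMM (Submodule.mul_mem_mul (hu trivial) (hv trivial))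

theorem exists_TrE {D : BraidData} (E : Emb D) (S : StarTrace E.n) : Nonempty (TrE E S) := by
  obtain ⟨x, hx⟩ := exists_xE E
  obtain ⟨ρ, hρ, hρ1⟩ := dbl_retract D.Par
  have hQu : ∀ g, IsUnit ((BMM.mapP (PE E) (dbl : D.R →+* LO D.Par) g).coeff 0) := by
    intro g
    have h := (isUnit_coeff_PE E g).map (dbl : D.R →+* LO D.Par)
    rw [← Polynomial.coeff_map] at h
    exact h
  obtain ⟨T₁, hF, hc, hw⟩ := push S x (BMM.mapP (PE E) (dbl : D.R →+* LO D.Par))
    ((P_xE E x hx).symm.trans (mapP_xE x)) hQu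
  have hr : ∀ h : AE E, T₁ (BMM.mapH (PE E) (dbl : D.R →+* LO D.Par) h) ∈
      (dbl : D.R →+* LO D.Par).range := by
    intro h
    have hh : h ∈ Submodule.span D.R
        (Set.range fun w : FreeGroup (Fin 3) => ((wE E w : (AE E)ˣ) : AE E)) := by
      rw [span_wE]
      trivial
    induction hh using Submodule.span_induction with
    | mem u hu =>
      obtain ⟨w, rfl⟩ := hu
      have h2 := mapH_word (PE E) (dbl : D.R →+* LO D.Par) (isUnit_coeff_PE E) hQu w
      have h3 := lift_mem_range E S x hx w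
      rw [← hw w, ← h2] at h3
      exact h3
    | zero =>
      rw [map_zero, map_zero]
      exact Subring.zero_mem _
    | add u v _ _ hu hv =>
      rw [map_add, map_add]
      exact Subring.add_mem _ hu hv
    | smul r u _ hu =>
      rw [BMM.mapH_smul, map_smul, smul_eq_mul]
      exact Subring.mul_mem _ ⟨r, rfl⟩ hu
  obtain ⟨T, hFT, hcT, hT⟩ := frob_pull (PE E) (dbl : D.R →+* LO D.Par) ρ hρ hρ1 T₁ hF hc hr
  refine ⟨{ x := x, isLeg := hx, T := T, frob := hFT, comm := hcT, word := fun w => ?_ }⟩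
  rw [hT, ← hw w, ← mapH_word (PE E) (dbl : D.R →+* LO D.Par) (isUnit_coeff_PE E) hQu w]
  rfl

theorem TrE.one {D : BraidData} {E : Emb D} {S : StarTrace E.n} (t : TrE E S) : t.T 1 = 1 := by
  apply dbl_injective
  have h := t.word 1
  have h1 : ((wE E 1 : (AE E)ˣ) : AE E) = 1 := by rw [map_one, Units.val_one]
  have h2 : ((wd E.n (XX E.n) 1 : (H E.n (XX E.n))ˣ) : H E.n (XX E.n)) = 1 := by
    rw [map_one, Units.val_one]
  rw [h1, h2, S.one] at h
  rw [h]
  exact (map_one (Laurent.lift t.x)).trans (map_one (dbl : D.R →+* LO D.Par)).symm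

end SYM
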