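import Pool.Agent.Lib.MP_b1ea0f_al.DefsD

/-
MP_b1ea0f_al, module EXZo (about 90 lines).  The ring ZO = AdjoinRoot (cyclotomic 60 ℤ), ze = its root
(DefsD: IsDomain, CharZero, isPrimitiveRoot_ze, ZO.lift, ZO.hom_ext are there).

ZO.fixed.  For every b ∈ primitiveRoots 60 ZO there is g : ZO →+* ZO with g ze = b
(ZO.lift b (IsPrimitiveRoot.isRoot_cyclotomic ..)).  Write o = AdjoinRoot.mk _ q; replace q by
q %ₘ cyclotomic 60 ℤ (cyclotomic.monic; AdjoinRoot.mk (q %ₘ f) = mk q: AdjoinRoot.mk_eq_mk and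
Polynomial.modByMonic_add_div), so that natDegree q < 16 (or degree q < degree (cyclotomic 60 ℤ) = 16,
degree_cyclotomic, totient 60 = 16 by decide).  For each ring hom g one has
g (mk q) = eval (g ze) (q.map (Int.castRingHom ZO)) (both sides are ring homs in q: compose
AdjoinRoot.mk with g and use Polynomial.ringHom_ext / eval₂ , or g (mk q) = g (aeval ze q) with
AdjoinRoot.aeval_eq).  So F := q.map (Int.castRingHom ZO) - C o vanishes at all b ∈ primitiveRoots 60 ZO,
a Finset of cardinality totient 60 = 16 (IsPrimitiveRoot.card_primitiveRoots isPrimitiveRoot_ze), and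
degree F < 16: F = 0 by Polynomial.eq_zero_of_degree_lt_of_eval_finset_eq_zero (or
Polynomial.card_roots'; finish with the coefficient 0).  Compare the coefficients of index 0:
(q.coeff 0 : ZO) = o.

ZO.exists_retract.  (AdjoinRoot.powerBasis' (cyclotomic.monic 60 ℤ)) is a power basis over ℤ of dim
natDegree = 16 > 0; take ρ = the coordinate of index ⟨0, _⟩ of its basis (Basis.coord, as AddMonoidHom);
the basis vector of index 0 is gen ^ 0 = 1 (PowerBasis.basis_eq_pow or coe_basis), so ρ 1 = 1.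
-/

namespace SYM
open Polynomial Module BraidData

private theorem hom_mk (g : ZO →+* ZO) (q : ℤ[X]) :
    g (AdjoinRoot.mk (cyclotomic 60 ℤ) q) = eval (g ze) (q.map (Int.castRingHom ZO)) := by
  have h : g.comp (AdjoinRoot.mk (cyclotomic 60 ℤ)) =
      eval₂RingHom (Int.castRingHom ZO) (g ze) := by
    apply Polynomial.ringHom_ext'
    · exact RingHom.ext_int _ _
    · rw [RingHom.comp_apply, AdjoinRoot.mk_X, coe_eval₂RingHom, eval₂_X]
      rfl
  have h1 := RingHom.congr_fun h q
  rw [RingHom.comp_apply, coe_eval₂RingHom, eval₂_eq_eval_map] at h1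
  exact h1

theorem ZO.fixed (o : ZO) (h : ∀ g : ZO →+* ZO, g o = o) : ∃ m : ℤ, o = (m : ZO) := by
  obtain ⟨q0, hq0⟩ := AdjoinRoot.mk_surjective o
  have hmon : (cyclotomic 60 ℤ).Monic := cyclotomic.monic 60 ℤ
  have hdeg : (cyclotomic 60 ℤ).natDegree = 16 := by
    rw [natDegree_cyclotomic, show Nat.totient 60 = 16 by decide]
  obtain ⟨q, hq, hqd⟩ : ∃ q : ℤ[X], AdjoinRoot.mk (cyclotomic 60 ℤ) q = o ∧ q.natDegree < 16 := by
    refine ⟨q0 %ₘ cyclotomic 60 ℤ, ?_, ?_⟩
    · rw [← hq0, AdjoinRoot.mk_eq_mk]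
      refine ⟨-(q0 /ₘ cyclotomic 60 ℤ), ?_⟩
      have h1 := modByMonic_add_div q0 (cyclotomic 60 ℤ)
      linear_combination h1
    · rw [← hdeg]
      refine natDegree_modByMonic_lt q0 hmon ?_
      intro h1
      rw [h1, natDegree_one] at hdeg
      omega
  set F : ZO[X] := q.map (Int.castRingHom ZO) - C o with hF
  have hF0 : F = 0 := by
    refine eq_zero_of_natDegree_lt_card_of_eval_eq_zero' F (primitiveRoots 60 ZO) ?_ ?_
    · intro b hb
      have hb' : IsPrimitiveRoot b 60 := (mem_primitiveRoots (by norm_num)).1 hb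
      have h1 := hom_mk (ZO.lift b (hb'.isRoot_cyclotomic (by norm_num))) q
      rw [hq, h, ZO.lift_ze] at h1
      rw [hF, eval_sub, eval_C, ← h1, sub_self]
    · rw [isPrimitiveRoot_ze.card_primitiveRoots, show Nat.totient 60 = 16 by decide]
      refine lt_of_le_of_lt (natDegree_sub_le _ _) ?_
      rw [natDegree_C, max_lt_iff]
      exact ⟨lt_of_le_of_lt natDegree_map_le hqd, by norm_num⟩
  refine ⟨q.coeff 0, ?_⟩
  have h1 := congrArg (fun p : ZO[X] => p.coeff 0) hF0
  simp only [hF, coeff_sub, coeff_map, coeff_C_zero, coeff_zero, eq_intCast] at h1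
  exact (sub_eq_zero.1 h1).symm

theorem ZO.exists_retract : ∃ ρ : ZO →+ ℤ, ρ 1 = 1 := by
  have hmon : (cyclotomic 60 ℤ).Monic := cyclotomic.monic 60 ℤ
  have hdeg : (cyclotomic 60 ℤ).natDegree = 16 := by
    rw [natDegree_cyclotomic, show Nat.totient 60 = 16 by decide]
  set pb := AdjoinRoot.powerBasis' hmon with hpb
  have hdim : pb.dim = 16 := hdeg
  have h0 : 0 < pb.dim := by omega
  refine ⟨(pb.basis.coord ⟨0, h0⟩).toAddMonoidHom, ?_⟩
  have h1 : pb.basis ⟨0, h0⟩ = 1 := by
    rw [PowerBasis.basis_eq_pow, pow_zero]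
  show pb.basis.coord ⟨0, h0⟩ 1 = 1
  rw [← h1, Module.Basis.coord_apply, Module.Basis.repr_self, Finsupp.single_eq_same]

end SYM
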