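import Pool.Agent.Lib.MP_b1ea0f_al.EWords

/-!
# MP_b1ea0f_al: embedding data of `G7`, `G11`, `G19`

`s = a`, `t = b`, `u = c`, `m = 1`, `w = stu`.
-/

set_option linter.unusedSimpArgs false
set_option linter.unusedTactic false
set_option linter.unreachableTactic false
set_option linter.unusedVariables false

namespace SYM
open BraidData EmbW

theorem embT (n : ℕ) (hn : HN n) (o : Fin 3 → ℕ) (zo : ℕ) (h0 : o 0 = 2) (h1 : o 1 = 3)
    (h2 : o 2 = n) (hz : NZ n = 1 * zo) :
    Nonempty (Emb ⟨3, 3, id, o, [([0,1,2],[1,2,0]),([0,1,2],[2,0,1])], [0,1,2], zo⟩) := by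
  set D : BraidData := ⟨3, 3, id, o, [([0,1,2],[1,2,0]),([0,1,2],[2,0,1])], [0,1,2], zo⟩ with hD
  let s : D.Braid := D.s (0 : Fin 3)
  let t : D.Braid := D.s (1 : Fin 3)
  let u : D.Braid := D.s (2 : Fin 3)
  have hr1 : s*(t*u) = t*(u*s) := by
    have := s_rel D (p := ([0,1,2],[1,2,0])) (List.mem_cons_self)
    simp only [List.map_cons, List.map_nil, List.prod_cons, List.prod_nil, mul_one] at this
    exact this
  have hr2 : s*(t*u) = u*(s*t) := by
    have := s_rel D (p := ([0,1,2],[2,0,1])) (List.mem_cons_of_mem _ (List.mem_singleton.2 rfl))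
    simp only [List.map_cons, List.map_nil, List.prod_cons, List.prod_nil, mul_one] at this
    exact this
  obtain ⟨hws, hwt, hwu⟩ := brT hr1 hr2
  let lt : Fin 3 → LegT D := ![LegT.free (0 : Fin 3), LegT.free (1 : Fin 3), LegT.free (2 : Fin 3)]
  let K : Fin 3 → Prop := fun g => lt g = .killed
  let φ : FreeGroup (Fin 3) →* SG n K := PresentedGroup.mk _
  let a : SG n K := PresentedGroup.of 0
  let b : SG n K := PresentedGroup.of 1
  let c : SG n K := PresentedGroup.of 2
  let ι : Fin 3 → FreeGroup (Fin 3) := ![FreeGroup.of 0, FreeGroup.of 1, FreeGroup.of 2]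
  let ψ : FreeGroup (Fin D.gens) →* SG n K := φ.comp (FreeGroup.lift ι)
  let S : FreeGroup (Fin D.gens) := FreeGroup.of (0 : Fin 3)
  let T : FreeGroup (Fin D.gens) := FreeGroup.of (1 : Fin 3)
  let U : FreeGroup (Fin D.gens) := FreeGroup.of (2 : Fin 3)
  have hS : ψ S = a := by
    simp only [ψ, S, MonoidHom.comp_apply, FreeGroup.lift_apply_of]; rfl
  have hT : ψ T = b := by
    simp only [ψ, T, MonoidHom.comp_apply, FreeGroup.lift_apply_of]; rfl
  have hU : ψ U = c := by
    simp only [ψ, U, MonoidHom.comp_apply, FreeGroup.lift_apply_of]; rfl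
  obtain ⟨q1, q2⟩ := relT a b c (SG.comm 0) (SG.comm 2)
  refine ⟨⟨n, hn, 1, by norm_num, s * t * u, lt, ι, ![0, 0, 0], ![s, t, u],
    ?_, ?_, ?_, ?_, ?_, ?_, ?_, ?_, ?_, ?_, ?_, ?_, ![S, T, U], ?_, ?_, S * T * U,
    ?_, ?_, ?_, ?_, ?_, ?_, ?_⟩⟩
  · -- w_comm
    refine s_comm D _ ?_
    show ∀ i : Fin 3, _
    intro i
    fin_cases i
    · exact hws
    · exact hwt
    · exact hwu
  · -- free_ord
    show ∀ g : Fin 3, ∀ c : Fin 3, _
    intro g c h
    fin_cases g
    · obtain rfl : (0 : Fin 3) = c := by simpa [lt] using h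
      exact h0
    · obtain rfl : (1 : Fin 3) = c := by simpa [lt] using h
      exact h1
    · obtain rfl : (2 : Fin 3) = c := by simpa [lt] using h
      exact h2
  · -- sq_ord
    show ∀ g : Fin 3, ∀ c : Fin 3, _
    intro g c h
    fin_cases g
    · simp [lt] at h
    · simp [lt] at h
    · simp [lt] at h
  · -- par
    show ∀ c : Fin 3, _
    intro c
    fin_cases c
    · exact ⟨0, Or.inl rfl⟩
    · exact ⟨1, Or.inl rfl⟩
    · exact ⟨2, Or.inl rfl⟩
  · -- inj
    show ∀ g g' : Fin 3, ∀ c : Fin 3, _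
    intro g g' c h h'
    fin_cases g <;> fin_cases g' <;> first
      | rfl
      | (exfalso; simp [lt] at h h'; done)
      | (exfalso; simp [lt] at h h'; exact absurd (show (0 : ℕ) = 1 from congrArg Fin.val (h.trans h'.symm)) (by decide))
      | (exfalso; simp [lt] at h h'; exact absurd (show (0 : ℕ) = 2 from congrArg Fin.val (h.trans h'.symm)) (by decide))
      | (exfalso; simp [lt] at h h'; exact absurd (show (1 : ℕ) = 0 from congrArg Fin.val (h.trans h'.symm)) (by decide))
      | (exfalso; simp [lt] at h h'; exact absurd (show (1 : ℕ) = 2 from congrArg Fin.val (h.trans h'.symm)) (by decide))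
      | (exfalso; simp [lt] at h h'; exact absurd (show (2 : ℕ) = 0 from congrArg Fin.val (h.trans h'.symm)) (by decide))
      | (exfalso; simp [lt] at h h'; exact absurd (show (2 : ℕ) = 1 from congrArg Fin.val (h.trans h'.symm)) (by decide))
  · -- rel
    intro p hp
    rw [List.mem_pair] at hp
    rcases hp with rfl | rfl
    · show ψ (S * (T * (U * 1))) = ψ (T * (U * (S * 1)))
      simp only [map_mul, map_one, mul_one, hS, hT, hU]
      exact q1
    · show ψ (S * (T * (U * 1))) = ψ (U * (S * (T * 1)))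
      simp only [map_mul, map_one, mul_one, hS, hT, hU]
      exact q2
  · -- prod
    refine ⟨1, rfl, ?_⟩
    show s * t * u = (s * t * u) ^ (1 : ℤ)
    rw [zpow_one]
  · -- kill
    intro g hg
    fin_cases g
    · simp [lt] at hg
    · simp [lt] at hg
    · simp [lt] at hg
  · -- freeu
    show ∀ g : Fin 3, ∀ c : Fin 3, _
    intro g c h
    fin_cases g
    · obtain rfl : (0 : Fin 3) = c := by simpa [lt] using h
      exact ⟨rfl, 1, (0 : Fin 3), rfl, by rw [one_mul, inv_one, mul_one]; rfl⟩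
    · obtain rfl : (1 : Fin 3) = c := by simpa [lt] using h
      exact ⟨rfl, 1, (1 : Fin 3), rfl, by rw [one_mul, inv_one, mul_one]; rfl⟩
    · obtain rfl : (2 : Fin 3) = c := by simpa [lt] using h
      exact ⟨rfl, 1, (2 : Fin 3), rfl, by rw [one_mul, inv_one, mul_one]; rfl⟩
  · -- squ
    show ∀ g : Fin 3, ∀ c : Fin 3, _
    intro g c h
    fin_cases g
    · simp [lt] at h
    · simp [lt] at h
    · simp [lt] at h
  · -- gens
    show ∀ i : Fin 3, _
    intro i
    fin_cases i
    · refine ⟨0, 1, Or.inl ⟨rfl, ?_⟩⟩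
      rw [one_mul, inv_one, mul_one]; rfl
    · refine ⟨1, 1, Or.inl ⟨rfl, ?_⟩⟩
      rw [one_mul, inv_one, mul_one]; rfl
    · refine ⟨2, 1, Or.inl ⟨rfl, ?_⟩⟩
      rw [one_mul, inv_one, mul_one]; rfl
  · -- back
    show ∀ i : Fin 3, _
    intro i
    fin_cases i
    · refine ⟨0, ?_⟩
      show FreeGroup.lift (fun g => (((![s, t, u] : Fin 3 → D.Braid) g,
        Multiplicative.ofAdd ((![0, 0, 0] : Fin 3 → ℤ) g)) : D.Braid × Multiplicative ℤ)) (FreeGroup.of 0) = _
      simp only [map_mul, map_inv, map_pow, FreeGroup.lift_apply_of]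
      refine Prod.ext ?_ ?_
      · show s = s * (s * t * u) ^ (0 : ℤ)
        rw [zpow_zero, mul_one]
      · rfl
    · refine ⟨0, ?_⟩
      show FreeGroup.lift (fun g => (((![s, t, u] : Fin 3 → D.Braid) g,
        Multiplicative.ofAdd ((![0, 0, 0] : Fin 3 → ℤ) g)) : D.Braid × Multiplicative ℤ)) (FreeGroup.of 1) = _
      simp only [map_mul, map_inv, map_pow, FreeGroup.lift_apply_of]
      refine Prod.ext ?_ ?_
      · show t = t * (s * t * u) ^ (0 : ℤ)
        rw [zpow_zero, mul_one]
      · rfl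
    · refine ⟨0, ?_⟩
      show FreeGroup.lift (fun g => (((![s, t, u] : Fin 3 → D.Braid) g,
        Multiplicative.ofAdd ((![0, 0, 0] : Fin 3 → ℤ) g)) : D.Braid × Multiplicative ℤ)) (FreeGroup.of 2) = _
      simp only [map_mul, map_inv, map_pow, FreeGroup.lift_apply_of]
      refine Prod.ext ?_ ?_
      · show u = u * (s * t * u) ^ (0 : ℤ)
        rw [zpow_zero, mul_one]
      · rfl
  · -- uw_eq
    intro g
    fin_cases g <;> rfl
  · -- forth
    intro g
    fin_cases g
    · show a = (a * b * c) ^ (0 : ℤ) * ψ (S)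
      simp only [map_mul, map_inv, map_pow, hS, hT, hU]
      rw [zpow_zero, one_mul]
    · show b = (a * b * c) ^ (0 : ℤ) * ψ (T)
      simp only [map_mul, map_inv, map_pow, hS, hT, hU]
      rw [zpow_zero, one_mul]
    · show c = (a * b * c) ^ (0 : ℤ) * ψ (U)
      simp only [map_mul, map_inv, map_pow, hS, hT, hU]
      rw [zpow_zero, one_mul]
  · -- ww_eq
    rfl
  · -- forthw
    show (a * b * c) ^ 1 = ψ (S * T * U)
    simp only [map_mul, map_inv, map_pow, hS, hT, hU]
    rw [pow_one]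
  · -- exK
    show ∀ g : Fin 3, lt g = .killed → ∀ i : Fin 3, _
    intro g hg i
    fin_cases g
    · simp [lt] at hg
    · simp [lt] at hg
    · simp [lt] at hg
  · -- exS
    show ∀ g : Fin 3, ∀ c : Fin 3, _ → ∀ i : Fin 3, _
    intro g c h i
    fin_cases g
    · simp [lt] at h
    · simp [lt] at h
    · simp [lt] at h
  · -- lcm
    intro j h h2
    exact one_dvd j
  · -- mz
    exact hz
  · -- centre
    show ([D.s (0 : Fin 3), D.s (1 : Fin 3), D.s (2 : Fin 3)]).prod = s * t * u
    simp only [List.prod_cons, List.prod_nil]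
    simp only [mul_assoc, mul_inv_rev, inv_inv, inv_one, mul_one, one_mul, inv_mul_cancel_left, mul_inv_cancel_left, inv_mul_cancel, mul_inv_cancel, pow_succ, pow_zero, and_true, true_and, and_self]
    rfl

theorem embG7 : Nonempty (Emb G7) := embT 3 (Or.inl rfl) ![2,3,3] 12 rfl rfl rfl rfl
theorem embG11 : Nonempty (Emb G11) := embT 4 (Or.inr (Or.inl rfl)) ![2,3,4] 24 rfl rfl rfl rfl
theorem embG19 : Nonempty (Emb G19) := embT 5 (Or.inr (Or.inr rfl)) ![2,3,5] 60 rfl rfl rfl rfl

end SYM
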