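import Pool.Agent.Lib.MP_b1ea0f_al.Defs4

/-!
# FDec: block idempotents of z

Block decomposition of the finite-dimensional algebra `H` with respect to the central element `z`: the minimal polynomial of `z` splits, `∏ (T - z_i)^{N_i}` kills `z`; idempotents are polynomials in `z`
(CRT in `κ[T]`, e.g. `Module.End` primary decomposition of `mulLeft z` or `Polynomial` coprimality). The `e i` are polynomials in `zz`, so central (`zz_comm`).
-/

namespace SYM
open Polynomial Module

private theorem crt_idem {κ : Type*} [Field κ] {r : ℕ} (z0 : Fin r → κ)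
    (hz : Function.Injective z0) (c : Fin r → ℕ) (hr : 0 < r) :
    ∃ q : Fin r → κ[X], ∑ i, q i = 1 ∧ ∀ i j, i ≠ j → (X - C (z0 j)) ^ c j ∣ q i := by
  have : Nonempty (Fin r) := ⟨⟨0, hr⟩⟩
  have hc : Pairwise (Function.onFun IsCoprime fun i => (X - C (z0 i)) ^ c i) := by
    intro i j hij
    exact (Polynomial.pairwise_coprime_X_sub_C hz hij).pow
  obtain ⟨μ, hμ⟩ := exists_sum_eq_one_iff_pairwise_coprime'.2 hc
  refine ⟨fun i => μ i * ∏ j ∈ {i}ᶜ, (X - C (z0 j)) ^ c j, hμ, ?_⟩
  intro i j hij
  refine Dvd.dvd.mul_left (Finset.dvd_prod_of_mem _ ?_) _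
  simp only [Finset.mem_compl, Finset.mem_singleton]
  exact fun h => hij h.symm

private theorem min_prod {κ A : Type*} [Field κ] [IsAlgClosed κ] [Ring A] [Algebra κ A]
    [FiniteDimensional κ A] (z : A) :
    ∃ (r : ℕ) (z0 : Fin r → κ) (c : Fin r → ℕ), Function.Injective z0 ∧ (∀ i, 0 < c i) ∧
      aeval z (∏ i, (X - C (z0 i)) ^ c i) = 0 := by
  classical
  have hint : IsIntegral κ z := IsIntegral.of_finite κ z
  have hm := (IsAlgClosed.splits (minpoly κ z)).eq_prod_roots_of_monic (minpoly.monic hint)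
  rw [Finset.prod_multiset_map_count] at hm
  refine ⟨(minpoly κ z).roots.toFinset.card,
    fun i => ((minpoly κ z).roots.toFinset.equivFin.symm i : κ),
    fun i => (minpoly κ z).roots.count ((minpoly κ z).roots.toFinset.equivFin.symm i : κ), ?_, ?_, ?_⟩
  · intro i j hij
    exact (minpoly κ z).roots.toFinset.equivFin.symm.injective (Subtype.ext hij)
  · intro i
    have := ((minpoly κ z).roots.toFinset.equivFin.symm i).2
    rw [Multiset.mem_toFinset] at this
    exact Multiset.count_pos.2 this
  · rw [Equiv.prod_comp ((minpoly κ z).roots.toFinset.equivFin.symm)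
      (fun a : {a // a ∈ (minpoly κ z).roots.toFinset} =>
        (X - C (a : κ)) ^ (minpoly κ z).roots.count (a : κ)),
      Finset.prod_coe_sort (minpoly κ z).roots.toFinset
        (fun a => (X - C a) ^ (minpoly κ z).roots.count a), ← hm]
    exact minpoly.aeval κ z

private theorem blocks_gen {κ A : Type*} [Field κ] [IsAlgClosed κ] [Ring A] [Algebra κ A]
    [FiniteDimensional κ A] (z : A) :
    ∃ (r : ℕ) (z0 : Fin r → κ) (e : Fin r → A), Function.Injective z0 ∧
      (∀ i, e i * e i = e i) ∧ (∀ i j, i ≠ j → e i * e j = 0) ∧ ∑ i, e i = 1 ∧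
      (∀ i, ∃ p : κ[X], e i = aeval z p) ∧
      (∀ i, IsNilpotent ((z - algebraMap κ _ (z0 i)) * e i)) ∧
      ∀ i, LinearMap.range (LinearMap.mulLeft κ (e i)) =
        Module.End.maxGenEigenspace (LinearMap.mulLeft κ z) (z0 i) := by
  obtain ⟨r, z0, c, hz, hc, hm⟩ := min_prod (κ := κ) z
  rcases Nat.eq_zero_or_pos r with hr | hr
  · subst hr
    have h1 : (0 : A) = 1 := by
      rw [Finset.univ_eq_empty, Finset.prod_empty, map_one] at hm
      exact hm.symm
    refine ⟨0, z0, fun i => i.elim0, hz, fun i => i.elim0, fun i => i.elim0, ?_, fun i => i.elim0,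
      fun i => i.elim0, fun i => i.elim0⟩
    rw [Finset.univ_eq_empty, Finset.sum_empty]
    exact h1
  obtain ⟨q, hq1, hq⟩ := crt_idem z0 hz c hr
  have hcop : Pairwise (Function.onFun IsCoprime fun i => (X - C (z0 i)) ^ c i) := by
    intro i j hij
    exact (Polynomial.pairwise_coprime_X_sub_C hz hij).pow
  have hkill : ∀ f : κ[X], (∀ j, (X - C (z0 j)) ^ c j ∣ f) → aeval z f = 0 := by
    intro f hf
    obtain ⟨g, hg⟩ := Fintype.prod_dvd_of_coprime hcop hf
    rw [hg, map_mul, hm, zero_mul]
  have hqi : ∀ i, (X - C (z0 i)) ^ c i ∣ 1 - q i := by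
    intro i
    rw [← hq1, ← Finset.add_sum_erase _ _ (Finset.mem_univ i), add_sub_cancel_left]
    refine Finset.dvd_sum fun j hj => hq j i ?_
    exact Finset.ne_of_mem_erase hj
  have hidem : ∀ i, aeval z (q i) * aeval z (q i) = aeval z (q i) := by
    intro i
    have h := hkill ((1 - q i) * q i) fun j => by
      rcases eq_or_ne i j with h | h
      · subst h
        exact Dvd.dvd.mul_right (hqi i) _
      · exact Dvd.dvd.mul_left (hq i j h) _
    rw [map_mul, map_sub, map_one, sub_mul, one_mul, sub_eq_zero] at h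
    exact h.symm
  have horth : ∀ i j, i ≠ j → aeval z (q i) * aeval z (q j) = 0 := by
    intro i j hij
    rw [← map_mul]
    refine hkill _ fun l => ?_
    rcases eq_or_ne i l with h | h
    · subst h
      exact Dvd.dvd.mul_left (hq j i hij.symm) _
    · exact Dvd.dvd.mul_right (hq i l h) _
  have hsum : ∑ i, aeval z (q i) = 1 := by
    rw [← map_sum, hq1, map_one]
  have hpe : ∀ i, aeval z ((X - C (z0 i)) ^ c i) * aeval z (q i) = 0 := by
    intro i
    rw [← map_mul]
    refine hkill _ fun j => ?_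
    rcases eq_or_ne i j with h | h
    · subst h
      exact dvd_mul_right _ _
    · exact Dvd.dvd.mul_left (hq i j h) _
  have hzi : ∀ i, aeval z (X - C (z0 i)) = z - algebraMap κ A (z0 i) := by
    intro i
    rw [map_sub, aeval_X, aeval_C]
  have hend : ∀ i (k : ℕ) (h : A),
      ((LinearMap.mulLeft κ z - z0 i • (1 : Module.End κ A)) ^ k) h =
        aeval z ((X - C (z0 i)) ^ k) * h := by
    intro i k
    induction k with
    | zero =>
      intro h
      rw [pow_zero, pow_zero, map_one, one_mul]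
      rfl
    | succ k ih =>
      intro h
      rw [pow_succ, Module.End.mul_apply, ih, pow_succ, map_mul, hzi, mul_assoc]
      congr 1
      rw [sub_mul, ← Algebra.smul_def]
      rfl
  refine ⟨r, z0, fun i => aeval z (q i), hz, hidem, horth, hsum, fun i => ⟨q i, rfl⟩, ?_, ?_⟩
  · intro i
    refine ⟨c i, ?_⟩
    rw [← hzi, ← map_mul, ← map_pow, mul_pow, map_mul]
    obtain ⟨m, hm⟩ := Nat.exists_eq_add_of_le' (hc i)
    have : q i ^ c i = q i * q i ^ m := by
      rw [hm, ← pow_succ']
    rw [this, map_mul, ← mul_assoc, hpe, zero_mul]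
  · intro i
    ext h
    rw [Module.End.mem_maxGenEigenspace]
    constructor
    · rintro ⟨g, rfl⟩
      refine ⟨c i, ?_⟩
      rw [hend]
      show _ * (aeval z (q i) * g) = 0
      rw [← mul_assoc, hpe, zero_mul]
    · rintro ⟨k, hk⟩
      rw [hend] at hk
      have h0 : ∀ j, i ≠ j → aeval z (q j) * h = 0 := by
        intro j hij
        have hcp : IsCoprime ((X - C (z0 i)) ^ k) ((X - C (z0 j)) ^ c j) :=
          (Polynomial.pairwise_coprime_X_sub_C hz hij).pow
        obtain ⟨a, b, hab⟩ := hcp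
        have h1 : aeval z (q j) * h = aeval z ((a * (X - C (z0 i)) ^ k + b * (X - C (z0 j)) ^ c j) *
            q j) * h := by
          rw [hab, one_mul]
        rw [h1, add_mul, map_add, add_mul]
        have e1 : aeval z (a * (X - C (z0 i)) ^ k * q j) * h = 0 := by
          have : a * (X - C (z0 i)) ^ k * q j = a * q j * (X - C (z0 i)) ^ k := by ring
          rw [this, map_mul, mul_assoc, hk, mul_zero]
        have e2 : aeval z (b * (X - C (z0 j)) ^ c j * q j) = 0 := by
          rw [mul_assoc, map_mul, map_mul, hpe, mul_zero]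
        rw [e1, e2, zero_mul, add_zero]
      refine ⟨h, ?_⟩
      show aeval z (q i) * h = h
      have h2 : (∑ j, aeval z (q j)) * h = h := by rw [hsum, one_mul]
      rw [Finset.sum_mul, Finset.sum_eq_single i (fun j _ hj => h0 j hj.symm)
        (fun hi => absurd (Finset.mem_univ i) hi)] at h2
      exact h2

private theorem aeval_comm {κ A : Type*} [Field κ] [Ring A] [Algebra κ A] (z h : A)
    (hz : z * h = h * z) (p : κ[X]) : aeval z p * h = h * aeval z p := by
  induction p using Polynomial.induction_on' with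
  | add p q hp hq => rw [map_add, add_mul, mul_add, hp, hq]
  | monomial n a =>
    rw [aeval_monomial, mul_assoc, (Commute.pow_left (show Commute z h from hz) n).eq, ← mul_assoc,
      Algebra.commutes, mul_assoc]

theorem exists_blocks {κ : Type} [Field κ] [IsAlgClosed κ] {n : ℕ} {x : J n → κˣ}
    [FiniteDimensional κ (H n x)] :
    ∃ (r : ℕ) (z0 : Fin r → κ) (e : Fin r → H n x), Function.Injective z0 ∧
      (∀ i, e i * e i = e i) ∧ (∀ i j, i ≠ j → e i * e j = 0) ∧ ∑ i, e i = 1 ∧
      (∀ i, ∃ p : κ[X], e i = aeval (zz n x) p) ∧ (∀ i h, e i * h = h * e i) ∧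
      (∀ i, IsNilpotent ((zz n x - algebraMap κ _ (z0 i)) * e i)) ∧
      ∀ i, LinearMap.range (LinearMap.mulLeft κ (e i)) =
        Module.End.maxGenEigenspace (LinearMap.mulLeft κ (zz n x)) (z0 i) := by
  obtain ⟨r, z0, e, h1, h2, h3, h4, h5, h6, h7⟩ := blocks_gen (κ := κ) (zz n x)
  refine ⟨r, z0, e, h1, h2, h3, h4, h5, ?_, h6, h7⟩
  intro i h
  obtain ⟨p, hp⟩ := h5 i
  rw [hp]
  exact aeval_comm _ _ (zz_comm n x h) p

end SYM
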