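import Pool.Agent.Lib.MP_b1ea0f_al.WFlat

/-
MP_b1ea0f_al, module GSplit (about 220 lines).  Section 6.4: the structure of H at a generic point of
characteristic 0 where dim H = N².
PROOFS. finite_Idx: Rc n is a Finset and for each α the equation ζ^{dg α} = mon x α has finitely many
solutions (roots of a polynomial of degree dg α ≥ 1, or: nthRoots).
split: notation X = fun j => (x j : κ), H = H n x = BMM.HA κ (BMM.PX X), z = zz n x; gen1_of, gen2_of
give the genericity hypotheses of BMM.Gen61 / Gen62.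
(1) For ζ with BMM.blk ζ ≠ ⊥: BMM.exists_rep gives α ∈ Rc and a surjective φ : H → M_d(κ), d = lev α, of
 type α with kernel (z - ζ) H. T^d - m_α has distinct roots (char 0, m_α ≠ 0), so BMM.blk_pow with
 rootMultiplicity = 1 shows (z - ζ) blk ζ = 0. H = blk ζ ⊕ (sum of the other blocks) (BMM.blk_internal),
 z - ζ is bijective on the other blocks, so (z - ζ) H = sum of the other blocks, φ is injective on blk ζ
 and dim blk ζ = d².
(2) ζ ↦ (α, ζ) embeds the set of eigenvalues S = {ζ : blk ζ ≠ ⊥} into Idx x. dim H = Σ_{ζ ∈ S} d_ζ².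
 Σ_{i ∈ Idx x} (dg i)² = Σ_{α ∈ Rc} (number of ζ with ζ^{dg α} = m_α) (dg α)² = Σ_α (dg α)³ = N² (sum_dg; the
 number of roots is dg α: separable polynomial over an algebraically closed field). As dim H = N², every
 i ∈ Idx x occurs (all (dg i)² ≥ 1).
(3) ρ i := φ_ζ for i = (α, ζ) (the type is α by (G1)), composed with Matrix.toLinAlgEquiv' and the
 identification (lev α).toNat = dg α (definitional: dg v = (deg v).toNat, deg = BMM.lev).
 ρ i z = ζ • 1 because φ (z - ζ) = 0.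
 Injective: if all ρ i h = 0 then h ∈ (z - ζ) H for all ζ ∈ S, so all block components of h vanish.
 Surjective: dimensions N² = N². Trace: H → ∏ End (κ^{d_i}) is an isomorphism of algebras, left
 multiplication by h becomes left multiplication by ρ i h on each factor, whose trace is d_i tr (ρ i h)
 (trace of left multiplication on End(V) = dim V * trace; LinearMap.trace_eq_of_... conjugation
 LinearMap.trace_conj').
-/

namespace SYM
open Polynomial Module

private theorem trace_lem {κ : Type} [Field κ] {A : Type} [Ring A] [Algebra κ A] {ι : Type}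
    [Fintype ι] (d : ι → ℕ) (φ : ∀ i, A →ₐ[κ] Matrix (Fin (d i)) (Fin (d i)) κ)
    (hb : Function.Bijective (fun h : A => fun i => φ i h)) (h : A) :
    LinearMap.trace κ A (LinearMap.mulLeft κ h) = ∑ i, (d i : κ) * (φ i h).trace := by
  classical
  let e : A ≃ₗ[κ] (∀ i, Matrix (Fin (d i)) (Fin (d i)) κ) :=
    LinearEquiv.ofBijective (LinearMap.pi fun i => (φ i).toLinearMap) hb
  have he : ∀ u i, e u i = φ i u := fun _ _ => rfl
  let b := (Pi.basis fun i => Matrix.stdBasis κ (Fin (d i)) (Fin (d i))).map e.symm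
  rw [LinearMap.trace_eq_matrix_trace κ b, Matrix.trace]
  have h1 : ∀ q : (Σ i, Fin (d i) × Fin (d i)),
      (LinearMap.toMatrix b b (LinearMap.mulLeft κ h)).diag q = φ q.1 h q.2.1 q.2.1 := by
    rintro ⟨i, a, c⟩
    rw [Matrix.diag_apply, LinearMap.toMatrix_apply, LinearMap.mulLeft_apply]
    have h2 : ∀ u : A, b.repr u ⟨i, a, c⟩ = φ i u a c := by
      intro u
      rfl
    rw [h2]
    have h3 : φ i (b ⟨i, a, c⟩) = Matrix.single a c 1 := by
      rw [← he]
      simp only [b, Basis.map_apply, LinearEquiv.apply_symm_apply, Pi.basis_apply,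
        Pi.single_eq_same, Matrix.stdBasis_eq_single]
    rw [map_mul, h3]
    simp
  rw [Finset.sum_congr rfl fun q _ => h1 q, Fintype.sum_sigma]
  refine Finset.sum_congr rfl fun i _ => ?_
  rw [Fintype.sum_prod_type, Matrix.trace, Finset.mul_sum]
  refine Finset.sum_congr rfl fun a _ => ?_
  rw [Matrix.diag_apply]
  change ∑ _y : Fin (d i), φ i h a a = _
  rw [Finset.sum_const, Finset.card_univ, Fintype.card_fin, nsmul_eq_mul]

/-- index set of the irreducible representations -/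
def Idx {κ : Type} [Field κ] {n : ℕ} (x : J n → κˣ) : Type :=
  {p : Vec n × κˣ // p.1 ∈ Rc n ∧ p.2 ^ dg p.1 = mon x p.1}

private theorem dg_pos {n : ℕ} {α : Vec n} (hα : α ∈ Rc n) : 0 < dg α := by
  have h := (Finset.mem_filter.1 hα).2.2
  unfold dg
  omega

open Classical in
private noncomputable def Fs {κ : Type} [Field κ] {n : ℕ} (x : J n → κˣ) :
    Finset (Σ _ : Vec n, κ) :=
  (Rc n).sigma fun α => (X ^ dg α - C ((mon x α : κˣ) : κ) : κ[X]).roots.toFinset

private theorem mem_Fs {κ : Type} [Field κ] {n : ℕ} (x : J n → κˣ) (α : Vec n) (ζ : κ) :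
    (⟨α, ζ⟩ : Σ _ : Vec n, κ) ∈ Fs x ↔ α ∈ Rc n ∧ ζ ^ dg α = mon x α := by
  classical
  rw [Fs, Finset.mem_sigma]
  refine and_congr_right fun hα => ?_
  simp only
  rw [Multiset.mem_toFinset, mem_roots (X_pow_sub_C_ne_zero (dg_pos hα) _), IsRoot.def]
  simp only [eval_sub, eval_pow, eval_X, eval_C]
  exact sub_eq_zero

private theorem idx_mem {κ : Type} [Field κ] {n : ℕ} (x : J n → κˣ) (i : Idx x) :
    (⟨i.1.1, (i.1.2 : κ)⟩ : Σ _ : Vec n, κ) ∈ Fs x := by
  rw [mem_Fs]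
  refine ⟨i.2.1, ?_⟩
  rw [← i.2.2, Units.val_pow_eq_pow_val]

private theorem idx_inj {κ : Type} [Field κ] {n : ℕ} (x : J n → κˣ) (i j : Idx x)
    (h : (⟨i.1.1, (i.1.2 : κ)⟩ : Σ _ : Vec n, κ) = ⟨j.1.1, (j.1.2 : κ)⟩) : i = j := by
  apply Subtype.ext
  apply Prod.ext
  · exact congrArg Sigma.fst h
  · have h2 : (fun p : (Σ _ : Vec n, κ) => p.2) ⟨i.1.1, (i.1.2 : κ)⟩
        = (fun p : (Σ _ : Vec n, κ) => p.2) ⟨j.1.1, (j.1.2 : κ)⟩ := congrArg _ h
    exact Units.ext h2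

instance finite_Idx {κ : Type} [Field κ] {n : ℕ} (x : J n → κˣ) : Finite (Idx x) := by
  refine Finite.of_injective (β := Fs x) (fun i => ⟨_, idx_mem x i⟩) ?_
  intro i j h
  exact idx_inj x i j (congrArg Subtype.val h)

noncomputable instance {κ : Type} [Field κ] {n : ℕ} (x : J n → κˣ) : Fintype (Idx x) :=
  Fintype.ofFinite _

private theorem sum_Idx {κ : Type} [Field κ] [IsAlgClosed κ] [CharZero κ] {n : ℕ} (hn : HN n)
    (x : J n → κˣ) : ∑ i : Idx x, dg i.1.1 ^ 2 = NZ n ^ 2 := by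
  classical
  rw [← sum_dg hn]
  have h1 : ∑ i : Idx x, dg i.1.1 ^ 2 = ∑ p ∈ Fs x, dg p.1 ^ 2 := by
    refine Finset.sum_bij (fun i _ => ⟨i.1.1, (i.1.2 : κ)⟩) (fun i _ => idx_mem x i)
      (fun i _ j _ h => idx_inj x i j h) ?_ (fun _ _ => rfl)
    rintro ⟨α, ζ⟩ hp
    obtain ⟨h2, h3⟩ := (mem_Fs x α ζ).1 hp
    have h0 : ζ ≠ 0 := by
      rintro rfl
      rw [zero_pow (dg_pos h2).ne'] at h3
      exact (mon x α).ne_zero h3.symm
    refine ⟨⟨(α, Units.mk0 ζ h0), h2, ?_⟩, Finset.mem_univ _, rfl⟩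
    apply Units.ext
    rw [Units.val_pow_eq_pow_val]
    exact h3
  rw [h1, Fs, Finset.sum_sigma]
  refine Finset.sum_congr rfl fun α hα => ?_
  have h2 : (X ^ dg α - C ((mon x α : κˣ) : κ) : κ[X]).roots.toFinset.card = dg α := by
    rw [Multiset.toFinset_card_of_nodup, IsAlgClosed.card_roots_eq_natDegree,
      natDegree_X_pow_sub_C]
    refine nodup_roots (separable_X_pow_sub_C _ ?_ (Units.ne_zero _))
    exact_mod_cast (dg_pos hα).ne'
  simp only
  rw [Finset.sum_const, h2, smul_eq_mul]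
  ring

private theorem core {K : Type} [Field K] [IsAlgClosed K] [CharZero K] {n : ℕ} (hn : HN n)
    (X : BMM.J n → K) (hX : ∀ j, X j ≠ 0) (h1 : BMM.Gen1 X) (h2 : BMM.Gen2 X)
    [Module.Finite K (BMM.HA K (BMM.PX X))] :
    ∃ (S : Finset K) (α : S → Vec n)
      (φ : ∀ ζ : S, BMM.HA K (BMM.PX X) →ₐ[K] Matrix (Fin (dg (α ζ))) (Fin (dg (α ζ))) K),
      (∀ ζ, BMM.IsRep X (α ζ) ζ.1 (φ ζ)) ∧ ∀ u, (∀ ζ, φ ζ u = 0) → u = 0 := by
  classical
  let S : Finset K := (BMM.blk_finite (BMM.PX X)).toFinset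
  have hS : ∀ ζ, ζ ∈ S ↔ BMM.blk (BMM.PX X) ζ ≠ ⊥ := fun ζ => by
    simp [S]
  have hex := fun ζ : S => BMM.exists_rep hn X hX h1 h2 ζ.1 ((hS ζ.1).1 ζ.2)
  choose α φ hφ using hex
  refine ⟨S, α, φ, hφ, ?_⟩
  -- the element `z - ζ`
  let t : K → BMM.HA K (BMM.PX X) := fun ζ => aeval (BMM.zz K (BMM.PX X)) (Polynomial.X - C ζ : K[X])
  have ht : ∀ ζ, t ζ = BMM.zz K (BMM.PX X) - algebraMap K _ ζ := by
    intro ζ
    simp [t]
  have hblk : ∀ (ζ : K) (u : BMM.HA K (BMM.PX X)), u ∈ BMM.blk (BMM.PX X) ζ →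
      aeval (BMM.zz K (BMM.PX X)) (∏ ξ ∈ S, (Polynomial.X - C ξ : K[X])) * u = 0 := by
    intro ζ u hu
    by_cases hζ : ζ ∈ S
    · have h3 := BMM.blk_pow hn X hX h1 h2 ζ (α ⟨ζ, hζ⟩) (φ ⟨ζ, hζ⟩) (hφ ⟨ζ, hζ⟩) u hu
      have h4 : rootMultiplicity ζ (Polynomial.X ^ (BMM.lev (α ⟨ζ, hζ⟩)).toNat
          - C (BMM.mon X (α ⟨ζ, hζ⟩)) : K[X]) ≤ 1 := by
        have hpos : 0 < (BMM.lev (α ⟨ζ, hζ⟩)).toNat := by
          have := (hφ ⟨ζ, hζ⟩).mem.2
          omega
        have hne : BMM.mon X (α ⟨ζ, hζ⟩) ≠ 0 :=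
          Finset.prod_ne_zero_iff.2 fun j _ => zpow_ne_zero _ (hX j)
        refine rootMultiplicity_le_one_of_separable (separable_X_pow_sub_C _ ?_ hne) _
        exact_mod_cast hpos.ne'
      have h5 : t ζ * u = 0 := by
        rw [ht]
        obtain ⟨k, hk⟩ := Nat.exists_eq_add_of_le h4
        rw [← pow_one (BMM.zz K (BMM.PX X) - algebraMap K _ ζ), hk, add_comm, pow_add, mul_assoc,
          h3, mul_zero]
      rw [← Finset.prod_erase_mul S _ hζ, map_mul, mul_assoc]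
      change _ * (t ζ * u) = 0
      rw [h5, mul_zero]
    · have h3 : BMM.blk (BMM.PX X) ζ = ⊥ := by
        by_contra h
        exact hζ ((hS ζ).2 h)
      rw [h3, Submodule.mem_bot] at hu
      rw [hu, mul_zero]
  have hQ : aeval (BMM.zz K (BMM.PX X)) (∏ ξ ∈ S, (Polynomial.X - C ξ : K[X])) = 0 := by
    have h3 : ∀ u : BMM.HA K (BMM.PX X),
        aeval (BMM.zz K (BMM.PX X)) (∏ ξ ∈ S, (Polynomial.X - C ξ : K[X])) * u = 0 := by
      intro u
      have hu : u ∈ ⨆ ζ, BMM.blk (BMM.PX X) ζ := by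
        rw [(BMM.blk_internal (BMM.PX X)).2]; trivial
      refine Submodule.iSup_induction _ (motive := fun u =>
        aeval (BMM.zz K (BMM.PX X)) (∏ ξ ∈ S, (Polynomial.X - C ξ : K[X])) * u = 0) hu hblk
        (mul_zero _) ?_
      intro u v hu hv
      rw [mul_add, hu, hv, add_zero]
    have := h3 1
    rwa [mul_one] at this
  intro u hu
  have h3 : ∀ ζ ∈ S, ∀ c : K, aeval (BMM.zz K (BMM.PX X))
      (C c * ∏ ξ ∈ S.erase ζ, (Polynomial.X - C ξ : K[X])) * u = 0 := by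
    intro ζ hζ c
    obtain ⟨v, hv⟩ := ((hφ ⟨ζ, hζ⟩).ker u).1 (hu ⟨ζ, hζ⟩)
    rw [← ht] at hv
    rw [hv, ← mul_assoc]
    change aeval _ _ * aeval _ _ * v = 0
    rw [← map_mul, mul_assoc, Finset.prod_erase_mul S _ hζ, map_mul, hQ, mul_zero, zero_mul]
  rcases S.eq_empty_or_nonempty with hemp | hne
  · rw [hemp, Finset.prod_empty, map_one] at hQ
    rw [← one_mul u, hQ, zero_mul]
  · have h4 := Lagrange.sum_basis (v := (id : K → K)) (Set.injOn_id _) hne
    have h5 := congrArg (fun p => aeval (BMM.zz K (BMM.PX X)) p * u) h4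
    simp only [map_one, one_mul, map_sum, Finset.sum_mul] at h5
    rw [← h5]
    refine Finset.sum_eq_zero fun ζ hζ => ?_
    have h6 : Lagrange.basis S (id : K → K) ζ = C (∏ ξ ∈ S.erase ζ, (ζ - ξ)⁻¹)
        * ∏ ξ ∈ S.erase ζ, (Polynomial.X - C ξ : K[X]) := by
      rw [map_prod, ← Finset.prod_mul_distrib]
      rfl
    rw [h6]
    exact h3 ζ hζ _

section
variable {κ : Type} [Field κ] [IsAlgClosed κ] {n : ℕ} {x : J n → κˣ}

private theorem exists_all [CharZero κ] (hn : HN n) (hx : Gen x) [FiniteDimensional κ (H n x)]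
    (hr : finrank κ (H n x) = NZ n ^ 2) :
    ∃ φ : ∀ i : Idx x, H n x →ₐ[κ] Matrix (Fin (dg i.1.1)) (Fin (dg i.1.1)) κ,
      (∀ i : Idx x, BMM.IsRep (fun j => ((x j : κˣ) : κ)) i.1.1 (i.1.2 : κ) (φ i)) ∧
      Function.Bijective (fun h : H n x => fun i => φ i h) := by
  classical
  have hf : Module.Finite κ (BMM.HA κ (BMM.PX (fun j => ((x j : κˣ) : κ)))) :=
    inferInstanceAs (Module.Finite κ (H n x))
  obtain ⟨S, α, ψ, hψ, hinj⟩ := core hn (fun j => ((x j : κˣ) : κ)) (fun _ => Units.ne_zero _)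
    (gen1_of hn hx) (gen2_of hx)
  have hα : ∀ ζ, α ζ ∈ Rc n := fun ζ => (mem_Rc_iff_BMM hn).2 (hψ ζ).mem
  have heq : ∀ ζ : S, (ζ : κ) ^ dg (α ζ) = mon x (α ζ) := by
    intro ζ
    have h1 := (hψ ζ).eq
    have h2 : (dg (α ζ) : ℤ) = BMM.lev (α ζ) := (dg_bounds hn (hα ζ)).1
    rw [← h2, zpow_natCast, ← coe_mon] at h1
    exact h1
  have h0 : ∀ ζ : S, (ζ : κ) ≠ 0 := by
    intro ζ h
    have h1 := heq ζ
    rw [h, zero_pow (dg_pos (hα ζ)).ne'] at h1
    exact (mon x (α ζ)).ne_zero h1.symm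
  let e : S → Idx x := fun ζ => ⟨(α ζ, Units.mk0 ζ.1 (h0 ζ)), hα ζ, by
    apply Units.ext
    rw [Units.val_pow_eq_pow_val]
    exact heq ζ⟩
  have he : Function.Injective e := by
    intro ζ ξ h
    have h1 := congrArg (fun i : Idx x => (i.1.2 : κ)) h
    exact Subtype.ext h1
  have hle : NZ n ^ 2 ≤ ∑ ζ : S, dg (α ζ) ^ 2 := by
    rw [← hr]
    have h1 := LinearMap.finrank_le_finrank_of_injective
      (f := LinearMap.pi fun ζ => (ψ ζ).toLinearMap) (by
        rw [← LinearMap.ker_eq_bot, eq_bot_iff]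
        intro u hu
        rw [LinearMap.mem_ker] at hu
        rw [Submodule.mem_bot]
        exact hinj u fun ζ => congrFun hu ζ)
    refine h1.trans (le_of_eq ?_)
    rw [Module.finrank_pi_fintype]
    refine Finset.sum_congr rfl fun ζ _ => ?_
    rw [Module.finrank_matrix]
    simp [pow_two]
  have hsurj : Function.Surjective e := by
    by_contra hs
    unfold Function.Surjective at hs
    push Not at hs
    obtain ⟨i, hi⟩ := hs
    have h1 : ∑ ζ : S, dg (α ζ) ^ 2 = ∑ j ∈ Finset.univ.image e, dg j.1.1 ^ 2 := by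
      rw [Finset.sum_image fun a _ b _ h => he h]
    have h2 : ∑ j ∈ Finset.univ.image e, dg j.1.1 ^ 2 < ∑ j : Idx x, dg j.1.1 ^ 2 := by
      refine Finset.sum_lt_sum_of_subset (Finset.subset_univ _) (Finset.mem_univ i) ?_
        (pow_pos (dg_pos i.2.1) 2) fun _ _ _ => Nat.zero_le _
      intro h
      obtain ⟨ζ, -, h3⟩ := Finset.mem_image.1 h
      exact hi ζ h3
    rw [sum_Idx hn x, ← h1] at h2
    omega
  have hex : ∀ i : Idx x, ∃ φ : H n x →ₐ[κ] Matrix (Fin (dg i.1.1)) (Fin (dg i.1.1)) κ,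
      BMM.IsRep (fun j => ((x j : κˣ) : κ)) i.1.1 (i.1.2 : κ) φ := by
    intro i
    obtain ⟨ζ, rfl⟩ := hsurj i
    exact ⟨ψ ζ, hψ ζ⟩
  choose φ hφ using hex
  refine ⟨φ, hφ, ?_⟩
  let F : H n x →ₗ[κ] ∀ i : Idx x, Matrix (Fin (dg i.1.1)) (Fin (dg i.1.1)) κ :=
    LinearMap.pi fun i => (φ i).toLinearMap
  have hF : Function.Injective F := by
    rw [← LinearMap.ker_eq_bot, eq_bot_iff]
    intro u hu
    rw [LinearMap.mem_ker] at hu
    rw [Submodule.mem_bot]
    refine hinj u fun ζ => ?_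
    have h1 : φ (e ζ) u = 0 := congrFun hu (e ζ)
    exact ((hψ ζ).ker u).2 (((hφ (e ζ)).ker u).1 h1)
  have hd : finrank κ (H n x)
      = finrank κ (∀ i : Idx x, Matrix (Fin (dg i.1.1)) (Fin (dg i.1.1)) κ) := by
    rw [hr, Module.finrank_pi_fintype, ← sum_Idx hn x]
    refine Finset.sum_congr rfl fun i _ => ?_
    rw [Module.finrank_matrix]
    simp [pow_two]
  exact ⟨hF, (LinearMap.injective_iff_surjective_of_finrank_eq_finrank hd).1 hF⟩

theorem split [CharZero κ] (hn : HN n) (hx : Gen x) [FiniteDimensional κ (H n x)]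
    (hr : finrank κ (H n x) = NZ n ^ 2) :
    ∃ ρ : ∀ i : Idx x, H n x →ₐ[κ] Module.End κ (Fin (dg i.1.1) → κ),
      (∀ i, ρ i (zz n x) = (i.1.2 : κ) • 1) ∧
      (∀ i, (dv x fun g => ρ i (gen n x g)) = i.1.1) ∧
      Function.Bijective (fun h : H n x => fun i => ρ i h) ∧
      ∀ h, LinearMap.trace κ (H n x) (LinearMap.mulLeft κ h) =
        ∑ i, (dg i.1.1 : κ) * LinearMap.trace κ _ (ρ i h) := by
  obtain ⟨φ, hφ, hb⟩ := exists_all hn hx hr
  refine ⟨fun i => (Matrix.toLinAlgEquiv' : Matrix (Fin (dg i.1.1)) (Fin (dg i.1.1)) κ ≃ₐ[κ]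
    _).toAlgHom.comp (φ i), ?_, ?_, ?_, ?_⟩
  · intro i
    have h1 : φ i (zz n x - algebraMap κ (H n x) (i.1.2 : κ)) = 0 :=
      ((hφ i).ker _).2 ⟨1, (mul_one _).symm⟩
    rw [map_sub, sub_eq_zero, AlgHom.commutes] at h1
    change Matrix.toLinAlgEquiv' (φ i (zz n x)) = _
    rw [h1, AlgEquiv.commutes, Algebra.algebraMap_eq_smul_one]
  · intro i
    exact (hφ i).type
  · constructor
    · intro u v huv
      apply hb.1
      funext i
      have h1 := congrFun huv i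
      exact Matrix.toLinAlgEquiv'.injective h1
    · intro f
      obtain ⟨u, hu⟩ := hb.2 fun i => Matrix.toLinAlgEquiv'.symm (f i)
      refine ⟨u, ?_⟩
      funext i
      have h1 := congrFun hu i
      change φ i u = _ at h1
      change Matrix.toLinAlgEquiv' (φ i u) = _
      rw [h1, AlgEquiv.apply_symm_apply]
  · intro h
    rw [trace_lem (fun i : Idx x => dg i.1.1) φ hb h]
    refine Finset.sum_congr rfl fun i _ => ?_
    congr 1
    exact (Matrix.trace_toLin'_eq (φ i h)).symm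

end

end SYM
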