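import Pool.Agent.Lib.MP_b1ea0f_al.Defs4

/-!
# KAlg: the group point is the group algebra of the star group

At the group point `P n x g = X^{p_g} - 1`, the relations of `H n x` are those of the group algebra of `GG n`; universal properties.
-/

namespace SYM
open Polynomial Module

private theorem NZ_leg {n : ℕ} (hn : HN n) (g : Fin 3) : leg n g ∣ NZ n ∧ 0 < NZ n := by
  rcases hn with rfl | rfl | rfl <;> fin_cases g <;> simp [leg, BMM.pp, NZ]

private theorem P_group_aux {κ : Type} [Field κ] {n : ℕ} (hn : HN n) (ξ : κˣ) (x : J n → κˣ)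
    (h : IsGroupPoint ξ x) (g : Fin 3) : P n x g = X ^ leg n g - 1 := by
  classical
  obtain ⟨hdvd, hNZ⟩ := NZ_leg hn g
  have hpos := leg_pos hn g
  obtain ⟨m, hm⟩ := hdvd
  have hmpos : 0 < m := by
    rcases Nat.eq_zero_or_pos m with h0 | h0
    · rw [hm, h0] at hNZ; simp at hNZ
    · exact h0
  have hdiv : NZ n / leg n g = m := by
    rw [hm]
    exact Nat.mul_div_cancel_left m hpos
  have hprim : IsPrimitiveRoot ((ξ ^ m : κˣ) : κ) (leg n g) := by
    have h1 : IsPrimitiveRoot (ξ ^ m) (leg n g) := h.1.pow hNZ (by rw [hm, mul_comm])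
    exact IsPrimitiveRoot.coe_units_iff.2 h1
  rw [X_pow_sub_one_eq_prod hpos hprim]
  unfold P
  have hval : ∀ j : Fin (leg n g), ((x ⟨g, j⟩ : κˣ) : κ) = ((ξ ^ m : κˣ) : κ) ^ ((j : ℕ) + 1) := by
    intro j
    rw [h.2 ⟨g, j⟩]
    show ((ξ ^ (NZ n / leg n g * ((j : ℕ) + 1)) : κˣ) : κ) = _
    rw [hdiv, pow_mul]
    simp
  refine Finset.prod_bij (fun j _ => ((x ⟨g, j⟩ : κˣ) : κ)) ?_ ?_ ?_ ?_
  · intro j _
    rw [mem_nthRootsFinset hpos, hval j, ← pow_mul, mul_comm, pow_mul, hprim.pow_eq_one, one_pow]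
  · intro j _ j' _ hjj
    rw [hval j, hval j'] at hjj
    have hne : ((ξ ^ m : κˣ) : κ) ≠ 0 := Units.ne_zero _
    rw [pow_succ, pow_succ] at hjj
    have h2 := mul_right_cancel₀ hne hjj
    exact Fin.ext (hprim.pow_inj j.2 j'.2 h2)
  · intro b hb
    rw [mem_nthRootsFinset hpos] at hb
    have hb' : (b * (((ξ ^ m : κˣ) : κ))⁻¹) ^ leg n g = 1 := by
      rw [mul_pow, hb, inv_pow, hprim.pow_eq_one]
      simp
    have hz : NeZero (leg n g) := ⟨hpos.ne'⟩
    obtain ⟨i, hi, hib⟩ := hprim.eq_pow_of_pow_eq_one hb'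
    refine ⟨⟨i, hi⟩, Finset.mem_univ _, ?_⟩
    rw [hval]
    show ((ξ ^ m : κˣ) : κ) ^ (i + 1) = b
    have hne : ((ξ ^ m : κˣ) : κ) ≠ 0 := Units.ne_zero _
    rw [pow_succ, hib, mul_assoc, inv_mul_cancel₀ hne, mul_one]
  · intro j _
    rfl

theorem P_group {κ : Type} [Field κ] {n : ℕ} (hn : HN n) (ξ : κˣ) (x : J n → κˣ)
    (h : IsGroupPoint ξ x) (g : Fin 3) : P n x g = X ^ leg n g - 1 :=
  P_group_aux hn ξ x h g

private theorem gg_pow (n : ℕ) (g : Fin 3) : gg n g ^ leg n g = 1 := by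
  have h := PresentedGroup.one_of_mem (rels := {w | GRel n w}) (x := FreeGroup.of g ^ leg n g)
    (GRel.pow g)
  simpa [gg, PresentedGroup.of] using h

private theorem gg_comm (n : ℕ) (g : Fin 3) :
    (gg n 0 * gg n 1 * gg n 2) * gg n g = gg n g * (gg n 0 * gg n 1 * gg n 2) := by
  have h := PresentedGroup.one_of_mem (rels := {w | GRel n w}) (GRel.comm g)
  have h2 : (gg n 0 * gg n 1 * gg n 2) * gg n g * (gg n 0 * gg n 1 * gg n 2)⁻¹ * (gg n g)⁻¹ = 1 := by
    simpa [gg, PresentedGroup.of] using h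
  have h3 := mul_inv_eq_one.1 h2
  exact mul_inv_eq_iff_eq_mul.1 h3

private theorem gg_ext {n : ℕ} {M : Type} [Monoid M] (f1 f2 : GG n →* M)
    (h : ∀ g, f1 (gg n g) = f2 (gg n g)) : f1 = f2 := by
  have h1 : f1.toHomUnits = f2.toHomUnits := PresentedGroup.ext fun g => Units.ext (h g)
  ext x
  exact congrArg Units.val (DFunLike.congr_fun h1 x)

theorem group_alg {κ : Type} [Field κ] {n : ℕ} (hn : HN n) (ξ : κˣ) (x : J n → κˣ)
    (h : IsGroupPoint ξ x) : ∃ e : H n x ≃ₐ[κ] MonoidAlgebra κ (GG n),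
      ∀ g, e (gen n x g) = MonoidAlgebra.of κ (GG n) (gg n g) := by
  have hP := P_group_aux hn ξ x h
  have hstar : IsStar n x (fun g => MonoidAlgebra.of κ (GG n) (gg n g)) := by
    refine ⟨fun g => ?_, ?_, ?_⟩
    · rw [hP g]
      simp only [map_sub, map_pow, aeval_X, map_one]
      rw [← map_pow, gg_pow, map_one, sub_self]
    · simp only [← map_mul]
      congr 1
      have h1 := gg_comm n 0
      have h2 : gg n 0 * (gg n 1 * gg n 2 * gg n 0) = gg n 0 * (gg n 0 * gg n 1 * gg n 2) := by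
        rw [← h1]; group
      exact (mul_left_cancel h2).symm
    · simp only [← map_mul]
      congr 1
      have h1 := gg_comm n 2
      have h2 : (gg n 2 * gg n 0 * gg n 1) * gg n 2 = (gg n 0 * gg n 1 * gg n 2) * gg n 2 := by
        rw [h1]; group
      exact (mul_right_cancel h2).symm
  have hrel : ∀ r ∈ {w | GRel n w},
      FreeGroup.lift (fun g => (isUnit_gen x g).unit) r = 1 := by
    intro r hr
    have hr' : GRel n r := hr
    cases hr' with
    | pow g =>
      rw [map_pow, FreeGroup.lift_apply_of]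
      ext
      have h1 := (isStar_gen n x).poly g
      rw [hP g] at h1
      simp only [map_sub, map_pow, aeval_X, map_one] at h1
      simpa using sub_eq_zero.1 h1
    | comm g =>
      rw [map_mul, map_mul, map_mul, map_inv, map_inv, mul_inv_eq_one, mul_inv_eq_iff_eq_mul,
        map_mul, map_mul, FreeGroup.lift_apply_of, FreeGroup.lift_apply_of, FreeGroup.lift_apply_of,
        FreeGroup.lift_apply_of]
      ext
      have h1 := (isStar_gen n x).comm g
      simpa using h1
  let F : GG n →* H n x := (Units.coeHom (H n x)).comp (PresentedGroup.toGroup hrel)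
  have hF : ∀ g, F (gg n g) = gen n x g := by
    intro g
    show ((PresentedGroup.toGroup hrel (PresentedGroup.of g) : (H n x)ˣ) : H n x) = _
    rw [PresentedGroup.toGroup.of]
    simp
  let e : H n x ≃ₐ[κ] MonoidAlgebra κ (GG n) := AlgEquiv.ofAlgHom
    (lift n x (fun g => MonoidAlgebra.of κ (GG n) (gg n g)) hstar)
    (MonoidAlgebra.lift κ (H n x) (GG n) F)
    (by
      refine (MonoidAlgebra.lift κ (MonoidAlgebra κ (GG n)) (GG n)).symm.injective ?_
      refine gg_ext _ _ fun g => ?_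
      show lift n x _ hstar (MonoidAlgebra.lift κ (H n x) (GG n) F (MonoidAlgebra.of κ (GG n) (gg n g)))
        = MonoidAlgebra.of κ (GG n) (gg n g)
      rw [MonoidAlgebra.lift_of, hF, lift_gen])
    (by
      refine hom_ext fun g => ?_
      show MonoidAlgebra.lift κ (H n x) (GG n) F (lift n x _ hstar (gen n x g)) = gen n x g
      rw [lift_gen, MonoidAlgebra.lift_of, hF])
  exact ⟨e, fun g => lift_gen n x _ hstar g⟩

end SYM
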