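import Pool.Agent.Lib.MP_b1ea0f_al.Defs3

/-!
# KLaur: Laurent polynomial rings

The Laurent polynomial ring `AddMonoidAlgebra ℤ (σ →₀ ℤ)` (σ finite) is noetherian (quotient of a polynomial ring: surjection from `MvPolynomial (σ ⊕ σ) ℤ`), of characteristic zero, a domain; every element is a monomial unit times the image of a polynomial.
-/

namespace SYM
open Polynomial Module

instance noeth_laurent (σ : Type) [Finite σ] : IsNoetherianRing (Laurent σ) := by
  have : Module.Finite ℤ (σ →₀ ℤ) := inferInstance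
  have h1 : AddGroup.FG (σ →₀ ℤ) := Module.Finite.iff_addGroup_fg.1 this
  have h2 : AddMonoid.FG (σ →₀ ℤ) := AddGroup.fg_iff_addMonoid_fg.1 h1
  have : Algebra.FiniteType ℤ (Laurent σ) := inferInstance
  exact Algebra.FiniteType.isNoetherianRing ℤ _

instance domain_laurent (σ : Type) : IsDomain (Laurent σ) := by infer_instance

instance charZero_laurent (σ : Type) : CharZero (Laurent σ) := by
  refine ⟨fun a b h => ?_⟩
  have h1 : ((a : Laurent σ)).coeff 0 = ((b : Laurent σ)).coeff 0 := by rw [h]
  have h2 : ∀ n : ℕ, ((n : Laurent σ)).coeff 0 = (n : ℤ) := fun n => by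
    rw [AddMonoidAlgebra.coeff_natCast]
    exact Finsupp.single_eq_same
  rw [h2, h2] at h1
  exact_mod_cast h1

/-- the polynomial subring -/
noncomputable def polyMap (σ : Type) : MvPolynomial σ ℤ →+* Laurent σ :=
  MvPolynomial.eval₂Hom (Int.castRingHom _) fun i => ((Laurent.var i : (Laurent σ)ˣ) : Laurent σ)

private noncomputable def em (σ : Type) : (σ →₀ ℕ) →+ (σ →₀ ℤ) :=
  Finsupp.mapRange.addMonoidHom (Nat.castAddMonoidHom ℤ)

private theorem em_injective (σ : Type) : Function.Injective (em σ) := by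
  intro a b h
  ext i
  have := DFunLike.congr_fun h i
  simpa [em] using this

private theorem em_single {σ : Type} (i : σ) (n : ℕ) : em σ (Finsupp.single i n) = Finsupp.single i (n : ℤ) := by
  simp [em]

private theorem polyMap_eq (σ : Type) (p : MvPolynomial σ ℤ) :
    polyMap σ p = AddMonoidAlgebra.mapDomainRingHom ℤ (em σ) p := by
  have : polyMap σ = (AddMonoidAlgebra.mapDomainRingHom ℤ (em σ) : MvPolynomial σ ℤ →+* Laurent σ) := by
    apply MvPolynomial.ringHom_ext
    · intro r
      exact RingHom.congr_fun (RingHom.ext_int ((polyMap σ).comp MvPolynomial.C)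
        ((AddMonoidAlgebra.mapDomainRingHom ℤ (em σ) : MvPolynomial σ ℤ →+* Laurent σ).comp MvPolynomial.C)) r
    · intro i
      rw [polyMap, MvPolynomial.coe_eval₂Hom, MvPolynomial.eval₂_X]
      show _ = AddMonoidAlgebra.mapDomain (em σ) (AddMonoidAlgebra.single (Finsupp.single i 1) 1)
      rw [AddMonoidAlgebra.mapDomain_single, em_single]
      rfl
  rw [this]

theorem polyMap_injective (σ : Type) : Function.Injective (polyMap σ) := by
  intro a b h
  rw [polyMap_eq, polyMap_eq] at h
  exact AddMonoidAlgebra.mapDomain_injective (em_injective σ) h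

/-- the monomials -/
private theorem prod_var {σ : Type} [Fintype σ] (m : ℕ) :
    (∏ i, ((Laurent.var i : (Laurent σ)ˣ) : Laurent σ)) ^ m =
      polyMap σ ((∏ i, MvPolynomial.X i) ^ m) := by
  rw [map_pow, map_prod]
  congr 1
  refine Finset.prod_congr rfl fun i _ => ?_
  rw [polyMap, MvPolynomial.coe_eval₂Hom, MvPolynomial.eval₂_X]

private theorem var_pow {σ : Type} (i : σ) (m : ℕ) :
    ((Laurent.var i : (Laurent σ)ˣ) : Laurent σ) ^ m =
      AddMonoidAlgebra.single (Finsupp.single i (m : ℤ)) 1 := by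
  show (AddMonoidAlgebra.single (Finsupp.single i (1 : ℤ)) (1 : ℤ) : Laurent σ) ^ m = _
  rw [AddMonoidAlgebra.single_pow]
  simp

private theorem var_zpow {σ : Type} (i : σ) (m : ℤ) :
    (((Laurent.var i : (Laurent σ)ˣ) ^ m : (Laurent σ)ˣ) : Laurent σ) =
      AddMonoidAlgebra.single (Finsupp.single i m) 1 := by
  rcases Int.eq_nat_or_neg m with ⟨n, rfl | rfl⟩
  · rw [zpow_natCast, Units.val_pow_eq_pow_val, var_pow]
  · rw [zpow_neg, zpow_natCast, ← inv_pow, Units.val_pow_eq_pow_val]
    show (AddMonoidAlgebra.single (Finsupp.single i (-1 : ℤ)) (1 : ℤ) : Laurent σ) ^ n = _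
    rw [AddMonoidAlgebra.single_pow]
    simp

private theorem prod_single {σ : Type} [Fintype σ] (v : σ → ℤ) :
    ∏ i, (AddMonoidAlgebra.single (Finsupp.single i (v i)) (1 : ℤ) : Laurent σ) =
      AddMonoidAlgebra.single (∑ i, Finsupp.single i (v i)) 1 := by
  classical
  refine Finset.induction_on (Finset.univ : Finset σ) ?_ ?_
  · simp [AddMonoidAlgebra.one_def]
  · intro a s ha ih
    rw [Finset.prod_insert ha, Finset.sum_insert ha, ih, AddMonoidAlgebra.single_mul_single,
      mul_one]

theorem exists_poly {σ : Type} [Fintype σ] (f : Laurent σ) : ∃ (p : MvPolynomial σ ℤ) (m : ℕ),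
    f * (∏ i, ((Laurent.var i : (Laurent σ)ˣ) : Laurent σ)) ^ m = polyMap σ p := by
  induction f using AddMonoidAlgebra.induction_on with
  | of v =>
    classical
    obtain ⟨m, hm⟩ : ∃ m : ℕ, ∀ i, 0 ≤ v i + m := by
      refine ⟨∑ i, (v i).natAbs, fun i => ?_⟩
      have h1 : (v i).natAbs ≤ ∑ i, (v i).natAbs :=
        Finset.single_le_sum (f := fun i => (v i).natAbs)
          (fun _ _ => Nat.zero_le _) (Finset.mem_univ i)
      omega
    refine ⟨(AddMonoidAlgebra.single
      (Finsupp.equivFunOnFinite.symm fun i => (v i + m).toNat) 1 :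
        AddMonoidAlgebra ℤ (σ →₀ ℕ)), m, ?_⟩
    rw [polyMap_eq]
    show (AddMonoidAlgebra.single v (1 : ℤ) : Laurent σ) * _ =
      AddMonoidAlgebra.mapDomain (em σ) (AddMonoidAlgebra.single _ 1)
    rw [AddMonoidAlgebra.mapDomain_single, ← Finset.prod_pow]
    rw [Finset.prod_congr rfl fun i _ => var_pow i m, prod_single (fun _ => (m : ℤ)),
      AddMonoidAlgebra.single_mul_single, mul_one]
    congr 1
    ext i
    rw [Finsupp.add_apply, Finsupp.finsetSum_apply]
    simp only [em, Finsupp.single_apply, Finset.sum_ite_eq', Finset.mem_univ, if_true]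
    have := hm i
    simp
    omega
  | add f g hf hg =>
    obtain ⟨p, m, hp⟩ := hf
    obtain ⟨q, n, hq⟩ := hg
    refine ⟨p * (∏ i, MvPolynomial.X i) ^ n + q * (∏ i, MvPolynomial.X i) ^ m, m + n, ?_⟩
    rw [map_add, map_mul, map_mul, ← prod_var, ← prod_var, ← hp, ← hq]
    ring
  | smul r f hf =>
    obtain ⟨p, m, hp⟩ := hf
    refine ⟨MvPolynomial.C r * p, m, ?_⟩
    rw [map_mul, ← hp, polyMap, MvPolynomial.coe_eval₂Hom, MvPolynomial.eval₂_C, ← mul_assoc]
    congr 1
    rw [eq_intCast, zsmul_eq_mul]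

theorem lift_ext {σ : Type} {k : Type*} [CommRing k] {f g : Laurent σ →+* k}
    (h : ∀ i, f ((Laurent.var i : (Laurent σ)ˣ) : Laurent σ) = g ((Laurent.var i : (Laurent σ)ˣ) : Laurent σ)) : f = g := by
  apply AddMonoidAlgebra.ringHom_ext
  · intro r
    exact RingHom.congr_fun (RingHom.ext_int (f.comp AddMonoidAlgebra.singleZeroRingHom)
      (g.comp AddMonoidAlgebra.singleZeroRingHom)) r
  · intro v
    induction v using Finsupp.induction_linear with
    | zero =>
      rw [← AddMonoidAlgebra.one_def, map_one, map_one]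
    | add v w hv hw =>
      have : (AddMonoidAlgebra.single (v + w) (1 : ℤ) : Laurent σ) =
          AddMonoidAlgebra.single v 1 * AddMonoidAlgebra.single w 1 := by
        rw [AddMonoidAlgebra.single_mul_single, mul_one]
      rw [this, map_mul, map_mul, hv, hw]
    | single i m =>
      rw [← var_zpow]
      have h1 : ∀ φ : Laurent σ →+* k, φ (((Laurent.var i : (Laurent σ)ˣ) ^ m : (Laurent σ)ˣ) : Laurent σ) =
          (((Units.map (φ : Laurent σ →* k) (Laurent.var i)) ^ m : kˣ) : k) := fun φ => by
        rw [← map_zpow]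
        rfl
      rw [h1, h1]
      have h2 : Units.map (f : Laurent σ →* k) (Laurent.var i) =
          Units.map (g : Laurent σ →* k) (Laurent.var i) := Units.ext (h i)
      rw [h2]

theorem lift_eq {σ : Type} {k : Type*} [CommRing k] (f : Laurent σ →+* k) :
    f = Laurent.lift fun i => Units.map (f : Laurent σ →* k) (Laurent.var i) := by
  apply lift_ext
  intro i
  rw [Laurent.lift_var]
  rfl

end SYM
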