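import Pool.Agent.Lib.MP_b1ea0f_al.Defs4

/-!
# KProjR: modules with constant fibre dimension are projective; semicontinuity

Abstract: local freeness. For each maximal ideal `m`: `r` generators of `M_m` (Nakayama, residue field dimension ≤ r), surjection `A_m^r → M_m`, its kernel is torsion (dimension over the fraction field) inside a free module: zero. `Module.projective_of_localization_maximal` (finite presentation: noetherian).
-/

namespace SYM
open Polynomial Module

open TensorProduct in
private theorem kp_gen {A : Type} [CommRing A] {M : Type} [AddCommGroup M] [Module A M]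
    [Module.Finite A M] (κ : Type) [Field κ] [Algebra A κ] :
    ∃ (x : Fin (finrank κ (TensorProduct A κ M)) → M) (a : A), algebraMap A κ a ≠ 0 ∧
      ∀ m : M, a • m ∈ Submodule.span A (Set.range x) := by
  classical
  -- a basis of `κ ⊗ M` among the images of `M`
  have hsp : Submodule.span κ (Set.range (fun m : M => (1 : κ) ⊗ₜ[A] m)) = ⊤ := by
    rw [eq_top_iff]
    rintro z -
    induction z using TensorProduct.induction_on with
    | zero => exact Submodule.zero_mem _
    | tmul c m =>
      have : c ⊗ₜ[A] m = c • ((1 : κ) ⊗ₜ[A] m) := by
        rw [TensorProduct.smul_tmul', smul_eq_mul, mul_one]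
      rw [this]
      exact Submodule.smul_mem _ _ (Submodule.subset_span ⟨m, rfl⟩)
    | add z z' hz hz' => exact Submodule.add_mem _ hz hz'
  obtain ⟨b, hb1, hb2, hb3⟩ := exists_linearIndependent κ (Set.range (fun m : M => (1 : κ) ⊗ₜ[A] m))
  have hb4 : Submodule.span κ b = ⊤ := by rw [hb2, hsp]
  let B : Basis b κ (TensorProduct A κ M) := Basis.mk hb3 (by
    rw [Subtype.range_coe, hb4])
  have : Fintype b := FiniteDimensional.fintypeBasisIndex B
  have hcard : Fintype.card b = finrank κ (TensorProduct A κ M) :=
    (finrank_eq_card_basis B).symm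
  let e : Fin (finrank κ (TensorProduct A κ M)) ≃ b :=
    (Fintype.equivFinOfCardEq hcard).symm
  choose y hy using fun i : b => hb1 i.2
  let x : Fin (finrank κ (TensorProduct A κ M)) → M := fun i => y (e i)
  -- the quotient
  let N := M ⧸ Submodule.span A (Set.range x)
  have hN : Subsingleton (TensorProduct A κ N) := by
    refine ⟨fun u v => ?_⟩
    have key : ∀ u : TensorProduct A κ N, u = 0 := by
      intro u
      obtain ⟨w, rfl⟩ := LinearMap.lTensor_surjective κ
        (Submodule.mkQ_surjective (Submodule.span A (Set.range x))) u
      have hw : w ∈ Submodule.span κ b := by rw [hb4]; exact Submodule.mem_top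
      have hcomm : ∀ (c : κ) (w : TensorProduct A κ M),
          LinearMap.lTensor κ (Submodule.mkQ (Submodule.span A (Set.range x))) (c • w) =
          c • LinearMap.lTensor κ (Submodule.mkQ (Submodule.span A (Set.range x))) w := by
        intro c w
        exact (LinearMap.baseChange κ (Submodule.mkQ (Submodule.span A (Set.range x)))).map_smul c w
      induction hw using Submodule.span_induction with
      | mem w hw =>
        have h1 := hy ⟨w, hw⟩
        simp only at h1
        rw [← h1, LinearMap.lTensor_tmul]
        have h2 : (Submodule.mkQ (Submodule.span A (Set.range x))) (y ⟨w, hw⟩) = 0 := by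
          rw [Submodule.mkQ_apply, Submodule.Quotient.mk_eq_zero]
          apply Submodule.subset_span
          exact ⟨e.symm ⟨w, hw⟩, by simp [x]⟩
        rw [h2, TensorProduct.tmul_zero]
      | zero => exact map_zero _
      | add w w' _ _ h h' => rw [map_add, h, h', add_zero]
      | smul c w _ h => rw [hcomm, h, smul_zero]
    rw [key u, key v]
  -- the prime ideal
  let p : Ideal A := RingHom.ker (algebraMap A κ)
  have hp : p.IsPrime := RingHom.ker_isPrime _
  let P : PrimeSpectrum A := ⟨p, hp⟩
  have hnot : P ∉ Module.support A N := by
    rw [Module.mem_support_iff_nontrivial_residueField_tensorProduct,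
      not_nontrivial_iff_subsingleton]
    let φ : P.asIdeal.ResidueField →+* κ := Ideal.ResidueField.lift P.asIdeal (algebraMap A κ)
      (le_refl _) (by
        intro s hs
        change IsUnit (algebraMap A κ s)
        rw [isUnit_iff_ne_zero]
        exact hs)
    letI : Algebra P.asIdeal.ResidueField κ := φ.toAlgebra
    have : IsScalarTower A P.asIdeal.ResidueField κ := IsScalarTower.of_algebraMap_eq (fun r => by
      change _ = φ (algebraMap _ _ r)
      rw [Ideal.ResidueField.lift_algebraMap])
    have e1 := (TensorProduct.AlgebraTensorModule.cancelBaseChange A P.asIdeal.ResidueField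
      κ κ N)
    have h3 : Subsingleton (TensorProduct P.asIdeal.ResidueField κ
        (TensorProduct A P.asIdeal.ResidueField N)) := e1.toEquiv.subsingleton
    exact (Module.FaithfullyFlat.subsingleton_tensorProduct_iff_right
      P.asIdeal.ResidueField κ).1 h3
  rw [Module.mem_support_iff_of_finite] at hnot
  obtain ⟨a, ha, ha'⟩ := SetLike.not_le_iff_exists.1 hnot
  refine ⟨x, a, ha', fun m => ?_⟩
  rw [Module.mem_annihilator] at ha
  have := ha (Submodule.Quotient.mk m)
  rwa [← Submodule.Quotient.mk_smul, Submodule.Quotient.mk_eq_zero] at this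

open TensorProduct in
private theorem kp_span {A : Type} [CommRing A] [IsDomain A] {M : Type} [AddCommGroup M]
    [Module A M] {n : ℕ} (x : Fin n → M) (a : A) (ha : a ≠ 0)
    (h : ∀ m : M, a • m ∈ Submodule.span A (Set.range x)) :
    Submodule.span (FractionRing A) (Set.range (fun i => (1 : FractionRing A) ⊗ₜ[A] x i)) = ⊤ := by
  rw [eq_top_iff]
  rintro z -
  have key : ∀ m : M, m ∈ Submodule.span A (Set.range x) → (1 : FractionRing A) ⊗ₜ[A] m ∈
      Submodule.span (FractionRing A) (Set.range (fun i => (1 : FractionRing A) ⊗ₜ[A] x i)) := by
    intro m hm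
    induction hm using Submodule.span_induction with
    | mem m hm =>
      obtain ⟨i, rfl⟩ := hm
      exact Submodule.subset_span ⟨i, rfl⟩
    | zero => rw [TensorProduct.tmul_zero]; exact Submodule.zero_mem _
    | add m m' _ _ hm hm' => rw [TensorProduct.tmul_add]; exact Submodule.add_mem _ hm hm'
    | smul c m _ hm =>
      have : (1 : FractionRing A) ⊗ₜ[A] (c • m) = algebraMap A (FractionRing A) c •
          ((1 : FractionRing A) ⊗ₜ[A] m) := by
        rw [TensorProduct.tmul_smul, algebraMap_smul]
      rw [this]
      exact Submodule.smul_mem _ _ hm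
  have ha' : algebraMap A (FractionRing A) a ≠ 0 := by
    rwa [Ne, IsFractionRing.to_map_eq_zero_iff]
  induction z using TensorProduct.induction_on with
  | zero => exact Submodule.zero_mem _
  | tmul c m =>
    have : c ⊗ₜ[A] m = (c * (algebraMap A (FractionRing A) a)⁻¹) •
        ((1 : FractionRing A) ⊗ₜ[A] (a • m)) := by
      rw [TensorProduct.tmul_smul, ← algebraMap_smul (FractionRing A) a
        ((1 : FractionRing A) ⊗ₜ[A] m), smul_smul, mul_assoc, inv_mul_cancel₀ ha', mul_one,
        TensorProduct.smul_tmul', smul_eq_mul, mul_one]
    rw [this]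
    exact Submodule.smul_mem _ _ (key _ (h m))
  | add z z' hz hz' => exact Submodule.add_mem _ hz hz'

/-- semicontinuity -/
theorem rank_le_residue {A : Type} [CommRing A] [IsDomain A] {M : Type}
    [AddCommGroup M] [Module A M] [Module.Finite A M] (κ : Type) [Field κ] [Algebra A κ] :
    finrank (FractionRing A) (TensorProduct A (FractionRing A) M) ≤
      finrank κ (TensorProduct A κ M) := by
  obtain ⟨x, a, ha, h⟩ := kp_gen (A := A) (M := M) κ
  have ha' : a ≠ 0 := by rintro rfl; exact ha (map_zero _)
  have h1 := kp_span x a ha' h
  have h2 := finrank_range_le_card (R := FractionRing A)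
    (fun i => TensorProduct.tmul A (1 : FractionRing A) (x i))
  rw [Set.finrank, h1, finrank_top, Fintype.card_fin] at h2
  exact h2

theorem projective_of_rank {A : Type} [CommRing A] [IsDomain A] [IsNoetherianRing A] {M : Type}
    [AddCommGroup M] [Module A M] [Module.Finite A M] (r : ℕ)
    (h1 : finrank (FractionRing A) (TensorProduct A (FractionRing A) M) = r)
    (h2 : ∀ (κ : Type) [Field κ] [Algebra A κ], finrank κ (TensorProduct A κ M) ≤ r) :
    Module.Projective A M := by
  have : Module.FinitePresentation A M := Module.finitePresentation_of_finite A M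
  refine Module.projective_of_localization_maximal (fun I hI => ?_)
  letI : Field (A ⧸ I) := Ideal.Quotient.field I
  have hr : finrank (A ⧸ I) (TensorProduct A (A ⧸ I) M) = r :=
    le_antisymm (h2 (A ⧸ I)) (h1 ▸ rank_le_residue (A ⧸ I))
  have h0 := kp_gen (A := A) (M := M) (A ⧸ I)
  rw [hr] at h0
  obtain ⟨x, a, ha, h⟩ := h0
  have ha0 : a ≠ 0 := by rintro rfl; exact ha (map_zero _)
  have haI : a ∈ I.primeCompl := by
    intro haI
    apply ha
    rw [Ideal.Quotient.algebraMap_eq]
    exact Ideal.Quotient.eq_zero_iff_mem.2 haI
  have hlK : LinearIndependent (FractionRing A)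
      (fun i => TensorProduct.tmul A (1 : FractionRing A) (x i)) := by
    apply linearIndependent_of_top_le_span_of_card_eq_finrank
    · exact le_of_eq (kp_span x a ha0 h).symm
    · rw [Fintype.card_fin, h1]
  have hlA : LinearIndependent A x := by
    rw [Fintype.linearIndependent_iff] at hlK ⊢
    intro g hg i
    have h3 := hlK (fun i => algebraMap A (FractionRing A) (g i)) (by
      have h4 : ∀ i, algebraMap A (FractionRing A) (g i) •
          TensorProduct.tmul A (1 : FractionRing A) (x i) =
          TensorProduct.tmul A (1 : FractionRing A) (g i • x i) := by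
        intro i
        rw [TensorProduct.tmul_smul, algebraMap_smul]
      rw [Finset.sum_congr rfl (fun i _ => h4 i), ← TensorProduct.tmul_sum, hg,
        TensorProduct.tmul_zero]) i
    exact (IsFractionRing.to_map_eq_zero_iff (K := FractionRing A)).1 h3
  let f : (Fin r →₀ A) →ₗ[A] M := Finsupp.linearCombination A x
  have hf : Function.Injective f := hlA
  have hinj := LocalizedModule.map_injective I.primeCompl f hf
  have hsur : Function.Surjective (LocalizedModule.map I.primeCompl f) := by
    intro y
    induction y using LocalizedModule.induction_on with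
    | h m s =>
      have h5 := h m
      rw [← Finsupp.range_linearCombination] at h5
      obtain ⟨v, hv⟩ := h5
      refine ⟨LocalizedModule.mk v (⟨a, haI⟩ * s), ?_⟩
      rw [LocalizedModule.map_mk]
      have h6 : f v = (⟨a, haI⟩ : I.primeCompl) • m := hv
      rw [h6, LocalizedModule.mk_cancel_common_left]
  have : Module.Projective (Localization.AtPrime I)
      (LocalizedModule I.primeCompl (Fin r →₀ A)) := inferInstance
  exact Module.Projective.of_equiv (LinearEquiv.ofBijective
    (LocalizedModule.map I.primeCompl f) ⟨hinj, hsur⟩)

end SYM
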