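import Pool.Agent.Lib.MP_b1ea0f_al.Defs4

/-!
# SWord: words, braid relation modulo shorter words

Paper section 2. `gw 0 = 1`, `gw 1 = a₀^{-1}`, `gw 2 = (a₀a₁)^{-1}` in `(H n x)ˣ`. `val w = gw i₁ (gw i₂)^{-1} gw i₃ ...`.
-/

namespace SYM
open Polynomial Module

section
variable {n : ℕ} {k : Type*} [CommRing k] (x : J n → kˣ)

/-- `g_1 = 1, g_2 = a^{-1}, g_3 = (ab)^{-1}` -/
noncomputable def gw : Fin 3 → (H n x)ˣ :=
  ![1, (wd n x (FreeGroup.of 0))⁻¹, (wd n x (FreeGroup.of 0 * FreeGroup.of 1))⁻¹]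

/-- value of a word, alternating exponents starting with `+` (`s = true`) or `-` -/
noncomputable def val : Bool → List (Fin 3) → (H n x)ˣ
  | _, [] => 1
  | true, i :: w => gw x i * val false w
  | false, i :: w => (gw x i)⁻¹ * val true w

/-- alternating word `i j i ...` of length `m` -/
def alt (i j : Fin 3) : ℕ → List (Fin 3)
  | 0 => []
  | m + 1 => i :: alt j i m

/-- the Coxeter matrix `m_12 = 2, m_23 = 3, m_13 = n` -/
def cox (n : ℕ) (i j : Fin 3) : ℕ :=
  if i = j then 1 else if (i = 0 ∧ j = 1) ∨ (i = 1 ∧ j = 0) then 2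
  else if (i = 1 ∧ j = 2) ∨ (i = 2 ∧ j = 1) then 3 else n

/-! ### values of words -/

private theorem sw_append (s : Bool) (u v : List (Fin 3)) :
    val x s (u ++ v) = val x s u * val x (s ^^ decide (u.length % 2 = 1)) v := by
  induction u generalizing s with
  | nil =>
    cases s <;> simp [val]
  | cons i u ih =>
    have hp : (decide ((u.length + 1) % 2 = 1)) = !(decide (u.length % 2 = 1)) := by
      by_cases h : u.length % 2 = 1
      · have h2 : ¬ ((u.length + 1) % 2 = 1) := by omega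
        simp [h, h2]
      · have h2 : (u.length + 1) % 2 = 1 := by omega
        simp [h, h2]
    cases s
    · show (gw x i)⁻¹ * val x true (u ++ v) = (gw x i)⁻¹ * val x true u *
        val x (false ^^ decide ((u.length + 1) % 2 = 1)) v
      rw [ih, hp, mul_assoc]
      cases decide (u.length % 2 = 1) <;> rfl
    · show gw x i * val x false (u ++ v) = gw x i * val x false u *
        val x (true ^^ decide ((u.length + 1) % 2 = 1)) v
      rw [ih, hp, mul_assoc]
      cases decide (u.length % 2 = 1) <;> rfl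

private theorem sw_alt_length (i j : Fin 3) (l : ℕ) : (alt i j l).length = l := by
  induction l generalizing i j with
  | zero => rfl
  | succ l ih => simp [alt, ih]

private theorem sw_alt_two (s : Bool) (i j : Fin 3) (l : ℕ) :
    val x s (alt i j (l + 2)) = val x s [i, j] * val x s (alt i j l) := by
  cases s
  · show (gw x i)⁻¹ * (gw x j * val x false (alt i j l)) =
      ((gw x i)⁻¹ * (gw x j * 1)) * val x false (alt i j l)
    simp only [mul_one, mul_assoc]
  · show gw x i * ((gw x j)⁻¹ * val x true (alt i j l)) =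
      (gw x i * ((gw x j)⁻¹ * 1)) * val x true (alt i j l)
    simp only [mul_one, mul_assoc]

private theorem sw_pair_inv (s : Bool) (i j : Fin 3) : val x s [j, i] = (val x s [i, j])⁻¹ := by
  cases s
  · show (gw x j)⁻¹ * (gw x i * 1) = ((gw x i)⁻¹ * (gw x j * 1))⁻¹
    simp only [mul_one, mul_inv_rev, inv_inv]
  · show gw x j * ((gw x i)⁻¹ * 1) = (gw x i * ((gw x j)⁻¹ * 1))⁻¹
    simp only [mul_one, mul_inv_rev, inv_inv]

/-- `alt j i m` shortened -/
private theorem sw_down (s : Bool) (i j : Fin 3) (t l : ℕ) :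
    val x s (alt j i l) = val x s [i, j] ^ t * val x s (alt j i (l + 2 * t)) := by
  induction t with
  | zero => simp
  | succ t ih =>
    have h1 : l + 2 * (t + 1) = (l + 2 * t) + 2 := by ring
    rw [h1, sw_alt_two, sw_pair_inv x s i j, pow_succ, mul_assoc, mul_inv_cancel_left]
    exact ih

private theorem sw_up (s : Bool) (i j : Fin 3) (t l : ℕ) :
    val x s (alt i j (l + 2 * t)) = val x s [i, j] ^ t * val x s (alt i j l) := by
  induction t with
  | zero => simp
  | succ t ih =>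
    have h1 : l + 2 * (t + 1) = (l + 2 * t) + 2 := by ring
    rw [h1, sw_alt_two, ih, pow_succ', mul_assoc]

private theorem sw_one (s : Bool) (i j : Fin 3) :
    val x s (alt i j 1) = val x s [i, j] * val x s (alt j i 1) := by
  cases s
  · show (gw x i)⁻¹ * 1 = ((gw x i)⁻¹ * (gw x j * 1)) * ((gw x j)⁻¹ * 1)
    simp only [mul_one, mul_inv_cancel_right]
  · show gw x i * 1 = (gw x i * ((gw x j)⁻¹ * 1)) * (gw x j * 1)
    simp only [mul_one, inv_mul_cancel_right]

/-- the words with the values `X^t * val (alt j i m)`, `X = val [i, j]` -/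
private def swd (i j : Fin 3) (m t : ℕ) : List (Fin 3) :=
  if 2 * t ≤ m then alt j i (m - 2 * t) else alt i j (2 * t - m)

private theorem swd_length (i j : Fin 3) (m t : ℕ) :
    (swd i j m t).length = if 2 * t ≤ m then m - 2 * t else 2 * t - m := by
  unfold swd
  split_ifs <;> exact sw_alt_length _ _ _

private theorem swd_val (s : Bool) (i j : Fin 3) (m t : ℕ) :
    val x s (swd i j m t) = val x s [i, j] ^ t * val x s (alt j i m) := by
  unfold swd
  split_ifs with h
  · have h1 := sw_down x s i j t (m - 2 * t)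
    rwa [Nat.sub_add_cancel h] at h1
  · rcases Nat.even_or_odd' m with ⟨c, hc | hc⟩
    · obtain ⟨e, he⟩ : ∃ e, t = c + e := ⟨t - c, by omega⟩
      have h1 : 2 * t - m = 0 + 2 * e := by omega
      have h2 := sw_down x s i j c 0
      have h3 : m = 0 + 2 * c := by omega
      rw [h1, sw_up, he, pow_add, pow_mul_comm, mul_assoc, h3, ← h2]
      rfl
    · obtain ⟨e, he⟩ : ∃ e, t = c + 1 + e := ⟨t - (c + 1), by omega⟩
      have h1 : 2 * t - m = 1 + 2 * e := by omega
      have h2 := sw_down x s i j c 1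
      have h3 : m = 1 + 2 * c := by omega
      rw [h1, sw_up, sw_one, h2, ← h3, he]
      rw [← mul_assoc, ← mul_assoc, ← pow_succ, ← pow_add]
      congr 2
      ring

private theorem swd_zero (i j : Fin 3) (m : ℕ) : swd i j m 0 = alt j i m := by
  unfold swd
  rw [if_pos (by omega)]
  rfl

private theorem swd_top (i j : Fin 3) (m : ℕ) (hm : 0 < m) : swd i j m m = alt i j m := by
  unfold swd
  rw [if_neg (by omega)]
  congr 1
  omega

/-! ### the polynomial relations -/

private theorem sw_zcomm (e : ℤ) (g : (H n x)ˣ) : zu n x ^ e * g = g * zu n x ^ e := by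
  have h : Commute (zu n x) g := by
    apply Units.ext
    rw [Units.val_mul, Units.val_mul, zu_val]
    exact zz_comm n x _
  exact h.zpow_left e

/-- `X` satisfies a polynomial relation of degree `m` over `k[z^{±1}]` with unit end terms -/
private def SRel (X : (H n x)ˣ) (m : ℕ) : Prop :=
  ∃ (p : ℕ → k) (e : ℕ → ℤ), IsUnit (p 0) ∧ IsUnit (p m) ∧
    ∑ t ∈ Finset.range (m + 1), p t • ((zu n x ^ e t * X ^ t : (H n x)ˣ) : H n x) = 0

private theorem SRel.inv {X : (H n x)ˣ} {m : ℕ} (h : SRel x X m) : SRel x X⁻¹ m := by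
  obtain ⟨p, e, h0, hm, hs⟩ := h
  refine ⟨fun t => p (m - t), fun t => e (m - t), by simpa using hm, by simpa using h0, ?_⟩
  have h1 : ∀ t ∈ Finset.range (m + 1), p (m - t) •
      ((zu n x ^ e (m - t) * X⁻¹ ^ t : (H n x)ˣ) : H n x) =
      ((X⁻¹ ^ m : (H n x)ˣ) : H n x) *
        (fun t => p t • ((zu n x ^ e t * X ^ t : (H n x)ˣ) : H n x)) (m - t) := by
    intro t ht
    have ht' : t ≤ m := by
      have := Finset.mem_range.1 ht
      omega
    beta_reduce
    rw [mul_smul_comm, ← Units.val_mul]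
    congr 2
    rw [← mul_assoc, ← sw_zcomm, mul_assoc]
    congr 1
    have h2 : X⁻¹ ^ m = X⁻¹ ^ t * X⁻¹ ^ (m - t) := by
      rw [← pow_add, Nat.add_sub_cancel' ht']
    rw [h2, mul_assoc, inv_pow X (m - t), inv_mul_cancel, mul_one]
  rw [Finset.sum_congr rfl h1, ← Finset.mul_sum,
    Finset.sum_flip (fun t => p t • ((zu n x ^ e t * X ^ t : (H n x)ˣ) : H n x)), hs, mul_zero]

private theorem SRel.conj {X : (H n x)ˣ} {m : ℕ} (h : SRel x X m) (g : (H n x)ˣ) :
    SRel x (g * X * g⁻¹) m := by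
  obtain ⟨p, e, h0, hm, hs⟩ := h
  refine ⟨p, e, h0, hm, ?_⟩
  have h1 : ∀ t ∈ Finset.range (m + 1), p t •
      ((zu n x ^ e t * (g * X * g⁻¹) ^ t : (H n x)ˣ) : H n x) =
      (g : H n x) * (p t • ((zu n x ^ e t * X ^ t : (H n x)ˣ) : H n x)) *
        ((g⁻¹ : (H n x)ˣ) : H n x) := by
    intro t _
    rw [mul_smul_comm, smul_mul_assoc, ← Units.val_mul, ← Units.val_mul]
    congr 2
    rw [conj_pow, ← mul_assoc, ← mul_assoc, sw_zcomm, mul_assoc g, mul_assoc g]
  rw [Finset.sum_congr rfl h1, ← Finset.sum_mul, ← Finset.mul_sum, hs, mul_zero, zero_mul]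

private theorem SRel.scale {X : (H n x)ˣ} {m : ℕ} (h : SRel x X m) (a : ℤ) :
    SRel x (zu n x ^ a * X) m := by
  obtain ⟨p, e, h0, hm, hs⟩ := h
  refine ⟨p, fun t => e t - a * t, h0, hm, ?_⟩
  rw [← hs]
  apply Finset.sum_congr rfl
  intro t _
  congr 2
  have hc : Commute (zu n x ^ a) X := sw_zcomm x a X
  rw [hc.mul_pow, ← mul_assoc, ← zpow_natCast, ← zpow_mul, ← zpow_add]
  congr 2
  ring

private theorem SRel.base (g : Fin 3) : SRel x (wd n x (FreeGroup.of g)) (leg n g) := by
  rcases subsingleton_or_nontrivial k with hk | hk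
  · have hH : Subsingleton (H n x) := Module.subsingleton k _
    exact ⟨fun _ => 1, fun _ => 0, isUnit_one, isUnit_one, Subsingleton.elim _ _⟩
  · have hmon : (P n x g).Monic := by
      unfold P
      exact Polynomial.monic_prod_of_monic _ _ (fun j _ => Polynomial.monic_X_sub_C _)
    have hdeg : (P n x g).natDegree = leg n g := by
      unfold P
      rw [Polynomial.natDegree_prod_of_monic _ _ (fun j _ => Polynomial.monic_X_sub_C _)]
      simp
    refine ⟨fun t => (P n x g).coeff t, fun _ => 0, ?_, ?_, ?_⟩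
    · have h1 : (P n x g).coeff 0 = ∏ j : Fin (leg n g), (- ((x ⟨g, j⟩ : kˣ) : k)) := by
        rw [Polynomial.coeff_zero_eq_eval_zero]
        simp [P, Polynomial.eval_prod]
      have h2 : (∏ j : Fin (leg n g), (- ((x ⟨g, j⟩ : kˣ) : k))) =
          ((∏ j : Fin (leg n g), (- x ⟨g, j⟩) : kˣ) : k) := by simp
      beta_reduce
      rw [h1, h2]
      exact Units.isUnit _
    · beta_reduce
      rw [← hdeg]
      show IsUnit (P n x g).leadingCoeff
      rw [hmon.leadingCoeff]
      exact isUnit_one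
    · have h1 := (isStar_gen n x).poly g
      rw [Polynomial.aeval_eq_sum_range, hdeg] at h1
      rw [← h1]
      apply Finset.sum_congr rfl
      intro t _
      rw [zpow_zero, one_mul, Units.val_pow_eq_pow_val, wd_of]

private theorem gw_zero : gw x 0 = 1 := rfl

private theorem gw_one : gw x 1 = (wd n x (FreeGroup.of 0))⁻¹ := rfl

private theorem gw_two : gw x 2 = (wd n x (FreeGroup.of 0 * FreeGroup.of 1))⁻¹ := rfl

private theorem sw_g01 : gw x 0 * (gw x 1)⁻¹ = wd n x (FreeGroup.of 0) := by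
  rw [gw_zero, gw_one, inv_inv, one_mul]

private theorem sw_g12 : gw x 1 * (gw x 2)⁻¹ = wd n x (FreeGroup.of 1) := by
  rw [gw_one, gw_two, inv_inv, map_mul, inv_mul_cancel_left]

private theorem sw_g02 : gw x 0 * (gw x 2)⁻¹ = zu n x ^ (1 : ℤ) * (wd n x (FreeGroup.of 2))⁻¹ := by
  rw [gw_zero, gw_two, inv_inv, one_mul, zpow_one, zu,
    map_mul (wd n x) (FreeGroup.of 0 * FreeGroup.of 1) (FreeGroup.of 2), mul_inv_cancel_right]

private theorem sw_rel01 : SRel x (gw x 0 * (gw x 1)⁻¹) 2 := by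
  have h := SRel.base x (0 : Fin 3)
  have hl : leg n 0 = 2 := rfl
  rw [hl] at h
  rw [sw_g01]
  exact h

private theorem sw_rel12 : SRel x (gw x 1 * (gw x 2)⁻¹) 3 := by
  have h := SRel.base x (1 : Fin 3)
  have hl : leg n 1 = 3 := rfl
  rw [hl] at h
  rw [sw_g12]
  exact h

private theorem sw_rel02 : SRel x (gw x 0 * (gw x 2)⁻¹) n := by
  have h := SRel.base x (2 : Fin 3)
  have hl : leg n 2 = n := rfl
  rw [hl] at h
  rw [sw_g02]
  exact SRel.scale x (SRel.inv x h) 1

private theorem sw_swap (i j : Fin 3) (m : ℕ) (h : SRel x (gw x i * (gw x j)⁻¹) m) :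
    SRel x (gw x j * (gw x i)⁻¹) m := by
  have h1 : gw x j * (gw x i)⁻¹ = (gw x i * (gw x j)⁻¹)⁻¹ := by
    rw [mul_inv_rev, inv_inv]
  rw [h1]
  exact SRel.inv x h

private theorem cox01 (n : ℕ) : cox n 0 1 = 2 := rfl
private theorem cox10 (n : ℕ) : cox n 1 0 = 2 := rfl
private theorem cox12 (n : ℕ) : cox n 1 2 = 3 := rfl
private theorem cox21 (n : ℕ) : cox n 2 1 = 3 := rfl
private theorem cox02 (n : ℕ) : cox n 0 2 = n := rfl
private theorem cox20 (n : ℕ) : cox n 2 0 = n := rfl

private theorem sw_cases (i j : Fin 3) (hij : i ≠ j) :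
    (i = 0 ∧ j = 1) ∨ (i = 1 ∧ j = 0) ∨ (i = 1 ∧ j = 2) ∨ (i = 2 ∧ j = 1) ∨ (i = 0 ∧ j = 2) ∨
      (i = 2 ∧ j = 0) := by
  revert i j
  decide

private theorem sw_rel_true (i j : Fin 3) (hij : i ≠ j) :
    SRel x (gw x i * (gw x j)⁻¹) (cox n i j) := by
  rcases sw_cases i j hij with ⟨rfl, rfl⟩ | ⟨rfl, rfl⟩ | ⟨rfl, rfl⟩ | ⟨rfl, rfl⟩ | ⟨rfl, rfl⟩ |
    ⟨rfl, rfl⟩
  · rw [cox01]
    exact sw_rel01 x
  · rw [cox10]
    exact sw_swap x 0 1 2 (sw_rel01 x)
  · rw [cox12]
    exact sw_rel12 x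
  · rw [cox21]
    exact sw_swap x 1 2 3 (sw_rel12 x)
  · rw [cox02]
    exact sw_rel02 x
  · rw [cox20]
    exact sw_swap x 0 2 n (sw_rel02 x)

private theorem sw_rel (s : Bool) (i j : Fin 3) (hij : i ≠ j) :
    SRel x (val x s [i, j]) (cox n i j) := by
  cases s
  · have h := SRel.conj x (SRel.inv x (sw_rel_true x i j hij)) ((gw x i)⁻¹)
    have h1 : val x false [i, j] =
        (gw x i)⁻¹ * (gw x i * (gw x j)⁻¹)⁻¹ * ((gw x i)⁻¹)⁻¹ := by
      show (gw x i)⁻¹ * (gw x j * 1) = _
      rw [mul_one, mul_inv_rev, inv_inv, inv_inv, mul_assoc, mul_assoc, inv_mul_cancel, mul_one]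
    rw [h1]
    exact h
  · have h := sw_rel_true x i j hij
    have h1 : val x true [i, j] = gw x i * (gw x j)⁻¹ := by
      show gw x i * ((gw x j)⁻¹ * 1) = _
      rw [mul_one]
    rw [h1]
    exact h

private theorem cox_pos (hn : HN n) (i j : Fin 3) : 0 < cox n i j := by
  have hn0 : 0 < n := by rcases hn with h | h | h <;> omega
  unfold cox
  split_ifs <;> omega

theorem val_append (s : Bool) (u v : List (Fin 3)) :
    val x s (u ++ v) = val x s u * val x (s ^^ decide (u.length % 2 = 1)) v :=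
  sw_append x s u v

theorem val_cancel (s : Bool) (u v : List (Fin 3)) (i : Fin 3) :
    val x s (u ++ i :: i :: v) = val x s (u ++ v) := by
  rw [val_append, val_append]
  congr 1
  cases (s ^^ decide (u.length % 2 = 1))
  · show (gw x i)⁻¹ * (gw x i * val x false v) = val x false v
    rw [inv_mul_cancel_left]
  · show gw x i * ((gw x i)⁻¹ * val x true v) = val x true v
    rw [mul_inv_cancel_left]

/-- span over `k[z^{±1}]` of the values of the words of length `≤ r` and the parity of `r` -/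
noncomputable def UU (s : Bool) (r : ℕ) : Submodule k (H n x) :=
  Submodule.span k {h | ∃ (m : ℤ) (w : List (Fin 3)), w.length ≤ r ∧ w.length % 2 = r % 2 ∧
    h = ((zu n x ^ m : (H n x)ˣ) : H n x) * (val x s w : (H n x)ˣ)}

/-- the braid relation: `val(alt i j m) = unit · z^e · val(alt j i m)` modulo shorter words -/
theorem val_braid (hn : HN n) (s : Bool) (i j : Fin 3) (hij : i ≠ j) (u v : List (Fin 3)) :
    ∃ (c : kˣ) (e : ℤ), ((val x s (u ++ alt i j (cox n i j) ++ v) : (H n x)ˣ) : H n x) -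
      (c : k) • (((zu n x ^ e : (H n x)ˣ) : H n x) *
        (val x s (u ++ alt j i (cox n i j) ++ v) : (H n x)ˣ)) ∈
      ⨆ r' < (u ++ alt i j (cox n i j) ++ v).length, ⨆ (_ : r' % 2 =
        (u ++ alt i j (cox n i j) ++ v).length % 2), UU x s r' := by
  obtain ⟨m, hm⟩ : ∃ m, m = cox n i j := ⟨_, rfl⟩
  have hmpos : 0 < m := by
    rw [hm]
    exact cox_pos hn i j
  obtain ⟨s', hs'⟩ : ∃ s', s' = (s ^^ decide (u.length % 2 = 1)) := ⟨_, rfl⟩
  obtain ⟨p, e, h0, hpm, hsum⟩ := sw_rel x s' i j hij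
  rw [← hm] at hpm hsum ⊢
  obtain ⟨p0, hp0⟩ := h0
  obtain ⟨pm, hpm⟩ := hpm
  -- the words
  have hval : ∀ t, t ≤ m → val x s (u ++ swd i j m t ++ v) =
      val x s u * (val x s' [i, j] ^ t * val x s' (alt j i m)) *
        val x (s ^^ decide ((u ++ alt i j m).length % 2 = 1)) v := by
    intro t ht
    have hpar : (u ++ swd i j m t).length % 2 = (u ++ alt i j m).length % 2 := by
      rw [List.length_append, List.length_append, swd_length, sw_alt_length]
      split_ifs <;> omega
    rw [sw_append, hpar, sw_append, ← hs', swd_val]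
  have hA : ∑ t ∈ Finset.range (m + 1),
      p t • ((zu n x ^ e t * val x s (u ++ swd i j m t ++ v) : (H n x)ˣ) : H n x) = 0 := by
    have h1 : ∀ t ∈ Finset.range (m + 1),
        p t • ((zu n x ^ e t * val x s (u ++ swd i j m t ++ v) : (H n x)ˣ) : H n x) =
        ((val x s u : (H n x)ˣ) : H n x) *
          (p t • ((zu n x ^ e t * val x s' [i, j] ^ t : (H n x)ˣ) : H n x)) *
          ((val x s' (alt j i m) *
            val x (s ^^ decide ((u ++ alt i j m).length % 2 = 1)) v : (H n x)ˣ) : H n x) := by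
      intro t ht
      rw [mul_smul_comm, smul_mul_assoc, ← Units.val_mul, ← Units.val_mul]
      congr 2
      rw [hval t (by have := Finset.mem_range.1 ht; omega)]
      rw [← mul_assoc (val x s u) (zu n x ^ e t), ← sw_zcomm]
      simp only [mul_assoc]
    rw [Finset.sum_congr rfl h1, ← Finset.sum_mul, ← Finset.mul_sum, hsum, mul_zero, zero_mul]
  obtain ⟨V, hV⟩ : ∃ V : ℕ → H n x, V = fun t =>
      (((pm⁻¹ : kˣ) : k) * p t) •
        ((zu n x ^ (e t - e m) * val x s (u ++ swd i j m t ++ v) : (H n x)ˣ) : H n x) := ⟨_, rfl⟩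
  have hVsum : ∑ t ∈ Finset.range (m + 1), V t = 0 := by
    have h1 : ∀ t ∈ Finset.range (m + 1), V t = ((pm⁻¹ : kˣ) : k) •
        (((zu n x ^ (- e m) : (H n x)ˣ) : H n x) *
          (p t • ((zu n x ^ e t * val x s (u ++ swd i j m t ++ v) : (H n x)ˣ) : H n x))) := by
      intro t _
      rw [hV]
      beta_reduce
      rw [mul_smul_comm, smul_smul, ← Units.val_mul]
      congr 2
      rw [← mul_assoc, ← zpow_add]
      congr 2
      ring
    rw [Finset.sum_congr rfl h1, ← Finset.smul_sum, ← Finset.mul_sum, hA, mul_zero, smul_zero]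
  have hVm : V m = ((val x s (u ++ alt i j m ++ v) : (H n x)ˣ) : H n x) := by
    rw [hV]
    beta_reduce
    rw [swd_top i j m hmpos, sub_self, zpow_zero, one_mul, ← hpm, Units.inv_mul, one_smul]
  have hV0 : V 0 = (((pm⁻¹ : kˣ) : k) * (p0 : k)) •
      (((zu n x ^ (e 0 - e m) : (H n x)ˣ) : H n x) *
        ((val x s (u ++ alt j i m ++ v) : (H n x)ˣ) : H n x)) := by
    rw [hV]
    beta_reduce
    rw [swd_zero, ← hp0, Units.val_mul]
  refine ⟨-(pm⁻¹ * p0), e 0 - e m, ?_⟩
  obtain ⟨m', rfl⟩ : ∃ m', m = m' + 1 := ⟨m - 1, by omega⟩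
  rw [Finset.sum_range_succ, Finset.sum_range_succ'] at hVsum
  have hres : ((val x s (u ++ alt i j (m' + 1) ++ v) : (H n x)ˣ) : H n x) -
      ((-(pm⁻¹ * p0) : kˣ) : k) • (((zu n x ^ (e 0 - e (m' + 1)) : (H n x)ˣ) : H n x) *
        ((val x s (u ++ alt j i (m' + 1) ++ v) : (H n x)ˣ) : H n x)) =
      - ∑ t ∈ Finset.range m', V (t + 1) := by
    rw [hVm, hV0] at hVsum
    rw [Units.val_neg, Units.val_mul, neg_smul, sub_neg_eq_add]
    rw [eq_neg_iff_add_eq_zero, ← hVsum]
    abel
  rw [hres]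
  apply Submodule.neg_mem
  apply Submodule.sum_mem
  intro t ht
  have ht' : t < m' := Finset.mem_range.1 ht
  rw [hV]
  beta_reduce
  apply Submodule.smul_mem
  have hlen : (u ++ swd i j (m' + 1) (t + 1) ++ v).length <
      (u ++ alt i j (m' + 1) ++ v).length := by
    simp only [List.length_append, swd_length, sw_alt_length]
    split_ifs <;> omega
  have hpar : (u ++ swd i j (m' + 1) (t + 1) ++ v).length % 2 =
      (u ++ alt i j (m' + 1) ++ v).length % 2 := by
    simp only [List.length_append, swd_length, sw_alt_length]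
    split_ifs <;> omega
  refine Submodule.mem_iSup_of_mem (u ++ swd i j (m' + 1) (t + 1) ++ v).length
    (Submodule.mem_iSup_of_mem hlen (Submodule.mem_iSup_of_mem hpar (Submodule.subset_span ?_)))
  exact ⟨e (t + 1) - e (m' + 1), u ++ swd i j (m' + 1) (t + 1) ++ v, le_rfl, rfl,
    Units.val_mul _ _⟩
end

end SYM
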