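import Pool.Agent.Lib.MP_b1ea0f_al.Defs4
import Pool.Agent.Lib.MP_b1ea0f_al.SWord

/-!
# SCert: certificate: normal forms of the Coxeter groups A3, B3, H3

Finite certificate. `NF n : List (List (Fin 3))` normal forms (one reduced word for each element of the Coxeter group A3, B3, H3: 24, 48, 120), contains `[]`. For every `u ∈ NF n`, letter `i`: `u ++ [i]` is joined by braid moves (replace a factor `alt i j m` by `alt j i m`) to a word in `NF n` or to a word with a factor `j j`.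
Decidable check: the chains are given explicitly (computed with python) and verified with a Bool function by `decide +kernel`.
-/

namespace SYM
open Polynomial Module

/-- one braid move -/
inductive Move (n : ℕ) : List (Fin 3) → List (Fin 3) → Prop
  | mk (u v : List (Fin 3)) (i j : Fin 3) (hij : i ≠ j) :
      Move n (u ++ alt i j (cox n i j) ++ v) (u ++ alt j i (cox n i j) ++ v)

private def f3 (a : ℕ) : Fin 3 := ⟨a % 3, Nat.mod_lt _ (by decide)⟩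

/-- one braid move with code `9 p + 3 i + j` -/
private def stp (n : ℕ) (w : List (Fin 3)) (c : ℕ) : Option (List (Fin 3)) :=
  if f3 (c / 3) ≠ f3 c ∧
      (w.drop (c / 9)).take (cox n (f3 (c / 3)) (f3 c)) =
        alt (f3 (c / 3)) (f3 c) (cox n (f3 (c / 3)) (f3 c)) then
    some (w.take (c / 9) ++ alt (f3 c) (f3 (c / 3)) (cox n (f3 (c / 3)) (f3 c)) ++
      (w.drop (c / 9)).drop (cox n (f3 (c / 3)) (f3 c)))
  else none

private def run (n : ℕ) : List (Fin 3) → List ℕ → Option (List (Fin 3))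
  | w, [] => some w
  | w, c :: cs => match stp n w c with
    | some w' => run n w' cs
    | none => none

private def dup : List (Fin 3) → Bool
  | [] => false
  | [_] => false
  | a :: b :: l => decide (a = b) || dup (b :: l)

private def ok (n : ℕ) (NF : List (List (Fin 3))) (w : List (Fin 3)) (e : ℕ × List ℕ) : Bool :=
  match run n w e.2 with
  | none => false
  | some x => match e.1 with
    | 0 => dup x
    | k + 1 => decide (NF[k]? = some x)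

private def chk (n : ℕ) (NF : List (List (Fin 3))) : List (List (Fin 3)) →
    List ((ℕ × List ℕ) × (ℕ × List ℕ) × (ℕ × List ℕ)) → Bool
  | [], _ => true
  | _ :: _, [] => false
  | u :: us, e :: es => ok n NF (u ++ [0]) e.1 && ok n NF (u ++ [1]) e.2.1 &&
      ok n NF (u ++ [2]) e.2.2 && chk n NF us es

private theorem stp_sound (n : ℕ) (w w' : List (Fin 3)) (c : ℕ) (h : stp n w c = some w') :
    Move n w w' := by
  unfold stp at h
  split_ifs at h with h1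
  obtain ⟨h2, h3⟩ := h1
  have h4 : w = w.take (c / 9) ++ alt (f3 (c / 3)) (f3 c) (cox n (f3 (c / 3)) (f3 c)) ++
      (w.drop (c / 9)).drop (cox n (f3 (c / 3)) (f3 c)) := by
    rw [← h3, List.append_assoc, List.take_append_drop, List.take_append_drop]
  have h5 := Option.some.inj h
  rw [← h5]
  conv_lhs => rw [h4]
  exact Move.mk _ _ _ _ h2

private theorem run_sound (n : ℕ) (cs : List ℕ) : ∀ (w w' : List (Fin 3)), run n w cs = some w' →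
    Relation.ReflTransGen (Move n) w w' := by
  induction cs with
  | nil =>
    intro w w' h
    rw [run] at h
    rw [Option.some.inj h]
  | cons c cs ih =>
    intro w w' h
    rw [run] at h
    cases h1 : stp n w c with
    | none => rw [h1] at h; simp at h
    | some x =>
      rw [h1] at h
      exact Relation.ReflTransGen.head (stp_sound n w x c h1) (ih x w' h)

private theorem dup_sound (w : List (Fin 3)) (h : dup w = true) : ∃ p q j, w = p ++ j :: j :: q := by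
  induction w with
  | nil => simp [dup] at h
  | cons a l ih =>
    cases l with
    | nil => simp [dup] at h
    | cons b l =>
      rw [dup, Bool.or_eq_true, decide_eq_true_eq] at h
      rcases h with h | h
      · subst h
        exact ⟨[], l, a, rfl⟩
      · obtain ⟨p, q, j, hp⟩ := ih h
        exact ⟨a :: p, q, j, by rw [hp]; rfl⟩

private theorem ok_sound (n : ℕ) (NF : List (List (Fin 3))) (w : List (Fin 3)) (e : ℕ × List ℕ)
    (h : ok n NF w e = true) : (∃ x ∈ NF, Relation.ReflTransGen (Move n) w x) ∨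
      ∃ p q j, Relation.ReflTransGen (Move n) w (p ++ j :: j :: q) := by
  unfold ok at h
  cases h1 : run n w e.2 with
  | none => rw [h1] at h; simp at h
  | some x =>
    rw [h1] at h
    have h2 := run_sound n e.2 w x h1
    cases h3 : e.1 with
    | zero =>
      rw [h3] at h
      obtain ⟨p, q, j, hp⟩ := dup_sound x h
      exact Or.inr ⟨p, q, j, hp ▸ h2⟩
    | succ k =>
      rw [h3] at h
      have h4 : NF[k]? = some x := of_decide_eq_true h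
      exact Or.inl ⟨x, List.mem_of_getElem? h4, h2⟩

private theorem chk_sound (n : ℕ) (NF : List (List (Fin 3))) (us : List (List (Fin 3))) :
    ∀ (es : List ((ℕ × List ℕ) × (ℕ × List ℕ) × (ℕ × List ℕ))), chk n NF us es = true →
    ∀ u ∈ us, ∀ i : Fin 3, (∃ x ∈ NF, Relation.ReflTransGen (Move n) (u ++ [i]) x) ∨
      ∃ p q j, Relation.ReflTransGen (Move n) (u ++ [i]) (p ++ j :: j :: q) := by
  induction us with
  | nil => intro es _ u hu; simp at hu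
  | cons v us ih =>
    intro es h u hu i
    cases es with
    | nil => simp [chk] at h
    | cons e es =>
      rw [chk, Bool.and_eq_true, Bool.and_eq_true, Bool.and_eq_true] at h
      obtain ⟨⟨⟨h0, h1⟩, h2⟩, h3⟩ := h
      rcases List.mem_cons.1 hu with hu | hu
      · subst hu
        fin_cases i
        · exact ok_sound n NF _ _ h0
        · exact ok_sound n NF _ _ h1
        · exact ok_sound n NF _ _ h2
      · exact ih es h3 u hu i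

private theorem final (n : ℕ) (NF : List (List (Fin 3)))
    (T : List ((ℕ × List ℕ) × (ℕ × List ℕ) × (ℕ × List ℕ))) (h0 : ([] : List (Fin 3)) ∈ NF)
    (h : chk n NF NF T = true) : ∃ NF : Finset (List (Fin 3)), [] ∈ NF ∧
    ∀ u ∈ NF, ∀ i, (∃ w ∈ NF, Relation.ReflTransGen (Move n) (u ++ [i]) w) ∨
      ∃ p q j, Relation.ReflTransGen (Move n) (u ++ [i]) (p ++ j :: j :: q) := by
  refine ⟨NF.toFinset, List.mem_toFinset.2 h0, ?_⟩
  intro u hu i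
  rcases chk_sound n NF NF T h u (List.mem_toFinset.1 hu) i with ⟨w, hw, h1⟩ | h1
  · exact Or.inl ⟨w, List.mem_toFinset.2 hw, h1⟩
  · exact Or.inr h1

private def nf3 : List (List (Fin 3)) := List.map (List.map f3) [
    [], [0], [1], [2], [0,1], [0,2], [1,2], [2,0], [2,1], [0,1,2], [0,2,0], [0,2,1], [1,2,0],
    [1,2,1], [2,0,1], [0,1,2,0], [0,1,2,1], [0,2,0,1], [1,2,0,1], [2,0,1,2], [0,1,2,0,1],
    [0,2,0,1,2], [1,2,0,1,2], [0,1,2,0,1,2]]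

private def tb3 : List ((ℕ × List ℕ) × (ℕ × List ℕ) × (ℕ × List ℕ)) := [
    ((2,[]),(3,[]),(4,[])), ((0,[]),(5,[]),(6,[])), ((5,[3]),(0,[]),(7,[])),
    ((8,[]),(9,[]),(0,[])), ((0,[1]),(0,[]),(10,[])), ((11,[]),(12,[]),(0,[])),
    ((13,[]),(14,[]),(0,[])), ((0,[]),(15,[]),(11,[6])), ((15,[12]),(0,[]),(14,[7])),
    ((16,[]),(17,[]),(0,[])), ((0,[]),(18,[]),(0,[2])), ((18,[21]),(0,[]),(17,[16])),
    ((0,[]),(19,[]),(16,[15,3])), ((19,[21]),(0,[]),(0,[5])), ((0,[10]),(0,[]),(20,[])),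
    ((0,[]),(21,[]),(0,[1,11])), ((21,[30]),(0,[]),(0,[14])), ((0,[19]),(0,[]),(22,[])),
    ((0,[19]),(0,[]),(23,[])), ((23,[10,20,7,21]),(22,[23,6]),(0,[])), ((0,[28]),(0,[]),(24,[])),
    ((24,[19,29,16,30]),(0,[2,32]),(0,[])), ((0,[19,29,5]),(24,[32,15,3]),(0,[])),
    ((0,[28,38,14]),(0,[1,11,41]),(0,[]))]

private def nf4 : List (List (Fin 3)) := List.map (List.map f3) [
    [], [0], [1], [2], [0,1], [0,2], [1,2], [2,0], [2,1], [0,1,2], [0,2,0], [0,2,1], [1,2,0],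
    [1,2,1], [2,0,1], [2,0,2], [0,1,2,0], [0,1,2,1], [0,2,0,1], [0,2,0,2], [1,2,0,1], [1,2,0,2],
    [2,0,1,2], [2,0,2,1], [0,1,2,0,1], [0,1,2,0,2], [0,2,0,1,2], [0,2,0,2,1], [1,2,0,1,2],
    [1,2,0,2,1], [2,0,1,2,0], [2,0,1,2,1], [0,1,2,0,1,2], [0,1,2,0,2,1], [0,2,0,1,2,0],
    [0,2,0,1,2,1], [1,2,0,1,2,0], [1,2,0,1,2,1], [2,0,1,2,0,1], [0,1,2,0,1,2,0], [0,1,2,0,1,2,1],
    [0,2,0,1,2,0,1], [1,2,0,1,2,0,1], [2,0,1,2,0,1,2], [0,1,2,0,1,2,0,1], [0,2,0,1,2,0,1,2],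
    [1,2,0,1,2,0,1,2], [0,1,2,0,1,2,0,1,2]]

private def tb4 : List ((ℕ × List ℕ) × (ℕ × List ℕ) × (ℕ × List ℕ)) := [
    ((2,[]),(3,[]),(4,[])), ((0,[]),(5,[]),(6,[])), ((5,[3]),(0,[]),(7,[])),
    ((8,[]),(9,[]),(0,[])), ((0,[1]),(0,[]),(10,[])), ((11,[]),(12,[]),(0,[])),
    ((13,[]),(14,[]),(0,[])), ((0,[]),(15,[]),(16,[])), ((15,[12]),(0,[]),(14,[7])),
    ((17,[]),(18,[]),(0,[])), ((0,[]),(19,[]),(20,[])), ((19,[21]),(0,[]),(18,[16])),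
    ((0,[]),(21,[]),(22,[])), ((21,[21]),(0,[]),(0,[5])), ((0,[10]),(0,[]),(23,[])),
    ((20,[6]),(24,[]),(0,[])), ((0,[]),(25,[]),(26,[])), ((25,[30]),(0,[]),(0,[14])),
    ((0,[19]),(0,[]),(27,[])), ((0,[2]),(28,[]),(0,[])), ((0,[19]),(0,[]),(29,[])),
    ((26,[15,3]),(30,[]),(0,[])), ((31,[]),(32,[]),(0,[])), ((28,[30,6]),(0,[]),(32,[25])),
    ((0,[28]),(0,[]),(33,[])), ((0,[1,11]),(34,[]),(0,[])), ((35,[]),(36,[]),(0,[])),
    ((0,[2,28]),(0,[]),(36,[34])), ((37,[]),(38,[]),(0,[])), ((34,[39,15,3]),(0,[]),(38,[34])),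
    ((0,[]),(39,[]),(37,[10,20,7,21])), ((39,[39]),(0,[]),(0,[23])), ((40,[]),(41,[]),(0,[])),
    ((0,[1,11,37]),(0,[]),(41,[43])), ((0,[]),(42,[]),(40,[19,29,16,30])),
    ((42,[48]),(0,[]),(0,[32])), ((0,[]),(43,[]),(0,[19,29,5])), ((43,[48]),(0,[]),(0,[32])),
    ((0,[37]),(0,[]),(44,[])), ((0,[]),(45,[]),(0,[28,38,14])), ((45,[57]),(0,[]),(0,[41])),
    ((0,[46]),(0,[]),(46,[])), ((0,[46]),(0,[]),(47,[])),
    ((46,[37,23,42,30,6,34,48]),(47,[10,50,20,7,21]),(0,[])), ((0,[55]),(0,[]),(48,[])),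
    ((0,[46,32,2,28,38]),(48,[19,59,29,16,30]),(0,[])),
    ((48,[46,32,51,39,15,3,43,57]),(0,[19,5,59,29]),(0,[])),
    ((0,[1,55,41,11,37,47]),(0,[28,14,68,38]),(0,[]))]

private def nf5 : List (List (Fin 3)) := List.map (List.map f3) [
    [], [0], [1], [2], [0,1], [0,2], [1,2], [2,0], [2,1], [0,1,2], [0,2,0], [0,2,1], [1,2,0],
    [1,2,1], [2,0,1], [2,0,2], [0,1,2,0], [0,1,2,1], [0,2,0,1], [0,2,0,2], [1,2,0,1], [1,2,0,2],
    [2,0,1,2], [2,0,2,0], [2,0,2,1], [0,1,2,0,1], [0,1,2,0,2], [0,2,0,1,2], [0,2,0,2,0],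
    [0,2,0,2,1], [1,2,0,1,2], [1,2,0,2,0], [1,2,0,2,1], [2,0,1,2,0], [2,0,1,2,1], [2,0,2,0,1],
    [0,1,2,0,1,2], [0,1,2,0,2,0], [0,1,2,0,2,1], [0,2,0,1,2,0], [0,2,0,1,2,1], [0,2,0,2,0,1],
    [1,2,0,1,2,0], [1,2,0,1,2,1], [1,2,0,2,0,1], [2,0,1,2,0,1], [2,0,1,2,0,2], [2,0,2,0,1,2],
    [0,1,2,0,1,2,0], [0,1,2,0,1,2,1], [0,1,2,0,2,0,1], [0,2,0,1,2,0,1], [0,2,0,1,2,0,2],
    [0,2,0,2,0,1,2], [1,2,0,1,2,0,1], [1,2,0,1,2,0,2], [1,2,0,2,0,1,2], [2,0,1,2,0,1,2],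
    [2,0,1,2,0,2,1], [2,0,2,0,1,2,0], [0,1,2,0,1,2,0,1], [0,1,2,0,1,2,0,2], [0,1,2,0,2,0,1,2],
    [0,2,0,1,2,0,1,2], [0,2,0,1,2,0,2,1], [0,2,0,2,0,1,2,0], [1,2,0,1,2,0,1,2], [1,2,0,1,2,0,2,1],
    [1,2,0,2,0,1,2,0], [2,0,1,2,0,1,2,0], [2,0,1,2,0,1,2,1], [2,0,2,0,1,2,0,2],
    [0,1,2,0,1,2,0,1,2], [0,1,2,0,1,2,0,2,1], [0,1,2,0,2,0,1,2,0], [0,2,0,1,2,0,1,2,0],
    [0,2,0,1,2,0,1,2,1], [0,2,0,2,0,1,2,0,2], [1,2,0,1,2,0,1,2,0], [1,2,0,1,2,0,1,2,1],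
    [1,2,0,2,0,1,2,0,2], [2,0,1,2,0,1,2,0,1], [2,0,1,2,0,1,2,0,2], [2,0,2,0,1,2,0,2,1],
    [0,1,2,0,1,2,0,1,2,0], [0,1,2,0,1,2,0,1,2,1], [0,1,2,0,2,0,1,2,0,2], [0,2,0,1,2,0,1,2,0,1],
    [0,2,0,1,2,0,1,2,0,2], [0,2,0,2,0,1,2,0,2,1], [1,2,0,1,2,0,1,2,0,1], [1,2,0,1,2,0,1,2,0,2],
    [1,2,0,2,0,1,2,0,2,1], [2,0,1,2,0,1,2,0,1,2], [2,0,1,2,0,1,2,0,2,1], [0,1,2,0,1,2,0,1,2,0,1],
    [0,1,2,0,1,2,0,1,2,0,2], [0,1,2,0,2,0,1,2,0,2,1], [0,2,0,1,2,0,1,2,0,1,2],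
    [0,2,0,1,2,0,1,2,0,2,1], [1,2,0,1,2,0,1,2,0,1,2], [1,2,0,1,2,0,1,2,0,2,1],
    [2,0,1,2,0,1,2,0,1,2,0], [2,0,1,2,0,1,2,0,1,2,1], [0,1,2,0,1,2,0,1,2,0,1,2],
    [0,1,2,0,1,2,0,1,2,0,2,1], [0,2,0,1,2,0,1,2,0,1,2,0], [0,2,0,1,2,0,1,2,0,1,2,1],
    [1,2,0,1,2,0,1,2,0,1,2,0], [1,2,0,1,2,0,1,2,0,1,2,1], [2,0,1,2,0,1,2,0,1,2,0,1],
    [0,1,2,0,1,2,0,1,2,0,1,2,0], [0,1,2,0,1,2,0,1,2,0,1,2,1], [0,2,0,1,2,0,1,2,0,1,2,0,1],
    [1,2,0,1,2,0,1,2,0,1,2,0,1], [2,0,1,2,0,1,2,0,1,2,0,1,2], [0,1,2,0,1,2,0,1,2,0,1,2,0,1],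
    [0,2,0,1,2,0,1,2,0,1,2,0,1,2], [1,2,0,1,2,0,1,2,0,1,2,0,1,2], [0,1,2,0,1,2,0,1,2,0,1,2,0,1,2]]

private def tb5 : List ((ℕ × List ℕ) × (ℕ × List ℕ) × (ℕ × List ℕ)) := [
    ((2,[]),(3,[]),(4,[])), ((0,[]),(5,[]),(6,[])), ((5,[3]),(0,[]),(7,[])),
    ((8,[]),(9,[]),(0,[])), ((0,[1]),(0,[]),(10,[])), ((11,[]),(12,[]),(0,[])),
    ((13,[]),(14,[]),(0,[])), ((0,[]),(15,[]),(16,[])), ((15,[12]),(0,[]),(14,[7])),
    ((17,[]),(18,[]),(0,[])), ((0,[]),(19,[]),(20,[])), ((19,[21]),(0,[]),(18,[16])),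
    ((0,[]),(21,[]),(22,[])), ((21,[21]),(0,[]),(0,[5])), ((0,[10]),(0,[]),(23,[])),
    ((24,[]),(25,[]),(0,[])), ((0,[]),(26,[]),(27,[])), ((26,[30]),(0,[]),(0,[14])),
    ((0,[19]),(0,[]),(28,[])), ((29,[]),(30,[]),(0,[])), ((0,[19]),(0,[]),(31,[])),
    ((32,[]),(33,[]),(0,[])), ((34,[]),(35,[]),(0,[])), ((0,[]),(36,[]),(29,[6])),
    ((36,[30]),(0,[]),(35,[25])), ((0,[28]),(0,[]),(37,[])), ((38,[]),(39,[]),(0,[])),
    ((40,[]),(41,[]),(0,[])), ((0,[]),(42,[]),(0,[2])), ((42,[39]),(0,[]),(41,[34])),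
    ((43,[]),(44,[]),(0,[])), ((0,[]),(45,[]),(38,[15,3])), ((45,[39]),(0,[]),(44,[34])),
    ((0,[]),(46,[]),(47,[])), ((46,[39]),(0,[]),(0,[23])), ((0,[28]),(0,[]),(48,[])),
    ((49,[]),(50,[]),(0,[])), ((0,[]),(51,[]),(0,[1,11])), ((51,[48]),(0,[]),(50,[43])),
    ((0,[]),(52,[]),(53,[])), ((52,[48]),(0,[]),(0,[32])), ((0,[37]),(0,[]),(54,[])),
    ((0,[]),(55,[]),(56,[])), ((55,[48]),(0,[]),(0,[32])), ((0,[37]),(0,[]),(57,[])),
    ((0,[37]),(0,[]),(58,[])), ((56,[10,20,7,21]),(59,[]),(0,[])), ((60,[]),(54,[41,6]),(0,[])),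
    ((0,[]),(61,[]),(62,[])), ((61,[57]),(0,[]),(0,[41])), ((0,[46]),(0,[]),(63,[])),
    ((0,[46]),(0,[]),(64,[])), ((62,[19,29,16,30]),(65,[]),(0,[])), ((66,[]),(0,[2,50]),(0,[])),
    ((0,[46]),(0,[]),(67,[])), ((0,[19,29,5]),(68,[]),(0,[])), ((69,[]),(63,[50,15,3]),(0,[])),
    ((70,[]),(71,[]),(0,[])), ((68,[10,57,20,7,21]),(0,[]),(71,[52])),
    ((0,[]),(66,[55,41,6]),(72,[])), ((0,[55]),(0,[]),(73,[])), ((0,[28,38,14]),(74,[]),(0,[])),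
    ((75,[]),(0,[1,11,59]),(0,[])), ((76,[]),(77,[]),(0,[])),
    ((74,[19,66,29,16,30]),(0,[]),(77,[61])), ((0,[]),(0,[64,2,50]),(78,[])),
    ((79,[]),(80,[]),(0,[])), ((0,[19,66,29,5]),(0,[]),(80,[61])),
    ((0,[]),(75,[64,50,15,3]),(81,[])), ((0,[]),(82,[]),(83,[])), ((82,[66]),(0,[]),(0,[50])),
    ((83,[28,38,25,39]),(84,[]),(0,[])), ((85,[]),(86,[]),(0,[])),
    ((0,[28,75,38,14]),(0,[]),(86,[70])), ((0,[]),(0,[1,73,11,59]),(87,[])),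
    ((0,[]),(88,[]),(89,[])), ((88,[75]),(0,[]),(0,[59])), ((89,[37,47,34,48]),(90,[]),(0,[])),
    ((0,[]),(91,[]),(92,[])), ((91,[75]),(0,[]),(0,[59])), ((92,[37,47,34,48]),(93,[]),(0,[])),
    ((0,[64]),(0,[]),(94,[])), ((0,[37,47,23]),(95,[]),(0,[])),
    ((95,[28,75,38,25,39]),(0,[]),(90,[70,55,41,6])), ((0,[]),(96,[]),(97,[])),
    ((96,[84]),(0,[]),(0,[68])), ((97,[46,56,43,57]),(98,[]),(0,[])), ((0,[73]),(0,[]),(99,[])),
    ((0,[46,56,32]),(100,[]),(0,[])), ((100,[37,84,47,34,48]),(0,[]),(0,[2,43,57,68])),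
    ((0,[73]),(0,[]),(101,[])), ((0,[46,56,32]),(102,[]),(0,[])),
    ((102,[37,84,47,34,48]),(0,[]),(98,[79,64,50,15,3])), ((103,[]),(104,[]),(0,[])),
    ((0,[37,84,47,23]),(0,[]),(104,[79])), ((0,[82]),(0,[]),(105,[])),
    ((0,[55,65,41]),(106,[]),(0,[])), ((106,[46,93,56,43,57]),(0,[]),(0,[1,11,52,66,77])),
    ((107,[]),(108,[]),(0,[])), ((0,[46,93,56,32]),(0,[]),(108,[88])), ((109,[]),(110,[]),(0,[])),
    ((0,[46,93,56,32]),(0,[]),(110,[88])), ((0,[]),(111,[]),(109,[10,64,50,69,57,20,7,21,61,75])),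
    ((111,[93]),(0,[]),(0,[77])), ((112,[]),(113,[]),(0,[])),
    ((0,[55,102,65,41]),(0,[]),(113,[97])),
    ((0,[]),(114,[]),(112,[19,73,59,78,66,29,16,30,70,84])), ((114,[102]),(0,[]),(0,[86])),
    ((0,[]),(115,[]),(0,[19,73,5,59,24,55,65])), ((115,[102]),(0,[]),(0,[86])),
    ((0,[91]),(0,[]),(116,[])), ((0,[]),(117,[]),(0,[28,82,14,68,33,64,74])),
    ((117,[111]),(0,[]),(0,[95])), ((0,[100]),(0,[]),(118,[])), ((0,[100]),(0,[]),(119,[])),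
    ((118,[37,91,23,77,42,73,83,30,70,55,84,41,6,37,47,34,48,88,102]),(119,[10,64,50,104,69,57,20,7,21,61,75]),(0,[])),
    ((0,[109]),(0,[]),(120,[])),
    ((0,[46,100,32,86,51,82,92,39,2,43,57,68]),(120,[19,73,59,113,78,66,29,16,30,70,84]),(0,[])),
    ((120,[46,100,32,86,51,82,92,39,79,64,93,50,15,46,56,3,43,57,97,111]),(0,[19,73,5,59,113,24,55,65]),(0,[])),
    ((0,[1,55,109,41,95,60,91,101,48,11,52,66,77]),(0,[28,82,14,68,122,33,64,74]),(0,[]))]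

/-- there is a finite set of words, closed under right multiplication up to braid moves and
cancellation -/
theorem exists_NF (n : ℕ) (hn : HN n) : ∃ NF : Finset (List (Fin 3)), [] ∈ NF ∧
    ∀ u ∈ NF, ∀ i, (∃ w ∈ NF, Relation.ReflTransGen (Move n) (u ++ [i]) w) ∨
      ∃ p q j, Relation.ReflTransGen (Move n) (u ++ [i]) (p ++ j :: j :: q) := by
  rcases hn with rfl | rfl | rfl
  · exact final 3 nf3 tb3 (List.mem_of_getElem? (i := 0) rfl) (by decide +kernel)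
  · exact final 4 nf4 tb4 (List.mem_of_getElem? (i := 0) rfl) (by decide +kernel)
  · exact final 5 nf5 tb5 (List.mem_of_getElem? (i := 0) rfl) (by decide +kernel)

end SYM
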