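import Pool.Agent.Lib.MP_b1ea0f_al.Defs4
import Pool.Agent.Lib.MP_b1ea0f_al.SWord
import Pool.Agent.Lib.MP_b1ea0f_al.SCert

/-!
# SSpan: H is finitely generated over k[z^{+-1}]

Paper section 2, induction on the length. Even words span: the span of `z^m val(even word)` is the whole algebra: contains `1`, `a₀ = val [0,1]`, `a₁ = val [1,2]`, `a₂ = z val[2,0]`, closed under multiplication.
-/

namespace SYM
open Polynomial Module

section
variable {n : ℕ} {k : Type*} [CommRing k] (x : J n → kˣ)

private theorem ssp_comm (m : ℤ) (h : H n x) :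
    ((zu n x ^ m : (H n x)ˣ) : H n x) * h = h * ((zu n x ^ m : (H n x)ˣ) : H n x) := by
  have h1 : Commute h ((zu n x : (H n x)ˣ) : H n x) := by
    rw [zu_val]
    exact (zz_comm n x h).symm
  exact (h1.units_zpow_right m).eq.symm

/-- span over `k[z^{±1}]` of the values of the normal forms of length `≤ r` and parity of `r` -/
private noncomputable def TT (NF : Finset (List (Fin 3))) (r : ℕ) : Submodule k (H n x) :=
  Submodule.span k {h | ∃ (m : ℤ) (w : List (Fin 3)), w ∈ NF ∧ w.length ≤ r ∧
    w.length % 2 = r % 2 ∧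
    h = ((zu n x ^ m : (H n x)ˣ) : H n x) * (val x true w : (H n x)ˣ)}

private theorem ssp_mem (NF : Finset (List (Fin 3))) {w : List (Fin 3)} (hw : w ∈ NF) (m : ℤ) :
    ((zu n x ^ m : (H n x)ˣ) : H n x) * (val x true w : (H n x)ˣ) ∈ TT x NF w.length :=
  Submodule.subset_span ⟨m, w, hw, le_rfl, rfl, rfl⟩

private theorem ssp_mono (NF : Finset (List (Fin 3))) {r r' : ℕ} (h : r' ≤ r)
    (h2 : r' % 2 = r % 2) : TT x NF r' ≤ TT x NF r := by
  apply Submodule.span_mono
  rintro _ ⟨m, w, hw, h3, h4, rfl⟩
  exact ⟨m, w, hw, h3.trans h, h4.trans h2, rfl⟩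

private theorem ssp_z (NF : Finset (List (Fin 3))) (r : ℕ) (m : ℤ) (h : H n x)
    (hh : h ∈ TT x NF r) : ((zu n x ^ m : (H n x)ˣ) : H n x) * h ∈ TT x NF r := by
  unfold TT at hh ⊢
  induction hh using Submodule.span_induction with
  | mem h hm =>
    obtain ⟨m', w, hw, h3, h4, rfl⟩ := hm
    apply Submodule.subset_span
    refine ⟨m + m', w, hw, h3, h4, ?_⟩
    rw [zpow_add, Units.val_mul, mul_assoc]
  | zero => rw [mul_zero]; exact Submodule.zero_mem _
  | add a b _ _ ha hb => rw [mul_add]; exact Submodule.add_mem _ ha hb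
  | smul c a _ ha => rw [mul_smul_comm]; exact Submodule.smul_mem _ _ ha

private theorem ssp_alt (i j : Fin 3) (m : ℕ) : (alt i j m).length = m := by
  induction m generalizing i j with
  | zero => rfl
  | succ m ih => simp [alt, ih]

private theorem ssp_move_len {a b : List (Fin 3)} (h : Move n a b) : b.length = a.length := by
  obtain ⟨u, v, i, j, hij⟩ := h
  have h2 : cox n j i = cox n i j := by
    unfold cox
    have e1 : (j = i) ↔ (i = j) := ⟨Eq.symm, Eq.symm⟩
    simp only [e1]
    rw [if_neg hij, if_neg hij]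
    congr 1
    · apply propext
      tauto
    · congr 1
      apply propext
      tauto
  simp only [List.length_append, ssp_alt]

private theorem ssp_step (hn : HN n) (NF : Finset (List (Fin 3))) (r : ℕ)
    (hU : ∀ r' < r, r' % 2 = r % 2 → UU x true r' ≤ TT x NF r)
    {a b : List (Fin 3)} (h : Move n a b) (ha : a.length = r)
    (hb : ((val x true b : (H n x)ˣ) : H n x) ∈ TT x NF r) :
    ((val x true a : (H n x)ˣ) : H n x) ∈ TT x NF r := by
  obtain ⟨u, v, i, j, hij⟩ := h
  obtain ⟨c, e, h1⟩ := val_braid x hn true i j hij u v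
  have h2 : (⨆ r' < (u ++ alt i j (cox n i j) ++ v).length, ⨆ (_ : r' % 2 =
        (u ++ alt i j (cox n i j) ++ v).length % 2), UU x true r') ≤ TT x NF r := by
    refine iSup_le fun r' => iSup_le fun h3 => iSup_le fun h4 => ?_
    rw [ha] at h3 h4
    exact hU r' h3 h4
  have h3 := h2 h1
  have h4 : (c : k) • (((zu n x ^ e : (H n x)ˣ) : H n x) *
        (val x true (u ++ alt j i (cox n i j) ++ v) : (H n x)ˣ)) ∈ TT x NF r :=
    Submodule.smul_mem _ _ (ssp_z x NF r e _ hb)
  have h5 := Submodule.add_mem _ h3 h4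
  rwa [sub_add_cancel] at h5

private theorem ssp_chain (hn : HN n) (NF : Finset (List (Fin 3))) (r : ℕ)
    (hU : ∀ r' < r, r' % 2 = r % 2 → UU x true r' ≤ TT x NF r)
    {a b : List (Fin 3)} (h : Relation.ReflTransGen (Move n) a b) (ha : a.length = r) :
    b.length = r ∧ (((val x true b : (H n x)ˣ) : H n x) ∈ TT x NF r →
    ((val x true a : (H n x)ˣ) : H n x) ∈ TT x NF r) := by
  induction h with
  | refl => exact ⟨ha, id⟩
  | tail _ hm ih =>
    refine ⟨(ssp_move_len hm).trans ih.1, fun hb => ih.2 ?_⟩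
    exact ssp_step x hn NF r hU hm ih.1 hb

private theorem ssp_main (hn : HN n) (NF : Finset (List (Fin 3))) (h0 : [] ∈ NF)
    (hNF : ∀ u ∈ NF, ∀ i, (∃ w ∈ NF, Relation.ReflTransGen (Move n) (u ++ [i]) w) ∨
      ∃ p q j, Relation.ReflTransGen (Move n) (u ++ [i]) (p ++ j :: j :: q)) (r : ℕ) :
    ∀ w : List (Fin 3), w.length = r → ((val x true w : (H n x)ˣ) : H n x) ∈ TT x NF r := by
  induction r using Nat.strong_induction_on with
  | _ r ih =>
  have hU : ∀ r' < r, r' % 2 = r % 2 → UU x true r' ≤ TT x NF r := by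
    intro r' h1 h2
    apply Submodule.span_le.2
    rintro _ ⟨m, w, h3, h4, rfl⟩
    have h5 := ih w.length (lt_of_le_of_lt h3 h1) w rfl
    exact ssp_mono x NF (h3.trans h1.le) (h4.trans h2) (ssp_z x NF _ m _ h5)
  have hd : ∀ u ∈ NF, ∀ i, u.length + 1 = r →
      ((val x true (u ++ [i]) : (H n x)ˣ) : H n x) ∈ TT x NF r := by
    intro u hu i hr
    have hlen : (u ++ [i]).length = r := by simpa using hr
    rcases hNF u hu i with ⟨w, hw, hc⟩ | ⟨p, q, j, hc⟩
    · obtain ⟨h1, h2⟩ := ssp_chain x hn NF r hU hc hlen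
      apply h2
      have h3 := ssp_mem x NF hw 0
      rw [zpow_zero, Units.val_one, one_mul, h1] at h3
      exact h3
    · obtain ⟨h1, h2⟩ := ssp_chain x hn NF r hU hc hlen
      apply h2
      rw [val_cancel]
      have h3 : (p ++ q).length + 2 = r := by
        rw [← h1]
        simp only [List.length_append, List.length_cons]
        omega
      exact ssp_mono x NF (by omega) (by omega) (ih (p ++ q).length (by omega) (p ++ q) rfl)
  intro w hw
  rcases List.eq_nil_or_concat w with rfl | ⟨u, i, rfl⟩
  · have h3 := ssp_mem x NF h0 0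
    rw [zpow_zero, Units.val_one, one_mul, hw] at h3
    exact h3
  · have hr : u.length + 1 = r := by simpa using hw
    have hu := ih u.length (by omega) u rfl
    rw [List.concat_eq_append, val_append, Units.val_mul]
    set e : H n x := ((val x (true ^^ decide (u.length % 2 = 1)) [i] : (H n x)ˣ) : H n x) with he
    clear_value e
    have key : ∀ h ∈ TT x NF u.length, h * e ∈ TT x NF r := by
      intro h hh
      unfold TT at hh
      induction hh using Submodule.span_induction with
      | mem h hm =>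
        obtain ⟨m, w', hw', h3, h4, rfl⟩ := hm
        have h5 : (((val x true w' : (H n x)ˣ) : H n x)) * e =
            ((val x true (w' ++ [i]) : (H n x)ˣ) : H n x) := by
          rw [val_append, Units.val_mul, he, h4]
        rw [mul_assoc, h5]
        apply ssp_z
        rcases Nat.lt_or_ge w'.length u.length with h6 | h6
        · exact ssp_mono x NF (r' := w'.length + 1) (by omega) (by omega)
            (ih (w'.length + 1) (by omega) (w' ++ [i]) (by simp))
        · exact hd w' hw' i (by omega)
      | zero => rw [zero_mul]; exact Submodule.zero_mem _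
      | add a b _ _ ha hb => rw [add_mul]; exact Submodule.add_mem _ ha hb
      | smul c a _ ha => rw [smul_mul_assoc]; exact Submodule.smul_mem _ _ ha
    exact key _ hu

/-- the span of all even words -/
private noncomputable def BB : Submodule k (H n x) :=
  Submodule.span k {h | ∃ (m : ℤ) (w : List (Fin 3)), w.length % 2 = 0 ∧
    h = ((zu n x ^ m : (H n x)ˣ) : H n x) * (val x true w : (H n x)ˣ)}

private theorem ssp_BB_mul (a b : H n x) (ha : a ∈ BB x) (hb : b ∈ BB x) : a * b ∈ BB x := by
  unfold BB at ha hb ⊢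
  induction ha using Submodule.span_induction with
  | mem a hm =>
    obtain ⟨m, w, h1, rfl⟩ := hm
    induction hb using Submodule.span_induction with
    | mem b hm =>
      obtain ⟨m', w', h2, rfl⟩ := hm
      apply Submodule.subset_span
      refine ⟨m + m', w ++ w', ?_, ?_⟩
      · rw [List.length_append]; omega
      · rw [val_append, zpow_add, Units.val_mul, Units.val_mul]
        have h3 : (true ^^ decide (w.length % 2 = 1)) = true := by
          rw [h1]
          decide
        rw [h3]
        have h4 := ssp_comm x m' ((val x true w : (H n x)ˣ) : H n x)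
        rw [mul_assoc, ← mul_assoc ((val x true w : (H n x)ˣ) : H n x), ← h4]
        simp only [mul_assoc]
    | zero => rw [mul_zero]; exact Submodule.zero_mem _
    | add a b _ _ ha hb => rw [mul_add]; exact Submodule.add_mem _ ha hb
    | smul c a _ ha => rw [mul_smul_comm]; exact Submodule.smul_mem _ _ ha
  | zero => rw [zero_mul]; exact Submodule.zero_mem _
  | add a b _ _ ha hb => rw [add_mul]; exact Submodule.add_mem _ ha hb
  | smul c a _ ha => rw [smul_mul_assoc]; exact Submodule.smul_mem _ _ ha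

private theorem ssp_BB_one : (1 : H n x) ∈ BB x := by
  apply Submodule.subset_span
  refine ⟨0, [], rfl, ?_⟩
  simp [val]

private theorem ssp_BB_gen (g : Fin 3) : gen n x g ∈ BB x := by
  apply Submodule.subset_span
  fin_cases g
  · refine ⟨0, [0, 1], rfl, ?_⟩
    simp [val, gw]
  · refine ⟨0, [1, 2], rfl, ?_⟩
    simp [val, gw]
  · refine ⟨1, [2, 0], rfl, ?_⟩
    have h1 : zu n x = wd n x (FreeGroup.of 0 * FreeGroup.of 1) * wd n x (FreeGroup.of 2) := by
      rw [zu, map_mul]
    have h2 : zu n x * (wd n x (FreeGroup.of 0 * FreeGroup.of 1))⁻¹ =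
        wd n x (FreeGroup.of 2) := by
      have h3 : zu n x * (wd n x (FreeGroup.of 0 * FreeGroup.of 1))⁻¹ =
          (wd n x (FreeGroup.of 0 * FreeGroup.of 1))⁻¹ * zu n x := by
        apply Units.ext
        rw [Units.val_mul, Units.val_mul]
        have h4 := ssp_comm x 1
          (((wd n x (FreeGroup.of 0 * FreeGroup.of 1))⁻¹ : (H n x)ˣ) : H n x)
        rwa [zpow_one] at h4
      rw [h3, h1, inv_mul_cancel_left]
    have h5 : val x true [2, 0] = (wd n x (FreeGroup.of 0 * FreeGroup.of 1))⁻¹ := by
      simp [val, gw]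
    rw [h5, zpow_one, ← Units.val_mul, h2, wd_of]
    rfl

private theorem ssp_BB_top : BB x = ⊤ := by
  let S : Subalgebra k (H n x) := (BB x).toSubalgebra (ssp_BB_one x) (ssp_BB_mul x)
  have h1 : Algebra.adjoin k (Set.range (gen n x)) ≤ S := by
    apply Algebra.adjoin_le
    rintro _ ⟨g, rfl⟩
    exact ssp_BB_gen x g
  rw [adjoin_gen] at h1
  rw [eq_top_iff]
  intro h _
  exact h1 (show h ∈ (⊤ : Subalgebra k (H n x)) from Algebra.mem_top)

end

theorem span_words (n : ℕ) (hn : HN n) {k : Type*} [CommRing k] (x : J n → kˣ) :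
    ∃ F : Finset (H n x), Submodule.span k {u : H n x | ∃ (m : ℤ), ∃ f ∈ F,
      u = ((zu n x ^ m : (H n x)ˣ) : H n x) * f} = ⊤ := by
  classical
  obtain ⟨NF, h0, hNF⟩ := exists_NF n hn
  refine ⟨NF.image (fun w => ((val x true w : (H n x)ˣ) : H n x)), ?_⟩
  rw [eq_top_iff, ← ssp_BB_top x]
  unfold BB
  apply Submodule.span_le.2
  rintro _ ⟨m, w, hw, rfl⟩
  have h1 := ssp_z x NF _ m _ (ssp_main x hn NF h0 hNF w.length w rfl)
  refine Submodule.span_mono ?_ h1
  rintro _ ⟨m', w', hw', _, _, rfl⟩
  exact ⟨m', _, Finset.mem_image_of_mem _ hw', rfl⟩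

end SYM
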