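import Pool.Agent.Lib.MP_b1ea0f_al.Defs4

/-!
# WEx: Wedderburn data exist

`BB` finite-dimensional over an algebraically closed field. `J = Ring.jacobson BB` is nilpotent (`IsArtinianRing.isNilpotent_jacobson_bot`), `BB/J` is semisimple
(find the Mathlib name: artinian + jacobson = ⊥ implies semisimple), `IsSemisimpleRing.exists_algEquiv_pi_matrix_of_isAlgClosed` gives `BB/J ≅ ∏ Matrix (Fin (d i)) ..`, compose with
`Matrix.toLin'`-algebra equivalence. (`BB` trivial: `r = 0`.) `nil`: `J^N = 0` as an ideal, a product of `N` elements of `J` lies in `J^N`.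
-/

namespace SYM
open Polynomial Module

private theorem prod_mem_pow {BB : Type} [Ring BB] (I : Ideal BB) [I.IsTwoSided] (l : List BB) :
    (∀ h ∈ l, h ∈ I) → l.prod ∈ I ^ l.length := by
  induction l with
  | nil => intro _; simp [Submodule.pow_zero]
  | cons a l ih =>
    intro h
    rw [List.prod_cons, List.length_cons, Ideal.IsTwoSided.pow_succ]
    exact Ideal.mul_mem_mul (h a (by simp)) (ih fun b hb => h b (by simp [hb]))

theorem exists_wed {κ : Type} [Field κ] [IsAlgClosed κ] (BB : Type) [Ring BB] [Algebra κ BB]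
    [FiniteDimensional κ BB] : Nonempty (Wed κ BB) := by
  have : IsArtinianRing BB := IsArtinianRing.of_finite κ BB
  obtain ⟨n, d, hd, ⟨e⟩⟩ :=
    IsSemisimpleRing.exists_algEquiv_pi_matrix_of_isAlgClosed κ (BB ⧸ Ring.jacobson BB)
  obtain ⟨N, hN⟩ := (IsSemiprimaryRing.isNilpotent : IsNilpotent (Ring.jacobson BB))
  refine ⟨⟨n, d, fun i => ((Matrix.toLinAlgEquiv' : Matrix (Fin (d i)) (Fin (d i)) κ ≃ₐ[κ] _).toAlgHom.comp
    ((Pi.evalAlgHom κ (fun i => Matrix (Fin (d i)) (Fin (d i)) κ) i).comp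
      (e.toAlgHom.comp (Ideal.Quotient.mkₐ κ (Ring.jacobson BB))))), ?_, ?_, N, ?_⟩⟩
  · intro i
    exact Nat.pos_of_ne_zero (hd i).out
  · intro f
    obtain ⟨h, hh⟩ := Ideal.Quotient.mkₐ_surjective κ (Ring.jacobson BB)
      (e.symm fun i => LinearMap.toMatrixAlgEquiv' (f i))
    refine ⟨h, fun i => ?_⟩
    have hh' : Ideal.Quotient.mk (Ring.jacobson BB) h =
        e.symm fun i => LinearMap.toMatrixAlgEquiv' (f i) := hh
    simp [hh']
  · intro l hl h
    have h1 : ∀ x ∈ l, x ∈ Ring.jacobson BB := by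
      intro x hx
      have h2 : e (Ideal.Quotient.mkₐ κ (Ring.jacobson BB) x) = 0 := by
        funext i
        have h3 := h x hx i
        simpa using h3
      have h4 : Ideal.Quotient.mkₐ κ (Ring.jacobson BB) x = 0 := by
        simpa using h2
      exact Ideal.Quotient.eq_zero_iff_mem.mp h4
    have h5 := prod_mem_pow _ l h1
    rw [hl, hN] at h5
    simpa using h5

end SYM
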