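import Pool.Agent.Lib.MP_b1ea0f_al.WFlat

/-
MP_b1ea0f_al, module WIrr (about 200 lines).  Irreducible representations (sections 3.5, 6.1) in the
language of algebra homomorphisms to End(κ^d); translation of BMM.Simple and BMM.Gen61.
PROOFS. Let ρ : H n x →ₐ End (Fin d → κ) be surjective, M = Fin d → κ as an H-module via ρ
(`Module.compHom M ρ.toRingHom` as a local instance; IsScalarTower κ H M). M is simple (d > 0; every
non-zero vector generates M because ρ is onto End). gop (P n x) M g = ρ (gen n x g), so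
dimv = dv x (fun g => ρ (gen n x g)).
irr_mem_Rc: BMM.zz_scalar, BMM.simple_root, BMM.dimv_facts (with P n x = BMM.PX (fun j => (x j : κ)),
`P_eq`, definitional), mem_Rc_iff_BMM, dg_bounds; coe_mon to pass from mon in κˣ to BMM.mon. z0 as a unit:
Units.mk0 ζ.
irr_ortho: star_ineq for the two triples ρ_i(π(gen g)), ρ_j(π(gen g)) (IsStar by IsStar.map of
isStar_gen) and homs = 0 in both directions: a non-zero intertwiner of all of BB (π(gen g) generate BB since
π is surjective, adjoin_gen) between the simple non-isomorphic modules of w: evaluate on h ∈ BB with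
ρ_i h = 1, ρ_j h = 0 (w.surj): s = s ρ_i(h) = ρ_j(h) s = 0. The scalar z0 ≠ 0: it is a unit because
zz is a unit (or d_i > 0).
block_quot: BB is a non-zero finite-dimensional quotient of H n x on which z = z0. Let E = BB as a left
H-module: finite-dimensional, z = z0, so semisimple (BMM.semis_scalar with gen1_of, gen2_of). So BB is a
semisimple ring; all its simple modules are isomorphic (BMM.unique_type), so BB is a simple ring,
BB ≅ M_d(κ) (IsSimpleRing.exists_algEquiv_matrix_of_isAlgClosed, or copy the end of the proof of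
BMM.exists_rep which uses Jacobson density), with type α ∈ Rc, d = dg α, z0^d = mon x α (irr_mem_Rc).
Convert a matrix algebra into End (Fin (dg α) → κ) by Matrix.toLinAlgEquiv'.
-/

namespace SYM
open Polynomial Module

/-! auxiliary statements in the notation of BMM -/

section aux
variable {n : ℕ} {K : Type} [Field K]

private theorem wirr_fl_conj {X Y : Type*} [AddCommGroup X] [Module K X] [AddCommGroup Y]
    [Module K Y] (e : X ≃ₗ[K] Y) (g : Module.End K X) (g' : Module.End K Y)
    (h : ∀ m, g' (e m) = e (g m)) {p : ℕ} (ξ : Fin p → K) (j : ℕ) :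
    BMM.fl g' ξ j = (BMM.fl g ξ j).map e.toLinearMap := by
  have key : ∀ l : List K, ∀ m, (l.map (fun c => g' - algebraMap K (Module.End K Y) c)).prod (e m)
      = e ((l.map (fun c => g - algebraMap K (Module.End K X) c)).prod m) := by
    intro l
    induction l with
    | nil => intro m; simp
    | cons c l ih =>
      intro m
      rw [List.map_cons, List.prod_cons, Module.End.mul_apply, ih, List.map_cons, List.prod_cons,
        Module.End.mul_apply]
      simp only [LinearMap.sub_apply, Module.algebraMap_end_apply, h, map_sub, map_smul]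
  unfold BMM.fl
  ext y
  constructor
  · rintro ⟨u, rfl⟩
    refine ⟨_, ⟨e.symm u, rfl⟩, ?_⟩
    have := key ((List.ofFn ξ).take j) (e.symm u)
    rw [e.apply_symm_apply] at this
    exact this.symm
  · rintro ⟨_, ⟨u, rfl⟩, rfl⟩
    exact ⟨e u, key _ u⟩

private theorem wirr_dimv_conj {X Y : Type*} [AddCommGroup X] [Module K X] [AddCommGroup Y]
    [Module K Y] (e : X ≃ₗ[K] Y) (x : J n → K) (g : Fin 3 → Module.End K X)
    (g' : Fin 3 → Module.End K Y) (h : ∀ l m, g' l (e m) = e (g l m)) :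
    BMM.dimv x g' = BMM.dimv x g := by
  funext j
  have hf : ∀ k, Module.finrank K (BMM.fl (g' j.1) (fun i => x ⟨j.1, i⟩) k)
      = Module.finrank K (BMM.fl (g j.1) (fun i => x ⟨j.1, i⟩) k) := by
    intro k
    rw [wirr_fl_conj e (g j.1) (g' j.1) (h j.1)]
    exact LinearEquiv.finrank_map_eq e _
  unfold BMM.dimv BMM.mult
  rw [hf, hf]

private theorem wirr_irr [IsAlgClosed K] (hn : n = 3 ∨ n = 4 ∨ n = 5) (x : J n → K)
    (hx : ∀ j, x j ≠ 0) {d : ℕ} (hd : 0 < d)
    (ρ : BMM.HA K (BMM.PX x) →ₐ[K] Module.End K (Fin d → K)) (hρ : Function.Surjective ρ) :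
    ∃ ζ : K, ζ ≠ 0 ∧ ρ (BMM.zz K (BMM.PX x)) = ζ • 1 ∧
      BMM.dimv x (fun g => ρ (BMM.gen K (BMM.PX x) g)) ∈ BMM.Rc n ∧
      BMM.lev (BMM.dimv x (fun g => ρ (BMM.gen K (BMM.PX x) g))) = d ∧
      ζ ^ d = BMM.mon x (BMM.dimv x (fun g => ρ (BMM.gen K (BMM.PX x) g))) := by
  let _ : Module (BMM.HA K (BMM.PX x)) (Fin d → K) := Module.compHom _ ρ.toRingHom
  have hsm : ∀ (u : BMM.HA K (BMM.PX x)) (m : Fin d → K), u • m = ρ u m := fun _ _ => rfl
  have _ : IsScalarTower K (BMM.HA K (BMM.PX x)) (Fin d → K) := ⟨fun c u m => by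
    rw [hsm, hsm, map_smul, LinearMap.smul_apply]⟩
  have _ : Nontrivial (Fin d → K) := by
    have : Nonempty (Fin d) := ⟨⟨0, hd⟩⟩
    infer_instance
  have hs : IsSimpleModule (BMM.HA K (BMM.PX x)) (Fin d → K) := by
    rw [isSimpleModule_iff_toSpanSingleton_surjective]
    refine ⟨inferInstance, fun m hm m' => ?_⟩
    obtain ⟨i, hi⟩ := Function.ne_iff.1 hm
    have hi' : m i ≠ 0 := hi
    obtain ⟨u, hu⟩ := hρ ((m i)⁻¹ • (LinearMap.proj i : (Fin d → K) →ₗ[K] K).smulRight m')
    refine ⟨u, ?_⟩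
    rw [LinearMap.toSpanSingleton_apply, hsm, hu, LinearMap.smul_apply,
      LinearMap.smulRight_apply, LinearMap.proj_apply, smul_smul, inv_mul_cancel₀ hi', one_smul]
  obtain ⟨ζ, hζ, hz⟩ := BMM.zz_scalar (P := BMM.PX x) (M := Fin d → K) (BMM.PX_coeff_ne x hx)
  obtain ⟨h1, h2, h3, h4⟩ := BMM.dimv_facts x (Fin d → K) hx ζ hz
  have hr := BMM.simple_root x (Fin d → K) hn hx
  have hg : BMM.gop (BMM.PX x) (Fin d → K) = fun g => ρ (BMM.gen K (BMM.PX x) g) := by
    funext g
    rfl
  rw [hg] at h3 h4 hr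
  rw [Module.finrank_fin_fun] at h3 h4
  refine ⟨ζ, hζ, ?_, hr, h3, h4⟩
  refine LinearMap.ext fun m => ?_
  exact hz m

private theorem wirr_block [IsAlgClosed K] (hn : n = 3 ∨ n = 4 ∨ n = 5) (x : J n → K)
    (hx : ∀ j, x j ≠ 0) (h1 : BMM.Gen1 x) (h2 : BMM.Gen2 x) {BB : Type} [Ring BB] [Algebra K BB]
    [Nontrivial BB] [FiniteDimensional K BB] (π : BMM.HA K (BMM.PX x) →ₐ[K] BB)
    (hπ : Function.Surjective π) (ζ : K)
    (hz : π (BMM.zz K (BMM.PX x)) = algebraMap K BB ζ) :
    ∃ α ∈ BMM.Rc n, ζ ^ BMM.lev α = BMM.mon x α ∧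
      ∃ ρ : BB →ₐ[K] Module.End K (Fin (BMM.lev α).toNat → K),
      Function.Bijective ρ ∧ (BMM.dimv x fun g => ρ (π (BMM.gen K (BMM.PX x) g))) = α := by
  classical
  let _ : Module (BMM.HA K (BMM.PX x)) BB := Module.compHom _ π.toRingHom
  have hsm : ∀ (u : BMM.HA K (BMM.PX x)) (m : BB), u • m = π u * m := fun _ _ => rfl
  have _ : IsScalarTower K (BMM.HA K (BMM.PX x)) BB := ⟨fun c u m => by
    rw [hsm, hsm, map_smul, smul_mul_assoc]⟩
  have hzE : ∀ e : BB, BMM.zz K (BMM.PX x) • e = ζ • e := by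
    intro e
    rw [hsm, hz, Algebra.smul_def]
  have sE : IsSemisimpleModule (BMM.HA K (BMM.PX x)) BB :=
    BMM.semis_scalar hn x hx h1 h2 BB ζ hzE
  obtain ⟨X, sX⟩ := IsSemisimpleModule.exists_simple_submodule (BMM.HA K (BMM.PX x)) BB
  have := sX
  have hfin : ∀ Y : Submodule (BMM.HA K (BMM.PX x)) BB, FiniteDimensional K Y :=
    fun Y => inferInstanceAs (FiniteDimensional K (Y.restrictScalars K))
  have fX : FiniteDimensional K X := hfin X
  have hzY : ∀ Y : Submodule (BMM.HA K (BMM.PX x)) BB, ∀ e : Y,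
      BMM.zz K (BMM.PX x) • e = ζ • e := fun Y e => Subtype.ext (hzE e)
  have hr := BMM.simple_root x X hn hx
  have hf := BMM.dimv_facts x X hx ζ (hzY X)
  have hd : Module.finrank K X = (BMM.lev (BMM.dimv x (BMM.gop (BMM.PX x) X))).toNat := by
    rw [hf.2.2.1]; rfl
  have hz1 : ζ ^ BMM.lev (BMM.dimv x (BMM.gop (BMM.PX x) X))
      = BMM.mon x (BMM.dimv x (BMM.gop (BMM.PX x) X)) := by
    rw [hf.2.2.1, ← hf.2.2.2, zpow_natCast]
  have hmem : ∀ (h : BB) (e : BB), e ∈ X → h * e ∈ X := by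
    intro h e he
    obtain ⟨u, rfl⟩ := hπ h
    exact X.smul_mem u he
  let ψ : BB →ₐ[K] Module.End K X := AlgHom.ofLinearMap
    { toFun := fun h =>
        { toFun := fun e => ⟨h * e, hmem h e e.2⟩
          map_add' := fun e e' => Subtype.ext (mul_add _ _ _)
          map_smul' := fun c e => Subtype.ext (mul_smul_comm _ _ _) }
      map_add' := fun h h' => LinearMap.ext fun e => Subtype.ext (add_mul _ _ _)
      map_smul' := fun c h => LinearMap.ext fun e => Subtype.ext (smul_mul_assoc _ _ _) }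
    (LinearMap.ext fun e => Subtype.ext (one_mul _))
    (fun h h' => LinearMap.ext fun e => Subtype.ext (mul_assoc _ _ _))
  have hψ : ∀ (h : BB) (e : X), ((ψ h e : X) : BB) = h * e := fun _ _ => rfl
  have hψ2 : ∀ (u : BMM.HA K (BMM.PX x)) (e : X), ψ (π u) e = u • e := fun _ _ => rfl
  let b : Module.Basis (Fin (BMM.lev (BMM.dimv x (BMM.gop (BMM.PX x) X))).toNat) K X :=
    (Module.finBasis K X).reindex (finCongr hd)
  let ρ : BB →ₐ[K] Module.End K
      (Fin (BMM.lev (BMM.dimv x (BMM.gop (BMM.PX x) X))).toNat → K) :=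
    (b.equivFun.conjAlgEquiv K).toAlgHom.comp ψ
  have hρ : ∀ (h : BB) (m : X), ρ h (b.equivFun m) = b.equivFun (ψ h m) := by
    intro h m
    change b.equivFun (ψ h (b.equivFun.symm (b.equivFun m))) = _
    rw [LinearEquiv.symm_apply_apply]
  refine ⟨BMM.dimv x (BMM.gop (BMM.PX x) X), hr, hz1, ρ, ?_, ?_⟩
  · have hψb : Function.Bijective ψ := by
      constructor
      · rw [injective_iff_map_eq_zero]
        intro h hh
        obtain ⟨u, rfl⟩ := hπ h
        have h0 : ∀ m : X, u • m = 0 := fun m => by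
          rw [← hψ2, hh]
          rfl
        have hkill : ∀ e : BB, u • e = 0 := by
          intro e
          have he : e ∈ (⨆ Y : {m : Submodule (BMM.HA K (BMM.PX x)) BB |
              IsSimpleModule (BMM.HA K (BMM.PX x)) m},
              (Y : Submodule (BMM.HA K (BMM.PX x)) BB)) := by
            rw [← sSup_eq_iSup', IsSemisimpleModule.sSup_simples_eq_top]
            trivial
          refine Submodule.iSup_induction _ (motive := fun e => u • e = 0) he ?_ ?_ ?_
          · rintro ⟨Y, hY⟩ y hy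
            have : IsSimpleModule (BMM.HA K (BMM.PX x)) Y := hY
            have := hfin Y
            obtain ⟨e⟩ := (BMM.unique_type hn x hx h1 X Y ζ (hzY X) (hzY Y)).2
            have h3 : u • (⟨y, hy⟩ : Y) = 0 := by
              rw [← e.apply_symm_apply (⟨y, hy⟩ : Y), ← map_smul, h0, map_zero]
            exact congrArg Subtype.val h3
          · exact smul_zero u
          · intro a b ha hb
            rw [smul_add, ha, hb, add_zero]
        have h4 := hkill 1
        rwa [hsm, mul_one] at h4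
      · intro f
        have hlin : ∀ (g : Module.End (BMM.HA K (BMM.PX x)) X) (m : X), f (g m) = g (f m) := by
          intro g m
          obtain ⟨c, hc⟩ := BMM.schur (P := BMM.PX x) (g.restrictScalars K)
            ((BMM.mem_Hom3_iff _).2 (fun u m => g.map_smul u m))
          have hc' : ∀ m, g m = c • m := hc
          rw [hc', hc', map_smul]
        let F : Module.End (Module.End (BMM.HA K (BMM.PX x)) X) X :=
          { toFun := f
            map_add' := f.map_add
            map_smul' := hlin }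
        obtain ⟨r, hr⟩ := jacobson_density F (Finset.univ.image b)
        refine ⟨π r, ?_⟩
        apply b.ext
        intro i
        have h5 := hr (b i) (Finset.mem_image_of_mem _ (Finset.mem_univ i))
        rw [hψ2]
        exact h5.symm
    exact (b.equivFun.conjAlgEquiv K).bijective.comp hψb
  · apply wirr_dimv_conj b.equivFun
    intro l m
    rw [hρ]
    rfl

end aux

section
variable {κ : Type} [Field κ] [IsAlgClosed κ] {n : ℕ} {x : J n → κˣ}

/-- irreducible representations have root dimension vectors -/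
theorem irr_mem_Rc (hn : HN n) {d : ℕ} (hd : 0 < d) (ρ : H n x →ₐ[κ] Module.End κ (Fin d → κ))
    (hρ : Function.Surjective ρ) :
    ∃ z0 : κˣ, ρ (zz n x) = (z0 : κ) • 1 ∧ (dv x fun g => ρ (gen n x g)) ∈ Rc n ∧
      dg (dv x fun g => ρ (gen n x g)) = d ∧ z0 ^ d = mon x (dv x fun g => ρ (gen n x g)) := by
  obtain ⟨ζ, hζ, h1, h2, h3, h4⟩ := wirr_irr hn (fun j => ((x j : κˣ) : κ))
    (fun _ => Units.ne_zero _) hd ρ hρ
  refine ⟨Units.mk0 ζ hζ, h1, (mem_Rc_iff_BMM hn).2 h2, ?_, ?_⟩
  · have h5 := congrArg Int.toNat h3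
    rwa [Int.toNat_natCast] at h5
  · apply Units.ext
    rw [Units.val_pow_eq_pow_val, Units.val_mk0, coe_mon]
    exact h4

omit [IsAlgClosed κ] in
private theorem wirr_inter {BB : Type} [Ring BB] [Algebra κ BB] (π : H n x →ₐ[κ] BB)
    (hπ : Function.Surjective π) (w : Wed κ BB) (i j : Fin w.r) (hij : i ≠ j) :
    homs (fun g => w.ρ i (π (gen n x g))) (fun g => w.ρ j (π (gen n x g))) = ⊥ := by
  classical
  rw [Submodule.eq_bot_iff]
  intro s hs
  have hs' : ∀ g, s ∘ₗ w.ρ i (π (gen n x g)) = w.ρ j (π (gen n x g)) ∘ₗ s := by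
    intro g
    have h := (Submodule.mem_iInf _).1 hs g
    exact h
  have hall : ∀ u : H n x, s ∘ₗ w.ρ i (π u) = w.ρ j (π u) ∘ₗ s := by
    intro u
    induction u using BMM.HA.induction with
    | h1 r =>
      rw [AlgHom.commutes, AlgHom.commutes, AlgHom.commutes]
      refine LinearMap.ext fun m => ?_
      rw [LinearMap.comp_apply, LinearMap.comp_apply, Module.algebraMap_end_apply,
        Module.algebraMap_end_apply, map_smul]
    | hg g => exact hs' g
    | hadd u v hu hv =>
      rw [map_add, map_add, map_add, LinearMap.comp_add, LinearMap.add_comp, hu, hv]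
    | hmul u v hu hv =>
      rw [map_mul, map_mul, map_mul, Module.End.mul_eq_comp, Module.End.mul_eq_comp,
        ← LinearMap.comp_assoc, hu, LinearMap.comp_assoc, hv, LinearMap.comp_assoc]
  obtain ⟨h, hh⟩ := w.surj (fun k => if k = i then 1 else 0)
  obtain ⟨u, rfl⟩ := hπ h
  have h1 := hall u
  rw [hh i, hh j, if_pos rfl, if_neg (fun h => hij h.symm)] at h1
  refine LinearMap.ext fun m => ?_
  have h2 := LinearMap.congr_fun h1 m
  exact h2

theorem irr_ortho (hn : HN n) {BB : Type} [Ring BB] [Algebra κ BB] (π : H n x →ₐ[κ] BB)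
    (hπ : Function.Surjective π) (w : Wed κ BB) (i j : Fin w.r) (hij : i ≠ j) (z0 : κ)
    (hi : w.ρ i (π (zz n x)) = z0 • 1) (hj : w.ρ j (π (zz n x)) = z0 • 1) :
    ip (dv x fun g => w.ρ i (π (gen n x g))) (dv x fun g => w.ρ j (π (gen n x g))) ≤ 0 := by
  have hne : z0 ≠ 0 := by
    rintro rfl
    have hu : IsUnit (w.ρ i (π (zz n x))) :=
      ((BMM.isUnit_zz (A := κ) (P := P n x) (fun g => (coeff_P_ne x g).isUnit)).map π).map (w.ρ i)
    rw [hi, zero_smul] at hu
    have : Nonempty (Fin (w.d i)) := ⟨⟨0, w.pos i⟩⟩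
    exact not_isUnit_zero hu
  have ha : IsStar n x (fun g => w.ρ i (π (gen n x g))) :=
    (isStar_gen n x).map ((w.ρ i).comp π)
  have hb : IsStar n x (fun g => w.ρ j (π (gen n x g))) :=
    (isStar_gen n x).map ((w.ρ j).comp π)
  have hi' : w.ρ i (π (gen n x 0)) * w.ρ i (π (gen n x 1)) * w.ρ i (π (gen n x 2))
      = ((Units.mk0 z0 hne : κˣ) : κ) • 1 := by
    rw [Units.val_mk0, ← hi, zz_eq, map_mul, map_mul, map_mul, map_mul]
  have hj' : w.ρ j (π (gen n x 0)) * w.ρ j (π (gen n x 1)) * w.ρ j (π (gen n x 2))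
      = ((Units.mk0 z0 hne : κˣ) : κ) • 1 := by
    rw [Units.val_mk0, ← hj, zz_eq, map_mul, map_mul, map_mul, map_mul]
  have h := star_ineq hn ha hb (Units.mk0 z0 hne) hi' hj'
  rw [wirr_inter π hπ w i j hij, wirr_inter π hπ w j i hij.symm, finrank_bot, finrank_bot] at h
  simpa using h

/-- (6.1) -/
theorem block_quot (hn : HN n) (hx : Gen x) {BB : Type} [Ring BB] [Algebra κ BB] [Nontrivial BB]
    [FiniteDimensional κ BB] (π : H n x →ₐ[κ] BB) (hπ : Function.Surjective π) (z0 : κˣ)
    (hz : π (zz n x) = algebraMap κ BB z0) :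
    ∃ α ∈ Rc n, z0 ^ dg α = mon x α ∧ ∃ ρ : BB →ₐ[κ] Module.End κ (Fin (dg α) → κ),
      Function.Bijective ρ ∧ (dv x fun g => ρ (π (gen n x g))) = α := by
  obtain ⟨α, hα, h1, ρ, h2, h3⟩ := wirr_block hn (fun j => ((x j : κˣ) : κ))
    (fun _ => Units.ne_zero _) (gen1_of hn hx) (gen2_of hx) π hπ (z0 : κ) hz
  have hα' : α ∈ Rc n := (mem_Rc_iff_BMM hn).2 hα
  refine ⟨α, hα', ?_, ρ, h2, h3⟩
  apply Units.ext
  have h5 : BMM.lev α = (dg α : ℤ) := (dg_bounds hn hα').1.symm
  rw [Units.val_pow_eq_pow_val, coe_mon, ← h1, h5, zpow_natCast]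

end

end SYM
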