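import Pool.Agent.Lib.MP_b1ea0f_al.Defs4
import Pool.Agent.Lib.MP_b1ea0f_al.SSpan
import Pool.Agent.Lib.MP_b1ea0f_al.WIrr
import Pool.Agent.Lib.MP_b1ea0f_al.WEx
import Pool.Agent.Lib.MP_b1ea0f_al.RHalf

/-!
# SNil: a power of D(z) vanishes

Paper section 4. `A := LaurentPolynomial k` (or `MvPolynomial`/`AddMonoidAlgebra k ℤ`) acts on `H n x` through `T ↦ z`; `H` is a finite `A`-module (`span_words`). `D ∈ A`; show `D ∈ √Ann`: for a prime `p ⊇ Ann` (`Module.support_eq_zeroLocus`) the tensor product with the residue field is non trivial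
(`Module.mem_support_iff_nontrivial_residueField_tensorProduct`), pass to the algebraic closure `κ`: a nonzero finite-dimensional `κ`-algebra `BB` with a star triple (parameters = images of `x`) and `z` the scalar `z0` = image of `T`. `exists_wed`: an irreducible representation; `irr_mem_Rc`: `z0^{dg α} = mon x̄ α`, `D(z0) = 0`, `D ∈ p`.
-/

namespace SYM
open Polynomial Module

open scoped TensorProduct

section snil
variable {n : ℕ} {k : Type} [CommRing k] (x : J n → kˣ)

/-- the centre of `H` -/
private abbrev Zc : Type := Subring.center (H n x)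

private noncomputable def zc : Zc x := ⟨zz n x, Subring.mem_center_iff.2 fun h => (zz_comm n x h).symm⟩

private noncomputable def kc : k →+* Zc x :=
  (algebraMap k (H n x)).codRestrict (Subring.center (H n x))
    (fun r => Subring.mem_center_iff.2 fun h => (Algebra.commutes r h).symm)

private theorem kc_val (r : k) : ((kc x r : Zc x) : H n x) = algebraMap k (H n x) r := rfl

private theorem zu_zpow_mem (m : ℤ) : ((zu n x ^ m : (H n x)ˣ) : H n x) ∈ Subring.center (H n x) := by
  refine Subring.mem_center_iff.2 fun h => ?_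
  have h1 : Commute ((zu n x : (H n x)ˣ) : H n x) h := by
    rw [zu_val]
    exact zz_comm n x h
  exact (Commute.units_zpow_left h1 m).symm.eq

private theorem finZ (hn : HN n) : Module.Finite (Zc x) (H n x) := by
  obtain ⟨F, hF⟩ := span_words n hn x
  refine ⟨F, ?_⟩
  rw [eq_top_iff]
  intro h _
  have hh : h ∈ Submodule.span k {u : H n x | ∃ (m : ℤ), ∃ f ∈ F,
      u = ((zu n x ^ m : (H n x)ˣ) : H n x) * f} := by
    rw [hF]; trivial
  induction hh using Submodule.span_induction with
  | mem u hu =>
    obtain ⟨m, f, hf, rfl⟩ := hu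
    exact Submodule.smul_mem _ (⟨_, zu_zpow_mem x m⟩ : Zc x) (Submodule.subset_span hf)
  | zero => exact Submodule.zero_mem _
  | add u v _ _ hu hv => exact Submodule.add_mem _ (hu trivial) (hv trivial)
  | smul r u _ hu =>
    have h2 : r • u = (kc x r) • u := by
      rw [Algebra.smul_def]; rfl
    rw [h2]
    exact Submodule.smul_mem _ _ (hu trivial)

private noncomputable def Dz : Zc x := (DD n x).eval₂ (kc x) (zc x)

private theorem Dz_val : ((Dz x : Zc x) : H n x) = aeval (zz n x) (DD n x) := by
  have h := Polynomial.hom_eval₂ (DD n x) (kc x) (Subring.subtype (Subring.center (H n x))) (zc x)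
  rw [Polynomial.aeval_def]
  exact h

section prime
variable (p : Ideal (Zc x)) [p.IsPrime]

private abbrev KK' : Type := AlgebraicClosure p.ResidueField

private abbrev BB' : Type := KK' x p ⊗[Zc x] H n x

private noncomputable def fk : k →+* KK' x p := (algebraMap (Zc x) (KK' x p)).comp (kc x)

private noncomputable def incl : H n x →+* BB' x p :=
  (Algebra.TensorProduct.includeRight (R := Zc x) (A := KK' x p) (B := H n x)).toRingHom

private theorem incl_apply (h : H n x) : incl x p h = (1 : KK' x p) ⊗ₜ[Zc x] h := rfl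

private theorem incl_Z (c : Zc x) : incl x p (c : H n x) =
    algebraMap (KK' x p) (BB' x p) (algebraMap (Zc x) (KK' x p) c) := by
  rw [incl_apply, Algebra.TensorProduct.algebraMap_apply, Algebra.algebraMap_self_apply]
  have h1 : ((c : Zc x) : H n x) = c • (1 : H n x) := by
    rw [Algebra.smul_def, mul_one]; rfl
  rw [h1, ← TensorProduct.smul_tmul, Algebra.algebraMap_eq_smul_one]

private theorem incl_k (r : k) : incl x p (algebraMap k (H n x) r) =
    algebraMap (KK' x p) (BB' x p) (fk x p r) := incl_Z x p (kc x r)

private theorem star_incl : IsStar n (mapx (fk x p) x) (fun g => incl x p (gen n x g)) := by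
  have h := isStar_gen n x
  refine ⟨fun g => ?_, ?_, ?_⟩
  · rw [P_mapx, Polynomial.aeval_def, Polynomial.eval₂_map]
    have h2 : ((algebraMap (KK' x p) (BB' x p)).comp (fk x p)) =
        (incl x p).comp (algebraMap k (H n x)) := RingHom.ext fun r => (incl_k x p r).symm
    rw [h2, ← Polynomial.hom_eval₂, ← Polynomial.aeval_def, h.poly, map_zero]
  · simp only [← map_mul, h.cyc1]
  · simp only [← map_mul]
    rw [h.cyc2]

private noncomputable def pi' : H n (mapx (fk x p) x) →ₐ[KK' x p] BB' x p :=
  lift n _ _ (star_incl x p)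

private theorem pi'_surj : Function.Surjective (pi' x p) := by
  have key : ∀ h : H n x, incl x p h ∈ (pi' x p).range := by
    intro h
    induction h using BMM.HA.induction with
    | h1 r =>
      rw [incl_k]
      exact Subalgebra.algebraMap_mem _ _
    | hg g => exact ⟨gen n _ g, lift_gen n _ _ (star_incl x p) g⟩
    | hadd u v hu hv => rw [map_add]; exact Subalgebra.add_mem _ hu hv
    | hmul u v hu hv => rw [map_mul]; exact Subalgebra.mul_mem _ hu hv
  intro b
  have : b ∈ (pi' x p).range := by
    induction b using TensorProduct.induction_on with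
    | zero => exact Subalgebra.zero_mem _
    | tmul c h =>
      have h1 : (c ⊗ₜ[Zc x] h : BB' x p) = c • incl x p h := by
        rw [incl_apply, TensorProduct.smul_tmul', smul_eq_mul, mul_one]
      rw [h1]
      exact Subalgebra.smul_mem _ (key h) c
    | add u v hu hv => exact Subalgebra.add_mem _ hu hv
  exact this

private theorem nontriv [Module.Finite (Zc x) (H n x)] : Nontrivial (BB' x p) := by
  have h1 : (⟨p, inferInstance⟩ : PrimeSpectrum (Zc x)) ∈ Module.support (Zc x) (H n x) := by
    rw [Module.support_eq_zeroLocus]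
    intro a ha
    have h2 : a • (1 : H n x) = 0 := Module.mem_annihilator.1 ha 1
    have h3 : a = 0 := by
      apply Subtype.ext
      rw [Algebra.smul_def, mul_one] at h2
      exact h2
    rw [h3]
    exact Ideal.zero_mem _
  rw [Module.mem_support_iff_nontrivial_residueField_tensorProduct] at h1
  obtain ⟨s, hs⟩ := LinearMap.exists_leftInverse_of_injective
    (Algebra.linearMap p.ResidueField (KK' x p))
    (LinearMap.ker_eq_bot.2 (algebraMap p.ResidueField (KK' x p)).injective)
  have hinj : Function.Injective (LinearMap.rTensor (H n x)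
      ((Algebra.linearMap p.ResidueField (KK' x p)).restrictScalars (Zc x))) := by
    refine Function.LeftInverse.injective (g := LinearMap.rTensor (H n x) (s.restrictScalars (Zc x))) ?_
    intro t
    rw [← LinearMap.comp_apply, ← LinearMap.rTensor_comp]
    have : (s.restrictScalars (Zc x)) ∘ₗ
        ((Algebra.linearMap p.ResidueField (KK' x p)).restrictScalars (Zc x)) = LinearMap.id := by
      refine LinearMap.ext fun r => ?_
      exact LinearMap.congr_fun hs r
    rw [this, LinearMap.rTensor_id]
    rfl
  exact hinj.nontrivial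

private theorem Dz_mem (hn : HN n) : Dz x ∈ p := by
  classical
  have := finZ x hn
  have := nontriv x p
  have : FiniteDimensional (KK' x p) (BB' x p) := Module.Finite.base_change (Zc x) (KK' x p) (H n x)
  obtain ⟨w⟩ := exists_wed (κ := KK' x p) (BB' x p)
  have hr : 0 < w.r := by
    rcases Nat.eq_zero_or_pos w.r with h0 | h0
    · exfalso
      obtain ⟨N, hN⟩ := w.nil
      have h1 := hN (List.replicate N 1) (List.length_replicate ..) (fun h _ i => by
        have := i.2
        omega)
      rw [List.prod_replicate, one_pow] at h1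
      exact one_ne_zero h1
    · exact h0
  set j : Fin w.r := ⟨0, hr⟩
  set ρ : H n (mapx (fk x p) x) →ₐ[KK' x p] Module.End (KK' x p) (Fin (w.d j) → KK' x p) :=
    (w.ρ j).comp (pi' x p) with hρdef
  have hρ : Function.Surjective ρ := by
    intro f
    obtain ⟨b, hb⟩ := w.surj (Function.update 0 j f)
    obtain ⟨h, rfl⟩ := pi'_surj x p b
    refine ⟨h, ?_⟩
    have := hb j
    rw [Function.update_self] at this
    exact this
  obtain ⟨z0, hz, hα, hd, hpow⟩ := irr_mem_Rc hn (w.pos j) ρ hρ
  set α : Vec n := dv (mapx (fk x p) x) fun g => ρ (gen n (mapx (fk x p) x) g) with hαdef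
  set ζ : KK' x p := algebraMap (Zc x) (KK' x p) (zc x) with hζdef
  have hpz : pi' x p (zz n _) = algebraMap (KK' x p) (BB' x p) ζ := by
    rw [zz_eq, map_mul, map_mul]
    unfold pi'
    rw [lift_gen, lift_gen, lift_gen, ← map_mul, ← map_mul, ← zz_eq]
    exact incl_Z x p (zc x)
  have hζ : ζ = (z0 : KK' x p) := by
    have h1 : ρ (zz n _) = algebraMap (KK' x p) _ ζ := by
      rw [hρdef, AlgHom.comp_apply, hpz, AlgHom.commutes]
    rw [hz, Algebra.algebraMap_eq_smul_one] at h1
    have : Nonempty (Fin (w.d j)) := ⟨⟨0, w.pos j⟩⟩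
    have h2 := LinearMap.congr_fun h1 (fun _ => 1)
    have h3 := congrFun h2 ⟨0, w.pos j⟩
    simpa using h3.symm
  have hzero : algebraMap (Zc x) (KK' x p) (Dz x) = 0 := by
    unfold Dz
    rw [Polynomial.hom_eval₂, ← hζdef]
    change (DD n x).eval₂ (fk x p) ζ = 0
    unfold DD
    rw [Polynomial.eval₂_finsetProd]
    refine Finset.prod_eq_zero hα ?_
    rw [Polynomial.eval₂_sub, Polynomial.eval₂_pow, Polynomial.eval₂_X, Polynomial.eval₂_C, hd, hζ,
      ← Units.val_pow_eq_pow_val, hpow, mon_mapx]
    simp
  have h4 : algebraMap (Zc x) p.ResidueField (Dz x) = 0 := by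
    apply (algebraMap p.ResidueField (KK' x p)).injective
    rw [map_zero, ← IsScalarTower.algebraMap_apply]
    exact hzero
  exact Ideal.algebraMap_residueField_eq_zero.1 h4

end prime
end snil

theorem DD_nilp (n : ℕ) (hn : HN n) {k : Type} [CommRing k] (x : J n → kˣ) :
    ∃ M : ℕ, aeval (zz n x) (DD n x) ^ M = 0 := by
  have h : IsNilpotent (Dz x) := nilpotent_iff_mem_prime.2 fun p hp => Dz_mem x p hn
  obtain ⟨M, hM⟩ := h
  refine ⟨M, ?_⟩
  rw [← Dz_val, ← SubmonoidClass.coe_pow, hM]
  rfl

end SYM
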