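import Pool.Agent.Lib.MP_b1ea0f_al.Defs4
import Pool.Agent.Lib.MP_b1ea0f_al.SSpan
import Pool.Agent.Lib.MP_b1ea0f_al.SNil

/-!
# SFin: H is a finite module

`DD^M` is monic with unit constant term: `k[z,z^{-1}]` is spanned by finitely many powers of `z`; with `span_words`: finite.
-/

namespace SYM
open Polynomial Module

private theorem dg_ne_zero {n : ℕ} {α : Vec n} (h : α ∈ Rc n) : dg α ≠ 0 := by
  have h1 : 1 ≤ deg α := (Finset.mem_filter.1 h).2.2
  unfold dg
  omega

private theorem DD_monic (n : ℕ) {k : Type} [CommRing k] (x : J n → kˣ) : (DD n x).Monic :=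
  Polynomial.monic_prod_of_monic _ _ fun _ hα => Polynomial.monic_X_pow_sub_C _ (dg_ne_zero hα)

private theorem DD_coeff (n : ℕ) {k : Type} [CommRing k] (x : J n → kˣ) :
    IsUnit ((DD n x).coeff 0) := by
  rw [Polynomial.coeff_zero_eq_eval_zero, DD, Polynomial.eval_prod]
  refine IsUnit.prod_iff.2 fun α hα => ?_
  rw [eval_sub, eval_pow, eval_X, eval_C, zero_pow (dg_ne_zero hα), zero_sub]
  exact (Units.isUnit _).neg

theorem finite_H (n : ℕ) (hn : HN n) {k : Type} [CommRing k] (x : J n → kˣ) :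
    Module.Finite k (H n x) := by
  classical
  obtain ⟨M, hM⟩ := DD_nilp n hn x
  obtain ⟨F, hF⟩ := span_words n hn x
  have hQ0 : aeval (zz n x) (DD n x ^ M) = 0 := by rw [map_pow, hM]
  have hint : IsIntegral k (zz n x) := ⟨DD n x ^ M, (DD_monic n x).pow M, hQ0⟩
  set S := Algebra.adjoin k {zz n x} with hS
  have hz : zz n x ∈ S := Algebra.subset_adjoin rfl
  -- the inverse of `z`
  have hinv : (((zu n x)⁻¹ : (H n x)ˣ) : H n x) ∈ S := by
    have hc : IsUnit ((DD n x ^ M).coeff 0) := by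
      rw [Polynomial.coeff_zero_eq_eval_zero, eval_pow, ← Polynomial.coeff_zero_eq_eval_zero]
      exact (DD_coeff n x).pow M
    obtain ⟨c, hc⟩ := hc
    have h2 := hQ0
    rw [← Polynomial.divX_mul_X_add (DD n x ^ M), map_add, map_mul, aeval_X, aeval_C, ← hc] at h2
    have h3 : aeval (zz n x) (divX (DD n x ^ M)) * zz n x = - algebraMap k (H n x) c :=
      eq_neg_of_add_eq_zero_left h2
    have h4 : ((-((c⁻¹ : kˣ) : k)) • aeval (zz n x) (divX (DD n x ^ M))) * zz n x = 1 := by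
      rw [smul_mul_assoc, h3, smul_neg, neg_smul, neg_neg, Algebra.smul_def, ← map_mul,
        Units.inv_mul, map_one]
    have h5 : (((zu n x)⁻¹ : (H n x)ˣ) : H n x) =
        (-((c⁻¹ : kˣ) : k)) • aeval (zz n x) (divX (DD n x ^ M)) := by
      calc (((zu n x)⁻¹ : (H n x)ˣ) : H n x)
          = (((-((c⁻¹ : kˣ) : k)) • aeval (zz n x) (divX (DD n x ^ M))) * zz n x) *
            (((zu n x)⁻¹ : (H n x)ˣ) : H n x) := by rw [h4, one_mul]
        _ = _ := by rw [mul_assoc, ← zu_val, Units.mul_inv, mul_one]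
    rw [h5]
    exact Subalgebra.smul_mem _ (Polynomial.aeval_mem_adjoin_singleton k (zz n x)) _
  have hpow : ∀ m : ℤ, ((zu n x ^ m : (H n x)ˣ) : H n x) ∈ S := by
    intro m
    obtain ⟨a, rfl | rfl⟩ := m.eq_nat_or_neg
    · rw [zpow_natCast, Units.val_pow_eq_pow_val, zu_val]
      exact Subalgebra.pow_mem _ hz a
    · rw [zpow_neg, zpow_natCast, ← inv_pow, Units.val_pow_eq_pow_val]
      exact Subalgebra.pow_mem _ hinv a
  have hfg : (Subalgebra.toSubmodule S).FG := hint.fg_adjoin_singleton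
  have hfg' : (⨆ f ∈ F, (Subalgebra.toSubmodule S).map (LinearMap.mulRight k f)).FG :=
    Submodule.fg_biSup F _ fun f _ => hfg.map _
  have htop : (⨆ f ∈ F, (Subalgebra.toSubmodule S).map (LinearMap.mulRight k f)) = ⊤ := by
    rw [eq_top_iff, ← hF, Submodule.span_le]
    rintro u ⟨m, f, hf, rfl⟩
    have h1 : ((zu n x ^ m : (H n x)ˣ) : H n x) * f ∈
        (Subalgebra.toSubmodule S).map (LinearMap.mulRight k f) :=
      ⟨_, hpow m, rfl⟩
    exact (le_biSup (fun f => (Subalgebra.toSubmodule S).map (LinearMap.mulRight k f)) hf) h1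
  rw [htop] at hfg'
  exact ⟨hfg'⟩

end SYM
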