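import Pool.Agent.Lib.MP_b1ea0f_al.Defs4
import Pool.Agent.Lib.MP_b1ea0f_al.SFin

/-!
# KFin: finite dimensionality over fields

Instances.
-/

namespace SYM
open Polynomial Module

theorem finite_field (n : ℕ) (hn : HN n) {κ : Type} [Field κ] (x : J n → κˣ) :
    FiniteDimensional κ (H n x) := finite_H n hn x

end SYM
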