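import Pool.Agent.Lib.MP_b1ea0f_al.Defs4

/-!
# KGroup: the star group has at least N^2 elements

Paper 7.2. A homomorphism `GG n → GL_2(ZMod p)` (`p = 13, 73, 61`), explicit matrices with `a² = b³ = c^n = 1`, `abc` scalar of order `N`; `N` scalars times `N` classes modulo scalars: give `N` words whose matrices are pairwise non-proportional (`decide +kernel`).
-/

namespace SYM
open Polynomial Module

private def kzc (n : ℕ) : GG n := gg n 0 * gg n 1 * gg n 2

private def kw (n : ℕ) (l : List (Fin 3)) : GG n := (l.map (gg n)).prod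

private theorem kg_main {n N : ℕ} {P K : Type} [Group P] [Group K] (π : GG n →* P)
    (κ : GG n →* K) (hz : π (kzc n) = 1) (hk : ∀ j : ℕ, 0 < j → j < N → κ (kzc n) ^ j ≠ 1)
    (w : Fin N → GG n) (hw : Function.Injective (fun i => π (w i))) :
    ∃ f : Fin (N ^ 2) → GG n, Function.Injective f := by
  have h3 : ∀ i j : ℕ, i < N → j < N → kzc n ^ i = kzc n ^ j → i ≤ j → i = j := by
    intro i j hi hj h hij
    by_contra hne
    have h4 : kzc n ^ (j - i) = 1 := by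
      have h6 : kzc n ^ i * kzc n ^ (j - i) = kzc n ^ i * 1 := by
        rw [← pow_add, Nat.add_sub_cancel' hij, mul_one, h]
      exact mul_left_cancel h6
    have h5 := congrArg κ h4
    rw [map_pow, map_one] at h5
    exact hk (j - i) (by omega) (by omega) h5
  have h1 : Function.Injective (fun p : Fin N × Fin N => kzc n ^ (p.1 : ℕ) * w p.2) := by
    rintro ⟨i, a⟩ ⟨j, b⟩ h
    simp only at h
    have hπ := congrArg π h
    rw [map_mul, map_mul, map_pow, map_pow, hz, one_pow, one_pow, one_mul, one_mul] at hπ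
    have hab : a = b := hw hπ
    subst hab
    have h2 := mul_right_cancel h
    have h7 : (i : ℕ) = j := by
      rcases le_total (i : ℕ) j with hij | hij
      · exact h3 i j i.2 j.2 h2 hij
      · exact (h3 j i j.2 i.2 h2.symm hij).symm
    rw [Prod.mk.injEq]
    exact ⟨Fin.ext h7, rfl⟩
  refine ⟨fun i => (fun p : Fin N × Fin N => kzc n ^ (p.1 : ℕ) * w p.2)
    (finProdFinEquiv.symm (Fin.cast (pow_two N) i)), ?_⟩
  exact h1.comp (finProdFinEquiv.symm.injective.comp (Fin.cast_injective _))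

private def khom {K : Type} [Group K] (n : ℕ) (s : Fin 3 → K) (hp : ∀ g, s g ^ leg n g = 1)
    (hc : ∀ g, (s 0 * s 1 * s 2) * s g = s g * (s 0 * s 1 * s 2)) : GG n →* K :=
  PresentedGroup.toGroup (f := s) (by
    rintro r hr
    rcases hr with g | g
    · rw [map_pow, FreeGroup.lift_apply_of, hp]
    · rw [map_mul, map_mul, map_mul, map_mul, map_mul, map_inv, map_inv, map_mul, map_mul,
        FreeGroup.lift_apply_of, FreeGroup.lift_apply_of, FreeGroup.lift_apply_of,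
        FreeGroup.lift_apply_of, hc, mul_inv_cancel_right, mul_inv_cancel])

private theorem khom_gg {K : Type} [Group K] (n : ℕ) (s : Fin 3 → K)
    (hp : ∀ g, s g ^ leg n g = 1)
    (hc : ∀ g, (s 0 * s 1 * s 2) * s g = s g * (s 0 * s 1 * s 2)) (g : Fin 3) :
    khom n s hp hc (gg n g) = s g :=
  PresentedGroup.toGroup.of _

private theorem khom_kzc {K : Type} [Group K] (n : ℕ) (s : Fin 3 → K)
    (hp : ∀ g, s g ^ leg n g = 1)
    (hc : ∀ g, (s 0 * s 1 * s 2) * s g = s g * (s 0 * s 1 * s 2)) :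
    khom n s hp hc (kzc n) = s 0 * s 1 * s 2 := by
  unfold kzc
  rw [map_mul, map_mul, khom_gg, khom_gg, khom_gg]

private theorem khom_kw {K : Type} [Group K] (n : ℕ) (s : Fin 3 → K)
    (hp : ∀ g, s g ^ leg n g = 1)
    (hc : ∀ g, (s 0 * s 1 * s 2) * s g = s g * (s 0 * s 1 * s 2)) (l : List (Fin 3)) :
    khom n s hp hc (kw n l) = (l.map s).prod := by
  unfold kw
  rw [map_list_prod, List.map_map]
  congr 1
  apply List.map_congr_left
  intro g _
  exact khom_gg n s hp hc g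

/-- action of a word -/
private def kev {m : ℕ} (s : Fin 3 → Fin m → Fin m) : List (Fin 3) → Fin m → Fin m
  | [], x => x
  | g :: l, x => s g (kev s l x)

/-- code of a permutation -/
private def kcode {m : ℕ} (f : Fin m → Fin m) : ℕ :=
  (List.finRange m).foldl (fun c x => c * m + (f x).rev) 0

private theorem kev_eq {m : ℕ} (s : Fin 3 → Equiv.Perm (Fin m)) (l : List (Fin 3)) (x : Fin m) :
    (l.map s).prod x = kev (fun g => s g) l x := by
  induction l with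
  | nil => rfl
  | cons g l ih =>
    rw [List.map_cons, List.prod_cons, Equiv.Perm.mul_apply, ih]
    rfl

private theorem kg_perm {n N m p : ℕ} (s : Fin 3 → Equiv.Perm (Fin m))
    (hp : ∀ g, s g ^ leg n g = 1) (hs : s 0 * s 1 * s 2 = 1)
    (M : Fin 3 → (Matrix (Fin 2) (Fin 2) (ZMod p))ˣ) (hpM : ∀ g, M g ^ leg n g = 1)
    (ζ : ZMod p) (hM : ((M 0 * M 1 * M 2 : (Matrix (Fin 2) (Fin 2) (ZMod p))ˣ) :
      Matrix (Fin 2) (Fin 2) (ZMod p)) = Matrix.scalar (Fin 2) ζ)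
    (hζ : ∀ j : Fin N, 0 < (j : ℕ) → ζ ^ (j : ℕ) ≠ 1)
    (w : List (List (Fin 3)))
    (hw : ∀ i j : Fin N, kcode (kev (fun g => s g) (w.getD i [])) =
      kcode (kev (fun g => s g) (w.getD j [])) → i = j) :
    ∃ f : Fin (N ^ 2) → GG n, Function.Injective f := by
  have hc : ∀ g, (s 0 * s 1 * s 2) * s g = s g * (s 0 * s 1 * s 2) := fun g => by
    rw [hs, one_mul, mul_one]
  have hcM : ∀ g, (M 0 * M 1 * M 2) * M g = M g * (M 0 * M 1 * M 2) := fun g => by
    apply Units.ext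
    rw [Units.val_mul, Units.val_mul (M g), hM]
    exact (Matrix.scalar_commute ζ (fun r => Commute.all ζ r) _).eq
  refine kg_main (khom n s hp hc) (khom n M hpM hcM) ?_ ?_ (fun i => kw n (w.getD i [])) ?_
  · rw [khom_kzc, hs]
  · intro j h0 hj h
    rw [khom_kzc] at h
    have h1 := congrArg (fun u : (Matrix (Fin 2) (Fin 2) (ZMod p))ˣ =>
      (u : Matrix (Fin 2) (Fin 2) (ZMod p)) 0 0) h
    simp only [Units.val_pow_eq_pow_val, hM, Units.val_one] at h1
    rw [← map_pow] at h1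
    exact hζ ⟨j, hj⟩ h0 (by simpa using h1)
  · intro i j h
    simp only [khom_kw] at h
    apply hw
    congr 1
    funext x
    rw [← kev_eq, ← kev_eq, h]

private def kp3 : Fin 3 → Equiv.Perm (Fin 4) :=
  ![⟨![1, 0, 3, 2], ![1, 0, 3, 2], by decide, by decide⟩,
    ⟨![0, 2, 3, 1], ![0, 3, 1, 2], by decide, by decide⟩,
    ⟨![3, 0, 2, 1], ![1, 3, 2, 0], by decide, by decide⟩]

private def kp4 : Fin 3 → Equiv.Perm (Fin 4) :=
  ![⟨![0, 1, 3, 2], ![0, 1, 3, 2], by decide, by decide⟩,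
    ⟨![1, 2, 0, 3], ![2, 0, 1, 3], by decide, by decide⟩,
    ⟨![2, 0, 3, 1], ![1, 3, 0, 2], by decide, by decide⟩]

private def kp5 : Fin 3 → Equiv.Perm (Fin 5) :=
  ![⟨![0, 2, 1, 4, 3], ![0, 2, 1, 4, 3], by decide, by decide⟩,
    ⟨![1, 3, 2, 0, 4], ![3, 0, 2, 1, 4], by decide, by decide⟩,
    ⟨![3, 2, 0, 4, 1], ![2, 4, 1, 0, 3], by decide, by decide⟩]

private def km3 : Fin 3 → (Matrix (Fin 2) (Fin 2) (ZMod 13))ˣ :=
  ![⟨!![1, 0; 0, 12], !![1, 0; 0, 12], by decide +kernel, by decide +kernel⟩,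
    ⟨!![5, 1; 5, 12], !![4, 4; 7, 6], by decide +kernel, by decide +kernel⟩,
    ⟨!![2, 11; 10, 10], !![10, 2; 3, 2], by decide +kernel, by decide +kernel⟩]

private def km4 : Fin 3 → (Matrix (Fin 2) (Fin 2) (ZMod 73))ˣ :=
  ![⟨!![1, 0; 0, 72], !![1, 0; 0, 72], by decide +kernel, by decide +kernel⟩,
    ⟨!![22, 1; 71, 60], !![44, 9; 55, 21], by decide +kernel, by decide +kernel⟩,
    ⟨!![18, 66; 59, 8], !![70, 43; 13, 48], by decide +kernel, by decide +kernel⟩]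

private def km5 : Fin 3 → (Matrix (Fin 2) (Fin 2) (ZMod 61))ˣ :=
  ![⟨!![1, 0; 0, 60], !![1, 0; 0, 60], by decide +kernel, by decide +kernel⟩,
    ⟨!![24, 1; 52, 51], !![18, 14; 57, 30], by decide +kernel, by decide +kernel⟩,
    ⟨!![41, 2; 18, 13], !![15, 54; 59, 52], by decide +kernel, by decide +kernel⟩]

private def kw3 : List (List (Fin 3)) :=
  [[2, 1], [0, 1], [0, 2], [0, 2, 1], [2], [1], [0, 1, 0], [1, 1], [0], [0, 1, 1], [1, 0], []]

private def kw4 : List (List (Fin 3)) :=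
  [[2, 2], [0, 2, 2], [0, 2, 2, 1], [0, 1, 0], [2, 2, 1], [1, 0], [2, 1, 1], [0, 2, 1, 1],
    [0, 2], [2, 1], [2], [0, 2, 1], [1, 0, 2], [0, 1], [0, 1, 1], [2, 1, 0], [1, 0, 2, 1], [0],
    [0, 1, 0, 2], [1], [1, 1], [0, 2, 1, 0], [2, 1, 0, 2], []]

private def kw5 : List (List (Fin 3)) :=
  [[2, 1, 0, 2, 1], [1, 0, 1], [2, 2, 2, 1], [0, 2, 1, 0, 2, 1], [1, 0, 1, 1], [2, 2, 2],
    [0, 2, 1, 0, 2, 1, 1], [2, 1, 0, 2], [0, 1, 0], [0, 2, 1, 0, 2], [2, 1, 0, 2, 1, 1], [1, 0],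
    [0, 1, 0, 2], [2, 1, 0, 2, 1, 0], [1, 0, 1, 0], [2, 1, 1], [1, 0, 2, 1, 0, 2, 1],
    [0, 2, 2], [2, 1], [0, 1, 0, 2, 1], [0, 2, 2, 1], [2], [0, 1, 0, 2, 1, 1],
    [1, 0, 2, 1, 0, 2], [1, 0, 2], [2, 2, 1, 1], [0, 2, 1, 0, 2, 1, 0], [0, 2, 1, 1], [2, 2],
    [2, 1, 0, 2, 1, 0, 2], [0, 2], [1, 0, 2, 1, 1], [0, 1, 0, 2, 1, 0, 2], [0, 2, 1],
    [1, 0, 2, 1], [2, 2, 1], [0, 1], [0, 2, 1, 0, 2, 2], [1, 0, 2, 2, 1], [0, 1, 0, 2, 1, 0],
    [0, 2, 2, 1, 0], [2, 1, 0], [2, 2, 1, 0, 2, 1], [0, 1, 1], [1, 0, 2, 2], [2, 2, 1, 0, 2],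
    [0], [0, 2, 1, 0, 2, 2, 1], [2, 1, 0, 2, 2], [1], [0, 1, 0, 2, 2, 1],
    [0, 2, 2, 1, 0, 2, 1], [1, 1], [0, 1, 0, 2, 2], [1, 0, 2, 1, 0], [2, 2, 1, 0],
    [0, 2, 1, 0], [0, 2, 2, 1, 0, 2], [2, 1, 0, 2, 2, 1], []]

theorem group_lower (n : ℕ) (hn : HN n) : ∃ f : Fin (NZ n ^ 2) → GG n, Function.Injective f := by
  rcases hn with rfl | rfl | rfl
  · exact kg_perm (n := 3) (N := 12) kp3 (by decide +kernel) (by decide +kernel) km3
      (by decide +kernel) 7 (by decide +kernel) (by decide +kernel) kw3 (by decide +kernel)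
  · exact kg_perm (n := 4) (N := 24) kp4 (by decide +kernel) (by decide +kernel) km4
      (by decide +kernel) 17 (by decide +kernel) (by decide +kernel) kw4 (by decide +kernel)
  · exact kg_perm (n := 5) (N := 60) kp5 (by decide +kernel) (by decide +kernel) km5
      (by decide +kernel) 26 (by decide +kernel) (by decide +kernel) kw5 (by decide +kernel)

end SYM
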