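import Pool.Agent.Lib.MP_b1ea0f_al.Defs4
import Pool.Agent.Lib.MP_b1ea0f_al.RHalf

/-!
# TIndep: monomials and characters; independence implies genericity

(`mon_add`, `mon_smul`, `mon_mapx`, `qch_add`, `qch_mapx`, `qch_eq_one_iff` ... are in RQch.lean.) `Indep x` (no multiplicative relation). (G1): `mon x α ^ dg β = mon x β ^ dg α` gives `mon x (dg β • α - dg α • β) = 1`, so `dg β • α = dg α • β`, `α = β` (`Rc_prop`, both degrees positive). (G2): `x_{g,j} = x_{g,j'}` gives a relation.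
`indep_c`: `q^c ≠ 1` at a root `ζ^{dg α} = mon x α` for `ip c α = 1`: `(q^c)^{dg α} = mon x (dg α • c - deg c • α)`, so `dg α • c = deg c • α`, `c = ±α`, contradiction.
-/

namespace SYM
open Polynomial Module

/-- `q^α = 1` iff `z^d = x^α` -/
theorem qch_eq_one {n : ℕ} (hn : HN n) {k : Type*} [CommRing k] (x : J n → kˣ) (z : kˣ) {α : Vec n}
    (hα : α ∈ Rc n) : qch x z α = 1 ↔ z ^ dg α = mon x α := by
  rw [qch_eq_one_iff, ← (dg_bounds hn hα).1, zpow_natCast]
  exact eq_comm

/-- `(q^c)^d = x^{d c - |c| α}` when `q^α = 1` -/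
theorem qch_pow {n : ℕ} (hn : HN n) {k : Type*} [CommRing k] (x : J n → kˣ) (z : kˣ) {α : Vec n}
    (hα : α ∈ Rc n) (hq : z ^ dg α = mon x α) (c : Vec n) :
    qch x z c ^ dg α = mon x ((dg α : ℤ) • c - deg c • α) := by
  rw [sub_eq_add_neg, mon_add, mon_neg, mon_smul, mon_smul, ← hq, qch, mul_pow, zpow_natCast,
    ← zpow_natCast (z ^ (-deg c)), ← zpow_natCast z, ← zpow_mul, ← zpow_mul, ← zpow_neg]
  congr 2
  ring

theorem Indep.map {n : ℕ} {κ κ' : Type*} [Field κ] [Field κ'] {x : J n → κˣ} (hx : Indep x)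
    (f : κ →+* κ') : Indep (mapx f x) := by
  intro v hv
  rw [mon_mapx] at hv
  refine hx v (Units.ext (f.injective ?_))
  have h := congrArg Units.val hv
  simpa using h

theorem Indep.gen {n : ℕ} (hn : HN n) {κ : Type*} [Field κ] {x : J n → κˣ} (hx : Indep x) :
    Gen x := by
  refine ⟨fun α hα β hβ h => ?_, fun g j j' h => ?_⟩
  · have h1 : mon x ((dg β : ℤ) • α + -((dg α : ℤ) • β)) = 1 := by
      rw [mon_add, mon_neg, mon_smul, mon_smul, zpow_natCast, zpow_natCast, h, mul_inv_cancel]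
    have h2 := hx _ h1
    have h3 : (dg β : ℤ) • α = (dg α : ℤ) • β := by
      rw [← sub_eq_add_neg, sub_eq_zero] at h2
      exact h2
    rw [(dg_bounds hn hβ).1, (dg_bounds hn hα).1] at h3
    obtain ⟨hRα, hdα⟩ := (mem_Rc hn).1 hα
    obtain ⟨hRβ, hdβ⟩ := (mem_Rc hn).1 hβ
    rcases Rc_prop hn hα hRβ h3 with h4 | h4
    · exact h4.symm
    · exfalso
      rw [h4, deg_neg'] at hdβ
      omega
  · have h1 : mon x (Pi.single ⟨g, j⟩ 1 + -Pi.single ⟨g, j'⟩ 1) = 1 := by
      have hs : ∀ l : J n, mon x (Pi.single l 1) = x l := by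
        intro l
        rw [mon, Finset.prod_eq_single l]
        · simp
        · intro b _ hb
          rw [Pi.single_eq_of_ne hb, zpow_zero]
        · intro hl
          exact absurd (Finset.mem_univ l) hl
      rw [mon_add, mon_neg, hs, hs, h, mul_inv_cancel]
    have h2 := hx _ h1
    by_contra hne
    have h3 := congrFun h2 ⟨g, j⟩
    have hne' : (⟨g, j⟩ : J n) ≠ ⟨g, j'⟩ := by
      intro h4
      apply hne
      simpa using h4
    rw [Pi.add_apply, Pi.neg_apply, Pi.single_eq_same, Pi.single_eq_of_ne hne'] at h3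
    simp at h3

theorem Indep.qch_ne {n : ℕ} (hn : HN n) {κ : Type*} [Field κ] {x : J n → κˣ} (hx : Indep x)
    {α : Vec n} (hα : α ∈ Rc n) (z : κˣ) (hz : z ^ dg α = mon x α) {c : Vec n} (hc : IsRoot c)
    (hcα : ip c α = 1) : qch x z c ≠ 1 := by
  intro h
  have h1 := qch_pow hn x z hα hz c
  rw [h, one_pow] at h1
  have h2 := hx _ h1.symm
  rw [sub_eq_zero, (dg_bounds hn hα).1] at h2
  have hR : IsRoot α := ((mem_Rc hn).1 hα).1
  rcases Rc_prop hn hα hc h2.symm with h4 | h4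
  · rw [h4] at hcα
    have h5 : ip α α = 2 := hR.2
    omega
  · rw [h4] at hcα
    have h5 : ip α α = 2 := hR.2
    have h6 : ip (-α) α = -ip α α := by
      simp [ip, BMM.bil, BMM.lev, Finset.sum_neg_distrib]
      ring
    omega

end SYM
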