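import Pool.Agent.Lib.MP_b1ea0f_al.WLin
import Pool.Agent.Lib.MP_b1ea0f_al.RHalf
import Pool.Agent.Lib.BMM.Glue58
import Pool.Agent.Lib.BMM.Gen62

/-!
# MP_b1ea0f_al: translation of sections 5 and 6 (flatness inequality, generic bound)
-/

namespace SYM
open Polynomial Module

section
variable {κ : Type} [Field κ] {n : ℕ} {x : J n → κˣ}

/-- (5.8) the flatness inequality -/
theorem flat_bound [IsAlgClosed κ] [hf : FiniteDimensional κ (H n x)]
    (y : J n → (PowerSeries κ)ˣ) (hy : mapx (PowerSeries.constantCoeff (R := κ)) y = x)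
    [Module.Finite (PowerSeries κ) (H n y)] :
    finrank κ (H n x) ≤ finrank (LaurentSeries κ)
      (H n (mapx (algebraMap (PowerSeries κ) (LaurentSeries κ)) y)) := by
  subst hy
  have hP : (fun l => (P n y l).map (PowerSeries.constantCoeff (R := κ)))
      = P n (mapx (PowerSeries.constantCoeff (R := κ)) y) := by
    funext l
    exact (P_mapx _ n y l).symm
  have hQ : BMM.mapP (P n y) (algebraMap (PowerSeries κ) (LaurentSeries κ))
      = P n (mapx (algebraMap (PowerSeries κ) (LaurentSeries κ)) y) := by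
    funext l
    exact (P_mapx _ n y l).symm
  have key := fun (h1 : ∀ l, ((P n y l).map (PowerSeries.constantCoeff (R := κ))).coeff 0 ≠ 0)
      (h2 : Module.Finite κ (BMM.HA κ
        (fun l => (P n y l).map (PowerSeries.constantCoeff (R := κ))))) =>
    @BMM.flat_ineq κ _ _ (P n y) h1 h2 inferInstance (LaurentSeries κ) _ _ _
  rw [hQ] at key
  revert key
  rw [hP]
  intro key
  refine key (fun l => ?_) hf
  have h3 := congrFun hP l
  change ((P n y l).map _) = _ at h3
  rw [h3]
  exact coeff_P_ne _ l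

theorem gen1_of [IsAlgClosed κ] (hn : HN n) (hx : Gen x) :
    BMM.Gen1 (fun j => ((x j : κˣ) : κ)) := by
  intro α hα β hβ ζ h1 h2
  have hα' := (mem_Rc_iff_BMM hn).2 hα
  have hβ' := (mem_Rc_iff_BMM hn).2 hβ
  have hζ : ζ ≠ 0 := by
    rintro rfl
    have h3 : (0 : κ) ^ (BMM.lev α) = 0 := zero_zpow _ (by have := hα.2; omega)
    rw [h3, ← coe_mon] at h1
    exact (mon x α).ne_zero h1.symm
  apply hx.g1 α hα' β hβ'
  apply Units.ext
  rw [Units.val_pow_eq_pow_val, Units.val_pow_eq_pow_val, coe_mon, coe_mon, ← h1, ← h2]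
  have ha := (dg_bounds hn hα').1
  have hb := (dg_bounds hn hβ').1
  rw [← zpow_natCast, ← zpow_natCast, ← zpow_mul, ← zpow_mul, ha, hb, mul_comm]

theorem gen2_of (hx : Gen x) : BMM.Gen2 (fun j => ((x j : κˣ) : κ)) := by
  intro l i i' h
  exact hx.g2 l i i' (Units.ext h)

/-- (6.3) -/
theorem gen_bound [IsAlgClosed κ] (hn : HN n) (hx : Gen x) [FiniteDimensional κ (H n x)] :
    finrank κ (H n x) ≤ NZ n ^ 2 := by
  rw [NZ_eq hn]
  have hf : Module.Finite κ (BMM.HA κ (BMM.PX (fun j => ((x j : κˣ) : κ)))) :=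
    inferInstanceAs (Module.Finite κ (H n x))
  exact BMM.gen_bound hn (fun j => ((x j : κˣ) : κ)) (fun _ => Units.ne_zero _)
    (gen1_of hn hx) (gen2_of hx)

end

end SYM
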