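import Pool.Agent.Lib.MP_b1ea0f_al.Defs4
import Pool.Agent.Lib.MP_b1ea0f_al.KFin
import Pool.Agent.Lib.MP_b1ea0f_al.WFlat
import Pool.Agent.Lib.MP_b1ea0f_al.BMap
import Pool.Agent.Lib.MP_b1ea0f_al.RHalf
import Pool.Agent.Lib.MP_b1ea0f_al.TIndep

/-!
# KUpper: upper bound N^2 at every point

Paper 7.1. WLOG `κ` algebraically closed (`finrank_map_field`). `y_l := C (x_l) (1 + X)^{N_l}`, `N_l` distinct powers of 100 (an enumeration of `J n`). `flat_bound`, then pass to the algebraic closure `Om` of `LaurentSeries κ` and `gen_bound`. `Gen`: `mon y v = C(mon x v) (1+X)^{∑ N_l v_l}`; `(1+X)^M` with `M ≠ 0` is not a constant (any characteristic: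
write `M = p^a m'`); for `v = dg β • α - dg α • β`, `|v_l| ≤ 36`, `∑ N_l v_l = 0` implies `v = 0`, then `α = β` (`Rc_prop`). (G2) similar.
-/

namespace SYM
open Polynomial Module

private lemma base100 (m : ℕ) (w : Fin m → ℤ) (hw : ∀ i, |w i| ≤ 36)
    (h : ∑ i : Fin m, (100 : ℤ) ^ (i : ℕ) * w i = 0) : w = 0 := by
  induction m with
  | zero => funext i; exact i.elim0
  | succ m ih =>
    rw [Fin.sum_univ_succ] at h
    simp only [Fin.val_zero, pow_zero, one_mul, Fin.val_succ, pow_succ] at h
    have h1 : ∑ i : Fin m, (100 : ℤ) ^ (i : ℕ) * 100 * w i.succ =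
        100 * ∑ i : Fin m, (100 : ℤ) ^ (i : ℕ) * w i.succ := by
      rw [Finset.mul_sum]
      apply Finset.sum_congr rfl
      intro i _
      ring
    rw [h1] at h
    have h2 := abs_le.mp (hw 0)
    have h3 : w 0 = 0 := by omega
    have h4 : ∑ i : Fin m, (100 : ℤ) ^ (i : ℕ) * w i.succ = 0 := by omega
    have h5 := ih (fun i => w i.succ) (fun i => hw _) h4
    funext i
    refine Fin.cases h3 (fun j => ?_) i
    exact congrFun h5 j

section
variable {κ : Type} [Field κ]

/-- the unit `1 + X` -/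
private noncomputable def uu (κ : Type) [Field κ] : (PowerSeries κ)ˣ where
  val := 1 + PowerSeries.X
  inv := (1 + PowerSeries.X)⁻¹
  val_inv := PowerSeries.mul_inv_cancel _ (by simp)
  inv_val := PowerSeries.inv_mul_cancel _ (by simp)

private lemma uu_val : ((uu κ : (PowerSeries κ)ˣ) : PowerSeries κ) =
    ((Polynomial.X + Polynomial.C 1 : κ[X]) : PowerSeries κ) := by
  simp [uu, add_comm]

private lemma uu_cc : Units.map ((PowerSeries.constantCoeff (R := κ)) : PowerSeries κ →* κ)
    (uu κ) = 1 := by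
  ext
  simp [uu]

private lemma uu_pow_val (c : κˣ) (m : ℕ) :
    ((Units.map ((PowerSeries.C : κ →+* PowerSeries κ) : κ →* PowerSeries κ) c * uu κ ^ m :
      (PowerSeries κ)ˣ) : PowerSeries κ) =
    ((Polynomial.C (c : κ) * (Polynomial.X + Polynomial.C 1) ^ m : κ[X]) : PowerSeries κ) := by
  rw [Units.val_mul, Units.val_pow_eq_pow_val, uu_val, Polynomial.coe_mul, Polynomial.coe_pow]
  simp

private lemma natDegree_aux (c : κˣ) (m : ℕ) :
    (Polynomial.C (c : κ) * (Polynomial.X + Polynomial.C 1) ^ m : κ[X]).natDegree = m := by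
  rw [Polynomial.natDegree_C_mul c.ne_zero, Polynomial.natDegree_pow,
    Polynomial.natDegree_X_add_C, mul_one]

private lemma uu_inj (c c' : κˣ) (m m' : ℕ)
    (h : Units.map ((PowerSeries.C : κ →+* PowerSeries κ) : κ →* PowerSeries κ) c * uu κ ^ m =
      Units.map ((PowerSeries.C : κ →+* PowerSeries κ) : κ →* PowerSeries κ) c' * uu κ ^ m') :
    m = m' := by
  have h1 := congrArg (fun u : (PowerSeries κ)ˣ => (u : PowerSeries κ)) h
  simp only [uu_pow_val] at h1
  have h2 := Polynomial.coe_injective κ h1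
  have h3 := congrArg Polynomial.natDegree h2
  rwa [natDegree_aux, natDegree_aux] at h3

private lemma uu_zpow (M : ℤ) (h : uu κ ^ M = 1) : M = 0 := by
  have h1 : uu κ ^ M.natAbs = 1 := by
    rcases Int.natAbs_eq M with h2 | h2
    · rw [h2, zpow_natCast] at h
      exact h
    · rw [h2, zpow_neg, zpow_natCast, inv_eq_one] at h
      exact h
  have h2 := uu_inj (κ := κ) 1 1 M.natAbs 0 (by simp [h1])
  omega

variable {n : ℕ}

/-- exponents -/
private noncomputable def ex (l : J n) : ℕ := 100 ^ ((Fintype.equivFin (J n) l : Fin _) : ℕ)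

private lemma ex_inj {l l' : J n} (h : ex l = ex l') : l = l' := by
  have h1 := Nat.pow_right_injective (le_refl 2 |>.trans (by norm_num : 2 ≤ 100)) h
  exact (Fintype.equivFin (J n)).injective (Fin.ext h1)

private lemma ex_sum (v : Vec n) (hv : ∀ l, |v l| ≤ 36) (h : ∑ l, (ex l : ℤ) * v l = 0) :
    v = 0 := by
  have h1 := base100 _ (fun i => v ((Fintype.equivFin (J n)).symm i)) (fun i => hv _) (by
    rw [← h, ← Equiv.sum_comp (Fintype.equivFin (J n)).symm]
    apply Finset.sum_congr rfl
    intro i _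
    simp [ex])
  funext l
  have := congrFun h1 (Fintype.equivFin (J n) l)
  simpa using this

/-- the curve -/
private noncomputable def yy (x : J n → κˣ) (l : J n) : (PowerSeries κ)ˣ :=
  Units.map ((PowerSeries.C : κ →+* PowerSeries κ) : κ →* PowerSeries κ) (x l) * uu κ ^ ex l

private lemma yy_cc (x : J n → κˣ) : mapx (PowerSeries.constantCoeff (R := κ)) (yy x) = x := by
  funext l
  have h1 : mapx (PowerSeries.constantCoeff (R := κ)) (yy x) l =
      Units.map ((PowerSeries.constantCoeff (R := κ)) : PowerSeries κ →* κ)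
        (Units.map ((PowerSeries.C : κ →+* PowerSeries κ) : κ →* PowerSeries κ) (x l)) *
      (Units.map ((PowerSeries.constantCoeff (R := κ)) : PowerSeries κ →* κ) (uu κ)) ^ ex l := by
    simp only [mapx, yy, map_mul, map_pow]
  rw [h1, uu_cc, one_pow, mul_one]
  ext
  simp

private lemma prod_zpow_sum {ι G : Type*} [CommGroup G] (a : G) (s : Finset ι) (f : ι → ℤ) :
    ∏ i ∈ s, a ^ f i = a ^ ∑ i ∈ s, f i := by
  classical
  induction s using Finset.induction_on with
  | empty => simp
  | insert i s hi ih => rw [Finset.prod_insert hi, Finset.sum_insert hi, ih, zpow_add]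

private lemma mon_yy (x : J n → κˣ) (v : Vec n) : mon (yy x) v =
    Units.map ((PowerSeries.C : κ →+* PowerSeries κ) : κ →* PowerSeries κ) (mon x v) *
      uu κ ^ (∑ l, (ex l : ℤ) * v l) := by
  simp only [mon, yy, mul_zpow, Finset.prod_mul_distrib, map_prod, map_zpow]
  congr 1
  rw [← prod_zpow_sum]
  apply Finset.prod_congr rfl
  intro l _
  rw [← zpow_natCast, ← zpow_mul]

private lemma gen_yy (hn : HN n) (x : J n → κˣ) {Om : Type} [Field Om] (F : PowerSeries κ →+* Om)
    (hF : Function.Injective F) : Gen (mapx F (yy x)) := by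
  have hU : Function.Injective (Units.map (F : PowerSeries κ →* Om)) :=
    Units.map_injective hF
  constructor
  · intro α hα β hβ h
    rw [mon_mapx, mon_mapx, ← map_pow, ← map_pow] at h
    have h1 := hU h
    set v : Vec n := (dg β : ℤ) • α - (dg α : ℤ) • β with hv
    have h2 : mon (yy x) v = 1 := by
      rw [hv, sub_eq_add_neg, mon_add, mon_neg, mon_smul, mon_smul, zpow_natCast, zpow_natCast,
        h1, mul_inv_cancel]
    have h3 : mon x v = 1 := by
      have := mon_mapx (PowerSeries.constantCoeff (R := κ)) (yy x) v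
      rw [yy_cc, h2, map_one] at this
      exact this
    rw [mon_yy, h3, map_one, one_mul] at h2
    have h4 := uu_zpow _ h2
    obtain ⟨ha1, ha2, ha3, -⟩ := dg_bounds hn hα
    obtain ⟨hb1, hb2, hb3, -⟩ := dg_bounds hn hβ
    have h5 := ex_sum v (fun l => by
      have hα0 := Rc_nonneg hα l
      have hβ0 := Rc_nonneg hβ l
      have e1 : v l = (dg β : ℤ) * α l - (dg α : ℤ) * β l := by
        rw [hv]; simp
      have e2 : (0 : ℤ) ≤ dg α := by positivity
      have e3 : (0 : ℤ) ≤ dg β := by positivity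
      have e4 : (dg α : ℤ) ≤ 6 := by exact_mod_cast ha3
      have e5 : (dg β : ℤ) ≤ 6 := by exact_mod_cast hb3
      rw [e1, abs_le]
      constructor <;> nlinarith [mul_nonneg e3 hα0.1, mul_nonneg e2 hβ0.1,
        mul_le_mul e5 hα0.2 hα0.1 (by norm_num : (0 : ℤ) ≤ 6),
        mul_le_mul e4 hβ0.2 hβ0.1 (by norm_num : (0 : ℤ) ≤ 6)]) h4
    have hα' := (mem_Rc hn).1 hα
    have hβ' := (mem_Rc hn).1 hβ
    rcases Rc_prop hn hα hβ'.1 (by
      rw [← ha1, ← hb1]
      exact sub_eq_zero.mp h5) with h6 | h6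
    · exact h6.symm
    · exfalso
      have h7 : deg β = - deg α := by rw [h6, deg_neg']
      have h8 := hα'.2
      have h9 := hβ'.2
      omega
  · intro g j j' h
    have h1 := hU h
    have h2 := ex_inj (uu_inj _ _ _ _ h1)
    simpa using h2

end

private lemma upper_alg (n : ℕ) (hn : HN n) {κ : Type} [Field κ] [IsAlgClosed κ] (x : J n → κˣ) :
    finrank κ (H n x) ≤ NZ n ^ 2 := by
  haveI := finite_field n hn x
  haveI : Module.Finite (PowerSeries κ) (H n (yy x)) := finite_H n hn (yy x)
  refine le_trans (flat_bound (yy x) (yy_cc x)) ?_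
  rw [← finrank_map_field (algebraMap (LaurentSeries κ) (AlgebraicClosure (LaurentSeries κ)))]
  haveI := finite_field n hn (mapx (algebraMap (LaurentSeries κ)
    (AlgebraicClosure (LaurentSeries κ))) (mapx (algebraMap (PowerSeries κ) (LaurentSeries κ))
      (yy x)))
  apply gen_bound hn
  exact gen_yy hn x ((algebraMap (LaurentSeries κ) (AlgebraicClosure (LaurentSeries κ))).comp
    (algebraMap (PowerSeries κ) (LaurentSeries κ)))
    ((algebraMap (LaurentSeries κ) (AlgebraicClosure (LaurentSeries κ))).injective.comp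
      (IsFractionRing.injective (PowerSeries κ) (LaurentSeries κ)))

theorem upper_bound (n : ℕ) (hn : HN n) {κ : Type} [Field κ] (x : J n → κˣ) :
    finrank κ (H n x) ≤ NZ n ^ 2 := by
  rw [← finrank_map_field (algebraMap κ (AlgebraicClosure κ))]
  exact upper_alg n hn _

end SYM
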