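import Pool.Agent.Lib.MP_b1ea0f_al.Defs4
import Pool.Agent.Lib.MP_b1ea0f_al.KFin
import Pool.Agent.Lib.MP_b1ea0f_al.KUpper
import Pool.Agent.Lib.MP_b1ea0f_al.KGroup
import Pool.Agent.Lib.MP_b1ea0f_al.KAlg
import Pool.Agent.Lib.MP_b1ea0f_al.WFlat
import Pool.Agent.Lib.MP_b1ea0f_al.BMap
import Pool.Agent.Lib.MP_b1ea0f_al.KLaur

/-!
# KRank: generic rank N^2, order of the star group

Paper 7.3. `κ0` := algebraic closure of `FractionRing (MvPolynomial (J n) ℂ)`; `ζ` the group point in `κ0`; `φ0 : RR n → κ0⟦X⟧`, `x_l ↦ C ζ_l + X · C (X_l)`, injective (`X = 1`). `flat_bound` at `ζ`: `N² ≤ |GG n| = finrank H(κ0,ζ) ≤ finrank H(κ0((X)), φ0) ≤ N²` (`upper_bound`). For any field `κ` with an injective `f : RR n → κ`: both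
`κ` and `κ0((X))` contain `Frac(RR n)`: `finrank_map_field`.
-/

namespace SYM
open Polynomial Module

private theorem krank_NZ_ne {n : ℕ} : NZ n ≠ 0 := by
  unfold NZ
  split_ifs <;> norm_num

/-- the group point -/
private def kpt {κ : Type} [Field κ] (n : ℕ) (ξ : κˣ) : J n → κˣ :=
  fun l => ξ ^ (NZ n / leg n l.1 * ((l.2 : ℕ) + 1))

private theorem kpt_isGroupPoint {κ : Type} [Field κ] {n : ℕ} {ξ : κˣ}
    (h : IsPrimitiveRoot ξ (NZ n)) : IsGroupPoint ξ (kpt n ξ) :=
  ⟨h, fun _ => rfl⟩

private theorem krank_root (n : ℕ) : ∃ ξ : ℂˣ, IsPrimitiveRoot ξ (NZ n) := by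
  have h := Complex.isPrimitiveRoot_exp (NZ n) krank_NZ_ne
  refine ⟨Units.mk0 (Complex.exp (2 * (Real.pi : ℂ) * Complex.I / (NZ n : ℂ)))
    (Complex.exp_ne_zero _), ?_⟩
  rw [← IsPrimitiveRoot.coe_units_iff]
  exact h

private theorem krank_group_finite {n : ℕ} (hn : HN n) : Finite (GG n) := by
  obtain ⟨ξ, hξ⟩ := krank_root n
  obtain ⟨e, -⟩ := group_alg hn ξ (kpt n ξ) (kpt_isGroupPoint hξ)
  have h1 : FiniteDimensional ℂ (H n (kpt n ξ)) := finite_field n hn _
  have h2 : Module.Finite ℂ (MonoidAlgebra ℂ (GG n)) := Module.Finite.equiv e.toLinearEquiv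
  exact Module.Finite.finite_basis (MonoidAlgebra.basis (GG n) ℂ)

private theorem krank_finrank {n : ℕ} (hn : HN n) {κ : Type} [Field κ] {ξ : κˣ}
    (h : IsPrimitiveRoot ξ (NZ n)) : finrank κ (H n (kpt n ξ)) = Nat.card (GG n) := by
  obtain ⟨e, -⟩ := group_alg hn ξ (kpt n ξ) (kpt_isGroupPoint h)
  rw [e.toLinearEquiv.finrank_eq]
  exact Module.finrank_eq_nat_card_basis (MonoidAlgebra.basis (GG n) κ)

theorem card_GG (n : ℕ) (hn : HN n) : Nat.card (GG n) = NZ n ^ 2 := by
  have hf := krank_group_finite hn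
  refine le_antisymm ?_ ?_
  · obtain ⟨ξ, hξ⟩ := krank_root n
    rw [← krank_finrank hn hξ]
    exact upper_bound n hn _
  · obtain ⟨f, hf'⟩ := group_lower n hn
    have := Nat.card_le_card_of_injective f hf'
    simpa using this

/-! ### the injective path -/

private theorem krank_shift_inj {σ : Type} (c : σ → ℂ) : Function.Injective
    (MvPolynomial.eval₂Hom (Int.castRingHom (MvPolynomial σ ℂ))
      (fun l : σ => MvPolynomial.C (c l) + MvPolynomial.X l) : MvPolynomial σ ℤ →+* MvPolynomial σ ℂ) := by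
  have h1 : (MvPolynomial.eval₂Hom (Int.castRingHom (MvPolynomial σ ℂ))
      (fun l : σ => MvPolynomial.C (c l) + MvPolynomial.X l) : MvPolynomial σ ℤ →+* MvPolynomial σ ℂ) =
      ((MvPolynomial.aeval (R := ℂ) (fun l : σ => MvPolynomial.C (c l) + MvPolynomial.X l :
        σ → MvPolynomial σ ℂ)).toRingHom).comp (MvPolynomial.map (Int.castRingHom ℂ)) := by
    apply MvPolynomial.ringHom_ext
    · intro r
      simp
    · intro l
      simp
  rw [h1]
  have h2 : Function.LeftInverse
      (MvPolynomial.aeval (R := ℂ) (fun l : σ => MvPolynomial.X l - MvPolynomial.C (c l) :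
        σ → MvPolynomial σ ℂ))
      (MvPolynomial.aeval (R := ℂ) (fun l : σ => MvPolynomial.C (c l) + MvPolynomial.X l :
        σ → MvPolynomial σ ℂ)) := by
    intro p
    rw [← AlgHom.comp_apply]
    have : (MvPolynomial.aeval (R := ℂ) (fun l : σ => MvPolynomial.X l - MvPolynomial.C (c l) :
        σ → MvPolynomial σ ℂ)).comp
      (MvPolynomial.aeval (R := ℂ) (fun l : σ => MvPolynomial.C (c l) + MvPolynomial.X l :
        σ → MvPolynomial σ ℂ)) = AlgHom.id ℂ _ := by
      apply MvPolynomial.algHom_ext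
      intro l
      simp [← MvPolynomial.algebraMap_eq]
    rw [this]
    rfl
  exact h2.injective.comp (MvPolynomial.map_injective _ Int.cast_injective)

private theorem krank_path {σ : Type} [Fintype σ] {κ : Type} [Field κ]
    (g : MvPolynomial σ ℂ →+* κ) (hg : Function.Injective g) (c : σ → ℂˣ) :
    ∃ y : σ → (PowerSeries κ)ˣ,
      (∀ l, PowerSeries.constantCoeff (R := κ) (y l : PowerSeries κ) = g (MvPolynomial.C (c l : ℂ))) ∧
      Function.Injective (Laurent.lift y) := by
  have hu : ∀ l, IsUnit (PowerSeries.C (g (MvPolynomial.C (c l : ℂ))) +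
      PowerSeries.X * PowerSeries.C (g (MvPolynomial.X l)) : PowerSeries κ) := by
    intro l
    rw [PowerSeries.isUnit_iff_constantCoeff]
    simp only [map_add, map_mul, PowerSeries.constantCoeff_C, PowerSeries.constantCoeff_X,
      zero_mul, add_zero]
    exact (((c l).isUnit.map (MvPolynomial.C : ℂ →+* MvPolynomial σ ℂ)).map g)
  choose y hy using hu
  refine ⟨y, fun l => ?_, ?_⟩
  · rw [hy]
    simp
  · rw [injective_iff_map_eq_zero]
    intro f hf
    obtain ⟨p, m, hp⟩ := exists_poly f
    have h1 : Laurent.lift y (polyMap σ p) = 0 := by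
      rw [← hp, map_mul, hf, zero_mul]
    -- the polynomial version
    have h2 : (Laurent.lift y).comp (polyMap σ) =
        (Polynomial.coeToPowerSeries.ringHom (R := κ)).comp
          (MvPolynomial.eval₂Hom (Int.castRingHom κ[X])
            (fun l : σ => (C (g (MvPolynomial.C (c l : ℂ))) + X * C (g (MvPolynomial.X l)) : κ[X]))) := by
      apply MvPolynomial.ringHom_ext
      · intro r
        simp
      · intro l
        have h3 : (Laurent.lift y) (polyMap σ (MvPolynomial.X l)) = (y l : PowerSeries κ) := by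
          rw [polyMap, MvPolynomial.eval₂Hom_X', Laurent.lift_var]
        rw [RingHom.comp_apply, h3, hy, RingHom.comp_apply, MvPolynomial.eval₂Hom_X']
        simp [Polynomial.coeToPowerSeries.ringHom_apply]
        exact mul_comm _ _
    have h3 : Polynomial.coeToPowerSeries.ringHom (R := κ)
        (MvPolynomial.eval₂Hom (Int.castRingHom κ[X])
            (fun l : σ => (C (g (MvPolynomial.C (c l : ℂ))) + X * C (g (MvPolynomial.X l)) : κ[X])) p) = 0 := by
      rw [← RingHom.comp_apply, ← h2]
      exact h1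
    have h4 : MvPolynomial.eval₂Hom (Int.castRingHom κ[X])
            (fun l : σ => (C (g (MvPolynomial.C (c l : ℂ))) + X * C (g (MvPolynomial.X l)) : κ[X])) p = 0 := by
      rw [Polynomial.coeToPowerSeries.ringHom_apply] at h3
      exact Polynomial.coe_eq_zero_iff.1 h3
    have h5 : (Polynomial.evalRingHom (1 : κ)).comp (MvPolynomial.eval₂Hom (Int.castRingHom κ[X])
            (fun l : σ => (C (g (MvPolynomial.C (c l : ℂ))) + X * C (g (MvPolynomial.X l)) : κ[X]))) =
        g.comp (MvPolynomial.eval₂Hom (Int.castRingHom (MvPolynomial σ ℂ))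
          (fun l : σ => MvPolynomial.C (c l : ℂ) + MvPolynomial.X l)) := by
      apply MvPolynomial.ringHom_ext
      · intro r
        simp
      · intro l
        simp
    have h6 : g (MvPolynomial.eval₂Hom (Int.castRingHom (MvPolynomial σ ℂ))
          (fun l : σ => MvPolynomial.C (c l : ℂ) + MvPolynomial.X l) p) = 0 := by
      rw [← RingHom.comp_apply, ← h5, RingHom.comp_apply, h4, map_zero]
    have h7 : p = 0 := by
      apply krank_shift_inj (fun l => (c l : ℂ))
      rw [map_zero]
      apply hg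
      rw [h6, map_zero]
    rw [h7, map_zero] at hp
    have h8 : IsUnit ((∏ i, ((Laurent.var i : (Laurent σ)ˣ) : Laurent σ)) ^ m) := by
      apply IsUnit.pow
      rw [← Units.coe_prod]
      exact Units.isUnit _
    exact (h8.mul_left_eq_zero).1 hp

private theorem mapx_comp' {n : ℕ} {k k' k'' : Type*} [CommRing k] [CommRing k'] [CommRing k'']
    (f : k →+* k') (g : k' →+* k'') (x : J n → kˣ) :
    mapx g (mapx f x) = mapx (g.comp f) x := by
  funext l
  apply Units.ext
  simp [mapx]

private theorem krank_lower {n : ℕ} (hn : HN n) {κ : Type} [Field κ] [IsAlgClosed κ]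
    (g : MvPolynomial (J n) ℂ →+* κ) (hg : Function.Injective g) :
    ∃ φ : RR n →+* LaurentSeries κ, Function.Injective φ ∧
      NZ n ^ 2 ≤ finrank (LaurentSeries κ) (H n (mapx φ (XX n))) := by
  obtain ⟨ξ, hξ⟩ := krank_root n
  obtain ⟨y, hy0, hyi⟩ := krank_path g hg (kpt n ξ)
  set ξ' : κˣ := Units.map ((g.comp MvPolynomial.C : ℂ →+* κ) : ℂ →* κ) ξ with hξ'
  have hprim : IsPrimitiveRoot ξ' (NZ n) := by
    refine hξ.map_of_injective (f := Units.map ((g.comp MvPolynomial.C : ℂ →+* κ) : ℂ →* κ)) ?_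
    exact Units.map_injective ((g.comp MvPolynomial.C : ℂ →+* κ).injective)
  have hyx : mapx (PowerSeries.constantCoeff (R := κ)) y = kpt n ξ' := by
    funext l
    apply Units.ext
    have : ((mapx (PowerSeries.constantCoeff (R := κ)) y l : κˣ) : κ) =
        PowerSeries.constantCoeff (R := κ) (y l : PowerSeries κ) := rfl
    rw [this, hy0]
    simp [kpt, hξ']
  have hfin : FiniteDimensional κ (H n (kpt n ξ')) := finite_field n hn _
  have hfin2 : Module.Finite (PowerSeries κ) (H n y) := finite_H n hn y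
  have hb := flat_bound (x := kpt n ξ') y hyx
  rw [krank_finrank hn hprim, card_GG n hn] at hb
  refine ⟨(algebraMap (PowerSeries κ) (LaurentSeries κ)).comp (Laurent.lift y),
    (FaithfulSMul.algebraMap_injective _ _).comp hyi, ?_⟩
  have hxx : mapx (Laurent.lift y) (XX n) = y := by
    funext l
    apply Units.ext
    exact Laurent.lift_var y l
  rw [← mapx_comp', hxx]
  exact hb

private theorem krank_exists (σ : Type) : ∃ (κ : Type) (_ : Field κ) (_ : IsAlgClosed κ)
    (g : MvPolynomial σ ℂ →+* κ), Function.Injective g := by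
  refine ⟨AlgebraicClosure (FractionRing (MvPolynomial σ ℂ)), inferInstance, inferInstance,
    (algebraMap (FractionRing (MvPolynomial σ ℂ))
      (AlgebraicClosure (FractionRing (MvPolynomial σ ℂ)))).comp
      (algebraMap (MvPolynomial σ ℂ) (FractionRing (MvPolynomial σ ℂ))), ?_⟩
  exact (algebraMap (FractionRing (MvPolynomial σ ℂ))
      (AlgebraicClosure (FractionRing (MvPolynomial σ ℂ)))).injective.comp
    (IsFractionRing.injective (MvPolynomial σ ℂ) (FractionRing (MvPolynomial σ ℂ)))

theorem generic_rank (n : ℕ) (hn : HN n) {κ : Type} [Field κ] (f : RR n →+* κ)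
    (hf : Function.Injective f) : finrank κ (H n (mapx f (XX n))) = NZ n ^ 2 := by
  refine le_antisymm (upper_bound n hn _) ?_
  obtain ⟨κ0, _, _, g, hg⟩ := krank_exists (J n)
  obtain ⟨φ, hφ, hle⟩ := krank_lower hn g hg
  have h1 : mapx f (XX n) = mapx (IsFractionRing.lift (A := RR n) (K := FractionRing (RR n)) hf)
      (mapx (algebraMap (RR n) (FractionRing (RR n))) (XX n)) := by
    rw [mapx_comp']
    congr 1
    exact RingHom.ext fun r => by simp
  have h2 : mapx φ (XX n) = mapx (IsFractionRing.lift (A := RR n) (K := FractionRing (RR n)) hφ)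
      (mapx (algebraMap (RR n) (FractionRing (RR n))) (XX n)) := by
    rw [mapx_comp']
    congr 1
    exact RingHom.ext fun r => by simp
  rw [h1, finrank_map_field]
  rw [h2, finrank_map_field] at hle
  exact hle

end SYM
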