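import Pool.Agent.Lib.MP_b1ea0f_al.Defs4
import Pool.Agent.Lib.MP_b1ea0f_al.KRank
import Pool.Agent.Lib.MP_b1ea0f_al.KUpper
import Pool.Agent.Lib.MP_b1ea0f_al.KProjR
import Pool.Agent.Lib.MP_b1ea0f_al.KLaur
import Pool.Agent.Lib.MP_b1ea0f_al.SFin
import Pool.Agent.Lib.MP_b1ea0f_al.BMap

/-!
# KAll: rank N^2 everywhere, H is projective

`finrank_all`: upper bound `upper_bound`; lower bound `rank_le_residue` for `M = H n (XX n)` over `RR n` and `RR n → κ`, `Laurent.lift x` (`mapx (Laurent.lift x) (XX n) = x`), `bc_equiv`, `generic_rank`. `projective_H`: `projective_of_rank`.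
-/

namespace SYM
open Polynomial Module

theorem mapx_lift {n : ℕ} {k : Type*} [CommRing k] (x : J n → kˣ) :
    mapx (Laurent.lift x) (XX n) = x := by
  funext l
  ext
  simp [mapx, XX]

private lemma finrank_bc {n : ℕ} {k k' : Type} [CommRing k] [CommRing k'] [Algebra k k']
    (x : J n → kˣ) : finrank k' (TensorProduct k k' (H n x)) =
      finrank k' (H n (mapx (algebraMap k k') x)) := by
  obtain ⟨e, _⟩ := bc_equiv (k := k) (k' := k') n x
  exact e.toLinearEquiv.finrank_eq

private lemma finrank_frac (n : ℕ) (hn : HN n) :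
    finrank (FractionRing (RR n)) (TensorProduct (RR n) (FractionRing (RR n)) (H n (XX n))) =
      NZ n ^ 2 := by
  rw [finrank_bc]
  exact generic_rank n hn _ (IsFractionRing.injective (RR n) (FractionRing (RR n)))

theorem finrank_all (n : ℕ) (hn : HN n) {κ : Type} [Field κ] (x : J n → κˣ) :
    finrank κ (H n x) = NZ n ^ 2 := by
  apply le_antisymm (upper_bound n hn x)
  letI : Algebra (RR n) κ := (Laurent.lift x).toAlgebra
  haveI : Module.Finite (RR n) (H n (XX n)) := finite_H n hn (XX n)
  have h1 := rank_le_residue (A := RR n) (M := H n (XX n)) κ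
  rw [finrank_frac n hn, finrank_bc] at h1
  have h2 : mapx (algebraMap (RR n) κ) (XX n) = x := mapx_lift x
  rw [h2] at h1
  exact h1

theorem projective_H (n : ℕ) (hn : HN n) : Module.Projective (RR n) (H n (XX n)) := by
  haveI : Module.Finite (RR n) (H n (XX n)) := finite_H n hn (XX n)
  apply projective_of_rank (A := RR n) (M := H n (XX n)) (NZ n ^ 2) (finrank_frac n hn)
  intro κ _ _
  rw [finrank_bc]
  exact upper_bound n hn _

end SYM
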