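import Pool.Agent.Lib.MP_b1ea0f_al.RQch
import Pool.Agent.Lib.MP_b1ea0f_al.DefsL
import Pool.Agent.Lib.BMM.Scott

/-!
# MP_b1ea0f_al: translation of the linear algebra part (sections 3.1 - 3.4)
-/

namespace SYM
open Polynomial Module

section
variable {κ : Type*} [Field κ] {V W : Type*} [AddCommGroup V] [Module κ V]
  [AddCommGroup W] [Module κ W] {n : ℕ} {x : J n → κˣ}
  {a : Fin 3 → Module.End κ V} {b : Fin 3 → Module.End κ W}

theorem Lm_eq : Lm a b = BMM.LL a b := rfl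

theorem mem_cm {f : Module.End κ V} {f' : Module.End κ W} {s : V →ₗ[κ] W} :
    s ∈ cm f f' ↔ s ∘ₗ f = f' ∘ₗ s := Iff.rfl

theorem cm_eq_ker (f : Module.End κ V) (f' : Module.End κ W) :
    cm f f' = LinearMap.ker (BMM.ad f f') := by
  ext s
  rw [mem_cm, LinearMap.mem_ker, BMM.ad_apply, sub_eq_zero]

theorem homs_eq : homs a b = BMM.Hom3 a b := by
  simp only [homs, BMM.Hom3, cm_eq_ker]

theorem Isp_eq (f : Module.End κ V) (f' : Module.End κ W) :
    Isp f f' = LinearMap.range (BMM.ad f f') := rfl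

theorem coeff_P_ne (x : J n → κˣ) (g : Fin 3) : (P n x g).coeff 0 ≠ 0 := by
  rw [P, Polynomial.coeff_zero_eq_eval_zero, Polynomial.eval_prod]
  refine Finset.prod_ne_zero_iff.2 fun j _ => ?_
  simp

theorem IsStar.isCyc (ha : IsStar n x a) : BMM.IsCyc a where
  unit g := BMM.isUnit_of_aeval (A := κ) (Q := P n x g) (coeff_P_ne x g).isUnit (ha.poly g)
  cyc₁ := ha.cyc1
  cyc₂ := ha.cyc2

theorem dv_nonneg [FiniteDimensional κ V] (l : J n) : 0 ≤ dv x a l :=
  BMM.mult_nonneg _ _ _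

theorem dv_isQ [FiniteDimensional κ V] (ha : IsStar n x a) : IsQ (dv x a) :=
  (BMM.lev_dimv (fun j => ((x j : κˣ) : κ)) a ha.poly).1

theorem deg_dv [FiniteDimensional κ V] (ha : IsStar n x a) : deg (dv x a) = finrank κ V :=
  (BMM.lev_dimv (fun j => ((x j : κˣ) : κ)) a ha.poly).2

theorem dv_sum [FiniteDimensional κ V] (_hn : HN n) (ha : IsStar n x a) (g : Fin 3) :
    ∑ j, dv x a ⟨g, j⟩ = (finrank κ V : ℤ) := by
  rw [← deg_dv ha]
  exact dv_isQ ha g

theorem mon_dv [FiniteDimensional κ V] (_hn : HN n) (ha : IsStar n x a) (z0 : κˣ)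
    (hz : a 0 * a 1 * a 2 = (z0 : κ) • 1) : mon x (dv x a) = z0 ^ finrank κ V := by
  have hdet : ∀ g, LinearMap.det (a g) = ∏ j : Fin (leg n g), ((x ⟨g, j⟩ : κˣ) : κ) ^ (dv x a ⟨g, j⟩) := by
    intro g
    exact BMM.det_eq (a g) (fun j => ((x ⟨g, j⟩ : κˣ) : κ)) (fun _ => Units.ne_zero _)
      (ha.poly g)
  have h1 : LinearMap.det (a 0 * a 1 * a 2) = (z0 : κ) ^ finrank κ V := by
    rw [hz, LinearMap.det_smul, map_one, mul_one]
  rw [map_mul, map_mul, hdet, hdet, hdet] at h1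
  apply Units.ext
  rw [Units.val_pow_eq_pow_val, ← h1, coe_mon, BMM.mon, Fintype.prod_sigma, Fin.prod_univ_three]

theorem cm_eq [FiniteDimensional κ V] [FiniteDimensional κ W] (ha : IsStar n x a)
    (hb : IsStar n x b) (g : Fin 3) :
    ∑ j, dv x a ⟨g, j⟩ * dv x b ⟨g, j⟩ = (finrank κ (cm (a g) (b g)) : ℤ) := by
  rw [cm_eq_ker]
  exact (BMM.finrank_ker_ad (fun j => ((x ⟨g, j⟩ : κˣ) : κ)) (a g) (b g) (ha.poly g)
    (hb.poly g)).symm

theorem rank_L [FiniteDimensional κ V] [FiniteDimensional κ W] (ha : IsStar n x a)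
    (hb : IsStar n x b) (_hn : HN n) :
    finrank κ (Submodule.map (Lm a b) (Submodule.pi Set.univ fun g => Isp (a g) (b g))) +
      finrank κ (homs b a) = finrank κ (V →ₗ[κ] W) := by
  rw [homs_eq]
  exact BMM.rk_LL ha.isCyc hb.isCyc

theorem star_ineq [FiniteDimensional κ V] [FiniteDimensional κ W] (_hn : HN n)
    (ha : IsStar n x a) (hb : IsStar n x b) (z0 : κˣ)
    (hz : a 0 * a 1 * a 2 = (z0 : κ) • 1) (hz' : b 0 * b 1 * b 2 = (z0 : κ) • 1) :
    ip (dv x a) (dv x b) ≤ (finrank κ (homs a b) : ℤ) + finrank κ (homs b a) := by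
  rw [homs_eq, homs_eq]
  refine BMM.scott _ a b ha.isCyc hb.isCyc ha.poly hb.poly (z0 : κ) ?_ ?_
  · rw [BMM.zop, hz, Algebra.algebraMap_eq_smul_one]
  · rw [BMM.zop, hz', Algebra.algebraMap_eq_smul_one]

end

end SYM
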