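import Pool.Agent.Lib.MP_b1ea0f_al.Defs4
import Pool.Agent.Lib.MP_b1ea0f_al.WLin

/-!
# LDim: dimension vectors: degree as a natural number, invariance under isomorphism

`dg_dv`: `deg_dv` and `dg = toNat`. `dv_conj`: `BMM.mult_congr` (file BMM/Flag.lean).
-/

namespace SYM
open Polynomial Module

variable {κ : Type} [Field κ] {V W : Type} [AddCommGroup V] [Module κ V] [FiniteDimensional κ V]
  [AddCommGroup W] [Module κ W] [FiniteDimensional κ W] {n : ℕ} {x : J n → κˣ}
  {a : Fin 3 → Module.End κ V} {b : Fin 3 → Module.End κ W}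

theorem dg_dv (ha : IsStar n x a) : dg (dv x a) = finrank κ V := by
  unfold dg
  rw [deg_dv ha, Int.toNat_natCast]

/-- invariance under isomorphism -/
theorem dv_conj (e : V ≃ₗ[κ] W) (h : ∀ g v, b g (e v) = e (a g v)) : dv x b = dv x a := by
  funext l
  exact (BMM.mult_congr (a l.1) (b l.1) _ e (fun u => (h l.1 u).symm) l.2).symm

end SYM
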