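import Pool.Agent.Lib.MP_b1ea0f_al.Defs4
import Pool.Agent.Lib.MP_b1ea0f_al.LDim

/-!
# LChar: characteristic polynomial and trace of p(a) from the flag

Characteristic polynomial of `a g` from the flag. `BMM.det_eq`, `BMM.mult_eq` in BMM/Flag.lean. PROOF of charpoly_dv: apply `BMM.det_eq` over the
algebraic closure or over `RatFunc κ`; simplest: `fl (a g) ξ j = range ∏_{i<j} (a - x_i)` (BMM.fl) is a decreasing flag of `a`-invariant subspaces from `V` to `0` with `(a - x_j) V_j ⊆ V_{j+1}`;
induction on an invariant subspace: charpoly of `a` on `V` = charpoly on `V_1` times charpoly on `V / V_1` (find the Mathlib lemma, or choose an adapted basis: block triangular matrix,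
`Matrix.charpoly_fromBlocks_zero₂₁`), and on `V/V_1` `a` is the scalar `x_0`. State the induction for a general list of scalars (`BMM.mult`, `Fin.cons`).
trace_aeval: same induction (`LinearMap.trace` additive: `LinearMap.trace_eq_sum_trace_restrict` or block triangular), or from charpoly_dv over the splitting: the roots of the charpoly of `aeval a p`
are the `p(root)`.
-/

namespace SYM
open Polynomial Module


section aux

variable {K : Type*} [Field K] {X Y : Type*} [AddCommGroup X] [Module K X]
  [AddCommGroup Y] [Module K Y] {p : ℕ}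

/-- the product of the first `j` factors -/
private noncomputable def TT (g : Module.End K X) (ξ : Fin p → K) (j : ℕ) : Module.End K X :=
  (((List.ofFn ξ).take j).map (fun c => g - algebraMap K (Module.End K X) c)).prod

private theorem fl_eq (g : Module.End K X) (ξ : Fin p → K) (j : ℕ) :
    BMM.fl g ξ j = LinearMap.range (TT g ξ j) := rfl

private theorem TT_zero (g : Module.End K X) (ξ : Fin p → K) : TT g ξ 0 = 1 := by
  simp [TT]

private theorem TT_succ (g : Module.End K X) (ξ : Fin p → K) (j : Fin p) :
    TT g ξ (j + 1) = TT g ξ j * (g - algebraMap K (Module.End K X) (ξ j)) := by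
  have h : (List.ofFn ξ).take ((j : ℕ) + 1) = (List.ofFn ξ).take j ++ [ξ j] := by
    rw [List.take_add_one]
    congr 1
    rw [List.getElem?_eq_getElem (by simp)]
    simp
  unfold TT
  rw [h, List.map_append, List.prod_append]
  simp

private theorem TT_all (g : Module.End K X) (ξ : Fin p → K) :
    TT g ξ p = aeval g (∏ i, (Polynomial.X - C (ξ i))) := by
  unfold TT
  rw [List.take_of_length_le (by simp), ← List.prod_ofFn, map_list_prod]
  congr 1
  rw [List.map_ofFn, List.map_ofFn]
  congr 1
  funext i
  simp

private theorem fl_zero (g : Module.End K X) (ξ : Fin p → K) : BMM.fl g ξ 0 = ⊤ := by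
  rw [fl_eq, TT_zero]
  exact LinearMap.range_id

private theorem TT_commute (g : Module.End K X) (ξ : Fin p → K) (j : ℕ) (h : Module.End K X)
    (hh : Commute g h) : Commute (TT g ξ j) h := by
  unfold TT
  apply Commute.list_prod_left
  intro a ha
  obtain ⟨c, _, rfl⟩ := List.mem_map.1 ha
  exact hh.sub_left (Algebra.commute_algebraMap_left c h)

private theorem TT_cons (g : Module.End K X) (ξ : Fin (p + 1) → K) (j : ℕ) :
    TT g ξ (j + 1) = TT g (fun i => ξ i.succ) j * (g - algebraMap K (Module.End K X) (ξ 0)) := by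
  have hc : Commute (TT g (fun i => ξ i.succ) j) (g - algebraMap K (Module.End K X) (ξ 0)) :=
    TT_commute g _ j _ ((Commute.refl g).sub_right (Algebra.commute_algebraMap_right _ _))
  rw [hc.eq]
  unfold TT
  rw [List.ofFn_succ, List.take_succ_cons, List.map_cons, List.prod_cons]

private theorem restrict_TT (g : Module.End K X) (W : Submodule K X) (hW : W ≤ W.comap g)
    (ξ : Fin p → K) (j : ℕ) (w : W) :
    ((TT (g.restrict hW) ξ j w : W) : X) = TT g ξ j (w : X) := by
  unfold TT
  generalize (List.ofFn ξ).take j = L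
  induction L generalizing w with
  | nil => simp
  | cons c L ih =>
    rw [List.map_cons, List.map_cons, List.prod_cons, List.prod_cons, Module.End.mul_apply,
      Module.End.mul_apply, ← ih]
    simp [Module.algebraMap_end_apply]

/-- the invariant subspace `(g - ξ_0) X` -/
private theorem inv_range (g : Module.End K X) (c : K) :
    LinearMap.range (g - algebraMap K (Module.End K X) c)
      ≤ (LinearMap.range (g - algebraMap K (Module.End K X) c)).comap g := by
  rintro _ ⟨v, rfl⟩
  refine ⟨g v, ?_⟩
  simp [Module.algebraMap_end_apply]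

private theorem finrank_fl_restrict (g : Module.End K X) (ξ : Fin (p + 1) → K) (j : ℕ) :
    Module.finrank K (BMM.fl (g.restrict (inv_range g (ξ 0))) (fun i => ξ i.succ) j)
      = Module.finrank K (BMM.fl g ξ (j + 1)) := by
  set W := LinearMap.range (g - algebraMap K (Module.End K X) (ξ 0)) with hWdef
  have h : (BMM.fl (g.restrict (inv_range g (ξ 0))) (fun i => ξ i.succ) j).map W.subtype
      = BMM.fl g ξ (j + 1) := by
    ext x
    rw [fl_eq, fl_eq, TT_cons]
    constructor
    · rintro ⟨_, ⟨⟨w, v, hv⟩, rfl⟩, rfl⟩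
      refine ⟨v, ?_⟩
      rw [Submodule.subtype_apply, restrict_TT, Module.End.mul_apply, hv]
    · rintro ⟨v, rfl⟩
      refine ⟨TT (g.restrict (inv_range g (ξ 0))) (fun i => ξ i.succ) j
        ⟨(g - algebraMap K (Module.End K X) (ξ 0)) v, ⟨v, rfl⟩⟩, ⟨_, rfl⟩, ?_⟩
      rw [Submodule.subtype_apply, restrict_TT, Module.End.mul_apply]
  rw [← h]
  exact (LinearEquiv.finrank_eq (Submodule.equivMapOfInjective W.subtype
    (Submodule.injective_subtype W) _))

private theorem mult_restrict (g : Module.End K X) (ξ : Fin (p + 1) → K) (j : Fin p) :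
    BMM.mult (g.restrict (inv_range g (ξ 0))) (fun i => ξ i.succ) j = BMM.mult g ξ j.succ := by
  unfold BMM.mult
  rw [finrank_fl_restrict, finrank_fl_restrict]
  simp

private theorem TT_restrict_zero (g : Module.End K X) (ξ : Fin (p + 1) → K)
    (hg : TT g ξ (p + 1) = 0) :
    TT (g.restrict (inv_range g (ξ 0))) (fun i => ξ i.succ) p = 0 := by
  apply LinearMap.ext
  rintro ⟨_, v, rfl⟩
  apply Subtype.ext
  rw [restrict_TT]
  have h := LinearMap.congr_fun hg v
  rw [TT_cons, Module.End.mul_apply] at h
  rw [h]
  rfl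

private theorem mult_zero' [FiniteDimensional K X] (g : Module.End K X) (ξ : Fin (p + 1) → K) :
    BMM.mult g ξ 0 = (Module.finrank K
      (X ⧸ LinearMap.range (g - algebraMap K (Module.End K X) (ξ 0))) : ℤ) := by
  have e0 : BMM.fl g ξ ((0 : Fin (p + 1)) : ℕ) = ⊤ := fl_zero g ξ
  have e1 : BMM.fl g ξ (((0 : Fin (p + 1)) : ℕ) + 1)
      = LinearMap.range (g - algebraMap K (Module.End K X) (ξ 0)) := by
    rw [fl_eq, TT_succ]
    have : TT g ξ ((0 : Fin (p + 1)) : ℕ) = 1 := TT_zero g ξ
    rw [this, one_mul]
  unfold BMM.mult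
  rw [e0, e1, finrank_top, Submodule.finrank_quotient,
    Nat.cast_sub (Submodule.finrank_le _)]

open Module.Basis in
private theorem blk {m l : Type*} [Fintype m] [DecidableEq m] [Fintype l] [DecidableEq l]
    (W : Submodule K X) (e : X →ₗ[K] X) (he : W ≤ W.comap e) (bW : Basis m K W)
    (bQ : Basis l K (X ⧸ W)) :
    ∃ B : Matrix m l K, LinearMap.toMatrix (sumQuot bW bQ) (sumQuot bW bQ) e =
      Matrix.fromBlocks (LinearMap.toMatrix bW bW (e.restrict he)) B 0
        (LinearMap.toMatrix bQ bQ (W.mapQ W e he)) := by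
  refine ⟨Matrix.of fun i l ↦
    ((sumQuot bW bQ).repr (e ((sumQuot bW bQ) (Sum.inr l)))) (Sum.inl i), ?_⟩
  ext u v
  cases u with
  | inl i =>
    cases v with
    | inl k =>
      simp only [sumQuot_inl, Matrix.fromBlocks_apply₁₁, LinearMap.toMatrix_apply]
      apply sumQuot_repr_inl_of_mem
    | inr l => simp [LinearMap.toMatrix_apply, Matrix.fromBlocks_apply₁₂]
  | inr j =>
    cases v with
    | inl k =>
      suffices W.mkQ (e (bW k)) = 0 by simp [LinearMap.toMatrix_apply, this]
      rw [← LinearMap.mem_ker, Submodule.ker_mkQ]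
      exact he (Submodule.coe_mem (bW k))
    | inr l =>
      simp only [LinearMap.toMatrix_apply, sumQuot_repr_inr, Matrix.fromBlocks_apply₂₂]
      rw [← sumQuot_inr bW bQ l, W.mapQ_apply]
      simp

private theorem charpoly_split [FiniteDimensional K X] (W : Submodule K X) (e : X →ₗ[K] X)
    (he : W ≤ W.comap e) :
    e.charpoly = (e.restrict he).charpoly * (W.mapQ W e he).charpoly := by
  classical
  let bW := Module.Free.chooseBasis K W
  let bQ := Module.Free.chooseBasis K (X ⧸ W)
  obtain ⟨B, hB⟩ := blk W e he bW bQ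
  rw [← LinearMap.charpoly_toMatrix e (bW.sumQuot bQ), hB, Matrix.charpoly_fromBlocks_zero₂₁,
    LinearMap.charpoly_toMatrix, LinearMap.charpoly_toMatrix]

private theorem trace_split [FiniteDimensional K X] (W : Submodule K X) (e : X →ₗ[K] X)
    (he : W ≤ W.comap e) :
    LinearMap.trace K X e = LinearMap.trace K W (e.restrict he) +
      LinearMap.trace K (X ⧸ W) (W.mapQ W e he) := by
  classical
  let bW := Module.Free.chooseBasis K W
  let bQ := Module.Free.chooseBasis K (X ⧸ W)
  obtain ⟨B, hB⟩ := blk W e he bW bQ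
  rw [LinearMap.trace_eq_matrix_trace K (bW.sumQuot bQ), hB,
    LinearMap.trace_eq_matrix_trace K bW, LinearMap.trace_eq_matrix_trace K bQ, Matrix.trace,
    Matrix.trace, Matrix.trace, Fintype.sum_sum_type]
  simp [Matrix.diag]

private theorem mapQ_scalar (W : Submodule K X) (e : X →ₗ[K] X)
    (he : W ≤ W.comap e) (c : K) (h : ∀ y, e y - c • y ∈ W) : W.mapQ W e he = c • 1 := by
  apply LinearMap.ext
  intro x
  obtain ⟨y, rfl⟩ := Submodule.mkQ_surjective W x
  rw [Submodule.mkQ_apply, Submodule.mapQ_apply, LinearMap.smul_apply, Module.End.one_apply,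
    ← Submodule.Quotient.mk_smul, Submodule.Quotient.eq]
  exact h y

private theorem charpoly_scalar [FiniteDimensional K X] (c : K) :
    (c • 1 : Module.End K X).charpoly = (Polynomial.X - C c) ^ Module.finrank K X := by
  have h := LinearMap.charpoly_sub_smul (0 : Module.End K X) (-c)
  have h1 : (0 : Module.End K X) - (-c) • 1 = c • 1 := by
    rw [neg_smul, zero_sub, neg_neg]
  rw [h1] at h
  rw [h, LinearMap.charpoly_zero]
  simp [sub_eq_add_neg]

private theorem charpoly_aux {K : Type*} [Field K] : ∀ (p : ℕ) {V : Type*} [AddCommGroup V]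
    [Module K V] [FiniteDimensional K V] (g : Module.End K V) (ξ : Fin p → K)
    (_ : TT g ξ p = 0),
    g.charpoly = ∏ j, (Polynomial.X - C (ξ j)) ^ (BMM.mult g ξ j).toNat := by
  intro p
  induction p with
  | zero =>
    intro V _ _ _ g ξ hg
    rw [TT_zero] at hg
    have hs : Subsingleton V := by
      refine ⟨fun a b => ?_⟩
      have ha := LinearMap.congr_fun hg a
      have hb := LinearMap.congr_fun hg b
      simp only [Module.End.one_apply, LinearMap.zero_apply] at ha hb
      rw [ha, hb]
    have h0 : Module.finrank K V = 0 := Module.finrank_zero_of_subsingleton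
    have h1 := g.charpoly_natDegree
    rw [h0] at h1
    rw [Finset.univ_eq_empty, Finset.prod_empty]
    exact Polynomial.eq_one_of_monic_natDegree_zero g.charpoly_monic h1
  | succ p ih =>
    intro V _ _ _ g ξ hg
    have h1 := charpoly_split _ g (inv_range g (ξ 0))
    rw [mapQ_scalar _ g (inv_range g (ξ 0)) (ξ 0)
      (fun y => ⟨y, by simp [Module.algebraMap_end_apply]⟩), charpoly_scalar,
      ih (g.restrict (inv_range g (ξ 0))) (fun i => ξ i.succ) (TT_restrict_zero g ξ hg)] at h1
    rw [h1, Fin.prod_univ_succ, mul_comm, mult_zero', Int.toNat_natCast]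
    congr 1
    apply Finset.prod_congr rfl
    intro j _
    rw [mult_restrict]

private theorem aeval_restrict (g : Module.End K X) (W : Submodule K X) (hW : W ≤ W.comap g)
    (q : K[X]) (w : W) : ((aeval (g.restrict hW) q w : W) : X) = aeval g q (w : X) := by
  induction q using Polynomial.induction_on' generalizing w with
  | add a b ha hb => simp [ha, hb]
  | monomial n c =>
    rw [aeval_monomial, aeval_monomial, Module.End.mul_apply, Module.End.mul_apply,
      Module.algebraMap_end_apply, Module.algebraMap_end_apply, Submodule.coe_smul]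
    congr 1
    induction n generalizing w with
    | zero => simp
    | succ n ih => rw [pow_succ, pow_succ, Module.End.mul_apply, Module.End.mul_apply, ih]; rfl

private theorem trace_aux {K : Type*} [Field K] (q : K[X]) : ∀ (p : ℕ) {V : Type*}
    [AddCommGroup V] [Module K V] [FiniteDimensional K V] (g : Module.End K V) (ξ : Fin p → K)
    (_ : TT g ξ p = 0),
    LinearMap.trace K V (aeval g q) = ∑ j, ((BMM.mult g ξ j : ℤ) : K) * q.eval (ξ j) := by
  intro p
  induction p with
  | zero =>
    intro V _ _ _ g ξ hg
    rw [TT_zero] at hg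
    have hs : Subsingleton V := by
      refine ⟨fun a b => ?_⟩
      have ha := LinearMap.congr_fun hg a
      have hb := LinearMap.congr_fun hg b
      simp only [Module.End.one_apply, LinearMap.zero_apply] at ha hb
      rw [ha, hb]
    have h0 : aeval g q = 0 := by
      apply LinearMap.ext
      intro v
      exact Subsingleton.elim _ _
    rw [h0, map_zero, Finset.univ_eq_empty, Finset.sum_empty]
  | succ p ih =>
    intro V _ _ _ g ξ hg
    set W := LinearMap.range (g - algebraMap K (Module.End K V) (ξ 0)) with hWd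
    have hq : ∀ y, aeval g q y - q.eval (ξ 0) • y ∈ W := by
      intro y
      obtain ⟨s, hs⟩ := Polynomial.X_sub_C_dvd_sub_C_eval (a := ξ 0) (p := q)
      refine ⟨aeval g s y, ?_⟩
      have h2 : aeval g (q - C (q.eval (ξ 0))) = aeval g ((Polynomial.X - C (ξ 0)) * s) := by
        rw [hs]
      rw [map_sub, map_mul, map_sub, aeval_X, aeval_C, aeval_C] at h2
      have h3 := LinearMap.congr_fun h2 y
      rw [LinearMap.sub_apply, Module.algebraMap_end_apply, Module.End.mul_apply] at h3
      exact h3.symm
    have hle : W ≤ W.comap (aeval g q) := by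
      intro w hw
      have h4 := W.add_mem (hq w) (W.smul_mem (q.eval (ξ 0)) hw)
      rw [sub_add_cancel] at h4
      exact h4
    have hr : (aeval g q).restrict hle =
        aeval (A := Module.End K W) (g.restrict (inv_range g (ξ 0))) q := by
      apply LinearMap.ext
      intro w
      apply Subtype.ext
      rw [aeval_restrict]
      rfl
    rw [trace_split W (aeval g q) hle, mapQ_scalar W _ hle _ hq, hr,
      ih (g.restrict (inv_range g (ξ 0))) (fun i => ξ i.succ) (TT_restrict_zero g ξ hg),
      Fin.sum_univ_succ, add_comm, mult_zero', map_smul, LinearMap.trace_one, smul_eq_mul,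
      mul_comm, Int.cast_natCast]
    congr 1
    apply Finset.sum_congr rfl
    intro j _
    rw [mult_restrict]

end aux

variable {κ : Type} [Field κ] {V W : Type} [AddCommGroup V] [Module κ V] [FiniteDimensional κ V]
  [AddCommGroup W] [Module κ W] [FiniteDimensional κ W] {n : ℕ} {x : J n → κˣ}
  {a : Fin 3 → Module.End κ V} {b : Fin 3 → Module.End κ W}

theorem charpoly_dv (ha : IsStar n x a) (g : Fin 3) :
    (a g).charpoly = ∏ j : Fin (leg n g), (X - C ((x ⟨g, j⟩ : κˣ) : κ)) ^ (dv x a ⟨g, j⟩).toNat := by
  have h := ha.poly g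
  exact charpoly_aux (leg n g) (a g) (fun j => ((x ⟨g, j⟩ : κˣ) : κ)) (by rw [TT_all]; exact h)

/-- trace of a polynomial in `a g` -/
theorem trace_aeval (ha : IsStar n x a) (g : Fin 3) (p : κ[X]) :
    LinearMap.trace κ V (aeval (a g) p) =
      ∑ j : Fin (leg n g), ((dv x a ⟨g, j⟩ : ℤ) : κ) * p.eval ((x ⟨g, j⟩ : κˣ) : κ) := by
  have h := ha.poly g
  exact trace_aux p (leg n g) (a g) (fun j => ((x ⟨g, j⟩ : κˣ) : κ)) (by rw [TT_all]; exact h)

end SYM
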