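import Pool.Agent.Lib.MP_b1ea0f_al.Defs4
import Pool.Agent.Lib.MP_b1ea0f_al.LDim
import Pool.Agent.Lib.BMM.Flag

/-!
# LCommEq: distinct parameters: dv = dim ker

Distinct parameters on the leg `g`: `BMM.mult_eq` (BMM/Flag.lean) gives the general formula `mult = dim ker` or derive: `a g` is diagonalisable (`P` has distinct roots), `V = ⊕ ker (a g - x_j)`,
the range of `∏_{i<j} (a - x_i)` is `⊕_{i ≥ j} ker(a - x_i)`.
-/

/-!
# LCommEq: distinct parameters: dv = dim ker

Distinct parameters on the leg `g`: `BMM.mult_eq` (BMM/Flag.lean) gives the general formula `mult = dim ker` or derive (not needed): `a g` is diagonalisable (`P` has distinct roots), `V = ⊕ ker (a g - x_j)`,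
the range of `∏_{i<j} (a - x_i)` is `⊕_{i ≥ j} ker(a - x_i)`.
-/

namespace SYM
open Polynomial Module

variable {κ : Type} [Field κ] {V W : Type} [AddCommGroup V] [Module κ V] [FiniteDimensional κ V]
  [AddCommGroup W] [Module κ W] [FiniteDimensional κ W] {n : ℕ} {x : J n → κˣ}
  {a : Fin 3 → Module.End κ V} {b : Fin 3 → Module.End κ W}

theorem dv_eq_ker (ha : IsStar n x a) (g : Fin 3) (hx : Function.Injective fun j => x ⟨g, j⟩)
    (j : Fin (leg n g)) : dv x a ⟨g, j⟩ =
      (finrank κ (LinearMap.ker (a g - ((x ⟨g, j⟩ : κˣ) : κ) • (1 : Module.End κ V))) : ℤ) := by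
  have hg : aeval (a g) (∏ i : Fin (leg n g), (X - C (((x ⟨g, i⟩ : κˣ) : κ)))) = 0 := ha.poly g
  have h := BMM.mult_eq (a g) (fun i : Fin (leg n g) => ((x ⟨g, i⟩ : κˣ) : κ))
    (fun i i' hii => hx (Units.ext hii)) hg j
  rw [Algebra.algebraMap_eq_smul_one] at h
  exact h

end SYM
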