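import Pool.Agent.Lib.MP_b1ea0f_al.Defs4
import Pool.Agent.Lib.BMM.DPl

/-!
# LDP: the derivative dP: formal properties, kernel for distinct parameters

Formal properties of `dP`: (1) `dP p a (sa - as) = s p(a) - p(a) s` (telescoping); (2) self-adjointness for the trace form (cyclicity, reverse the sum);
(3) triangular matrices; (4) distinct parameters: `dP = 0` implies `η ∈ [.,a]`: the matrix `(a, η; 0, a)` on `V × V` is killed by `P`, which has distinct roots,
so it is diagonalisable; the eigenspaces give an `a`-equivariant section `s`. (Or: components `e_i η e_j`, `dP` multiplies them by `(P(x_i)-P(x_j))/(x_i-x_j) = 0` for `i ≠ j`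
and by `P'(x_i) ≠ 0` for `i = j`; `s = ∑_{i≠j} e_i η e_j / (x_j - x_i)`.)
-/

namespace SYM
open Polynomial Module

variable {κ : Type} [Field κ] {n : ℕ} {x : J n → κˣ}

private theorem dP_def' {A : Type} [Ring A] [Algebra κ A] (p : κ[X]) (a η : A) :
    dP p a η = p.sum (fun k c => c • ∑ i ∈ Finset.range k, a ^ i * η * a ^ (k - 1 - i)) := rfl

private theorem dP_range {A : Type} [Ring A] [Algebra κ A] (p : κ[X]) (a η : A) :
    dP p a η = ∑ k ∈ Finset.range (p.natDegree + 1),
      p.coeff k • ∑ i ∈ Finset.range k, a ^ i * η * a ^ (k - 1 - i) := by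
  rw [dP_def', Polynomial.sum_over_range' p _ (p.natDegree + 1) (Nat.lt_succ_self _)]
  intro k
  rw [zero_smul]

theorem dP_comm {A : Type} [Ring A] [Algebra κ A] (p : κ[X]) (a s : A) :
    dP p a (s * a - a * s) = s * aeval a p - aeval a p * s := BMM.dP_ad p a s

theorem dP_add {A : Type} [Ring A] [Algebra κ A] (p : κ[X]) (a η θ : A) :
    dP p a (η + θ) = dP p a η + dP p a θ := by
  simp only [dP_def', Polynomial.sum]
  rw [← Finset.sum_add_distrib]
  refine Finset.sum_congr rfl fun k _ => ?_
  rw [← smul_add, ← Finset.sum_add_distrib]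
  congr 1
  refine Finset.sum_congr rfl fun i _ => ?_
  rw [mul_add, add_mul]

theorem dP_smul {A : Type} [Ring A] [Algebra κ A] (p : κ[X]) (a η : A) (c : κ) :
    dP p a (c • η) = c • dP p a η := by
  simp only [dP_def', Polynomial.sum]
  rw [Finset.smul_sum]
  refine Finset.sum_congr rfl fun k _ => ?_
  rw [smul_comm c]
  congr 1
  rw [Finset.smul_sum]
  refine Finset.sum_congr rfl fun i _ => ?_
  rw [mul_smul_comm, smul_mul_assoc]

theorem dP_selfadj {V : Type} [AddCommGroup V] [Module κ V] [FiniteDimensional κ V] (p : κ[X])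
    (a η θ : Module.End κ V) :
    LinearMap.trace κ V (dP p a η * θ) = LinearMap.trace κ V (η * dP p a θ) := by
  simp only [dP_def', Polynomial.sum]
  rw [Finset.sum_mul, Finset.mul_sum, map_sum, map_sum]
  refine Finset.sum_congr rfl fun k _ => ?_
  rw [smul_mul_assoc, mul_smul_comm, map_smul, map_smul, Finset.sum_mul, Finset.mul_sum, map_sum,
    map_sum]
  congr 1
  rw [← Finset.sum_range_reflect (fun i => LinearMap.trace κ V (η * (a ^ i * θ * a ^ (k - 1 - i))))]
  refine Finset.sum_congr rfl fun i hi => ?_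
  have hi' : i < k := Finset.mem_range.1 hi
  have e1 : k - 1 - (k - 1 - i) = i := by omega
  rw [e1]
  have h1 : a ^ i * η * a ^ (k - 1 - i) * θ = a ^ i * (η * a ^ (k - 1 - i) * θ) := by
    simp only [mul_assoc]
  rw [h1, LinearMap.trace_mul_comm]
  simp only [mul_assoc]

/-- naturality -/
theorem dP_map {A B : Type} [Ring A] [Algebra κ A] [Ring B] [Algebra κ B] (f : A →ₐ[κ] B)
    (p : κ[X]) (a η : A) : f (dP p a η) = dP p (f a) (f η) := by
  simp only [dP_def', Polynomial.sum]
  rw [map_sum]
  refine Finset.sum_congr rfl fun k _ => ?_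
  rw [map_smul, map_sum]
  congr 1
  refine Finset.sum_congr rfl fun i _ => ?_
  rw [map_mul, map_mul, map_pow, map_pow]

private theorem sum_succ' {A : Type} [Ring A] (a η : A) (k : ℕ) :
    (∑ i ∈ Finset.range (k + 1), a ^ i * η * a ^ (k + 1 - 1 - i)) =
        (∑ i ∈ Finset.range k, a ^ i * η * a ^ (k - 1 - i)) * a + a ^ k * η := by
  rw [Finset.sum_range_succ, Finset.sum_mul]
  have e0 : k + 1 - 1 - k = 0 := by omega
  rw [e0, pow_zero, mul_one]
  congr 1
  refine Finset.sum_congr rfl fun i hi => ?_
  have hi' : i < k := Finset.mem_range.1 hi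
  have e2 : k + 1 - 1 - i = (k - 1 - i) + 1 := by omega
  rw [e2, pow_succ a (k - 1 - i), ← mul_assoc]

/-- derivations: if `δ(hh') = δ(h)ρ(h') + ρ(h)δ(h')` then `δ(p(a)) = dP p (ρ a) (δ a)` -/
theorem dP_deriv {A B : Type} [Ring A] [Algebra κ A] [Ring B] [Algebra κ B] (ρ : A →ₐ[κ] B)
    (δ : A →ₗ[κ] B) (hδ : ∀ h h', δ (h * h') = δ h * ρ h' + ρ h * δ h') (p : κ[X]) (a : A) :
    δ (aeval a p) = dP p (ρ a) (δ a) := by
  have h1 : δ 1 = 0 := by
    have := hδ 1 1
    rw [mul_one, map_one ρ, mul_one, one_mul] at this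
    exact left_eq_add.1 this
  have hpow : ∀ k : ℕ, δ (a ^ k) = ∑ i ∈ Finset.range k, (ρ a) ^ i * δ a * (ρ a) ^ (k - 1 - i) := by
    intro k
    induction k with
    | zero => rw [pow_zero, h1, Finset.range_zero, Finset.sum_empty]
    | succ k ih => rw [pow_succ, hδ, ih, sum_succ', map_pow]
  rw [aeval_eq_sum_range, dP_range, map_sum]
  refine Finset.sum_congr rfl fun k _ => ?_
  rw [map_smul, hpow]

/-- upper triangular block matrices -/
theorem dP_triang {A : Type} [Ring A] [Algebra κ A] (p : κ[X]) (a η : A) :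
    aeval (!![a, η; 0, a] : Matrix (Fin 2) (Fin 2) A) p = !![aeval a p, dP p a η; 0, aeval a p] := by
  have hpow : ∀ k : ℕ, (!![a, η; 0, a] : Matrix (Fin 2) (Fin 2) A) ^ k =
      !![a ^ k, ∑ i ∈ Finset.range k, a ^ i * η * a ^ (k - 1 - i); 0, a ^ k] := by
    intro k
    induction k with
    | zero =>
      rw [pow_zero, pow_zero, Finset.range_zero, Finset.sum_empty, Matrix.one_fin_two]
    | succ k ih =>
      rw [pow_succ, ih, sum_succ', Matrix.mul_fin_two, pow_succ]
      simp [add_comm]
  rw [aeval_eq_sum_range, dP_range, aeval_eq_sum_range]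
  ext i j
  rw [Matrix.sum_apply]
  fin_cases i <;> fin_cases j <;> simp [hpow]

theorem dP_ker {A : Type} [Ring A] [Algebra κ A] (a : A) (g : Fin 3)
    (ha : aeval a (P n x g) = 0) (hx : Function.Injective fun j => x ⟨g, j⟩)
    (η : A) (h : dP (P n x g) a η = 0) : ∃ s, η = s * a - a * s := by
  classical
  set v : Fin (leg n g) → κ := fun j => ((x ⟨g, j⟩ : κˣ) : κ) with hv
  have hvi : Function.Injective v := fun i j hij => hx (Units.ext hij)
  have hP : P n x g = Lagrange.nodal Finset.univ v := rfl
  by_cases hne : (Finset.univ : Finset (Fin (leg n g))).Nonempty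
  swap
  · -- the empty leg: `P = 1`, so `1 = 0` in `A`
    have h1 : P n x g = 1 := by
      rw [hP, Finset.not_nonempty_iff_eq_empty.1 hne, Lagrange.nodal_empty]
    rw [h1, map_one] at ha
    exact ⟨0, by rw [← mul_one η, ha]; simp⟩
  set e : Fin (leg n g) → A := fun j => aeval a (Lagrange.basis Finset.univ v j) with he
  have hsum : ∑ j, e j = 1 := by
    rw [he, ← map_sum, Lagrange.sum_basis (hvi.injOn) hne, map_one]
  have hae : ∀ j, a * e j = v j • e j := by
    intro j
    have h2 : (X - C (v j)) * Lagrange.basis Finset.univ v j =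
        C (∏ i ∈ Finset.univ.erase j, (v j - v i)⁻¹) * P n x g := by
      have h3 : P n x g = (X - C (v j)) * ∏ i ∈ Finset.univ.erase j, (X - C (v i)) := by
        rw [hP, Lagrange.nodal]
        exact (Finset.mul_prod_erase _ _ (Finset.mem_univ j)).symm
      rw [h3, Lagrange.basis]
      simp only [Lagrange.basisDivisor]
      rw [Finset.prod_mul_distrib, map_prod]
      ring
    have h4 := congrArg (aeval a) h2
    rw [map_mul, map_mul, ha, mul_zero, map_sub, aeval_X, aeval_C, sub_mul, sub_eq_zero,
      ← Algebra.smul_def] at h4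
    exact h4
  have hea : ∀ j, e j * a = v j • e j := by
    intro j
    rw [← hae j]
    have h5 : aeval a (Lagrange.basis Finset.univ v j * X) =
        aeval a (X * Lagrange.basis Finset.univ v j) := by rw [mul_comm]
    rw [map_mul, map_mul, aeval_X] at h5
    exact h5
  have hpl : ∀ j (k : ℕ), a ^ k * e j = v j ^ k • e j := by
    intro j k
    induction k with
    | zero => simp
    | succ k ih => rw [pow_succ, mul_assoc, hae, mul_smul_comm, ih, smul_smul, pow_succ, mul_comm]
  have hpr : ∀ j (k : ℕ), e j * a ^ k = v j ^ k • e j := by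
    intro j k
    induction k with
    | zero => simp
    | succ k ih => rw [pow_succ, ← mul_assoc, ih, smul_mul_assoc, hea, smul_smul, pow_succ]
  have hdiag : ∀ j, e j * η * e j = 0 := by
    intro j
    have h6 : e j * dP (P n x g) a η * e j =
        ((P n x g).derivative.eval (v j)) • (e j * η * e j) := by
      rw [derivative_eval, dP_def']
      simp only [Polynomial.sum]
      rw [Finset.mul_sum, Finset.sum_mul, Finset.sum_smul]
      refine Finset.sum_congr rfl fun k _ => ?_
      rw [mul_smul_comm, smul_mul_assoc, Finset.mul_sum, Finset.sum_mul, mul_assoc ((P n x g).coeff k),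
        mul_smul]
      congr 1
      have h7 : ∀ i ∈ Finset.range k, e j * (a ^ i * η * a ^ (k - 1 - i)) * e j =
          (v j ^ (k - 1)) • (e j * η * e j) := by
        intro i hi
        have hi' : i < k := Finset.mem_range.1 hi
        have h8 : e j * (a ^ i * η * a ^ (k - 1 - i)) * e j =
            (e j * a ^ i) * η * (a ^ (k - 1 - i) * e j) := by simp only [mul_assoc]
        rw [h8, hpr, hpl, smul_mul_assoc, smul_mul_assoc, mul_smul_comm, smul_smul, ← pow_add]
        congr 2
        omega
      rw [Finset.sum_congr rfl h7, Finset.sum_const, Finset.card_range, ← Nat.cast_smul_eq_nsmul κ,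
        smul_smul]
    rw [h, mul_zero, zero_mul] at h6
    have h9 : (P n x g).derivative.eval (v j) ≠ 0 := by
      have h10 : (P n x g).Separable := by
        rw [hP, Lagrange.nodal, separable_prod_X_sub_C_iff]
        exact hvi
      obtain ⟨r, s, hrs⟩ := h10
      intro h11
      have h12 := congrArg (eval (v j)) hrs
      have h13 : eval (v j) (P n x g) = 0 := by
        rw [hP, Lagrange.eval_nodal_at_node (Finset.mem_univ j)]
      rw [eval_add, eval_mul, eval_mul, h11, h13, mul_zero, mul_zero, add_zero, eval_one] at h12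
      exact zero_ne_one h12
    exact (smul_eq_zero.1 h6.symm).resolve_left h9
  refine ⟨∑ i, ∑ j, (if i = j then 0 else (v j - v i)⁻¹) • (e i * η * e j), ?_⟩
  have hη : η = ∑ i, ∑ j, e i * η * e j := by
    calc η = (∑ i, e i) * η * ∑ j, e j := by rw [hsum, one_mul, mul_one]
      _ = _ := by
        rw [Finset.sum_mul, Finset.sum_mul]
        refine Finset.sum_congr rfl fun i _ => ?_
        rw [Finset.mul_sum]
  conv_lhs => rw [hη]
  rw [Finset.sum_mul, Finset.mul_sum, ← Finset.sum_sub_distrib]
  refine Finset.sum_congr rfl fun i _ => ?_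
  rw [Finset.sum_mul, Finset.mul_sum, ← Finset.sum_sub_distrib]
  refine Finset.sum_congr rfl fun j _ => ?_
  by_cases hij : i = j
  · subst hij
    rw [hdiag]; simp
  · rw [if_neg hij, smul_mul_assoc, mul_smul_comm, mul_assoc (e i * η), hea, ← mul_assoc, ← mul_assoc,
      hae, mul_smul_comm, smul_mul_assoc, smul_mul_assoc, ← smul_sub, ← sub_smul, smul_smul,
      inv_mul_cancel₀, one_smul]
    rw [sub_ne_zero]
    exact fun h => hij (hvi h.symm)

end SYM
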