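import Pool.Agent.Lib.MP_b1ea0f_al.Defs4
import Pool.Agent.Lib.MP_b1ea0f_al.LDim
import Pool.Agent.Lib.MP_b1ea0f_al.LCommEq
import Pool.Agent.Lib.MP_b1ea0f_al.WLin
import Pool.Agent.Lib.MP_b1ea0f_al.LDP

/-!
# LRigid: rigidity of irreducible modules (Ext^1 = 0) by dimension count

Paper 3.6, 3.7. By `dP_ker` each `δ g ∈ Isp (a g) (a g)`. `dim I_g = d² - ∑_j m_gj²` (`cm_eq`), `dim {δ ∈ I³ : L δ = 0} = ∑ dim I_g - (d² - 1)`
(`rank_L`, `homs a a` has dimension 1) `= 2d² - ∑ m² + 1 = d² - 1` (`ip (dv) (dv) = 2`, i.e. `∑ m² = d² + 2`) `= rk d0`; and `im d0 ⊆ ker L` (`z` scalar). So `δ = d0 s`.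
`rigid0`: `tr(L(δ)) z0^{-1} = ∑ tr(δ_g a_g^{-1}) = 0` since `δ_g = s a_g - a_g s` for some `s` (depending on `g`), so `c · d = 0`, `c = 0` in characteristic 0. (`Lm a a δ = Lr a δ`.)
-/

namespace SYM
open Polynomial Module

variable {κ : Type} [Field κ] {V : Type} [AddCommGroup V] [Module κ V] [FiniteDimensional κ V]
  {n : ℕ} {x : J n → κˣ} {a : Fin 3 → Module.End κ V}

omit [FiniteDimensional κ V] in
private theorem Lr_comm (a : Fin 3 → Module.End κ V) (s : Module.End κ V) (z0 : κ)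
    (hz : a 0 * a 1 * a 2 = z0 • 1) : Lr a (fun g => s * a g - a g * s) = 0 := by
  have h : Lr a (fun g => s * a g - a g * s) = s * (a 0 * a 1 * a 2) - a 0 * a 1 * a 2 * s := by
    unfold Lr
    noncomm_ring
  rw [h, hz, mul_smul_comm, smul_mul_assoc, mul_one, one_mul, sub_self]

omit [FiniteDimensional κ V] in
private theorem LL_eq (a δ : Fin 3 → Module.End κ V) : BMM.LL a a δ = Lr a δ := by
  rw [BMM.LL_apply]
  rfl

private theorem trace_Lr (a δ : Fin 3 → Module.End κ V) (z0 : κ)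
    (hz : a 0 * a 1 * a 2 = z0 • 1) (c1 : a 0 * a 1 * a 2 = a 1 * a 2 * a 0)
    (c2 : a 0 * a 1 * a 2 = a 2 * a 0 * a 1) (h : ∀ g, ∃ s, δ g = s * a g - a g * s) :
    LinearMap.trace κ V (Lr a δ) = 0 := by
  obtain ⟨s0, h0⟩ := h 0
  obtain ⟨s1, h1⟩ := h 1
  obtain ⟨s2, h2⟩ := h 2
  have hc1 : a 1 * a 2 * a 0 = z0 • 1 := by rw [← c1, hz]
  have hc2 : a 2 * a 0 * a 1 = z0 • 1 := by rw [← c2, hz]
  have e0 : LinearMap.trace κ V (δ 0 * a 1 * a 2) = 0 := by
    have e : δ 0 * a 1 * a 2 = s0 * (a 0 * a 1 * a 2) - a 0 * (s0 * (a 1 * a 2)) := by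
      rw [h0]
      noncomm_ring
    rw [e, map_sub, LinearMap.trace_mul_comm κ (a 0), mul_assoc s0, hc1, hz, sub_self]
  have e1 : LinearMap.trace κ V (a 0 * δ 1 * a 2) = 0 := by
    have e : a 0 * δ 1 * a 2 = a 0 * (s1 * (a 1 * a 2)) - (a 0 * a 1) * (s1 * a 2) := by
      rw [h1]
      noncomm_ring
    rw [e, map_sub, LinearMap.trace_mul_comm κ (a 0), LinearMap.trace_mul_comm κ (a 0 * a 1),
      mul_assoc s1, mul_assoc s1, hc1, ← mul_assoc (a 2), hc2, sub_self]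
  have e2 : LinearMap.trace κ V (a 0 * a 1 * δ 2) = 0 := by
    have e : a 0 * a 1 * δ 2 = (a 0 * a 1) * (s2 * a 2) - (a 0 * a 1 * a 2) * s2 := by
      rw [h2]
      noncomm_ring
    rw [e, map_sub, LinearMap.trace_mul_comm κ (a 0 * a 1),
      LinearMap.trace_mul_comm κ (a 0 * a 1 * a 2), mul_assoc s2, ← mul_assoc (a 2), hc2, hz,
      sub_self]
  unfold Lr
  rw [map_add, map_add, e0, e1, e2, add_zero, add_zero]

theorem rigid (ha : IsStar n x a)
    (hx : ∀ g, Function.Injective fun j => x ⟨g, j⟩) (z0 : κˣ)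
    (hz : a 0 * a 1 * a 2 = (z0 : κ) • 1) (h1 : finrank κ (homs a a) = 1)
    (h2 : ip (dv x a) (dv x a) = 2) (δ : Fin 3 → Module.End κ V)
    (hd : ∀ g, dP (P n x g) (a g) (δ g) = 0) (hL : Lr a δ = 0) :
    ∃ s, ∀ g, δ g = s * a g - a g * s := by
  have hsg : ∀ g, ∃ s, δ g = s * a g - a g * s := fun g =>
    dP_ker (a g) g (ha.poly g) (hx g) (δ g) (hd g)
  have hcyc : BMM.IsCyc a := ha.isCyc
  have hrL := BMM.rk_LL hcyc hcyc
  have hr0 := BMM.rk_d0 a a
  have hI := BMM.finrank_I3 a a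
  have hN : Module.finrank κ (V →ₗ[κ] V) = Module.finrank κ V * Module.finrank κ V :=
    Module.finrank_linearMap κ κ V V
  rw [homs_eq] at h1
  rw [h1] at hrL hr0
  have hsum : ((∑ i, Module.finrank κ (LinearMap.ker (BMM.ad (a i) (a i))) : ℕ) : ℤ) =
      2 + (Module.finrank κ V : ℤ) * Module.finrank κ V := by
    have e1 : ((∑ i, Module.finrank κ (LinearMap.ker (BMM.ad (a i) (a i))) : ℕ) : ℤ) =
        ∑ j, dv x a j * dv x a j := by
      push_cast
      rw [Fintype.sum_sigma]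
      refine Finset.sum_congr rfl fun g _ => ?_
      exact BMM.finrank_ker_ad (fun j => ((x ⟨g, j⟩ : κˣ) : κ)) (a g) (a g) (ha.poly g)
        (ha.poly g)
    have e2 : ∑ j, dv x a j * dv x a j = ip (dv x a) (dv x a) + deg (dv x a) * deg (dv x a) := by
      show _ = BMM.bil (dv x a) (dv x a) + BMM.lev (dv x a) * BMM.lev (dv x a)
      unfold BMM.bil
      ring
    rw [e1, e2, h2, deg_dv ha]
  set I := BMM.I3 a a with hIdef
  set f := (BMM.LL a a).domRestrict I with hf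
  have hrn := LinearMap.finrank_range_add_finrank_ker f
  have hrange : LinearMap.range f = I.map (BMM.LL a a) := by
    rw [hf, LinearMap.range_domRestrict]
  rw [hrange] at hrn
  have hle : LinearMap.range (BMM.d0 a a) ≤ (LinearMap.ker f).map I.subtype := by
    rintro _ ⟨s, rfl⟩
    have hmem : BMM.d0 a a s ∈ I := by
      rw [hIdef]
      refine Submodule.mem_pi.2 fun i _ => ?_
      exact ⟨s, rfl⟩
    refine ⟨⟨_, hmem⟩, ?_, rfl⟩
    show BMM.LL a a (BMM.d0 a a s) = 0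
    rw [LL_eq]
    exact Lr_comm a s (z0 : κ) hz
  have hfin : Module.finrank κ ((LinearMap.ker f).map I.subtype) =
      Module.finrank κ (LinearMap.ker f) :=
    LinearEquiv.finrank_eq (Submodule.equivMapOfInjective _ I.injective_subtype _).symm
  have heq : Module.finrank κ (LinearMap.range (BMM.d0 a a)) =
      Module.finrank κ ((LinearMap.ker f).map I.subtype) := by
    rw [hfin]
    zify at hrL hr0 hI hN hrn ⊢
    push_cast at hsum hI
    rw [hsum] at hI
    linarith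
  have hEq := Submodule.eq_of_le_of_finrank_eq hle heq
  have hδ : δ ∈ (LinearMap.ker f).map I.subtype := by
    have hmem : δ ∈ I := by
      rw [hIdef]
      refine Submodule.mem_pi.2 fun i _ => ?_
      obtain ⟨s, hs⟩ := hsg i
      exact ⟨s, hs.symm⟩
    refine ⟨⟨_, hmem⟩, ?_, rfl⟩
    show BMM.LL a a δ = 0
    rw [LL_eq]
    exact hL
  rw [← hEq] at hδ
  obtain ⟨s, hs⟩ := hδ
  exact ⟨s, fun g => (congrFun hs g).symm⟩


theorem rigid0 [CharZero κ] (ha : IsStar n x a)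
    (hx : ∀ g, Function.Injective fun j => x ⟨g, j⟩) (z0 : κˣ)
    (hz : a 0 * a 1 * a 2 = (z0 : κ) • 1) (h1 : finrank κ (homs a a) = 1)
    (h2 : ip (dv x a) (dv x a) = 2) (δ : Fin 3 → Module.End κ V)
    (hd : ∀ g, dP (P n x g) (a g) (δ g) = 0) (hL : ∃ c : κ, Lr a δ = c • 1) :
    ∃ s, ∀ g, δ g = s * a g - a g * s := by
  have hsg : ∀ g, ∃ s, δ g = s * a g - a g * s := fun g =>
    dP_ker (a g) g (ha.poly g) (hx g) (δ g) (hd g)
  obtain ⟨c, hc⟩ := hL
  have ht := trace_Lr a δ (z0 : κ) hz ha.cyc1 ha.cyc2 hsg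
  rw [hc, map_smul, LinearMap.trace_one, smul_eq_mul] at ht
  have hd0 : (Module.finrank κ V : κ) ≠ 0 := by
    intro h0
    have h3 : Module.finrank κ V = 0 := by exact_mod_cast h0
    have h4 : Module.finrank κ (V →ₗ[κ] V) = 0 := by
      rw [Module.finrank_linearMap, h3, zero_mul]
    have h5 := Submodule.finrank_le (homs a a)
    rw [h1, h4] at h5
    omega
  have hc0 : c = 0 := by
    rcases mul_eq_zero.1 ht with h | h
    · exact h
    · exact absurd h hd0
  refine rigid ha hx z0 hz h1 h2 δ hd ?_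
  rw [hc, hc0, zero_smul]


end SYM
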