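import Pool.Agent.Lib.MP_b1ea0f_al.Defs4

/-!
# WSchur: Schur lemma for Wedderburn data

Schur's lemma for surjective representations: an intertwiner `s` of `ρ_i`: `s ρ_i(h) = ρ_i(h) s` for the generators, hence all `h` (`adjoin_induction`), `ρ_i` surjective: `s` scalar. For `i ≠ j`
choose `h` with `ρ_i(h) = 0`, `ρ_j(h) = 1`: `0 = s`.
-/

namespace SYM
open Polynomial Module

variable {κ : Type} [Field κ] {BB : Type} [Ring BB] [Algebra κ BB]

private theorem inter_aux {V W : Type} [AddCommGroup V] [Module κ V] [AddCommGroup W] [Module κ W]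
    (ρ : BB →ₐ[κ] Module.End κ V) (ρ' : BB →ₐ[κ] Module.End κ W)
    (gn : Fin 3 → BB) (hgn : Algebra.adjoin κ (Set.range gn) = ⊤) (s : V →ₗ[κ] W)
    (hs : s ∈ homs (fun g => ρ (gn g)) fun g => ρ' (gn g)) (h : BB) :
    s ∘ₗ ρ h = ρ' h ∘ₗ s := by
  have hh : h ∈ Algebra.adjoin κ (Set.range gn) := by rw [hgn]; exact Algebra.mem_top
  have hs' : ∀ g, s ∘ₗ ρ (gn g) = ρ' (gn g) ∘ₗ s := fun g => (Submodule.mem_iInf _).1 hs g
  induction hh using Algebra.adjoin_induction with
  | mem x hx =>
    obtain ⟨g, rfl⟩ := hx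
    exact hs' g
  | algebraMap r =>
    ext v
    simp [Algebra.algebraMap_eq_smul_one]
  | add x y _ _ hx hy =>
    rw [map_add, map_add, LinearMap.comp_add, LinearMap.add_comp, hx, hy]
  | mul x y _ _ hx hy =>
    rw [map_mul, map_mul, Module.End.mul_eq_comp, Module.End.mul_eq_comp, ← LinearMap.comp_assoc, hx,
      LinearMap.comp_assoc, hy, LinearMap.comp_assoc]

private theorem scalar_aux {d : ℕ} (s : Module.End κ (Fin d → κ))
    (hs : ∀ f : Module.End κ (Fin d → κ), s * f = f * s) : ∃ c : κ, s = c • 1 := by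
  have h1 : s ∈ Subalgebra.center κ (Module.End κ (Fin d → κ)) := by
    rw [Subalgebra.mem_center_iff]
    intro f
    exact (hs f).symm
  obtain ⟨c, hc⟩ := (Algebra.IsCentral.mem_center_iff (K := κ)).1 h1
  exact ⟨c, by rw [hc, Algebra.algebraMap_eq_smul_one]⟩

private theorem homs_surj_aux {d : ℕ} (hd : 0 < d) (ρ : BB →ₐ[κ] Module.End κ (Fin d → κ))
    (hρ : Function.Surjective ρ) (gn : Fin 3 → BB) (hgn : Algebra.adjoin κ (Set.range gn) = ⊤) :
    finrank κ (homs (fun g => ρ (gn g)) fun g => ρ (gn g)) = 1 := by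
  have h1 : homs (fun g => ρ (gn g)) (fun g => ρ (gn g)) =
      Submodule.span κ {(1 : Module.End κ (Fin d → κ))} := by
    apply le_antisymm
    · intro s hs
      have h2 := inter_aux ρ ρ gn hgn s hs
      obtain ⟨c, hc⟩ := scalar_aux s (fun f => by
        obtain ⟨h, rfl⟩ := hρ f
        exact h2 h)
      rw [hc]
      exact Submodule.smul_mem _ _ (Submodule.mem_span_singleton_self _)
    · rw [Submodule.span_singleton_le_iff_mem]
      refine (Submodule.mem_iInf _).2 fun g => ?_
      show (1 : Module.End κ (Fin d → κ)) ∘ₗ ρ (gn g) = ρ (gn g) ∘ₗ 1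
      ext v
      simp
  have h3 : (1 : Module.End κ (Fin d → κ)) ≠ 0 := by
    intro h
    have h4 := LinearMap.congr_fun h (fun _ => 1)
    have h5 := congrFun h4 ⟨0, hd⟩
    simp at h5
  rw [h1]
  exact finrank_span_singleton h3

private theorem surj_one_aux (w : Wed κ BB) (i : Fin w.r) : Function.Surjective (w.ρ i) := by
  classical
  intro f
  obtain ⟨h, hh⟩ := w.surj (Function.update 0 i f)
  exact ⟨h, by rw [hh i, Function.update_self]⟩

theorem Wed.homs_self (w : Wed κ BB) (i : Fin w.r)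
    (gn : Fin 3 → BB) (hgn : Algebra.adjoin κ (Set.range gn) = ⊤) :
    finrank κ (homs (fun g => w.ρ i (gn g)) fun g => w.ρ i (gn g)) = 1 :=
  homs_surj_aux (w.pos i) (w.ρ i) (surj_one_aux w i) gn hgn

theorem Wed.homs_ne (w : Wed κ BB) (i j : Fin w.r)
    (hij : i ≠ j) (gn : Fin 3 → BB) (hgn : Algebra.adjoin κ (Set.range gn) = ⊤) :
    finrank κ (homs (fun g => w.ρ i (gn g)) fun g => w.ρ j (gn g)) = 0 := by
  classical
  have h1 : homs (fun g => w.ρ i (gn g)) (fun g => w.ρ j (gn g)) = ⊥ := by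
    rw [eq_bot_iff]
    intro s hs
    have h2 := inter_aux (w.ρ i) (w.ρ j) gn hgn s hs
    obtain ⟨h, hh⟩ := w.surj (Function.update 0 j 1)
    have h3 := h2 h
    rw [hh i, hh j, Function.update_self, Function.update_of_ne hij] at h3
    rw [Submodule.mem_bot]
    refine LinearMap.ext fun v => ?_
    have h4 := LinearMap.congr_fun h3 v
    simpa using h4.symm
  rw [h1, finrank_bot]

/-- the same for one surjective representation -/
theorem homs_surj {d : ℕ} (hd : 0 < d) (ρ : BB →ₐ[κ] Module.End κ (Fin d → κ))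
    (hρ : Function.Surjective ρ) (gn : Fin 3 → BB) (hgn : Algebra.adjoin κ (Set.range gn) = ⊤) :
    finrank κ (homs (fun g => ρ (gn g)) fun g => ρ (gn g)) = 1 :=
  homs_surj_aux hd ρ hρ gn hgn

/-- central elements act by scalars -/
theorem central_scalar {d : ℕ} (ρ : BB →ₐ[κ] Module.End κ (Fin d → κ))
    (hρ : Function.Surjective ρ) (y : BB) (hy : ∀ h, y * h = h * y) :
    ∃ c : κ, ρ y = c • 1 := by
  apply scalar_aux
  intro f
  obtain ⟨h, rfl⟩ := hρ f
  rw [← map_mul, ← map_mul, hy h]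

theorem Wed.surj_one (w : Wed κ BB) (i : Fin w.r) : Function.Surjective (w.ρ i) :=
  surj_one_aux w i

/-- adjoin of the images of the generators under a surjection from `H` -/
theorem adjoin_image {n : ℕ} {x : J n → κˣ} (π : H n x →ₐ[κ] BB) (hπ : Function.Surjective π) :
    Algebra.adjoin κ (Set.range fun g => π (gen n x g)) = ⊤ := by
  have h1 : (Set.range fun g => π (gen n x g)) = π '' Set.range (gen n x) := by
    rw [← Set.range_comp]
    rfl
  rw [h1, ← AlgHom.map_adjoin, adjoin_gen, Algebra.map_top]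
  exact (AlgHom.range_eq_top π).2 hπ

end SYM
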