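import Pool.Agent.Lib.MP_b1ea0f_al.Defs4
import Pool.Agent.Lib.MP_b1ea0f_al.LDim
import Pool.Agent.Lib.MP_b1ea0f_al.LDP
import Pool.Agent.Lib.MP_b1ea0f_al.LRigid
import Pool.Agent.Lib.MP_b1ea0f_al.WSchur

/-!
# LDer: derivations into irreducible modules are inner

`δ` a `ρ`-derivation of `BB`. `a g := ρ (π (gen g))`, `δ_g := δ (π (gen g))`; `dP (P g) (a g) (δ_g) = δ(P(π gen)) = 0` (`dP_deriv`); `Lr a δ_g = δ (π zz)`.
If `π zz` is a scalar then `δ (π zz) = 0` (δ 1 = 0); in general `δ(π zz)` commutes with all `ρ h` (compare `δ(zh) = δ(hz)`, `ρ z` scalar) so it is a scalar (`ρ` surjective).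
`rigid` / `rigid0` (`homs a a` is one-dimensional as `ρ ∘ π` is surjective) give `s` with `δ_g = s a_g - a_g s`; then `δ - [s, ρ ·]` is a derivation vanishing on generators
(`adjoin_gen`, `Algebra.adjoin_induction`), hence zero.
-/

namespace SYM
open Polynomial Module

private theorem der_one {κ : Type} [Field κ] {BB : Type} [Ring BB] [Algebra κ BB] {d : ℕ}
    (ρ : BB →ₐ[κ] Module.End κ (Fin d → κ))
    (δ : BB →ₗ[κ] Module.End κ (Fin d → κ))
    (hδ : ∀ h h', δ (h * h') = δ h * ρ h' + ρ h * δ h') : δ 1 = 0 := by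
  have h := hδ 1 1
  rw [mul_one, map_one ρ, mul_one, one_mul] at h
  have h2 : δ 1 + 0 = δ 1 + δ 1 := by rw [add_zero]; exact h
  exact (add_left_cancel h2).symm

private theorem der_alg {κ : Type} [Field κ] {BB : Type} [Ring BB] [Algebra κ BB] {d : ℕ}
    (ρ : BB →ₐ[κ] Module.End κ (Fin d → κ))
    (δ : BB →ₗ[κ] Module.End κ (Fin d → κ))
    (hδ : ∀ h h', δ (h * h') = δ h * ρ h' + ρ h * δ h') (c : κ) : δ (algebraMap κ BB c) = 0 := by
  rw [Algebra.algebraMap_eq_smul_one, map_smul, der_one ρ δ hδ, smul_zero]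

private theorem der_ext {κ : Type} [Field κ] {n : ℕ} {x : J n → κˣ}
    {BB : Type} [Ring BB] [Algebra κ BB]
    (π : H n x →ₐ[κ] BB) (hπ : Function.Surjective π) {d : ℕ}
    (ρ : BB →ₐ[κ] Module.End κ (Fin d → κ))
    (δ : BB →ₗ[κ] Module.End κ (Fin d → κ))
    (hδ : ∀ h h', δ (h * h') = δ h * ρ h' + ρ h * δ h')
    (s : Module.End κ (Fin d → κ))
    (hs : ∀ g, δ (π (gen n x g)) = s * ρ (π (gen n x g)) - ρ (π (gen n x g)) * s) (h : BB) :
    δ h = s * ρ h - ρ h * s := by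
  have hmem : h ∈ Algebra.adjoin κ (Set.range fun g => π (gen n x g)) := by
    rw [adjoin_image π hπ]; trivial
  induction hmem using Algebra.adjoin_induction with
  | mem y hy =>
    obtain ⟨g, rfl⟩ := hy
    exact hs g
  | algebraMap c =>
    rw [der_alg ρ δ hδ, AlgHom.commutes, Algebra.commutes c s, sub_self]
  | add y z _ _ hy hz =>
    rw [map_add, hy, hz, map_add, mul_add, add_mul]
    abel
  | mul y z _ _ hy hz =>
    rw [hδ, hy, hz, map_mul, sub_mul, mul_sub]
    simp only [mul_assoc]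
    abel

theorem der_inner {κ : Type} [Field κ] {n : ℕ} {x : J n → κˣ}
    (hx : ∀ g, Function.Injective fun j => x ⟨g, j⟩) {BB : Type} [Ring BB] [Algebra κ BB]
    (π : H n x →ₐ[κ] BB) (hπ : Function.Surjective π) {d : ℕ} (hd : 0 < d)
    (ρ : BB →ₐ[κ] Module.End κ (Fin d → κ)) (hρ : Function.Surjective ρ) (z0 : κˣ)
    (hz : ρ (π (zz n x)) = (z0 : κ) • 1)
    (h2 : ip (dv x fun g => ρ (π (gen n x g))) (dv x fun g => ρ (π (gen n x g))) = 2)
    (hcase : CharZero κ ∨ π (zz n x) = algebraMap κ BB z0)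
    (δ : BB →ₗ[κ] Module.End κ (Fin d → κ)) (hδ : ∀ h h', δ (h * h') = δ h * ρ h' + ρ h * δ h') :
    ∃ s, ∀ h, δ h = s * ρ h - ρ h * s := by
  have hstar : IsStar n x (fun g => ρ (π (gen n x g))) :=
    (isStar_gen n x).map (ρ.comp π)
  have hz' : ρ (π (gen n x 0)) * ρ (π (gen n x 1)) * ρ (π (gen n x 2)) = (z0 : κ) • 1 := by
    rw [← hz, zz_eq]
    simp only [map_mul]
  have h1 : finrank κ (homs (fun g => ρ (π (gen n x g))) fun g => ρ (π (gen n x g))) = 1 :=
    homs_surj hd ρ hρ (fun g => π (gen n x g)) (adjoin_image π hπ)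
  have hdd : ∀ g, dP (P n x g) (ρ (π (gen n x g))) (δ (π (gen n x g))) = 0 := by
    intro g
    rw [← dP_deriv ρ δ hδ, Polynomial.aeval_algHom_apply, (isStar_gen n x).poly, map_zero,
      map_zero]
  have hLr : Lr (fun g => ρ (π (gen n x g))) (fun g => δ (π (gen n x g))) = δ (π (zz n x)) := by
    rw [zz_eq, map_mul π, map_mul π, hδ, hδ, map_mul ρ]
    simp only [Lr]
    rw [add_mul]
  rcases hcase with hch | hcase
  · have hy : ∀ h : BB, π (zz n x) * h = h * π (zz n x) := by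
      intro h
      obtain ⟨t, rfl⟩ := hπ h
      rw [← map_mul, ← map_mul, zz_comm]
    have hcomm : ∀ h : BB, δ (π (zz n x)) * ρ h = ρ h * δ (π (zz n x)) := by
      intro h
      have e1 := hδ (π (zz n x)) h
      have e2 := hδ h (π (zz n x))
      rw [hy h, e2, hz] at e1
      have e3 : δ h * ((z0 : κ) • (1 : Module.End κ (Fin d → κ)))
          = ((z0 : κ) • (1 : Module.End κ (Fin d → κ))) * δ h := by
        rw [mul_smul_comm, smul_mul_assoc, mul_one, one_mul]
      rw [e3, add_comm] at e1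
      exact (add_right_cancel e1).symm
    have hsc : ∃ c : κ, δ (π (zz n x)) = c • 1 := by
      have := central_scalar (κ := κ) (BB := Module.End κ (Fin d → κ))
        (AlgHom.id κ (Module.End κ (Fin d → κ))) (fun y => ⟨y, rfl⟩) (δ (π (zz n x)))
        (by
          intro h
          obtain ⟨t, rfl⟩ := hρ h
          exact hcomm t)
      exact this
    obtain ⟨s, hs⟩ := rigid0 hstar hx z0 hz' h1 h2 (fun g => δ (π (gen n x g))) hdd
      (by rw [hLr]; exact hsc)
    exact ⟨s, der_ext π hπ ρ δ hδ s hs⟩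
  · obtain ⟨s, hs⟩ := rigid hstar hx z0 hz' h1 h2 (fun g => δ (π (gen n x g))) hdd
      (by rw [hLr, hcase]; exact der_alg ρ δ hδ _)
    exact ⟨s, der_ext π hπ ρ δ hδ s hs⟩

end SYM
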