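import Pool.Agent.Lib.MP_b1ea0f_al.Defs4

/-!
# LIdem: inner derivations => kernel of an irreducible representation is idempotent

Abstract. Let `mm = ker ρ`, `mm2` = span of products = `mm²` (a two-sided ideal, contained in `mm`). Claim: every finite-dimensional `BB`-module `M` with `mm² M = 0` has `mm M = 0`
(apply to `M = BB / mm²`, giving `mm ⊆ mm²`). Proof by dimension: `mm M` and `M / mm M` are modules over `BB/mm ≅ End(κ^d)`, hence sums of copies of `S = κ^d`. If `mm M ≠ 0`
choose a quotient `mm M → S` and replace `M` by `M / kernel`: `mm M ≅ S`, `M / mm M ≅ S^r`. Choose a linear section `τ : S^r → M` of the projection; `h ↦ h τ - τ h : S^r → mm M ≅ S`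
has `r` components which are `ρ`-derivations `BB → End(κ^d)`, hence inner; correcting `τ` by the inner elements it becomes `BB`-linear, `M = mm M ⊕ τ(S^r)`, `mm M = mm (mm M) + mm τ(S^r) = 0`,
contradiction. ALTERNATIVE (no module theory): in `C = BB/mm²` let `nn = mm/mm²`; if `nn ≠ 0` there is a nonzero `End(κ^d)`-bimodule map `θ : nn → End(κ^d)` (matrix coefficients of
`e_{1i} u e_{j1} ∈ e_{11} nn e_{11}`); lift matrix units of `End(κ^d)` to `C` (complete orthogonal idempotents lift, `CompleteOrthogonalIdempotents.lift_of_isNilpotent_ker`), so `C = σ(End) ⊕ nn`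
and `δ(σ(m)+u) = θ(u)` is a derivation, inner, hence zero on `nn` (where `ρ = 0`): contradiction.
-/

namespace SYM
open Polynomial Module

section matrix_version

private theorem ker_idem_mat {κ : Type} [Field κ] {BB : Type} [Ring BB] [Algebra κ BB] {d : ℕ}
    (hd : 0 < d) (R : BB →ₐ[κ] Matrix (Fin d) (Fin d) κ) (hR : Function.Surjective R)
    (hder : ∀ δ : BB →ₗ[κ] Matrix (Fin d) (Fin d) κ,
      (∀ h h', δ (h * h') = δ h * R h' + R h * δ h') → ∀ u, R u = 0 → δ u = 0)
    (u : BB) (hu : R u = 0) :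
    u ∈ Submodule.span κ {w : BB | ∃ v v', R v = 0 ∧ R v' = 0 ∧ w = v * v'} := by
  classical
  by_contra hcon
  obtain ⟨M2, hM2⟩ : ∃ M2 : Submodule κ BB, M2 =
    Submodule.span κ {w : BB | ∃ v v', R v = 0 ∧ R v' = 0 ∧ w = v * v'} := ⟨_, rfl⟩
  rw [← hM2] at hcon
  have hmem : ∀ v v', R v = 0 → R v' = 0 → v * v' ∈ M2 := by
    intro v v' hv hv'
    rw [hM2]
    exact Submodule.subset_span ⟨v, v', hv, hv', rfl⟩
  have hleft : ∀ (h x : BB), x ∈ M2 → h * x ∈ M2 := by
    intro h x hx
    rw [hM2] at hx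
    induction hx using Submodule.span_induction with
    | mem w hw =>
      obtain ⟨v, v', hv, hv', rfl⟩ := hw
      rw [← mul_assoc]
      exact hmem _ _ (by rw [map_mul, hv, mul_zero]) hv'
    | zero => rw [mul_zero]; exact M2.zero_mem
    | add a b _ _ ha hb => rw [mul_add]; exact M2.add_mem ha hb
    | smul r a _ ha => rw [mul_smul_comm]; exact M2.smul_mem r ha
  have hright : ∀ (h x : BB), x ∈ M2 → x * h ∈ M2 := by
    intro h x hx
    rw [hM2] at hx
    induction hx using Submodule.span_induction with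
    | mem w hw =>
      obtain ⟨v, v', hv, hv', rfl⟩ := hw
      rw [mul_assoc]
      exact hmem _ _ hv (by rw [map_mul, hv', zero_mul])
    | zero => rw [zero_mul]; exact M2.zero_mem
    | add a b _ _ ha hb => rw [add_mul]; exact M2.add_mem ha hb
    | smul r a _ ha => rw [smul_mul_assoc]; exact M2.smul_mem r ha
  obtain ⟨i0, -⟩ : ∃ i0 : Fin d, True := ⟨⟨0, hd⟩, trivial⟩
  obtain ⟨E, hE⟩ : ∃ E : Fin d → Fin d → Matrix (Fin d) (Fin d) κ,
    ∀ i j, E i j = Matrix.single i j 1 := ⟨fun i j => Matrix.single i j 1, fun _ _ => rfl⟩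
  have hEE : ∀ i j k, E i j * E j k = E i k := by
    intro i j k
    simp [hE]
  have hsumE : ∑ i, E i i = 1 := by
    simp only [hE]
    ext a b
    rw [Matrix.sum_apply, Matrix.one_apply]
    by_cases hab : a = b
    · subst hab
      rw [Finset.sum_eq_single a]
      · simp
      · intro c _ hc
        rw [Matrix.single_apply_of_ne]
        rintro ⟨h1, h2⟩
        exact hc h1
      · simp
    · rw [if_neg hab]
      apply Finset.sum_eq_zero
      intro c _
      rw [Matrix.single_apply_of_ne]
      rintro ⟨h1, h2⟩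
      exact hab (h1.symm.trans h2)
  have hrow : ∀ (a : Matrix (Fin d) (Fin d) κ) (i j : Fin d),
      E i j * a = ∑ k, a j k • E i k := by
    intro a i j
    simp only [hE]
    ext x y
    rw [Matrix.sum_apply]
    simp only [Matrix.smul_apply, smul_eq_mul]
    by_cases hx : i = x
    · subst hx
      rw [Finset.sum_eq_single y]
      · simp
      · intro c _ hc
        rw [Matrix.single_apply_of_ne, mul_zero]
        rintro ⟨h1, h2⟩
        exact hc h2
      · simp
    · rw [Finset.sum_eq_zero]
      · rw [Matrix.single_mul_apply_of_ne _ _ _ _ _ (Ne.symm hx)]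
      · intro c _
        rw [Matrix.single_apply_of_ne, mul_zero]
        rintro ⟨h1, h2⟩
        exact hx h1
  have hcol : ∀ (a : Matrix (Fin d) (Fin d) κ) (i j : Fin d),
      a * E i j = ∑ k, a k i • E k j := by
    intro a i j
    simp only [hE]
    ext x y
    rw [Matrix.sum_apply]
    simp only [Matrix.smul_apply, smul_eq_mul]
    by_cases hy : j = y
    · subst hy
      rw [Finset.sum_eq_single x]
      · simp
      · intro c _ hc
        rw [Matrix.single_apply_of_ne, mul_zero]
        rintro ⟨h1, h2⟩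
        exact hc h1
      · simp
    · rw [Finset.sum_eq_zero]
      · rw [Matrix.mul_single_apply_of_ne _ _ _ _ _ (Ne.symm hy)]
      · intro c _
        rw [Matrix.single_apply_of_ne, mul_zero]
        rintro ⟨h1, h2⟩
        exact hy h2
  choose s0 hs0 using hR
  obtain ⟨b, hb⟩ : ∃ b : Fin d → Fin d → BB, ∀ i j, R (b i j) = E i j :=
    ⟨fun i j => s0 (E i j), fun i j => hs0 _⟩
  -- a corner outside `M2`
  obtain ⟨i1, j1, hij⟩ : ∃ i j, b i0 i * u * b j i0 ∉ M2 := by
    by_contra hall
    push Not at hall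
    apply hcon
    obtain ⟨e, he⟩ : ∃ e : BB, e = ∑ i, b i i0 * b i0 i := ⟨_, rfl⟩
    have hRe : R e = 1 := by
      rw [he, map_sum, ← hsumE]
      apply Finset.sum_congr rfl
      intro i _
      rw [map_mul, hb, hb, hEE]
    have hein : e * u * e ∈ M2 := by
      have h1 : e * u * e = ∑ i, ∑ j, b i i0 * (b i0 i * u * b j i0) * b i0 j := by
        conv_lhs => rw [he]
        rw [Finset.sum_mul, Finset.sum_mul]
        apply Finset.sum_congr rfl
        intro i _
        rw [Finset.mul_sum]
        apply Finset.sum_congr rfl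
        intro j _
        simp only [mul_assoc]
      rw [h1]
      apply M2.sum_mem
      intro i _
      apply M2.sum_mem
      intro j _
      exact hright _ _ (hleft _ _ (hall i j))
    have hker : R (e - 1) = 0 := by rw [map_sub, hRe, map_one, sub_self]
    have h2 : u = e * u * e - (e - 1) * u - u * (e - 1) - (e - 1) * (u * (e - 1)) := by
      noncomm_ring
    rw [h2]
    apply M2.sub_mem
    · apply M2.sub_mem
      · exact M2.sub_mem hein (hmem _ _ hker hu)
      · exact hmem _ _ hu hker
    · exact hleft _ _ (hmem _ _ hu hker)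
  obtain ⟨f, hf1, hf2⟩ : ∃ f : BB →ₗ[κ] κ, f (b i0 i1 * u * b j1 i0) ≠ 0 ∧ ∀ x ∈ M2, f x = 0 := by
    obtain ⟨f, hpf, hfv⟩ := LinearMap.exists_extend_of_notMem (0 : M2 →ₗ[κ] κ) hij 1
    refine ⟨f, ?_, ?_⟩
    · rw [hfv]; exact one_ne_zero
    · intro x hx
      have h3 := LinearMap.congr_fun hpf ⟨x, hx⟩
      simpa using h3
  -- the bimodule map
  obtain ⟨θ, hθ⟩ : ∃ θ : BB →ₗ[κ] Matrix (Fin d) (Fin d) κ, ∀ x i j,
      θ x i j = f (b i0 i * x * b j i0) := by
    refine ⟨{ toFun := fun x => Matrix.of fun i j => f (b i0 i * x * b j i0)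
              map_add' := ?_
              map_smul' := ?_ }, ?_⟩
    · intro x y
      ext i j
      simp [mul_add, add_mul]
    · intro r x
      ext i j
      simp
    · intro x i j
      rfl
  have hθM2 : ∀ x ∈ M2, θ x = 0 := by
    intro x hx
    ext i j
    rw [hθ, Matrix.zero_apply]
    exact hf2 _ (hright _ _ (hleft _ _ hx))
  have hθl : ∀ h m, R m = 0 → θ (h * m) = R h * θ m := by
    intro h m hm
    ext i j
    rw [hθ, Matrix.mul_apply]
    have h4 : R (b i0 i * h - ∑ k, R h i k • b i0 k) = 0 := by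
      rw [map_sub, map_mul, hb, map_sum]
      simp only [map_smul, hb]
      rw [hrow, sub_self]
    have h5 : b i0 i * (h * m) * b j i0 = (b i0 i * h - ∑ k, R h i k • b i0 k) * m * b j i0 +
        ∑ k, R h i k • (b i0 k * m * b j i0) := by
      rw [sub_mul, sub_mul, Finset.sum_mul, Finset.sum_mul]
      simp only [smul_mul_assoc, mul_assoc, sub_add_cancel]
    rw [h5, map_add, hf2 _ (hright _ _ (hmem _ _ h4 hm)), zero_add, map_sum]
    apply Finset.sum_congr rfl
    intro k _
    rw [map_smul, hθ, smul_eq_mul]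
  have hθr : ∀ h m, R m = 0 → θ (m * h) = θ m * R h := by
    intro h m hm
    ext i j
    rw [hθ, Matrix.mul_apply]
    have h4 : R (h * b j i0 - ∑ k, R h k j • b k i0) = 0 := by
      rw [map_sub, map_mul, hb, map_sum]
      simp only [map_smul, hb]
      rw [hcol, sub_self]
    have h5 : b i0 i * (m * h) * b j i0 = b i0 i * (m * (h * b j i0 - ∑ k, R h k j • b k i0)) +
        ∑ k, R h k j • (b i0 i * m * b k i0) := by
      rw [mul_sub, mul_sub, Finset.mul_sum, Finset.mul_sum]
      simp only [mul_smul_comm, mul_assoc, sub_add_cancel]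
    rw [h5, map_add, hf2 _ (hleft _ _ (hmem _ _ hm h4)), zero_add, map_sum]
    apply Finset.sum_congr rfl
    intro k _
    rw [map_smul, hθ, smul_eq_mul, mul_comm]
  -- a linear section
  obtain ⟨s, hs⟩ : ∃ s : Matrix (Fin d) (Fin d) κ →ₗ[κ] BB, ∀ a, R (s a) = a := by
    have hsur : LinearMap.range R.toLinearMap = ⊤ := by
      rw [LinearMap.range_eq_top]
      intro a
      exact ⟨s0 a, hs0 a⟩
    obtain ⟨s, hs⟩ := R.toLinearMap.exists_rightInverse_of_surjective hsur
    exact ⟨s, fun a => LinearMap.congr_fun hs a⟩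
  obtain ⟨c, hc⟩ : ∃ c : Matrix (Fin d) (Fin d) κ →ₗ[κ] Matrix (Fin d) (Fin d) κ →ₗ[κ]
      Matrix (Fin d) (Fin d) κ, ∀ x y, c x y = θ (s x * s y - s (x * y)) := by
    refine ⟨LinearMap.mk₂ κ (fun x y => θ (s x * s y - s (x * y))) ?_ ?_ ?_ ?_, ?_⟩
    · intro x x' y
      rw [← map_add]
      congr 1
      simp only [map_add, add_mul]
      abel
    · intro r x y
      rw [← map_smul]
      congr 1
      simp only [map_smul, smul_mul_assoc, smul_sub]
    · intro x y y'
      rw [← map_add]
      congr 1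
      simp only [map_add, mul_add]
      abel
    · intro r x y
      rw [← map_smul]
      congr 1
      simp only [map_smul, mul_smul_comm, smul_sub]
    · intro x y
      rfl
  have hγ : ∀ x y, R (s x * s y - s (x * y)) = 0 := by
    intro x y
    rw [map_sub, map_mul, hs, hs, hs, sub_self]
  have hcoc : ∀ x y z, c x (y * z) + x * c y z = c (x * y) z + c x y * z := by
    intro x y z
    have h6 : x * c y z = θ (s x * (s y * s z - s (y * z))) := by
      rw [hθl _ _ (hγ y z), hs, hc]
    have h7 : c x y * z = θ ((s x * s y - s (x * y)) * s z) := by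
      rw [hθr _ _ (hγ x y), hs, hc]
    rw [h6, h7, hc, hc, ← map_add, ← map_add]
    congr 1
    rw [mul_assoc x y z]
    noncomm_ring
  obtain ⟨G, hG⟩ : ∃ G : Matrix (Fin d) (Fin d) κ →ₗ[κ] Matrix (Fin d) (Fin d) κ,
      ∀ x, G x = ∑ i, E i i0 * c (E i0 i) x := by
    refine ⟨∑ i, (LinearMap.mulLeft κ (E i i0)) ∘ₗ (c (E i0 i)), ?_⟩
    intro x
    rw [LinearMap.sum_apply]
    rfl
  have hGc : ∀ x y, c x y + G (x * y) = G x * y + x * G y := by
    intro x y
    have h8 : ∑ i, E i i0 * (c (E i0 i) (x * y) + E i0 i * c x y) =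
        ∑ i, E i i0 * (c (E i0 i * x) y + c (E i0 i) x * y) :=
      Finset.sum_congr rfl (fun i _ => by rw [hcoc])
    have h9 : ∑ i, E i i0 * (c (E i0 i) (x * y) + E i0 i * c x y) = G (x * y) + c x y := by
      rw [hG]
      simp only [mul_add, Finset.sum_add_distrib]
      congr 1
      simp only [← mul_assoc, hEE]
      rw [← Finset.sum_mul, hsumE, one_mul]
    have h10 : ∑ i, E i i0 * (c (E i0 i * x) y + c (E i0 i) x * y) = x * G y + G x * y := by
      rw [hG, hG]
      simp only [mul_add, Finset.sum_add_distrib]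
      congr 1
      · simp only [hrow x, map_sum, map_smul, LinearMap.sum_apply, LinearMap.smul_apply,
          Finset.mul_sum]
        rw [Finset.sum_comm]
        apply Finset.sum_congr rfl
        intro k _
        rw [← mul_assoc, hcol, Finset.sum_mul]
        apply Finset.sum_congr rfl
        intro i _
        rw [mul_smul_comm, smul_mul_assoc]
      · rw [Finset.sum_mul]
        simp only [mul_assoc]
    rw [add_comm (c x y), ← h9, h8, h10, add_comm]
  -- the derivation
  have hfin := hder (θ - θ ∘ₗ s ∘ₗ R.toLinearMap + G ∘ₗ R.toLinearMap) ?_ u hu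
  · have h11 : θ u = 0 := by
      simpa [hu] using hfin
    apply hf1
    rw [← hθ, h11, Matrix.zero_apply]
  · intro h h'
    simp only [LinearMap.add_apply, LinearMap.sub_apply, LinearMap.comp_apply,
      AlgHom.toLinearMap_apply]
    have hm : R (h - s (R h)) = 0 := by rw [map_sub, hs, sub_self]
    have hm' : R (h' - s (R h')) = 0 := by rw [map_sub, hs, sub_self]
    have h12 : h * h' = (h - s (R h)) * (h' - s (R h')) + (h - s (R h)) * s (R h') +
        s (R h) * (h' - s (R h')) + (s (R h) * s (R h') - s (R h * R h')) + s (R h * R h') := by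
      noncomm_ring
    have h13 : θ (h * h') = (θ h - θ (s (R h))) * R h' + R h * (θ h' - θ (s (R h'))) +
        c (R h) (R h') + θ (s (R h * R h')) := by
      conv_lhs => rw [h12]
      rw [map_add, map_add, map_add, map_add, hθM2 _ (hmem _ _ hm hm'), zero_add,
        hθr _ _ hm, hθl _ _ hm', hs, hs, hc, map_sub, map_sub]
    rw [h13, show R (h * h') = R h * R h' from map_mul R h h']
    have h14 := hGc (R h) (R h')
    have h15 : G (R h * R h') = G (R h) * R h' + R h * G (R h') - c (R h) (R h') := by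
      rw [← h14]; abel
    rw [h15, add_mul, mul_add]
    abel

end matrix_version

theorem ker_idem {κ : Type} [Field κ] {BB : Type} [Ring BB] [Algebra κ BB]
    [FiniteDimensional κ BB] {d : ℕ} (hd : 0 < d)
    (ρ : BB →ₐ[κ] Module.End κ (Fin d → κ)) (hρ : Function.Surjective ρ)
    (hder : ∀ δ : BB →ₗ[κ] Module.End κ (Fin d → κ),
      (∀ h h', δ (h * h') = δ h * ρ h' + ρ h * δ h') → ∃ s, ∀ h, δ h = s * ρ h - ρ h * s)
    (u : BB) (hu : ρ u = 0) :
    u ∈ Submodule.span κ {w : BB | ∃ v v', ρ v = 0 ∧ ρ v' = 0 ∧ w = v * v'} := by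
  obtain ⟨e, he⟩ : ∃ e : Module.End κ (Fin d → κ) ≃ₐ[κ] Matrix (Fin d) (Fin d) κ, True :=
    ⟨LinearMap.toMatrixAlgEquiv', trivial⟩
  have hk : ∀ v, (e.toAlgHom.comp ρ) v = 0 ↔ ρ v = 0 := by
    intro v
    rw [AlgHom.comp_apply]
    exact map_eq_zero_iff e e.injective
  have hmain := ker_idem_mat hd (e.toAlgHom.comp ρ) (e.surjective.comp hρ) ?_ u ((hk u).2 hu)
  · have hset : {w : BB | ∃ v v', (e.toAlgHom.comp ρ) v = 0 ∧ (e.toAlgHom.comp ρ) v' = 0 ∧
        w = v * v'} = {w : BB | ∃ v v', ρ v = 0 ∧ ρ v' = 0 ∧ w = v * v'} := by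
      ext w
      simp only [Set.mem_ofPred_eq, hk]
    rw [hset] at hmain
    exact hmain
  · intro δ hδ u' hu'
    obtain ⟨t, ht⟩ := hder (e.symm.toLinearEquiv.toLinearMap ∘ₗ δ) (by
      intro h h'
      have h1 := hδ h h'
      apply e.injective
      simp only [LinearMap.comp_apply, LinearEquiv.coe_coe, AlgEquiv.toLinearEquiv_apply, map_add,
        map_mul, AlgEquiv.apply_symm_apply]
      rw [h1]
      rfl)
    have h2 := ht u'
    rw [(hk u').1 hu', mul_zero, zero_mul, sub_zero] at h2
    have h3 : e.symm (δ u') = 0 := h2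
    exact (map_eq_zero_iff e.symm e.symm.injective).1 h3

end SYM
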