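import Pool.Agent.Lib.MP_b1ea0f_al.Defs4

/-!
# NIdem: rank one idempotents lift

Lift a rank one idempotent of `End(κ^{d_j})` (zero in the other factors) along `BB → ∏ End` (surjective with nilpotent kernel): `exists_isIdempotentElem_eq_of_ker_isNilpotent`.
-/

namespace SYM
open Polynomial Module

theorem exists_idem {κ : Type} [Field κ] {BB : Type} [Ring BB] [Algebra κ BB] (w : Wed κ BB) (j : Fin w.r) :
    ∃ e : BB, e * e = e ∧ finrank κ (LinearMap.range (w.ρ j e)) = 1 ∧
      LinearMap.trace κ _ (w.ρ j e) = 1 ∧ ∀ i, i ≠ j → w.ρ i e = 0 := by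
  classical
  let l0 : Fin (w.d j) := ⟨0, w.pos j⟩
  let p : Module.End κ (Fin (w.d j) → κ) :=
    (LinearMap.proj l0 : (Fin (w.d j) → κ) →ₗ[κ] κ).smulRight (Pi.single l0 1)
  have hp : ∀ y, p y = y l0 • Pi.single l0 1 := fun _ => rfl
  have hpp : p * p = p := by
    ext y l
    simp [hp]
  let f : BB →+* (∀ i, Module.End κ (Fin (w.d i) → κ)) :=
    RingHom.pi fun i => ((w.ρ i : BB →ₐ[κ] Module.End κ (Fin (w.d i) → κ)) :
      BB →+* Module.End κ (Fin (w.d i) → κ))
  have hf : ∀ h i, f h i = w.ρ i h := fun _ _ => rfl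
  obtain ⟨N, hN⟩ := w.nil
  obtain ⟨e, he, hfe⟩ := exists_isIdempotentElem_eq_of_ker_isNilpotent f
    (fun x hx => ⟨N, by
      have h1 := hN (List.replicate N x) (List.length_replicate ..) (fun h hh i => by
        rw [List.eq_of_mem_replicate hh, ← hf, (RingHom.mem_ker).1 hx]
        rfl)
      rwa [List.prod_replicate] at h1⟩)
    (Pi.single j p) (by
      obtain ⟨h, hh⟩ := w.surj (Pi.single j p)
      exact ⟨h, funext fun i => by rw [hf, hh i]⟩)
    (by
      unfold IsIdempotentElem
      rw [← Pi.single_mul, hpp])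
  have hej : w.ρ j e = p := by
    rw [← hf, hfe, Pi.single_eq_same]
  refine ⟨e, he, ?_, ?_, fun i hi => ?_⟩
  · rw [hej]
    have hr : LinearMap.range p = Submodule.span κ {(Pi.single l0 1 : Fin (w.d j) → κ)} := by
      apply le_antisymm
      · rintro _ ⟨y, rfl⟩
        rw [hp]
        exact Submodule.smul_mem _ _ (Submodule.mem_span_singleton_self _)
      · rw [Submodule.span_singleton_le_iff_mem]
        exact ⟨Pi.single l0 1, by simp [hp]⟩
    rw [hr]
    apply finrank_span_singleton
    intro h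
    have := congrFun h l0
    simp at this
  · rw [hej]
    change LinearMap.trace κ _ (LinearMap.smulRight _ _) = 1
    rw [LinearMap.trace_smulRight]
    simp
  · rw [← hf, hfe, Pi.single_eq_of_ne hi]

end SYM
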