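import Pool.Agent.Lib.MP_b1ea0f_al.Defs4

/-!
# WMult: composition multiplicities: trace of a module = sum m_i tr rho_i

Composition multiplicities. Make `V` a `BB`-module through `σ` (`Module.compHom`). Induction on `dim V`: `V = 0` clear; otherwise take a simple submodule `U`; the radical
(common kernel of the `ρ_i`, nilpotent by `nil`) kills `U`, so `U` is a simple module over `∏ End(κ^{d_i})`, i.e. isomorphic to one `κ^{d_i}` [the central idempotents split `U`; a simple module over
`End(κ^d)` is isomorphic to `κ^d`: pick `v ≠ 0` and a rank one idempotent]; traces are additive for `U ⊆ V`, `V/U`.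
The second statement: same induction with dimensions is the case `h = 1` in characteristic zero, but we want it in `ℕ`.
-/

namespace SYM
open Polynomial Module

open Module.Basis in
private theorem trace_split {κ V : Type} [Field κ] [AddCommGroup V] [Module κ V]
    [FiniteDimensional κ V] (W : Submodule κ V) (e : V →ₗ[κ] V) (he : W ≤ W.comap e) :
    LinearMap.trace κ V e = LinearMap.trace κ W (e.restrict he) +
      LinearMap.trace κ (V ⧸ W) (W.mapQ W e he) := by
  classical
  let m := Module.Free.ChooseBasisIndex κ W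
  let bW : Basis m κ W := Module.Free.chooseBasis κ W
  let n := Module.Free.ChooseBasisIndex κ (V ⧸ W)
  let bQ : Basis n κ (V ⧸ W) := Module.Free.chooseBasis κ (V ⧸ W)
  let b := sumQuot bW bQ
  rw [LinearMap.trace_eq_matrix_trace κ b, LinearMap.trace_eq_matrix_trace κ bW,
    LinearMap.trace_eq_matrix_trace κ bQ]
  simp only [Matrix.trace, Matrix.diag_apply]
  rw [Fintype.sum_sum_type]
  congr 1
  · refine Finset.sum_congr rfl fun i _ => ?_
    simp only [b, sumQuot_inl, LinearMap.toMatrix_apply]
    apply sumQuot_repr_inl_of_mem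
  · refine Finset.sum_congr rfl fun j _ => ?_
    simp only [LinearMap.toMatrix_apply, sumQuot_repr_inr, b]
    rw [← sumQuot_inr bW bQ j, W.mapQ_apply]
    simp

section
variable {κ : Type} [Field κ] {BB : Type} [Ring BB] [Algebra κ BB] (w : Wed κ BB)
  {V : Type} [AddCommGroup V] [Module κ V]

/-- the rank one map `y ↦ y j • x` -/
private def r1 {d : ℕ} (j : Fin d) : (Fin d → κ) →ₗ[κ] Module.End κ (Fin d → κ) where
  toFun x := (LinearMap.proj j : (Fin d → κ) →ₗ[κ] κ).smulRight x
  map_add' := by intro x y; ext; simp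
  map_smul' := by intro c x; ext; simp [mul_left_comm]

private theorem r1_apply {d : ℕ} (j : Fin d) (x y : Fin d → κ) :
    r1 j x y = y j • x := rfl

private theorem rad_zero [FiniteDimensional κ V] (σ : BB →ₐ[κ] Module.End κ V)
    (U : Submodule κ V) (hinv : ∀ h, ∀ u ∈ U, σ h u ∈ U) (hU : U ≠ ⊥)
    (hmin : ∀ U' : Submodule κ V, U' ≤ U → (∀ h, ∀ u ∈ U', σ h u ∈ U') → U' ≠ ⊥ → U' = U)
    (h : BB) (hh : ∀ i, w.ρ i h = 0) (u : V) (hu : u ∈ U) : σ h u = 0 := by
  obtain ⟨N, hN⟩ := w.nil
  -- the submodule `Rad^k U`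
  let S : Set BB := {h | ∀ i, w.ρ i h = 0}
  let R : Submodule κ V := Submodule.span κ {v | ∃ h ∈ S, ∃ u ∈ U, v = σ h u}
  have hRU : R ≤ U := by
    refine Submodule.span_le.2 ?_
    rintro v ⟨h, -, u, hu, rfl⟩
    exact hinv h u hu
  have hRinv : ∀ h, ∀ u ∈ R, σ h u ∈ R := by
    intro h u hu
    have : R ≤ R.comap (σ h) := by
      refine Submodule.span_le.2 ?_
      rintro v ⟨h', hh', u, hu, rfl⟩
      refine Submodule.subset_span ⟨h * h', ?_, u, hu, ?_⟩
      · intro i
        rw [map_mul, hh' i, mul_zero]
      · rw [map_mul]; rfl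
    exact this hu
  by_cases hR : R = ⊥
  · have : σ h u ∈ R := Submodule.subset_span ⟨h, hh, u, hu, rfl⟩
    rw [hR] at this
    exact (Submodule.mem_bot κ).1 this
  · exfalso
    have hRe := hmin R hRU hRinv hR
    -- `U` is spanned by products of `k` elements of the radical
    have key : ∀ k : ℕ, U ≤ Submodule.span κ {v | ∃ l : List BB, l.length = k ∧
        (∀ h ∈ l, ∀ i, w.ρ i h = 0) ∧ ∃ u ∈ U, v = σ l.prod u} := by
      intro k
      induction k with
      | zero =>
        intro u hu
        exact Submodule.subset_span ⟨[], rfl, by simp, u, hu, by simp⟩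
      | succ k ih =>
        have h1 : R ≤ Submodule.span κ {v | ∃ l : List BB, l.length = k + 1 ∧
            (∀ h ∈ l, ∀ i, w.ρ i h = 0) ∧ ∃ u ∈ U, v = σ l.prod u} := by
          refine Submodule.span_le.2 ?_
          rintro v ⟨h, hh, u, hu, rfl⟩
          have h2 : Submodule.span κ {v | ∃ l : List BB, l.length = k ∧
              (∀ h ∈ l, ∀ i, w.ρ i h = 0) ∧ ∃ u ∈ U, v = σ l.prod u} ≤
              (Submodule.span κ {v | ∃ l : List BB, l.length = k + 1 ∧
              (∀ h ∈ l, ∀ i, w.ρ i h = 0) ∧ ∃ u ∈ U, v = σ l.prod u}).comap (σ h) := by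
            refine Submodule.span_le.2 ?_
            rintro v ⟨l, hl, hl', u, hu, rfl⟩
            refine Submodule.subset_span ⟨h :: l, by simp [hl], ?_, u, hu, ?_⟩
            · intro h' hm
              rcases List.mem_cons.1 hm with rfl | hm
              · exact hh
              · exact hl' h' hm
            · rw [List.prod_cons, map_mul]; rfl
          exact h2 (ih hu)
        rw [hRe] at h1
        exact h1
    have h3 : U ≤ ⊥ := by
      refine (key N).trans (Submodule.span_le.2 ?_)
      rintro v ⟨l, hl, hl', u, hu, rfl⟩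
      rw [hN l hl hl']
      simp
    exact hU (le_bot_iff.1 h3)

private theorem simple_iso [FiniteDimensional κ V] (σ : BB →ₐ[κ] Module.End κ V)
    (U : Submodule κ V) (hinv : ∀ h, ∀ u ∈ U, σ h u ∈ U) (hU : U ≠ ⊥)
    (hmin : ∀ U' : Submodule κ V, U' ≤ U → (∀ h, ∀ u ∈ U', σ h u ∈ U') → U' ≠ ⊥ → U' = U) :
    ∃ (i : Fin w.r) (φ : (Fin (w.d i) → κ) →ₗ[κ] V), Function.Injective φ ∧
      LinearMap.range φ = U ∧ ∀ h x, φ (w.ρ i h x) = σ h (φ x) := by
  classical
  have hrad := rad_zero w σ U hinv hU hmin
  -- `σ h u` depends only on the `ρ_i h`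
  have hdep : ∀ h h', (∀ i, w.ρ i h = w.ρ i h') → ∀ u ∈ U, σ h u = σ h' u := by
    intro h h' hh u hu
    have := hrad (h - h') (fun i => by rw [map_sub, hh i, sub_self]) u hu
    rw [map_sub] at this
    exact sub_eq_zero.1 this
  -- lifts
  have hE : ∀ i (f : Module.End κ (Fin (w.d i) → κ)), ∃ h, w.ρ i h = f ∧
      ∀ j, j ≠ i → w.ρ j h = 0 := by
    intro i f
    obtain ⟨h, hh⟩ := w.surj (Pi.single i f)
    refine ⟨h, by rw [hh i, Pi.single_eq_same], fun j hj => ?_⟩
    rw [hh j, Pi.single_eq_of_ne hj]
  choose E hE1 hE2 using hE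
  obtain ⟨u, hu, hu0⟩ := Submodule.exists_mem_ne_zero_of_ne_bot hU
  -- the idempotents
  have hsum : u = ∑ i, ∑ j, σ (E i (r1 j (Pi.single j 1))) u := by
    have h1 : ∀ k, w.ρ k (∑ i, ∑ j, E i (r1 j (Pi.single j 1))) = w.ρ k 1 := by
      intro k
      rw [map_sum, Finset.sum_eq_single k]
      · rw [map_sum]
        simp only [hE1]
        ext y l
        simp only [LinearMap.comp_apply, LinearMap.coe_single, LinearMap.sum_apply, r1_apply,
          map_one, Module.End.one_apply]
        rw [Finset.sum_eq_single y]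
        · simp
        · intro b _ hb
          rw [Pi.single_eq_of_ne hb, zero_smul]
        · intro h; exact absurd (Finset.mem_univ _) h
      · intro i _ hik
        rw [map_sum]
        exact Finset.sum_eq_zero fun j _ => hE2 i _ k (Ne.symm hik)
      · intro h; exact absurd (Finset.mem_univ _) h
    have h2 := hdep _ _ h1 u hu
    rw [map_one] at h2
    rw [map_sum] at h2
    simp only [map_sum, LinearMap.sum_apply] at h2
    exact h2.symm
  obtain ⟨i, hi⟩ : ∃ i, ∑ j, σ (E i (r1 j (Pi.single j 1))) u ≠ 0 := by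
    by_contra hcon
    push Not at hcon
    exact hu0 (by rw [hsum]; exact Finset.sum_eq_zero fun i _ => hcon i)
  obtain ⟨j, hj⟩ : ∃ j, σ (E i (r1 j (Pi.single j 1))) u ≠ 0 := by
    by_contra hcon
    push Not at hcon
    exact hi (Finset.sum_eq_zero fun j _ => hcon j)
  -- linearity of the lifts on `U`
  set v := σ (E i (r1 j (Pi.single j 1))) u with hv
  have hvU : v ∈ U := hinv _ u hu
  let φ : (Fin (w.d i) → κ) →ₗ[κ] V :=
    { toFun := fun x => σ (E i (r1 j x)) v
      map_add' := by
        intro x y
        rw [← LinearMap.add_apply, ← map_add]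
        refine hdep _ _ (fun k => ?_) v hvU
        by_cases hk : k = i
        · subst hk
          simp only [map_add, hE1]
        · simp only [map_add, hE2 i _ k hk, add_zero]
      map_smul' := by
        intro c x
        rw [RingHom.id_apply, ← LinearMap.smul_apply, ← map_smul]
        refine hdep _ _ (fun k => ?_) v hvU
        by_cases hk : k = i
        · subst hk
          simp only [map_smul, hE1]
        · simp only [map_smul, hE2 i _ k hk, smul_zero] }
  have hφ : ∀ x, φ x = σ (E i (r1 j x)) v := fun _ => rfl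
  have heq : ∀ h x, φ (w.ρ i h x) = σ h (φ x) := by
    intro h x
    rw [hφ, hφ]
    have : σ h (σ (E i (r1 j x)) v) = σ (h * E i (r1 j x)) v := by rw [map_mul]; rfl
    rw [this]
    refine hdep _ _ (fun k => ?_) v hvU
    by_cases hk : k = i
    · subst hk
      rw [map_mul, hE1, hE1]
      ext y l
      simp [r1_apply]
    · rw [map_mul, hE2 i _ k hk, hE2 i _ k hk, mul_zero]
  have hφj : φ (Pi.single j 1) ≠ 0 := by
    rw [hφ]
    have h1 : σ (E i (r1 j (Pi.single j 1))) v =
        σ (E i (r1 j (Pi.single j 1)) * E i (r1 j (Pi.single j 1))) u := by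
      rw [hv, map_mul]; rfl
    rw [h1]
    have h2 : σ (E i (r1 j (Pi.single j 1)) * E i (r1 j (Pi.single j 1))) u =
        σ (E i (r1 j (Pi.single j 1))) u := by
      refine hdep _ _ (fun k => ?_) u hu
      by_cases hk : k = i
      · subst hk
        rw [map_mul, hE1]
        ext y l
        simp [r1_apply]
      · rw [map_mul, hE2 i _ k hk, mul_zero]
    rw [h2]
    exact hj
  refine ⟨i, φ, ?_, ?_, heq⟩
  · rw [← LinearMap.ker_eq_bot, Submodule.eq_bot_iff]
    intro x hx
    by_contra hx0
    obtain ⟨l, hl⟩ : ∃ l, x l ≠ 0 := by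
      by_contra hcon
      push Not at hcon
      exact hx0 (funext hcon)
    apply hφj
    have h1 := heq (E i (r1 l ((x l)⁻¹ • Pi.single j 1))) x
    rw [hE1, r1_apply, smul_smul, mul_inv_cancel₀ hl, one_smul, LinearMap.mem_ker.1 hx,
      map_zero] at h1
    exact h1
  · apply hmin
    · rintro _ ⟨x, rfl⟩
      exact hinv _ v hvU
    · rintro h _ ⟨x, rfl⟩
      exact ⟨w.ρ i h x, heq h x⟩
    · intro h
      apply hφj
      have : φ (Pi.single j 1) ∈ LinearMap.range φ := ⟨_, rfl⟩
      rw [h] at this
      exact (Submodule.mem_bot κ).1 this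

end

theorem Wed.exists_mult {κ : Type} [Field κ] [IsAlgClosed κ] {BB : Type} [Ring BB] [Algebra κ BB]
    [FiniteDimensional κ BB] (w : Wed κ BB) {V : Type} [AddCommGroup V] [Module κ V]
    [FiniteDimensional κ V] (σ : BB →ₐ[κ] Module.End κ V) :
    ∃ m : Fin w.r → ℕ, (∀ h, LinearMap.trace κ V (σ h) =
      ∑ i, (m i : κ) * LinearMap.trace κ _ (w.ρ i h)) ∧ finrank κ V = ∑ i, m i * w.d i ∧
      ∀ y : BB, (∀ h, y * h = h * y) → ∀ c : κ, σ y = c • 1 → ∀ i, m i ≠ 0 → w.ρ i y = c • 1 := by
  classical
  induction hn : finrank κ V using Nat.strong_induction_on generalizing V with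
  | _ n ih =>
  subst hn
  by_cases h0 : finrank κ V = 0
  · refine ⟨0, fun h => ?_, by simp [h0], fun y _ c _ i hi => absurd rfl hi⟩
    have : Subsingleton V := finrank_zero_iff.1 h0
    have h1 : σ h = 0 := by
      ext v
      exact Subsingleton.elim _ _
    simp [h1]
  · -- a minimal invariant subspace
    have hex : ∃ k, ∃ U : Submodule κ V, (∀ h, ∀ u ∈ U, σ h u ∈ U) ∧ U ≠ ⊥ ∧ finrank κ U = k := by
      refine ⟨_, ⊤, fun h u _ => trivial, ?_, rfl⟩
      intro h
      apply h0
      rw [← finrank_top κ V, h, finrank_bot]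
    obtain ⟨U, hinv, hU, hk⟩ := Nat.find_spec hex
    have hmin : ∀ U' : Submodule κ V, U' ≤ U → (∀ h, ∀ u ∈ U', σ h u ∈ U') → U' ≠ ⊥ → U' = U := by
      intro U' hle hinv' hne
      apply Submodule.eq_of_le_of_finrank_le hle
      rw [hk]
      exact Nat.find_min' hex ⟨U', hinv', hne, rfl⟩
    obtain ⟨i, φ, hφi, hφr, hφe⟩ := simple_iso w σ U hinv hU hmin
    -- the quotient
    let τ : BB →ₐ[κ] Module.End κ (V ⧸ U) :=
      { toFun := fun h => U.mapQ U (σ h) (hinv h)
        map_one' := by
          ext x
          simp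
        map_mul' := by
          intro a b
          ext x
          simp
        map_zero' := by
          ext x
          simp
        map_add' := by
          intro a b
          ext x
          simp
        commutes' := by
          intro c
          ext x
          simp [Module.algebraMap_end_apply] }
    have hτ : ∀ h, τ h = U.mapQ U (σ h) (hinv h) := fun _ => rfl
    have hpos : 0 < finrank κ U := by
      rcases Nat.eq_zero_or_pos (finrank κ U) with h | h
      · exact absurd (Submodule.finrank_eq_zero.1 h) hU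
      · exact h
    have hfr := Submodule.finrank_quotient_add_finrank (R := κ) U
    obtain ⟨m, hm1, hm2, hm3⟩ := ih (finrank κ (V ⧸ U)) (by omega) τ rfl
    -- `U ≅ κ^{d_i}`
    let e : (Fin (w.d i) → κ) ≃ₗ[κ] U :=
      (LinearEquiv.ofInjective φ hφi).trans (LinearEquiv.ofEq _ _ hφr)
    have he : ∀ x, ((e x : U) : V) = φ x := fun _ => rfl
    have hfU : finrank κ U = w.d i := by
      rw [← LinearEquiv.finrank_eq e]; simp
    refine ⟨m + Pi.single i 1, fun h => ?_, ?_, ?_⟩
    · rw [trace_split U (σ h) (hinv h), ← hτ, hm1]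
      have h1 : (σ h).restrict (hinv h) = e.conj (w.ρ i h) := by
        ext u
        rw [LinearEquiv.conj_apply_apply, he, hφe, ← he, LinearEquiv.apply_symm_apply]
        rfl
      rw [h1, LinearMap.trace_conj', add_comm]
      simp only [Pi.add_apply, Nat.cast_add, add_mul, Finset.sum_add_distrib]
      congr 1
      rw [Finset.sum_eq_single i]
      · simp
      · intro j _ hj
        rw [Pi.single_eq_of_ne hj]; simp
      · intro h; exact absurd (Finset.mem_univ _) h
    · rw [← hfr, hfU, hm2]
      simp only [Pi.add_apply, add_mul, Finset.sum_add_distrib]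
      congr 1
      rw [Finset.sum_eq_single i]
      · simp
      · intro j _ hj
        rw [Pi.single_eq_of_ne hj]; simp
      · intro h; exact absurd (Finset.mem_univ _) h
    · intro y hy c hc j hj
      by_cases hji : j = i
      · subst hji
        ext x l
        have h1 := hφe y (Pi.single x 1)
        rw [hc] at h1
        have h2 : φ (w.ρ j y (Pi.single x 1)) = φ (c • Pi.single x 1) := by
          rw [h1, map_smul]; rfl
        have h3 := hφi h2
        simp only [LinearMap.comp_apply, LinearMap.coe_single]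
        rw [h3]
        rfl
      · apply hm3 y hy c _ j
        · intro h
          apply hj
          rw [Pi.add_apply, h, Pi.single_eq_of_ne hji, add_zero]
        · rw [hτ]
          ext x
          simp [hc]

end SYM
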