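import Pool.Agent.Lib.MP_b1ea0f_al.Defs4
import Pool.Agent.Lib.MP_b1ea0f_al.WMult

/-!
# NCount: counting lemma dim V = sum d_j dim e_j V

Counting lemma. Induction on `dim V` as in WMult (simple submodule `U ≅ κ^{d_i}`; `finrank (range (σ e))` is additive for idempotents; on `κ^{d_i}` it is `δ_{ij}`). (Or: in characteristic 0 from `Wed.exists_mult`: `finrank(range σ(e_j)) = tr σ(e_j) = m_j`. We only need characteristic 0!)
-/

namespace SYM
open Polynomial Module

theorem counting {κ : Type} [Field κ] [IsAlgClosed κ] [CharZero κ] {BB : Type} [Ring BB]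
    [Algebra κ BB] [FiniteDimensional κ BB] (w : Wed κ BB) (e : Fin w.r → BB)
    (he : ∀ j, e j * e j = e j) (h1 : ∀ j, LinearMap.trace κ _ (w.ρ j (e j)) = 1)
    (h0 : ∀ i j, i ≠ j → w.ρ i (e j) = 0) {V : Type} [AddCommGroup V] [Module κ V]
    [FiniteDimensional κ V] (σ : BB →ₐ[κ] Module.End κ V) :
    finrank κ V = ∑ j, w.d j * finrank κ (LinearMap.range (σ (e j))) := by
  obtain ⟨m, hm1, hm2, -⟩ := w.exists_mult σ
  rw [hm2]
  refine Finset.sum_congr rfl fun j _ => ?_
  rw [mul_comm]
  congr 1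
  have hid : IsIdempotentElem (σ (e j)) := by
    unfold IsIdempotentElem
    rw [← map_mul, he j]
  have hp : LinearMap.IsProj (LinearMap.range (σ (e j))) (σ (e j)) :=
    LinearMap.isProj_range_iff_isIdempotentElem (σ (e j)) |>.2 hid
  have ht := hp.trace
  have h2 := hm1 (e j)
  rw [ht, Finset.sum_eq_single j, h1 j, mul_one] at h2
  · exact_mod_cast h2.symm
  · intro i _ hij
    rw [h0 i j hij, map_zero, mul_zero]
  · intro h; exact absurd (Finset.mem_univ _) h

end SYM
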