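import Pool.Agent.Lib.MP_b1ea0f_al.Defs4
import Pool.Agent.Lib.MP_b1ea0f_al.NCount
import Pool.Agent.Lib.MP_b1ea0f_al.NIdem

/-!
# NPeirce: Peirce decomposition of a symmetric algebra: dimensions

`finrank BB = ∑_j d_j finrank (e_j BB)` (counting for left multiplication on `BB`), `finrank (e_j BB) = finrank (BB e_j)` (the non-degenerate form `t` pairs `BB e_j` and `e_j BB` perfectly), `finrank (BB e_j) = ∑_k d_k finrank (e_k BB e_j)` (counting for left multiplication on the submodule `BB e_j`).
-/

namespace SYM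
open Polynomial Module

section
variable {κ : Type} [Field κ] {BB : Type} [Ring BB] [Algebra κ BB]

/-- left multiplication on `BB e` -/
private noncomputable def npAct (e : BB) :
    BB →ₐ[κ] Module.End κ (LinearMap.range (LinearMap.mulRight κ e)) :=
  AlgHom.ofLinearMap
    { toFun := fun h => (LinearMap.mulLeft κ h).restrict (p := LinearMap.range (LinearMap.mulRight κ e))
        (q := LinearMap.range (LinearMap.mulRight κ e)) (by
          rintro _ ⟨y, rfl⟩
          exact ⟨h * y, by simp [mul_assoc]⟩)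
      map_add' := by
        intro h h'
        ext x
        simp [add_mul]
      map_smul' := by
        intro c h
        ext x
        simp }
    (by
      ext x
      simp)
    (by
      intro h h'
      ext x
      simp)

private theorem npAct_apply (e h : BB) (x : LinearMap.range (LinearMap.mulRight κ e)) :
    ((npAct e h x : LinearMap.range (LinearMap.mulRight κ e)) : BB) = h * x := rfl

private theorem npAct_range (e f : BB) :
    finrank κ (LinearMap.range (npAct (κ := κ) e f)) =
      finrank κ (LinearMap.range (LinearMap.mulLeft κ f ∘ₗ LinearMap.mulRight κ e)) := by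
  rw [← Submodule.finrank_map_subtype_eq (LinearMap.range (LinearMap.mulRight κ e))
    (LinearMap.range (npAct (κ := κ) e f))]
  have h1 : (LinearMap.range (npAct (κ := κ) e f)).map
      (LinearMap.range (LinearMap.mulRight κ e)).subtype =
        LinearMap.range (LinearMap.mulLeft κ f ∘ₗ LinearMap.mulRight κ e) := by
    ext y
    constructor
    · rintro ⟨_, ⟨⟨_, ⟨z, rfl⟩⟩, rfl⟩, rfl⟩
      exact ⟨z, rfl⟩
    · rintro ⟨z, rfl⟩
      exact ⟨_, ⟨⟨_, ⟨z, rfl⟩⟩, rfl⟩, rfl⟩
  rw [h1]

private theorem np_adj [FiniteDimensional κ BB] (t : BB →ₗ[κ] κ)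
    (hnd : ∀ h, (∀ h', t (h * h') = 0) → h = 0) (e : BB) :
    finrank κ (LinearMap.range (LinearMap.mulLeft κ e)) =
      finrank κ (LinearMap.range (LinearMap.mulRight κ e)) := by
  let Φ : BB →ₗ[κ] Module.Dual κ BB := (LinearMap.mul κ BB).compr₂ t
  have hΦ : ∀ h h', Φ h h' = t (h * h') := fun h h' => rfl
  have hinj : Function.Injective Φ := by
    rw [injective_iff_map_eq_zero]
    intro h hh
    refine hnd h fun h' => ?_
    rw [← hΦ, hh]
    rfl
  have hsurj : Function.Surjective Φ :=
    (LinearMap.injective_iff_surjective_of_finrank_eq_finrank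
      (Subspace.dual_finrank_eq (K := κ) (V := BB)).symm).1 hinj
  have hcomp : Φ ∘ₗ LinearMap.mulRight κ e = (LinearMap.mulLeft κ e).dualMap ∘ₗ Φ := by
    ext h h'
    simp only [LinearMap.comp_apply, LinearMap.mulRight_apply, LinearMap.dualMap_apply,
      LinearMap.mulLeft_apply, hΦ, mul_assoc]
  have h1 : finrank κ (LinearMap.range (Φ ∘ₗ LinearMap.mulRight κ e)) =
      finrank κ (LinearMap.range (LinearMap.mulRight κ e)) := by
    rw [LinearMap.range_comp]
    exact (Submodule.equivMapOfInjective Φ hinj _).finrank_eq.symm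
  have h2 : LinearMap.range ((LinearMap.mulLeft κ e).dualMap ∘ₗ Φ) =
      LinearMap.range (LinearMap.mulLeft κ e).dualMap :=
    LinearMap.range_comp_of_range_eq_top _ (LinearMap.range_eq_top.2 hsurj)
  rw [← h1, hcomp, h2, LinearMap.finrank_range_dualMap_eq_finrank_range]

end

theorem peirce {κ : Type} [Field κ] [IsAlgClosed κ] [CharZero κ] {BB : Type} [Ring BB]
    [Algebra κ BB] [FiniteDimensional κ BB] (w : Wed κ BB) (e : Fin w.r → BB)
    (he : ∀ j, e j * e j = e j) (h1 : ∀ j, LinearMap.trace κ _ (w.ρ j (e j)) = 1)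
    (h0 : ∀ i j, i ≠ j → w.ρ i (e j) = 0) (t : BB →ₗ[κ] κ)
    (ht : ∀ h h', t (h * h') = t (h' * h)) (hnd : ∀ h, (∀ h', t (h * h') = 0) → h = 0) :
    finrank κ BB = ∑ j, ∑ k, w.d j * w.d k * finrank κ
      (LinearMap.range (LinearMap.mulLeft κ (e k) ∘ₗ LinearMap.mulRight κ (e j))) := by
  rw [counting w e he h1 h0 (Algebra.lmul κ BB)]
  refine Finset.sum_congr rfl fun j _ => ?_
  have h2 : finrank κ (LinearMap.range (Algebra.lmul κ BB (e j))) =
      finrank κ (LinearMap.range (LinearMap.mulRight κ (e j))) := np_adj t hnd (e j)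
  rw [h2, counting w e he h1 h0 (npAct (κ := κ) (e j)), Finset.mul_sum]
  refine Finset.sum_congr rfl fun k _ => ?_
  rw [npAct_range, mul_assoc]

end SYM
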