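import Pool.Agent.Lib.MP_b1ea0f_al.Defs4
import Pool.Agent.Lib.MP_b1ea0f_al.NPeirce
import Pool.Agent.Lib.MP_b1ea0f_al.NIdem

/-!
# NOne: dimension bound, one simple module

`e_k BB e_k ∋ e_k, y e_k`: `t(y e_k) = c_k tr ρ_k(e_k) = c_k ≠ 0`, `y e_k` nilpotent, so independent: dimension ≥ 2. `peirce`.
-/

namespace SYM
open Polynomial Module

/-- diagonal Peirce components have dimension at least two -/
theorem two_le_diag {κ : Type} [Field κ] {BB : Type} [Ring BB]
    [Algebra κ BB] [FiniteDimensional κ BB] (w : Wed κ BB) (e : BB) (j : Fin w.r) (he : e * e = e)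
    (h1 : LinearMap.trace κ _ (w.ρ j e) = 1) (h0 : ∀ i, i ≠ j → w.ρ i e = 0)
    (t : BB →ₗ[κ] κ)
    (y : BB) (hy : ∀ h, y * h = h * y) (hyn : IsNilpotent y) (c : Fin w.r → κ)
    (hc : ∀ j, c j ≠ 0) (hty : ∀ h, t (y * h) = ∑ j, c j * LinearMap.trace κ _ (w.ρ j h)) :
    2 ≤ finrank κ (LinearMap.range (LinearMap.mulLeft κ e ∘ₗ LinearMap.mulRight κ e)) := by
  classical
  have hty' : t (y * e) = c j := by
    rw [hty, Finset.sum_eq_single_of_mem j (Finset.mem_univ _), h1, mul_one]
    intro i _ hij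
    rw [h0 i hij, map_zero, mul_zero]
  have hye : y * e ≠ 0 := by
    intro h
    rw [h, map_zero] at hty'
    exact hc j hty'.symm
  have he0 : e ≠ 0 := by
    rintro rfl
    rw [mul_zero] at hye
    exact hye rfl
  let R := LinearMap.range (LinearMap.mulLeft κ e ∘ₗ LinearMap.mulRight κ e)
  have hm1 : e ∈ R := ⟨e, by simp [he]⟩
  have hm2 : y * e ∈ R := ⟨y, by
    simp only [LinearMap.comp_apply, LinearMap.mulRight_apply, LinearMap.mulLeft_apply]
    rw [← mul_assoc, ← hy e, mul_assoc, he]⟩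
  have hli : LinearIndependent κ ![(⟨e, hm1⟩ : R), ⟨y * e, hm2⟩] := by
    rw [LinearIndependent.pair_iff]
    intro a b hab
    have hab' : a • e + b • (y * e) = 0 := congrArg Subtype.val hab
    have ha : a = 0 := by
      by_contra ha
      have h2 : e = (-(b / a)) • y * e := by
        have h3 : a⁻¹ • (a • e + b • (y * e)) = 0 := by rw [hab', smul_zero]
        rw [smul_add, smul_smul, smul_smul, inv_mul_cancel₀ ha, one_smul] at h3
        have h4 : e = -((a⁻¹ * b) • (y * e)) := eq_neg_of_add_eq_zero_left h3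
        calc e = -((a⁻¹ * b) • (y * e)) := h4
          _ = (-(b / a)) • y * e := by
            rw [smul_mul_assoc, neg_smul, div_eq_mul_inv, mul_comm b]
      have h5 : ∀ n : ℕ, e = ((-(b / a)) • y) ^ n * e := by
        intro n
        induction n with
        | zero => simp
        | succ n ih =>
          rw [pow_succ, mul_assoc, ← h2]
          exact ih
      obtain ⟨n, hn⟩ := hyn
      apply he0
      rw [h5 n, _root_.smul_pow, hn, smul_zero, zero_mul]
    rw [ha, zero_smul, zero_add] at hab'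
    exact ⟨ha, (smul_eq_zero.1 hab').resolve_right hye⟩
  have h2 := hli.fintype_card_le_finrank
  simpa using h2

theorem dim_bound_one {κ : Type} [Field κ] [IsAlgClosed κ] [CharZero κ] {BB : Type} [Ring BB]
    [Algebra κ BB] [FiniteDimensional κ BB] (w : Wed κ BB) (hr : w.r = 1) (t : BB →ₗ[κ] κ)
    (ht : ∀ h h', t (h * h') = t (h' * h)) (hnd : ∀ h, (∀ h', t (h * h') = 0) → h = 0)
    (y : BB) (hy : ∀ h, y * h = h * y) (hyn : IsNilpotent y) (c : Fin w.r → κ)
    (hc : ∀ j, c j ≠ 0) (hty : ∀ h, t (y * h) = ∑ j, c j * LinearMap.trace κ _ (w.ρ j h)) :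
    2 * ∑ j, w.d j ^ 2 ≤ finrank κ BB := by
  choose e he _ h1 h0 using exists_idem w
  rw [peirce w e he h1 (fun i j hij => h0 j i hij) t ht hnd, Finset.mul_sum]
  refine Finset.sum_le_sum fun j _ => ?_
  refine le_trans ?_ (Finset.single_le_sum (f := fun k => w.d j * w.d k * finrank κ
      (LinearMap.range (LinearMap.mulLeft κ (e k) ∘ₗ LinearMap.mulRight κ (e j))))
      (fun _ _ => Nat.zero_le _) (Finset.mem_univ j))
  have h2 := two_le_diag w (e j) j (he j) (h1 j) (h0 j) t y hy hyn c hc hty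
  calc 2 * w.d j ^ 2 = w.d j * w.d j * 2 := by ring
    _ ≤ _ := Nat.mul_le_mul_left _ h2

end SYM
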