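import Pool.Agent.Lib.MP_b1ea0f_al.Defs4
import Pool.Agent.Lib.MP_b1ea0f_al.NPeirce
import Pool.Agent.Lib.MP_b1ea0f_al.NIdem
import Pool.Agent.Lib.MP_b1ea0f_al.NOne

/-!
# NTwo: dimension bound, two simple modules

Two simple modules. Diagonal components ≥ 2 (`two_le_diag`). Off-diagonal: `e_k BB e_j ≠ 0` for `j ≠ k`. Suppose `e_k BB e_j = 0`. Put `Y = BB e_j`. Every `ρ_k`-composition factor is excluded (`e_k Y = 0`). Claim `ker(ρ_j) Y = 0`: let `mm = ker ρ_j` (idempotent two-sided ideal by `hid`), rad = `ker ρ_j ∩ ker ρ_k`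
(nilpotent). Let `BB e_k BB` = two-sided ideal generated by `e_k`; it kills `Y` (`BB e_k BB e_j = 0`); and `mm = BB e_k BB + rad`-ish: `ρ_k(BB e_k BB) = End`, so every `u ∈ mm` is `v + r`, `v ∈ BB e_k BB`, `r ∈` rad. On `Y` `mm` acts through rad, nilpotently: `mm^N Y = 0`; `mm = mm² = mm^N`: `mm Y = 0`.
But `y ∈ mm` (nilpotent central: `ρ_j(y) = 0`) and `y e_j ≠ 0` (`t(y e_j) = c_j ≠ 0`). Contradiction. Then `peirce`: `finrank ≥ 2d_1² + 2d_2² + 2d_1d_2`.
-/

namespace SYM
open Polynomial Module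

/-- a functional with value one at a nonzero vector -/
private theorem exists_fun {κ : Type} [Field κ] {d : ℕ} (x : Fin d → κ) (hx : x ≠ 0) :
    ∃ φ : (Fin d → κ) →ₗ[κ] κ, φ x = 1 := by
  obtain ⟨i, hi⟩ := Function.ne_iff.mp hx
  exact ⟨(x i)⁻¹ • LinearMap.proj i, by simpa using inv_mul_cancel₀ hi⟩

/-- every endomorphism is a sum of `A P B` -/
private theorem end_sum {κ : Type} [Field κ] {d : ℕ} (P : Module.End κ (Fin d → κ))
    (hP : P * P = P) (hP0 : P ≠ 0) (f : Module.End κ (Fin d → κ)) :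
    ∃ A B : Fin d → Module.End κ (Fin d → κ), f = ∑ s, A s * P * B s := by
  obtain ⟨x, hx⟩ : ∃ x, P x ≠ 0 := by
    by_contra hno
    push Not at hno
    exact hP0 (LinearMap.ext hno)
  obtain ⟨φ, hφ⟩ := exists_fun (P x) hx
  have hPP : P (P x) = P x := by
    have := congrArg (fun g : Module.End κ (Fin d → κ) => g x) hP
    simpa using this
  refine ⟨fun s => φ.smulRight (f (Pi.single s 1)),
    fun s => (LinearMap.proj s).smulRight (P x), ?_⟩
  apply LinearMap.ext
  intro v
  simp only [LinearMap.sum_apply, Module.End.mul_apply, LinearMap.smulRight_apply,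
    LinearMap.proj_apply, map_smul, hPP, hφ, one_smul]
  rw [LinearMap.pi_apply_eq_sum_univ f v]
  refine Finset.sum_congr rfl fun s _ => ?_
  congr 2
  ext i
  by_cases h : s = i
  · subst h; simp
  · rw [if_neg h, Pi.single_apply, if_neg (fun h' => h h'.symm)]

/-- a central nilpotent element is in the kernel -/
private theorem central_nil {κ : Type} [Field κ] {BB : Type} [Ring BB] [Algebra κ BB]
    (w : Wed κ BB) (j : Fin w.r) (y : BB) (hy : ∀ h, y * h = h * y) (hyn : IsNilpotent y) :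
    w.ρ j y = 0 := by
  classical
  by_contra hne
  obtain ⟨x, hx⟩ : ∃ x, w.ρ j y x ≠ 0 := by
    by_contra hno
    push Not at hno
    exact hne (LinearMap.ext hno)
  obtain ⟨φ, hφ⟩ := exists_fun (w.ρ j y x) hx
  obtain ⟨h, hh⟩ := w.surj (Function.update 0 j (φ.smulRight x))
  have hj : w.ρ j h = φ.smulRight x := by
    rw [hh j, Function.update_self]
  have h1 : w.ρ j (h * y) x = x := by
    rw [map_mul, Module.End.mul_apply, hj, LinearMap.smulRight_apply, hφ, one_smul]
  have h2 : ∀ m : ℕ, (w.ρ j (h * y) ^ m) x = x := by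
    intro m
    induction m with
    | zero => rfl
    | succ m ih => rw [pow_succ, Module.End.mul_apply, h1, ih]
  obtain ⟨N, hN⟩ := hyn
  have h3 : w.ρ j (h * y) ^ N = 0 := by
    rw [← map_pow, (show Commute h y from (hy h).symm).mul_pow, hN, mul_zero, map_zero]
  have h4 := h2 N
  rw [h3, LinearMap.zero_apply] at h4
  apply hx
  rw [← h4, map_zero]

/-- the span of the `N`-fold products of elements of the radical -/
private def SS {κ : Type} [Field κ] {BB : Type} [Ring BB] [Algebra κ BB] (w : Wed κ BB)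
    (N : ℕ) : Submodule κ BB :=
  Submodule.span κ {u | ∃ l : List BB, l.length = N ∧ (∀ h ∈ l, ∀ i, w.ρ i h = 0) ∧ u = l.prod}

/-- the left annihilator of `BB e` -/
private def Ann (κ : Type) [Field κ] {BB : Type} [Ring BB] [Algebra κ BB] (e : BB) :
    Submodule κ BB where
  carrier := {u | ∀ h, u * h * e = 0}
  add_mem' := by
    intro a b ha hb h
    rw [add_mul, add_mul, ha h, hb h, add_zero]
  zero_mem' := by
    intro h
    rw [zero_mul, zero_mul]
  smul_mem' := by
    intro c u hu h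
    rw [smul_mul_assoc, smul_mul_assoc, hu h, smul_zero]

private theorem mem_Ann {κ : Type} [Field κ] {BB : Type} [Ring BB] [Algebra κ BB] {e u : BB} :
    u ∈ Ann κ e ↔ ∀ h, u * h * e = 0 := Iff.rfl

private theorem Ann_mul_left {κ : Type} [Field κ] {BB : Type} [Ring BB] [Algebra κ BB] {e u : BB}
    (hu : u ∈ Ann κ e) (a : BB) : a * u ∈ Ann κ e := by
  intro h
  rw [mul_assoc a u h, mul_assoc a, hu h, mul_zero]

private theorem Ann_mul_right {κ : Type} [Field κ] {BB : Type} [Ring BB] [Algebra κ BB] {e u : BB}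
    (hu : u ∈ Ann κ e) (a : BB) : u * a ∈ Ann κ e := by
  intro h
  rw [mul_assoc u a h]
  exact hu _

private theorem SS_mul {κ : Type} [Field κ] {BB : Type} [Ring BB] [Algebra κ BB] (w : Wed κ BB)
    {M N : ℕ} {a b : BB} (ha : a ∈ SS w M) (hb : b ∈ SS w N) : a * b ∈ SS w (M + N) := by
  have h1 : a * b ∈ SS w M * SS w N := Submodule.mul_mem_mul ha hb
  have h2 : SS w M * SS w N ≤ SS w (M + N) := by
    unfold SS
    rw [Submodule.span_mul_span]
    apply Submodule.span_mono
    rintro _ ⟨_, ⟨l, hl, hl0, rfl⟩, _, ⟨l', hl', hl0', rfl⟩, rfl⟩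
    refine ⟨l ++ l', by rw [List.length_append, hl, hl'], ?_, by simp⟩
    intro h hh i
    rcases List.mem_append.mp hh with hh | hh
    · exact hl0 h hh i
    · exact hl0' h hh i
  exact h2 h1

private theorem SS_zero {κ : Type} [Field κ] {BB : Type} [Ring BB] [Algebra κ BB] (w : Wed κ BB) :
    ∃ N, SS w (N + 1) = ⊥ := by
  obtain ⟨N, hN⟩ := w.nil
  refine ⟨N, ?_⟩
  unfold SS
  rw [Submodule.span_eq_bot]
  rintro _ ⟨l, hl, hl0, rfl⟩
  cases l with
  | nil => simp at hl
  | cons a l =>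
    rw [List.prod_cons, hN l (by simpa using hl) (fun h hh => hl0 h (List.mem_cons_of_mem _ hh)),
      mul_zero]

private theorem off_diag {κ : Type} [Field κ] {BB : Type} [Ring BB]
    [Algebra κ BB] (w : Wed κ BB) (hr : w.r = 2) (e : Fin w.r → BB)
    (he : ∀ j, e j * e j = e j) (h1 : ∀ j, LinearMap.trace κ _ (w.ρ j (e j)) = 1)
    (h0 : ∀ i j, i ≠ j → w.ρ i (e j) = 0) (t : BB →ₗ[κ] κ)
    (y : BB) (hy : ∀ h, y * h = h * y) (hyn : IsNilpotent y) (c : Fin w.r → κ)
    (hc : ∀ j, c j ≠ 0) (hty : ∀ h, t (y * h) = ∑ j, c j * LinearMap.trace κ _ (w.ρ j h))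
    (hid : ∀ j (u : BB), w.ρ j u = 0 →
      u ∈ Submodule.span κ {v : BB | ∃ v' v'', w.ρ j v' = 0 ∧ w.ρ j v'' = 0 ∧ v = v' * v''})
    (j k : Fin w.r) (hjk : j ≠ k) : ∃ h, e k * h * e j ≠ 0 := by
  classical
  by_contra hno
  push Not at hno
  have hcase : ∀ i : Fin w.r, i = j ∨ i = k := by
    intro i
    have h1 := i.2
    have h2 := j.2
    have h3 := k.2
    have h4 : (j : ℕ) ≠ k := fun h => hjk (Fin.ext h)
    by_cases hij : (i : ℕ) = j
    · exact Or.inl (Fin.ext hij)
    · exact Or.inr (Fin.ext (by omega))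
  -- the kernel of `ρ_j` is contained in the radical plus the annihilator
  have hstep1 : ∀ u, w.ρ j u = 0 → u ∈ SS w 1 ⊔ Ann κ (e j) := by
    intro u hu
    have hP : w.ρ k (e k) * w.ρ k (e k) = w.ρ k (e k) := by rw [← map_mul, he]
    have hP0 : w.ρ k (e k) ≠ 0 := by
      intro h
      have := h1 k
      rw [h, map_zero] at this
      exact zero_ne_one this
    obtain ⟨A, B, hAB⟩ := end_sum _ hP hP0 (w.ρ k u)
    have hA : ∀ s, ∃ a, w.ρ k a = A s := fun s => by
      obtain ⟨a, ha⟩ := w.surj (Function.update 0 k (A s))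
      exact ⟨a, by rw [ha k, Function.update_self]⟩
    have hB : ∀ s, ∃ a, w.ρ k a = B s := fun s => by
      obtain ⟨a, ha⟩ := w.surj (Function.update 0 k (B s))
      exact ⟨a, by rw [ha k, Function.update_self]⟩
    choose a ha using hA
    choose b hb using hB
    obtain ⟨v, hv⟩ : ∃ v, v = ∑ s, a s * e k * b s := ⟨_, rfl⟩
    have hvk : w.ρ k v = w.ρ k u := by
      rw [hv, map_sum, hAB]
      refine Finset.sum_congr rfl fun s _ => ?_
      rw [map_mul, map_mul, ha, hb]
    have hvj : w.ρ j v = 0 := by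
      rw [hv, map_sum]
      refine Finset.sum_eq_zero fun s _ => ?_
      rw [map_mul, map_mul, h0 j k hjk, mul_zero, zero_mul]
    have hvA : v ∈ Ann κ (e j) := by
      rw [hv]
      refine Submodule.sum_mem _ fun s _ => ?_
      intro h
      rw [mul_assoc (a s * e k) (b s) h, mul_assoc (a s) (e k) (b s * h), mul_assoc (a s),
        hno (b s * h), mul_zero]
    have hd : u - v ∈ SS w 1 := by
      apply Submodule.subset_span
      refine ⟨[u - v], rfl, ?_, by simp⟩
      intro h hh i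
      rw [List.mem_singleton.mp hh, map_sub]
      rcases hcase i with rfl | rfl
      · rw [hu, hvj, sub_zero]
      · rw [hvk, sub_self]
    have : u = (u - v) + v := by abel
    rw [this]
    exact Submodule.add_mem_sup hd hvA
  have hstep : ∀ N u, w.ρ j u = 0 → u ∈ SS w (N + 1) ⊔ Ann κ (e j) := by
    intro N
    induction N with
    | zero => exact hstep1
    | succ N ih =>
      intro u hu
      have h2 := hid j u hu
      refine Submodule.span_le.mpr ?_ h2
      rintro _ ⟨v', v'', hv', hv'', rfl⟩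
      obtain ⟨s, hs, a, ha, rfl⟩ := Submodule.mem_sup.mp (ih v' hv')
      obtain ⟨s', hs', a', ha', rfl⟩ := Submodule.mem_sup.mp (hstep1 v'' hv'')
      have h5 : (s + a) * (s' + a') = s * s' + (s * a' + a * (s' + a')) := by
        rw [add_mul, mul_add]
        abel
      rw [SetLike.mem_coe, h5]
      exact Submodule.add_mem_sup (SS_mul w hs hs')
        (Submodule.add_mem _ (Ann_mul_left ha' s) (Ann_mul_right ha _))
  obtain ⟨N, hN⟩ := SS_zero w
  have hfin := hstep N y (central_nil w j y hy hyn)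
  rw [hN, bot_sup_eq] at hfin
  have h6 : y * e j = 0 := by
    have := hfin 1
    rwa [mul_one] at this
  have h7 := hty (e j)
  rw [h6, map_zero, Finset.sum_eq_single j] at h7
  · rw [h1 j, mul_one] at h7
    exact hc j h7.symm
  · intro i _ hij
    rw [h0 i j hij, map_zero, mul_zero]
  · intro h
    exact absurd (Finset.mem_univ j) h

theorem dim_bound_two {κ : Type} [Field κ] [IsAlgClosed κ] [CharZero κ] {BB : Type} [Ring BB]
    [Algebra κ BB] [FiniteDimensional κ BB] (w : Wed κ BB) (hr : w.r = 2) (t : BB →ₗ[κ] κ)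
    (ht : ∀ h h', t (h * h') = t (h' * h)) (hnd : ∀ h, (∀ h', t (h * h') = 0) → h = 0)
    (y : BB) (hy : ∀ h, y * h = h * y) (hyn : IsNilpotent y) (c : Fin w.r → κ)
    (hc : ∀ j, c j ≠ 0) (hty : ∀ h, t (y * h) = ∑ j, c j * LinearMap.trace κ _ (w.ρ j h))
    (hid : ∀ j (u : BB), w.ρ j u = 0 →
      u ∈ Submodule.span κ {v : BB | ∃ v' v'', w.ρ j v' = 0 ∧ w.ρ j v'' = 0 ∧ v = v' * v''}) :
    ∑ j, w.d j ^ 2 + (∑ j, w.d j) ^ 2 ≤ finrank κ BB := by
  classical
  choose e he hrk h1 h0' using fun j => exists_idem w j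
  have h0 : ∀ i j, i ≠ j → w.ρ i (e j) = 0 := fun i j hij => h0' j i hij
  rw [peirce w e he h1 h0 t ht hnd]
  have hf : ∀ j k, w.d j * w.d k * ((if j = k then 1 else 0) + 1) ≤ w.d j * w.d k * finrank κ
      (LinearMap.range (LinearMap.mulLeft κ (e k) ∘ₗ LinearMap.mulRight κ (e j))) := by
    intro j k
    apply Nat.mul_le_mul_left
    by_cases hjk : j = k
    · subst hjk
      rw [if_pos rfl]
      exact two_le_diag w (e j) j (he j) (h1 j) (fun i hij => h0 i j hij) t y hy hyn c hc hty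
    · rw [if_neg hjk, zero_add]
      obtain ⟨h, hh⟩ := off_diag w hr e he h1 h0 t y hy hyn c hc hty hid j k hjk
      rw [Nat.one_le_iff_ne_zero]
      intro hz
      rw [Submodule.finrank_eq_zero] at hz
      apply hh
      have hm : e k * (h * e j) ∈
          LinearMap.range (LinearMap.mulLeft κ (e k) ∘ₗ LinearMap.mulRight κ (e j)) :=
        ⟨h, by simp⟩
      rw [hz, Submodule.mem_bot] at hm
      rw [mul_assoc, hm]
  refine le_trans (le_of_eq ?_) (Finset.sum_le_sum fun j _ => Finset.sum_le_sum fun k _ => hf j k)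
  have h2 : (∑ j, w.d j) ^ 2 = ∑ j, ∑ k, w.d j * w.d k := by
    rw [sq, Finset.sum_mul_sum]
  rw [h2, ← Finset.sum_add_distrib]
  refine Finset.sum_congr rfl fun j _ => ?_
  have h3 : w.d j ^ 2 = ∑ k, w.d j * w.d k * (if j = k then 1 else 0) := by
    simp [sq]
  rw [h3, ← Finset.sum_add_distrib]
  refine Finset.sum_congr rfl fun k _ => ?_
  ring

end SYM
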