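import Pool.Agent.Lib.MP_b1ea0f_al.Defs4
import Pool.Agent.Lib.MP_b1ea0f_al.NOne
import Pool.Agent.Lib.MP_b1ea0f_al.NTwo
import Pool.Agent.Lib.MP_b1ea0f_al.WEx

/-!
# NBlock: abstract non-degeneracy of a block with a pole

Abstract non-degeneracy for a non-semisimple block. `I := {h : ∀ h', t(e h h') = 0}` is a two-sided ideal, contains `(1-e)BB`. `BBq := BB/I` (ring quotient by a two-sided ideal), `tq` induced by `h ↦ t(e h)`: trace, non-degenerate. `y` maps to a central nilpotent (`y e` nilpotent). `t(e y h) = ∑_{W0} c_j tr ρ_j(h)` vanishes on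
`I` (as `yI ⊆ I`), so `ρ_j(I) = 0` for `j ∈ W0` (`ρ_j(I)` is a two-sided ideal of a matrix algebra, joint surjectivity): the `ρ_j`, `j ∈ W0`, are the Wedderburn data of `BBq` (other simple modules have `ρ_j(e) = 0`, `1 - e ∈ I`). `dim_bound_one/two` for `BBq`: `finrank BBq ≥ finrank (e BB)` (`hdim`); `BBq` is a quotient of `e BB`,
so `I ∩ e BB = 0`.
-/

namespace SYM
open Polynomial Module

private theorem nb_end_zero {κ : Type} [Field κ] {n : ℕ} (A : Module.End κ (Fin n → κ))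
    (h : ∀ B, LinearMap.trace κ _ (A * B) = 0) : A = 0 := by
  have h1 : LinearMap.toMatrix (Pi.basisFun κ _) (Pi.basisFun κ _) A = 0 := by
    apply (Matrix.ext_iff_trace_mul_right).2
    intro X
    have := h (Matrix.toLin (Pi.basisFun κ _) (Pi.basisFun κ _) X)
    rw [LinearMap.trace_eq_matrix_trace κ (Pi.basisFun κ _), LinearMap.toMatrix_mul,
      LinearMap.toMatrix_toLin] at this
    rw [this, zero_mul, Matrix.trace_zero]
  exact (LinearMap.toMatrix (Pi.basisFun κ _) (Pi.basisFun κ _)).injective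
    (h1.trans (map_zero _).symm)

/-- the ideal `{h : t (e h h') = 0}` -/
private def nbI {κ : Type} [Field κ] {BB : Type} [Ring BB]
    [Algebra κ BB] (e : BB) (hec : ∀ h, e * h = h * e) (t : BB →ₗ[κ] κ)
    (ht : ∀ h h', t (h * h') = t (h' * h)) : Ideal BB where
  carrier := {h | ∀ h', t (e * h * h') = 0}
  zero_mem' := by intro h'; simp
  add_mem' := by
    intro a b ha hb h'
    have h1 := ha h'
    have h2 := hb h'
    rw [mul_add, add_mul, map_add, h1, h2, add_zero]
  smul_mem' := by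
    intro a h hh h'
    have h1 := hh (h' * a)
    rw [smul_eq_mul]
    have h2 : e * (a * h) * h' = a * (e * h * h') := by
      rw [← mul_assoc e a h, hec a]; simp only [mul_assoc]
    rw [h2, ht, ← h1]
    congr 1
    simp only [mul_assoc]

private theorem nb_mem {κ : Type} [Field κ] {BB : Type} [Ring BB]
    [Algebra κ BB] (e : BB) (hec : ∀ h, e * h = h * e) (t : BB →ₗ[κ] κ)
    (ht : ∀ h h', t (h * h') = t (h' * h)) (h : BB) :
    h ∈ nbI e hec t ht ↔ ∀ h', t (e * h * h') = 0 := Iff.rfl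

private theorem nb_two {κ : Type} [Field κ] {BB : Type} [Ring BB]
    [Algebra κ BB] (e : BB) (hec : ∀ h, e * h = h * e) (t : BB →ₗ[κ] κ)
    (ht : ∀ h h', t (h * h') = t (h' * h)) : (nbI e hec t ht).IsTwoSided := by
  constructor
  intro a b ha h'
  have := ha (b * h')
  rw [← this]
  congr 1
  simp only [mul_assoc]

private theorem nb_gen {κ : Type} [Field κ] {BB : Type} [Ring BB]
    [Algebra κ BB] [FiniteDimensional κ BB] (w : Wed κ BB) (e : BB) (he : e * e = e)
    (hec : ∀ h, e * h = h * e) (m : ℕ) (φ : Fin m → Fin w.r) (hφ : Function.Injective φ)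
    (h0 : ∀ i, (∀ k, φ k ≠ i) → w.ρ i e = 0) (t : BB →ₗ[κ] κ)
    (ht : ∀ h h', t (h * h') = t (h' * h))
    (y : BB) (hy : ∀ h, y * h = h * y) (hyn : IsNilpotent (y * e)) (c : Fin m → κ)
    (hc : ∀ i, c i ≠ 0)
    (hty : ∀ h, t (y * e * h) = ∑ i, c i * LinearMap.trace κ _ (w.ρ (φ i) h))
    (H : ∀ (C : Type) [Ring C] [Algebra κ C] [FiniteDimensional κ C] (π : BB →ₐ[κ] C)
      (_ : Function.Surjective π)
      (ρ : ∀ i : Fin m, C →ₐ[κ] Module.End κ (Fin (w.d (φ i)) → κ))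
      (_ : ∀ i h, ρ i (π h) = w.ρ (φ i) h)
      (_ : ∀ f : (∀ i : Fin m, Module.End κ (Fin (w.d (φ i)) → κ)), ∃ h, ∀ i, ρ i h = f i)
      (_ : ∃ N : ℕ, ∀ l : List C, l.length = N → (∀ h ∈ l, ∀ i, ρ i h = 0) → l.prod = 0)
      (t' : C →ₗ[κ] κ) (_ : ∀ h h', t' (h * h') = t' (h' * h))
      (_ : ∀ h, (∀ h', t' (h * h') = 0) → h = 0)
      (y' : C) (_ : ∀ h, y' * h = h * y') (_ : IsNilpotent y')
      (_ : ∀ h, t' (y' * h) = ∑ i, c i * LinearMap.trace κ _ (ρ i h)),
      finrank κ (LinearMap.range (LinearMap.mulLeft κ e)) ≤ finrank κ C) (h : BB)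
    (hh : ∀ h', t (e * h * h') = 0) : e * h = 0 := by
  classical
  set I := nbI e hec t ht with hI
  have : I.IsTwoSided := nb_two e hec t ht
  have hmem : ∀ a, a ∈ I ↔ ∀ h', t (e * a * h') = 0 := fun a => nb_mem e hec t ht a
  -- the quotient
  let π : BB →ₐ[κ] (BB ⧸ I) := Ideal.Quotient.mkₐ κ I
  have hπs : Function.Surjective π := Ideal.Quotient.mkₐ_surjective κ I
  have hπ0 : ∀ a, π a = 0 ↔ a ∈ I := fun a => Ideal.Quotient.eq_zero_iff_mem
  have : FiniteDimensional κ (BB ⧸ I) := Module.Finite.of_surjective π.toLinearMap hπs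
  -- ρ vanishes on I
  have hρI : ∀ i, ∀ a ∈ I, w.ρ (φ i) a = 0 := by
    intro i a ha
    apply nb_end_zero
    intro B
    obtain ⟨b, hb⟩ := w.surj (fun k => if hk : k = φ i then hk ▸ B else 0)
    have hb1 : w.ρ (φ i) b = B := by rw [hb]; simp
    have hb2 : ∀ k, k ≠ i → w.ρ (φ k) b = 0 := by
      intro k hk
      rw [hb]
      have : φ k ≠ φ i := fun h => hk (hφ h)
      simp [this]
    have h2 := hty (a * b)
    have h3 : t (y * e * (a * b)) = 0 := by
      have h4 := (hmem a).1 ha (b * y)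
      rw [← h4]
      have h5 : y * e * (a * b) = y * (e * (a * b)) := by simp only [mul_assoc]
      rw [h5, ht]
      congr 1
      simp only [mul_assoc]
    rw [h3] at h2
    rw [Finset.sum_eq_single i] at h2
    · rw [map_mul, hb1] at h2
      exact (mul_eq_zero.1 h2.symm).resolve_left (hc i)
    · intro k _ hk
      rw [map_mul, hb2 k hk, mul_zero, map_zero, mul_zero]
    · intro hi; exact absurd (Finset.mem_univ i) hi
  let ρq : ∀ i : Fin m, (BB ⧸ I) →ₐ[κ] Module.End κ (Fin (w.d (φ i)) → κ) := fun i =>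
    Ideal.Quotient.liftₐ I (w.ρ (φ i)) (hρI i)
  have hρq : ∀ i a, ρq i (π a) = w.ρ (φ i) a := by
    intro i a
    rfl
  -- 1 - e ∈ I
  have heI : π e = 1 := by
    have : π (1 - e) = 0 := by
      rw [hπ0, hmem]
      intro h'
      rw [mul_sub, mul_one, he, sub_self, zero_mul, map_zero]
    rw [map_sub, map_one, sub_eq_zero] at this
    exact this.symm
  have hρe : ∀ a, (∀ i, w.ρ (φ i) a = 0) → ∀ i, w.ρ i (e * a) = 0 := by
    intro a ha i
    rw [map_mul]
    by_cases hi : ∃ k, φ k = i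
    · obtain ⟨k, rfl⟩ := hi
      rw [ha k, mul_zero]
    · push Not at hi
      rw [h0 i hi, zero_mul]
  -- trace
  obtain ⟨g, hg⟩ := LinearMap.exists_rightInverse_of_surjective π.toLinearMap
    (LinearMap.range_eq_top.2 hπs)
  have hg' : ∀ c, π (g c) = c := fun c => by
    have := congrArg (fun f => f c) hg
    simpa using this
  let t' : (BB ⧸ I) →ₗ[κ] κ := t ∘ₗ LinearMap.mulLeft κ e ∘ₗ g
  have ht' : ∀ a, t' (π a) = t (e * a) := by
    intro a
    have h3 : g (π a) - a ∈ I := by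
      rw [← hπ0, map_sub, hg', sub_self]
    have h4 := (hmem _).1 h3 1
    rw [mul_one, mul_sub, map_sub, sub_eq_zero] at h4
    exact h4
  have htr : ∀ a b, t' (a * b) = t' (b * a) := by
    intro a b
    obtain ⟨a, rfl⟩ := hπs a
    obtain ⟨b, rfl⟩ := hπs b
    rw [← map_mul, ← map_mul, ht', ht', ← mul_assoc, ht]
    rw [← mul_assoc, ← hec b, mul_assoc]
  have hnd : ∀ a, (∀ b, t' (a * b) = 0) → a = 0 := by
    intro a ha
    obtain ⟨a, rfl⟩ := hπs a
    rw [hπ0, hmem]
    intro b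
    have := ha (π b)
    rw [← map_mul, ht', ← mul_assoc] at this
    exact this
  have hyc : ∀ a, π y * a = a * π y := by
    intro a
    obtain ⟨a, rfl⟩ := hπs a
    rw [← map_mul, ← map_mul, hy]
  have hyn' : IsNilpotent (π y) := by
    have : π y = π (y * e) := by rw [map_mul, heI, mul_one]
    rw [this]
    exact hyn.map π
  have hty' : ∀ a, t' (π y * a) = ∑ i, c i * LinearMap.trace κ _ (ρq i a) := by
    intro a
    obtain ⟨a, rfl⟩ := hπs a
    rw [← map_mul, ht']
    have : e * (y * a) = y * e * a := by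
      rw [← mul_assoc, hec y]
    rw [this, hty]
    rfl
  have hsurj : ∀ f : (∀ i : Fin m, Module.End κ (Fin (w.d (φ i)) → κ)), ∃ h, ∀ i, ρq i h = f i := by
    intro f
    have key : ∃ F : (∀ k, Module.End κ (Fin (w.d k) → κ)), ∀ i, F (φ i) = f i := by
      refine ⟨fun k => if hk : ∃ i, φ i = k then hk.choose_spec ▸ f hk.choose else 0, ?_⟩
      intro i
      have hk : ∃ i', φ i' = φ i := ⟨i, rfl⟩
      show (if hk : ∃ i', φ i' = φ i then hk.choose_spec ▸ f hk.choose else 0) = f i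
      rw [dif_pos hk]
      have h5 : hk.choose = i := hφ hk.choose_spec
      generalize_proofs pf1 pf2
      revert pf1
      intro _
      have : ∀ (i' : Fin m) (hi' : φ i' = φ i) (_ : i' = i), hi' ▸ f i' = f i := by
        rintro i' hi' rfl
        rfl
      exact this _ _ h5
    obtain ⟨F, hF⟩ := key
    obtain ⟨b, hb⟩ := w.surj F
    refine ⟨π b, fun i => ?_⟩
    rw [hρq, hb, hF]
  have hnil : ∃ N : ℕ, ∀ l : List (BB ⧸ I), l.length = N → (∀ h ∈ l, ∀ i, ρq i h = 0) →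
      l.prod = 0 := by
    obtain ⟨N, hN⟩ := w.nil
    refine ⟨N, ?_⟩
    intro l hl hl0
    have h6 := hN (l.map fun u => e * g u) (by rw [List.length_map, hl]) (by
      intro a ha
      rw [List.mem_map] at ha
      obtain ⟨u, hu, rfl⟩ := ha
      apply hρe
      intro i
      rw [← hρq, hg']
      exact hl0 u hu i)
    have h7 : l = (l.map fun u => e * g u).map π := by
      rw [List.map_map]
      conv_lhs => rw [← List.map_id l]
      apply List.map_congr_left
      intro u _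
      simp only [Function.comp, id]
      rw [map_mul, heI, one_mul, hg']
    rw [h7, ← map_list_prod, h6, map_zero]
  have hfin := H (BB ⧸ I) π hπs ρq hρq hsurj hnil t' htr hnd (π y) hyc hyn' hty'
  -- conclusion
  let ψ : LinearMap.range (LinearMap.mulLeft κ e) →ₗ[κ] (BB ⧸ I) :=
    π.toLinearMap ∘ₗ (LinearMap.range (LinearMap.mulLeft κ e)).subtype
  have hψs : Function.Surjective ψ := by
    intro a
    obtain ⟨a, rfl⟩ := hπs a
    refine ⟨⟨e * a, ⟨a, rfl⟩⟩, ?_⟩
    show π (e * a) = π a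
    rw [map_mul, heI, one_mul]
  have hle : finrank κ (BB ⧸ I) ≤ finrank κ (LinearMap.range (LinearMap.mulLeft κ e)) :=
    LinearMap.finrank_le_finrank_of_surjective hψs
  have hψi : Function.Injective ψ :=
    (LinearMap.injective_iff_surjective_of_finrank_eq_finrank (le_antisymm hfin hle)).2 hψs
  have h8 : ψ ⟨e * h, ⟨h, rfl⟩⟩ = 0 := by
    show π (e * h) = 0
    rw [map_mul, heI, one_mul, hπ0, hmem]
    exact hh
  have h9 := hψi (h8.trans (map_zero ψ).symm)
  exact congrArg Subtype.val h9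

theorem nondeg_one {κ : Type} [Field κ] [IsAlgClosed κ] [CharZero κ] {BB : Type} [Ring BB]
    [Algebra κ BB] [FiniteDimensional κ BB] (w : Wed κ BB) (e : BB) (he : e * e = e)
    (hec : ∀ h, e * h = h * e) (j : Fin w.r) (h1 : w.ρ j e = 1)
    (h0 : ∀ i, i ≠ j → w.ρ i e = 0) (t : BB →ₗ[κ] κ) (ht : ∀ h h', t (h * h') = t (h' * h))
    (y : BB) (hy : ∀ h, y * h = h * y) (hyn : IsNilpotent (y * e)) (c : κ) (hc : c ≠ 0)
    (hty : ∀ h, t (y * e * h) = c * LinearMap.trace κ _ (w.ρ j h))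
    (hdim : finrank κ (LinearMap.range (LinearMap.mulLeft κ e)) ≤ 2 * w.d j ^ 2) (h : BB)
    (hh : ∀ h', t (e * h * h') = 0) : e * h = 0 := by
  refine nb_gen w e he hec 1 (fun _ => j) (fun _ _ _ => Subsingleton.elim _ _)
    (fun i hi => h0 i (fun hij => hi 0 hij.symm)) t ht y hy hyn (fun _ => c) (fun _ => hc)
    (fun h => by rw [hty]; simp) ?_ h hh
  intro C _ _ _ π hπ ρ hρ hsurj hnil t' ht' hnd y' hy' hyn' hty'
  let w' : Wed κ C := ⟨1, fun _ => w.d j, ρ, fun _ => w.pos j, hsurj, hnil⟩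
  have h2 := dim_bound_one w' rfl t' ht' hnd y' hy' hyn' (fun _ => c) (fun _ => hc) hty'
  refine hdim.trans (le_trans (le_of_eq ?_) h2)
  show _ = 2 * ∑ _i : Fin 1, w.d j ^ 2
  simp

theorem nondeg_two {κ : Type} [Field κ] [IsAlgClosed κ] [CharZero κ] {BB : Type} [Ring BB]
    [Algebra κ BB] [FiniteDimensional κ BB] (w : Wed κ BB) (e : BB) (he : e * e = e)
    (hec : ∀ h, e * h = h * e) (j j' : Fin w.r) (hjj : j ≠ j') (h1 : w.ρ j e = 1)
    (h1' : w.ρ j' e = 1) (h0 : ∀ i, i ≠ j → i ≠ j' → w.ρ i e = 0) (t : BB →ₗ[κ] κ)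
    (ht : ∀ h h', t (h * h') = t (h' * h))
    (y : BB) (hy : ∀ h, y * h = h * y) (hyn : IsNilpotent (y * e)) (c c' : κ) (hc : c ≠ 0)
    (hc' : c' ≠ 0)
    (hty : ∀ h, t (y * e * h) = c * LinearMap.trace κ _ (w.ρ j h) +
      c' * LinearMap.trace κ _ (w.ρ j' h))
    (hid : ∀ (C : Type) [Ring C] [Algebra κ C] [FiniteDimensional κ C] (π : BB →ₐ[κ] C)
      (_ : Function.Surjective π) (i : Fin w.r) (_ : i = j ∨ i = j')
      (ρ : C →ₐ[κ] Module.End κ (Fin (w.d i) → κ)) (_ : ∀ h, ρ (π h) = w.ρ i h) (u : C),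
      ρ u = 0 → u ∈ Submodule.span κ {v : C | ∃ v' v'', ρ v' = 0 ∧ ρ v'' = 0 ∧ v = v' * v''})
    (hdim : finrank κ (LinearMap.range (LinearMap.mulLeft κ e)) ≤
      w.d j ^ 2 + w.d j' ^ 2 + (w.d j + w.d j') ^ 2) (h : BB)
    (hh : ∀ h', t (e * h * h') = 0) : e * h = 0 := by
  have hφ : Function.Injective ![j, j'] := by
    intro a b hab
    fin_cases a <;> fin_cases b
    · rfl
    · exact absurd hab hjj
    · exact absurd hab.symm hjj
    · rfl
  refine nb_gen w e he hec 2 ![j, j'] hφ ?_ t ht y hy hyn ![c, c'] ?_ ?_ ?_ h hh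
  · intro i hi
    exact h0 i (fun hij => hi 0 hij.symm) (fun hij => hi 1 hij.symm)
  · intro i; fin_cases i
    · exact hc
    · exact hc'
  · intro h
    rw [hty, Fin.sum_univ_two]
    rfl
  intro C _ _ _ π hπ ρ hρ hsurj hnil t' ht' hnd y' hy' hyn' hty'
  let w' : Wed κ C := ⟨2, fun i => w.d (![j, j'] i), ρ, fun i => w.pos _, hsurj, hnil⟩
  have h2 := dim_bound_two w' rfl t' ht' hnd y' hy' hyn' ![c, c'] (by
    intro i
    change Fin 2 at i
    fin_cases i
    · exact hc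
    · exact hc') hty' (by
    intro i u hu
    change Fin 2 at i
    refine hid C π hπ (![j, j'] i) ?_ (ρ i) (hρ i) u hu
    fin_cases i
    · exact Or.inl rfl
    · exact Or.inr rfl)
  refine hdim.trans (le_trans (le_of_eq ?_) h2)
  show _ = ∑ i : Fin 2, w.d (![j, j'] i) ^ 2 + (∑ i : Fin 2, w.d (![j, j'] i)) ^ 2
  rw [Fin.sum_univ_two, Fin.sum_univ_two]
  rfl

end SYM
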