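import Pool.Agent.Lib.MP_b1ea0f_al.Defs4

/-!
# NDA: abstract non-degeneracy, semisimple case

Abstract, semisimple block. `ρ_j(e h) = ρ_j(h)` for `j ∈ W0`, `0` otherwise. `t(e h h') = ∑ c_j tr(ρ_j(h)ρ_j(h')) = 0` for all `h'`, joint surjectivity: `ρ_j(h) = 0` for all `j ∈ W0`. The map `e BB → ∏_{j ∈ W0} End` is surjective, and by `hdim` bijective; so `e h = 0`.
-/

namespace SYM
open Polynomial Module

private theorem zero_of_trace {κ : Type} [Field κ] {d : ℕ} (A : Module.End κ (Fin d → κ))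
    (h : ∀ f : Module.End κ (Fin d → κ), LinearMap.trace κ _ (A * f) = 0) : A = 0 := by
  classical
  apply LinearMap.ext
  intro x
  funext l
  have h1 := h ((LinearMap.proj l : (Fin d → κ) →ₗ[κ] κ).smulRight x)
  have h2 : A * (LinearMap.proj l : (Fin d → κ) →ₗ[κ] κ).smulRight x =
      (LinearMap.proj l : (Fin d → κ) →ₗ[κ] κ).smulRight (A x) := by
    apply LinearMap.ext
    intro y
    simp
  rw [h2, LinearMap.trace_smulRight] at h1
  simpa using h1

theorem nondeg_A {κ : Type} [Field κ] {BB : Type} [Ring BB] [Algebra κ BB]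
    [FiniteDimensional κ BB] (w : Wed κ BB) (e : BB) (he : e * e = e) (hec : ∀ h, e * h = h * e)
    (W0 : Finset (Fin w.r)) (h1 : ∀ j ∈ W0, w.ρ j e = 1) (h0 : ∀ j ∉ W0, w.ρ j e = 0)
    (c : Fin w.r → κ) (hc : ∀ j ∈ W0, c j ≠ 0) (t : BB →ₗ[κ] κ)
    (ht : ∀ h, t (e * h) = ∑ j ∈ W0, c j * LinearMap.trace κ _ (w.ρ j h))
    (hdim : finrank κ (LinearMap.range (LinearMap.mulLeft κ e)) ≤ ∑ j ∈ W0, w.d j ^ 2) (h : BB)
    (hh : ∀ h', t (e * h * h') = 0) : e * h = 0 := by
  classical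
  have hρ : ∀ j ∈ W0, w.ρ j h = 0 := by
    intro j hj
    apply zero_of_trace
    intro f
    obtain ⟨h', hh'⟩ := w.surj (Pi.single j f)
    have h2 := hh h'
    rw [mul_assoc, ht, Finset.sum_eq_single_of_mem j hj] at h2
    · rw [map_mul, hh' j, Pi.single_eq_same] at h2
      exact (mul_eq_zero.1 h2).resolve_left (hc j hj)
    · intro i _ hij
      rw [map_mul, hh' i, Pi.single_eq_of_ne hij, mul_zero, map_zero, mul_zero]
  let Ψ : BB →ₗ[κ] (∀ j : {j // j ∈ W0}, Module.End κ (Fin (w.d j.1) → κ)) :=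
    LinearMap.pi fun j => (w.ρ j.1).toLinearMap
  have hΨ : ∀ x j, Ψ x j = w.ρ j.1 x := fun _ _ => rfl
  let Φ : LinearMap.range (LinearMap.mulLeft κ e) →ₗ[κ]
      (∀ j : {j // j ∈ W0}, Module.End κ (Fin (w.d j.1) → κ)) :=
    Ψ.domRestrict _
  have hsurj : Function.Surjective Φ := by
    intro f
    obtain ⟨h', hh'⟩ := w.surj (fun j => if hj : j ∈ W0 then f ⟨j, hj⟩ else 0)
    refine ⟨⟨e * h', h', rfl⟩, ?_⟩
    funext j
    change w.ρ j.1 (e * h') = f j
    rw [map_mul, h1 j.1 j.2, one_mul, hh' j.1, dif_pos j.2]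
  have hft : finrank κ (∀ j : {j // j ∈ W0}, Module.End κ (Fin (w.d j.1) → κ)) =
      ∑ j ∈ W0, w.d j ^ 2 := by
    rw [Module.finrank_pi_fintype, ← Finset.sum_coe_sort W0 (fun j => w.d j ^ 2)]
    refine Finset.sum_congr rfl fun j _ => ?_
    rw [Module.finrank_linearMap, Module.finrank_fin_fun, sq]
  have hle := LinearMap.finrank_le_finrank_of_surjective hsurj
  have hinj : Function.Injective Φ := by
    rw [LinearMap.injective_iff_surjective_of_finrank_eq_finrank]
    · exact hsurj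
    · rw [hft] at hle ⊢
      exact le_antisymm hdim hle
  have h3 : Φ ⟨e * h, h, rfl⟩ = Φ 0 := by
    rw [map_zero]
    funext j
    change w.ρ j.1 (e * h) = 0
    rw [map_mul, hρ j.1 j.2, mul_zero]
  have h4 := hinj h3
  exact congrArg Subtype.val h4

end SYM
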