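import Pool.Agent.Lib.MP_b1ea0f_al.RHalf

/-
MP_b1ea0f_al, module RCls (about 220 lines).  Section 8.3: the root systems of rank ≤ 2.
PROOF. Φ = {c : IsRoot c, q^c = 1}, closed under negation. Any three vectors a, b, d ∈ Φ are linearly
dependent over ℤ in the strong sense: if a, b are not proportional, then the 2 × 2 determinant
Δ = deg a * b k - deg b * a k is ≠ 0 [otherwise deg b • a - deg a • b (if (deg a, deg b) ≠ 0) resp.
b k • a - a k • b has q = 1, deg = 0, k-coordinate 0, so it is 0 by hinj, and a, b are proportional; if all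
four numbers vanish then a = b = 0 by hinj], and Δ • d = p • a + r • b with p = deg d * b k - deg b * d k,
r = deg a * d k - deg d * a k (the difference has q = 1, deg 0, k-coordinate 0).
Roots that are proportional are equal up to sign (norm 2). For non-proportional roots ip ∈ {-1,0,1}
(ip_cases).
Take α ∈ G. If Φ = {±α}: case 1. Otherwise choose c ∈ Φ, c ≠ ±α, with ip c α = ±1 if there is one.
(i) ip c α = ±1; replacing c by -c: ip c α = -1. Then Φ = {±α, ±c, ±(α + c)}: let d ∈ Φ with
 s = ip d α, t = ip d c. If |s| = 2 then d = ±α, if |t| = 2 then d = ±c. Otherwise s, t ∈ {0, ±1}; from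
 Δ d = p α + r c: Δ s = 2p - r, Δ t = 2r - p, 2 Δ = p s + r t (pairing with d), so 3p = Δ(2s + t),
 3r = Δ(s + 2t), 6 = 2s² + 2st + 2t², so s = t = ±1, p = r = ±Δ, d = ±(α + c).
 The degrees of α, c, α + c: if none is 0: exactly three of the six roots have degree ≥ 1, one of them is the
 sum of the two others, whose product is -1: case 4 (mem_Rc). [Signs: deg α ≥ 1. If deg c ≥ 1: γ = α,
 δ = c. If deg c ≤ -1 and deg (α + c) ≥ 1: γ = α + c, δ = -c, sum α. If deg (α + c) ≤ -1: γ = α,
 δ = -(α + c), sum = -c.] If one of them is 0 (deg c = 0 or deg (α + c) = 0): G = {γ, β} with difference the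
 leg root: case 3: deg c = 0: {α, α + c}; deg (α + c) = 0: {α, -c}.
(ii) all c ∈ Φ, c ≠ ±α, have ip c α = 0; fix one, c. Any d ∈ Φ, d ≠ ±α: Δ d = p α + r c, pairing with α:
 0 = 2p, so d is proportional to c, d = ±c. If deg c ≠ 0: case 2 with β = ±c of degree ≥ 1; if deg c = 0:
 case 1.
-/

namespace SYM

variable {n : ℕ}

private theorem ipc (v w : Vec n) : ip v w = ip w v := BMM.bil_comm v w

private theorem ip_al (u v w : Vec n) : ip (u + v) w = ip u w + ip v w := BMM.bil_add_left u v w

private theorem ip_sl (c : ℤ) (v w : Vec n) : ip (c • v) w = c * ip v w := BMM.bil_smul_left c v w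

private theorem ip_nl (v w : Vec n) : ip (-v) w = -ip v w := by
  have h := ip_sl (-1) v w
  rw [neg_one_smul] at h
  rw [h]; ring

private theorem ip_ar (u v w : Vec n) : ip w (u + v) = ip w u + ip w v := by
  rw [ipc, ip_al, ipc u, ipc v]

private theorem ip_nr (v w : Vec n) : ip w (-v) = -ip w v := by
  rw [ipc, ip_nl, ipc]

private theorem ip_subl (u v w : Vec n) : ip (u - v) w = ip u w - ip v w := by
  rw [sub_eq_add_neg, ip_al, ip_nl]; ring

private theorem ip_subr (u v w : Vec n) : ip w (u - v) = ip w u - ip w v := by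
  rw [sub_eq_add_neg, ip_ar, ip_nr]; ring

private theorem smul_canc {m : ℤ} (hm : m ≠ 0) {a b : Vec n} (h : m • a = m • b) : a = b := by
  funext l
  have h1 := congrFun h l
  simp only [Pi.smul_apply, smul_eq_mul] at h1
  exact mul_left_cancel₀ hm h1

private theorem isQ_neg {v : Vec n} (hv : IsQ v) : IsQ (-v) := by
  have h := BMM.inQ_smul (-1) hv
  rwa [neg_one_smul] at h

private theorem root_neg {v : Vec n} (hv : IsRoot v) : IsRoot (-v) := by
  refine ⟨isQ_neg hv.1, ?_⟩
  have h := hv.2
  show ip (-v) (-v) = 2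
  rw [ip_nl, ip_nr]
  have h' : ip v v = 2 := h
  omega

/-- proportional roots are equal up to sign -/
private theorem prop_root {a b : Vec n} (ha : IsRoot a) (hb : IsRoot b) {s t : ℤ}
    (hst : s ≠ 0 ∨ t ≠ 0) (h : s • a = t • b) : a = b ∨ a = -b := by
  have ha2 : ip a a = 2 := ha.2
  have hb2 : ip b b = 2 := hb.2
  have h1 : ip (s • a) (s • a) = ip (t • b) (t • b) := by rw [h]
  rw [ip_sl, ip_sl, ipc a, ipc b, ip_sl, ip_sl, ha2, hb2] at h1
  have h2 : s ^ 2 = t ^ 2 := by nlinarith
  rcases sq_eq_sq_iff_eq_or_eq_neg.1 h2 with h3 | h3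
  · left
    have hs : s ≠ 0 := by
      rcases hst with h4 | h4
      · exact h4
      · rw [h3]; exact h4
    subst h3
    exact smul_canc hs h
  · right
    have hs : s ≠ 0 := by
      rcases hst with h4 | h4
      · exact h4
      · rw [h3]; exact neg_ne_zero.2 h4
    apply smul_canc hs
    rw [h, smul_neg, h3, neg_smul, neg_neg]

private theorem dep {κ : Type} [Field κ] (x : J n → κˣ) (z : κˣ) (k : J n)
    (hinj : ∀ v : Vec n, IsQ v → qch x z v = 1 → deg v = 0 → v k = 0 → v = 0)
    {a b d : Vec n} (ha : IsRoot a) (hb : IsRoot b) (hd : IsRoot d)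
    (qa : qch x z a = 1) (qb : qch x z b = 1) (qd : qch x z d = 1)
    (h1 : a ≠ b) (h2 : a ≠ -b) :
    ∃ D p r : ℤ, D ≠ 0 ∧ D • d = p • a + r • b := by
  have key : ∀ s t : ℤ, deg (s • a + t • b) = 0 → (s • a + t • b) k = 0 →
      s • a + t • b = 0 := by
    intro s t h3 h4
    refine hinj _ (BMM.inQ_add (BMM.inQ_smul s ha.1) (BMM.inQ_smul t hb.1)) ?_ h3 h4
    rw [qch_add, qch_smul, qch_smul, qa, qb, one_zpow, one_zpow, one_mul]
  refine ⟨deg a * b k - deg b * a k, deg d * b k - deg b * d k, deg a * d k - deg d * a k,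
    ?_, ?_⟩
  · intro h0
    have nz : ∀ s t : ℤ, (s ≠ 0 ∨ t ≠ 0) → s • a + t • b ≠ 0 := by
      intro s t hst h3
      have h4 : s • a = (-t) • b := by
        rw [neg_smul]
        exact eq_neg_of_add_eq_zero_left h3
      rcases prop_root ha hb (s := s) (t := -t)
        (by rcases hst with h | h
            · exact Or.inl h
            · exact Or.inr (neg_ne_zero.2 h)) h4 with h5 | h5
      · exact h1 h5
      · exact h2 h5
    by_cases hdd : deg a ≠ 0 ∨ deg b ≠ 0
    · apply nz (deg b) (-deg a)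
      · rcases hdd with h | h
        · exact Or.inr (neg_ne_zero.2 h)
        · exact Or.inl h
      · apply key
        · rw [lev_add', deg_smul', deg_smul']; ring
        · simp only [Pi.add_apply, Pi.smul_apply, smul_eq_mul]
          linarith
    · push Not at hdd
      by_cases hkk : a k ≠ 0 ∨ b k ≠ 0
      · apply nz (b k) (-a k)
        · rcases hkk with h | h
          · exact Or.inr (neg_ne_zero.2 h)
          · exact Or.inl h
        · apply key
          · rw [lev_add', deg_smul', deg_smul', hdd.1, hdd.2]; ring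
          · simp only [Pi.add_apply, Pi.smul_apply, smul_eq_mul]
            ring
      · push Not at hkk
        apply nz 1 0 (Or.inl one_ne_zero)
        apply key
        · rw [lev_add', deg_smul', deg_smul', hdd.1]; ring
        · simp only [Pi.add_apply, Pi.smul_apply, smul_eq_mul]
          rw [hkk.1]; ring
  · have h3 : (deg a * b k - deg b * a k) • d + ((-(deg d * b k - deg b * d k)) • a
        + (-(deg a * d k - deg d * a k)) • b) = 0 := by
      apply hinj
      · exact BMM.inQ_add (BMM.inQ_smul _ hd.1)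
          (BMM.inQ_add (BMM.inQ_smul _ ha.1) (BMM.inQ_smul _ hb.1))
      · rw [qch_add, qch_add, qch_smul, qch_smul, qch_smul, qa, qb, qd]
        simp only [one_zpow, one_mul]
      · rw [lev_add', lev_add', deg_smul', deg_smul', deg_smul']; ring
      · simp only [Pi.add_apply, Pi.smul_apply, smul_eq_mul]; ring
    rw [neg_smul, neg_smul, ← neg_add] at h3
    exact eq_of_sub_eq_zero (by rw [sub_eq_add_neg]; exact h3)

private theorem cls_m1 {κ : Type} [Field κ] (x : J n → κˣ) (z : κˣ) (k : J n)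
    (hinj : ∀ v : Vec n, IsQ v → qch x z v = 1 → deg v = 0 → v k = 0 → v = 0)
    {a b d : Vec n} (ha : IsRoot a) (hb : IsRoot b) (hd : IsRoot d)
    (qa : qch x z a = 1) (qb : qch x z b = 1) (qd : qch x z d = 1)
    (hab : ip a b = -1) :
    d = a ∨ d = -a ∨ d = b ∨ d = -b ∨ d = a + b ∨ d = -(a + b) := by
  have ha2 : ip a a = 2 := ha.2
  have hb2 : ip b b = 2 := hb.2
  have hd2 : ip d d = 2 := hd.2
  obtain ⟨D, p, r, hD, h⟩ := dep x z k hinj ha hb hd qa qb qd
    (by rintro rfl; omega) (by rintro rfl; rw [ip_nl] at hab; omega)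
  have e1 : D * ip d a = 2 * p - r := by
    have := congrArg (fun v => ip v a) h
    simp only [ip_sl, ip_al, ha2, ipc b a, hab] at this
    linarith
  have e2 : D * ip d b = 2 * r - p := by
    have := congrArg (fun v => ip v b) h
    simp only [ip_sl, ip_al, hb2, hab] at this
    linarith
  have e3 : D * 2 = p * ip d a + r * ip d b := by
    have := congrArg (fun v => ip v d) h
    simp only [ip_sl, ip_al, hd2, ipc a d, ipc b d] at this
    linarith
  set s := ip d a with hs
  set t := ip d b with ht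
  have e4 : s ^ 2 + s * t + t ^ 2 = 3 := by
    apply mul_left_cancel₀ hD
    have h2 : 2 * (D * (s ^ 2 + s * t + t ^ 2)) = 2 * (D * 3) := by
      linear_combination s * (2 * e1 + e2) + t * (e1 + 2 * e2) - 3 * e3
    linarith
  have hs1 : s ≤ 2 := by nlinarith [sq_nonneg (s + 2 * t)]
  have hs2 : -2 ≤ s := by nlinarith [sq_nonneg (s + 2 * t)]
  have ht1 : t ≤ 2 := by nlinarith [sq_nonneg (2 * s + t)]
  have ht2 : -2 ≤ t := by nlinarith [sq_nonneg (2 * s + t)]
  have fin : ∀ u v : ℤ, p = u * D → r = v * D → d = u • a + v • b := by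
    intro u v hu hv
    apply smul_canc hD
    rw [h, hu, hv, smul_add, smul_smul, smul_smul, mul_comm u, mul_comm v]
  have e5 : 3 * p = D * (2 * s + t) := by linarith
  have e6 : 3 * r = D * (s + 2 * t) := by linarith
  clear_value s t
  have cases6 : (s = 2 ∧ t = -1) ∨ (s = -2 ∧ t = 1) ∨ (s = -1 ∧ t = 2) ∨ (s = 1 ∧ t = -2) ∨
      (s = 1 ∧ t = 1) ∨ (s = -1 ∧ t = -1) := by
    clear fin e5 e6 e1 e2 e3 hs ht h
    interval_cases s <;> interval_cases t <;> simp_all
  rcases cases6 with ⟨rfl, rfl⟩ | ⟨rfl, rfl⟩ | ⟨rfl, rfl⟩ | ⟨rfl, rfl⟩ | ⟨rfl, rfl⟩ | ⟨rfl, rfl⟩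
  · left
    rw [fin 1 0 (by linarith) (by linarith)]
    simp
  · right; left
    rw [fin (-1) 0 (by linarith) (by linarith)]
    simp
  · right; right; left
    rw [fin 0 1 (by linarith) (by linarith)]
    simp
  · right; right; right; left
    rw [fin 0 (-1) (by linarith) (by linarith)]
    simp
  · right; right; right; right; left
    rw [fin 1 1 (by linarith) (by linarith)]
    simp
  · right; right; right; right; right
    rw [fin (-1) (-1) (by linarith) (by linarith)]
    simp only [neg_smul, one_smul, neg_add]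

private theorem cls_0 {κ : Type} [Field κ] (x : J n → κˣ) (z : κˣ) (k : J n)
    (hinj : ∀ v : Vec n, IsQ v → qch x z v = 1 → deg v = 0 → v k = 0 → v = 0)
    {a b d : Vec n} (ha : IsRoot a) (hb : IsRoot b) (hd : IsRoot d)
    (qa : qch x z a = 1) (qb : qch x z b = 1) (qd : qch x z d = 1)
    (hab : ip a b = 0) :
    d = a ∨ d = -a ∨ d = b ∨ d = -b := by
  have ha2 : ip a a = 2 := ha.2
  have hb2 : ip b b = 2 := hb.2
  have hd2 : ip d d = 2 := hd.2
  obtain ⟨D, p, r, hD, h⟩ := dep x z k hinj ha hb hd qa qb qd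
    (by rintro rfl; omega) (by rintro rfl; rw [ip_nl] at hab; omega)
  have e1 : D * ip d a = 2 * p := by
    have := congrArg (fun v => ip v a) h
    simp only [ip_sl, ip_al, ha2, ipc b a, hab] at this
    linarith
  have e2 : D * ip d b = 2 * r := by
    have := congrArg (fun v => ip v b) h
    simp only [ip_sl, ip_al, hb2, hab] at this
    linarith
  have e3 : D * 2 = p * ip d a + r * ip d b := by
    have := congrArg (fun v => ip v d) h
    simp only [ip_sl, ip_al, hd2, ipc a d, ipc b d] at this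
    linarith
  set s := ip d a with hs
  set t := ip d b with ht
  have e4 : s ^ 2 + t ^ 2 = 4 := by
    apply mul_left_cancel₀ hD
    linear_combination s * e1 + t * e2 - 2 * e3
  have hs1 : s ≤ 2 := by nlinarith [sq_nonneg t]
  have hs2 : -2 ≤ s := by nlinarith [sq_nonneg t]
  have ht1 : t ≤ 2 := by nlinarith [sq_nonneg s]
  have ht2 : -2 ≤ t := by nlinarith [sq_nonneg s]
  have fin : ∀ u v : ℤ, p = u * D → r = v * D → d = u • a + v • b := by
    intro u v hu hv
    apply smul_canc hD
    rw [h, hu, hv, smul_add, smul_smul, smul_smul, mul_comm u, mul_comm v]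
  clear_value s t
  have cases4 : (s = 2 ∧ t = 0) ∨ (s = -2 ∧ t = 0) ∨ (s = 0 ∧ t = 2) ∨ (s = 0 ∧ t = -2) := by
    clear fin e1 e2 e3 hs ht h
    interval_cases s <;> interval_cases t <;> simp_all
  rcases cases4 with ⟨rfl, rfl⟩ | ⟨rfl, rfl⟩ | ⟨rfl, rfl⟩ | ⟨rfl, rfl⟩
  · left
    rw [fin 1 0 (by linarith) (by linarith)]
    simp
  · right; left
    rw [fin (-1) 0 (by linarith) (by linarith)]
    simp
  · right; right; left
    rw [fin 0 1 (by linarith) (by linarith)]
    simp
  · right; right; right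
    rw [fin 0 (-1) (by linarith) (by linarith)]
    simp

/-- case 4 -/
private theorem case4 (hn : HN n) {κ : Type} [Field κ] (x : J n → κˣ) (z : κˣ)
    (G : Finset (Vec n)) (hG : ∀ α, α ∈ G ↔ α ∈ Rc n ∧ qch x z α = 1)
    {g e : Vec n} (hg : IsRoot g) (he : IsRoot e) (hge : IsRoot (g + e))
    (qg : qch x z g = 1) (qe : qch x z e = 1) (dg1 : 1 ≤ deg g) (de1 : 1 ≤ deg e)
    (hip : ip g e = -1)
    (hall : ∀ d, IsRoot d → qch x z d = 1 →
      d = g ∨ d = -g ∨ d = e ∨ d = -e ∨ d = g + e ∨ d = -(g + e)) :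
    (∃ γ δ, γ ≠ δ ∧ γ + δ ∈ Rc n ∧ G = {γ, δ, γ + δ} ∧ ip γ δ = -1 ∧
      (∀ c, IsRoot c → qch x z c = 1 → deg c ≠ 0) ∧
      (∀ c, IsRoot c → qch x z c = 1 → ip c γ = 1 → c = γ + δ ∨ c = -δ) ∧
      (∀ c, IsRoot c → qch x z c = 1 → ip c δ = 1 → c = γ + δ ∨ c = -γ) ∧
      (∀ c, IsRoot c → qch x z c = 1 → ip c (γ + δ) = 1 → c = γ ∨ c = δ)) := by
  have hg2 : ip g g = 2 := hg.2
  have he2 : ip e e = 2 := he.2
  have hip' : ip e g = -1 := by rw [ipc]; exact hip
  have hsum : deg (g + e) = deg g + deg e := lev_add' g e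
  refine ⟨g, e, ?_, (mem_Rc hn).2 ⟨hge, by omega⟩, ?_, hip, ?_, ?_, ?_, ?_⟩
  · rintro rfl; omega
  · ext d
    rw [hG, mem_Rc hn]
    simp only [Finset.mem_insert, Finset.mem_singleton]
    constructor
    · rintro ⟨⟨hd, hd1⟩, qd⟩
      rcases hall d hd qd with rfl | rfl | rfl | rfl | rfl | rfl
      · simp
      · rw [deg_neg'] at hd1; omega
      · simp
      · rw [deg_neg'] at hd1; omega
      · simp
      · rw [deg_neg'] at hd1; omega
    · rintro (rfl | rfl | rfl)
      · exact ⟨⟨hg, dg1⟩, qg⟩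
      · exact ⟨⟨he, de1⟩, qe⟩
      · exact ⟨⟨hge, by omega⟩, by rw [qch_add, qg, qe, one_mul]⟩
  · intro d hd qd
    rcases hall d hd qd with rfl | rfl | rfl | rfl | rfl | rfl
    · omega
    · rw [deg_neg']; omega
    · omega
    · rw [deg_neg']; omega
    · omega
    · rw [deg_neg']; omega
  · intro d hd qd h1
    rcases hall d hd qd with rfl | rfl | rfl | rfl | rfl | rfl
    · omega
    · rw [ip_nl] at h1; omega
    · omega
    · simp
    · simp
    · rw [ip_nl, ip_al] at h1; omega
  · intro d hd qd h1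
    rcases hall d hd qd with rfl | rfl | rfl | rfl | rfl | rfl
    · omega
    · simp
    · omega
    · rw [ip_nl] at h1; omega
    · simp
    · rw [ip_nl, ip_al] at h1; omega
  · intro d hd qd h1
    rw [ip_ar] at h1
    rcases hall d hd qd with rfl | rfl | rfl | rfl | rfl | rfl
    · simp
    · rw [ip_nl, ip_nl] at h1; omega
    · simp
    · rw [ip_nl, ip_nl] at h1; omega
    · rw [ip_al, ip_al] at h1; omega
    · rw [ip_nl, ip_nl, ip_al, ip_al] at h1; omega

/-- case 3 -/
private theorem case3 (hn : HN n) {κ : Type} [Field κ] (x : J n → κˣ) (z : κˣ)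
    (G : Finset (Vec n)) (hG : ∀ α, α ∈ G ↔ α ∈ Rc n ∧ qch x z α = 1)
    {g e : Vec n} (hg : IsRoot g) (he : IsRoot e)
    (qg : qch x z g = 1) (qe : qch x z e = 1) (dg1 : 1 ≤ deg g) (hdeg : deg g = deg e)
    (hip : ip g e = 1)
    (hall : ∀ d, IsRoot d → qch x z d = 1 →
      d = g ∨ d = -g ∨ d = e ∨ d = -e ∨ d = g - e ∨ d = e - g) :
    (∃ γ β, γ ≠ β ∧ G = {γ, β} ∧ ip γ β = 1 ∧ deg γ = deg β ∧
      (∀ c, IsRoot c → qch x z c = 1 → ip c γ = 1 → c = β ∨ c = γ - β) ∧
      (∀ c, IsRoot c → qch x z c = 1 → ip c β = 1 → c = γ ∨ c = β - γ)) := by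
  have hg2 : ip g g = 2 := hg.2
  have he2 : ip e e = 2 := he.2
  have hip' : ip e g = 1 := by rw [ipc]; exact hip
  have hs1 : deg (g - e) = 0 := by
    rw [sub_eq_add_neg, lev_add', deg_neg']; omega
  have hs2 : deg (e - g) = 0 := by
    rw [sub_eq_add_neg, lev_add', deg_neg']; omega
  refine ⟨g, e, ?_, ?_, hip, hdeg, ?_, ?_⟩
  · rintro rfl; omega
  · ext d
    rw [hG, mem_Rc hn]
    simp only [Finset.mem_insert, Finset.mem_singleton]
    constructor
    · rintro ⟨⟨hd, hd1⟩, qd⟩
      rcases hall d hd qd with rfl | rfl | rfl | rfl | rfl | rfl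
      · simp
      · rw [deg_neg'] at hd1; omega
      · simp
      · rw [deg_neg'] at hd1; omega
      · omega
      · omega
    · rintro (rfl | rfl)
      · exact ⟨⟨hg, dg1⟩, qg⟩
      · exact ⟨⟨he, by omega⟩, qe⟩
  · intro d hd qd h1
    rcases hall d hd qd with rfl | rfl | rfl | rfl | rfl | rfl
    · omega
    · rw [ip_nl] at h1; omega
    · simp
    · rw [ip_nl] at h1; omega
    · simp
    · rw [ip_subl] at h1; omega
  · intro d hd qd h1
    rcases hall d hd qd with rfl | rfl | rfl | rfl | rfl | rfl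
    · simp
    · rw [ip_nl] at h1; omega
    · omega
    · rw [ip_nl] at h1; omega
    · rw [ip_subl] at h1; omega
    · simp

/-- the roots `α ∈ R°` with `q^α = 1` when `{v ∈ Q : q^v = 1}` injects into `ℤ²` -/
theorem classify (hn : HN n) {κ : Type} [Field κ] (x : J n → κˣ) (z : κˣ) (k : J n)
    (hinj : ∀ v : Vec n, IsQ v → qch x z v = 1 → deg v = 0 → v k = 0 → v = 0)
    (G : Finset (Vec n)) (hG : ∀ α, α ∈ G ↔ α ∈ Rc n ∧ qch x z α = 1) (hne : G.Nonempty) :
    (∃ α, G = {α} ∧ ∀ c, IsRoot c → qch x z c = 1 → ip c α ≠ 1) ∨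
    (∃ α β, α ≠ β ∧ G = {α, β} ∧ ip α β = 0 ∧ (∀ c, IsRoot c → qch x z c = 1 → deg c ≠ 0) ∧
      ∀ c, IsRoot c → qch x z c = 1 → ip c α ≠ 1 ∧ ip c β ≠ 1) ∨
    (∃ γ β, γ ≠ β ∧ G = {γ, β} ∧ ip γ β = 1 ∧ deg γ = deg β ∧
      (∀ c, IsRoot c → qch x z c = 1 → ip c γ = 1 → c = β ∨ c = γ - β) ∧
      (∀ c, IsRoot c → qch x z c = 1 → ip c β = 1 → c = γ ∨ c = β - γ)) ∨
    (∃ γ δ, γ ≠ δ ∧ γ + δ ∈ Rc n ∧ G = {γ, δ, γ + δ} ∧ ip γ δ = -1 ∧
      (∀ c, IsRoot c → qch x z c = 1 → deg c ≠ 0) ∧
      (∀ c, IsRoot c → qch x z c = 1 → ip c γ = 1 → c = γ + δ ∨ c = -δ) ∧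
      (∀ c, IsRoot c → qch x z c = 1 → ip c δ = 1 → c = γ + δ ∨ c = -γ) ∧
      (∀ c, IsRoot c → qch x z c = 1 → ip c (γ + δ) = 1 → c = γ ∨ c = δ)) := by
  obtain ⟨α, hα⟩ := hne
  obtain ⟨hα1, qα⟩ := (hG α).1 hα
  obtain ⟨rα, dα⟩ := (mem_Rc hn).1 hα1
  have hα2 : ip α α = 2 := rα.2
  have qneg : ∀ c, qch x z c = 1 → qch x z (-c) = 1 := by
    intro c hc
    rw [qch_neg, hc, inv_one]
  by_cases hA : ∃ c, IsRoot c ∧ qch x z c = 1 ∧ (ip c α = 1 ∨ ip c α = -1)
  · right; right
    obtain ⟨c, rc, qc, hc⟩ : ∃ c, IsRoot c ∧ qch x z c = 1 ∧ ip c α = -1 := by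
      obtain ⟨c, rc, qc, hc | hc⟩ := hA
      · exact ⟨-c, root_neg rc, qneg c qc, by rw [ip_nl, hc]⟩
      · exact ⟨c, rc, qc, hc⟩
    have hc2 : ip c c = 2 := rc.2
    have hαc : ip α c = -1 := by rw [ipc]; exact hc
    have rsum : IsRoot (α + c) := by
      refine ⟨BMM.inQ_add rα.1 rc.1, ?_⟩
      show ip (α + c) (α + c) = 2
      rw [ip_al, ip_ar, ip_ar]; omega
    have qsum : qch x z (α + c) = 1 := by rw [qch_add, qα, qc, one_mul]
    have dsum : deg (α + c) = deg α + deg c := lev_add' α c
    have hall : ∀ d, IsRoot d → qch x z d = 1 →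
        d = α ∨ d = -α ∨ d = c ∨ d = -c ∨ d = α + c ∨ d = -(α + c) := fun d hd qd =>
      cls_m1 x z k hinj rα rc hd qα qc qd hαc
    rcases lt_trichotomy (deg c) 0 with hdc | hdc | hdc
    · rcases lt_trichotomy (deg (α + c)) 0 with hds | hds | hds
      · right
        refine case4 hn x z G hG (g := α) (e := -(α + c)) rα (root_neg rsum) ?_ qα
          (qneg _ qsum) dα (by rw [deg_neg']; omega) (by rw [ip_nr, ip_ar]; omega) ?_
        · have : α + -(α + c) = -c := by abel
          rw [this]; exact root_neg rc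
        · intro d hd qd
          have h1 : α + -(α + c) = -c := by abel
          rw [h1, neg_neg, neg_neg]
          rcases hall d hd qd with h | h | h | h | h | h <;> simp [h]
      · left
        refine case3 hn x z G hG (g := α) (e := -c) rα (root_neg rc) qα (qneg _ qc) dα
          (by rw [deg_neg']; omega) (by rw [ip_nr]; omega) ?_
        intro d hd qd
        have h1 : α - -c = α + c := by abel
        have h2 : -c - α = -(α + c) := by abel
        rw [h1, h2, neg_neg]
        rcases hall d hd qd with h | h | h | h | h | h <;> simp [h]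
      · right
        refine case4 hn x z G hG (g := α + c) (e := -c) rsum (root_neg rc) ?_ qsum
          (qneg _ qc) (by omega) (by rw [deg_neg']; omega) (by rw [ip_nr, ip_al]; omega) ?_
        · have : α + c + -c = α := by abel
          rw [this]; exact rα
        · intro d hd qd
          have h1 : α + c + -c = α := by abel
          rw [h1, neg_neg]
          rcases hall d hd qd with h | h | h | h | h | h <;> simp [h]
    · left
      refine case3 hn x z G hG (g := α) (e := α + c) rα rsum qα qsum dα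
        (by omega) (by rw [ip_ar]; omega) ?_
      intro d hd qd
      have h1 : α - (α + c) = -c := by abel
      have h2 : α + c - α = c := by abel
      rw [h1, h2]
      rcases hall d hd qd with h | h | h | h | h | h <;> simp [h]
    · right
      exact case4 hn x z G hG rα rc rsum qα qc dα (by omega) hαc hall
  · push Not at hA
    by_cases hB : ∃ c, IsRoot c ∧ qch x z c = 1 ∧ c ≠ α ∧ c ≠ -α
    · obtain ⟨c, rc, qc, hc⟩ := hB
      have hc2 : ip c c = 2 := rc.2
      have hcα : ip c α = 0 := by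
        rcases ip_cases hn rc rα hc.1 hc.2 with h | h | h
        · exact absurd h (hA c rc qc).2
        · exact h
        · exact absurd h (hA c rc qc).1
      have hαc : ip α c = 0 := by rw [ipc]; exact hcα
      by_cases hd0 : deg c = 0
      · left
        have hall : ∀ d, IsRoot d → qch x z d = 1 →
            d = α ∨ d = -α ∨ d = c ∨ d = -c := fun d hd qd =>
          cls_0 x z k hinj rα rc hd qα qc qd hαc
        refine ⟨α, ?_, ?_⟩
        · ext d
          rw [hG, mem_Rc hn, Finset.mem_singleton]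
          constructor
          · rintro ⟨⟨hd, hd1⟩, qd⟩
            rcases hall d hd qd with rfl | rfl | rfl | rfl
            · rfl
            · rw [deg_neg'] at hd1; omega
            · omega
            · rw [deg_neg'] at hd1; omega
          · rintro rfl
            exact ⟨⟨rα, dα⟩, qα⟩
        · intro d hd qd h1
          exact (hA d hd qd).1 h1
      · right; left
        obtain ⟨c, rc, qc, hcα, hαc, dc⟩ : ∃ c, IsRoot c ∧ qch x z c = 1 ∧ ip c α = 0 ∧
            ip α c = 0 ∧ 1 ≤ deg c := by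
          rcases lt_or_gt_of_ne hd0 with h | h
          · exact ⟨-c, root_neg rc, qneg c qc, by rw [ip_nl, hcα]; rfl,
              by rw [ip_nr, hαc]; rfl, by rw [deg_neg']; omega⟩
          · exact ⟨c, rc, qc, hcα, hαc, by omega⟩
        have hc2 : ip c c = 2 := rc.2
        have hall : ∀ d, IsRoot d → qch x z d = 1 →
            d = α ∨ d = -α ∨ d = c ∨ d = -c := fun d hd qd =>
          cls_0 x z k hinj rα rc hd qα qc qd hαc
        refine ⟨α, c, ?_, ?_, hαc, ?_, ?_⟩
        · rintro rfl; omega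
        · ext d
          rw [hG, mem_Rc hn]
          simp only [Finset.mem_insert, Finset.mem_singleton]
          constructor
          · rintro ⟨⟨hd, hd1⟩, qd⟩
            rcases hall d hd qd with rfl | rfl | rfl | rfl
            · simp
            · rw [deg_neg'] at hd1; omega
            · simp
            · rw [deg_neg'] at hd1; omega
          · rintro (rfl | rfl)
            · exact ⟨⟨rα, dα⟩, qα⟩
            · exact ⟨⟨rc, dc⟩, qc⟩
        · intro d hd qd
          rcases hall d hd qd with rfl | rfl | rfl | rfl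
          · omega
          · rw [deg_neg']; omega
          · omega
          · rw [deg_neg']; omega
        · intro d hd qd
          refine ⟨(hA d hd qd).1, ?_⟩
          rcases hall d hd qd with rfl | rfl | rfl | rfl
          · omega
          · rw [ip_nl]; omega
          · omega
          · rw [ip_nl]; omega
    · push Not at hB
      left
      refine ⟨α, ?_, ?_⟩
      · ext d
        rw [hG, mem_Rc hn, Finset.mem_singleton]
        constructor
        · rintro ⟨⟨hd, hd1⟩, qd⟩
          by_contra hne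
          have h1 := hB d hd qd hne
          rw [h1, deg_neg'] at hd1
          omega
        · rintro rfl
          exact ⟨⟨rα, dα⟩, qα⟩
      · intro d hd qd h1
        exact (hA d hd qd).1 h1

end SYM
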