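import Pool.Agent.Lib.MP_b1ea0f_al.RInd
import Pool.Agent.Lib.MP_b1ea0f_al.RHalf
import Pool.Agent.Lib.BMM.GroupPt

/-
MP_b1ea0f_al, module RGroup (about 90 lines).  Translation of BMM.group_point.
PROOF. hx.1: ξ is a primitive NZ n-th root of unity, x l = ξ^{NZ n / leg * (l.2+1)}, so with ω = (ξ : κ)
(IsPrimitiveRoot of the coercion: IsPrimitiveRoot.coe_units_iff) the function l ↦ (x l : κ) is
BMM.xgp n ω (NZ_eq). Take a half h (exists_half), build the BMM.Half with the same L, μ, ε; its D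
(BMM.Half.D) at the coercions is the coercion-version of h.D (coe_qch); schur_eq gives schur. The
condition z^{dg α} = mon x α becomes (z : κ)^{lev α} = BMM.mon ... (zpow_natCast, dg_bounds, coe_mon);
BMM.group_point; BMM.varpi n = varpi n (both are NZ/(2 p)); divide by (dg α)² ≠ 0 (CharZero).
-/

namespace SYM

variable {n : ℕ}

private theorem varpi_BMM (hn : HN n) : varpi n = BMM.varpi n := by
  funext l
  show ((NZ n / (2 * leg n l.1) : ℕ) : ℤ) = (BMM.NN n : ℤ) / (2 * (BMM.pp n l.1 : ℤ))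
  rw [NZ_eq hn]
  push_cast
  rfl

theorem schur_group (hn : HN n) {κ : Type} [Field κ] [CharZero κ] (ξ : κˣ) (x : J n → κˣ)
    (hx : IsGroupPoint ξ x) {α : Vec n} (hα : α ∈ Rc n) (z : κˣ) (hz : z ^ dg α = mon x α) :
    schur α x z = (NZ n : κ) ^ 2 / (dg α : κ) ^ 2 := by
  obtain ⟨hd1, hd2, -, -⟩ := dg_bounds hn hα
  have hα' : α ∈ BMM.Rc n := (mem_Rc_iff_BMM hn).1 hα
  obtain ⟨hb⟩ := BMM.half_exists hn hα'
  have hsum : ∑ c ∈ hb.L, c = 2 • hb.μ + hb.ε • α := by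
    rw [hb.sum, natCast_zsmul, two_zsmul, two_nsmul]
  let h : Half α :=
    { L := hb.L
      mu := hb.μ
      eps := hb.ε
      isQ_mu := hb.hμ
      isRoot := fun c hc => (hb.mem c hc).1
      ip_eq := fun c hc => (hb.mem c hc).2
      half := hb.half
      sum_eq := hsum
      even := BMM.half_card_even hn hα' hb }
  have hq : qch x z α = 1 := by
    rw [qch_eq_one_iff, ← hd1, zpow_natCast, hz]
  have hxg : BMM.xgp n (ξ : κ) = fun l => ((x l : κˣ) : κ) := by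
    funext l
    show (ξ : κ) ^ ((BMM.NN n / BMM.pp n l.1) * (l.2.val + 1)) = ((x l : κˣ) : κ)
    rw [hx.2 l, Units.val_pow_eq_pow_val, NZ_eq hn]
  have hω : IsPrimitiveRoot (ξ : κ) (BMM.NN n) := by
    rw [← NZ_eq hn]
    exact IsPrimitiveRoot.coe_units_iff.2 hx.1
  have hζ : (z : κ) ^ (BMM.lev α) = BMM.mon (BMM.xgp n (ξ : κ)) α := by
    rw [hxg, ← coe_mon, ← hz, Units.val_pow_eq_pow_val]
    show (z : κ) ^ (deg α) = _
    rw [← hd1, zpow_natCast]
  have hgp := BMM.group_point hn (ξ : κ) hω hα' (z : κ) hζ hb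
  have hD : hb.D (BMM.xgp n (ξ : κ)) (z : κ) = h.D x z := by
    show (-1) ^ hb.ε * BMM.qch (BMM.xgp n (ξ : κ)) (z : κ) (-hb.μ) *
        ∏ c ∈ hb.L, (BMM.qch (BMM.xgp n (ξ : κ)) (z : κ) c - 1) =
      (-1) ^ hb.ε * ((qch x z (-hb.μ) : κˣ) : κ) *
        ∏ c ∈ hb.L, (((qch x z c : κˣ) : κ) - 1)
    rw [hxg, coe_qch]
    congr 1
    refine Finset.prod_congr rfl fun c _ => ?_
    rw [coe_qch]
  have hq2 : BMM.qch (BMM.xgp n (ξ : κ)) (z : κ) (-BMM.varpi n) =
      ((qch x z (-varpi n) : κˣ) : κ) := by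
    rw [hxg, coe_qch, varpi_BMM hn]
  rw [hD, hq2] at hgp
  have hlev : ((BMM.lev α : ℤ) : κ) = (dg α : κ) := by
    have : (BMM.lev α : ℤ) = (dg α : ℤ) := hd1.symm
    rw [this, Int.cast_natCast]
  rw [hlev, ← NZ_eq hn] at hgp
  have hne : (dg α : κ) ^ 2 ≠ 0 := by
    apply pow_ne_zero
    exact Nat.cast_ne_zero.2 (by omega)
  rw [schur_eq hn hα h x z hq, eq_div_iff hne]
  exact hgp

end SYM
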