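import Pool.Agent.Lib.MP_b1ea0f_al.RQch
import Pool.Agent.Lib.BMM.RootB

/-
MP_b1ea0f_al, module RInd (about 180 lines).  Root appendix L1.1: D(α; q) does not depend on the half.
Use RQch (qch_add, qch_neg, qch_sum, ...) and BMM.RootB (BMM.bil_add_left, BMM.mem..., integer lemmas).
PROOF of D_indep: h, h' two halves of α, q^α = 1. Let S = h.L \ h'.L. By the half property h'.L =
(h.L ∩ h'.L) ∪ {α - c : c ∈ S}: c ∈ S is a root with ip c α = 1 not in h'.L, so α - c ∈ h'.L;
conversely d ∈ h'.L, d ∉ h.L gives α - d ∈ h.L (h.half for d) and α - d ∉ h'.L. The two sets are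
disjoint (α - c ∉ h.L for c ∈ S ⊂ h.L). With k = |S|: Σ_{h'.L} = Σ_{h.L} + k α - 2 Σ_S c, so
2 (μ' - μ + Σ_S c) = (ε + k - ε') α. The integer ε + k - ε' is even: otherwise α = 2 β for a vector β
with IsQ β, ip α α = 4 ip β β ≠ 2 (hα: IsRoot α from hα : α ∈ Rc n, by unfolding Rc: mem_filter).
So ε + k - ε' = 2 m, μ' = μ - Σ_S c + m α, q^{-μ'} = q^{-μ} q^{Σ_S c} (q^α = 1), and
∏_{h'.L} (q^c - 1) = ∏_{h.L ∩ h'.L} (q^c - 1) ∏_S (q^{α-c} - 1), with q^{α-c} - 1 = q^{-c} - 1 =
- q^{-c} (q^c - 1). Signs: (-1)^{ε'} (-1)^k = (-1)^ε. D'_indep: the same with the factor c removed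
(c ∈ h.L ∩ h'.L, so c is not in S, and c is not some α - d with d ∈ S as that is not in h.L).
Prove a common lemma for a finite set T ⊂ h.L ∩ h'.L of removed factors. In a commutative ring: units
(qch ... : kˣ) coerced to k.
schur_eq: schur is defined with Classical.choice; use D_indep. schur_map: unfold, f commutes with
everything (map_prod, qch_mapx); same choice on both sides.
-/

namespace SYM

variable {n : ℕ}

private theorem ri_image {α : Vec n} (h h' : Half α) [DecidableEq (Vec n)] :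
    h'.L \ h.L = (h.L \ h'.L).image (fun c => α - c) := by
  ext d
  simp only [Finset.mem_sdiff, Finset.mem_image]
  constructor
  · rintro ⟨h1, h2⟩
    have hr := h'.isRoot d h1
    have hi := h'.ip_eq d h1
    refine ⟨α - d, ⟨?_, (h'.half d hr hi).1 h1⟩, sub_sub_cancel α d⟩
    by_contra h3
    exact h2 ((h.half d hr hi).2 h3)
  · rintro ⟨c, ⟨h1, h2⟩, rfl⟩
    have hr := h.isRoot c h1
    have hi := h.ip_eq c h1
    refine ⟨?_, (h.half c hr hi).1 h1⟩
    by_contra h3
    exact h2 ((h'.half c hr hi).2 h3)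

private theorem ri_bil_two (v : Vec n) : ip ((2 : ℤ) • v) ((2 : ℤ) • v) = 4 * ip v v := by
  show BMM.bil ((2 : ℤ) • v) ((2 : ℤ) • v) = 4 * BMM.bil v v
  rw [BMM.bil_smul_left, BMM.bil_comm, BMM.bil_smul_left]
  ring

private theorem ri_neg_one_pow {k : Type*} [CommRing k] {a b : ℕ} {m : ℤ}
    (h : (a : ℤ) - b = 2 * m) : (-1 : k) ^ a = (-1) ^ b := by
  apply neg_one_pow_congr
  rw [← Int.even_coe_nat, ← Int.even_coe_nat]
  have h2 : (a : ℤ) = b + 2 * m := by linarith
  rw [h2, Int.even_add]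
  simp

open Classical in
private theorem ri_key {α : Vec n} (hα : ip α α = 2) (h h' : Half α) {k : Type*}
    [CommRing k] (x : J n → kˣ) (z : kˣ) (hq : qch x z α = 1) (T : Finset (Vec n))
    (hT : T ⊆ h.L) (hT' : T ⊆ h'.L) :
    (-1 : k) ^ h.eps * ((qch x z (-h.mu) : kˣ) : k) *
        ∏ c ∈ h.L \ T, (((qch x z c : kˣ) : k) - 1)
      = (-1 : k) ^ h'.eps * ((qch x z (-h'.mu) : kˣ) : k) *
        ∏ c ∈ h'.L \ T, (((qch x z c : kˣ) : k) - 1) := by
  set I := h.L ∩ h'.L with hI
  set S := h.L \ h'.L with hS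
  have hS' : h'.L \ h.L = S.image (fun c => α - c) := ri_image h h'
  have hinj : Function.Injective (fun c : Vec n => α - c) := sub_right_injective
  have hLI : h.L = I ∪ S := by
    rw [hI, hS]
    ext c
    simp only [Finset.mem_union, Finset.mem_inter, Finset.mem_sdiff]
    tauto
  have hLI' : h'.L = I ∪ (h'.L \ h.L) := by
    rw [hI]
    ext c
    simp only [Finset.mem_union, Finset.mem_inter, Finset.mem_sdiff]
    tauto
  have hd1 : Disjoint I S := by
    rw [hI, hS, Finset.disjoint_left]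
    intro c hc
    simp only [Finset.mem_inter, Finset.mem_sdiff] at hc ⊢
    tauto
  have hd2 : Disjoint I (h'.L \ h.L) := by
    rw [hI, Finset.disjoint_left]
    intro c hc
    simp only [Finset.mem_inter, Finset.mem_sdiff] at hc ⊢
    tauto
  have hLT : h.L \ T = (I \ T) ∪ S := by
    rw [hI, hS]
    ext c
    simp only [Finset.mem_union, Finset.mem_inter, Finset.mem_sdiff]
    have := @hT' c
    tauto
  have hLT' : h'.L \ T = (I \ T) ∪ (h'.L \ h.L) := by
    rw [hI]
    ext c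
    simp only [Finset.mem_union, Finset.mem_inter, Finset.mem_sdiff]
    have := @hT c
    tauto
  have hd3 : Disjoint (I \ T) S := Finset.disjoint_of_subset_left Finset.sdiff_subset hd1
  have hd4 : Disjoint (I \ T) (h'.L \ h.L) :=
    Finset.disjoint_of_subset_left Finset.sdiff_subset hd2
  -- sums
  have hs1 : ∑ c ∈ h.L, c = ∑ c ∈ I, c + ∑ c ∈ S, c := by
    conv_lhs => rw [hLI]
    exact Finset.sum_union hd1
  have hs2 : ∑ c ∈ h'.L, c = ∑ c ∈ I, c + (S.card • α - ∑ c ∈ S, c) := by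
    conv_lhs => rw [hLI']
    rw [Finset.sum_union hd2, hS', Finset.sum_image (fun _ _ _ _ hh => hinj hh),
      Finset.sum_sub_distrib, Finset.sum_const]
  have e1 := h.sum_eq
  have e2 := h'.sum_eq
  rw [hs1] at e1
  rw [hs2] at e2
  -- the vector identity
  have e3 : ((h.eps : ℤ) + S.card - h'.eps) • α = (2 : ℤ) • (h'.mu - h.mu + ∑ c ∈ S, c) := by
    funext l
    have f1 := congrFun e1 l
    have f2 := congrFun e2 l
    simp only [Pi.add_apply, Pi.sub_apply, Pi.smul_apply] at f1 f2 ⊢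
    simp only [smul_eq_mul, nsmul_eq_mul, Nat.cast_ofNat] at f1 f2 ⊢
    linear_combination f2 - f1
  obtain ⟨m, hm⟩ : ∃ m : ℤ, (h.eps : ℤ) + S.card - h'.eps = 2 * m := by
    rcases Int.even_or_odd' ((h.eps : ℤ) + S.card - h'.eps) with ⟨m, hm | hm⟩
    · exact ⟨m, hm⟩
    · exfalso
      rw [hm] at e3
      have e4 : α = (2 : ℤ) • (h'.mu - h.mu + ∑ c ∈ S, c - m • α) := by
        funext l
        have f3 := congrFun e3 l
        simp only [Pi.add_apply, Pi.sub_apply, Pi.smul_apply, smul_eq_mul] at f3 ⊢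
        linarith
      have e5 := ri_bil_two (h'.mu - h.mu + ∑ c ∈ S, c - m • α)
      rw [← e4, hα] at e5
      omega
  have e6 : h'.mu = h.mu - ∑ c ∈ S, c + m • α := by
    rw [hm] at e3
    funext l
    have f3 := congrFun e3 l
    simp only [Pi.add_apply, Pi.sub_apply, Pi.smul_apply, smul_eq_mul] at f3 ⊢
    linarith
  have e7 : qch x z (-h'.mu) = qch x z (-h.mu) * ∏ c ∈ S, qch x z c := by
    have e8 : -h'.mu = -h.mu + (∑ c ∈ S, c + (-m) • α) := by
      rw [e6, neg_smul]
      abel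
    rw [e8, qch_add, qch_add, qch_smul, hq, one_zpow, mul_one]
    congr 1
    exact qch_sum S (fun c => c) x z
  have e9 : (-1 : k) ^ h'.eps = (-1) ^ (h.eps + S.card) := by
    apply (ri_neg_one_pow (m := m) _).symm
    push_cast
    linarith
  have e10 : ∏ c ∈ h'.L \ h.L, (((qch x z c : kˣ) : k) - 1)
      = (-1) ^ S.card * ((∏ c ∈ S, (((qch x z c)⁻¹ : kˣ) : k)) *
        ∏ c ∈ S, (((qch x z c : kˣ) : k) - 1)) := by
    rw [hS', Finset.prod_image (fun _ _ _ _ hh => hinj hh), ← Finset.prod_mul_distrib,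
      ← Finset.prod_const, ← Finset.prod_mul_distrib]
    apply Finset.prod_congr rfl
    intro c _
    rw [qch_sub, hq, one_mul]
    have hu : (((qch x z c)⁻¹ : kˣ) : k) * ((qch x z c : kˣ) : k) = 1 := by
      rw [← Units.val_mul, inv_mul_cancel, Units.val_one]
    linear_combination hu
  have e11 : (∏ c ∈ S, ((qch x z c : kˣ) : k)) * ∏ c ∈ S, (((qch x z c)⁻¹ : kˣ) : k) = 1 := by
    rw [← Finset.prod_mul_distrib]
    apply Finset.prod_eq_one
    intro c _
    rw [← Units.val_mul, mul_inv_cancel, Units.val_one]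
  have e12 : ((-1 : k) ^ S.card) * (-1) ^ S.card = 1 := by
    rw [← mul_pow]
    simp
  rw [hLT, hLT', Finset.prod_union hd3, Finset.prod_union hd4, e10, e7, e9, pow_add,
    Units.val_mul, Units.coe_prod]
  set A := ∏ c ∈ I \ T, (((qch x z c : kˣ) : k) - 1)
  set B := ∏ c ∈ S, (((qch x z c : kˣ) : k) - 1)
  set Q := ∏ c ∈ S, ((qch x z c : kˣ) : k)
  set Q' := ∏ c ∈ S, (((qch x z c)⁻¹ : kˣ) : k)
  calc (-1 : k) ^ h.eps * ((qch x z (-h.mu) : kˣ) : k) * (A * B)
      = (-1 : k) ^ h.eps * ((qch x z (-h.mu) : kˣ) : k) * (A * B) *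
        (((-1 : k) ^ S.card) * (-1) ^ S.card) * (Q * Q') := by rw [e12, e11]; ring
    _ = _ := by ring

theorem Half.D_indep (hn : HN n) {α : Vec n} (hα : α ∈ Rc n) (h h' : Half α) {k : Type*}
    [CommRing k] (x : J n → kˣ) (z : kˣ) (hq : qch x z α = 1) : h.D x z = h'.D x z := by
  classical
  have hr : ip α α = 2 := (Finset.mem_filter.1 hα).2.1.2
  have hk := ri_key hr h h' x z hq ∅ (Finset.empty_subset _) (Finset.empty_subset _)
  rw [Finset.sdiff_empty, Finset.sdiff_empty] at hk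
  exact hk

theorem Half.D'_indep (hn : HN n) {α : Vec n} (hα : α ∈ Rc n) (h h' : Half α) (c : Vec n)
    (hc : c ∈ h.L) (hc' : c ∈ h'.L) {k : Type*} [CommRing k] (x : J n → kˣ) (z : kˣ)
    (hq : qch x z α = 1) : h.D' c x z = h'.D' c x z := by
  classical
  have hr : ip α α = 2 := (Finset.mem_filter.1 hα).2.1.2
  have hk := ri_key hr h h' x z hq {c} (Finset.singleton_subset_iff.2 hc)
    (Finset.singleton_subset_iff.2 hc')
  rw [Finset.sdiff_singleton_eq_erase, Finset.sdiff_singleton_eq_erase] at hk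
  unfold Half.D'
  convert hk using 3

theorem Half.D_eq {α : Vec n} (h : Half α) (c : Vec n) (hc : c ∈ h.L) {k : Type*} [CommRing k]
    (x : J n → kˣ) (z : kˣ) : h.D x z = (((qch x z c : kˣ) : k) - 1) * h.D' c x z := by
  unfold Half.D Half.D'
  rw [← Finset.mul_prod_erase h.L (fun c => ((qch x z c : kˣ) : k) - 1) hc]
  ring

theorem schur_eq (hn : HN n) {α : Vec n} (hα : α ∈ Rc n) (h : Half α) {k : Type*} [CommRing k]
    (x : J n → kˣ) (z : kˣ) (hq : qch x z α = 1) :
    schur α x z = (sgn n : k) * ((qch x z (-varpi n) : kˣ) : k) * h.D x z := by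
  unfold schur
  rw [dif_pos ⟨h⟩, Half.D_indep hn hα (Classical.choice ⟨h⟩) h x z hq]

theorem schur_map {α : Vec n} {k k' : Type*} [CommRing k] [CommRing k'] (f : k →+* k')
    (x : J n → kˣ) (z : kˣ) :
    schur α (mapx f x) (Units.map (f : k →* k') z) = f (schur α x z) := by
  unfold schur
  by_cases h : Nonempty (Half α)
  · rw [dif_pos h, dif_pos h]
    unfold Half.D
    rw [qch_mapx, qch_mapx]
    simp only [map_mul, map_pow, map_neg, map_one, map_prod, map_sub, map_intCast, qch_mapx,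
      Units.coe_map, MonoidHom.coe_coe]
  · rw [dif_neg h, dif_neg h, map_zero]

end SYM
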