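import Pool.Agent.Lib.MP_b1ea0f_al.RInd
import Pool.Agent.Lib.MP_b1ea0f_al.RHalf

/-
MP_b1ea0f_al, module RMatch (about 110 lines).  Root appendix L1.2, matching of punctured products.
PROOF. δ = β - γ is a root (ip δ δ = 2 - 2 + 2), ip γ δ = 1 - 2 = -1, ip β δ = 2 - 1 = 1. Let
s v = v - ip v δ • δ (BMM.refl δ): s γ = β, s β = γ, s preserves ip, IsQ, roots and is an involution
(BMM.refl_root, BMM.bil_refl, BMM.refl_refl of BMM/RootB). q^{s v} = q^v since q^δ = 1. Take
h : Half γ with β ∈ h.L (exists_half_mem, ip β γ = 1). h' := image of h under s: L' = s(h.L), mu' = s mu,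
eps' = eps, is a Half of s γ = β containing s β = γ; D' is a product over the image of a finite set under
an injective map (Finset.prod_image; erase commutes with image: Finset.image_erase / map with an
embedding), each factor unchanged; q^{-s mu} = q^{-mu}.
-/

namespace SYM

variable {n : ℕ}

private theorem refl_add (δ v w : Vec n) :
    BMM.refl δ (v + w) = BMM.refl δ v + BMM.refl δ w := by
  unfold BMM.refl
  rw [BMM.bil_add_left, add_smul]
  abel

private theorem refl_sub (δ v w : Vec n) :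
    BMM.refl δ (v - w) = BMM.refl δ v - BMM.refl δ w := by
  have h := refl_add δ (v - w) w
  rw [sub_add_cancel] at h
  rw [h, add_sub_cancel_right]

private theorem qch_refl {k : Type*} [CommRing k] (x : J n → kˣ) (z : kˣ) (δ v : Vec n)
    (hq : qch x z δ = 1) : qch x z (BMM.refl δ v) = qch x z v := by
  unfold BMM.refl
  rw [qch_sub, qch_smul, hq, one_zpow, inv_one, mul_one]

private theorem isQ_refl {δ v : Vec n} (hδ : IsQ δ) (hv : IsQ v) : IsQ (BMM.refl δ v) := by
  unfold BMM.refl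
  rw [sub_eq_add_neg, ← neg_smul]
  exact BMM.inQ_add hv (BMM.inQ_smul _ hδ)

/-- reflection as an embedding -/
private def emb {δ : Vec n} (hδ : BMM.IsRoot δ) : Vec n ↪ Vec n where
  toFun := BMM.refl δ
  inj' := by
    intro v w hvw
    have h := congrArg (BMM.refl δ) hvw
    rwa [BMM.refl_refl hδ, BMM.refl_refl hδ] at h

private theorem mem_emb {δ : Vec n} (hδ : BMM.IsRoot δ) (L : Finset (Vec n)) (c : Vec n) :
    c ∈ L.map (emb hδ) ↔ BMM.refl δ c ∈ L := by
  rw [Finset.mem_map]
  constructor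
  · rintro ⟨d, hd, rfl⟩
    show BMM.refl δ (BMM.refl δ d) ∈ L
    rwa [BMM.refl_refl hδ]
  · intro h
    exact ⟨_, h, BMM.refl_refl hδ c⟩

private theorem sum_emb {δ : Vec n} (hδ : BMM.IsRoot δ) (L : Finset (Vec n)) :
    ∑ c ∈ L.map (emb hδ), c = BMM.refl δ (∑ c ∈ L, c) := by
  rw [Finset.sum_map]
  exact (map_sum (AddMonoidHom.mk' (BMM.refl δ) (refl_add δ)) (fun c => c) L).symm

/-- the image of a half -/
private def image {γ β δ : Vec n} (hδ : BMM.IsRoot δ) (hγβ : BMM.refl δ γ = β) (h : Half γ) :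
    Half β where
  L := h.L.map (emb hδ)
  mu := BMM.refl δ h.mu
  eps := h.eps
  isQ_mu := isQ_refl hδ.1 h.isQ_mu
  isRoot := by
    intro c hc
    rw [mem_emb] at hc
    have h1 := BMM.refl_root (h.isRoot _ hc) hδ
    rwa [BMM.refl_refl hδ] at h1
  ip_eq := by
    intro c hc
    rw [mem_emb] at hc
    have h1 := h.ip_eq _ hc
    have h2 := BMM.bil_refl hδ (BMM.refl δ c) γ
    rw [BMM.refl_refl hδ, hγβ] at h2
    exact h2.trans h1
  half := by
    intro c hc hcβ
    rw [mem_emb, mem_emb, refl_sub]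
    have h3 : BMM.refl δ β = γ := by rw [← hγβ, BMM.refl_refl hδ]
    rw [h3]
    apply h.half _ (BMM.refl_root hc hδ)
    have h2 := BMM.bil_refl hδ c β
    rw [h3] at h2
    exact h2.trans hcβ
  sum_eq := by
    rw [sum_emb, h.sum_eq]
    have e := map_add (AddMonoidHom.mk' (BMM.refl δ) (refl_add δ)) (2 • h.mu) (h.eps • γ)
    rw [map_nsmul, map_nsmul] at e
    rw [← hγβ]
    exact e
  even := by
    rw [Finset.card_map]
    exact h.even

theorem matching (hn : HN n) {γ β : Vec n} (hγ : γ ∈ Rc n) (hβ : β ∈ Rc n) (h1 : ip γ β = 1)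
    {k : Type*} [CommRing k] (x : J n → kˣ) (z : kˣ) (hq : qch x z γ = 1)
    (hq' : qch x z (β - γ) = 1) :
    ∃ (h : Half γ) (h' : Half β), β ∈ h.L ∧ γ ∈ h'.L ∧ h.D' β x z = h'.D' γ x z := by
  have hγr := ((mem_Rc hn).1 hγ).1
  have hβr := ((mem_Rc hn).1 hβ).1
  have h1' : ip β γ = 1 := by rw [← h1]; exact BMM.bil_comm _ _
  have hδ : BMM.IsRoot (β - γ) := BMM.sub_root hβr hγr h1'
  have hs : BMM.refl (β - γ) γ = β := by
    have e : BMM.bil γ (β - γ) = -1 := by
      have e1 := BMM.bil_add_left (β - γ) γ γ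
      rw [sub_add_cancel] at e1
      have e2 : BMM.bil β γ = 1 := h1'
      have e3 : BMM.bil γ γ = 2 := hγr.2
      rw [BMM.bil_comm γ (β - γ)]
      linarith
    unfold BMM.refl
    rw [e, neg_one_smul]
    abel
  have hs' : BMM.refl (β - γ) β = γ := by
    have e := congrArg (BMM.refl (β - γ)) hs
    rw [BMM.refl_refl hδ] at e
    exact e.symm
  obtain ⟨h, hβh⟩ := exists_half_mem hn hγ hβr h1'
  refine ⟨h, image hδ hs h, hβh, ?_, ?_⟩
  · show γ ∈ h.L.map (emb hδ)
    rw [mem_emb, hs]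
    exact hβh
  · unfold Half.D'
    have e1 : (image hδ hs h).L.erase γ = (h.L.erase β).map (emb hδ) := by
      have e2 := Finset.map_erase (emb hδ) h.L β
      have e3 : (emb hδ) β = γ := hs'
      rw [e3] at e2
      exact e2.symm
    rw [e1, Finset.prod_map]
    have e4 : (image hδ hs h).eps = h.eps := rfl
    have e5 : (image hδ hs h).mu = BMM.refl (β - γ) h.mu := rfl
    have e6 : qch x z (-(image hδ hs h).mu) = qch x z (-h.mu) := by
      rw [qch_neg, qch_neg, e5, qch_refl x z _ _ hq']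
    rw [e4, e6]
    congr 1
    apply Finset.prod_congr rfl
    intro c _
    have e7 : qch x z ((emb hδ) c) = qch x z c := qch_refl x z _ _ hq'
    rw [e7]

end SYM
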