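import Pool.Agent.Lib.MP_b1ea0f_al.Defs3

/-!
# MP_b1ea0f_al: the characters `x^v`, `q^v` over a commutative ring (sorry-free)
-/

namespace SYM

section
variable {n : ℕ} {k : Type*} [CommRing k]

theorem lev_add' (v w : Vec n) : deg (v + w) = deg v + deg w := by
  simp [deg, BMM.lev, Finset.sum_add_distrib]

theorem deg_smul' (c : ℤ) (v : Vec n) : deg (c • v) = c * deg v := by
  simp [deg, BMM.lev, Finset.mul_sum]

theorem deg_neg' (v : Vec n) : deg (-v) = -deg v := by
  simp [deg, BMM.lev]

theorem mon_add (x : J n → kˣ) (v w : Vec n) : mon x (v + w) = mon x v * mon x w := by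
  simp only [mon, Pi.add_apply, zpow_add, Finset.prod_mul_distrib]

@[simp] theorem mon_zero (x : J n → kˣ) : mon x (0 : Vec n) = 1 := by
  simp [mon]

theorem mon_neg (x : J n → kˣ) (v : Vec n) : mon x (-v) = (mon x v)⁻¹ := by
  simp only [mon, Pi.neg_apply, zpow_neg, Finset.prod_inv_distrib]

theorem mon_smul (x : J n → kˣ) (c : ℤ) (v : Vec n) : mon x (c • v) = mon x v ^ c := by
  simp only [mon, Pi.smul_apply, smul_eq_mul, ← Finset.prod_zpow, ← zpow_mul, mul_comm]

theorem mon_mapx {k' : Type*} [CommRing k'] (f : k →+* k') (x : J n → kˣ) (v : Vec n) :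
    mon (mapx f x) v = Units.map (f : k →* k') (mon x v) := by
  simp only [mon, mapx, map_prod, map_zpow]

theorem qch_add (x : J n → kˣ) (z : kˣ) (v w : Vec n) :
    qch x z (v + w) = qch x z v * qch x z w := by
  simp only [qch, mon_add, lev_add', neg_add, zpow_add]
  exact mul_mul_mul_comm _ _ _ _

@[simp] theorem qch_zero (x : J n → kˣ) (z : kˣ) : qch x z (0 : Vec n) = 1 := by
  have : deg (0 : Vec n) = 0 := by simp [deg, BMM.lev]
  simp [qch, this]

theorem qch_neg (x : J n → kˣ) (z : kˣ) (v : Vec n) : qch x z (-v) = (qch x z v)⁻¹ := by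
  have h := qch_add x z v (-v)
  rw [add_neg_cancel, qch_zero] at h
  exact (inv_eq_of_mul_eq_one_right h.symm).symm

theorem qch_smul (x : J n → kˣ) (z : kˣ) (c : ℤ) (v : Vec n) :
    qch x z (c • v) = qch x z v ^ c := by
  simp only [qch, mon_smul, deg_smul', mul_zpow, ← zpow_mul]
  congr 2
  ring

theorem qch_sub (x : J n → kˣ) (z : kˣ) (v w : Vec n) :
    qch x z (v - w) = qch x z v * (qch x z w)⁻¹ := by
  rw [sub_eq_add_neg, qch_add, qch_neg]

theorem qch_sum {ι : Type*} (s : Finset ι) (f : ι → Vec n) (x : J n → kˣ) (z : kˣ) :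
    qch x z (∑ i ∈ s, f i) = ∏ i ∈ s, qch x z (f i) := by
  classical
  induction s using Finset.induction_on with
  | empty => simp
  | insert i s hi ih => rw [Finset.sum_insert hi, Finset.prod_insert hi, qch_add, ih]

theorem qch_mapx {k' : Type*} [CommRing k'] (f : k →+* k') (x : J n → kˣ) (z : kˣ)
    (v : Vec n) : qch (mapx f x) (Units.map (f : k →* k') z) v
      = Units.map (f : k →* k') (qch x z v) := by
  simp only [qch, mon_mapx, map_mul, map_zpow]

theorem qch_eq_one_iff (x : J n → kˣ) (z : kˣ) (v : Vec n) :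
    qch x z v = 1 ↔ mon x v = z ^ deg v := by
  rw [qch, zpow_neg, mul_inv_eq_one]

/-- the coercion of `mon` to a field -/
theorem coe_mon {κ : Type*} [Field κ] (x : J n → κˣ) (v : Vec n) :
    ((mon x v : κˣ) : κ) = BMM.mon (fun j => ((x j : κˣ) : κ)) v := by
  simp only [mon, BMM.mon, Units.coe_prod, Units.val_zpow_eq_zpow_val]

/-- the coercion of `qch` to a field -/
theorem coe_qch {κ : Type*} [Field κ] (x : J n → κˣ) (z : κˣ) (v : Vec n) :
    ((qch x z v : κˣ) : κ) = BMM.qch (fun j => ((x j : κˣ) : κ)) (z : κ) v := by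
  rw [qch, Units.val_mul, coe_mon, Units.val_zpow_eq_zpow_val, BMM.qch, mul_comm]

theorem NZ_eq (hn : HN n) : NZ n = BMM.NN n := by
  rcases hn with rfl | rfl | rfl <;> rfl

end
end SYM
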