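import Pool.Agent.Lib.MP_b1ea0f_al.RInd
import Pool.Agent.Lib.MP_b1ea0f_al.RHalf

/-
MP_b1ea0f_al, module RStar (about 70 lines).  Root appendix, section 3.
PROOF. Take a half h of α (exists_half) and use schur_eq for (x, z) and for (x⁻¹, z⁻¹) (q^α = 1 for both:
qch (x⁻¹) z⁻¹ v = (qch x z v)⁻¹, unfold: inv_zpow, Finset.prod_inv_distrib). D at the inverses =
(-1)^ε q^{μ} ∏_{c ∈ L} (q^{-c} - 1), q^{-c} - 1 = - q^{-c} (q^c - 1), so it is
(-1)^{ε + |L|} q^{μ - Σ c} ∏ (q^c - 1), |L| even (h.even), Σ c = 2μ + ε α, q^{μ - 2μ - εα} = q^{-μ}. So D is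
unchanged, and q^{ϖ} = q^{2ϖ} q^{-ϖ}.
-/

namespace SYM

variable {n : ℕ}

private theorem rs_inv {k : Type*} [CommRing k] (x : J n → kˣ) (z : kˣ) (v : Vec n) :
    qch (fun l => (x l)⁻¹) z⁻¹ v = (qch x z v)⁻¹ := by
  simp only [qch, mon, inv_zpow, Finset.prod_inv_distrib, mul_inv]

private theorem rs_nsmul {k : Type*} [CommRing k] (x : J n → kˣ) (z : kˣ) (c : ℕ) (v : Vec n) :
    qch x z (c • v) = qch x z v ^ c := by
  rw [← natCast_zsmul, qch_smul, zpow_natCast]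

private theorem rs_D {α : Vec n} (h : Half α) {k : Type*} [CommRing k]
    (x : J n → kˣ) (z : kˣ) (hq : qch x z α = 1) :
    h.D (fun l => (x l)⁻¹) z⁻¹ = h.D x z := by
  have h1 : ∀ c ∈ h.L, ((qch (fun l => (x l)⁻¹) z⁻¹ c : kˣ) : k) - 1 =
      (-1) * (((qch x z c)⁻¹ : kˣ) : k) * (((qch x z c : kˣ) : k) - 1) := by
    intro c _
    rw [rs_inv, mul_sub, mul_assoc, Units.inv_mul]
    ring
  have h2 : ∏ c ∈ h.L, (((qch x z c)⁻¹ : kˣ) : k) =
      (((qch x z h.mu ^ 2)⁻¹ : kˣ) : k) := by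
    rw [← Units.coe_prod, Finset.prod_inv_distrib, ← qch_sum, h.sum_eq, qch_add, rs_nsmul,
      rs_nsmul, hq, one_pow, mul_one]
  unfold Half.D
  rw [Finset.prod_congr rfl h1, Finset.prod_mul_distrib, Finset.prod_mul_distrib,
    Finset.prod_const, h.even.neg_one_pow, one_mul, h2, rs_inv]
  have h3 : (((qch x z (-h.mu))⁻¹ : kˣ) : k) * (((qch x z h.mu ^ 2)⁻¹ : kˣ) : k) =
      ((qch x z (-h.mu) : kˣ) : k) := by
    rw [← Units.val_mul]
    congr 1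
    rw [qch_neg, inv_inv, pow_two, mul_inv, mul_inv_cancel_left]
  rw [mul_assoc, ← mul_assoc _ _ (∏ c ∈ h.L, _), h3, ← mul_assoc]

theorem schur_star (hn : HN n) {α : Vec n} (hα : α ∈ Rc n) {k : Type*} [CommRing k]
    (x : J n → kˣ) (z : kˣ) (hq : qch x z α = 1) :
    schur α (fun l => (x l)⁻¹) z⁻¹ = ((qch x z (2 • varpi n) : kˣ) : k) * schur α x z := by
  obtain ⟨h⟩ := exists_half hn hα
  have hq' : qch (fun l => (x l)⁻¹) z⁻¹ α = 1 := by rw [rs_inv, hq, inv_one]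
  rw [schur_eq hn hα h _ _ hq', schur_eq hn hα h _ _ hq, rs_D h x z hq, rs_inv]
  have h3 : (((qch x z (-varpi n))⁻¹ : kˣ) : k) =
      ((qch x z (2 • varpi n) : kˣ) : k) * ((qch x z (-varpi n) : kˣ) : k) := by
    rw [← Units.val_mul]
    congr 1
    rw [rs_nsmul, qch_neg, inv_inv, pow_two, mul_inv_cancel_right]
  rw [h3]
  ring

end SYM
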