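import Mathlib

/-!
# MP_b1ea0f_al: statement of the symmetrising trace conjecture for `G4, …, G22`

Self-contained definitions: braid groups (presentations of Broué, Malle and Rouquier), generic Hecke
algebras, the three conditions of Broué, Malle and Michel.
-/

namespace SymTrace
open Polynomial

/-! ## Laurent polynomials -/

/-- the ring of Laurent polynomials over `ℤ` in variables indexed by `P` -/
abbrev Laur (P : Type) : Type := AddMonoidAlgebra ℤ (P →₀ ℤ)

/-- the variable `u_p`, as a unit -/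
noncomputable def var {P : Type} (p : P) : (Laur P)ˣ where
  val := AddMonoidAlgebra.single (Finsupp.single p 1) 1
  inv := AddMonoidAlgebra.single (Finsupp.single p (-1)) 1
  val_inv := by
    rw [AddMonoidAlgebra.single_mul_single, ← Finsupp.single_add]
    simp [AddMonoidAlgebra.one_def]
  inv_val := by
    rw [AddMonoidAlgebra.single_mul_single, ← Finsupp.single_add]
    simp [AddMonoidAlgebra.one_def]

/-- the monomial map `v ↦ ∏_p y_p^{v_p}` -/
noncomputable def mono {P K : Type} [CommRing K] (y : P → Kˣ) : Multiplicative (P →₀ ℤ) →* K where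
  toFun v := ((v.toAdd.prod fun p e => (y p) ^ e : Kˣ) : K)
  map_one' := by simp
  map_mul' v w := by
    rw [toAdd_mul, ← Units.val_mul, Finsupp.prod_add_index']
    · intro i; simp
    · intro i e e'; exact zpow_add _ _ _

/-- the ring homomorphism `u_p ↦ y_p` -/
noncomputable def spec {P K : Type} [CommRing K] (y : P → Kˣ) : Laur P →+* K :=
  (AddMonoidAlgebra.lift ℤ K (P →₀ ℤ) (mono y)).toRingHom

theorem spec_var {P K : Type} [CommRing K] (y : P → Kˣ) (p : P) : spec y (var p : Laur P) = y p := by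
  simp only [spec, var, AlgHom.toRingHom_eq_coe, RingHom.coe_coe,
    AddMonoidAlgebra.lift_single, one_smul]
  show (((Finsupp.single p (1 : ℤ)).prod fun i e => y i ^ e : Kˣ) : K) = y p
  rw [Finsupp.prod_single_index] <;> simp

/-! ## Hecke algebras and the conditions (1), (2), (3) -/

section
variable {B R I : Type} [Group B] [CommRing R]

/-- the relations `P_i(b s_i b⁻¹) = 0` in the group algebra `R[B]` -/
def rel (s : I → B) (P : I → R[X]) (x y : MonoidAlgebra R B) : Prop :=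
  ∃ (b : B) (i : I), x = aeval (MonoidAlgebra.of R B (b * s i * b⁻¹)) (P i) ∧ y = 0

/-- the Hecke algebra: `R[B]` modulo the relations `P_i(b s_i b⁻¹) = 0` -/
abbrev Hecke (s : I → B) (P : I → R[X]) : Type := RingQuot (rel s P)

/-- the image `T_b` of `b ∈ B` in the Hecke algebra -/
noncomputable def T (s : I → B) (P : I → R[X]) (b : B) : Hecke s P :=
  RingQuot.mkAlgHom R (rel s P) (MonoidAlgebra.of R B b)

/-- `H` is finitely generated projective over `R`, and there is a linear form `τ` on `H` with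
(1) `τ` is a trace form and `(h, h') ↦ τ(h h')` is perfect, (2) `θ(τ(T_b)) = 1` if `b ∈ N`, `0` if
`b ∉ N`, (3) `τ(T_π)` is a unit and `inv(τ(T_{b⁻¹})) = τ(T_{bπ}) / τ(T_π)` for all `b ∈ B` -/
def Conditions (s : I → B) (P : I → R[X]) (θ : R →+* ℂ) (inv : R →+* R) (N : Subgroup B) (π : B) :
    Prop :=
  Module.Finite R (Hecke s P) ∧ Module.Projective R (Hecke s P) ∧
  ∃ τ : Hecke s P →ₗ[R] R,
    (∀ h h', τ (h * h') = τ (h' * h)) ∧
    Function.Bijective (fun h : Hecke s P => τ ∘ₗ LinearMap.mulLeft R h) ∧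
    (∀ b, (b ∈ N → θ (τ (T s P b)) = 1) ∧ (b ∉ N → θ (τ (T s P b)) = 0)) ∧
    IsUnit (τ (T s P π)) ∧
    ∀ b, inv (τ (T s P b⁻¹)) * τ (T s P π) = τ (T s P (b * π))

end

/-! ## Reflection groups -/

/-- combinatorial data of a complex reflection group `W`: number of generators of the braid group
(braided reflections), number of conjugacy classes of distinguished reflections, the class of each
generator, the order of the reflections of each class, the braid relations `l = r`, the word of the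
generator `z` of the centre of the braid group, the order of the centre of `W` -/
structure Data where
  gens : ℕ
  classes : ℕ
  cl : Fin gens → Fin classes
  ord : Fin classes → ℕ
  rels : List (List (Fin gens) × List (Fin gens))
  centre : List (Fin gens)
  zord : ℕ

namespace Data
variable (D : Data)

/-- the relators of the braid group -/
def relators : Set (FreeGroup (Fin D.gens)) :=
  {r | ∃ p ∈ D.rels, r = (p.1.map FreeGroup.of).prod * (p.2.map FreeGroup.of).prod⁻¹}

/-- the braid group `B(W)` -/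
abbrev Braid : Type := PresentedGroup D.relators

/-- the generators (braided reflections) -/
def s (i : Fin D.gens) : D.Braid := PresentedGroup.of i

/-- the kernel of `B(W) → W`: the normal subgroup generated by the `s^{e_s}` -/
def kernel : Subgroup D.Braid :=
  Subgroup.normalClosure (Set.range fun i => D.s i ^ D.ord (D.cl i))

/-- the element `π` of the braid group (the full twist), `π = z^{|Z(W)|}` -/
def pi : D.Braid := ((D.centre.map D.s).prod) ^ D.zord

/-- indices of the parameters `u_{s,j}` -/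
abbrev Par : Type := (c : Fin D.classes) × Fin (D.ord c)

/-- the polynomial `∏_j (X - u_{s,j})` -/
noncomputable def poly (i : Fin D.gens) : (Laur D.Par)[X] :=
  ∏ j : Fin (D.ord (D.cl i)), (X - C ((var (⟨D.cl i, j⟩ : D.Par) : (Laur D.Par)ˣ) : Laur D.Par))

/-- the specialisation `u_{s,j} ↦ exp(2π√-1 j/e_s)`, `j = 1, …, e_s` -/
noncomputable def θ : Laur D.Par →+* ℂ :=
  spec fun p : D.Par =>
    Units.mk0 (Complex.exp (2 * Real.pi * Complex.I * ((p.2 : ℕ) + 1) / D.ord p.1))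
      (Complex.exp_ne_zero _)

/-- the involution `u_{s,j} ↦ u_{s,j}^{-1}` -/
noncomputable def inv : Laur D.Par →+* Laur D.Par := spec fun p => (var p)⁻¹

/-- The assertion of the Broué–Malle–Michel conjecture for the group with the data `D`. -/
def BMM : Prop := Conditions D.s D.poly D.θ D.inv D.kernel D.pi

end Data

/-- the letters of the words: `a, b` for two generators, `s, t, u` for three -/
def a : Fin 2 := 0
@[inherit_doc a] def b : Fin 2 := 1
@[inherit_doc a] def s : Fin 3 := 0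
@[inherit_doc a] def t : Fin 3 := 1
@[inherit_doc a] def u : Fin 3 := 2

/-- data of the groups `G4, …, G22` -/
def G4 : Data := ⟨2, 1, ![0,0], ![3], [([a,b,a],[b,a,b])], [a,b,a,b,a,b], 2⟩
def G5 : Data := ⟨2, 2, ![0,1], ![3,3], [([a,b,a,b],[b,a,b,a])], [a,b,a,b], 6⟩
def G6 : Data := ⟨2, 2, ![0,1], ![2,3], [([a,b,a,b,a,b],[b,a,b,a,b,a])], [a,b,a,b,a,b], 4⟩
def G7 : Data := ⟨3, 3, ![0,1,2], ![2,3,3], [([s,t,u],[t,u,s]),([s,t,u],[u,s,t])], [s,t,u], 12⟩
def G8 : Data := ⟨2, 1, ![0,0], ![4], [([a,b,a],[b,a,b])], [a,b,a,b,a,b], 4⟩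
def G9 : Data := ⟨2, 2, ![0,1], ![2,4], [([a,b,a,b,a,b],[b,a,b,a,b,a])], [a,b,a,b,a,b], 8⟩
def G10 : Data := ⟨2, 2, ![0,1], ![3,4], [([a,b,a,b],[b,a,b,a])], [a,b,a,b], 12⟩
def G11 : Data := ⟨3, 3, ![0,1,2], ![2,3,4], [([s,t,u],[t,u,s]),([s,t,u],[u,s,t])], [s,t,u], 24⟩
def G12 : Data := ⟨3, 1, ![0,0,0], ![2],
  [([s,t,u,s],[t,u,s,t]),([s,t,u,s],[u,s,t,u])], [s,t,u,s,t,u,s,t,u,s,t,u], 2⟩
def G13 : Data := ⟨3, 2, ![0,1,1], ![2,2],
  [([t,u,s,t],[u,s,t,u]),([s,t,u,s,t],[u,s,t,u,s])], [s,t,u,s,t,u,s,t,u], 4⟩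
def G14 : Data := ⟨2, 2, ![0,1], ![2,3], [([a,b,a,b,a,b,a,b],[b,a,b,a,b,a,b,a])],
  [a,b,a,b,a,b,a,b], 6⟩
def G15 : Data := ⟨3, 3, ![0,1,2], ![2,3,2], [([s,t,u],[t,u,s]),([u,s,t,u,t],[s,t,u,t,u])],
  [s,t,u,t,u], 12⟩
def G16 : Data := ⟨2, 1, ![0,0], ![5], [([a,b,a],[b,a,b])], [a,b,a,b,a,b], 10⟩
def G17 : Data := ⟨2, 2, ![0,1], ![2,5], [([a,b,a,b,a,b],[b,a,b,a,b,a])], [a,b,a,b,a,b], 20⟩
def G18 : Data := ⟨2, 2, ![0,1], ![3,5], [([a,b,a,b],[b,a,b,a])], [a,b,a,b], 30⟩
def G19 : Data := ⟨3, 3, ![0,1,2], ![2,3,5], [([s,t,u],[t,u,s]),([s,t,u],[u,s,t])], [s,t,u], 60⟩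
def G20 : Data := ⟨2, 1, ![0,0], ![3], [([a,b,a,b,a],[b,a,b,a,b])], [a,b,a,b,a,b,a,b,a,b], 6⟩
def G21 : Data := ⟨2, 2, ![0,1], ![2,3], [([a,b,a,b,a,b,a,b,a,b],[b,a,b,a,b,a,b,a,b,a])],
  [a,b,a,b,a,b,a,b,a,b], 12⟩
def G22 : Data := ⟨3, 1, ![0,0,0], ![2],
  [([s,t,u,s,t],[t,u,s,t,u]),([s,t,u,s,t],[u,s,t,u,s])],
  [s,t,u,s,t,u,s,t,u,s,t,u,s,t,u], 4⟩

end SymTrace
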