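import Pool.Agent.Lib.MP_b1ea0f_al.Defs4
import Pool.Agent.Lib.MP_b1ea0f_al.BMap
import Pool.Agent.Lib.MP_b1ea0f_al.KFin

/-!
# TProps: trace property, base change of the trace functional
-/

namespace SYM
open Polynomial Module

private theorem aeval_central {n : ℕ} {κ : Type} [Field κ] (x : J n → κˣ) (ω : κ[X])
    (h : H n x) : aeval (zz n x) ω * h = h * aeval (zz n x) ω := by
  have h1 : Commute (zz n x) h := zz_comm n x h
  induction ω using Polynomial.induction_on' with
  | add p q hp hq => rw [map_add, add_mul, mul_add, hp, hq]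
  | monomial m a =>
    rw [aeval_monomial, mul_assoc, (h1.pow_left m).eq, ← mul_assoc, ← mul_assoc,
      Algebra.commutes]

theorem tr_comm {n : ℕ} {κ : Type} [Field κ] (x : J n → κˣ) (ω : κ[X]) (h h' : H n x) :
    tr x ω (h * h') = tr x ω (h' * h) := by
  rw [tr_apply, tr_apply]
  have h1 : LinearMap.mulLeft κ (h * h' * aeval (zz n x) ω) =
      LinearMap.mulLeft κ h * LinearMap.mulLeft κ (h' * aeval (zz n x) ω) := by
    apply LinearMap.ext
    intro u
    simp only [LinearMap.mulLeft_apply, Module.End.mul_apply, mul_assoc]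
  have h2 : LinearMap.mulLeft κ (h' * h * aeval (zz n x) ω) =
      LinearMap.mulLeft κ (h' * aeval (zz n x) ω) * LinearMap.mulLeft κ h := by
    apply LinearMap.ext
    intro u
    simp only [LinearMap.mulLeft_apply, Module.End.mul_apply, mul_assoc]
    rw [← mul_assoc (aeval (zz n x) ω) h u, aeval_central x ω h, mul_assoc]
  rw [h1, h2, LinearMap.trace_mul_comm]

theorem trace_mulLeft_map {n : ℕ} (hn : HN n) {k k' : Type} [CommRing k] [CommRing k'] [Nontrivial k'] (x : J n → kˣ)
    (f : k →+* k') {ι : Type} [Finite ι] (b : Basis ι k (H n x)) (h : H n x) :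
    LinearMap.trace k' (H n (mapx f x)) (LinearMap.mulLeft k' (hmap f n x h)) =
      f (LinearMap.trace k (H n x) (LinearMap.mulLeft k h)) := by
  classical
  have := Fintype.ofFinite ι
  obtain ⟨b', hb'⟩ := exists_basis_map f n x b
  have hrep : ∀ (u : H n x) (j : ι), b'.repr (hmap f n x u) j = f (b.repr u j) := by
    intro u j
    have h1 : hmap f n x u = ∑ i, f (b.repr u i) • b' i := by
      conv_lhs => rw [← b.sum_repr u]
      rw [map_sum]
      refine Finset.sum_congr rfl fun i _ => ?_
      rw [hmap_smul, hb']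
    rw [h1, Basis.repr_sum_self]
  rw [LinearMap.trace_eq_matrix_trace k' b', LinearMap.trace_eq_matrix_trace k b, Matrix.trace,
    Matrix.trace, map_sum]
  refine Finset.sum_congr rfl fun i _ => ?_
  rw [Matrix.diag_apply, Matrix.diag_apply, LinearMap.toMatrix_apply, LinearMap.toMatrix_apply,
    LinearMap.mulLeft_apply, LinearMap.mulLeft_apply, hb', ← map_mul, hrep]

theorem tr_map {n : ℕ} (hn : HN n) {κ κ' : Type} [Field κ] [Field κ'] (x : J n → κˣ) (ω : κ[X])
    (f : κ →+* κ') (h : H n x) :
    tr (mapx f x) (ω.map f) (hmap f n x h) = f (tr x ω h) := by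
  have hfd := finite_field n hn x
  rw [tr_apply, tr_apply, ← trace_mulLeft_map hn x f (Module.finBasis κ (H n x)), map_mul]
  congr 3
  rw [aeval_def, aeval_def, eval₂_map, hom_eval₂, hmap_zz]
  congr 1
  ext c
  · rw [RingHom.comp_apply, RingHom.comp_apply, hmap_algebraMap]

end SYM
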