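import Pool.Agent.Lib.MP_b1ea0f_al.Defs4
import Pool.Agent.Lib.MP_b1ea0f_al.TIndep
import Pool.Agent.Lib.MP_b1ea0f_al.TProps
import Pool.Agent.Lib.MP_b1ea0f_al.RInd

/-!
# TForm: trace formula over an algebraically closed field

`tr x ω h = Tr(L_{h ω(z)}) = ∑ d_i tr(ρ_i(h) ω(ζ_i))` and `ω(ζ_i) d_i² schur = 1` (`IsOmega` with `E = κ`, `f = id`; `mapx (RingHom.id κ) x = x`).
-/

namespace SYM
open Polynomial Module

theorem tr_formula {n : ℕ} {κ : Type} [Field κ] [CharZero κ]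
    {x : J n → κˣ} (ω : κ[X]) (hω : IsOmega x ω)
    (ρ : ∀ i : Idx x, H n x →ₐ[κ] Module.End κ (Fin (dg i.1.1) → κ))
    (h1 : ∀ i, ρ i (zz n x) = ((i.1.2 : κˣ) : κ) • 1)
    (h2 : ∀ h, LinearMap.trace κ (H n x) (LinearMap.mulLeft κ h) =
        ∑ i, (dg i.1.1 : κ) * LinearMap.trace κ _ (ρ i h)) (h : H n x) :
    tr x ω h = ∑ i : Idx x, LinearMap.trace κ _ (ρ i h) /
      ((dg i.1.1 : κ) * schur i.1.1 x i.1.2) := by
  rw [tr_apply, h2]
  apply Finset.sum_congr rfl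
  intro i _
  have hid : mapx (RingHom.id κ) x = x := by
    funext l
    apply Units.ext
    rfl
  have h3 := hω i.1.1 i.2.1 κ (RingHom.id κ) i.1.2 (by rw [hid]; exact i.2.2)
  rw [hid] at h3
  have h4 : ρ i (aeval (zz n x) ω) = (ω.eval₂ (RingHom.id κ) ((i.1.2 : κˣ) : κ)) •
      (1 : Module.End κ (Fin (dg i.1.1) → κ)) := by
    rw [← aeval_algHom_apply, h1]
    have h5 : ((i.1.2 : κˣ) : κ) • (1 : Module.End κ (Fin (dg i.1.1) → κ)) =
        algebraMap κ (Module.End κ (Fin (dg i.1.1) → κ)) ((i.1.2 : κˣ) : κ) := by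
      rw [Algebra.algebraMap_eq_smul_one]
    rw [h5, aeval_algebraMap_apply, Algebra.algebraMap_eq_smul_one]
    rfl
  rw [map_mul, h4, mul_smul_comm, mul_one, map_smul, smul_eq_mul]
  have h6 : ((dg i.1.1 : κ) * schur i.1.1 x i.1.2) ≠ 0 := by
    intro h0
    rw [pow_two] at h3
    have h7 : ω.eval₂ (RingHom.id κ) ((i.1.2 : κˣ) : κ) * ((dg i.1.1 : κ) * (dg i.1.1 : κ)) *
        schur i.1.1 x i.1.2 = ω.eval₂ (RingHom.id κ) ((i.1.2 : κˣ) : κ) * (dg i.1.1 : κ) *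
        ((dg i.1.1 : κ) * schur i.1.1 x i.1.2) := by ring
    rw [h7, h0, mul_zero] at h3
    exact zero_ne_one h3
  rw [eq_div_iff h6]
  linear_combination (LinearMap.trace κ _ (ρ i h)) * h3

end SYM
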