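import Pool.Agent.Lib.MP_b1ea0f_al.Defs4
import Pool.Agent.Lib.MP_b1ea0f_al.RHalf
import Pool.Agent.Lib.MP_b1ea0f_al.RInd
import Pool.Agent.Lib.MP_b1ea0f_al.TIndep

/-!
# TUnit: units criterion for the Schur elements

`schur_eq`, `Half.D`: product of units `q^..` and of the factors `q^c - 1`. `(q^c - 1) ∣ (q^c)^{dg α} - 1 = x^{dg α c - |c| α} - 1`.
-/

namespace SYM
open Polynomial Module

private theorem tu_sgn (n : ℕ) (k : Type*) [CommRing k] : IsUnit ((sgn n : ℤ) : k) := by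
  have h : (sgn n : ℤ) = 1 ∨ (sgn n : ℤ) = -1 := by
    unfold sgn BMM.kap
    split_ifs
    · exact Or.inl rfl
    · exact Or.inr rfl
  rcases h with h | h
  · rw [h, Int.cast_one]; exact isUnit_one
  · rw [h, Int.cast_neg, Int.cast_one]; exact isUnit_one.neg

/-- the Schur element is a unit if all `q^c - 1`, `(c,α) = 1`, are -/
theorem isUnit_schur {n : ℕ} (hn : HN n) {k : Type*} [CommRing k] (x : J n → kˣ) (z : kˣ)
    {α : Vec n} (hα : α ∈ Rc n) (hz : z ^ dg α = mon x α)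
    (h : ∀ c, IsRoot c → ip c α = 1 → IsUnit (((qch x z c : kˣ) : k) - 1)) :
    IsUnit (schur α x z) := by
  obtain ⟨hf⟩ := exists_half hn hα
  rw [schur_eq hn hα hf x z ((qch_eq_one hn x z hα).2 hz)]
  refine ((tu_sgn n k).mul (Units.isUnit _)).mul ?_
  unfold Half.D
  refine ((isUnit_one.neg.pow _).mul (Units.isUnit _)).mul ?_
  refine Finset.prod_induction _ IsUnit (fun a b ha hb => ha.mul hb) isUnit_one ?_
  intro c hc
  exact h c (hf.isRoot c hc) (hf.ip_eq c hc)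

theorem isUnit_schur' {n : ℕ} (hn : HN n) {k : Type*} [CommRing k] (x : J n → kˣ) (z : kˣ)
    {α : Vec n} (hα : α ∈ Rc n) (hz : z ^ dg α = mon x α)
    (h : ∀ v : Vec n, v ≠ 0 → IsUnit (((mon x v : kˣ) : k) - 1)) :
    IsUnit (schur α x z) := by
  apply isUnit_schur hn x z hα hz
  intro c hc hcα
  have h1 : (dg α : ℤ) • c - deg c • α ≠ 0 := by
    intro h2
    rw [(dg_bounds hn hα).1] at h2
    exact BMM.not_prop hn ((mem_Rc_iff_BMM hn).1 hα) hc hcα (sub_eq_zero.1 h2)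
  have h2 := h _ h1
  rw [← qch_pow hn x z hα hz c, Units.val_pow_eq_pow_val] at h2
  refine isUnit_of_dvd_unit ?_ h2
  have h3 := sub_dvd_pow_sub_pow ((qch x z c : kˣ) : k) 1 (dg α)
  rwa [one_pow] at h3

end SYM
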