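import Pool.Agent.Lib.MP_b1ea0f_al.Defs4
import Pool.Agent.Lib.MP_b1ea0f_al.RHalf
import Pool.Agent.Lib.MP_b1ea0f_al.RInd
import Pool.Agent.Lib.MP_b1ea0f_al.TIndep
import Pool.Agent.Lib.MP_b1ea0f_al.TUnit

/-!
# TOmega: the polynomial omega (CRT)

Paper 8.1. For `α ∈ Rc`: `𝒦 = AdjoinRoot (X^d - C (mon x α))`, the root is a unit, `schur α` of it is a unit (`isUnit_schur'`: `mon x v - 1 ∈ κ` is nonzero by `Indep`), and `d² ≠ 0`; so there is a polynomial `c_α` with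
`c_α d² schur = 1` in `𝒦`. The `X^d - C (mon x α)` are pairwise coprime ((G1): a common root in an extension gives `mon x α ^ dg β = mon x β ^ dg α`), CRT: `ω ≡ c_α mod (X^d - C ..)`. For `E, f, ζ`: evaluate through `𝒦 → E` (`AdjoinRoot.lift`), `schur_map`.
Note `mapx f x` with `f : κ →+* E`.
-/

namespace SYM
open Polynomial Module

private theorem om_mapx_comp {n : ℕ} {k k' k'' : Type*} [CommRing k] [CommRing k'] [CommRing k'']
    (f : k →+* k') (g : k' →+* k'') (x : J n → kˣ) :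
    mapx g (mapx f x) = mapx (g.comp f) x := by
  funext l
  ext
  simp [mapx]

/-- the polynomial `T^d - x^α` -/
private noncomputable def omP {n : ℕ} {κ : Type} [Field κ] (x : J n → κˣ) (α : Vec n) : κ[X] :=
  X ^ dg α - C ((mon x α : κˣ) : κ)

private theorem omP_eval₂ {n : ℕ} {κ E : Type} [Field κ] [CommRing E] (x : J n → κˣ) (α : Vec n)
    (f : κ →+* E) (a : E) : (omP x α).eval₂ f a = a ^ dg α - f ((mon x α : κˣ) : κ) := by
  rw [omP, eval₂_sub, eval₂_pow, eval₂_X, eval₂_C]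

private theorem omP_eval {n : ℕ} {κ E : Type} [Field κ] [CommRing E] (x : J n → κˣ) (α : Vec n)
    (f : κ →+* E) (ζ : Eˣ) (hζ : ζ ^ dg α = mon (mapx f x) α) :
    (omP x α).eval₂ f (ζ : E) = 0 := by
  unfold omP
  rw [eval₂_sub, eval₂_pow, eval₂_X, eval₂_C, ← Units.val_pow_eq_pow_val, hζ, mon_mapx]
  simp

/-- a local inverse of `d² s_α` -/
private theorem om_local {n : ℕ} (hn : HN n) {κ : Type} [Field κ] [CharZero κ] (x : J n → κˣ)
    (hx : Indep x) {α : Vec n} (hα : α ∈ Rc n) : ∃ c : κ[X],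
    ∀ (E : Type) [CommRing E] (f : κ →+* E) (ζ : Eˣ), ζ ^ dg α = mon (mapx f x) α →
      c.eval₂ f (ζ : E) * (dg α : E) ^ 2 * schur α (mapx f x) ζ = 1 := by
  have hd : 1 ≤ dg α := (dg_bounds hn hα).2.1
  let ι : κ →+* AdjoinRoot (omP x α) := AdjoinRoot.of (omP x α)
  have hroot : (AdjoinRoot.root (omP x α)) ^ dg α = ι ((mon x α : κˣ) : κ) := by
    have h0 : (omP x α).eval₂ (AdjoinRoot.of (omP x α)) (AdjoinRoot.root (omP x α)) = 0 :=
      AdjoinRoot.eval₂_root _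
    have h1 : (omP x α).eval₂ (AdjoinRoot.of (omP x α)) (AdjoinRoot.root (omP x α)) =
        (AdjoinRoot.root (omP x α)) ^ dg α - ι ((mon x α : κˣ) : κ) := omP_eval₂ x α _ _
    rw [h1] at h0
    exact sub_eq_zero.1 h0
  have hu : IsUnit (AdjoinRoot.root (omP x α)) := by
    have h1 : IsUnit ((AdjoinRoot.root (omP x α)) ^ dg α) := by
      rw [hroot]
      exact (mon x α).isUnit.map ι
    exact (isUnit_pow_iff (by omega)).1 h1
  obtain ⟨r, hr⟩ := hu
  have hrz : r ^ dg α = mon (mapx ι x) α := by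
    ext
    rw [Units.val_pow_eq_pow_val, hr, hroot, mon_mapx]
    rfl
  have hs : IsUnit (schur α (mapx ι x) r) := by
    refine isUnit_schur' hn (mapx ι x) r hα hrz fun v hv => ?_
    have h1 : (((mon (mapx ι x) v : (AdjoinRoot (omP x α))ˣ) : AdjoinRoot (omP x α)) - 1) =
        ι (((mon x v : κˣ) : κ) - 1) := by
      rw [mon_mapx, map_sub, map_one]
      rfl
    rw [h1]
    refine IsUnit.map ι (isUnit_iff_ne_zero.2 fun h2 => hv (hx v ?_))
    ext
    rw [Units.val_one]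
    exact sub_eq_zero.1 h2
  have hdu : IsUnit ((dg α : AdjoinRoot (omP x α)) ^ 2) := by
    have h1 : ((dg α : AdjoinRoot (omP x α)) ^ 2) = ι ((dg α : κ) ^ 2) := by
      rw [map_pow, map_natCast]
    rw [h1]
    refine IsUnit.map ι (isUnit_iff_ne_zero.2 (pow_ne_zero _ ?_))
    exact_mod_cast (by omega : dg α ≠ 0)
  obtain ⟨u, hu⟩ := (hdu.mul hs)
  obtain ⟨c, hc⟩ := AdjoinRoot.mk_surjective (g := omP x α)
    (((u⁻¹ : (AdjoinRoot (omP x α))ˣ) : AdjoinRoot (omP x α)))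
  refine ⟨c, fun E _ f ζ hζ => ?_⟩
  let φ : AdjoinRoot (omP x α) →+* E := AdjoinRoot.lift f (ζ : E) (omP_eval x α f ζ hζ)
  have hφι : φ.comp ι = f := by
    ext a
    exact AdjoinRoot.lift_of (f := omP x α) (omP_eval x α f ζ hζ)
  have hφr : Units.map (φ : AdjoinRoot (omP x α) →* E) r = ζ := by
    ext
    show φ (r : AdjoinRoot (omP x α)) = ζ
    rw [hr]
    exact AdjoinRoot.lift_root (f := omP x α) (omP_eval x α f ζ hζ)
  have hφc : φ (AdjoinRoot.mk (omP x α) c) = c.eval₂ f (ζ : E) :=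
    AdjoinRoot.lift_mk (f := omP x α) (omP_eval x α f ζ hζ) c
  have h1 : schur α (mapx f x) ζ = φ (schur α (mapx ι x) r) := by
    rw [← schur_map φ (mapx ι x) r, om_mapx_comp, hφι, hφr]
  have h2 : (dg α : E) ^ 2 = φ ((dg α : AdjoinRoot (omP x α)) ^ 2) := by
    rw [map_pow, map_natCast]
  rw [← hφc, h1, h2, ← map_mul, ← map_mul, mul_assoc, ← hu, hc, Units.inv_mul, map_one]

private theorem omP_coprime {n : ℕ} (hn : HN n) {κ : Type} [Field κ] (x : J n → κˣ)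
    (hx : Indep x) {α β : Vec n} (hα : α ∈ Rc n) (hβ : β ∈ Rc n) (hne : α ≠ β) :
    IsCoprime (omP x α) (omP x β) := by
  rw [Polynomial.isCoprime_iff_aeval_ne_zero_of_isAlgClosed κ (AlgebraicClosure κ)]
  intro a
  by_contra hcon
  push Not at hcon
  obtain ⟨h1, h2⟩ := hcon
  have e1 : a ^ dg α = algebraMap κ (AlgebraicClosure κ) ((mon x α : κˣ) : κ) := by
    rw [omP, map_sub, map_pow, aeval_X, aeval_C] at h1
    exact sub_eq_zero.1 h1
  have e2 : a ^ dg β = algebraMap κ (AlgebraicClosure κ) ((mon x β : κˣ) : κ) := by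
    rw [omP, map_sub, map_pow, aeval_X, aeval_C] at h2
    exact sub_eq_zero.1 h2
  refine hne ((hx.gen hn).g1 α hα β hβ ?_)
  ext
  rw [Units.val_pow_eq_pow_val, Units.val_pow_eq_pow_val]
  apply (algebraMap κ (AlgebraicClosure κ)).injective
  rw [map_pow, map_pow, ← e1, ← e2, ← pow_mul, ← pow_mul, mul_comm]

theorem exists_omega {n : ℕ} (hn : HN n) {κ : Type} [Field κ] [CharZero κ] (x : J n → κˣ)
    (hx : Indep x) : ∃ ω : κ[X], IsOmega x ω := by
  have hc : ∀ α : Rc n, ∃ c : κ[X],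
      ∀ (E : Type) [CommRing E] (f : κ →+* E) (ζ : Eˣ), ζ ^ dg α.1 = mon (mapx f x) α.1 →
        c.eval₂ f (ζ : E) * (dg α.1 : E) ^ 2 * schur α.1 (mapx f x) ζ = 1 := fun α =>
    om_local hn x hx α.2
  choose c hc using hc
  obtain ⟨ω, hω⟩ := Ideal.exists_forall_sub_mem_ideal
    (I := fun α : Rc n => Ideal.span {omP x α.1}) (by
      intro α β hne
      show IsCoprime (Ideal.span {omP x α.1}) (Ideal.span {omP x β.1})
      rw [Ideal.isCoprime_span_singleton_iff]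
      exact omP_coprime hn x hx α.2 β.2 (fun h => hne (Subtype.ext h))) c
  refine ⟨ω, fun α hα E _ f ζ hζ => ?_⟩
  have h1 := hω ⟨α, hα⟩
  rw [Ideal.mem_span_singleton] at h1
  obtain ⟨q, hq⟩ := h1
  have h2 : ω.eval₂ f (ζ : E) = (c ⟨α, hα⟩).eval₂ f (ζ : E) := by
    have h3 : (ω - c ⟨α, hα⟩).eval₂ f (ζ : E) = 0 := by
      rw [hq, eval₂_mul, omP_eval x α f ζ hζ, zero_mul]
    rw [eval₂_sub] at h3
    exact sub_eq_zero.1 h3
  rw [h2]
  exact hc ⟨α, hα⟩ E f ζ hζ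

theorem IsOmega.map {n : ℕ} {κ κ' : Type} [Field κ] [Field κ'] {x : J n → κˣ} {ω : κ[X]}
    (h : IsOmega x ω) (f : κ →+* κ') : IsOmega (mapx f x) (ω.map f) := by
  intro α hα E _ g ζ hζ
  rw [om_mapx_comp] at hζ ⊢
  rw [eval₂_map]
  exact h α hα E (g.comp f) ζ hζ

end SYM
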