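import Pool.Agent.Lib.MP_b1ea0f_al.Defs4
import Pool.Agent.Lib.MP_b1ea0f_al.TIndep
import Pool.Agent.Lib.MP_b1ea0f_al.TProps
import Pool.Agent.Lib.MP_b1ea0f_al.TForm
import Pool.Agent.Lib.MP_b1ea0f_al.GSplit
import Pool.Agent.Lib.MP_b1ea0f_al.KFin
import Pool.Agent.Lib.MP_b1ea0f_al.TUnit
import Pool.Agent.Lib.MP_b1ea0f_al.BMap
import Pool.Agent.Lib.MP_b1ea0f_al.TOmega

/-!
# TSym: the trace form is non-degenerate; Tr L = Tr R

Pass to the algebraic closure `Ω` (`tr_map`, `hmap` injective by `exists_basis_map`): `split` + `tr_formula`: `t = ∑ tr ρ_i / (d_i s_i)`, `s_i ≠ 0` (`Indep.qch_ne`), the trace form of `End` is non-degenerate: `t(h ·) = 0` implies all `ρ_i(h) = 0`, `h = 0`.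
`trace_left_right`: `R_h` is adjoint to `L_h` for the non-degenerate symmetric associative form `t` (`exists_omega`); adjoint maps have the same trace. (Or directly from `split`: left and right multiplication on `∏ End(κ^d)` both have trace `∑ d tr`.)
-/

namespace SYM
open Polynomial Module

private theorem eq_zero_of_trace {K : Type} [Field K] {d : ℕ} (A : Module.End K (Fin d → K))
    (h : ∀ T : Module.End K (Fin d → K), LinearMap.trace K _ (A * T) = 0) : A = 0 := by
  have h1 : LinearMap.toMatrix' A = 0 := by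
    rw [Matrix.ext_iff_trace_mul_right]
    intro M
    have h2 := h (Matrix.toLin' M)
    rw [LinearMap.trace_eq_matrix_trace K (Pi.basisFun K (Fin d)),
      LinearMap.toMatrix_eq_toMatrix', LinearMap.toMatrix'_mul, LinearMap.toMatrix'_toLin'] at h2
    rw [h2, zero_mul, Matrix.trace_zero]
  exact (LinearEquiv.map_eq_zero_iff (LinearMap.toMatrix')).1 h1

private theorem dg_ne {n : ℕ} {κ : Type} [Field κ] [CharZero κ] {α : Vec n} (hα : α ∈ Rc n) :
    (dg α : κ) ≠ 0 := by
  have h := (Finset.mem_filter.1 hα).2.2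
  have h2 : dg α ≠ 0 := by
    unfold dg
    omega
  exact_mod_cast h2

private theorem schur_ne {n : ℕ} (hn : HN n) {κ : Type} [Field κ] [CharZero κ] {x : J n → κˣ}
    (hx : Indep x) (i : Idx x) : schur i.1.1 x i.1.2 ≠ 0 := by
  refine (isUnit_schur hn x i.1.2 i.2.1 i.2.2 fun c hc hcα => ?_).ne_zero
  rw [isUnit_iff_ne_zero, sub_ne_zero]
  intro h
  exact hx.qch_ne hn i.2.1 i.1.2 i.2.2 hc hcα (Units.ext h)

private theorem nondeg_closed {n : ℕ} (hn : HN n) {κ : Type} [Field κ] [IsAlgClosed κ]
    [CharZero κ] {x : J n → κˣ} (hx : Indep x) (hr : finrank κ (H n x) = NZ n ^ 2) (ω : κ[X])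
    (hω : IsOmega x ω) (h : H n x) (h0 : ∀ h', tr x ω (h * h') = 0) : h = 0 := by
  classical
  have := finite_field n hn x
  obtain ⟨ρ, h1, -, h3, h4⟩ := split hn (hx.gen hn) hr
  have h5 := tr_formula ω hω ρ h1 h4
  apply h3.1
  funext i
  change ρ i h = ρ i 0
  rw [map_zero]
  refine eq_zero_of_trace _ fun T => ?_
  obtain ⟨u, hu⟩ := h3.2 (Pi.single i T)
  have h6 := h0 u
  rw [h5, Finset.sum_eq_single i] at h6
  · have h7 : ρ i u = T := by
      have := congrFun hu i
      simpa using this
    rw [map_mul, h7] at h6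
    rcases div_eq_zero_iff.1 h6 with h8 | h8
    · exact h8
    · exact absurd h8 (mul_ne_zero (dg_ne i.2.1) (schur_ne hn hx i))
  · intro j _ hj
    have h7 : ρ j u = 0 := by
      have := congrFun hu j
      simpa [hj] using this
    rw [map_mul, h7, mul_zero, map_zero, zero_div]
  · intro h7
    exact absurd (Finset.mem_univ i) h7

theorem tr_nondeg {n : ℕ} (hn : HN n) {κ : Type} [Field κ] [CharZero κ] {x : J n → κˣ}
    (hx : Indep x) (hr : finrank κ (H n x) = NZ n ^ 2) (ω : κ[X]) (hω : IsOmega x ω) (h : H n x)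
    (h0 : ∀ h', tr x ω (h * h') = 0) : h = 0 := by
  classical
  let Ω := AlgebraicClosure κ
  let f : κ →+* Ω := algebraMap κ Ω
  have : CharZero Ω := charZero_of_injective_algebraMap (algebraMap κ Ω).injective
  apply hmap_injective_field f n x
  rw [map_zero]
  refine nondeg_closed hn (hx.map f) ?_ (ω.map f) (hω.map f) _ fun u => ?_
  · rw [finrank_map_field, hr]
  · have hu : u ∈ Submodule.span Ω (Set.range (hmap f n x)) := by
      rw [hmap_span]
      trivial
    induction hu using Submodule.span_induction with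
    | mem u hu =>
      obtain ⟨h', rfl⟩ := hu
      rw [← map_mul, tr_map hn, h0, map_zero]
    | zero => rw [mul_zero, map_zero]
    | add u v _ _ hu hv => rw [mul_add, map_add, hu, hv, add_zero]
    | smul c u _ hu => rw [mul_smul_comm, map_smul, hu, smul_zero]

theorem trace_left_right {n : ℕ} (hn : HN n) {κ : Type} [Field κ] [CharZero κ] {x : J n → κˣ}
    (hx : Indep x) (hr : finrank κ (H n x) = NZ n ^ 2) (h : H n x) :
    LinearMap.trace κ (H n x) (LinearMap.mulLeft κ h) =
      LinearMap.trace κ (H n x) (LinearMap.mulRight κ h) := by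
  classical
  have := finite_field n hn x
  obtain ⟨ω, hω⟩ := exists_omega hn x hx
  let Φ : H n x →ₗ[κ] Dual κ (H n x) := (LinearMap.mul κ (H n x)).compr₂ (tr x ω)
  have hΦ : ∀ u v, Φ u v = tr x ω (u * v) := fun _ _ => rfl
  have hinj : Function.Injective Φ := by
    rw [injective_iff_map_eq_zero]
    intro u hu
    refine tr_nondeg hn hx hr ω hω u fun v => ?_
    rw [← hΦ, hu, LinearMap.zero_apply]
  let e : H n x ≃ₗ[κ] Dual κ (H n x) :=
    LinearEquiv.ofInjectiveOfFinrankEq Φ hinj Subspace.dual_finrank_eq.symm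
  have he : ∀ u, e u = Φ u := fun _ => rfl
  have h1 : e.conj (LinearMap.mulLeft κ h) = Module.Dual.transpose (LinearMap.mulRight κ h) := by
    refine LinearMap.ext fun φ => ?_
    obtain ⟨u, rfl⟩ := e.surjective φ
    rw [LinearEquiv.conj_apply_apply, e.symm_apply_apply]
    refine LinearMap.ext fun v => ?_
    rw [LinearMap.mulLeft_apply, he, he, hΦ]
    change _ = Φ u (v * h)
    rw [hΦ, mul_assoc, tr_comm, mul_assoc]
  rw [← LinearMap.trace_conj' (LinearMap.mulLeft κ h) e, h1, LinearMap.trace_transpose']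

end SYM
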