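import Pool.Agent.Lib.MP_b1ea0f_al.Defs4
import Pool.Agent.Lib.MP_b1ea0f_al.RHalf
import Pool.Agent.Lib.MP_b1ea0f_al.TIndep

/-!
# UDlog: logarithmic derivatives

(Abbreviations in this text: OO = PowerSeries KK, LL = LaurentSeries KK, cc = PowerSeries.constantCoeff.) `dlog` is a homomorphism `(KK⟦X⟧)ˣ → KK` (`u'(0)/u(0)`). `LocHyp`: `dlog (x l) = 0` for `l ≠ k`, `dlog (x k) = 1/x_k(0)`. `indep_L`: `mon x v = 1` (units of `OO`; `OO → LL` injective) gives `dlog: v k / x_k(0) = 0` so `(v k : KK) = 0`, `v k = 0` (char 0), then `ind`.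
-/

namespace SYM
open Polynomial Module

section
variable {KK : Type} [Field KK] {n : ℕ}

private theorem cc_ne (u : (PowerSeries KK)ˣ) :
    (PowerSeries.constantCoeff (R := KK)) (u : PowerSeries KK) ≠ 0 :=
  (u.isUnit.map (PowerSeries.constantCoeff (R := KK))).ne_zero

theorem dlog_mul (u v : (PowerSeries KK)ˣ) : dlog (u * v) = dlog u + dlog v := by
  have hu := cc_ne u
  have hv := cc_ne v
  have h1 : PowerSeries.coeff 1 ((u : PowerSeries KK) * (v : PowerSeries KK)) =
      (PowerSeries.constantCoeff (R := KK)) (u : PowerSeries KK) *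
        PowerSeries.coeff 1 (v : PowerSeries KK) +
      PowerSeries.coeff 1 (u : PowerSeries KK) *
        (PowerSeries.constantCoeff (R := KK)) (v : PowerSeries KK) := by
    rw [PowerSeries.coeff_mul, Finset.Nat.antidiagonal_succ, Finset.sum_cons]
    simp
  unfold dlog
  rw [Units.val_mul, h1, map_mul]
  field_simp
  ring

private theorem dlog_one' : dlog (1 : (PowerSeries KK)ˣ) = 0 := by
  have h := dlog_mul (1 : (PowerSeries KK)ˣ) 1
  rw [mul_one] at h
  have h2 : dlog (1 : (PowerSeries KK)ˣ) + 0 = dlog (1 : (PowerSeries KK)ˣ) + dlog 1 := by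
    rw [add_zero]; exact h
  exact (add_left_cancel h2).symm

private noncomputable def dlogHom (KK : Type) [Field KK] : (PowerSeries KK)ˣ →* Multiplicative KK where
  toFun u := Multiplicative.ofAdd (dlog u)
  map_one' := by rw [dlog_one']; rfl
  map_mul' u v := by rw [dlog_mul]; rfl

theorem dlog_zpow (u : (PowerSeries KK)ˣ) (m : ℤ) : dlog (u ^ m) = m * dlog u := by
  have h := map_zpow (dlogHom KK) u m
  have h2 : dlog (u ^ m) = m • dlog u := h
  rw [h2, zsmul_eq_mul]

private theorem dlog_prod {ι : Type*} (s : Finset ι) (f : ι → (PowerSeries KK)ˣ) :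
    dlog (∏ i ∈ s, f i) = ∑ i ∈ s, dlog (f i) := by
  classical
  induction s using Finset.induction_on with
  | empty => rw [Finset.prod_empty, Finset.sum_empty, dlog_one']
  | insert i s hi ih => rw [Finset.prod_insert hi, Finset.sum_insert hi, dlog_mul, ih]

private theorem dlog_ne {x : J n → (PowerSeries KK)ˣ} {k : J n} (hl : LocHyp n x k) (l : J n)
    (h : l ≠ k) : dlog (x l) = 0 := by
  unfold dlog
  rw [hl.const l h, PowerSeries.coeff_C]
  simp

private theorem dlog_eq {x : J n → (PowerSeries KK)ˣ} {k : J n} (hl : LocHyp n x k) :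
    dlog (x k) = 1 / (PowerSeries.constantCoeff (R := KK))
      ((x k : (PowerSeries KK)ˣ) : (PowerSeries KK)) := by
  unfold dlog
  congr 1
  rw [hl.lin, map_add, PowerSeries.coeff_C, PowerSeries.coeff_one_X]
  simp

theorem dlog_mon {x : J n → (PowerSeries KK)ˣ} {k : J n} (hl : LocHyp n x k) (v : Vec n) :
    dlog (mon x v) = v k / (PowerSeries.constantCoeff (R := KK)) ((x k : (PowerSeries KK)ˣ) : (PowerSeries KK)) := by
  unfold mon
  rw [dlog_prod, Finset.sum_eq_single k]
  · rw [dlog_zpow, dlog_eq hl, mul_one_div]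
  · intro l _ h
    rw [dlog_zpow, dlog_ne hl l h, mul_zero]
  · intro h
    exact absurd (Finset.mem_univ k) h

theorem dlog_qch {x : J n → (PowerSeries KK)ˣ} {k : J n} (hl : LocHyp n x k) (z : (PowerSeries KK)ˣ) (v : Vec n) :
    dlog (qch x z v) = v k / (PowerSeries.constantCoeff (R := KK)) ((x k : (PowerSeries KK)ˣ) : (PowerSeries KK)) - deg v * dlog z := by
  unfold qch
  rw [dlog_mul, dlog_mon hl, dlog_zpow]
  push_cast
  ring

/-- `dlog z = α_k/(x_k(0) d)` for `z^d = x^α` -/
theorem dlog_root [CharZero KK] (hn : HN n) {x : J n → (PowerSeries KK)ˣ} {k : J n} (hl : LocHyp n x k)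
    {α : Vec n} (hα : α ∈ Rc n) (z : (PowerSeries KK)ˣ) (hz : z ^ dg α = mon x α) :
    dlog z = α k / (dg α * (PowerSeries.constantCoeff (R := KK)) ((x k : (PowerSeries KK)ˣ) : (PowerSeries KK))) := by
  have h1 : dlog (z ^ dg α) = (dg α : KK) * dlog z := by
    have h := dlog_zpow z (dg α : ℤ)
    rw [zpow_natCast] at h
    rw [h]
    push_cast
    rfl
  have h2 : ((dg α : ℕ) : KK) ≠ 0 := by
    have := (dg_bounds hn hα).2.1
    exact_mod_cast (by omega : dg α ≠ 0)
  have h3 := cc_ne (x k)
  rw [hz, dlog_mon hl] at h1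
  field_simp at h1 ⊢
  linear_combination -h1

theorem indep_L [CharZero KK] {x : J n → (PowerSeries KK)ˣ} {k : J n} (hl : LocHyp n x k) :
    Indep (mapx (algebraMap (PowerSeries KK) (LaurentSeries KK)) x) := by
  intro v hv
  rw [mon_mapx] at hv
  have hinj : Function.Injective (algebraMap (PowerSeries KK) (LaurentSeries KK)) :=
    IsFractionRing.injective _ _
  have h1 : mon x v = 1 := by
    apply Units.map_injective (f := ((algebraMap (PowerSeries KK) (LaurentSeries KK) :
      PowerSeries KK →+* LaurentSeries KK) : PowerSeries KK →* LaurentSeries KK)) hinj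
    rw [hv, map_one]
  have h2 := dlog_mon hl v
  rw [h1, dlog_one'] at h2
  have h3 := cc_ne (x k)
  have h4 : (v k : KK) = 0 := by
    rcases div_eq_zero_iff.mp h2.symm with h | h
    · exact h
    · exact absurd h h3
  have h5 : v k = 0 := by exact_mod_cast h4
  apply hl.ind v h5
  rw [mon_mapx, h1, map_one]

/-- injectivity of `(deg, v_k)` on `{v ∈ Q : q̄^v = 1}` -/
theorem inj_L {x : J n → (PowerSeries KK)ˣ} {k : J n} (hl : LocHyp n x k) (z : KKˣ) (v : Vec n)
    (hq : qch (mapx (PowerSeries.constantCoeff (R := KK)) x) z v = 1) (h0 : deg v = 0) (hk : v k = 0) : v = 0 := by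
  apply hl.ind v hk
  rw [qch_eq_one_iff, h0, zpow_zero] at hq
  exact hq
end

end SYM
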