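import Pool.Agent.Lib.MP_b1ea0f_al.Defs4
import Pool.Agent.Lib.MP_b1ea0f_al.RHalf
import Pool.Agent.Lib.MP_b1ea0f_al.RInd
import Pool.Agent.Lib.MP_b1ea0f_al.RMatch
import Pool.Agent.Lib.MP_b1ea0f_al.UDlog
import Pool.Agent.Lib.MP_b1ea0f_al.TIndep

/-!
# UPole: simple zeros and opposite residues

(Abbreviations in this text: OO = PowerSeries KK, LL = LaurentSeries KK, cc = PowerSeries.constantCoeff.) Paper 8.3 Zeros and Matching. `matching` at the residue point gives halves `h : Half γ ∋ β`, `h' : Half β ∋ γ` with `D'` equal (over `KK`). `schur γ x zγ = κ q^{-ϖ} (q^β - 1) D'(h, β)` in `OO` (`schur_eq`, `D_eq`), `q^β(zγ)(0) = 1`; coefficient of `X`: `κ q̄^{-ϖ} D̄' · dlog(q^β(zγ))` (as `cc(q^β) = 1`),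
`dlog q^β(zγ) = (β_k dg γ - dg β γ_k)/(x_k(0) dg γ)` (`dlog_qch`, `dlog_root`). Symmetric for `β`. `Ω = dg γ β_k - dg β γ_k ≠ 0`: otherwise `dg γ • β - dg β • γ` has degree 0, `k`-coordinate 0 and `q̄ = 1`, so it is zero (`inj_L`), `Rc_prop`. `D̄' ≠ 0`: `hcγ` (the elements of `h.L` other than `β` are not `β`, and not
`γ - β` because `β ∈ h.L`). `hβ0`: `β - γ` may have any sign of degree.
-/

namespace SYM
open Polynomial Module

section
variable {KK : Type} [Field KK] {n : ℕ}

/-- the punctured product commutes with ring homomorphisms -/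
private theorem map_D' {α : Vec n} (h : Half α) (c₀ : Vec n) {k k' : Type*} [CommRing k]
    [CommRing k'] (f : k →+* k') (x : J n → kˣ) (z : kˣ) :
    f (h.D' c₀ x z) = h.D' c₀ (mapx f x) (Units.map (f : k →* k') z) := by
  unfold Half.D'
  rw [qch_mapx]
  simp only [map_mul, map_pow, map_neg, map_one, map_prod, map_sub, qch_mapx,
    Units.coe_map, MonoidHom.coe_coe]

/-- the punctured product does not vanish -/
private theorem D'_ne {κ : Type} [Field κ] {γ β : Vec n} (h : Half γ) (hβ : β ∈ h.L)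
    (x : J n → κˣ) (z : κˣ)
    (hc : ∀ c, IsRoot c → qch x z c = 1 → ip c γ = 1 → c = β ∨ c = γ - β) :
    h.D' β x z ≠ 0 := by
  unfold Half.D'
  refine mul_ne_zero (mul_ne_zero (pow_ne_zero _ (neg_ne_zero.2 one_ne_zero)) (Units.ne_zero _))
    (Finset.prod_ne_zero_iff.2 ?_)
  intro c hcL h0
  obtain ⟨hne, hcL'⟩ := Finset.mem_erase.1 hcL
  have h1 : qch x z c = 1 := Units.ext (by rw [sub_eq_zero] at h0; exact h0)
  rcases hc c (h.isRoot c hcL') h1 (h.ip_eq c hcL') with h2 | h2
  · exact hne h2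
  · have h3 := (h.half c (h.isRoot c hcL') (h.ip_eq c hcL')).1 hcL'
    apply h3
    rw [h2, sub_sub_cancel]
    exact hβ

private theorem dlog_eq (u : (PowerSeries KK)ˣ) :
    PowerSeries.coeff 1 (u : PowerSeries KK) =
      dlog u * PowerSeries.constantCoeff (R := KK) (u : PowerSeries KK) := by
  unfold dlog
  have h : PowerSeries.constantCoeff (R := KK) (u : PowerSeries KK) ≠ 0 :=
    (u.isUnit.map (PowerSeries.constantCoeff (R := KK))).ne_zero
  rw [div_mul_cancel₀ _ h]

/-- the first coefficient of a Schur element with one vanishing factor -/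
private theorem schur_one [CharZero KK] (hn : HN n) {x : J n → (PowerSeries KK)ˣ} {k : J n}
    (hl : LocHyp n x k) {γ β : Vec n} (hγ : γ ∈ Rc n) (h : Half γ) (hβ : β ∈ h.L)
    (z : (PowerSeries KK)ˣ) (hz : z ^ dg γ = mon x γ)
    (hq : qch (mapx (PowerSeries.constantCoeff (R := KK)) x)
      (Units.map ((PowerSeries.constantCoeff (R := KK)) : (PowerSeries KK) →* KK) z) β = 1) :
    (PowerSeries.constantCoeff (R := KK)) (schur γ x z) = 0 ∧
    PowerSeries.coeff 1 (schur γ x z) =
      ((β k : KK) / (PowerSeries.constantCoeff (R := KK)) ((x k : (PowerSeries KK)ˣ) : (PowerSeries KK))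
        - deg β * dlog z) *
      ((sgn n : KK) * ((qch (mapx (PowerSeries.constantCoeff (R := KK)) x)
        (Units.map ((PowerSeries.constantCoeff (R := KK)) : (PowerSeries KK) →* KK) z)
        (-varpi n) : KKˣ) : KK) *
        h.D' β (mapx (PowerSeries.constantCoeff (R := KK)) x)
          (Units.map ((PowerSeries.constantCoeff (R := KK)) : (PowerSeries KK) →* KK) z)) := by
  set f := (PowerSeries.constantCoeff (R := KK)) with hf
  have h1 : qch x z γ = 1 := (qch_eq_one hn x z hγ).2 hz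
  have h2 : schur γ x z = (((qch x z β : (PowerSeries KK)ˣ) : PowerSeries KK) - 1) *
      ((sgn n : PowerSeries KK) * ((qch x z (-varpi n) : (PowerSeries KK)ˣ) : PowerSeries KK) *
        h.D' β x z) := by
    rw [schur_eq hn hγ h x z h1, Half.D_eq h β hβ x z]
    ring
  have h3 : f ((qch x z β : (PowerSeries KK)ˣ) : PowerSeries KK) = 1 := by
    have h4 := qch_mapx f x z β
    rw [hq] at h4
    have h5 := congrArg (fun u : KKˣ => (u : KK)) h4
    exact h5.symm
  have h6 : f (((qch x z β : (PowerSeries KK)ˣ) : PowerSeries KK) - 1) = 0 := by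
    rw [map_sub, h3, map_one, sub_self]
  have h7 : PowerSeries.coeff 1 (((qch x z β : (PowerSeries KK)ˣ) : PowerSeries KK) - 1) =
      (β k : KK) / f ((x k : (PowerSeries KK)ˣ) : (PowerSeries KK)) - deg β * dlog z := by
    rw [map_sub, dlog_eq, ← hf, h3, mul_one, dlog_qch hl]
    rw [PowerSeries.coeff_one, if_neg one_ne_zero, sub_zero]
  constructor
  · rw [h2, map_mul, h6, zero_mul]
  · rw [h2, PowerSeries.coeff_one_mul, ← hf, h6, mul_zero, add_zero, h7]
    congr 1
    rw [map_mul, map_mul, map_D', map_intCast, qch_mapx]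
    rfl

theorem schur_pole [CharZero KK] (hn : HN n) {x : J n → (PowerSeries KK)ˣ} {k : J n} (hl : LocHyp n x k)
    {γ β : Vec n} (hγ : γ ∈ Rc n) (hβ : β ∈ Rc n) (h1 : ip γ β = 1)
    (zγ zβ : (PowerSeries KK)ˣ) (hzγ : zγ ^ dg γ = mon x γ) (hzβ : zβ ^ dg β = mon x β)
    (hz : Units.map ((PowerSeries.constantCoeff (R := KK)) : (PowerSeries KK) →* KK) zγ = Units.map ((PowerSeries.constantCoeff (R := KK)) : (PowerSeries KK) →* KK) zβ)
    (hcγ : ∀ c, IsRoot c → qch (mapx (PowerSeries.constantCoeff (R := KK)) x) (Units.map ((PowerSeries.constantCoeff (R := KK)) : (PowerSeries KK) →* KK) zγ) c = 1 → ip c γ = 1 →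
      c = β ∨ c = γ - β) :
    (PowerSeries.constantCoeff (R := KK)) (schur γ x zγ) = 0 ∧ (PowerSeries.constantCoeff (R := KK)) (schur β x zβ) = 0 ∧ PowerSeries.coeff 1 (schur γ x zγ) ≠ 0 ∧
      (dg β : KK) * PowerSeries.coeff 1 (schur β x zβ) =
        - ((dg γ : KK) * PowerSeries.coeff 1 (schur γ x zγ)) ∧
      PowerSeries.coeff 1 (zγ : (PowerSeries KK)) ≠ PowerSeries.coeff 1 (zβ : (PowerSeries KK)) := by
  obtain ⟨dγ1, dγ2, -, -⟩ := dg_bounds hn hγ
  obtain ⟨dβ1, dβ2, -, -⟩ := dg_bounds hn hβ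
  have hγr := ((mem_Rc hn).1 hγ).1
  have hβr := ((mem_Rc hn).1 hβ).1
  have hbc : ip β γ = 1 := by rw [← h1]; exact BMM.bil_comm _ _
  -- values at the residue point
  have qγ : qch (mapx (PowerSeries.constantCoeff (R := KK)) x) (Units.map ((PowerSeries.constantCoeff (R := KK)) : (PowerSeries KK) →* KK) zγ) γ = 1 := by
    rw [qch_mapx, (qch_eq_one hn x zγ hγ).2 hzγ, map_one]
  have qβ' : qch (mapx (PowerSeries.constantCoeff (R := KK)) x) (Units.map ((PowerSeries.constantCoeff (R := KK)) : (PowerSeries KK) →* KK) zβ) β = 1 := by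
    rw [qch_mapx, (qch_eq_one hn x zβ hβ).2 hzβ, map_one]
  have qβ : qch (mapx (PowerSeries.constantCoeff (R := KK)) x) (Units.map ((PowerSeries.constantCoeff (R := KK)) : (PowerSeries KK) →* KK) zγ) β = 1 := by
    rw [hz]; exact qβ'
  have qγ' : qch (mapx (PowerSeries.constantCoeff (R := KK)) x) (Units.map ((PowerSeries.constantCoeff (R := KK)) : (PowerSeries KK) →* KK) zβ) γ = 1 := by
    rw [← hz]; exact qγ
  have qd : qch (mapx (PowerSeries.constantCoeff (R := KK)) x) (Units.map ((PowerSeries.constantCoeff (R := KK)) : (PowerSeries KK) →* KK) zγ) (β - γ) = 1 := by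
    rw [qch_sub, qγ, qβ, inv_one, mul_one]
  obtain ⟨h, h', hβL, hγL, hDD⟩ := matching hn hγ hβ h1
    (mapx (PowerSeries.constantCoeff (R := KK)) x)
    (Units.map ((PowerSeries.constantCoeff (R := KK)) : (PowerSeries KK) →* KK) zγ) qγ qd
  have hD0 := D'_ne h hβL (mapx (PowerSeries.constantCoeff (R := KK)) x)
    (Units.map ((PowerSeries.constantCoeff (R := KK)) : (PowerSeries KK) →* KK) zγ) hcγ
  obtain ⟨a1, a2⟩ := schur_one hn hl hγ h hβL zγ hzγ qβ
  obtain ⟨b1, b2⟩ := schur_one hn hl hβ h' hγL zβ hzβ qγ'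
  rw [← hz, ← hDD, dlog_root hn hl hβ zβ hzβ] at b2
  rw [dlog_root hn hl hγ zγ hzγ] at a2
  have hsgn : (sgn n : KK) ≠ 0 := by
    have : sgn n = 1 ∨ sgn n = -1 := by
      unfold sgn BMM.kap
      split_ifs <;> simp
    rcases this with h0 | h0 <;> rw [h0] <;> simp
  have hW : ((sgn n : KK) * ((qch (mapx (PowerSeries.constantCoeff (R := KK)) x)
        (Units.map ((PowerSeries.constantCoeff (R := KK)) : (PowerSeries KK) →* KK) zγ)
        (-varpi n) : KKˣ) : KK) *
        h.D' β (mapx (PowerSeries.constantCoeff (R := KK)) x)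
          (Units.map ((PowerSeries.constantCoeff (R := KK)) : (PowerSeries KK) →* KK) zγ)) ≠ 0 :=
    mul_ne_zero (mul_ne_zero hsgn (Units.ne_zero _)) hD0
  set W := ((sgn n : KK) * ((qch (mapx (PowerSeries.constantCoeff (R := KK)) x)
        (Units.map ((PowerSeries.constantCoeff (R := KK)) : (PowerSeries KK) →* KK) zγ)
        (-varpi n) : KKˣ) : KK) *
        h.D' β (mapx (PowerSeries.constantCoeff (R := KK)) x)
          (Units.map ((PowerSeries.constantCoeff (R := KK)) : (PowerSeries KK) →* KK) zγ)) with hWdef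
  have hX : (PowerSeries.constantCoeff (R := KK)) ((x k : (PowerSeries KK)ˣ) : (PowerSeries KK)) ≠ 0 :=
    ((x k).isUnit.map (PowerSeries.constantCoeff (R := KK))).ne_zero
  set X0 := (PowerSeries.constantCoeff (R := KK)) ((x k : (PowerSeries KK)ˣ) : (PowerSeries KK))
  have eγ : (deg γ : KK) = (dg γ : KK) := by
    rw [← dγ1]; simp
  have eβ : (deg β : KK) = (dg β : KK) := by
    rw [← dβ1]; simp
  have nγ : (dg γ : KK) ≠ 0 := by
    have : dg γ ≠ 0 := by omega
    exact_mod_cast this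
  have nβ : (dg β : KK) ≠ 0 := by
    have : dg β ≠ 0 := by omega
    exact_mod_cast this
  -- Ω ≠ 0
  have hΩ : (dg γ : KK) * (β k : KK) - (dg β : KK) * (γ k : KK) ≠ 0 := by
    intro h0
    have h0' : deg γ * β k - deg β * γ k = 0 := by
      have : ((deg γ * β k - deg β * γ k : ℤ) : KK) = 0 := by
        push_cast
        rw [eγ, eβ]
        exact h0
      exact_mod_cast this
    have hv : deg γ • β - deg β • γ = 0 := by
      apply inj_L hl (Units.map ((PowerSeries.constantCoeff (R := KK)) : (PowerSeries KK) →* KK) zγ)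
      · rw [qch_sub, qch_smul, qch_smul, qγ, qβ, one_zpow, one_zpow, inv_one, mul_one]
      · rw [sub_eq_add_neg, lev_add', deg_neg', deg_smul', deg_smul']
        ring
      · simpa using h0'
    have hp := Rc_prop hn hγ hβr (sub_eq_zero.1 hv).symm
    have hγγ : ip γ γ = 2 := hγr.2
    rcases hp with hp | hp
    · rw [hp, hγγ] at h1
      exact absurd h1 (by norm_num)
    · have h5 : ip γ (-γ) = - ip γ γ := by
        have e1 : ip (-γ) γ = - ip γ γ := by
          have := BMM.bil_smul_left (-1) γ γ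
          rw [neg_one_smul] at this
          linarith
        rw [← e1]
        exact BMM.bil_comm _ _
      rw [hp, h5, hγγ] at h1
      exact absurd h1 (by norm_num)
  have a3 : PowerSeries.coeff 1 (schur γ x zγ) =
      ((dg γ : KK) * (β k : KK) - (dg β : KK) * (γ k : KK)) / ((dg γ : KK) * X0) * W := by
    rw [a2, eβ]
    congr 1
    field_simp
  have b3 : PowerSeries.coeff 1 (schur β x zβ) =
      ((dg β : KK) * (γ k : KK) - (dg γ : KK) * (β k : KK)) / ((dg β : KK) * X0) * W := by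
    rw [b2, eγ]
    congr 1
    field_simp
  refine ⟨a1, b1, ?_, ?_, ?_⟩
  · rw [a3]
    exact mul_ne_zero (div_ne_zero hΩ (mul_ne_zero nγ hX)) hW
  · rw [a3, b3]
    field_simp
    ring
  · rw [dlog_eq zγ, dlog_eq zβ, dlog_root hn hl hγ zγ hzγ, dlog_root hn hl hβ zβ hzβ]
    have e0 : (PowerSeries.constantCoeff (R := KK)) (zγ : PowerSeries KK) =
        (PowerSeries.constantCoeff (R := KK)) (zβ : PowerSeries KK) :=
      congrArg (fun u : KKˣ => (u : KK)) hz
    rw [← e0]
    have e1 : (PowerSeries.constantCoeff (R := KK)) (zγ : PowerSeries KK) ≠ 0 :=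
      (zγ.isUnit.map (PowerSeries.constantCoeff (R := KK))).ne_zero
    intro e2
    have e3 := mul_right_cancel₀ e1 e2
    apply hΩ
    change (γ k : KK) / ((dg γ : KK) * X0) = (β k : KK) / ((dg β : KK) * X0) at e3
    rw [div_eq_div_iff (mul_ne_zero nγ hX) (mul_ne_zero nβ hX)] at e3
    have e4 : ((dg γ : KK) * (β k : KK) - (dg β : KK) * (γ k : KK)) * X0 = 0 := by
      linear_combination -e3
    exact (mul_eq_zero.1 e4).resolve_right hX
end

end SYM
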