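import Pool.Agent.Lib.MP_b1ea0f_al.Defs4
import Pool.Agent.Lib.MP_b1ea0f_al.WMult
import Pool.Agent.Lib.MP_b1ea0f_al.LChar
import Pool.Agent.Lib.MP_b1ea0f_al.UDlog
import Pool.Agent.Lib.MP_b1ea0f_al.WSchur
import Pool.Agent.Lib.MP_b1ea0f_al.BMap

/-!
# URed: reduction of the lattice representations

(Abbreviations in this text: OO = PowerSeries KK, LL = LaurentSeries KK, cc = PowerSeries.constantCoeff.) Reduction of `σ_i` modulo `X`: an algebra hom `σ̄_i : H n (mapx cc x) → Matrix .. KK` with `σ̄_i(hmap cc h) = (σ_i h) mod X` (`lift` of the reduced matrices of the generators, `hmap cc` surjective). `WMult` gives `m`, with `tr σ̄_i = ∑ m_j tr ρ_j`, `d_i² = ∑ m_j w.d j`, `m_j ≠ 0 → ρ_j(zz) = ζ_i`.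
If the parameters `mapx cc x` are distinct on each leg: apply `σ_tr` to a lift `p` of the Lagrange polynomial of `x̄_{g,j}`: `d_i α_{g,j} = ∑_j m_j dv(ρ_j)_{g,j}` (`trace_aeval`).
-/

namespace SYM
open Polynomial Module

section
variable {KK : Type} [Field KK] {n : ℕ}

/-- transport of a polynomial identity through compatible ring homomorphisms -/
private theorem aeval_transport {R S T U : Type*} [CommRing R] [Ring S] [CommRing T] [Ring U]
    [Algebra R S] [Algebra T U] (φ : R →+* T) (ψ : S →+* U)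
    (h : ∀ r, ψ (algebraMap R S r) = algebraMap T U (φ r)) (p : R[X]) (a : S) :
    ψ (aeval a p) = aeval (ψ a) (p.map φ) := by
  induction p using Polynomial.induction_on' with
  | add p q hp hq => rw [map_add, map_add, hp, hq, Polynomial.map_add, map_add]
  | monomial m r =>
    rw [aeval_monomial, Polynomial.map_monomial, aeval_monomial, map_mul, map_pow, h]

/-- reduction of a matrix -/
private theorem mapMatrix_algebraMap {R T : Type*} [CommRing R] [CommRing T] (φ : R →+* T)
    {d : ℕ} (r : R) :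
    φ.mapMatrix (algebraMap R (Matrix (Fin d) (Fin d) R) r) =
      algebraMap T (Matrix (Fin d) (Fin d) T) (φ r) := by
  ext a b
  rw [RingHom.mapMatrix_apply, Matrix.map_apply, Matrix.algebraMap_matrix_apply,
    Matrix.algebraMap_matrix_apply]
  split_ifs with h
  · rfl
  · exact map_zero φ

private theorem exists_redhom {R T : Type} [CommRing R] [CommRing T] (φ : R →+* T)
    (x : J n → Rˣ) {d : ℕ} (σ : H n x →ₐ[R] Matrix (Fin d) (Fin d) R) :
    ∃ τ : H n (mapx φ x) →ₐ[T] Matrix (Fin d) (Fin d) T,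
      ∀ h : H n x, τ (hmap φ n x h) = φ.mapMatrix (σ h) := by
  have hst := (isStar_gen n x).map σ
  have hS : IsStar n (mapx φ x) (fun g => φ.mapMatrix (σ (gen n x g))) := by
    refine ⟨fun g => ?_, ?_, ?_⟩
    · have h1 := aeval_transport φ (φ.mapMatrix : Matrix (Fin d) (Fin d) R →+* Matrix (Fin d) (Fin d) T)
        (mapMatrix_algebraMap φ) (P n x g) (σ (gen n x g))
      have h2 : aeval (σ (gen n x g)) (P n x g) = 0 := hst.poly g
      rw [h2, map_zero] at h1
      rw [P_mapx]
      exact h1.symm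
    · simp only [← map_mul]
      rw [(isStar_gen n x).cyc1]
    · simp only [← map_mul]
      rw [(isStar_gen n x).cyc2]
  refine ⟨lift n (mapx φ x) _ hS, fun h => ?_⟩
  have hh : h ∈ Algebra.adjoin R (Set.range (gen n x)) := by
    rw [adjoin_gen]; exact Algebra.mem_top
  induction hh using Algebra.adjoin_induction with
  | mem y hy =>
    obtain ⟨g, rfl⟩ := hy
    rw [hmap_gen, lift_gen]
  | algebraMap r =>
    rw [hmap_algebraMap, AlgHom.commutes, AlgHom.commutes, mapMatrix_algebraMap]
  | add y y' _ _ hy hy' => rw [map_add, map_add, hy, hy', map_add, map_add]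
  | mul y y' _ _ hy hy' => rw [map_mul, map_mul, hy, hy', map_mul, map_mul]

theorem exists_red [CharZero KK] [IsAlgClosed KK] {x : J n → (PowerSeries KK)ˣ} {k : J n}
    (D : LocData n x k) [FiniteDimensional KK (H n (mapx (PowerSeries.constantCoeff (R := KK)) x))]
    (w : Wed KK (H n (mapx (PowerSeries.constantCoeff (R := KK)) x))) (i : Idx (mapx (PowerSeries.constantCoeff (R := KK)) x)) :
    ∃ m : Fin w.r → ℕ,
      (∀ h : H n x, (PowerSeries.constantCoeff (R := KK)) (Matrix.trace (D.σ i h)) =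
        ∑ j, (m j : KK) * LinearMap.trace KK _ (w.ρ j (hmap (PowerSeries.constantCoeff (R := KK)) n x h))) ∧
      dg i.1.1 ^ 2 = ∑ j, m j * w.d j ∧
      (∀ j, m j ≠ 0 → w.ρ j (zz n _) = ((i.1.2 : KKˣ) : KK) • 1) ∧
      ((∀ g (i i' : Fin (leg n g)), mapx (PowerSeries.constantCoeff (R := KK)) x ⟨g, i⟩ = mapx (PowerSeries.constantCoeff (R := KK)) x ⟨g, i'⟩ → i = i') →
        (dg i.1.1 : ℤ) • i.1.1 =
          ∑ j, (m j : ℤ) • dv (mapx (PowerSeries.constantCoeff (R := KK)) x) fun g => w.ρ j (gen n (mapx (PowerSeries.constantCoeff (R := KK)) x) g)) := by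
  classical
  obtain ⟨τ, hτ⟩ := exists_redhom (PowerSeries.constantCoeff (R := KK)) x (D.σ i)
  obtain ⟨m, hm1, hm2, hm3⟩ := w.exists_mult
    ((Matrix.toLinAlgEquiv' (R := KK) (n := Fin (dg i.1.1 ^ 2))).toAlgHom.comp τ)
  have hcc : ∀ h : H n x, (PowerSeries.constantCoeff (R := KK)) (Matrix.trace (D.σ i h)) =
        ∑ j, (m j : KK) * LinearMap.trace KK _ (w.ρ j (hmap (PowerSeries.constantCoeff (R := KK)) n x h)) := by
    intro h
    rw [← hm1]
    have h1 : LinearMap.trace KK (Fin (dg i.1.1 ^ 2) → KK)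
        (((Matrix.toLinAlgEquiv' (R := KK) (n := Fin (dg i.1.1 ^ 2))).toAlgHom.comp τ)
          (hmap (PowerSeries.constantCoeff (R := KK)) n x h)) =
        Matrix.trace (τ (hmap (PowerSeries.constantCoeff (R := KK)) n x h)) := by
      exact Matrix.trace_toLin'_eq _
    rw [h1, hτ]
    unfold Matrix.trace
    rw [map_sum]
    rfl
  refine ⟨m, hcc, ?_, ?_, ?_⟩
  · rw [← hm2, finrank_fin_fun]
  · refine hm3 _ (zz_comm n _) _ ?_
    have h1 : τ (zz n _) = ((i.1.2 : KKˣ) : KK) • (1 : Matrix (Fin (dg i.1.1 ^ 2)) (Fin (dg i.1.1 ^ 2)) KK) := by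
      rw [← hmap_zz, hτ, D.σ_zz i]
      have h2 : (PowerSeries.constantCoeff (R := KK)) ((D.zl i : (PowerSeries KK)ˣ) : PowerSeries KK) =
          ((i.1.2 : KKˣ) : KK) := congrArg Units.val (D.zl_cc i)
      rw [← h2]
      have h3 := mapMatrix_algebraMap (d := dg i.1.1 ^ 2) (PowerSeries.constantCoeff (R := KK))
        ((D.zl i : (PowerSeries KK)ˣ) : PowerSeries KK)
      rw [Algebra.algebraMap_eq_smul_one, Algebra.algebraMap_eq_smul_one] at h3
      exact h3
    have h4 : (((Matrix.toLinAlgEquiv' (R := KK) (n := Fin (dg i.1.1 ^ 2))).toAlgHom.comp τ) (zz n _)) =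
        (Matrix.toLinAlgEquiv' (R := KK) (n := Fin (dg i.1.1 ^ 2))) (τ (zz n _)) := rfl
    rw [h4, h1, map_smul, map_one]
  · intro hinj
    funext l
    obtain ⟨g, j0⟩ := l
    -- the Lagrange polynomial
    let xb : Fin (leg n g) → KK := fun j =>
      ((mapx (PowerSeries.constantCoeff (R := KK)) x ⟨g, j⟩ : KKˣ) : KK)
    have hxb : Function.Injective xb := by
      intro a b hab
      exact hinj g a b (Units.ext hab)
    let q : KK[X] := Lagrange.basis Finset.univ xb j0
    have hq : ∀ j, q.eval (xb j) = if j = j0 then 1 else 0 := by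
      intro j
      split_ifs with h
      · subst h
        exact Lagrange.eval_basis_self (hxb.injOn) (Finset.mem_univ _)
      · exact Lagrange.eval_basis_of_ne (Ne.symm h) (Finset.mem_univ _)
    let p : (PowerSeries KK)[X] := q.map (PowerSeries.C (R := KK))
    have hpq : p.map (PowerSeries.constantCoeff (R := KK)) = q := by
      show (q.map (PowerSeries.C (R := KK))).map (PowerSeries.constantCoeff (R := KK)) = q
      rw [Polynomial.map_map]
      have : (PowerSeries.constantCoeff (R := KK)).comp (PowerSeries.C (R := KK)) = RingHom.id KK := by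
        ext r; simp
      rw [this, Polynomial.map_id]
    have hev : ∀ j, (PowerSeries.constantCoeff (R := KK))
        (p.eval ((x ⟨g, j⟩ : (PowerSeries KK)ˣ) : (PowerSeries KK))) = if j = j0 then 1 else 0 := by
      intro j
      rw [← hq j, ← hpq]
      have h3 : xb j = (PowerSeries.constantCoeff (R := KK))
        ((x ⟨g, j⟩ : (PowerSeries KK)ˣ) : (PowerSeries KK)) := rfl
      rw [h3]
      exact (Polynomial.eval_map_apply (p := p) (f := PowerSeries.constantCoeff (R := KK)) _).symm
    have h1 := D.σ_tr i g p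
    have h2 := hcc (aeval (gen n x g) p)
    rw [h1, map_mul, map_sum] at h2
    have h3 : ∀ j, LinearMap.trace KK (Fin (w.d j) → KK)
        (w.ρ j (hmap (PowerSeries.constantCoeff (R := KK)) n x (aeval (gen n x g) p))) =
        ((dv (mapx (PowerSeries.constantCoeff (R := KK)) x)
          (fun g => w.ρ j (gen n (mapx (PowerSeries.constantCoeff (R := KK)) x) g)) ⟨g, j0⟩ : ℤ) : KK) := by
      intro j
      have h4 : hmap (PowerSeries.constantCoeff (R := KK)) n x (aeval (gen n x g) p) =
          aeval (gen n (mapx (PowerSeries.constantCoeff (R := KK)) x) g) q := by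
        rw [aeval_transport (PowerSeries.constantCoeff (R := KK))
          (hmap (PowerSeries.constantCoeff (R := KK)) n x) (hmap_algebraMap _ n x), hmap_gen, hpq]
      rw [h4, ← Polynomial.aeval_algHom_apply]
      have h5 := trace_aeval (((isStar_gen n (mapx (PowerSeries.constantCoeff (R := KK)) x)).map (w.ρ j))) g q
      rw [h5, Finset.sum_eq_single j0]
      · have h6 := hq j0
        rw [if_pos rfl] at h6
        have h7 : q.eval ((mapx (PowerSeries.constantCoeff (R := KK)) x ⟨g, j0⟩ : KKˣ) : KK) = 1 := h6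
        rw [h7, mul_one]
      · intro b _ hb
        have h6 := hq b
        rw [if_neg hb] at h6
        have h7 : q.eval ((mapx (PowerSeries.constantCoeff (R := KK)) x ⟨g, b⟩ : KKˣ) : KK) = 0 := h6
        rw [h7, mul_zero]
      · intro h; exact absurd (Finset.mem_univ _) h
    have h8 : (PowerSeries.constantCoeff (R := KK)) ((dg i.1.1 : ℕ) : PowerSeries KK) = ((dg i.1.1 : ℕ) : KK) :=
      map_natCast _ _
    have h9 : (∑ j, (PowerSeries.constantCoeff (R := KK)) (((i.1.1 ⟨g, j⟩ : ℤ) : PowerSeries KK) *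
        p.eval ((x ⟨g, j⟩ : (PowerSeries KK)ˣ) : (PowerSeries KK)))) = ((i.1.1 ⟨g, j0⟩ : ℤ) : KK) := by
      rw [Finset.sum_eq_single j0]
      · rw [map_mul, hev, if_pos rfl, mul_one, map_intCast]
      · intro b _ hb
        rw [map_mul, hev, if_neg hb, mul_zero]
      · intro h; exact absurd (Finset.mem_univ _) h
    rw [h8, h9, Finset.sum_congr rfl fun j _ => by rw [h3 j]] at h2
    rw [Pi.smul_apply, Finset.sum_apply]
    simp only [Pi.smul_apply, smul_eq_mul]
    have h10 : (((dg i.1.1 : ℤ) * i.1.1 ⟨g, j0⟩ : ℤ) : KK) =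
        ((∑ j, (m j : ℤ) * dv (mapx (PowerSeries.constantCoeff (R := KK)) x)
          (fun g => w.ρ j (gen n (mapx (PowerSeries.constantCoeff (R := KK)) x) g)) ⟨g, j0⟩ : ℤ) : KK) := by
      push_cast
      exact h2
    exact Int.cast_injective h10
end

end SYM
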