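import Pool.Agent.Lib.MP_b1ea0f_al.Defs4
import Pool.Agent.Lib.MP_b1ea0f_al.RInd
import Pool.Agent.Lib.MP_b1ea0f_al.TUnit
import Pool.Agent.Lib.MP_b1ea0f_al.TIndep
import Pool.Agent.Lib.MP_b1ea0f_al.RHalf

/-!
# UUnit: Schur elements which are units

(Abbreviations in this text: OO = PowerSeries KK, LL = LaurentSeries KK, cc = PowerSeries.constantCoeff.) `isUnit_schur` in `OO` (units = nonzero constant term), `qch_mapx`.
-/

namespace SYM
open Polynomial Module

section
variable {KK : Type} [Field KK] {n : ℕ}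


theorem schur_unit (hn : HN n) {x : J n → (PowerSeries KK)ˣ}
    {α : Vec n} (hα : α ∈ Rc n) (z : (PowerSeries KK)ˣ) (hz : z ^ dg α = mon x α)
    (h : ∀ c, IsRoot c → ip c α = 1 → qch (mapx (PowerSeries.constantCoeff (R := KK)) x) (Units.map ((PowerSeries.constantCoeff (R := KK)) : (PowerSeries KK) →* KK) z) c ≠ 1) :
    (PowerSeries.constantCoeff (R := KK)) (schur α x z) ≠ 0 := by
  rw [← schur_map]
  have hz' : (Units.map ((PowerSeries.constantCoeff (R := KK)) : (PowerSeries KK) →* KK) z) ^ dg α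
      = mon (mapx (PowerSeries.constantCoeff (R := KK)) x) α := by
    rw [mon_mapx, ← hz, map_pow]
  have h1 := isUnit_schur hn (mapx (PowerSeries.constantCoeff (R := KK)) x)
    (Units.map ((PowerSeries.constantCoeff (R := KK)) : (PowerSeries KK) →* KK) z) hα hz' ?_
  · exact h1.ne_zero
  · intro c hc hcα
    rw [isUnit_iff_ne_zero, sub_ne_zero]
    intro h2
    exact h c hc hcα (Units.ext h2)
end

end SYM
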