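import Pool.Agent.Lib.MP_b1ea0f_al.Defs4
import Pool.Agent.Lib.MP_b1ea0f_al.URed
import Pool.Agent.Lib.MP_b1ea0f_al.UUnit
import Pool.Agent.Lib.MP_b1ea0f_al.UPole
import Pool.Agent.Lib.MP_b1ea0f_al.UDlog
import Pool.Agent.Lib.MP_b1ea0f_al.RCls
import Pool.Agent.Lib.MP_b1ea0f_al.RHalf
import Pool.Agent.Lib.MP_b1ea0f_al.WIrr
import Pool.Agent.Lib.MP_b1ea0f_al.TIndep

/-!
# UCase: the three types of blocks

(Abbreviations in this text: OO = PowerSeries KK, LL = LaurentSeries KK, cc = PowerSeries.constantCoeff.) Paper 8.3. `G := {α ∈ Rc n : z0^{dg α} = mon x̄ α}` (finset), nonempty by `irr_mem_Rc` and `hz0`; `classify` with `inj_L`. Elements of `G` ↔ `i : Idx` with `i.1.2 = z0`. Irreducibles `j` at `z0` have `v_j := dv ∈ G`, `irr_ortho`: `ip v_j v_{j'} ≤ 0` for `j ≠ j'`, in particular `v_j ≠ v_{j'}` (`ip v v = 2`).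
Case 1 `G = {α}`: one irreducible `j`, `w.d j = dg α`; `exists_red`: `d² = m_j d`, `m_j = d`; `schur_unit`. Case 2 `G = {α,β}` orthogonal, no root of degree 0 in `{q̄ = 1}`: so `x̄` distinct (`e_{g,i} - e_{g,i'}` would be a root with `q̄ = 1`); `d_α α = ∑ m_j v_j`, `v_j ∈ {α,β}`: so an irreducible with `v_j = α` exists, `m_j = d_α`,
the other multiplicity is 0; same for `β`; `schur_unit`. Case 3: one irreducible since `ip > 0` for any two; `schur_pole`. Case 4: `x̄` distinct; `d_γ γ = ∑ m_j v_j` with `v_j ∈ {γ,δ,γ+δ}` forces an irreducible `v_j = γ`, same for `δ`; `γ+δ` does not occur (`ip γ (γ+δ) = 1 > 0`); `schur_pole` for `(γ,β)` and `(δ,β)`.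
-/

namespace SYM
open Polynomial Module

section vec
variable {n : ℕ}

private theorem uc_comm (v w : Vec n) : ip v w = ip w v := BMM.bil_comm v w

private theorem uc_add (u v w : Vec n) : ip (u + v) w = ip u w + ip v w := BMM.bil_add_left u v w

private theorem uc_smul (c : ℤ) (v w : Vec n) : ip (c • v) w = c * ip v w :=
  BMM.bil_smul_left c v w

private theorem uc_addr (u v w : Vec n) : ip w (u + v) = ip w u + ip w v := by
  rw [uc_comm, uc_add, uc_comm u, uc_comm v]

private theorem uc_sum {ι : Type*} (s : Finset ι) (m : ι → ℕ) (v : ι → Vec n) (w : Vec n) :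
    ip (∑ j ∈ s, (m j : ℤ) • v j) w = ∑ j ∈ s, (m j : ℤ) * ip (v j) w := by
  classical
  induction s using Finset.induction_on with
  | empty =>
    rw [Finset.sum_empty, Finset.sum_empty]
    have := uc_smul 0 (0 : Vec n) w
    rwa [zero_smul, zero_mul] at this
  | insert i s hi ih => rw [Finset.sum_insert hi, Finset.sum_insert hi, uc_add, uc_smul, ih]

/-- a leg root -/
private theorem uc_leg {k : Type*} [CommRing k] (x : J n → kˣ) (z : kˣ) (g : Fin 3)
    (i i' : Fin (leg n g)) (hii : i ≠ i') (hx : x ⟨g, i⟩ = x ⟨g, i'⟩) :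
    ∃ c : Vec n, IsRoot c ∧ qch x z c = 1 ∧ deg c = 0 := by
  classical
  let e : J n := ⟨g, i⟩
  let e' : J n := ⟨g, i'⟩
  have hee : e ≠ e' := by
    intro h
    apply hii
    have h2 : (⟨g, i⟩ : J n) = ⟨g, i'⟩ := h
    simpa using h2
  let c : Vec n := fun l => if l = e then 1 else if l = e' then -1 else 0
  have hsum : ∀ g' : Fin 3, ∑ l : Fin (leg n g'), c ⟨g', l⟩ = 0 := by
    intro g'
    by_cases hg : g' = g
    · subst hg
      have h1 : ∀ l : Fin (leg n g'), c ⟨g', l⟩ = (if l = i then 1 else 0) +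
          (if l = i' then -1 else 0) := by
        intro l
        have e1 : ((⟨g', l⟩ : J n) = e) ↔ l = i := by
          change ((⟨g', l⟩ : J n) = ⟨g', i⟩) ↔ l = i
          simp
        have e2 : ((⟨g', l⟩ : J n) = e') ↔ l = i' := by
          change ((⟨g', l⟩ : J n) = ⟨g', i'⟩) ↔ l = i'
          simp
        change (if (⟨g', l⟩ : J n) = e then (1 : ℤ) else
          if (⟨g', l⟩ : J n) = e' then -1 else 0) = _
        simp only [e1, e2]
        by_cases hl : l = i
        · subst hl
          rw [if_pos rfl, if_pos rfl, if_neg hii]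
          rfl
        · rw [if_neg hl, if_neg hl, zero_add]
      rw [Finset.sum_congr rfl fun l _ => h1 l, Finset.sum_add_distrib]
      simp
    · refine Finset.sum_eq_zero fun l _ => ?_
      have e1 : (⟨g', l⟩ : J n) ≠ e := fun h => hg (congrArg Sigma.fst h)
      have e2 : (⟨g', l⟩ : J n) ≠ e' := fun h => hg (congrArg Sigma.fst h)
      change (if (⟨g', l⟩ : J n) = e then (1 : ℤ) else
          if (⟨g', l⟩ : J n) = e' then -1 else 0) = 0
      rw [if_neg e1, if_neg e2]
  have hdeg : deg c = 0 := hsum 0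
  refine ⟨c, ⟨fun g' => ?_, ?_⟩, ?_, hdeg⟩
  · rw [hsum g']
    exact hdeg.symm
  · unfold BMM.bil
    have h0 : BMM.lev c = 0 := hdeg
    rw [h0, mul_zero, sub_zero]
    have h1 : ∀ l : J n, c l * c l = (if l = e then 1 else 0) + (if l = e' then 1 else 0) := by
      intro l
      change (if l = e then (1 : ℤ) else if l = e' then -1 else 0) *
        (if l = e then (1 : ℤ) else if l = e' then -1 else 0) = _
      by_cases hl : l = e
      · rw [if_pos hl, if_pos hl, if_neg (by rw [hl]; exact hee)]
        norm_num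
      · rw [if_neg hl, if_neg hl]
        by_cases hl' : l = e'
        · rw [if_pos hl', if_pos hl']
          norm_num
        · rw [if_neg hl', if_neg hl']
          norm_num
    rw [Finset.sum_congr rfl fun l _ => h1 l, Finset.sum_add_distrib]
    simp
  · unfold qch
    rw [hdeg, neg_zero, zpow_zero, mul_one]
    unfold mon
    have h1 : ∀ l : J n, x l ^ c l = (if l = e then x e else 1) * (if l = e' then (x e')⁻¹ else 1) := by
      intro l
      change x l ^ (if l = e then (1 : ℤ) else if l = e' then -1 else 0) = _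
      by_cases hl : l = e
      · rw [if_pos hl, if_pos hl, if_neg (by rw [hl]; exact hee), hl]
        simp
      · rw [if_neg hl, if_neg hl]
        by_cases hl' : l = e'
        · rw [if_pos hl', if_pos hl', hl']
          simp
        · rw [if_neg hl', if_neg hl']
          simp
    rw [Finset.prod_congr rfl fun l _ => h1 l, Finset.prod_mul_distrib]
    simp only [Finset.prod_ite_eq', Finset.mem_univ, if_true]
    have h2 : x e = x e' := hx
    rw [h2, mul_inv_cancel]

end vec

section
variable {KK : Type} [Field KK] {n : ℕ}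

private theorem red_one {x : J n → (PowerSeries KK)ˣ} {k : J n} (D : LocData n x k)
    (w : Wed KK (H n (mapx (PowerSeries.constantCoeff (R := KK)) x)))
    (i : Idx (mapx (PowerSeries.constantCoeff (R := KK)) x)) (m : Fin w.r → ℕ)
    (hm : ∀ h : H n x, (PowerSeries.constantCoeff (R := KK)) (Matrix.trace (D.σ i h)) =
        ∑ j, (m j : KK) * LinearMap.trace KK _
          (w.ρ j (hmap (PowerSeries.constantCoeff (R := KK)) n x h)))
    (j0 : Fin w.r) (h0 : ∀ j, j ≠ j0 → m j = 0) (h1 : m j0 = dg i.1.1) :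
    D.Red w i (Pi.single j0 1) := by
  intro h
  rw [hm h, Finset.sum_eq_single j0, Finset.sum_eq_single j0, h1, Pi.single_eq_same]
  · push_cast
    ring
  · intro j _ hj
    rw [Pi.single_eq_of_ne hj]
    simp
  · intro hj
    exact absurd (Finset.mem_univ _) hj
  · intro j _ hj
    rw [h0 j hj]
    simp
  · intro hj
    exact absurd (Finset.mem_univ _) hj

private theorem red_two {x : J n → (PowerSeries KK)ˣ} {k : J n} (D : LocData n x k)
    (w : Wed KK (H n (mapx (PowerSeries.constantCoeff (R := KK)) x)))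
    (i : Idx (mapx (PowerSeries.constantCoeff (R := KK)) x)) (m : Fin w.r → ℕ)
    (hm : ∀ h : H n x, (PowerSeries.constantCoeff (R := KK)) (Matrix.trace (D.σ i h)) =
        ∑ j, (m j : KK) * LinearMap.trace KK _
          (w.ρ j (hmap (PowerSeries.constantCoeff (R := KK)) n x h)))
    (j0 j1 : Fin w.r) (hj : j0 ≠ j1) (h0 : ∀ j, j ≠ j0 → j ≠ j1 → m j = 0)
    (h1 : m j0 = dg i.1.1) (h2 : m j1 = dg i.1.1) :
    D.Red w i (Pi.single j0 1 + Pi.single j1 1) := by
  classical
  intro h
  rw [hm h, Finset.mul_sum]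
  refine Finset.sum_congr rfl fun j _ => ?_
  by_cases e0 : j = j0
  · subst e0
    rw [h1, Pi.add_apply, Pi.single_eq_same, Pi.single_eq_of_ne hj]
    push_cast
    ring
  · by_cases e1 : j = j1
    · subst e1
      rw [h2, Pi.add_apply, Pi.single_eq_same, Pi.single_eq_of_ne e0]
      push_cast
      ring
    · rw [h0 j e0 e1, Pi.add_apply, Pi.single_eq_of_ne e0, Pi.single_eq_of_ne e1]
      push_cast
      ring

theorem blockCase [CharZero KK] [IsAlgClosed KK] (hn : HN n) {x : J n → (PowerSeries KK)ˣ} {k : J n}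
    (D : LocData n x k) [FiniteDimensional KK (H n (mapx (PowerSeries.constantCoeff (R := KK)) x))]
    (w : Wed KK (H n (mapx (PowerSeries.constantCoeff (R := KK)) x))) (z0 : KKˣ)
    (hz0 : ∃ j, w.ρ j (zz n _) = (z0 : KK) • 1) : BlockCase D w z0 := by
  classical
  obtain ⟨y, hy⟩ : ∃ y, y = mapx (PowerSeries.constantCoeff (R := KK)) x := ⟨_, rfl⟩
  -- dimension vectors
  obtain ⟨v, hv⟩ : ∃ v : Fin w.r → Vec n, ∀ j, v j =
      dv (mapx (PowerSeries.constantCoeff (R := KK)) x)
        fun g => w.ρ j (gen n (mapx (PowerSeries.constantCoeff (R := KK)) x) g) :=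
    ⟨_, fun _ => rfl⟩
  have hsurj : ∀ j, Function.Surjective (w.ρ j) := by
    intro j f
    obtain ⟨h, hh⟩ := w.surj (Function.update (fun _ => 0) j f)
    refine ⟨h, ?_⟩
    rw [hh j, Function.update_self]
  have hvR : ∀ j, w.ρ j (zz n _) = (z0 : KK) • 1 →
      v j ∈ Rc n ∧ dg (v j) = w.d j ∧ z0 ^ dg (v j) =
        mon (mapx (PowerSeries.constantCoeff (R := KK)) x) (v j) := by
    intro j hj
    obtain ⟨z1, h1, h2, h3, h4⟩ := irr_mem_Rc hn (w.pos j) (w.ρ j) (hsurj j)
    rw [← hv j] at h2 h3 h4
    have hz : z1 = z0 := by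
      rw [hj] at h1
      have h5 := congrArg (fun f : Module.End KK (Fin (w.d j) → KK) =>
        f (fun _ => 1) ⟨0, w.pos j⟩) h1
      simp only [LinearMap.smul_apply, Module.End.one_apply, Pi.smul_apply, smul_eq_mul,
        mul_one] at h5
      exact Units.ext h5.symm
    rw [hz] at h4
    exact ⟨h2, h3, by rw [h3]; exact h4⟩
  have hortho : ∀ i j, i ≠ j → w.ρ i (zz n _) = (z0 : KK) • 1 →
      w.ρ j (zz n _) = (z0 : KK) • 1 → ip (v i) (v j) ≤ 0 := by
    intro i j hij hi hj
    rw [hv i, hv j]
    exact irr_ortho hn (AlgHom.id KK _) Function.surjective_id w i j hij z0 hi hj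
  have hRr : ∀ {α : Vec n}, α ∈ Rc n → ip α α = 2 := fun h => ((mem_Rc hn).1 h).1.2
  -- the finset G
  obtain ⟨G, hGdef⟩ : ∃ G : Finset (Vec n), G = (Rc n).filter fun α =>
      qch (mapx (PowerSeries.constantCoeff (R := KK)) x) z0 α = 1 := ⟨_, rfl⟩
  have hG : ∀ α, α ∈ G ↔ α ∈ Rc n ∧
      qch (mapx (PowerSeries.constantCoeff (R := KK)) x) z0 α = 1 := by
    intro α
    rw [hGdef, Finset.mem_filter]
  have hGv : ∀ j, w.ρ j (zz n _) = (z0 : KK) • 1 → v j ∈ G := by
    intro j hj
    obtain ⟨h1, -, h3⟩ := hvR j hj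
    exact (hG _).2 ⟨h1, (qch_eq_one hn _ _ h1).2 h3⟩
  have hGI : ∀ i : Idx (mapx (PowerSeries.constantCoeff (R := KK)) x), i.1.2 = z0 →
      i.1.1 ∈ G := by
    intro i hi
    refine (hG _).2 ⟨i.2.1, (qch_eq_one hn _ _ i.2.1).2 ?_⟩
    rw [← hi]
    exact i.2.2
  have hmk : ∀ α ∈ G, ∃ i : Idx (mapx (PowerSeries.constantCoeff (R := KK)) x),
      i.1.1 = α ∧ i.1.2 = z0 := by
    intro α hα
    obtain ⟨h1, h2⟩ := (hG α).1 hα
    exact ⟨⟨(α, z0), h1, (qch_eq_one hn _ _ h1).1 h2⟩, rfl, rfl⟩
  have hIeq : ∀ i i' : Idx (mapx (PowerSeries.constantCoeff (R := KK)) x), i.1.2 = z0 →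
      i'.1.2 = z0 → i.1.1 = i'.1.1 → i = i' := by
    intro i i' h1 h2 h3
    exact Subtype.ext (Prod.ext h3 (h1.trans h2.symm))
  have hne : G.Nonempty := by
    obtain ⟨j, hj⟩ := hz0
    exact ⟨_, hGv j hj⟩
  have hzc : ∀ i : Idx (mapx (PowerSeries.constantCoeff (R := KK)) x), i.1.2 = z0 →
      Units.map ((PowerSeries.constantCoeff (R := KK)) : (PowerSeries KK) →* KK) (D.zl i) = z0 :=
    fun i hi => (D.zl_cc i).trans hi
  have hdist : (∀ c, IsRoot c → qch (mapx (PowerSeries.constantCoeff (R := KK)) x) z0 c = 1 →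
      deg c ≠ 0) → ∀ g (i i' : Fin (leg n g)),
      mapx (PowerSeries.constantCoeff (R := KK)) x ⟨g, i⟩ =
        mapx (PowerSeries.constantCoeff (R := KK)) x ⟨g, i'⟩ → i = i' := by
    intro h g i i' hi
    by_contra hii
    obtain ⟨c, h1, h2, h3⟩ := uc_leg (mapx (PowerSeries.constantCoeff (R := KK)) x) z0 g i i' hii hi
    exact h c h1 h2 h3
  -- a unique irreducible of the right dimension
  have hone : ∀ (i : Idx (mapx (PowerSeries.constantCoeff (R := KK)) x)), i.1.2 = z0 →
      ∀ j0, (∀ j, w.ρ j (zz n _) = (z0 : KK) • 1 → j = j0) → w.d j0 = dg i.1.1 →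
      D.Red w i (Pi.single j0 1) := by
    intro i hi j0 hj0 hd
    obtain ⟨m, hm1, hm2, hm3, -⟩ := exists_red D w i
    rw [hi] at hm3
    have h0 : ∀ j, j ≠ j0 → m j = 0 := by
      intro j hj
      by_contra hmj
      exact hj (hj0 j (hm3 j hmj))
    refine red_one D w i m hm1 j0 h0 ?_
    rw [Finset.sum_eq_single j0 (fun j _ hj => by rw [h0 j hj, zero_mul])
      (fun hj => absurd (Finset.mem_univ _) hj), hd, sq] at hm2
    have hpos : 0 < dg i.1.1 := (dg_bounds hn i.2.1).2.1
    exact (Nat.eq_of_mul_eq_mul_right hpos hm2).symm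
  rcases classify hn (mapx (PowerSeries.constantCoeff (R := KK)) x) z0 k
    (fun v _ h1 h2 h3 => inj_L D.hl z0 v h1 h2 h3) G hG hne with
    ⟨α, hGe, hc⟩ | ⟨α, β, hne2, hGe, hip, hdeg, hc⟩ | ⟨γ, β, hne2, hGe, hip, hdeg, hcγ, hcβ⟩ |
    ⟨γ, δ, hne2, hsum, hGe, hip, hdeg, hcγ, hcδ, hcβ⟩
  · -- case 1
    obtain ⟨j0, hj0⟩ := hz0
    have hall : ∀ j, w.ρ j (zz n _) = (z0 : KK) • 1 → v j = α := by
      intro j hj
      have := hGv j hj
      rwa [hGe, Finset.mem_singleton] at this
    have hαR : α ∈ Rc n := by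
      have := (hvR j0 hj0).1
      rwa [hall j0 hj0] at this
    have huniq : ∀ j, w.ρ j (zz n _) = (z0 : KK) • 1 → j = j0 := by
      intro j hj
      by_contra hne'
      have h1 := hortho j j0 hne' hj hj0
      rw [hall j hj, hall j0 hj0, hRr hαR] at h1
      omega
    obtain ⟨i0, hi0, hi0'⟩ := hmk α (by rw [hGe]; exact Finset.mem_singleton_self _)
    have hI : ∀ i : Idx (mapx (PowerSeries.constantCoeff (R := KK)) x), i.1.2 = z0 →
        i.1.1 = α := by
      intro i hi
      have := hGI i hi
      rwa [hGe, Finset.mem_singleton] at this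
    have hdj : w.d j0 = dg α := by
      rw [← (hvR j0 hj0).2.1, hall j0 hj0]
    let f : {i : Idx (mapx (PowerSeries.constantCoeff (R := KK)) x) // i.1.2 = z0} ≃
        {j : Fin w.r // w.ρ j (zz n _) = (z0 : KK) • 1} :=
      { toFun := fun _ => ⟨j0, hj0⟩
        invFun := fun _ => ⟨i0, hi0'⟩
        left_inv := fun i => Subtype.ext (hIeq _ _ hi0' i.2 (hi0.trans (hI i.1 i.2).symm))
        right_inv := fun j => Subtype.ext (huniq j.1 j.2).symm }
    refine BlockCase.unit f (fun i => ?_) (fun i => ?_) (fun i => ?_)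
    · change w.d j0 = _
      rw [hdj, hI i.1 i.2]
    · change D.Red w i.1 (Pi.single j0 1)
      exact hone i.1 i.2 j0 huniq (by rw [hdj, hI i.1 i.2])
    · refine schur_unit hn i.1.2.1 (D.zl i.1) (D.zl_pow i.1) ?_
      intro c hc1 hc2 hc3
      rw [hzc i.1 i.2] at hc3
      rw [hI i.1 i.2] at hc2
      exact hc c hc1 hc3 hc2
  · -- case 2
    have hx := hdist hdeg
    have hαG : α ∈ G := by rw [hGe]; simp
    have hβG : β ∈ G := by rw [hGe]; simp
    have hαR := ((hG α).1 hαG).1
    have hβR := ((hG β).1 hβG).1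
    obtain ⟨ia, hia, hia'⟩ := hmk α hαG
    obtain ⟨ib, hib, hib'⟩ := hmk β hβG
    have hall : ∀ j, w.ρ j (zz n _) = (z0 : KK) • 1 → v j = α ∨ v j = β := by
      intro j hj
      have := hGv j hj
      rwa [hGe, Finset.mem_insert, Finset.mem_singleton] at this
    have hI : ∀ i : Idx (mapx (PowerSeries.constantCoeff (R := KK)) x), i.1.2 = z0 →
        i = ia ∨ i = ib := by
      intro i hi
      have := hGI i hi
      rw [hGe, Finset.mem_insert, Finset.mem_singleton] at this
      rcases this with h | h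
      · exact Or.inl (hIeq _ _ hi hia' (h.trans hia.symm))
      · exact Or.inr (hIeq _ _ hi hib' (h.trans hib.symm))
    obtain ⟨ma, ma1, -, ma3, ma4⟩ := exists_red D w ia
    obtain ⟨mb, mb1, -, mb3, mb4⟩ := exists_red D w ib
    rw [hia'] at ma3
    rw [hib'] at mb3
    have ma5 := ma4 hx
    have mb5 := mb4 hx
    simp only [← hv] at ma5 mb5
    rw [hia] at ma5
    rw [hib] at mb5
    -- pairings
    have pair : ∀ (m : Fin w.r → ℕ) (u : Vec n) (d : ℕ) (t : Vec n),
        (d : ℤ) • u = ∑ j, (m j : ℤ) • v j → (d : ℤ) * ip u t = ∑ j, (m j : ℤ) * ip (v j) t := by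
      intro m u d t h
      rw [← uc_smul, h, uc_sum]
    have hβα : ip β α = 0 := by rw [uc_comm]; exact hip
    -- existence of ja
    have exist : ∀ (m : Fin w.r → ℕ) (u t : Vec n), u ∈ Rc n → t ∈ Rc n → ip u t = 0 →
        ip t u = 0 → (∀ j, m j ≠ 0 → w.ρ j (zz n _) = (z0 : KK) • 1) →
        (∀ j, w.ρ j (zz n _) = (z0 : KK) • 1 → v j = u ∨ v j = t) →
        (dg u : ℤ) • u = ∑ j, (m j : ℤ) • v j →
        (∃ j, w.ρ j (zz n _) = (z0 : KK) • 1 ∧ v j = u) ∧
        ∀ j, m j ≠ 0 → w.ρ j (zz n _) = (z0 : KK) • 1 ∧ v j = u := by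
      intro m u t hu ht hut htu hm hj hs
      have h1 := pair m u (dg u) t hs
      rw [hut, mul_zero] at h1
      have h2 : ∀ j ∈ Finset.univ, 0 ≤ (m j : ℤ) * ip (v j) t := by
        intro j _
        by_cases hmj : m j = 0
        · rw [hmj]; simp
        · rcases hj j (hm j hmj) with e | e
          · rw [e, hut]; simp
          · rw [e, hRr ht]; positivity
      have h3 := (Finset.sum_eq_zero_iff_of_nonneg h2).1 h1.symm
      have h4 : ∀ j, m j ≠ 0 → w.ρ j (zz n _) = (z0 : KK) • 1 ∧ v j = u := by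
        intro j hmj
        refine ⟨hm j hmj, ?_⟩
        rcases hj j (hm j hmj) with e | e
        · exact e
        · exfalso
          have h5 := h3 j (Finset.mem_univ _)
          rw [e, hRr ht] at h5
          omega
      refine ⟨?_, h4⟩
      by_contra hcon
      push Not at hcon
      have h6 : ∀ j, m j = 0 := by
        intro j
        by_contra hmj
        exact hcon j (h4 j hmj).1 (h4 j hmj).2
      have h7 := pair m u (dg u) u hs
      rw [Finset.sum_eq_zero (fun j _ => by rw [h6 j]; simp), hRr hu] at h7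
      have h8 := (dg_bounds hn hu).2.1
      omega
    obtain ⟨⟨ja, hja, hja'⟩, hma⟩ := exist ma α β hαR hβR hip hβα ma3 hall ma5
    obtain ⟨⟨jb, hjb, hjb'⟩, hmb⟩ := exist mb β α hβR hαR hβα hip mb3
      (fun j hj => (hall j hj).symm) mb5
    have uniq : ∀ i j, w.ρ i (zz n _) = (z0 : KK) • 1 → w.ρ j (zz n _) = (z0 : KK) • 1 →
        v i = v j → i = j := by
      intro i j hi hj hij
      by_contra hne'
      have h1 := hortho i j hne' hi hj
      rw [hij, hRr (hvR j hj).1] at h1
      omega
    have hab : ja ≠ jb := by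
      intro h
      apply hne2
      rw [← hja', ← hjb', h]
    have hiab : ia ≠ ib := by
      intro h
      apply hne2
      rw [← hia, ← hib, h]
    have hJ : ∀ j, w.ρ j (zz n _) = (z0 : KK) • 1 → j = ja ∨ j = jb := by
      intro j hj
      rcases hall j hj with e | e
      · exact Or.inl (uniq j ja hj hja (e.trans hja'.symm))
      · exact Or.inr (uniq j jb hj hjb (e.trans hjb'.symm))
    have hda : w.d ja = dg α := by rw [← (hvR ja hja).2.1, hja']
    have hdb : w.d jb = dg β := by rw [← (hvR jb hjb).2.1, hjb']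
    have sma : ma ja = dg α := by
      have h1 := pair ma α (dg α) α ma5
      rw [Finset.sum_eq_single ja, hja', hRr hαR] at h1
      · omega
      · intro j _ hj
        have : ma j = 0 := by
          by_contra hmj
          exact hj (uniq j ja (hma j hmj).1 hja ((hma j hmj).2.trans hja'.symm))
        rw [this]; simp
      · intro hj
        exact absurd (Finset.mem_univ _) hj
    have smb : mb jb = dg β := by
      have h1 := pair mb β (dg β) β mb5
      rw [Finset.sum_eq_single jb, hjb', hRr hβR] at h1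
      · omega
      · intro j _ hj
        have : mb j = 0 := by
          by_contra hmj
          exact hj (uniq j jb (hmb j hmj).1 hjb ((hmb j hmj).2.trans hjb'.symm))
        rw [this]; simp
      · intro hj
        exact absurd (Finset.mem_univ _) hj
    have hreda : D.Red w ia (Pi.single ja 1) := by
      refine red_one D w ia ma ma1 ja (fun j hj => ?_) (by rw [sma, hia])
      by_contra hmj
      exact hj (uniq j ja (hma j hmj).1 hja ((hma j hmj).2.trans hja'.symm))
    have hredb : D.Red w ib (Pi.single jb 1) := by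
      refine red_one D w ib mb mb1 jb (fun j hj => ?_) (by rw [smb, hib])
      by_contra hmj
      exact hj (uniq j jb (hmb j hmj).1 hjb ((hmb j hmj).2.trans hjb'.symm))
    let f : {i : Idx (mapx (PowerSeries.constantCoeff (R := KK)) x) // i.1.2 = z0} ≃
        {j : Fin w.r // w.ρ j (zz n _) = (z0 : KK) • 1} :=
      { toFun := fun i => if i.1 = ia then ⟨ja, hja⟩ else ⟨jb, hjb⟩
        invFun := fun j => if j.1 = ja then ⟨ia, hia'⟩ else ⟨ib, hib'⟩
        left_inv := by
          rintro ⟨i, hi⟩
          rcases hI i hi with rfl | rfl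
          · simp
          · simp [hiab.symm, hab.symm]
        right_inv := by
          rintro ⟨j, hj⟩
          rcases hJ j hj with rfl | rfl
          · simp
          · simp [hiab.symm, hab.symm] }
    have hfa : f ⟨ia, hia'⟩ = ⟨ja, hja⟩ := if_pos rfl
    have hfb : f ⟨ib, hib'⟩ = ⟨jb, hjb⟩ := if_neg hiab.symm
    refine BlockCase.unit f ?_ ?_ ?_
    · rintro ⟨i, hi⟩
      rcases hI i hi with rfl | rfl
      · rw [hfa]
        change w.d ja = _
        rw [hda, hia]
      · rw [hfb]
        change w.d jb = _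
        rw [hdb, hib]
    · rintro ⟨i, hi⟩
      rcases hI i hi with rfl | rfl
      · rw [hfa]
        exact hreda
      · rw [hfb]
        exact hredb
    · rintro ⟨i, hi⟩
      refine schur_unit hn i.2.1 (D.zl i) (D.zl_pow i) ?_
      intro c hc1 hc2 hc3
      rw [hzc i hi] at hc3
      rcases hI i hi with rfl | rfl
      · rw [hia] at hc2
        exact (hc c hc1 hc3).1 hc2
      · rw [hib] at hc2
        exact (hc c hc1 hc3).2 hc2
  · -- case 3
    have hγG : γ ∈ G := by rw [hGe]; simp
    have hβG : β ∈ G := by rw [hGe]; simp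
    have hγR := ((hG γ).1 hγG).1
    have hβR := ((hG β).1 hβG).1
    obtain ⟨ic, hic, hic'⟩ := hmk γ hγG
    obtain ⟨ib, hib, hib'⟩ := hmk β hβG
    obtain ⟨j0, hj0⟩ := hz0
    have hdd : dg γ = dg β := by
      unfold dg
      rw [hdeg]
    have hall : ∀ j, w.ρ j (zz n _) = (z0 : KK) • 1 → v j = γ ∨ v j = β := by
      intro j hj
      have := hGv j hj
      rwa [hGe, Finset.mem_insert, Finset.mem_singleton] at this
    have huniq : ∀ j, w.ρ j (zz n _) = (z0 : KK) • 1 → j = j0 := by
      intro j hj
      by_contra hne'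
      have h1 := hortho j j0 hne' hj hj0
      have hip' : ip β γ = 1 := by rw [uc_comm]; exact hip
      rcases hall j hj with e | e <;> rcases hall j0 hj0 with e' | e' <;> rw [e, e'] at h1
      · rw [hRr hγR] at h1; omega
      · rw [hip] at h1; omega
      · rw [hip'] at h1; omega
      · rw [hRr hβR] at h1; omega
    have hdj : w.d j0 = dg γ := by
      rw [← (hvR j0 hj0).2.1]
      rcases hall j0 hj0 with e | e
      · rw [e]
      · rw [e, hdd]
    have hibc : ic ≠ ib := by
      intro h
      apply hne2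
      rw [← hic, ← hib, h]
    obtain ⟨p1, p2, p3, p4, p5⟩ := schur_pole hn D.hl ic.2.1 ib.2.1 (by rw [hic, hib]; exact hip)
      (D.zl ic) (D.zl ib) (D.zl_pow ic) (D.zl_pow ib) ((hzc ic hic').trans (hzc ib hib').symm)
      (by
        intro c hc1 hc2 hc3
        rw [hzc ic hic'] at hc2
        rw [hic] at hc3
        rw [hic, hib]
        exact hcγ c hc1 hc2 hc3)
    refine BlockCase.leg ic ib j0 hibc ?_ ?_ ?_ ?_ ?_ ?_ p1 p2 ?_ p4 p5
    · intro i
      constructor
      · intro hi
        have := hGI i hi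
        rw [hGe, Finset.mem_insert, Finset.mem_singleton] at this
        rcases this with h | h
        · exact Or.inl (hIeq _ _ hi hic' (h.trans hic.symm))
        · exact Or.inr (hIeq _ _ hi hib' (h.trans hib.symm))
      · rintro (rfl | rfl)
        · exact hic'
        · exact hib'
    · intro i
      constructor
      · exact huniq i
      · rintro rfl
        exact hj0
    · rw [hic, hib]; exact hdd
    · rw [hic]; exact hdj
    · exact hone ic hic' j0 huniq (by rw [hic]; exact hdj)
    · exact hone ib hib' j0 huniq (by rw [hib, ← hdd]; exact hdj)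
    · unfold LocData.res
      refine mul_ne_zero ?_ p3
      have := (dg_bounds hn ic.2.1).2.1
      exact_mod_cast (by omega : dg ic.1.1 ≠ 0)
  · -- case 4
    have hx := hdist hdeg
    have hγG : γ ∈ G := by rw [hGe]; simp
    have hδG : δ ∈ G := by rw [hGe]; simp
    have hβG : γ + δ ∈ G := by rw [hGe]; simp
    have hγR := ((hG γ).1 hγG).1
    have hδR := ((hG δ).1 hδG).1
    have hip' : ip δ γ = -1 := by rw [uc_comm]; exact hip
    have hgg : ip γ γ = 2 := hRr hγR
    have hdd : ip δ δ = 2 := hRr hδR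
    obtain ⟨ic, hic, hic'⟩ := hmk γ hγG
    obtain ⟨id', hid, hid'⟩ := hmk δ hδG
    obtain ⟨ib, hib, hib'⟩ := hmk (γ + δ) hβG
    have hdgs : dg (γ + δ) = dg γ + dg δ := by
      have h1 := (dg_bounds hn hsum).1
      have h2 := (dg_bounds hn hγR).1
      have h3 := (dg_bounds hn hδR).1
      have h4 : deg (γ + δ) = deg γ + deg δ := lev_add' γ δ
      rw [h4, ← h2, ← h3] at h1
      exact_mod_cast h1
    have hall : ∀ j, w.ρ j (zz n _) = (z0 : KK) • 1 → v j = γ ∨ v j = δ ∨ v j = γ + δ := by
      intro j hj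
      have := hGv j hj
      rwa [hGe, Finset.mem_insert, Finset.mem_insert, Finset.mem_singleton] at this
    have uniq : ∀ i j, w.ρ i (zz n _) = (z0 : KK) • 1 → w.ρ j (zz n _) = (z0 : KK) • 1 →
        v i = v j → i = j := by
      intro i j hi hj hij
      by_contra hne'
      have h1 := hortho i j hne' hi hj
      rw [hij, hRr (hvR j hj).1] at h1
      omega
    -- pairings
    have pair : ∀ (m : Fin w.r → ℕ) (u : Vec n) (d : ℕ) (t : Vec n),
        (d : ℤ) • u = ∑ j, (m j : ℤ) • v j → (d : ℤ) * ip u t = ∑ j, (m j : ℤ) * ip (v j) t := by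
      intro m u d t h
      rw [← uc_smul, h, uc_sum]
    obtain ⟨mc, mc1, -, mc3, mc4⟩ := exists_red D w ic
    obtain ⟨md, md1, -, md3, md4⟩ := exists_red D w id'
    obtain ⟨mb, mb1, -, mb3, mb4⟩ := exists_red D w ib
    rw [hic'] at mc3
    rw [hid'] at md3
    rw [hib'] at mb3
    have mc5 := mc4 hx
    have md5 := md4 hx
    have mb5 := mb4 hx
    simp only [← hv] at mc5 md5 mb5
    rw [hic] at mc5
    rw [hid] at md5
    rw [hib] at mb5
    -- existence: pair with t, where 2 t-pairing detects
    have exist : ∀ (m : Fin w.r → ℕ) (u t : Vec n), u ∈ Rc n → t ∈ Rc n → ip u t = -1 →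
        ip t u = -1 → (∀ j, m j ≠ 0 → w.ρ j (zz n _) = (z0 : KK) • 1) →
        (∀ j, w.ρ j (zz n _) = (z0 : KK) • 1 → v j = u ∨ v j = t ∨ v j = u + t) →
        (dg u : ℤ) • u = ∑ j, (m j : ℤ) • v j →
        (∃ j, w.ρ j (zz n _) = (z0 : KK) • 1 ∧ v j = u) ∧
        ∀ j, m j ≠ 0 → w.ρ j (zz n _) = (z0 : KK) • 1 ∧ v j = u := by
      intro m u t hu ht hut htu hm hj hs
      have h1 := pair m u (dg u) (u + (2 : ℤ) • t) hs
      have e1 : ip u (u + (2 : ℤ) • t) = 0 := by
        rw [uc_addr, uc_comm u ((2 : ℤ) • t), uc_smul, htu, hRr hu]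
        norm_num
      have e2 : ip t (u + (2 : ℤ) • t) = 3 := by
        rw [uc_addr, uc_comm t ((2 : ℤ) • t), uc_smul, htu, hRr ht]
        norm_num
      have e3 : ip (u + t) (u + (2 : ℤ) • t) = 3 := by
        rw [uc_add, e1, e2]
        norm_num
      rw [e1, mul_zero] at h1
      have h2 : ∀ j ∈ Finset.univ, 0 ≤ (m j : ℤ) * ip (v j) (u + (2 : ℤ) • t) := by
        intro j _
        by_cases hmj : m j = 0
        · rw [hmj]; simp
        · rcases hj j (hm j hmj) with e | e | e
          · rw [e, e1]; simp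
          · rw [e, e2]; positivity
          · rw [e, e3]; positivity
      have h3 := (Finset.sum_eq_zero_iff_of_nonneg h2).1 h1.symm
      have h4 : ∀ j, m j ≠ 0 → w.ρ j (zz n _) = (z0 : KK) • 1 ∧ v j = u := by
        intro j hmj
        refine ⟨hm j hmj, ?_⟩
        rcases hj j (hm j hmj) with e | e | e
        · exact e
        · exfalso
          have h5 := h3 j (Finset.mem_univ _)
          rw [e, e2] at h5
          omega
        · exfalso
          have h5 := h3 j (Finset.mem_univ _)
          rw [e, e3] at h5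
          omega
      refine ⟨?_, h4⟩
      by_contra hcon
      push Not at hcon
      have h6 : ∀ j, m j = 0 := by
        intro j
        by_contra hmj
        exact hcon j (h4 j hmj).1 (h4 j hmj).2
      have h7 := pair m u (dg u) u hs
      rw [Finset.sum_eq_zero (fun j _ => by rw [h6 j]; simp), hRr hu] at h7
      have h8 := (dg_bounds hn hu).2.1
      omega
    obtain ⟨⟨jc, hjc, hjc'⟩, hmc⟩ := exist mc γ δ hγR hδR hip hip' mc3 hall mc5
    obtain ⟨⟨jd, hjd, hjd'⟩, hmd⟩ := exist md δ γ hδR hγR hip' hip md3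
      (fun j hj => by
        rcases hall j hj with e | e | e
        · exact Or.inr (Or.inl e)
        · exact Or.inl e
        · exact Or.inr (Or.inr (e.trans (add_comm _ _)))) md5
    have hcd : jc ≠ jd := by
      intro h
      apply hne2
      rw [← hjc', ← hjd', h]
    have hJ : ∀ j, w.ρ j (zz n _) = (z0 : KK) • 1 → j = jc ∨ j = jd := by
      intro j hj
      rcases hall j hj with e | e | e
      · exact Or.inl (uniq j jc hj hjc (e.trans hjc'.symm))
      · exact Or.inr (uniq j jd hj hjd (e.trans hjd'.symm))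
      · exfalso
        by_cases hjj : j = jc
        · rw [hjj, hjc'] at e
          have h1 : δ = 0 := by
            have := e.symm
            rwa [add_eq_left] at this
          rw [h1] at hdd
          have h2 := uc_smul 0 (0 : Vec n) 0
          rw [zero_smul, zero_mul, hdd] at h2
          omega
        · have h1 := hortho j jc hjj hj hjc
          rw [e, hjc', uc_add, hgg, hip'] at h1
          omega
    have hdc : w.d jc = dg γ := by rw [← (hvR jc hjc).2.1, hjc']
    have hdd' : w.d jd = dg δ := by rw [← (hvR jd hjd).2.1, hjd']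
    have smc : mc jc = dg γ := by
      have h1 := pair mc γ (dg γ) γ mc5
      rw [Finset.sum_eq_single jc, hjc', hgg] at h1
      · omega
      · intro j _ hj
        have : mc j = 0 := by
          by_contra hmj
          exact hj (uniq j jc (hmc j hmj).1 hjc ((hmc j hmj).2.trans hjc'.symm))
        rw [this]; simp
      · intro hj
        exact absurd (Finset.mem_univ _) hj
    have smd : md jd = dg δ := by
      have h1 := pair md δ (dg δ) δ md5
      rw [Finset.sum_eq_single jd, hjd', hdd] at h1
      · omega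
      · intro j _ hj
        have : md j = 0 := by
          by_contra hmj
          exact hj (uniq j jd (hmd j hmj).1 hjd ((hmd j hmj).2.trans hjd'.symm))
        rw [this]; simp
      · intro hj
        exact absurd (Finset.mem_univ _) hj
    have mb0 : ∀ j, j ≠ jc → j ≠ jd → mb j = 0 := by
      intro j h1 h2
      by_contra hmj
      rcases hJ j (mb3 j hmj) with e | e
      · exact h1 e
      · exact h2 e
    have mbp : ∀ t : Vec n, (dg (γ + δ) : ℤ) * ip (γ + δ) t =
        (mb jc : ℤ) * ip γ t + (mb jd : ℤ) * ip δ t := by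
      intro t
      have h1 := pair mb (γ + δ) (dg (γ + δ)) t mb5
      rw [h1, ← hjc', ← hjd']
      rw [Finset.sum_eq_add jc jd hcd]
      · intro j _ hj
        rw [mb0 j hj.1 hj.2]
        simp
      · intro hj
        exact absurd (Finset.mem_univ _) hj
      · intro hj
        exact absurd (Finset.mem_univ _) hj
    have mbg := mbp γ
    have mbd := mbp δ
    rw [uc_add, hgg, hip'] at mbg
    rw [uc_add, hdd, hip] at mbd
    have smbc : mb jc = dg (γ + δ) := by omega
    have smbd : mb jd = dg (γ + δ) := by omega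
    have hreda : D.Red w ic (Pi.single jc 1) := by
      refine red_one D w ic mc mc1 jc (fun j hj => ?_) (by rw [smc, hic])
      by_contra hmj
      exact hj (uniq j jc (hmc j hmj).1 hjc ((hmc j hmj).2.trans hjc'.symm))
    have hredd : D.Red w id' (Pi.single jd 1) := by
      refine red_one D w id' md md1 jd (fun j hj => ?_) (by rw [smd, hid])
      by_contra hmj
      exact hj (uniq j jd (hmd j hmj).1 hjd ((hmd j hmj).2.trans hjd'.symm))
    have hredb : D.Red w ib (Pi.single jc 1 + Pi.single jd 1) :=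
      red_two D w ib mb mb1 jc jd hcd mb0 (by rw [smbc, hib]) (by rw [smbd, hib])
    have hγβ : ip γ (γ + δ) = 1 := by
      rw [uc_addr, hgg, hip]; norm_num
    have hδβ : ip δ (γ + δ) = 1 := by
      rw [uc_addr, hdd, hip']; norm_num
    obtain ⟨p1, p2, p3, p4, p5⟩ := schur_pole hn D.hl ic.2.1 ib.2.1
      (by rw [hic, hib]; exact hγβ)
      (D.zl ic) (D.zl ib) (D.zl_pow ic) (D.zl_pow ib) ((hzc ic hic').trans (hzc ib hib').symm)
      (by
        intro c hc1 hc2 hc3
        rw [hzc ic hic'] at hc2
        rw [hic] at hc3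
        rw [hic, hib]
        rcases hcγ c hc1 hc2 hc3 with e | e
        · exact Or.inl e
        · right
          rw [e]
          abel)
    obtain ⟨q1, q2, q3, q4, q5⟩ := schur_pole hn D.hl id'.2.1 ib.2.1
      (by rw [hid, hib]; exact hδβ)
      (D.zl id') (D.zl ib) (D.zl_pow id') (D.zl_pow ib)
      ((hzc id' hid').trans (hzc ib hib').symm)
      (by
        intro c hc1 hc2 hc3
        rw [hzc id' hid'] at hc2
        rw [hid] at hc3
        rw [hid, hib]
        rcases hcδ c hc1 hc2 hc3 with e | e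
        · exact Or.inl e
        · right
          rw [e]
          abel)
    refine BlockCase.A2 ic id' ib jc jd hcd ?_ ?_ ?_ ?_ ?_ ?_ ?_ ?_ hreda hredd hredb p1 q1 p2 ?_
      p4 q4 p5 q5 hx ?_ ?_
    · intro h
      apply hne2
      rw [← hic, ← hid, h]
    · intro h
      have h1 : γ = γ + δ := by
        have h0 : ic.1.1 = ib.1.1 := by rw [h]
        exact hic.symm.trans (h0.trans hib)
      rw [← h1, hgg] at hγβ
      omega
    · intro h
      have h1 : δ = γ + δ := by
        have h0 : id'.1.1 = ib.1.1 := by rw [h]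
        exact hid.symm.trans (h0.trans hib)
      rw [← h1, hdd] at hδβ
      omega
    · intro i
      constructor
      · intro hi
        have := hGI i hi
        rw [hGe, Finset.mem_insert, Finset.mem_insert, Finset.mem_singleton] at this
        rcases this with h | h | h
        · exact Or.inl (hIeq _ _ hi hic' (h.trans hic.symm))
        · exact Or.inr (Or.inl (hIeq _ _ hi hid' (h.trans hid.symm)))
        · exact Or.inr (Or.inr (hIeq _ _ hi hib' (h.trans hib.symm)))
      · rintro (rfl | rfl | rfl)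
        · exact hic'
        · exact hid'
        · exact hib'
    · intro i
      constructor
      · exact hJ i
      · rintro (rfl | rfl)
        · exact hjc
        · exact hjd
    · rw [hic, hid, hib]; exact hdgs
    · rw [hic]; exact hdc
    · rw [hid]; exact hdd'
    · unfold LocData.res
      refine mul_ne_zero ?_ p3
      have := (dg_bounds hn ic.2.1).2.1
      exact_mod_cast (by omega : dg ic.1.1 ≠ 0)
    · rw [← hv jc, hjc']; exact hgg
    · rw [← hv jd, hjd']; exact hdd
end

end SYM
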