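import Pool.Agent.Lib.MP_b1ea0f_al.Defs4
import Pool.Agent.Lib.MP_b1ea0f_al.RHalf
import Pool.Agent.Lib.MP_b1ea0f_al.UDlog

/-!
# UHensel: Hensel: roots lift

(Abbreviations in this text: OO = PowerSeries KK, LL = LaurentSeries KK, cc = PowerSeries.constantCoeff.) Hensel in `KK⟦X⟧` (or: `d`-th root of a unit with constant term `1`: binomial series / `PowerSeries` Hensel instance; `HenselianLocalRing`), `d` invertible.
-/

namespace SYM
open Polynomial Module

section
variable {KK : Type} [Field KK] {n : ℕ}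


theorem exists_zl [CharZero KK] (hn : HN n) {x : J n → (PowerSeries KK)ˣ} {k : J n} (hl : LocHyp n x k)
    (i : Idx (mapx (PowerSeries.constantCoeff (R := KK)) x)) :
    ∃ z : (PowerSeries KK)ˣ, z ^ dg i.1.1 = mon x i.1.1 ∧ Units.map ((PowerSeries.constantCoeff (R := KK)) : (PowerSeries KK) →* KK) z = i.1.2 := by
  obtain ⟨⟨α, ζ⟩, hα, hζ⟩ := i
  simp only at hα hζ ⊢
  have hd : dg α ≠ 0 := by
    have h1 := ((mem_Rc hn).1 hα).2
    unfold dg
    omega
  have hcc : PowerSeries.constantCoeff (R := KK) ((mon x α : (PowerSeries KK)ˣ) : PowerSeries KK) =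
      (ζ : KK) ^ dg α := by
    have h1 : Units.map ((PowerSeries.constantCoeff (R := KK)) : (PowerSeries KK) →* KK) (mon x α) =
        mon (mapx (PowerSeries.constantCoeff (R := KK)) x) α := by
      unfold mon mapx
      rw [map_prod]
      exact Finset.prod_congr rfl fun l _ => by rw [map_zpow]
    rw [← hζ] at h1
    have h2 := congrArg (fun u : KKˣ => (u : KK)) h1
    simpa using h2
  have hI : HenselianRing (PowerSeries KK) (Ideal.span {(PowerSeries.X : PowerSeries KK)}) :=
    inferInstance
  obtain ⟨z, hz, hz2⟩ := hI.is_henselian (X ^ dg α - C ((mon x α : (PowerSeries KK)ˣ) : PowerSeries KK))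
    (monic_X_pow_sub_C _ hd) (PowerSeries.C (ζ : KK)) (by
      rw [Ideal.mem_span_singleton, PowerSeries.X_dvd_iff]
      simp [hcc]) (by
      apply IsUnit.map
      rw [derivative_sub, derivative_X_pow, derivative_C, sub_zero, eval_mul, eval_C, eval_pow,
        eval_X]
      refine IsUnit.mul ?_ ?_
      · rw [PowerSeries.isUnit_iff_constantCoeff]
        simp [hd]
      · apply IsUnit.pow
        rw [PowerSeries.isUnit_iff_constantCoeff]
        simp)
  have hz3 : z ^ dg α = ((mon x α : (PowerSeries KK)ˣ) : PowerSeries KK) := by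
    rw [IsRoot.def, eval_sub, eval_pow, eval_X, eval_C, sub_eq_zero] at hz
    exact hz
  have hzu : IsUnit z := by
    rw [← isUnit_pow_iff hd, hz3]
    exact Units.isUnit _
  obtain ⟨u, rfl⟩ := hzu
  refine ⟨u, ?_, ?_⟩
  · apply Units.ext
    rw [Units.val_pow_eq_pow_val]
    exact hz3
  · apply Units.ext
    rw [Ideal.mem_span_singleton, PowerSeries.X_dvd_iff, map_sub, sub_eq_zero] at hz2
    simpa using hz2
end

end SYM
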