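import Pool.Agent.Lib.MP_b1ea0f_al.Defs4
import Pool.Agent.Lib.MP_b1ea0f_al.RHalf
import Pool.Agent.Lib.MP_b1ea0f_al.TIndep
import Pool.Agent.Lib.MP_b1ea0f_al.UDlog
import Pool.Agent.Lib.MP_b1ea0f_al.UHensel
import Pool.Agent.Lib.MP_b1ea0f_al.GSplit
import Pool.Agent.Lib.MP_b1ea0f_al.KFin
import Pool.Agent.Lib.MP_b1ea0f_al.KAll
import Pool.Agent.Lib.MP_b1ea0f_al.BMap
import Pool.Agent.Lib.MP_b1ea0f_al.TProps
import Pool.Agent.Lib.MP_b1ea0f_al.TForm

/-!
# ULatA: irreducible representations over the algebraic closure of k((s)), indexed by the residue data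

(Abbreviations in this text: OO = PowerSeries KK, LL = LaurentSeries KK, cc = PowerSeries.constantCoeff.) (Rank: `finrank_all` of KAll.) Over `Ω` = algebraic closure of `LL`: `split`. The index sets `Idx (mapx cc x)` (over `KK`) and `Idx` over `Ω` are in bijection by `i ↦ (α, image of zl i)` (injective since `zl i` reduce to different `ζ` for the same `α`; both have `∑ dg α` elements: or surjective: the `d` roots of `X^d - mon` in `Ω` are
the images of the `d` elements `zl (α,ζ)`).
-/

namespace SYM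
open Polynomial Module

section
variable {KK : Type} [Field KK] {n : ℕ}

/-- all roots in `Om` come from the `zl` -/
private theorem root_surj [CharZero KK] [IsAlgClosed KK] (hn : HN n)
    {x : J n → (PowerSeries KK)ˣ}
    (zl : Idx (mapx (PowerSeries.constantCoeff (R := KK)) x) → (PowerSeries KK)ˣ)
    (hz : ∀ i, zl i ^ dg i.1.1 = mon x i.1.1 ∧
      Units.map ((PowerSeries.constantCoeff (R := KK)) : (PowerSeries KK) →* KK) (zl i) = i.1.2)
    (Om : Type) [Field Om] (f : (PowerSeries KK) →+* Om) (hf : Function.Injective f)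
    (α : Vec n) (hα : α ∈ Rc n) (ζ : Omˣ) (hζ : ζ ^ dg α = mon (mapx f x) α) :
    ∃ i : Idx (mapx (PowerSeries.constantCoeff (R := KK)) x), i.1.1 = α ∧
      Units.map (f : (PowerSeries KK) →* Om) (zl i) = ζ := by
  classical
  have hd : 0 < dg α := (dg_bounds hn hα).2.1
  obtain ⟨c, hc⟩ : ∃ c : KK, c = ((mon (mapx (PowerSeries.constantCoeff (R := KK)) x) α : KKˣ) : KK) :=
    ⟨_, rfl⟩
  have hc0 : c ≠ 0 := by
    rw [hc]
    exact Units.ne_zero _
  obtain ⟨S, hS⟩ : ∃ S : Finset KK, S = (X ^ dg α - C c : KK[X]).roots.toFinset := ⟨_, rfl⟩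
  have hScard : S.card = dg α := by
    rw [hS, Multiset.toFinset_card_of_nodup, IsAlgClosed.card_roots_eq_natDegree,
      natDegree_X_pow_sub_C]
    refine nodup_roots (separable_X_pow_sub_C _ ?_ hc0)
    exact_mod_cast hd.ne'
  have hSm : ∀ s ∈ S, s ^ dg α = c := by
    intro s hs
    rw [hS, Multiset.mem_toFinset, mem_roots (X_pow_sub_C_ne_zero hd _), IsRoot.def] at hs
    simp only [eval_sub, eval_pow, eval_X, eval_C] at hs
    exact sub_eq_zero.1 hs
  have hS0 : ∀ s ∈ S, s ≠ 0 := by
    intro s hs h0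
    have h1 := hSm s hs
    rw [h0, zero_pow hd.ne'] at h1
    exact hc0 h1.symm
  let idx : ∀ s ∈ S, Idx (mapx (PowerSeries.constantCoeff (R := KK)) x) := fun s hs =>
    ⟨(α, Units.mk0 s (hS0 s hs)), hα, by
      apply Units.ext
      rw [Units.val_pow_eq_pow_val, ← hc]
      exact hSm s hs⟩
  obtain ⟨T, hT⟩ : ∃ T : Finset Om, T = (X ^ dg α - C ((mon (mapx f x) α : Omˣ) : Om) :
      Om[X]).roots.toFinset := ⟨_, rfl⟩
  have hTm : ∀ t, t ∈ T ↔ t ^ dg α = ((mon (mapx f x) α : Omˣ) : Om) := by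
    intro t
    rw [hT, Multiset.mem_toFinset, mem_roots (X_pow_sub_C_ne_zero hd _), IsRoot.def]
    simp only [eval_sub, eval_pow, eval_X, eval_C]
    exact sub_eq_zero
  have hTcard : T.card ≤ S.card := by
    rw [hScard, hT]
    refine (Multiset.toFinset_card_le _).trans ((card_roots' _).trans ?_)
    rw [natDegree_X_pow_sub_C]
  obtain ⟨s, hs, he⟩ := Finset.surj_on_of_inj_on_of_card_le (s := S) (t := T)
    (fun s hs => f (zl (idx s hs) : PowerSeries KK)) (by
      intro s hs
      rw [hTm, mon_mapx, ← (hz (idx s hs)).1]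
      simp only [Units.coe_map, MonoidHom.coe_coe, Units.val_pow_eq_pow_val, map_pow]
      rfl) (by
      intro s s' hs hs' h
      have h1 : zl (idx s hs) = zl (idx s' hs') := Units.ext (hf h)
      have h2 := (hz (idx s hs)).2
      rw [h1, (hz (idx s' hs')).2] at h2
      exact (congrArg Units.val h2).symm) hTcard (ζ : Om) (by
      rw [hTm, ← hζ, Units.val_pow_eq_pow_val])
  refine ⟨idx s hs, rfl, ?_⟩
  apply Units.ext
  exact he.symm

/-- the irreducible representations over `Ω`, indexed by `Idx (mapx (PowerSeries.constantCoeff (R := KK)) x)` -/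
theorem exists_rhoOmega [CharZero KK] [IsAlgClosed KK] (hn : HN n) {x : J n → (PowerSeries KK)ˣ} {k : J n}
    (hl : LocHyp n x k) (zl : Idx (mapx (PowerSeries.constantCoeff (R := KK)) x) → (PowerSeries KK)ˣ)
    (hz : ∀ i, zl i ^ dg i.1.1 = mon x i.1.1 ∧ Units.map ((PowerSeries.constantCoeff (R := KK)) : (PowerSeries KK) →* KK) (zl i) = i.1.2)
    (Om : Type) [Field Om] [IsAlgClosed Om] (f : (PowerSeries KK) →+* Om) (hf : Function.Injective f) :
    ∃ ρ : ∀ i : Idx (mapx (PowerSeries.constantCoeff (R := KK)) x), H n (mapx f x) →ₐ[Om] Module.End Om (Fin (dg i.1.1) → Om),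
      (∀ i, ρ i (zz n _) = f (zl i : (PowerSeries KK)) • 1) ∧
      (∀ i, (dv (mapx f x) fun g => ρ i (gen n (mapx f x) g)) = i.1.1) ∧
      Function.Bijective (fun h : H n (mapx f x) => fun i => ρ i h) ∧
      (∀ h, LinearMap.trace Om (H n (mapx f x)) (LinearMap.mulLeft Om h) =
        ∑ i, (dg i.1.1 : Om) * LinearMap.trace Om _ (ρ i h)) ∧
      ∀ (ω : Om[X]), IsOmega (mapx f x) ω → ∀ h, tr (mapx f x) ω h =
        ∑ i, LinearMap.trace Om _ (ρ i h) / ((dg i.1.1 : Om) * f (schur i.1.1 x (zl i))) := by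
  classical
  have hOm : CharZero Om :=
    charZero_of_injective_ringHom (f := f.comp (PowerSeries.C (R := KK)))
      (hf.comp PowerSeries.C_injective)
  have hind : Indep (mapx f x) := by
    intro v hv
    apply indep_L hl v
    rw [mon_mapx] at hv ⊢
    have h1 : mon x v = 1 := by
      apply Units.ext
      apply hf
      have h2 := congrArg Units.val hv
      simpa using h2
    rw [h1, map_one]
  have hgen : Gen (mapx f x) := hind.gen hn
  have hfin : FiniteDimensional Om (H n (mapx f x)) := finite_field n hn _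
  obtain ⟨ρ0, h1, h2, h3, h4⟩ := split hn hgen (finrank_all n hn (mapx f x))
  let g : Idx (mapx (PowerSeries.constantCoeff (R := KK)) x) → Idx (mapx f x) := fun i =>
    ⟨(i.1.1, Units.map (f : (PowerSeries KK) →* Om) (zl i)), i.2.1, by
      change Units.map (f : (PowerSeries KK) →* Om) (zl i) ^ dg i.1.1 = mon (mapx f x) i.1.1
      rw [mon_mapx, ← map_pow, (hz i).1]⟩
  have hginj : Function.Injective g := by
    intro i j hij
    have e1 : i.1.1 = j.1.1 := congrArg (fun p : Idx (mapx f x) => p.1.1) hij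
    have e2 : Units.map (f : (PowerSeries KK) →* Om) (zl i) =
        Units.map (f : (PowerSeries KK) →* Om) (zl j) :=
      congrArg (fun p : Idx (mapx f x) => p.1.2) hij
    have e3 : zl i = zl j := Units.ext (hf (congrArg Units.val e2))
    apply Subtype.ext
    apply Prod.ext e1
    rw [← (hz i).2, ← (hz j).2, e3]
  have hgsurj : Function.Surjective g := by
    intro j
    obtain ⟨i, hi1, hi2⟩ := root_surj hn zl hz Om f hf j.1.1 j.2.1 j.1.2 j.2.2
    refine ⟨i, ?_⟩
    apply Subtype.ext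
    exact Prod.ext hi1 hi2
  have hgb : Function.Bijective g := ⟨hginj, hgsurj⟩
  let e : Idx (mapx (PowerSeries.constantCoeff (R := KK)) x) ≃ Idx (mapx f x) :=
    Equiv.ofBijective g hgb
  refine ⟨fun i => ρ0 (g i), fun i => h1 (g i), fun i => h2 (g i), ⟨?_, ?_⟩, ?_, ?_⟩
  · intro u v huv
    apply h3.1
    funext j
    obtain ⟨i, rfl⟩ := hgsurj j
    exact congrFun huv i
  · intro F
    obtain ⟨h, hh⟩ := h3.2 (Equiv.piCongrLeft
      (fun j : Idx (mapx f x) => Module.End Om (Fin (dg j.1.1) → Om)) e F)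
    refine ⟨h, ?_⟩
    funext i
    have h5 := congrFun hh (e i)
    exact h5.trans (Equiv.piCongrLeft_apply_apply
      (fun j : Idx (mapx f x) => Module.End Om (Fin (dg j.1.1) → Om)) e F i)
  · intro h
    rw [h4 h]
    exact (Function.Bijective.sum_comp hgb fun j : Idx (mapx f x) =>
      (dg j.1.1 : Om) * LinearMap.trace Om _ (ρ0 j h)).symm
  · intro ω hω h
    rw [tr_formula ω hω ρ0 h1 h4 h, ← Function.Bijective.sum_comp hgb]
    refine Finset.sum_congr rfl fun i _ => ?_
    have h5 : schur (g i).1.1 (mapx f x) (g i).1.2 = f (schur i.1.1 x (zl i)) :=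
      schur_map f x (zl i)
    rw [h5]
end

end SYM
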