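import Pool.Agent.Lib.MP_b1ea0f_al.Defs4
import Pool.Agent.Lib.MP_b1ea0f_al.ULatA
import Pool.Agent.Lib.MP_b1ea0f_al.BMap
import Pool.Agent.Lib.MP_b1ea0f_al.UDlog
import Pool.Agent.Lib.MP_b1ea0f_al.UHensel
import Pool.Agent.Lib.MP_b1ea0f_al.KFin

/-!
# UDim: dimensions of the blocks at the residue field

(Abbreviations in this text: OO = PowerSeries KK, LL = LaurentSeries KK, cc = PowerSeries.constantCoeff.) `χ_O(T) :=` charpoly of `mulLeft zz` on `H n x` over `OO` (free). Over `Om`: `∏_i (T - f(zl i))^{d_i²}` (`exists_rhoOmega` bijection: `z` acts on the `i`-th block of dimension `d_i²` by the scalar). So `χ_O = ∏ (T - zl i)^{d_i²}` and reducing modulo `X`: the charpoly over `KK` is `∏ (T - ζ_i)^{d_i²}`.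
`LinearMap.finrank_maxGenEigenspace_eq`.
-/

namespace SYM
open Polynomial Module

/-! ### helpers -/

private theorem toMatrix_hmap {k k' : Type} [CommRing k] [CommRing k'] (f : k →+* k') (n : ℕ)
    (x : J n → kˣ) {ι : Type} [Fintype ι] [DecidableEq ι] (b : Basis ι k (H n x))
    (b' : Basis ι k' (H n (mapx f x))) (hb : ∀ i, b' i = hmap f n x (b i)) (h : H n x) :
    LinearMap.toMatrix b' b' (LinearMap.mulLeft k' (hmap f n x h)) =
      (LinearMap.toMatrix b b (LinearMap.mulLeft k h)).map f := by
  have hrep : ∀ (u : H n x) (i : ι), b'.repr (hmap f n x u) i = f (b.repr u i) := by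
    intro u i
    have h1 : hmap f n x u = ∑ j, f (b.repr u j) • b' j := by
      conv_lhs => rw [← b.sum_repr u]
      rw [map_sum]
      refine Finset.sum_congr rfl fun j _ => ?_
      rw [hmap_smul, hb]
    rw [h1, b'.repr_sum_self]
  ext i j
  rw [LinearMap.toMatrix_apply, Matrix.map_apply, LinearMap.toMatrix_apply,
    LinearMap.mulLeft_apply, LinearMap.mulLeft_apply, hb, ← map_mul, hrep]

private theorem hmap_inj {k k' : Type} [CommRing k] [CommRing k'] (f : k →+* k')
    (hf : Function.Injective f) (n : ℕ)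
    (x : J n → kˣ) {ι : Type} [Fintype ι] (b : Basis ι k (H n x))
    (b' : Basis ι k' (H n (mapx f x))) (hb : ∀ i, b' i = hmap f n x (b i)) (u : H n x)
    (hu : hmap f n x u = 0) : u = 0 := by
  have h1 : hmap f n x u = ∑ j, f (b.repr u j) • b' j := by
    conv_lhs => rw [← b.sum_repr u]
    rw [map_sum]
    refine Finset.sum_congr rfl fun j _ => ?_
    rw [hmap_smul, hb]
  have h2 : ∀ j, f (b.repr u j) = 0 := by
    intro j
    have h3 := b'.repr_sum_self (fun j => f (b.repr u j))
    rw [← h1, hu, map_zero] at h3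
    exact (congrFun h3 j).symm
  apply b.repr.injective
  rw [map_zero]
  ext j
  apply hf
  rw [h2 j]
  simp

private theorem hmap_aeval {k k' : Type} [CommRing k] [CommRing k'] (f : k →+* k') (n : ℕ)
    (x : J n → kˣ) (u : H n x) (p : k[X]) :
    hmap f n x (aeval u p) = aeval (hmap f n x u) (p.map f) := by
  rw [aeval_def, aeval_def, Polynomial.eval₂_map, Polynomial.hom_eval₂]
  congr 1
  ext r
  simp [hmap_algebraMap]

private theorem charpoly_Om {Om : Type} [Field Om] {A : Type} [Ring A] [Algebra Om A] {I : Type}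
    [Fintype I] (d : I → ℕ) (ρ : ∀ i, A →ₐ[Om] Module.End Om (Fin (d i) → Om))
    (hb : Function.Bijective (fun h : A => fun i => ρ i h)) (z : A) (c : I → Om)
    (hz : ∀ i, ρ i z = c i • 1) {ι : Type} [Fintype ι] [DecidableEq ι] (b : Basis ι Om A) :
    (LinearMap.toMatrix b b (LinearMap.mulLeft Om z)).charpoly = ∏ i, (X - C (c i)) ^ (d i ^ 2) := by
  classical
  have : Module.Finite Om A := Module.Finite.of_basis b
  let e : A ≃ₗ[Om] (∀ i, Module.End Om (Fin (d i) → Om)) :=
    LinearEquiv.ofBijective (LinearMap.pi fun i => (ρ i).toLinearMap) hb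
  have he : ∀ u i, e u i = ρ i u := fun _ _ => rfl
  let b2 := (Pi.basis fun i => Module.finBasis Om (Module.End Om (Fin (d i) → Om))).map e.symm
  have h1 : ∀ q, z * b2 q = c q.1 • b2 q := by
    rintro ⟨i, a⟩
    apply e.injective
    funext i'
    rw [map_smul, Pi.smul_apply, he, map_mul, hz, smul_mul_assoc, one_mul, ← he]
    by_cases h : i' = i
    · subst h
      rfl
    · have h3 : e (b2 ⟨i, a⟩) i' = 0 := by
        simp only [b2, Basis.map_apply, LinearEquiv.apply_symm_apply, Pi.basis_apply]
        exact Pi.single_eq_of_ne h _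
      rw [h3, smul_zero, smul_zero]
  have h2 : LinearMap.toMatrix b2 b2 (LinearMap.mulLeft Om z) =
      Matrix.diagonal (fun q => c q.1) := by
    ext p q
    rw [LinearMap.toMatrix_apply, LinearMap.mulLeft_apply, h1, map_smul, Finsupp.smul_apply,
      Basis.repr_self, Finsupp.single_apply, Matrix.diagonal_apply]
    by_cases h : p = q
    · subst h
      simp
    · rw [if_neg h, if_neg (Ne.symm h), smul_zero]
  rw [LinearMap.charpoly_toMatrix, ← LinearMap.charpoly_toMatrix _ b2, h2,
    Matrix.charpoly_diagonal, Fintype.prod_sigma]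
  refine Finset.prod_congr rfl fun i _ => ?_
  change ∏ _y : Fin (finrank Om (Module.End Om (Fin (d i) → Om))), (X - C (c i)) = _
  rw [Finset.prod_const, Finset.card_univ, Fintype.card_fin, Module.finrank_linearMap,
    Module.finrank_fin_fun, pow_two]

private theorem rm_prod {K : Type} [Field K] {I : Type} (a : K) (s : Finset I) (p : I → K[X])
    (h : ∀ i, p i ≠ 0) :
    rootMultiplicity a (∏ i ∈ s, p i) = ∑ i ∈ s, rootMultiplicity a (p i) := by
  classical
  induction s using Finset.induction_on with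
  | empty => simp
  | insert i s hi ih =>
    rw [Finset.prod_insert hi, Finset.sum_insert hi, rootMultiplicity_mul, ih]
    exact mul_ne_zero (h i) (Finset.prod_ne_zero_iff.2 fun i _ => h i)

private theorem rm_pow {K : Type} [Field K] [DecidableEq K] (a c : K) (m : ℕ) :
    rootMultiplicity a ((X - C c) ^ m : K[X]) = if c = a then m else 0 := by
  by_cases h : c = a
  · subst h
    rw [if_pos rfl, rootMultiplicity_X_sub_C_pow]
  · rw [if_neg h]
    apply rootMultiplicity_eq_zero
    intro h1
    rw [IsRoot.def, eval_pow, eval_sub, eval_X, eval_C] at h1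
    exact h (sub_eq_zero.1 (eq_zero_of_pow_eq_zero h1)).symm

section
variable {KK : Type} [Field KK] {n : ℕ}

open Classical in
private theorem charO [CharZero KK] [IsAlgClosed KK] (hn : HN n) {x : J n → (PowerSeries KK)ˣ}
    {k : J n} (hl : LocHyp n x k) {ι : Type} [Fintype ι] (b : Basis ι (PowerSeries KK) (H n x))
    (zl : Idx (mapx (PowerSeries.constantCoeff (R := KK)) x) → (PowerSeries KK)ˣ)
    (hz : ∀ i, zl i ^ dg i.1.1 = mon x i.1.1 ∧
      Units.map ((PowerSeries.constantCoeff (R := KK)) : (PowerSeries KK) →* KK) (zl i) = i.1.2) :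
    (LinearMap.toMatrix b b (LinearMap.mulLeft (PowerSeries KK) (zz n x))).charpoly =
      ∏ i, (X - C (zl i : PowerSeries KK)) ^ (dg i.1.1 ^ 2) ∧
    aeval (zz n x) (∏ i, (X - C (zl i : (PowerSeries KK)))) = 0 := by
  let Om : Type := AlgebraicClosure (LaurentSeries KK)
  let f : PowerSeries KK →+* Om := (algebraMap (LaurentSeries KK) Om).comp
    (algebraMap (PowerSeries KK) (LaurentSeries KK))
  have hf : Function.Injective f :=
    (algebraMap (LaurentSeries KK) Om).injective.comp (IsFractionRing.injective _ _)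
  obtain ⟨ρ, h1, -, h3, -⟩ := exists_rhoOmega hn hl zl hz Om f hf
  obtain ⟨b', hb'⟩ := exists_basis_map f n x b
  constructor
  · apply Polynomial.map_injective f hf
    rw [← Matrix.charpoly_map, ← toMatrix_hmap f n x b b' hb', hmap_zz,
      charpoly_Om (fun i : Idx (mapx (PowerSeries.constantCoeff (R := KK)) x) => dg i.1.1) ρ h3
        (zz n (mapx f x)) (fun i => f (zl i : PowerSeries KK)) h1 b', Polynomial.map_prod]
    refine Finset.prod_congr rfl fun i _ => ?_
    simp
  · apply hmap_inj f hf n x b b' hb'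
    rw [hmap_aeval, hmap_zz]
    apply h3.1
    funext i
    simp only
    rw [map_zero, ← Polynomial.aeval_algHom_apply, h1]
    rw [Polynomial.map_prod, ← Finset.prod_erase_mul Finset.univ _ (Finset.mem_univ i), map_mul]
    simp [Algebra.algebraMap_eq_smul_one]


open Classical in
theorem block_dim [CharZero KK] [IsAlgClosed KK] (hn : HN n) {x : J n → (PowerSeries KK)ˣ} {k : J n}
    (hl : LocHyp n x k) {ι : Type} [Finite ι] (b : Basis ι (PowerSeries KK) (H n x))
    (hr : Nat.card ι = NZ n ^ 2) (z0 : KKˣ) :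
    finrank KK (Module.End.maxGenEigenspace (LinearMap.mulLeft KK (zz n (mapx (PowerSeries.constantCoeff (R := KK)) x))) (z0 : KK)) =
      ∑ i : Idx (mapx (PowerSeries.constantCoeff (R := KK)) x), if i.1.2 = z0 then dg i.1.1 ^ 2 else 0 := by
  have : Fintype ι := Fintype.ofFinite ι
  choose zl hz using fun i => exists_zl hn hl i
  obtain ⟨b1, hb1⟩ := exists_basis_map (PowerSeries.constantCoeff (R := KK)) n x b
  have : Module.Finite KK (H n (mapx (PowerSeries.constantCoeff (R := KK)) x)) :=
    Module.Finite.of_basis b1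
  rw [LinearMap.finrank_maxGenEigenspace_eq, ← LinearMap.charpoly_toMatrix _ b1, ← hmap_zz,
    toMatrix_hmap _ n x b b1 hb1, Matrix.charpoly_map, (charO hn hl b zl hz).1, Polynomial.map_prod,
    rm_prod]
  · refine Finset.sum_congr rfl fun i _ => ?_
    rw [Polynomial.map_pow, Polynomial.map_sub, Polynomial.map_X, Polynomial.map_C, rm_pow]
    have h1 : (PowerSeries.constantCoeff (R := KK)) (zl i : PowerSeries KK) = (i.1.2 : KK) := by
      rw [← (hz i).2]
      rfl
    rw [h1]
    simp only [Units.val_inj]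
  · intro i
    rw [Polynomial.map_pow, Polynomial.map_sub, Polynomial.map_X, Polynomial.map_C]
    exact pow_ne_zero _ (X_sub_C_ne_zero _)

/-- `∏ (zz - zl i) = 0` in `H n x` -/
theorem prod_zz_sub [CharZero KK] [IsAlgClosed KK] (hn : HN n) {x : J n → (PowerSeries KK)ˣ} {k : J n}
    (D : LocData n x k) {ι : Type} [Finite ι] (b : Basis ι (PowerSeries KK) (H n x))
    (hr : Nat.card ι = NZ n ^ 2) :
    aeval (zz n x) (∏ i, (X - C (D.zl i : (PowerSeries KK)))) = 0 := by
  have : Fintype ι := Fintype.ofFinite ι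
  exact (charO hn D.hl b D.zl fun i => ⟨D.zl_pow i, D.zl_cc i⟩).2
end

end SYM
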