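import Pool.Agent.Lib.MP_b1ea0f_al.Defs4
import Pool.Agent.Lib.MP_b1ea0f_al.BMap

/-!
# UFrob: from a non-degenerate reduction to a Frobenius system

(Abbreviations in this text: OO = PowerSeries KK, LL = LaurentSeries KK, cc = PowerSeries.constantCoeff.) `hmap cc` maps the basis `b` to a basis of `H n (mapx cc x)` (`exists_basis_map`). Gram matrix `(T (b_i b_j))` has unit determinant (its reduction is the Gram matrix of `Tb`, non-degenerate); dual basis `u_i`: `T(b_i u_j) = δ_ij`; `h = ∑ T(h u_j) b_j`.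
-/

namespace SYM
open Polynomial Module

section
variable {KK : Type} [Field KK] {n : ℕ}

private theorem frob_of_nondeg_aux {x : J n → (PowerSeries KK)ˣ} {m : ℕ}
    (b : Basis (Fin m) (PowerSeries KK) (H n x))
    (T : H n x →ₗ[(PowerSeries KK)] (PowerSeries KK)) (Tb : H n (mapx (PowerSeries.constantCoeff (R := KK)) x) →ₗ[KK] KK)
    (hTb : ∀ h, Tb (hmap (PowerSeries.constantCoeff (R := KK)) n x h) = (PowerSeries.constantCoeff (R := KK)) (T h))
    (hnd : ∀ h, (∀ h', Tb (h * h') = 0) → h = 0) : Frob T := by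
  obtain ⟨b', hb'⟩ := exists_basis_map (PowerSeries.constantCoeff (R := KK)) n x b
  set G : Matrix (Fin m) (Fin m) (PowerSeries KK) := Matrix.of fun i j => T (b i * b j) with hG
  -- the reduction of the determinant
  have hdet : PowerSeries.constantCoeff (R := KK) G.det ≠ 0 := by
    rw [RingHom.map_det]
    intro h0
    obtain ⟨v, hv, hv0⟩ := Matrix.exists_vecMul_eq_zero_iff.2 h0
    apply hv
    have h1 : ∑ i, v i • b' i = 0 := by
      apply hnd
      intro h'
      have h2 : ∀ j, Tb ((∑ i, v i • b' i) * b' j) = 0 := by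
        intro j
        rw [Finset.sum_mul, map_sum]
        have h3 := congrFun hv0 j
        rw [Matrix.vecMul, dotProduct] at h3
        rw [Pi.zero_apply] at h3
        rw [← h3]
        refine Finset.sum_congr rfl fun i _ => ?_
        rw [smul_mul_assoc, map_smul, smul_eq_mul, hb', hb', ← map_mul, hTb]
        rfl
      rw [← b'.sum_repr h', Finset.mul_sum, map_sum]
      refine Finset.sum_eq_zero fun j _ => ?_
      rw [mul_smul_comm, map_smul, h2, smul_zero]
    funext i
    exact Fintype.linearIndependent_iff.1 b'.linearIndependent v h1 i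
  have hunit : IsUnit G.det := by
    rw [PowerSeries.isUnit_iff_constantCoeff]
    exact isUnit_iff_ne_zero.2 hdet
  have hGG : G * G⁻¹ = 1 := Matrix.mul_nonsing_inv G hunit
  refine ⟨m, fun j => ∑ k, G⁻¹ k j • b k, fun j => b j, fun h => ?_⟩
  have hdual : ∀ i j, T (b i * ∑ k, G⁻¹ k j • b k) = if i = j then 1 else 0 := by
    intro i j
    rw [Finset.mul_sum, map_sum]
    have h1 := congrFun (congrFun hGG i) j
    rw [Matrix.mul_apply, Matrix.one_apply] at h1
    rw [← h1]
    refine Finset.sum_congr rfl fun k _ => ?_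
    rw [mul_smul_comm, map_smul, smul_eq_mul, mul_comm]
    rfl
  conv_lhs => rw [← b.sum_repr h]
  refine Finset.sum_congr rfl fun j _ => ?_
  congr 1
  conv_rhs => rw [← b.sum_repr h]
  rw [Finset.sum_mul, map_sum, Finset.sum_eq_single j]
  · rw [smul_mul_assoc, map_smul, hdual, if_pos rfl, smul_eq_mul, mul_one]
  · intro i _ hij
    rw [smul_mul_assoc, map_smul, hdual, if_neg hij, smul_zero]
  · intro hj
    exact absurd (Finset.mem_univ j) hj

theorem frob_of_nondeg {x : J n → (PowerSeries KK)ˣ} {ι : Type} [Finite ι] (b : Basis ι (PowerSeries KK) (H n x))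
    (T : H n x →ₗ[(PowerSeries KK)] (PowerSeries KK)) (Tb : H n (mapx (PowerSeries.constantCoeff (R := KK)) x) →ₗ[KK] KK)
    (hTb : ∀ h, Tb (hmap (PowerSeries.constantCoeff (R := KK)) n x h) = (PowerSeries.constantCoeff (R := KK)) (T h))
    (hnd : ∀ h, (∀ h', Tb (h * h') = 0) → h = 0) : Frob T := by
  obtain ⟨m, ⟨e⟩⟩ := Finite.exists_equiv_fin ι
  exact frob_of_nondeg_aux (b.reindex e) T Tb hTb hnd

theorem exists_Tbar {x : J n → (PowerSeries KK)ˣ} {ι : Type} [Finite ι] (b : Basis ι (PowerSeries KK) (H n x))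
    (T : H n x →ₗ[(PowerSeries KK)] (PowerSeries KK)) : ∃ Tb : H n (mapx (PowerSeries.constantCoeff (R := KK)) x) →ₗ[KK] KK,
      ∀ h, Tb (hmap (PowerSeries.constantCoeff (R := KK)) n x h) = (PowerSeries.constantCoeff (R := KK)) (T h) :=
  exists_form_map (PowerSeries.constantCoeff (R := KK)) n x T

theorem hmap_cc_surjective (x : J n → (PowerSeries KK)ˣ) : Function.Surjective (hmap (PowerSeries.constantCoeff (R := KK)) n x) := by
  intro y
  have hy : y ∈ Submodule.span KK (Set.range (hmap (PowerSeries.constantCoeff (R := KK)) n x)) := by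
    rw [hmap_span]
    exact Submodule.mem_top
  induction hy using Submodule.span_induction with
  | mem y hy => exact hy
  | zero => exact ⟨0, map_zero _⟩
  | add y z _ _ h1 h2 =>
    obtain ⟨a, ha⟩ := h1
    obtain ⟨c, hc⟩ := h2
    exact ⟨a + c, by rw [map_add, ha, hc]⟩
  | smul r y _ h1 =>
    obtain ⟨a, ha⟩ := h1
    refine ⟨PowerSeries.C r • a, ?_⟩
    rw [hmap_smul, ha, PowerSeries.constantCoeff_C]
end

end SYM
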