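import Pool.Agent.Lib.MP_b1ea0f_al.Defs4

/-!
# UInt: integrality of the block sums, values at s = 0

(Abbreviations in this text: OO = PowerSeries KK, LL = LaurentSeries KK, cc = PowerSeries.constantCoeff.) `block_integral`: in case `unit` each term is integral (`schur` a unit of `OO`, `dg ≠ 0`). Cases `leg`, `A2`: `schur = X · (unit)` (constant coefficient 0, first coefficient ≠ 0), so `X · ∑ term ∈ OO`, with constant coefficient `∑_i cc(tr σ_i h)/(d_i · res_i)` `= (tr ρ_j) (1/res γ + 1/res β) + ... = 0`. [`term i = tr σ_i(h) / (d_i · (d_i schur_i))`,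
`d_i schur_i = X (res_i + ...)`, and `cc(tr σ_i h) = d_i ∑ m tr ρ`.] An element `f/X` with `cc f = 0` is in `OO`.
-/

namespace SYM
open Polynomial Module

section
variable {KK : Type} [Field KK] {n : ℕ}


private theorem dg_ne [CharZero KK] {x : J n → KKˣ} (i : Idx x) : (dg i.1.1 : KK) ≠ 0 := by
  have h := (Finset.mem_filter.1 i.2.1).2.2
  have h1 : dg i.1.1 ≠ 0 := by
    unfold dg
    omega
  exact_mod_cast h1

private theorem alg_inj : Function.Injective (algebraMap (PowerSeries KK) (LaurentSeries KK)) :=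
  FaithfulSMul.algebraMap_injective _ _

private theorem alg_dg (m : ℕ) : (m : LaurentSeries KK) =
    algebraMap (PowerSeries KK) (LaurentSeries KK) (m : PowerSeries KK) := (map_natCast _ m).symm

/-- the defining equation of `term`, multiplied out -/
private theorem term_mul [CharZero KK] {x : J n → (PowerSeries KK)ˣ} {k : J n}
    (D : LocData n x k) (i : Idx (mapx (PowerSeries.constantCoeff (R := KK)) x)) (h : H n x)
    (hs : schur i.1.1 x (D.zl i) ≠ (0 : PowerSeries KK)) :
    algebraMap (PowerSeries KK) (LaurentSeries KK)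
      ((dg i.1.1 : PowerSeries KK) ^ 2 * schur i.1.1 x (D.zl i)) * D.term i h =
      algebraMap (PowerSeries KK) (LaurentSeries KK) (Matrix.trace (D.σ i h)) := by
  have h1 : algebraMap (PowerSeries KK) (LaurentSeries KK)
      ((dg i.1.1 : PowerSeries KK) ^ 2 * schur i.1.1 x (D.zl i)) ≠ 0 := by
    intro h0
    have h2 := alg_inj (h0.trans (map_zero _).symm)
    rcases mul_eq_zero.1 h2 with h3 | h3
    · have h4 := pow_eq_zero_iff (two_ne_zero) |>.1 h3
      have h5 := congrArg (PowerSeries.constantCoeff (R := KK)) h4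
      rw [map_natCast, map_zero] at h5
      exact dg_ne i h5
    · exact hs h3
  unfold LocData.term
  rw [alg_dg, ← map_pow, ← map_mul, mul_div_cancel₀ _ h1]

private theorem exists_X (f : PowerSeries KK) (hf : PowerSeries.constantCoeff (R := KK) f = 0) :
    ∃ g : PowerSeries KK, f = PowerSeries.X * g ∧
      PowerSeries.constantCoeff (R := KK) g = PowerSeries.coeff 1 f := by
  obtain ⟨g, rfl⟩ := PowerSeries.X_dvd_iff.2 hf
  refine ⟨g, rfl, ?_⟩
  rw [show (1 : ℕ) = 0 + 1 from rfl, PowerSeries.coeff_succ_X_mul, PowerSeries.coeff_zero_eq_constantCoeff]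

/-- unit case: the term is integral -/
private theorem term_unit [CharZero KK] {x : J n → (PowerSeries KK)ˣ} {k : J n}
    (D : LocData n x k) (i : Idx (mapx (PowerSeries.constantCoeff (R := KK)) x)) (h : H n x)
    (hu : (PowerSeries.constantCoeff (R := KK)) (schur i.1.1 x (D.zl i)) ≠ 0) :
    ∃ f : PowerSeries KK, algebraMap (PowerSeries KK) (LaurentSeries KK) f = D.term i h := by
  set s : PowerSeries KK := (dg i.1.1 : PowerSeries KK) ^ 2 * schur i.1.1 x (D.zl i) with hsdef
  have hs : schur i.1.1 x (D.zl i) ≠ (0 : PowerSeries KK) := by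
    intro h0
    rw [h0, map_zero] at hu
    exact hu rfl
  have hc : PowerSeries.constantCoeff (R := KK) s ≠ 0 := by
    rw [hsdef, map_mul, map_pow, map_natCast]
    exact mul_ne_zero (pow_ne_zero _ (dg_ne i)) hu
  refine ⟨s⁻¹ * Matrix.trace (D.σ i h), ?_⟩
  rw [map_mul, ← term_mul D i h hs, ← hsdef, ← mul_assoc, ← map_mul, PowerSeries.inv_mul_cancel _ hc,
    map_one, one_mul]

/-- simple pole -/
private theorem term_pole [CharZero KK] {x : J n → (PowerSeries KK)ˣ} {k : J n}
    (D : LocData n x k) (i : Idx (mapx (PowerSeries.constantCoeff (R := KK)) x)) (h : H n x)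
    (h0 : (PowerSeries.constantCoeff (R := KK)) (schur i.1.1 x (D.zl i)) = 0) (h1 : D.res i ≠ 0) :
    ∃ g : PowerSeries KK, algebraMap (PowerSeries KK) (LaurentSeries KK) PowerSeries.X * D.term i h =
      algebraMap (PowerSeries KK) (LaurentSeries KK) g ∧
      PowerSeries.constantCoeff (R := KK) g =
        PowerSeries.constantCoeff (R := KK) (Matrix.trace (D.σ i h)) / ((dg i.1.1 : KK) * D.res i) := by
  obtain ⟨t, ht, ht1⟩ := exists_X _ h0
  have hd := dg_ne (KK := KK) i
  have hc1 : PowerSeries.coeff 1 (schur i.1.1 x (D.zl i)) ≠ 0 := by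
    intro hh
    apply h1
    unfold LocData.res
    rw [hh, mul_zero]
  have hs : schur i.1.1 x (D.zl i) ≠ (0 : PowerSeries KK) := by
    intro hh
    apply hc1
    rw [hh, map_zero]
  set s : PowerSeries KK := (dg i.1.1 : PowerSeries KK) ^ 2 * t with hsdef
  have hcs : PowerSeries.constantCoeff (R := KK) s = (dg i.1.1 : KK) * D.res i := by
    rw [hsdef, map_mul, map_pow, map_natCast, ht1]
    unfold LocData.res
    ring
  have hc : PowerSeries.constantCoeff (R := KK) s ≠ 0 := by
    rw [hcs]
    exact mul_ne_zero hd h1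
  refine ⟨s⁻¹ * Matrix.trace (D.σ i h), ?_, ?_⟩
  · have h2 : (dg i.1.1 : PowerSeries KK) ^ 2 * schur i.1.1 x (D.zl i) = s * PowerSeries.X := by
      rw [hsdef]
      conv_lhs => rw [ht]
      ring
    have h3 := term_mul D i h hs
    rw [h2] at h3
    rw [map_mul _ s⁻¹, ← h3, map_mul _ s, ← mul_assoc, ← mul_assoc, ← map_mul _ s⁻¹,
      PowerSeries.inv_mul_cancel _ hc, map_one, one_mul]
  · rw [map_mul, PowerSeries.constantCoeff_inv, hcs]
    field_simp

open Classical in
private theorem sum_pole [CharZero KK] {x : J n → (PowerSeries KK)ˣ} {k : J n}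
    (D : LocData n x k) (h : H n x) (S : Finset (Idx (mapx (PowerSeries.constantCoeff (R := KK)) x)))
    (h0 : ∀ i ∈ S, (PowerSeries.constantCoeff (R := KK)) (schur i.1.1 x (D.zl i)) = 0)
    (h1 : ∀ i ∈ S, D.res i ≠ 0)
    (h2 : ∑ i ∈ S, PowerSeries.constantCoeff (R := KK) (Matrix.trace (D.σ i h)) /
      ((dg i.1.1 : KK) * D.res i) = 0) :
    ∃ f : PowerSeries KK, algebraMap (PowerSeries KK) (LaurentSeries KK) f = ∑ i ∈ S, D.term i h := by
  have hg : ∀ i : Idx (mapx (PowerSeries.constantCoeff (R := KK)) x), ∃ g : PowerSeries KK, i ∈ S →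
      algebraMap (PowerSeries KK) (LaurentSeries KK) PowerSeries.X * D.term i h =
      algebraMap (PowerSeries KK) (LaurentSeries KK) g ∧
      PowerSeries.constantCoeff (R := KK) g =
        PowerSeries.constantCoeff (R := KK) (Matrix.trace (D.σ i h)) / ((dg i.1.1 : KK) * D.res i) := by
    intro i
    by_cases hi : i ∈ S
    · obtain ⟨g, hg⟩ := term_pole D i h (h0 i hi) (h1 i hi)
      exact ⟨g, fun _ => hg⟩
    · exact ⟨0, fun h' => absurd h' hi⟩
  choose g hg using hg
  have h3 : PowerSeries.constantCoeff (R := KK) (∑ i ∈ S, g i) = 0 := by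
    rw [map_sum, ← h2]
    exact Finset.sum_congr rfl fun i hi => (hg i hi).2
  obtain ⟨f, hf, -⟩ := exists_X _ h3
  refine ⟨f, ?_⟩
  have hX : algebraMap (PowerSeries KK) (LaurentSeries KK) PowerSeries.X ≠ 0 := by
    intro hh
    exact PowerSeries.X_ne_zero (alg_inj (hh.trans (map_zero _).symm))
  apply mul_left_cancel₀ hX
  rw [← map_mul, ← hf, map_sum, Finset.mul_sum]
  exact Finset.sum_congr rfl fun i hi => (hg i hi).1.symm

open Classical in
theorem block_integral [CharZero KK] {x : J n → (PowerSeries KK)ˣ} {k : J n}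
    (D : LocData n x k) (w : Wed KK (H n (mapx (PowerSeries.constantCoeff (R := KK)) x))) (z0 : KKˣ) (hb : BlockCase D w z0)
    (h : H n x) : ∃ f : (PowerSeries KK), algebraMap (PowerSeries KK) (LaurentSeries KK) f =
      ∑ i : Idx (mapx (PowerSeries.constantCoeff (R := KK)) x), if i.1.2 = z0 then D.term i h else 0 := by
  have hRed1 : ∀ (i : Idx (mapx (PowerSeries.constantCoeff (R := KK)) x)) (j : Fin w.r),
      D.Red w i (Pi.single j 1) → PowerSeries.constantCoeff (R := KK) (Matrix.trace (D.σ i h)) =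
      (dg i.1.1 : KK) * LinearMap.trace KK _ (w.ρ j (hmap (PowerSeries.constantCoeff (R := KK)) n x h)) := by
    intro i j hr
    rw [hr h, Finset.sum_eq_single j]
    · simp
    · intro b _ hb
      simp [Pi.single_eq_of_ne hb]
    · intro hj
      exact absurd (Finset.mem_univ j) hj
  rw [← Finset.sum_filter]
  cases hb with
  | unit f hd hr hu =>
    have hg : ∀ i : Idx (mapx (PowerSeries.constantCoeff (R := KK)) x), ∃ g : PowerSeries KK,
        i.1.2 = z0 → algebraMap (PowerSeries KK) (LaurentSeries KK) g = D.term i h := by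
      intro i
      by_cases hi : i.1.2 = z0
      · obtain ⟨g, hg⟩ := term_unit D i h (hu ⟨i, hi⟩)
        exact ⟨g, fun _ => hg⟩
      · exact ⟨0, fun h' => absurd h' hi⟩
    choose g hg using hg
    refine ⟨∑ i : Idx (mapx (PowerSeries.constantCoeff (R := KK)) x) with i.1.2 = z0, g i, ?_⟩
    rw [map_sum]
    exact Finset.sum_congr rfl fun i hi => hg i (Finset.mem_filter.1 hi).2
  | leg γ β j hne hG hW hdg hd hrγ hrβ h0γ h0β h1 h2 h3 =>
    have hS : (Finset.univ.filter fun i : Idx (mapx (PowerSeries.constantCoeff (R := KK)) x) =>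
        i.1.2 = z0) = {γ, β} := by
      ext i
      rw [Finset.mem_filter, hG i, Finset.mem_insert, Finset.mem_singleton]
      simp
    rw [hS]
    have h1' : D.res β ≠ 0 := by rw [h2]; exact neg_ne_zero.2 h1
    refine sum_pole D h _ ?_ ?_ ?_
    · intro i hi
      rw [Finset.mem_insert, Finset.mem_singleton] at hi
      rcases hi with rfl | rfl
      · exact h0γ
      · exact h0β
    · intro i hi
      rw [Finset.mem_insert, Finset.mem_singleton] at hi
      rcases hi with rfl | rfl
      · exact h1
      · exact h1'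
    · rw [Finset.sum_pair hne, hRed1 γ j hrγ, hRed1 β j hrβ,
        mul_div_mul_left _ _ (dg_ne γ), mul_div_mul_left _ _ (dg_ne β), h2, div_neg, add_neg_cancel]
  | A2 γ δ β j j' hjj hne hne' hne'' hG hW hdg hd hd' hrγ hrδ hrβ h0γ h0δ h0β h1 h2 h2' h3 h3' hdist hip hip' =>
    have hS : (Finset.univ.filter fun i : Idx (mapx (PowerSeries.constantCoeff (R := KK)) x) =>
        i.1.2 = z0) = {γ, δ, β} := by
      ext i
      rw [Finset.mem_filter, hG i, Finset.mem_insert, Finset.mem_insert, Finset.mem_singleton]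
      simp
    rw [hS]
    have h1' : D.res β ≠ 0 := by rw [h2]; exact neg_ne_zero.2 h1
    have h1'' : D.res δ ≠ 0 := by
      intro hh
      rw [h2', hh, neg_zero] at h1'
      exact h1' rfl
    refine sum_pole D h _ ?_ ?_ ?_
    · intro i hi
      rw [Finset.mem_insert, Finset.mem_insert, Finset.mem_singleton] at hi
      rcases hi with rfl | rfl | rfl
      · exact h0γ
      · exact h0δ
      · exact h0β
    · intro i hi
      rw [Finset.mem_insert, Finset.mem_insert, Finset.mem_singleton] at hi
      rcases hi with rfl | rfl | rfl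
      · exact h1
      · exact h1''
      · exact h1'
    · have hRb : PowerSeries.constantCoeff (R := KK) (Matrix.trace (D.σ β h)) =
          (dg β.1.1 : KK) * (LinearMap.trace KK _ (w.ρ j (hmap (PowerSeries.constantCoeff (R := KK)) n x h)) +
            LinearMap.trace KK _ (w.ρ j' (hmap (PowerSeries.constantCoeff (R := KK)) n x h))) := by
        rw [hrβ h]
        congr 1
        rw [← Finset.sum_subset (Finset.subset_univ {j, j'}), Finset.sum_pair hjj]
        · simp [Pi.single_eq_of_ne hjj, Pi.single_eq_of_ne hjj.symm]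
        · intro i _ hi
          rw [Finset.mem_insert, Finset.mem_singleton, not_or] at hi
          simp [Pi.single_eq_of_ne hi.1, Pi.single_eq_of_ne hi.2]
      have e1 : D.res γ = D.res δ := by
        have := h2.symm.trans h2'
        exact neg_injective this
      rw [Finset.sum_insert (by
          rw [Finset.mem_insert, Finset.mem_singleton, not_or]
          exact ⟨hne, hne'⟩), Finset.sum_pair hne'', hRed1 γ j hrγ, hRed1 δ j' hrδ, hRb,
        mul_div_mul_left _ _ (dg_ne γ), mul_div_mul_left _ _ (dg_ne β),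
        mul_div_mul_left _ _ (dg_ne δ), h2', e1]
      field_simp
      ring

/-- value at `s = 0`, unit case -/
theorem block_value_unit [CharZero KK] {x : J n → (PowerSeries KK)ˣ} {k : J n}
    (D : LocData n x k) (i : Idx (mapx (PowerSeries.constantCoeff (R := KK)) x)) (h : H n x) (hu : (PowerSeries.constantCoeff (R := KK)) (schur i.1.1 x (D.zl i)) ≠ 0)
    (f : (PowerSeries KK)) (hf : algebraMap (PowerSeries KK) (LaurentSeries KK) f = D.term i h) :
    (PowerSeries.constantCoeff (R := KK)) f = (PowerSeries.constantCoeff (R := KK)) (Matrix.trace (D.σ i h)) / ((dg i.1.1 : KK) ^ 2 * (PowerSeries.constantCoeff (R := KK)) (schur i.1.1 x (D.zl i))) := by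
  have hs : schur i.1.1 x (D.zl i) ≠ (0 : PowerSeries KK) := by
    intro h0
    rw [h0, map_zero] at hu
    exact hu rfl
  have h1 := term_mul D i h hs
  rw [← hf, ← map_mul] at h1
  have h2 := congrArg (PowerSeries.constantCoeff (R := KK)) (alg_inj h1)
  rw [map_mul, map_mul, map_pow, map_natCast] at h2
  rw [← h2]
  have := dg_ne (KK := KK) i
  field_simp

/-- value at `s = 0` of `(zl i - zl β) * term` for a simple zero -/
theorem block_value_pole [CharZero KK] {x : J n → (PowerSeries KK)ˣ} {k : J n}
    (D : LocData n x k) (i β : Idx (mapx (PowerSeries.constantCoeff (R := KK)) x)) (h : H n x) (hzz : i.1.2 = β.1.2)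
    (h0 : (PowerSeries.constantCoeff (R := KK)) (schur i.1.1 x (D.zl i)) = 0) (h1 : D.res i ≠ 0)
    (f : (PowerSeries KK)) (hf : algebraMap (PowerSeries KK) (LaurentSeries KK) f = algebraMap (PowerSeries KK) (LaurentSeries KK) ((D.zl i : (PowerSeries KK)) - D.zl β) * D.term i h) :
    (PowerSeries.constantCoeff (R := KK)) f = (PowerSeries.coeff 1 (D.zl i : (PowerSeries KK)) - PowerSeries.coeff 1 (D.zl β : (PowerSeries KK))) *
      (PowerSeries.constantCoeff (R := KK)) (Matrix.trace (D.σ i h)) / ((dg i.1.1 : KK) * D.res i) := by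
  have hz : PowerSeries.constantCoeff (R := KK) ((D.zl i : (PowerSeries KK)) - D.zl β) = 0 := by
    rw [map_sub]
    have e1 := congrArg Units.val (D.zl_cc i)
    have e2 := congrArg Units.val (D.zl_cc β)
    have e1' : PowerSeries.constantCoeff (R := KK) (D.zl i : PowerSeries KK) = (i.1.2 : KK) := e1
    have e2' : PowerSeries.constantCoeff (R := KK) (D.zl β : PowerSeries KK) = (β.1.2 : KK) := e2
    rw [e1', e2', hzz, sub_self]
  obtain ⟨y, hy, hy1⟩ := exists_X _ hz
  obtain ⟨g, hg, hg1⟩ := term_pole D i h h0 h1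
  rw [hy, map_mul, mul_comm (algebraMap (PowerSeries KK) (LaurentSeries KK) PowerSeries.X), mul_assoc,
    hg, ← map_mul] at hf
  rw [alg_inj hf, map_mul, hy1, hg1, map_sub]
  ring
end

end SYM
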