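import Pool.Agent.Lib.MP_b1ea0f_al.Defs4
import Pool.Agent.Lib.MP_b1ea0f_al.ULatA
import Pool.Agent.Lib.MP_b1ea0f_al.BMap
import Pool.Agent.Lib.MP_b1ea0f_al.UDlog
import Pool.Agent.Lib.MP_b1ea0f_al.KFin

/-!
# ULatB: lattice representations sigma_i

(Abbreviations in this text: OO = PowerSeries KK, LL = LaurentSeries KK, cc = PowerSeries.constantCoeff.) Lattice. `F_i := ∏_{j ≠ i} (T - zl j) ∈ OO[T]`, `N_i := range (mulLeft (aeval zz F_i))` in the free module `H n x`: submodule of a free module over the PID `OO`, free; `z` acts on `N_i` as `zl i` (`∏_j (zz - zl j) = 0` in `H n x`: true over `Ω`, and `H n x → H n (mapx f x)` injective). `H n x` acts by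
left multiplication on `N_i`. Rank of `N_i` = dimension over `Ω` of `F_i(z) H_Ω = ` the block `End(Ω^d)` = `d²`. Choose a basis indexed by `Fin (d²)`, `σ_i :=` matrix of left multiplication. Over `Ω` the representation `σ_i ⊗ Ω` is left multiplication on the block `ρ_i`: trace `d tr ρ_i`.
-/

namespace SYM
open Polynomial Module

/-- trace of the left multiplication on `End (Om^d)` -/
private theorem ulatb_trace_mul {Om : Type} [Field Om] (d : ℕ) (T : Module.End Om (Fin d → Om)) :
    LinearMap.trace Om (Module.End Om (Fin d → Om)) (LinearMap.mulLeft Om T) =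
      (d : Om) * LinearMap.trace Om _ T := by
  classical
  let e : Module.End Om (Fin d → Om) ≃ₗ[Om] Matrix (Fin d) (Fin d) Om := LinearMap.toMatrix'
  let b := (Matrix.stdBasis Om (Fin d) (Fin d)).map e.symm
  rw [LinearMap.trace_eq_matrix_trace Om b, Matrix.trace]
  have h1 : ∀ q : Fin d × Fin d,
      (LinearMap.toMatrix b b (LinearMap.mulLeft Om T)).diag q = LinearMap.toMatrix' T q.1 q.1 := by
    rintro ⟨a, c⟩
    rw [Matrix.diag_apply, LinearMap.toMatrix_apply, LinearMap.mulLeft_apply]
    have h2 : ∀ u, b.repr u ⟨a, c⟩ = LinearMap.toMatrix' u a c := fun u => rfl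
    have h3 : LinearMap.toMatrix' (b ⟨a, c⟩) = Matrix.single a c 1 := by
      change e (b ⟨a, c⟩) = _
      simp only [b, Basis.map_apply, LinearEquiv.apply_symm_apply, Matrix.stdBasis_eq_single]
    rw [h2, LinearMap.toMatrix'_mul, h3]
    simp
  rw [Finset.sum_congr rfl fun q _ => h1 q, Fintype.sum_prod_type]
  rw [LinearMap.trace_eq_matrix_trace Om (Pi.basisFun Om (Fin d)), Matrix.trace, Finset.mul_sum]
  refine Finset.sum_congr rfl fun a _ => ?_
  rw [Matrix.diag_apply]
  change ∑ _y : Fin d, LinearMap.toMatrix' T a a = _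
  rw [Finset.sum_const, Finset.card_univ, Fintype.card_fin, nsmul_eq_mul]
  rfl

/-- a left ideal as a representation, in a basis; its trace after a ring homomorphism -/
private theorem ulatb_rep {O A Om B : Type} [CommRing O] [Ring A] [Algebra O A] [Field Om] [Ring B]
    [Algebra Om B] [Module.Finite Om B] (f : O →+* Om) (g : A →+* B)
    (hg : ∀ r a, g (r • a) = f r • g a) (N : Submodule O A) (hN : ∀ a, ∀ x ∈ N, a * x ∈ N)
    {m : ℕ} (bN : Basis (Fin m) O N) (v : Basis (Fin m) Om B) (hv : ∀ k, v k = g (bN k : A)) :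
    ∃ σ : A →ₐ[O] Matrix (Fin m) (Fin m) O,
      (∀ (c : O) (a : A), (∀ x ∈ N, a * x = c • x) → σ a = c • 1) ∧
      ∀ a, f (Matrix.trace (σ a)) = LinearMap.trace Om B (LinearMap.mulLeft Om (g a)) := by
  classical
  let L : A →ₐ[O] Module.End O N := AlgHom.ofLinearMap
    { toFun := fun a => (LinearMap.mulLeft O a).restrict (fun x hx => hN a x hx)
      map_add' := by
        intro a b; ext x
        change (a + b) * (x : A) = a * x + b * x
        rw [add_mul]
      map_smul' := by
        intro c a; ext x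
        change (c • a) * (x : A) = c • (a * (x : A))
        rw [smul_mul_assoc] }
    (by ext x; exact one_mul (x : A)) (by intro a b; ext x; exact mul_assoc a b (x : A))
  have hL : ∀ a (x : N), (L a x : A) = a * x := fun a x => rfl
  refine ⟨(LinearMap.toMatrixAlgEquiv bN).toAlgHom.comp L, ?_, ?_⟩
  · intro c a h
    have h1 : L a = c • 1 := by
      apply LinearMap.ext
      intro x
      apply Subtype.ext
      rw [hL, h _ x.2]
      rfl
    change LinearMap.toMatrixAlgEquiv bN (L a) = _
    rw [h1, map_smul, map_one]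
  · intro a
    rw [LinearMap.trace_eq_matrix_trace Om v, Matrix.trace, Matrix.trace, map_sum]
    refine Finset.sum_congr rfl fun k _ => ?_
    rw [Matrix.diag_apply, Matrix.diag_apply, LinearMap.toMatrix_apply, LinearMap.mulLeft_apply]
    change f (LinearMap.toMatrixAlgEquiv bN (L a) k k) = _
    rw [LinearMap.toMatrixAlgEquiv_apply]
    have h1 : g a * v k = ∑ l, f (bN.repr (L a (bN k)) l) • v l := by
      rw [hv, ← map_mul, ← hL a (bN k)]
      conv_lhs => rw [← bN.sum_repr (L a (bN k))]
      rw [Submodule.coe_sum, map_sum]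
      refine Finset.sum_congr rfl fun l _ => ?_
      rw [Submodule.coe_smul, hg, hv]
    rw [h1, map_sum, Finsupp.finsetSum_apply]
    simp [Finsupp.single_apply]

section
variable {KK : Type} [Field KK] {n : ℕ}

private theorem ulatb_dg_pos {α : Vec n} (hα : α ∈ Rc n) : 0 < dg α := by
  have h := (Finset.mem_filter.1 hα).2.2
  unfold dg
  omega

private theorem ulatb_inj [CharZero KK] (hn : HN n) {x : J n → (PowerSeries KK)ˣ} {k : J n}
    (hl : LocHyp n x k) (zl : Idx (mapx (PowerSeries.constantCoeff (R := KK)) x) → (PowerSeries KK)ˣ)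
    (hz : ∀ i, zl i ^ dg i.1.1 = mon x i.1.1 ∧ Units.map ((PowerSeries.constantCoeff (R := KK)) : (PowerSeries KK) →* KK) (zl i) = i.1.2) :
    Function.Injective zl := by
  intro i j hij
  have h1 := (hz i).1
  have h2 := (hz j).1
  have h3 : mon x i.1.1 ^ dg j.1.1 = mon x j.1.1 ^ dg i.1.1 := by
    rw [← h1, ← h2, hij, ← pow_mul, ← pow_mul, mul_comm]
  have hmon : ∀ v, mon (mapx (algebraMap (PowerSeries KK) (LaurentSeries KK)) x) v =
      Units.map ((algebraMap (PowerSeries KK) (LaurentSeries KK) : _ →+* _) : _ →* _) (mon x v) := by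
    intro v
    simp [mon, mapx, map_prod, map_zpow]
  have h4 : i.1.1 = j.1.1 := by
    refine ((indep_L hl).gen hn).g1 _ i.2.1 _ j.2.1 ?_
    rw [hmon, hmon, ← map_pow, ← map_pow, h3]
  have h5 : i.1.2 = j.1.2 := by
    rw [← (hz i).2, ← (hz j).2, hij]
  exact Subtype.ext (Prod.ext h4 h5)

theorem exists_sigma [CharZero KK] [IsAlgClosed KK] (hn : HN n) {x : J n → (PowerSeries KK)ˣ} {k : J n}
    (hl : LocHyp n x k) (zl : Idx (mapx (PowerSeries.constantCoeff (R := KK)) x) → (PowerSeries KK)ˣ)
    (hz : ∀ i, zl i ^ dg i.1.1 = mon x i.1.1 ∧ Units.map ((PowerSeries.constantCoeff (R := KK)) : (PowerSeries KK) →* KK) (zl i) = i.1.2)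
    {ι : Type} [Finite ι] (b : Basis ι (PowerSeries KK) (H n x)) (hr : Nat.card ι = NZ n ^ 2)
    (Om : Type) [Field Om] [IsAlgClosed Om] (f : (PowerSeries KK) →+* Om) (hf : Function.Injective f)
    (ρ : ∀ i : Idx (mapx (PowerSeries.constantCoeff (R := KK)) x), H n (mapx f x) →ₐ[Om] Module.End Om (Fin (dg i.1.1) → Om))
    (h1 : ∀ i, ρ i (zz n _) = f (zl i : (PowerSeries KK)) • 1)
    (h3 : Function.Bijective (fun h : H n (mapx f x) => fun i => ρ i h))
    (i : Idx (mapx (PowerSeries.constantCoeff (R := KK)) x)) :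
    ∃ σ : H n x →ₐ[(PowerSeries KK)] Matrix (Fin (dg i.1.1 ^ 2)) (Fin (dg i.1.1 ^ 2)) (PowerSeries KK),
      σ (zz n x) = (zl i : (PowerSeries KK)) • 1 ∧
      ∀ h, f (Matrix.trace (σ h)) = (dg i.1.1 : Om) * LinearMap.trace Om _ (ρ i (hmap f n x h)) := by
  classical
  have hinj := ulatb_inj hn hl zl hz
  -- hmap on polynomials in z
  have hpol : ∀ (P : (PowerSeries KK)[X]) j, ρ j (hmap f n x (aeval (zz n x) P)) =
      f (P.eval (zl j : PowerSeries KK)) • 1 := by
    intro P j
    induction P using Polynomial.induction_on' with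
    | add p q hp hq => rw [map_add, map_add, map_add, hp, hq, eval_add, map_add, add_smul]
    | monomial m c =>
      rw [aeval_monomial, map_mul, hmap_algebraMap, map_pow, hmap_zz, map_mul, AlgHom.commutes,
        map_pow, h1, eval_monomial, map_mul, map_pow, _root_.smul_pow, one_pow,
        Algebra.algebraMap_eq_smul_one, smul_mul_smul_comm, one_mul]
  -- hmap is injective
  have hmi : Function.Injective (hmap f n x) := by
    obtain ⟨b', hb'⟩ := exists_basis_map f n x b
    rw [injective_iff_map_eq_zero]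
    intro h hh
    have := Fintype.ofFinite ι
    rw [← b.sum_repr h, map_sum] at hh
    have h5 : ∑ l, f (b.repr h l) • b' l = 0 := by
      rw [← hh]
      refine Finset.sum_congr rfl fun l _ => ?_
      rw [hmap_smul, hb']
    have h6 := (Fintype.linearIndependent_iff.1 b'.linearIndependent) _ h5
    rw [← b.sum_repr h]
    refine Finset.sum_eq_zero fun l _ => ?_
    rw [(injective_iff_map_eq_zero f).1 hf _ (h6 l), zero_smul]
  let F : (PowerSeries KK)[X] := ∏ j ∈ Finset.univ.erase i, (X - C (zl j : PowerSeries KK))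
  have hF : ∀ j, j ≠ i → F.eval (zl j : PowerSeries KK) = 0 := by
    intro j hj
    rw [eval_prod]
    refine Finset.prod_eq_zero (Finset.mem_erase.2 ⟨hj, Finset.mem_univ j⟩) ?_
    simp
  have hFi : F.eval (zl i : PowerSeries KK) ≠ 0 := by
    rw [eval_prod, Finset.prod_ne_zero_iff]
    intro j hj
    rw [eval_sub, eval_X, eval_C, sub_ne_zero]
    intro h
    exact (Finset.mem_erase.1 hj).1 (hinj (Units.ext h.symm))
  let Fz : H n x := aeval (zz n x) F
  have hFz : ∀ h : H n x, Fz * h = h * Fz := by
    intro h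
    have h5 : Commute h (zz n x) := (zz_comm n x h).symm
    have h6 : Commute h Fz := by
      change h * aeval (zz n x) F = aeval (zz n x) F * h
      rw [aeval_eq_sum_range, Finset.mul_sum, Finset.sum_mul]
      refine Finset.sum_congr rfl fun l _ => ?_
      rw [mul_smul_comm, smul_mul_assoc, (h5.pow_right l).eq]
    exact h6.eq.symm
  let N : Submodule (PowerSeries KK) (H n x) := LinearMap.range (LinearMap.mulLeft (PowerSeries KK) Fz)
  have hNm : ∀ u, u ∈ N ↔ ∃ h, Fz * h = u := by
    intro u; rfl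
  have hN : ∀ a, ∀ u ∈ N, a * u ∈ N := by
    intro a u hu
    obtain ⟨h, rfl⟩ := (hNm u).1 hu
    refine (hNm _).2 ⟨a * h, ?_⟩
    rw [← mul_assoc, hFz, mul_assoc]
  have hNj : ∀ u ∈ N, ∀ j, j ≠ i → ρ j (hmap f n x u) = 0 := by
    intro u hu j hj
    obtain ⟨h, rfl⟩ := (hNm u).1 hu
    rw [map_mul, map_mul, hpol, hF j hj, map_zero, zero_smul, zero_mul]
  obtain ⟨m, sn⟩ := N.smithNormalForm b
  obtain ⟨b2, hb2⟩ := exists_basis_map f n x sn.bM
  have hli : LinearIndependent Om (fun k => hmap f n x (sn.bN k : H n x)) := by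
    have h5 : (fun k => hmap f n x (sn.bN k : H n x)) = fun k => f (sn.a k) • b2 (sn.f k) := by
      funext k
      rw [sn.snf k, hmap_smul, hb2]
    have h6 : ∀ k, f (sn.a k) ≠ 0 := by
      intro k hk
      have h7 := (injective_iff_map_eq_zero f).1 hf _ hk
      have h8 : (sn.bN k : H n x) = 0 := by rw [sn.snf k, h7, zero_smul]
      exact sn.bN.ne_zero k (Subtype.ext h8)
    rw [h5]
    have h9 := (b2.linearIndependent.comp sn.f sn.f.injective).units_smul
      (fun k => Units.mk0 _ (h6 k))
    exact h9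
  have hli2 : LinearIndependent Om (fun k => ρ i (hmap f n x (sn.bN k : H n x))) := by
    rw [Fintype.linearIndependent_iff] at hli ⊢
    intro g hg
    refine hli g ?_
    apply h3.1
    funext j
    change ρ j _ = ρ j 0
    rw [map_zero]
    by_cases hj : j = i
    · subst hj
      rw [map_sum, ← hg]
      exact Finset.sum_congr rfl fun k _ => map_smul _ _ _
    · rw [map_sum]
      refine Finset.sum_eq_zero fun k _ => ?_
      rw [map_smul, hNj _ (sn.bN k).2 j hj, smul_zero]
  have hspan : ⊤ ≤ Submodule.span Om (Set.range (fun k => ρ i (hmap f n x (sn.bN k : H n x)))) := by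
    intro T _
    obtain ⟨h0, hh0⟩ := h3.2 (Pi.single i T)
    have hi0 : ρ i h0 = T := by
      have := congrFun hh0 i
      simpa using this
    have hmem : ∀ h : H n (mapx f x), ρ i (hmap f n x Fz * h) ∈
        Submodule.span Om (Set.range (fun k => ρ i (hmap f n x (sn.bN k : H n x)))) := by
      intro h
      have h5 : h ∈ Submodule.span Om (Set.range (hmap f n x)) := by
        rw [hmap_span]; trivial
      induction h5 using Submodule.span_induction with
      | mem y hy =>
        obtain ⟨u, rfl⟩ := hy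
        rw [← map_mul]
        have h6 : Fz * u ∈ N := ⟨u, rfl⟩
        have h7 := congrArg (Submodule.subtype N) (sn.bN.sum_repr ⟨Fz * u, h6⟩)
        rw [map_sum] at h7
        change _ = Fz * u at h7
        rw [← h7, map_sum, map_sum]
        refine Submodule.sum_mem _ fun k _ => ?_
        rw [map_smul, hmap_smul, map_smul]
        exact Submodule.smul_mem _ _ (Submodule.subset_span ⟨k, rfl⟩)
      | zero => rw [mul_zero, map_zero]; exact Submodule.zero_mem _
      | add a c _ _ ha hc => rw [mul_add, map_add]; exact Submodule.add_mem _ ha hc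
      | smul r a _ ha => rw [mul_smul_comm, map_smul]; exact Submodule.smul_mem _ _ ha
    have h5 := hmem h0
    rw [map_mul, hi0, hpol, smul_mul_assoc, one_mul] at h5
    have h6 := Submodule.smul_mem _ (f (F.eval (zl i : PowerSeries KK)))⁻¹ h5
    have h7 : f (F.eval (zl i : PowerSeries KK)) ≠ 0 := fun h =>
      hFi ((injective_iff_map_eq_zero f).1 hf _ h)
    rwa [smul_smul, inv_mul_cancel₀ h7, one_smul] at h6
  let v0 : Basis (Fin m) Om (Module.End Om (Fin (dg i.1.1) → Om)) := Basis.mk hli2 hspan
  have hm : m = dg i.1.1 ^ 2 := by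
    have h5 := Module.finrank_eq_card_basis v0
    rw [Fintype.card_fin] at h5
    rw [← h5, Module.finrank_linearMap]
    simp [pow_two]
  have hv0 : ∀ k, v0 k = ρ i (hmap f n x (sn.bN k : H n x)) := fun k => by
    rw [Basis.mk_apply]
  obtain ⟨σ, hσ1, hσ2⟩ := ulatb_rep f ((ρ i : H n (mapx f x) →+* _).comp (hmap f n x))
    (by intro r a; simp [hmap_smul]) N hN
    (sn.bN.reindex (finCongr hm)) (v0.reindex (finCongr hm)) (by
      intro k
      rw [Basis.reindex_apply, Basis.reindex_apply, hv0]
      rfl)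
  refine ⟨σ, ?_, ?_⟩
  · refine hσ1 _ _ fun u hu => ?_
    apply hmi
    apply h3.1
    funext j
    change ρ j _ = ρ j _
    rw [map_mul, map_mul, hmap_smul, map_smul, hmap_zz, h1]
    by_cases hj : j = i
    · rw [hj, smul_mul_assoc, one_mul]
    · rw [hNj u hu j hj, mul_zero, smul_zero]
  · intro h
    rw [hσ2 h, ulatb_trace_mul]
    rfl
end

end SYM
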