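import Pool.Agent.Lib.MP_b1ea0f_al.Defs4
import Pool.Agent.Lib.MP_b1ea0f_al.ULatA
import Pool.Agent.Lib.MP_b1ea0f_al.ULatB
import Pool.Agent.Lib.MP_b1ea0f_al.UHensel
import Pool.Agent.Lib.MP_b1ea0f_al.UDlog
import Pool.Agent.Lib.MP_b1ea0f_al.TProps
import Pool.Agent.Lib.MP_b1ea0f_al.LChar
import Pool.Agent.Lib.MP_b1ea0f_al.TOmega

/-!
# ULat: LocData and the trace formula

(Abbreviations in this text: OO = PowerSeries KK, LL = LaurentSeries KK, cc = PowerSeries.constantCoeff.) Assembly: `LocData` and the trace formula. `Om` := algebraic closure of `LL`, `f` = composite. `σ_tr` from `trace_aeval` (LChar) for `ρ_i` and `dv = i.1.1` (`f` injective). The formula: `tr` over `LL`, map to `Om` (`tr_map`), `exists_rhoOmega` last clause, `exists_sigma`; `f` factors through the field `LL`.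
-/

/-!
# ULat: LocData and the trace formula

(Abbreviations in this text: OO = PowerSeries KK, LL = LaurentSeries KK, cc = PowerSeries.constantCoeff.) Assembly: `LocData` and the trace formula. `Om` := algebraic closure of `LL`, `f` = composite. `σ_tr` from `trace_aeval` (LChar) for `ρ_i` and `dv = i.1.1` (`f` injective). The formula: `tr` over `LL`, map to `Om` (`tr_map`), `exists_rhoOmega` last clause, `exists_sigma`; `f` factors through the field `LL`.
-/

namespace SYM
open Polynomial Module

private theorem ul_hmap_aeval {k k' : Type} [CommRing k] [CommRing k'] (f : k →+* k') (n : ℕ)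
    (x : J n → kˣ) (g : Fin 3) (p : k[X]) :
    hmap f n x (aeval (gen n x g) p) = aeval (gen n (mapx f x) g) (p.map f) := by
  induction p using Polynomial.induction_on' with
  | add p q hp hq => rw [map_add, map_add, hp, hq, Polynomial.map_add, map_add]
  | monomial m r =>
    rw [Polynomial.map_monomial, aeval_monomial, aeval_monomial, map_mul, map_pow, hmap_gen,
      hmap_algebraMap]

private theorem ul_hmap_hmap {k k' k'' : Type} [CommRing k] [CommRing k'] [CommRing k'']
    (f : k →+* k') (f' : k' →+* k'') (n : ℕ) (x : J n → kˣ) (h : H n x) :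
    hmap f' n (mapx f x) (hmap f n x h) = hmap (f'.comp f) n x h := by
  have hh : h ∈ Algebra.adjoin k (Set.range (gen n x)) := by rw [adjoin_gen]; trivial
  induction hh using Algebra.adjoin_induction with
  | mem y hy =>
    obtain ⟨g, rfl⟩ := hy
    rw [hmap_gen, hmap_gen, hmap_gen]
    rfl
  | algebraMap r =>
    rw [hmap_algebraMap, hmap_algebraMap, hmap_algebraMap]
    rfl
  | add y z _ _ hy hz => rw [map_add, map_add, hy, hz]; exact (map_add _ _ _).symm
  | mul y z _ _ hy hz => rw [map_mul, map_mul, hy, hz]; exact (map_mul _ _ _).symm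

private theorem ul_dg_pos {n : ℕ} {α : Vec n} (hα : α ∈ Rc n) : 0 < dg α := by
  have h := (Finset.mem_filter.1 hα).2.2
  unfold dg
  omega

section
variable {KK : Type} [Field KK] {n : ℕ}

theorem exists_locData [CharZero KK] [IsAlgClosed KK] (hn : HN n) {x : J n → (PowerSeries KK)ˣ} {k : J n}
    (hl : LocHyp n x k) {ι : Type} [Finite ι] (b : Basis ι (PowerSeries KK) (H n x))
    (hr : Nat.card ι = NZ n ^ 2)
    (ω : ((LaurentSeries KK))[X]) (hω : IsOmega (mapx (algebraMap (PowerSeries KK) (LaurentSeries KK)) x) ω) :
    ∃ D : LocData n x k, ∀ h,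
      tr (mapx (algebraMap (PowerSeries KK) (LaurentSeries KK)) x) ω (hmap (algebraMap (PowerSeries KK) (LaurentSeries KK)) n x h) = ∑ i, D.term i h := by
  set f' : LaurentSeries KK →+* AlgebraicClosure (LaurentSeries KK) :=
    algebraMap (LaurentSeries KK) (AlgebraicClosure (LaurentSeries KK)) with hf'
  set g' : PowerSeries KK →+* LaurentSeries KK := algebraMap (PowerSeries KK) (LaurentSeries KK)
    with hg'
  set f : PowerSeries KK →+* AlgebraicClosure (LaurentSeries KK) := f'.comp g' with hf
  have hf'i : Function.Injective f' := f'.injective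
  have hg'i : Function.Injective g' := HahnSeries.ofPowerSeries_injective
  have hfi : Function.Injective f := hf'i.comp hg'i
  choose zl hzl using fun i => exists_zl hn hl i
  obtain ⟨ρ, h1, h2, h3, h4, h5⟩ := exists_rhoOmega hn hl zl hzl
    (AlgebraicClosure (LaurentSeries KK)) f hfi
  choose σ hσ1 hσ2 using fun i => exists_sigma hn hl zl hzl b hr
    (AlgebraicClosure (LaurentSeries KK)) f hfi ρ h1 h3 i
  have : CharZero (AlgebraicClosure (LaurentSeries KK)) := by
    have hi : Function.Injective (f.comp (PowerSeries.C : KK →+* PowerSeries KK)) :=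
      RingHom.injective _
    exact charZero_of_injective_ringHom hi
  refine ⟨{ hl := hl
            zl := zl
            zl_pow := fun i => (hzl i).1
            zl_cc := fun i => (hzl i).2
            σ := σ
            σ_zz := hσ1
            σ_tr := ?_ }, ?_⟩
  · intro i g p
    apply hfi
    rw [hσ2, ul_hmap_aeval, ← Polynomial.aeval_algHom_apply]
    have ha : IsStar n (mapx f x) (fun g => ρ i (gen n (mapx f x) g)) :=
      (isStar_gen n (mapx f x)).map (ρ i)
    have ht := trace_aeval ha g (p.map f)
    rw [ht, map_mul, map_natCast, map_sum]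
    congr 1
    refine Finset.sum_congr rfl fun j _ => ?_
    rw [map_mul, map_intCast, h2 i]
    congr 1
    exact Polynomial.eval_map_apply f _
  · intro h
    apply hf'i
    rw [← tr_map hn]
    have hω' : IsOmega (mapx f x) (ω.map f') := hω.map f'
    have h6 := h5 (ω.map f') hω' (hmap f n x h)
    have h7 : tr (mapx f' (mapx g' x)) (ω.map f') (hmap f' n (mapx g' x) (hmap g' n x h)) =
        tr (mapx f x) (ω.map f') (hmap f n x h) := by
      rw [ul_hmap_hmap]
      rfl
    rw [h7, h6, map_sum]
    refine Finset.sum_congr rfl fun i _ => ?_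
    have hd : ((dg i.1.1 : ℕ) : AlgebraicClosure (LaurentSeries KK)) ≠ 0 :=
      Nat.cast_ne_zero.2 (ul_dg_pos i.2.1).ne'
    simp only [LocData.term]
    rw [map_div₀, map_mul, map_pow, map_natCast]
    have h8 : f' (g' (Matrix.trace (σ i h))) = (dg i.1.1 : AlgebraicClosure (LaurentSeries KK)) *
      LinearMap.trace (AlgebraicClosure (LaurentSeries KK)) _ (ρ i (hmap f n x h)) := hσ2 i h
    rw [h8]
    have h9 : f' (g' (schur i.1.1 x (zl i))) = f (schur i.1.1 x (zl i)) := rfl
    rw [h9, pow_two, mul_assoc, mul_div_mul_left _ _ hd]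
end

end SYM
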