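import Pool.Agent.Lib.MP_b1ea0f_al.Defs4
import Pool.Agent.Lib.MP_b1ea0f_al.NDA
import Pool.Agent.Lib.MP_b1ea0f_al.NBlock
import Pool.Agent.Lib.MP_b1ea0f_al.UInt
import Pool.Agent.Lib.MP_b1ea0f_al.LDer
import Pool.Agent.Lib.MP_b1ea0f_al.LIdem
import Pool.Agent.Lib.MP_b1ea0f_al.WSchur
import Pool.Agent.Lib.MP_b1ea0f_al.UFrob

/-!
# UNon: non-degeneracy of one block

(Abbreviations in this text: OO = PowerSeries KK, LL = LaurentSeries KK, cc = PowerSeries.constantCoeff.) Per block. `T (p(zz) h) = ∑_{i : ζ_i = z0} term i h` (`σ_i (aeval zz p) = p(zl i) • 1`), so `Tb (e h̄) = cc` of it. Case `unit`: `= ∑_{j ∈ W0} c_j tr ρ_j(h̄)`, `c_j = 1/(d_i cc schur_i) ≠ 0` (`block_value_unit`, `hr`); `nondeg_A` with `hdim`, `w.ρ j e = p̄(z0_j)`: `1` on `W0`, `0` else.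
Cases `leg`, `A2`: `y := zz - zl_β(0)`: choose in `H n x` the element `zz - zl β`, `T((zz - zl β) p(zz) h) = ∑_{i ≠ β} (zl i - zl β) term i h`, value `c_j tr ρ_j(h̄)`, `c_j ≠ 0` (`h3`). `y e` nilpotent (`e H` = generalised eigenspace). `nondeg_one` / `nondeg_two`; `hid` from `der_inner` + `ker_idem` (`CharZero` case)
with `π := π' ∘ id : H → C`, `hdist`, `hip`. Dimensions: `hdim`, `hdg`. (`w.ρ j e` for other `j`: `ρ_j(zz)` is a scalar `c ≠ z0`, and `e` kills..: `e` is in the generalised `z0`-eigenspace so `ρ_j(e) = 0`.)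
-/

namespace SYM
open Polynomial Module

section
variable {KK : Type} [Field KK] {n : ℕ}

private theorem aeval_central {R A : Type*} [CommRing R] [Ring A] [Algebra R A] {z : A}
    (hz : ∀ y, z * y = y * z) (q : R[X]) (y : A) : aeval z q * y = y * aeval z q := by
  have h0 : Commute z y := hz y
  induction q using Polynomial.induction_on' with
  | add p q hp hq => rw [map_add, add_mul, mul_add, hp, hq]
  | monomial k a =>
    rw [aeval_monomial, mul_assoc, (h0.pow_left k).eq, ← mul_assoc, Algebra.commutes, mul_assoc]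

private theorem hmap_aeval {k k' : Type*} [CommRing k] [CommRing k'] (f : k →+* k')
    (x : J n → kˣ) (a : H n x) (q : k[X]) :
    hmap f n x (aeval a q) = aeval (hmap f n x a) (q.map f) := by
  rw [aeval_def, aeval_def, eval₂_map, hom_eval₂]
  congr 1
  ext r
  exact hmap_algebraMap f n x r

private theorem sig_aeval {x : J n → (PowerSeries KK)ˣ} {k : J n} (D : LocData n x k)
    (i : Idx (mapx (PowerSeries.constantCoeff (R := KK)) x)) (q : (PowerSeries KK)[X])
    (h : H n x) :
    Matrix.trace (D.σ i (aeval (zz n x) q * h)) =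
      q.eval (D.zl i : PowerSeries KK) * Matrix.trace (D.σ i h) := by
  rw [map_mul, ← Polynomial.aeval_algHom_apply, D.σ_zz, ← Algebra.algebraMap_eq_smul_one,
    Polynomial.aeval_algebraMap_apply, Polynomial.coe_aeval_eq_eval, ← Algebra.smul_def,
    Matrix.trace_smul, smul_eq_mul]

private theorem term_mul {x : J n → (PowerSeries KK)ˣ} {k : J n} (D : LocData n x k)
    (i : Idx (mapx (PowerSeries.constantCoeff (R := KK)) x)) (q : (PowerSeries KK)[X])
    (h : H n x) :
    D.term i (aeval (zz n x) q * h) =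
      algebraMap (PowerSeries KK) (LaurentSeries KK) (q.eval (D.zl i : PowerSeries KK)) *
        D.term i h := by
  unfold LocData.term
  rw [sig_aeval, map_mul, mul_div_assoc]

private theorem sum_single {r : ℕ} (j : Fin r) (F : Fin r → KK) :
    ∑ i, (((Pi.single j 1 : Fin r → ℕ) i : ℕ) : KK) * F i = F j := by
  rw [Finset.sum_eq_single j]
  · simp
  · intro b _ hb
    rw [Pi.single_eq_of_ne hb]
    simp
  · intro h
    exact absurd (Finset.mem_univ j) h

private theorem dg_pos {α : Vec n} (hα : α ∈ Rc n) : 0 < dg α := by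
  have h := (Finset.mem_filter.1 hα).2.2
  unfold dg
  omega

private theorem sum_two {ι M : Type*} [Fintype ι] [AddCommMonoid M] (P : ι → Prop)
    [DecidablePred P] {a b : ι} (hab : a ≠ b) (hP : ∀ i, P i ↔ i = a ∨ i = b) (F : ι → M) :
    ∑ i, (if P i then F i else 0) = F a + F b := by
  classical
  rw [← Finset.sum_filter]
  have h1 : Finset.univ.filter P = {a, b} := by
    ext i
    simp [hP]
  rw [h1, Finset.sum_pair hab]

private theorem sum_three {ι M : Type*} [Fintype ι] [AddCommMonoid M] (P : ι → Prop)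
    [DecidablePred P] {a b c : ι} (hab : a ≠ b) (hac : a ≠ c) (hbc : b ≠ c)
    (hP : ∀ i, P i ↔ i = a ∨ i = b ∨ i = c) (F : ι → M) :
    ∑ i, (if P i then F i else 0) = F a + (F b + F c) := by
  classical
  rw [← Finset.sum_filter]
  have h1 : Finset.univ.filter P = insert a {b, c} := by
    ext i
    simp [hP]
  rw [h1, Finset.sum_insert (by simp [hab, hac]), Finset.sum_pair hbc]

/-- division by a power series with nonzero constant coefficient -/
private theorem div_exists (t s : PowerSeries KK) (d : ℕ) (hd : (d : KK) ≠ 0)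
    (hs : PowerSeries.constantCoeff (R := KK) s ≠ 0) :
    ∃ f : PowerSeries KK, algebraMap (PowerSeries KK) (LaurentSeries KK) f =
      algebraMap (PowerSeries KK) (LaurentSeries KK) t / ((d : LaurentSeries KK) ^ 2 *
          algebraMap (PowerSeries KK) (LaurentSeries KK) s) := by
  have h1 : PowerSeries.constantCoeff (R := KK) ((d : PowerSeries KK) ^ 2 * s) ≠ 0 := by
    rw [map_mul, map_pow, map_natCast]
    exact mul_ne_zero (pow_ne_zero _ hd) hs
  refine ⟨t * ((d : PowerSeries KK) ^ 2 * s)⁻¹, ?_⟩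
  have h2 := congrArg (algebraMap (PowerSeries KK) (LaurentSeries KK))
    (PowerSeries.mul_inv_cancel _ h1)
  rw [map_mul, map_mul, map_pow, map_natCast, map_one] at h2
  rw [map_mul, div_eq_mul_inv, eq_inv_of_mul_eq_one_right h2]

private theorem unit_exists [CharZero KK] {x : J n → (PowerSeries KK)ˣ} {k : J n}
    (D : LocData n x k) (i : Idx (mapx (PowerSeries.constantCoeff (R := KK)) x)) (h : H n x)
    (hu : (PowerSeries.constantCoeff (R := KK)) (schur i.1.1 x (D.zl i)) ≠ 0) :
    ∃ f : PowerSeries KK, algebraMap (PowerSeries KK) (LaurentSeries KK) f = D.term i h :=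
  div_exists _ _ _ (Nat.cast_ne_zero.2 (dg_pos i.2.1).ne') hu

private theorem pole_exists [CharZero KK] {x : J n → (PowerSeries KK)ˣ} {k : J n}
    (D : LocData n x k) (i β : Idx (mapx (PowerSeries.constantCoeff (R := KK)) x)) (h : H n x)
    (hzz : i.1.2 = β.1.2)
    (h0 : (PowerSeries.constantCoeff (R := KK)) (schur i.1.1 x (D.zl i)) = 0)
    (h1 : D.res i ≠ 0) :
    ∃ f : PowerSeries KK, algebraMap (PowerSeries KK) (LaurentSeries KK) f =
      algebraMap (PowerSeries KK) (LaurentSeries KK) ((D.zl i : (PowerSeries KK)) - D.zl β) *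
        D.term i h := by
  obtain ⟨s, hs⟩ := PowerSeries.X_dvd_iff.2 h0
  have hcc : ∀ j : Idx (mapx (PowerSeries.constantCoeff (R := KK)) x),
      PowerSeries.constantCoeff (R := KK) (D.zl j : PowerSeries KK) = (j.1.2 : KK) := fun j =>
    congrArg (fun u : KKˣ => (u : KK)) (D.zl_cc j)
  have h2 : PowerSeries.constantCoeff (R := KK) ((D.zl i : (PowerSeries KK)) - D.zl β) = 0 := by
    rw [map_sub, hcc, hcc, hzz, sub_self]
  obtain ⟨v, hv⟩ := PowerSeries.X_dvd_iff.2 h2
  have hs0 : PowerSeries.constantCoeff (R := KK) s ≠ 0 := by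
    intro hc
    apply h1
    unfold LocData.res
    have h3 : PowerSeries.coeff 1 (PowerSeries.X * s) = PowerSeries.coeff 0 s :=
      PowerSeries.coeff_succ_X_mul 0 s
    rw [hs, h3, PowerSeries.coeff_zero_eq_constantCoeff_apply, hc, mul_zero]
  obtain ⟨f, hf⟩ := div_exists (v * Matrix.trace (D.σ i h)) s (dg i.1.1)
    (Nat.cast_ne_zero.2 (dg_pos i.2.1).ne') hs0
  refine ⟨f, ?_⟩
  have hX : algebraMap (PowerSeries KK) (LaurentSeries KK) PowerSeries.X ≠ 0 := by
    rw [Ne, map_eq_zero_iff _ (IsFractionRing.injective (PowerSeries KK) (LaurentSeries KK))]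
    exact PowerSeries.X_ne_zero
  rw [hf, hv]
  unfold LocData.term
  rw [hs]
  simp only [map_mul]
  rw [mul_left_comm (_ ^ 2) _ _, mul_assoc, ← mul_div_assoc, ← mul_div_assoc,
    mul_div_mul_left _ _ hX]

open Classical in
/-- the value of `T` -/
private theorem T_val {x : J n → (PowerSeries KK)ˣ} {k : J n}
    (D : LocData n x k) (z0 : KKˣ)
    (T : H n x →ₗ[(PowerSeries KK)] (PowerSeries KK))
    (hT : ∀ h, algebraMap (PowerSeries KK) (LaurentSeries KK) (T h) = ∑ i, D.term i h)
    (p : (PowerSeries KK)[X]) (hp : ∀ i : Idx (mapx (PowerSeries.constantCoeff (R := KK)) x),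
      (i.1.2 = z0 → p.eval (D.zl i : (PowerSeries KK)) = 1) ∧
        (i.1.2 ≠ z0 → p.eval (D.zl i : (PowerSeries KK)) = 0)) (q : (PowerSeries KK)[X])
    (h : H n x) :
    algebraMap (PowerSeries KK) (LaurentSeries KK)
        (T (aeval (zz n x) p * (aeval (zz n x) q * h))) =
      ∑ i : Idx (mapx (PowerSeries.constantCoeff (R := KK)) x), if i.1.2 = z0 then
        algebraMap (PowerSeries KK) (LaurentSeries KK) (q.eval (D.zl i : PowerSeries KK)) *
          D.term i h else 0 := by
  rw [hT]
  refine Finset.sum_congr rfl fun i _ => ?_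
  rw [term_mul, term_mul]
  split_ifs with hi
  · rw [(hp i).1 hi, map_one, one_mul]
  · rw [(hp i).2 hi, map_zero, zero_mul]

open Classical in
theorem block_nondeg [CharZero KK] [IsAlgClosed KK] (hn : HN n) {x : J n → (PowerSeries KK)ˣ} {k : J n}
    (D : LocData n x k) [FiniteDimensional KK (H n (mapx (PowerSeries.constantCoeff (R := KK)) x))]
    (w : Wed KK (H n (mapx (PowerSeries.constantCoeff (R := KK)) x))) (z0 : KKˣ) (hb : BlockCase D w z0)
    (hdim : finrank KK (Module.End.maxGenEigenspace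
      (LinearMap.mulLeft KK (zz n (mapx (PowerSeries.constantCoeff (R := KK)) x))) (z0 : KK)) =
      ∑ i : Idx (mapx (PowerSeries.constantCoeff (R := KK)) x), if i.1.2 = z0 then dg i.1.1 ^ 2 else 0)
    (T : H n x →ₗ[(PowerSeries KK)] (PowerSeries KK)) (Tb : H n (mapx (PowerSeries.constantCoeff (R := KK)) x) →ₗ[KK] KK)
    (hTb : ∀ h, Tb (hmap (PowerSeries.constantCoeff (R := KK)) n x h) = (PowerSeries.constantCoeff (R := KK)) (T h))
    (hTc : ∀ h h', T (h * h') = T (h' * h))
    (hT : ∀ h, algebraMap (PowerSeries KK) (LaurentSeries KK) (T h) = ∑ i, D.term i h)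
    (p : (PowerSeries KK)[X]) (hp : ∀ i : Idx (mapx (PowerSeries.constantCoeff (R := KK)) x),
      (i.1.2 = z0 → p.eval (D.zl i : (PowerSeries KK)) = 1) ∧ (i.1.2 ≠ z0 → p.eval (D.zl i : (PowerSeries KK)) = 0))
    (e : H n (mapx (PowerSeries.constantCoeff (R := KK)) x)) (he : e = hmap (PowerSeries.constantCoeff (R := KK)) n x (aeval (zz n x) p))
    (he1 : e * e = e) (he2 : LinearMap.range (LinearMap.mulLeft KK e) =
      Module.End.maxGenEigenspace (LinearMap.mulLeft KK (zz n (mapx (PowerSeries.constantCoeff (R := KK)) x))) (z0 : KK))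
    (h : H n (mapx (PowerSeries.constantCoeff (R := KK)) x)) (hh : ∀ h', Tb (e * h * h') = 0) : e * h = 0 := by
  have hsurj := hmap_cc_surjective (n := n) x
  have hec : ∀ h, e * h = h * e := by
    intro h
    obtain ⟨h', rfl⟩ := hsurj h
    rw [he, ← map_mul, ← map_mul, aeval_central (zz_comm n x)]
  -- traces
  have htr : ∀ h h', Tb (h * h') = Tb (h' * h) := by
    intro a b
    obtain ⟨a', rfl⟩ := hsurj a
    obtain ⟨b', rfl⟩ := hsurj b
    rw [← map_mul, ← map_mul, hTb, hTb, hTc]
  -- scalars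
  have hsc : ∀ j, ∃ c : KK, w.ρ j (zz n _) = c • 1 := fun j =>
    central_scalar (w.ρ j) (w.surj_one j) _ (zz_comm n _)
  -- e is in the generalised eigenspace
  have hgen : ∃ N : ℕ, (zz n (mapx (PowerSeries.constantCoeff (R := KK)) x) -
      algebraMap KK _ (z0 : KK)) ^ N * e = 0 := by
    have h1 : e ∈ Module.End.maxGenEigenspace
        (LinearMap.mulLeft KK (zz n (mapx (PowerSeries.constantCoeff (R := KK)) x))) (z0 : KK) := by
      rw [← he2]
      exact ⟨1, by simp⟩
    rw [Module.End.mem_maxGenEigenspace] at h1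
    obtain ⟨N, hN⟩ := h1
    refine ⟨N, ?_⟩
    have h2 : LinearMap.mulLeft KK (zz n (mapx (PowerSeries.constantCoeff (R := KK)) x)) -
        (z0 : KK) • (1 : Module.End KK _) = LinearMap.mulLeft KK
          (zz n (mapx (PowerSeries.constantCoeff (R := KK)) x) - algebraMap KK _ (z0 : KK)) := by
      ext v
      simp [sub_mul, Algebra.smul_def]
    rw [h2, LinearMap.pow_mulLeft, LinearMap.mulLeft_apply] at hN
    exact hN
  have hrho0 : ∀ j, w.ρ j (zz n _) ≠ (z0 : KK) • 1 → w.ρ j e = 0 := by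
    intro j hj
    obtain ⟨c, hc⟩ := hsc j
    obtain ⟨N, hN⟩ := hgen
    have hcz : c - (z0 : KK) ≠ 0 := by
      intro h0
      apply hj
      rw [hc, sub_eq_zero.1 h0]
    have h1 := congrArg (w.ρ j) hN
    rw [map_mul, map_pow, map_sub, hc, AlgHom.commutes, map_zero,
      Algebra.algebraMap_eq_smul_one] at h1
    have h2 : c • (1 : Module.End KK (Fin (w.d j) → KK)) - (z0 : KK) • 1 = (c - (z0 : KK)) • 1 :=
      (sub_smul c (z0 : KK) (1 : Module.End KK (Fin (w.d j) → KK))).symm
    rw [h2, _root_.smul_pow, one_pow, smul_mul_assoc, one_mul] at h1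
    exact (smul_eq_zero.1 h1).resolve_left (pow_ne_zero _ hcz)
  have heb : e = aeval (zz n (mapx (PowerSeries.constantCoeff (R := KK)) x))
      (p.map (PowerSeries.constantCoeff (R := KK))) := by
    rw [he, hmap_aeval, hmap_zz]
  have hrho1 : ∀ (i : Idx (mapx (PowerSeries.constantCoeff (R := KK)) x)), i.1.2 = z0 →
      ∀ j, w.ρ j (zz n _) = (z0 : KK) • 1 → w.ρ j e = 1 := by
    intro i hi j hj
    rw [heb, ← Polynomial.aeval_algHom_apply, hj, ← Algebra.algebraMap_eq_smul_one,
      Polynomial.aeval_algebraMap_apply, Polynomial.coe_aeval_eq_eval]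
    have h1 : (p.map (PowerSeries.constantCoeff (R := KK))).eval (z0 : KK) = 1 := by
      have h2 : PowerSeries.constantCoeff (R := KK) (D.zl i : PowerSeries KK) = (z0 : KK) := by
        have h3 := congrArg (fun u : KKˣ => (u : KK)) (D.zl_cc i)
        rw [hi] at h3
        exact h3
      rw [← h2, Polynomial.eval_map, Polynomial.eval₂_at_apply, (hp i).1 hi, map_one]
    rw [h1, map_one]
  have hyn : IsNilpotent ((zz n (mapx (PowerSeries.constantCoeff (R := KK)) x) -
      algebraMap KK _ (z0 : KK)) * e) := by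
    obtain ⟨N, hN⟩ := hgen
    refine ⟨N + 1, ?_⟩
    have hcm : Commute (zz n (mapx (PowerSeries.constantCoeff (R := KK)) x) -
      algebraMap KK _ (z0 : KK)) e := (hec _).symm
    rw [hcm.mul_pow, pow_succ e, pow_succ, ← mul_assoc]
    have h3 : (zz n (mapx (PowerSeries.constantCoeff (R := KK)) x) -
      algebraMap KK _ (z0 : KK)) ^ N * (zz n (mapx (PowerSeries.constantCoeff (R := KK)) x) -
      algebraMap KK _ (z0 : KK)) * e ^ N * e = (zz n (mapx (PowerSeries.constantCoeff (R := KK)) x) -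
      algebraMap KK _ (z0 : KK)) * ((zz n (mapx (PowerSeries.constantCoeff (R := KK)) x) -
      algebraMap KK _ (z0 : KK)) ^ N * e) * e ^ N := by
      rw [mul_assoc _ (e ^ N) e, ← pow_succ e, pow_succ' e, ← pow_succ, pow_succ' _ N]
      simp only [mul_assoc]
    rw [h3, hN, mul_zero, zero_mul]
  have hfr : finrank KK (LinearMap.range (LinearMap.mulLeft KK e)) =
      ∑ i : Idx (mapx (PowerSeries.constantCoeff (R := KK)) x),
        if i.1.2 = z0 then dg i.1.1 ^ 2 else 0 := by
    rw [he2, hdim]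
  -- the value of `Tb` on `y e h`
  have hval : ∀ (β : Idx (mapx (PowerSeries.constantCoeff (R := KK)) x)), β.1.2 = z0 →
      ∀ h : H n x, ∃ f : PowerSeries KK,
        Tb ((zz n (mapx (PowerSeries.constantCoeff (R := KK)) x) - algebraMap KK _ (z0 : KK)) * e *
          hmap (PowerSeries.constantCoeff (R := KK)) n x h) =
            PowerSeries.constantCoeff (R := KK) f ∧
        algebraMap (PowerSeries KK) (LaurentSeries KK) f =
          ∑ i : Idx (mapx (PowerSeries.constantCoeff (R := KK)) x), if i.1.2 = z0 then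
            algebraMap (PowerSeries KK) (LaurentSeries KK)
              ((D.zl i : PowerSeries KK) - D.zl β) * D.term i h else 0 := by
    intro β hβ h
    refine ⟨T (aeval (zz n x) p * (aeval (zz n x) (X - C (D.zl β : PowerSeries KK)) * h)), ?_, ?_⟩
    · have h2 : PowerSeries.constantCoeff (R := KK) (D.zl β : PowerSeries KK) = (z0 : KK) := by
        have h3 := congrArg (fun u : KKˣ => (u : KK)) (D.zl_cc β)
        rw [hβ] at h3
        exact h3
      have h4 : hmap (PowerSeries.constantCoeff (R := KK)) n x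
          (aeval (zz n x) p * (aeval (zz n x) (X - C (D.zl β : PowerSeries KK)) * h)) =
          (zz n (mapx (PowerSeries.constantCoeff (R := KK)) x) - algebraMap KK _ (z0 : KK)) * e *
          hmap (PowerSeries.constantCoeff (R := KK)) n x h := by
        rw [map_mul, map_mul, ← he, hmap_aeval, hmap_zz, ← mul_assoc, hec,
          Polynomial.map_sub, Polynomial.map_X, Polynomial.map_C, h2, map_sub, aeval_X, aeval_C]
      rw [← h4, hTb]
    · rw [T_val D z0 T hT p hp]
      simp only [eval_sub, eval_X, eval_C]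
  have hycomm : ∀ h, (zz n (mapx (PowerSeries.constantCoeff (R := KK)) x) -
      algebraMap KK _ (z0 : KK)) * h = h * (zz n (mapx (PowerSeries.constantCoeff (R := KK)) x) -
      algebraMap KK _ (z0 : KK)) := by
    intro h
    rw [sub_mul, mul_sub, zz_comm, Algebra.commutes]
  have hinj : Function.Injective (algebraMap (PowerSeries KK) (LaurentSeries KK)) :=
    IsFractionRing.injective (PowerSeries KK) (LaurentSeries KK)
  -- value at a pole
  have hpv : ∀ (i β : Idx (mapx (PowerSeries.constantCoeff (R := KK)) x)) (j : Fin w.r)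
      (h : H n x) (f : PowerSeries KK), i.1.2 = β.1.2 →
      D.Red w i (Pi.single j 1) →
      PowerSeries.constantCoeff (R := KK) (schur i.1.1 x (D.zl i)) = 0 → D.res i ≠ 0 →
      algebraMap (PowerSeries KK) (LaurentSeries KK) f =
        algebraMap (PowerSeries KK) (LaurentSeries KK) ((D.zl i : (PowerSeries KK)) - D.zl β) *
        D.term i h → PowerSeries.constantCoeff (R := KK) f =
        ((PowerSeries.coeff 1 (D.zl i : (PowerSeries KK)) -
          PowerSeries.coeff 1 (D.zl β : (PowerSeries KK))) / D.res i) * LinearMap.trace KK _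
            (w.ρ j (hmap (PowerSeries.constantCoeff (R := KK)) n x h)) := by
    intro i β j h f hz hr h0 h1 hf
    have hd : (dg i.1.1 : KK) ≠ 0 := Nat.cast_ne_zero.2 (dg_pos i.2.1).ne'
    rw [block_value_pole D i β h hz h0 h1 f hf, hr h, sum_single]
    field_simp
  cases hb with
  | unit f hd hr hu =>
    have hc : ∀ j : {j : Fin w.r // w.ρ j (zz n _) = (z0 : KK) • 1},
        w.ρ j.1 e = 1 := fun j => hrho1 (f.symm j).1 (f.symm j).2 j.1 j.2
    let c : Fin w.r → KK := fun j => if hj : w.ρ j (zz n _) = (z0 : KK) • 1 then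
      1 / ((dg (f.symm ⟨j, hj⟩).1.1.1 : KK) * PowerSeries.constantCoeff (R := KK)
        (schur (f.symm ⟨j, hj⟩).1.1.1 x (D.zl (f.symm ⟨j, hj⟩).1))) else 0
    have hcf : ∀ i, c (f i).1 = 1 / ((dg i.1.1.1 : KK) * PowerSeries.constantCoeff (R := KK)
        (schur i.1.1.1 x (D.zl i.1))) := by
      intro i
      have h1 : c (f i).1 = 1 / ((dg (f.symm (f i)).1.1.1 : KK) *
        PowerSeries.constantCoeff (R := KK)
        (schur (f.symm (f i)).1.1.1 x (D.zl (f.symm (f i)).1))) := dif_pos (f i).2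
      rw [h1, Equiv.symm_apply_apply]
    refine nondeg_A w e he1 hec (Finset.univ.filter fun j => w.ρ j (zz n _) = (z0 : KK) • 1)
      ?_ ?_ c ?_ Tb ?_ ?_ h hh
    · intro j hj
      exact hc ⟨j, (Finset.mem_filter.1 hj).2⟩
    · intro j hj
      exact hrho0 j fun h0 => hj (Finset.mem_filter.2 ⟨Finset.mem_univ _, h0⟩)
    · intro j hj
      have hj' := (Finset.mem_filter.1 hj).2
      obtain ⟨i, hi⟩ := f.surjective ⟨j, hj'⟩
      have h1 := hcf i
      rw [hi] at h1
      rw [h1]
      exact one_div_ne_zero (mul_ne_zero (Nat.cast_ne_zero.2 (dg_pos i.1.2.1).ne') (hu i))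
    · intro hb
      obtain ⟨h', rfl⟩ := hsurj hb
      have hg : ∀ i : {i : Idx (mapx (PowerSeries.constantCoeff (R := KK)) x) // i.1.2 = z0},
          ∃ g : PowerSeries KK, algebraMap (PowerSeries KK) (LaurentSeries KK) g =
            D.term i.1 h' := fun i => unit_exists D i.1 h' (hu i)
      choose g hg using hg
      have h1 := T_val D z0 T hT p hp 1 h'
      rw [← Finset.sum_filter, Finset.sum_subtype (Finset.univ.filter fun i :
        Idx (mapx (PowerSeries.constantCoeff (R := KK)) x) => i.1.2 = z0)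
        (p := fun i => i.1.2 = z0) (by simp)] at h1
      simp only [eval_one, map_one, one_mul, ← hg] at h1
      rw [← map_sum] at h1
      have h2 := hinj h1
      rw [he, ← map_mul, hTb, h2, map_sum]
      rw [Finset.sum_subtype (Finset.univ.filter fun j => w.ρ j (zz n _) = (z0 : KK) • 1)
        (p := fun j => w.ρ j (zz n _) = (z0 : KK) • 1) (by simp), ← Equiv.sum_comp f]
      refine Finset.sum_congr rfl fun i _ => ?_
      have hd0 : (dg i.1.1.1 : KK) ≠ 0 := Nat.cast_ne_zero.2 (dg_pos i.1.2.1).ne'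
      have hu0 := hu i
      rw [hcf, block_value_unit D i.1 h' (hu i) _ (hg i), hr i h', sum_single]
      field_simp
    · rw [hfr, ← Finset.sum_filter, Finset.sum_subtype (Finset.univ.filter fun i :
        Idx (mapx (PowerSeries.constantCoeff (R := KK)) x) => i.1.2 = z0)
        (p := fun i => i.1.2 = z0) (by simp),
        Finset.sum_subtype (Finset.univ.filter fun j => w.ρ j (zz n _) = (z0 : KK) • 1)
        (p := fun j => w.ρ j (zz n _) = (z0 : KK) • 1) (by simp), ← Equiv.sum_comp f]
      refine le_of_eq (Finset.sum_congr rfl fun i _ => ?_)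
      rw [hd]
  | leg γ β j hne hG hW hdg hd hrγ hrβ h0γ h0β h1 h2 h3 =>
    have hγ : γ.1.2 = z0 := (hG γ).2 (Or.inl rfl)
    have hβ : β.1.2 = z0 := (hG β).2 (Or.inr rfl)
    refine nondeg_one w e he1 hec j (hrho1 γ hγ j ((hW j).2 rfl))
      (fun i hi => hrho0 i fun h0 => hi ((hW i).1 h0)) Tb htr
      (zz n (mapx (PowerSeries.constantCoeff (R := KK)) x) - algebraMap KK _ (z0 : KK)) hycomm hyn
      ((PowerSeries.coeff 1 (D.zl γ : (PowerSeries KK)) -
          PowerSeries.coeff 1 (D.zl β : (PowerSeries KK))) / D.res γ)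
      (div_ne_zero (sub_ne_zero.2 h3) h1) ?_ ?_ h hh
    · intro hb
      obtain ⟨h', rfl⟩ := hsurj hb
      obtain ⟨f, hf1, hf2⟩ := hval β hβ h'
      rw [hf1]
      rw [sum_two (fun i : Idx (mapx (PowerSeries.constantCoeff (R := KK)) x) => i.1.2 = z0)
        hne hG, sub_self, map_zero, zero_mul, add_zero] at hf2
      exact hpv γ β j h' f (hγ.trans hβ.symm) hrγ h0γ h1 hf2
    · rw [hfr, sum_two (fun i : Idx (mapx (PowerSeries.constantCoeff (R := KK)) x) => i.1.2 = z0)
        hne hG, hd, hdg, two_mul]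
  | A2 γ δ β j j' hjj hne hne' hne'' hG hW hdg hd hd' hrγ hrδ hrβ h0γ h0δ h0β h1 h2 h2' h3 h3'
      hdist hip hip' =>
    have hγ : γ.1.2 = z0 := (hG γ).2 (Or.inl rfl)
    have hδ : δ.1.2 = z0 := (hG δ).2 (Or.inr (Or.inl rfl))
    have hβ : β.1.2 = z0 := (hG β).2 (Or.inr (Or.inr rfl))
    have h1' : D.res δ ≠ 0 := by
      have h5 : D.res δ = D.res γ := by
        have h6 := h2.symm.trans h2'
        exact (neg_injective h6).symm
      rw [h5]
      exact h1
    refine nondeg_two w e he1 hec j j' hjj (hrho1 γ hγ j ((hW j).2 (Or.inl rfl)))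
      (hrho1 γ hγ j' ((hW j').2 (Or.inr rfl)))
      (fun i hi hi' => hrho0 i fun h0 => ((hW i).1 h0).elim hi hi') Tb htr
      (zz n (mapx (PowerSeries.constantCoeff (R := KK)) x) - algebraMap KK _ (z0 : KK)) hycomm hyn
      ((PowerSeries.coeff 1 (D.zl γ : (PowerSeries KK)) -
          PowerSeries.coeff 1 (D.zl β : (PowerSeries KK))) / D.res γ)
      ((PowerSeries.coeff 1 (D.zl δ : (PowerSeries KK)) -
          PowerSeries.coeff 1 (D.zl β : (PowerSeries KK))) / D.res δ)
      (div_ne_zero (sub_ne_zero.2 h3) h1) (div_ne_zero (sub_ne_zero.2 h3') h1') ?_ ?_ ?_ h hh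
    · intro hb
      obtain ⟨h', rfl⟩ := hsurj hb
      obtain ⟨f, hf1, hf2⟩ := hval β hβ h'
      obtain ⟨f1, hf3⟩ := pole_exists D γ β h' (hγ.trans hβ.symm) h0γ h1
      obtain ⟨f2, hf4⟩ := pole_exists D δ β h' (hδ.trans hβ.symm) h0δ h1'
      rw [hf1]
      rw [sum_three (fun i : Idx (mapx (PowerSeries.constantCoeff (R := KK)) x) => i.1.2 = z0)
        hne hne' hne'' hG, sub_self, map_zero, zero_mul, add_zero, ← hf3, ← hf4, ← map_add] at hf2
      rw [hinj hf2, map_add, hpv γ β j h' f1 (hγ.trans hβ.symm) hrγ h0γ h1 hf3,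
        hpv δ β j' h' f2 (hδ.trans hβ.symm) hrδ h0δ h1' hf4]
    · intro C _ _ _ π hπ i hi ρ hρ u hu
      have hx : ∀ g, Function.Injective fun j =>
          mapx (PowerSeries.constantCoeff (R := KK)) x ⟨g, j⟩ := fun g a b hab => hdist g a b hab
      have hρs : Function.Surjective ρ := by
        intro m
        obtain ⟨v, hv⟩ := w.surj_one i m
        exact ⟨π v, (hρ v).trans hv⟩
      refine ker_idem (w.pos i) ρ hρs ?_ u hu
      intro dd hdd
      refine der_inner hx π hπ (w.pos i) ρ hρs z0 ?_ ?_ (Or.inl inferInstance) dd hdd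
      · rw [hρ, (hW i).2 hi]
      · simp only [hρ]
        rcases hi with rfl | rfl
        · exact hip
        · exact hip'
    · rw [hfr, sum_three (fun i : Idx (mapx (PowerSeries.constantCoeff (R := KK)) x) =>
        i.1.2 = z0) hne hne' hne'' hG, hd, hd', hdg, add_assoc]
end

end SYM
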