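import Pool.Agent.Lib.MP_b1ea0f_al.Defs4

/-!
# UTilde: interpolation polynomial of a block

(Abbreviations in this text: OO = PowerSeries KK, LL = LaurentSeries KK, cc = PowerSeries.constantCoeff.) `F = ∏_{i : cc(ζ i) ≠ z0} (T - ζ i)`, `G = ∏_{i : cc (ζ i) = z0} (T - ζ i)` in `OO[T]`: coprime modulo the maximal ideal, monic, so comaximal: `U F + V G = 1` (Nakayama for `OO[T]/(F,G)`, a finite module since `F` is monic; or resultant unit). `p = U F`.
-/

namespace SYM
open Polynomial Module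

section
variable {KK : Type} [Field KK] {n : ℕ}


theorem exists_etilde {I : Type} [Finite I] (ζ : I → (PowerSeries KK)) (z0 : KK) :
    ∃ p : (PowerSeries KK)[X], ∀ i, ((PowerSeries.constantCoeff (R := KK)) (ζ i) = z0 → p.eval (ζ i) = 1) ∧ ((PowerSeries.constantCoeff (R := KK)) (ζ i) ≠ z0 → p.eval (ζ i) = 0) := by
  classical
  have := Fintype.ofFinite I
  set S : Finset I := Finset.univ.filter fun i => PowerSeries.constantCoeff (R := KK) (ζ i) ≠ z0
  set T : Finset I := Finset.univ.filter fun i => PowerSeries.constantCoeff (R := KK) (ζ i) = z0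
  have hcop : IsCoprime (∏ i ∈ S, (X - C (ζ i))) (∏ j ∈ T, (X - C (ζ j))) := by
    refine IsCoprime.prod_left fun i hi => IsCoprime.prod_right fun j hj => ?_
    refine Polynomial.isCoprime_X_sub_C_of_isUnit_sub ?_
    rw [PowerSeries.isUnit_iff_constantCoeff, map_sub, isUnit_iff_ne_zero]
    have h1 : PowerSeries.constantCoeff (R := KK) (ζ i) ≠ z0 := (Finset.mem_filter.1 hi).2
    have h2 : PowerSeries.constantCoeff (R := KK) (ζ j) = z0 := (Finset.mem_filter.1 hj).2
    rw [h2]
    exact sub_ne_zero.2 h1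
  obtain ⟨U, V, hUV⟩ := hcop
  refine ⟨U * ∏ i ∈ S, (X - C (ζ i)), fun i => ⟨fun hi => ?_, fun hi => ?_⟩⟩
  · have h1 : (∏ j ∈ T, (X - C (ζ j))).eval (ζ i) = 0 := by
      rw [eval_prod]
      refine Finset.prod_eq_zero (i := i) (Finset.mem_filter.2 ⟨Finset.mem_univ _, hi⟩) ?_
      simp
    have h2 := congrArg (Polynomial.eval (ζ i)) hUV
    rw [eval_add, eval_mul (p := V), h1, mul_zero, add_zero, eval_one] at h2
    exact h2
  · have h1 : (∏ j ∈ S, (X - C (ζ j))).eval (ζ i) = 0 := by
      rw [eval_prod]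
      refine Finset.prod_eq_zero (i := i) (Finset.mem_filter.2 ⟨Finset.mem_univ _, hi⟩) ?_
      simp
    rw [eval_mul, h1, mul_zero]
end

end SYM
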