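import Pool.Agent.Lib.MP_b1ea0f_al.Defs4
import Pool.Agent.Lib.MP_b1ea0f_al.ULat
import Pool.Agent.Lib.MP_b1ea0f_al.UDim
import Pool.Agent.Lib.MP_b1ea0f_al.UTilde
import Pool.Agent.Lib.MP_b1ea0f_al.UCase
import Pool.Agent.Lib.MP_b1ea0f_al.UInt
import Pool.Agent.Lib.MP_b1ea0f_al.UNon
import Pool.Agent.Lib.MP_b1ea0f_al.UFrob
import Pool.Agent.Lib.MP_b1ea0f_al.WEx
import Pool.Agent.Lib.MP_b1ea0f_al.TProps
import Pool.Agent.Lib.MP_b1ea0f_al.FDec
import Pool.Agent.Lib.MP_b1ea0f_al.BMap
import Pool.Agent.Lib.MP_b1ea0f_al.WIrr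
import Pool.Agent.Lib.MP_b1ea0f_al.UDlog
import Pool.Agent.Lib.MP_b1ea0f_al.URed
import Pool.Agent.Lib.MP_b1ea0f_al.KFin

/-!
# ULoc: the local theorem

(Abbreviations in this text: OO = PowerSeries KK, LL = LaurentSeries KK, cc = PowerSeries.constantCoeff.) Assembly of the local theorem. `exists_locData` gives `D` and the formula. For each `z0` (finitely many values `i.1.2`), `BlockCase` (if some irreducible of `H n (mapx cc x)` has `z = z0`: from `i` via `exists_red` `m ≠ 0`), `block_integral`: `tr .. = ∑_{z0} ∑_{i at z0} term ∈ OO`; `T` := the `OO`-linear map (unique since `OO → LL` injective);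
trace property from `tr_comm`. `exists_Tbar`; non-degenerate: for each `z0`: `p` (UTilde), `e = hmap cc (aeval zz p)`: idempotent (`p² - p` vanishes at all `zl i`, so is divisible by `∏ (X - zl i)`: distinct roots? use `prod_zz_sub` and the evaluation property; note `zl i = zl j` for `i ≠ j` cannot happen as `Gen`), and `range = maxGenEigenspace`
(via `p̄`: `e` acts on the generalised eigenspaces of `z̄`), `∑_{z0} e = 1`; `block_nondeg` for each; `frob_of_nondeg`.
-/

namespace SYM
open Polynomial Module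

section
variable {KK : Type} [Field KK] {n : ℕ}

private theorem uloc_inj [CharZero KK] (hn : HN n) {x : J n → (PowerSeries KK)ˣ} {k : J n}
    (D : LocData n x k) : Function.Injective fun i => (D.zl i : PowerSeries KK) := by
  intro i j hij
  have hu : D.zl i = D.zl j := Units.ext hij
  have hgen : Gen (mapx (algebraMap (PowerSeries KK) (LaurentSeries KK)) x) :=
    Indep.gen hn (indep_L D.hl)
  have h1 : mon x i.1.1 ^ dg j.1.1 = mon x j.1.1 ^ dg i.1.1 := by
    rw [← D.zl_pow i, ← D.zl_pow j, hu, ← pow_mul, ← pow_mul, mul_comm]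
  have h2 : mon (mapx (algebraMap (PowerSeries KK) (LaurentSeries KK)) x) i.1.1 ^ dg j.1.1 =
      mon (mapx (algebraMap (PowerSeries KK) (LaurentSeries KK)) x) j.1.1 ^ dg i.1.1 := by
    rw [mon_mapx, mon_mapx, ← map_pow, ← map_pow, h1]
  have h3 : i.1.1 = j.1.1 := hgen.g1 _ i.2.1 _ j.2.1 h2
  have h4 : i.1.2 = j.1.2 := by
    rw [← D.zl_cc i, ← D.zl_cc j, hu]
  exact Subtype.ext (Prod.ext h3 h4)

private theorem uloc_dvd [CharZero KK] (hn : HN n) {x : J n → (PowerSeries KK)ˣ} {k : J n}
    (D : LocData n x k) (s : Finset (Idx (mapx (PowerSeries.constantCoeff (R := KK)) x)))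
    (q : (PowerSeries KK)[X]) (hq : ∀ i ∈ s, q.eval (D.zl i : PowerSeries KK) = 0) :
    (∏ i ∈ s, (X - C (D.zl i : PowerSeries KK))) ∣ q := by
  rcases eq_or_ne q 0 with h0 | h0
  · rw [h0]
    exact dvd_zero _
  have h1 : (∏ i ∈ s, (X - C (D.zl i : PowerSeries KK))) =
      ((s.val.map fun i => (D.zl i : PowerSeries KK)).map fun a => X - C a).prod := by
    rw [Multiset.map_map]
    rfl
  rw [h1, Multiset.prod_X_sub_C_dvd_iff_le_roots h0, Multiset.le_iff_subset
    (Multiset.Nodup.map (uloc_inj hn D) s.nodup)]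
  intro a ha
  obtain ⟨i, hi, rfl⟩ := Multiset.mem_map.1 ha
  rw [mem_roots h0, IsRoot.def]
  exact hq i (by simpa using hi)

private theorem uloc_kill [CharZero KK] [IsAlgClosed KK] (hn : HN n)
    {x : J n → (PowerSeries KK)ˣ} {k : J n}
    (D : LocData n x k) {ι : Type} [Finite ι] (b : Basis ι (PowerSeries KK) (H n x))
    (hr : Nat.card ι = NZ n ^ 2) (q : (PowerSeries KK)[X])
    (hq : ∀ i, q.eval (D.zl i : PowerSeries KK) = 0) : aeval (zz n x) q = 0 := by
  obtain ⟨r, hr'⟩ := uloc_dvd hn D Finset.univ q fun i _ => hq i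
  rw [hr', map_mul, prod_zz_sub hn D b hr, zero_mul]

private theorem uloc_aeval (x : J n → (PowerSeries KK)ˣ) (q : (PowerSeries KK)[X]) :
    hmap (PowerSeries.constantCoeff (R := KK)) n x (aeval (zz n x) q) =
      aeval (zz n (mapx (PowerSeries.constantCoeff (R := KK)) x))
        (q.map (PowerSeries.constantCoeff (R := KK))) := by
  rw [aeval_def, aeval_def, eval₂_map, hom_eval₂, hmap_zz]
  congr 1
  refine RingHom.ext fun c => ?_
  rw [RingHom.comp_apply, RingHom.comp_apply, hmap_algebraMap]

private theorem uloc_central {κ : Type} [Field κ] (x : J n → κˣ) (ω : κ[X]) (h : H n x) :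
    aeval (zz n x) ω * h = h * aeval (zz n x) ω := by
  have h1 : Commute (zz n x) h := zz_comm n x h
  induction ω using Polynomial.induction_on' with
  | add p q hp hq => rw [map_add, add_mul, mul_add, hp, hq]
  | monomial m a =>
    rw [aeval_monomial, mul_assoc, (h1.pow_left m).eq, ← mul_assoc, ← mul_assoc,
      Algebra.commutes]

private theorem uloc_pow {κ A : Type*} [Field κ] [Ring A] [Algebra κ A] (z : A) (z0 : κ) :
    ∀ (k : ℕ) (h : A), ((LinearMap.mulLeft κ z - z0 • (1 : Module.End κ A)) ^ k) h =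
        aeval z ((X - C z0) ^ k) * h := by
  intro k
  induction k with
  | zero =>
    intro h
    rw [pow_zero, pow_zero, map_one, one_mul]
    rfl
  | succ k ih =>
    intro h
    rw [pow_succ, Module.End.mul_apply, ih, pow_succ, map_mul, map_sub, aeval_X, aeval_C,
      mul_assoc]
    congr 1
    rw [sub_mul, ← Algebra.smul_def]
    rfl

private theorem uloc_mem {κ A : Type*} [Field κ] [Ring A] [Algebra κ A] (z : A) (z0 : κ) (v : A) :
    v ∈ Module.End.maxGenEigenspace (LinearMap.mulLeft κ z) z0 ↔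
      ∃ N : ℕ, aeval z ((X - C z0) ^ N) * v = 0 := by
  rw [Module.End.mem_maxGenEigenspace]
  refine exists_congr fun N => ?_
  rw [uloc_pow]

open Classical in
private theorem uloc_range [CharZero KK] [IsAlgClosed KK] (hn : HN n)
    {x : J n → (PowerSeries KK)ˣ} {k : J n}
    (D : LocData n x k) {ι : Type} [Finite ι] (b : Basis ι (PowerSeries KK) (H n x))
    (hr : Nat.card ι = NZ n ^ 2) (z0 : KKˣ) (p : (PowerSeries KK)[X])
    (hp : ∀ i : Idx (mapx (PowerSeries.constantCoeff (R := KK)) x),
      (i.1.2 = z0 → p.eval (D.zl i : (PowerSeries KK)) = 1) ∧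
      (i.1.2 ≠ z0 → p.eval (D.zl i : (PowerSeries KK)) = 0)) :
    LinearMap.range (LinearMap.mulLeft KK
      (hmap (PowerSeries.constantCoeff (R := KK)) n x (aeval (zz n x) p))) =
      Module.End.maxGenEigenspace (LinearMap.mulLeft KK
        (zz n (mapx (PowerSeries.constantCoeff (R := KK)) x))) (z0 : KK) := by
  set cc : PowerSeries KK →+* KK := PowerSeries.constantCoeff (R := KK) with hcc
  have hzc : ∀ i, cc (D.zl i : PowerSeries KK) = ((i.1.2 : KKˣ) : KK) := by
    intro i
    have := congrArg (fun u : KKˣ => (u : KK)) (D.zl_cc i)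
    exact this
  have hA : (∏ i ∈ Finset.univ.filter (fun i : Idx (mapx cc x) => i.1.2 = z0), (X - C (D.zl i : PowerSeries KK))).map cc =
      (X - C (z0 : KK)) ^ (Finset.univ.filter fun i : Idx (mapx cc x) => i.1.2 = z0).card := by
    rw [Polynomial.map_prod, Finset.prod_congr rfl fun i hi => ?_, Finset.prod_const]
    rw [Polynomial.map_sub, map_X, map_C, hzc, (Finset.mem_filter.1 hi).2]
  have hB : (∏ i ∈ Finset.univ.filter (fun i : Idx (mapx cc x) => ¬ i.1.2 = z0), (X - C (D.zl i : PowerSeries KK))).map cc =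
      ∏ i ∈ Finset.univ.filter (fun i : Idx (mapx cc x) => ¬ i.1.2 = z0), (X - C ((i.1.2 : KKˣ) : KK)) := by
    rw [Polynomial.map_prod]
    refine Finset.prod_congr rfl fun i _ => ?_
    rw [Polynomial.map_sub, map_X, map_C, hzc]
  ext v
  rw [uloc_mem, LinearMap.mem_range]
  constructor
  · rintro ⟨h, rfl⟩
    refine ⟨(Finset.univ.filter fun i : Idx (mapx cc x) => i.1.2 = z0).card, ?_⟩
    rw [LinearMap.mulLeft_apply, ← mul_assoc, ← hA, ← uloc_aeval, ← map_mul, ← map_mul]
    rw [uloc_kill hn D b hr, map_zero, zero_mul]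
    intro i
    rw [eval_mul]
    by_cases hi : i.1.2 = z0
    · rw [eval_prod, Finset.prod_eq_zero (i := i), zero_mul]
      · exact Finset.mem_filter.2 ⟨Finset.mem_univ _, hi⟩
      · rw [eval_sub, eval_X, eval_C, sub_self]
    · rw [(hp i).2 hi, mul_zero]
  · rintro ⟨N, hN⟩
    refine ⟨v, ?_⟩
    rw [LinearMap.mulLeft_apply]
    have h1 : aeval (zz n (mapx cc x)) (∏ i ∈ Finset.univ.filter (fun i : Idx (mapx cc x) => ¬ i.1.2 = z0),
        (X - C ((i.1.2 : KKˣ) : KK))) * ((1 - hmap cc n x (aeval (zz n x) p)) * v) = 0 := by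
      have h2 : (1 : H n (mapx cc x)) - hmap cc n x (aeval (zz n x) p) =
          hmap cc n x (aeval (zz n x) (1 - p)) := by
        rw [map_sub, map_sub, map_one, map_one]
      rw [← mul_assoc, h2, ← hB, ← uloc_aeval, ← map_mul, ← map_mul]
      rw [uloc_kill hn D b hr, map_zero, zero_mul]
      intro i
      rw [eval_mul]
      by_cases hi : i.1.2 = z0
      · rw [eval_sub, (hp i).1 hi, eval_one, sub_self, mul_zero]
      · rw [eval_prod, Finset.prod_eq_zero (i := i), zero_mul]
        · exact Finset.mem_filter.2 ⟨Finset.mem_univ _, hi⟩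
        · rw [eval_sub, eval_X, eval_C, sub_self]
    have h3 : aeval (zz n (mapx cc x)) ((X - C (z0 : KK)) ^ N) *
        ((1 - hmap cc n x (aeval (zz n x) p)) * v) = 0 := by
      have h4 : (1 : H n (mapx cc x)) - hmap cc n x (aeval (zz n x) p) =
          aeval (zz n (mapx cc x)) ((1 - p).map cc) := by
        rw [← uloc_aeval, map_sub, map_sub, map_one, map_one]
      rw [h4, ← mul_assoc, uloc_central, mul_assoc, hN, mul_zero]
    have hcop : IsCoprime ((X - C (z0 : KK)) ^ N) (∏ i ∈ Finset.univ.filter (fun i : Idx (mapx cc x) => ¬ i.1.2 = z0),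
        (X - C ((i.1.2 : KKˣ) : KK))) := by
      refine IsCoprime.pow_left (IsCoprime.prod_right fun i hi => ?_)
      refine isCoprime_X_sub_C_of_isUnit_sub ?_
      rw [isUnit_iff_ne_zero, sub_ne_zero]
      intro h
      exact (Finset.mem_filter.1 hi).2 (Units.ext h).symm
    obtain ⟨u, w, huw⟩ := hcop
    have h5 : (1 - hmap cc n x (aeval (zz n x) p)) * v = 0 := by
      have h6 := congrArg (fun q => aeval (zz n (mapx cc x)) q *
        ((1 - hmap cc n x (aeval (zz n x) p)) * v)) huw
      simp only [map_add, map_mul, map_one, one_mul, add_mul] at h6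
      rw [mul_assoc (aeval (zz n (mapx cc x)) u), h3, mul_zero,
        mul_assoc (aeval (zz n (mapx cc x)) w), h1, mul_zero, add_zero] at h6
      exact h6.symm
    rw [sub_mul, one_mul, sub_eq_zero] at h5
    exact h5.symm

theorem local_thm [CharZero KK] [IsAlgClosed KK] (hn : HN n) {x : J n → (PowerSeries KK)ˣ} {k : J n}
    (hl : LocHyp n x k) {ι : Type} [Finite ι] (b : Basis ι (PowerSeries KK) (H n x))
    (hr : Nat.card ι = NZ n ^ 2)
    (ω : ((LaurentSeries KK))[X]) (hω : IsOmega (mapx (algebraMap (PowerSeries KK) (LaurentSeries KK)) x) ω) :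
    ∃ T : H n x →ₗ[(PowerSeries KK)] (PowerSeries KK), Frob T ∧
      ∀ h, algebraMap (PowerSeries KK) (LaurentSeries KK) (T h) =
        tr (mapx (algebraMap (PowerSeries KK) (LaurentSeries KK)) x) ω (hmap (algebraMap (PowerSeries KK) (LaurentSeries KK)) n x h) := by
  classical
  have hfd : FiniteDimensional KK (H n (mapx (PowerSeries.constantCoeff (R := KK)) x)) :=
    finite_field n hn _
  have hinj : Function.Injective (algebraMap (PowerSeries KK) (LaurentSeries KK)) :=
    IsFractionRing.injective _ _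
  obtain ⟨D, hD⟩ := exists_locData hn hl b hr ω hω
  obtain ⟨w⟩ := exists_wed (κ := KK) (H n (mapx (PowerSeries.constantCoeff (R := KK)) x))
  have hbc : ∀ i : Idx (mapx (PowerSeries.constantCoeff (R := KK)) x), BlockCase D w i.1.2 := by
    intro i
    refine blockCase hn D w i.1.2 ?_
    obtain ⟨m, -, h2, h3, -⟩ := exists_red D w i
    have hpos : 0 < dg i.1.1 := by
      have h1 := ((mem_Rc hn).1 i.2.1).2
      unfold dg
      omega
    by_contra hcon
    have h4 : ∀ j, m j = 0 := by
      intro j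
      by_contra hj
      exact hcon ⟨j, h3 j hj⟩
    rw [Finset.sum_eq_zero fun j _ => by rw [h4 j, zero_mul]] at h2
    exact absurd h2 (pow_pos hpos 2).ne'
  -- integrality
  have hint : ∀ h : H n x, ∃ f : PowerSeries KK,
      algebraMap (PowerSeries KK) (LaurentSeries KK) f =
        tr (mapx (algebraMap (PowerSeries KK) (LaurentSeries KK)) x) ω
          (hmap (algebraMap (PowerSeries KK) (LaurentSeries KK)) n x h) := by
    intro h
    have h1 : ∀ z0 ∈ (Finset.univ.image
        fun i : Idx (mapx (PowerSeries.constantCoeff (R := KK)) x) => i.1.2),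
        ∃ f : PowerSeries KK, algebraMap (PowerSeries KK) (LaurentSeries KK) f =
          ∑ i : Idx (mapx (PowerSeries.constantCoeff (R := KK)) x),
            if i.1.2 = z0 then D.term i h else 0 := by
      intro z0 hz0
      obtain ⟨i, -, rfl⟩ := Finset.mem_image.1 hz0
      obtain ⟨f, hf⟩ := block_integral D w _ (hbc i) h
      refine ⟨f, hf.trans (Finset.sum_congr rfl fun j _ => ?_)⟩
      split_ifs <;> rfl
    choose! f hf using h1
    refine ⟨∑ z0 ∈ (Finset.univ.image
        fun i : Idx (mapx (PowerSeries.constantCoeff (R := KK)) x) => i.1.2), f z0, ?_⟩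
    rw [hD, map_sum, Finset.sum_congr rfl hf, Finset.sum_comm]
    refine Finset.sum_congr rfl fun i _ => ?_
    rw [Finset.sum_ite_eq, if_pos (Finset.mem_image_of_mem _ (Finset.mem_univ i))]
  choose T0 hT0 using hint
  let T : H n x →ₗ[(PowerSeries KK)] (PowerSeries KK) :=
    { toFun := T0
      map_add' := by
        intro h h'
        apply hinj
        rw [map_add, hT0, hT0, hT0, map_add, map_add]
      map_smul' := by
        intro r h
        apply hinj
        rw [hT0, hmap_smul, map_smul, RingHom.id_apply, smul_eq_mul, smul_eq_mul, map_mul, hT0] }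
  have hT : ∀ h, algebraMap (PowerSeries KK) (LaurentSeries KK) (T h) =
        tr (mapx (algebraMap (PowerSeries KK) (LaurentSeries KK)) x) ω
          (hmap (algebraMap (PowerSeries KK) (LaurentSeries KK)) n x h) := hT0
  refine ⟨T, ?_, hT⟩
  have hTc : ∀ h h', T (h * h') = T (h' * h) := by
    intro h h'
    apply hinj
    rw [hT, hT, map_mul (hmap _ n x), map_mul (hmap _ n x)]
    exact tr_comm _ _ _ _
  obtain ⟨Tb, hTb⟩ := exists_Tbar b T
  refine frob_of_nondeg b T Tb hTb ?_
  intro hb hnd
  -- idempotents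
  have hex : ∀ z0 : KKˣ, ∃ p : (PowerSeries KK)[X],
      ∀ i : Idx (mapx (PowerSeries.constantCoeff (R := KK)) x),
      (i.1.2 = z0 → p.eval (D.zl i : (PowerSeries KK)) = 1) ∧
      (i.1.2 ≠ z0 → p.eval (D.zl i : (PowerSeries KK)) = 0) := by
    intro z0
    obtain ⟨p, hp⟩ := exists_etilde (fun i => (D.zl i : PowerSeries KK)) (z0 : KK)
    have hzc : ∀ i, PowerSeries.constantCoeff (R := KK) (D.zl i : PowerSeries KK) =
        ((i.1.2 : KKˣ) : KK) := by
      intro i
      have := congrArg (fun u : KKˣ => (u : KK)) (D.zl_cc i)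
      exact this
    refine ⟨p, fun i => ⟨fun h => (hp i).1 ?_, fun h => (hp i).2 ?_⟩⟩
    · rw [hzc, h]
    · rw [hzc]
      exact fun h' => h (Units.ext h')
  choose p hp using hex
  have he0 : ∀ z0 ∈ (Finset.univ.image
      fun i : Idx (mapx (PowerSeries.constantCoeff (R := KK)) x) => i.1.2),
      hmap (PowerSeries.constantCoeff (R := KK)) n x (aeval (zz n x) (p z0)) * hb = 0 := by
    intro z0 hz0
    obtain ⟨i, -, rfl⟩ := Finset.mem_image.1 hz0
    refine block_nondeg hn D w i.1.2 (hbc i) (block_dim hn hl b hr i.1.2) T Tb hTb hTc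
      (fun h => by rw [hT, hD]) (p i.1.2) (hp i.1.2) _ rfl ?_
      (uloc_range hn D b hr i.1.2 (p i.1.2) (hp i.1.2)) hb ?_
    · rw [← map_mul, ← map_mul, ← sub_eq_zero, ← map_sub, ← map_sub,
        uloc_kill hn D b hr, map_zero]
      intro j
      rw [eval_sub, eval_mul]
      by_cases hj : j.1.2 = i.1.2
      · rw [(hp i.1.2 j).1 hj, mul_one, sub_self]
      · rw [(hp i.1.2 j).2 hj, mul_zero, sub_self]
    · intro h'
      rw [uloc_aeval, uloc_central, mul_assoc, ← uloc_aeval]
      exact hnd _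
  have hone : ∑ z0 ∈ (Finset.univ.image
      fun i : Idx (mapx (PowerSeries.constantCoeff (R := KK)) x) => i.1.2),
      hmap (PowerSeries.constantCoeff (R := KK)) n x (aeval (zz n x) (p z0)) = 1 := by
    rw [← map_sum, ← map_sum, ← sub_eq_zero,
      ← map_one (hmap (PowerSeries.constantCoeff (R := KK)) n x),
      ← map_one (aeval (zz n x) : (PowerSeries KK)[X] →ₐ[PowerSeries KK] H n x), ← map_sub,
      ← map_sub, uloc_kill hn D b hr, map_zero]
    intro i
    rw [eval_sub, eval_one, eval_finset_sum, Finset.sum_eq_single i.1.2, (hp i.1.2 i).1 rfl,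
      sub_self]
    · intro z0 _ hne
      exact (hp z0 i).2 hne.symm
    · intro h
      exact absurd (Finset.mem_image_of_mem _ (Finset.mem_univ i)) h
  calc hb = (∑ z0 ∈ (Finset.univ.image
      fun i : Idx (mapx (PowerSeries.constantCoeff (R := KK)) x) => i.1.2),
      hmap (PowerSeries.constantCoeff (R := KK)) n x (aeval (zz n x) (p z0))) * hb := by
        rw [hone, one_mul]
    _ = 0 := by
        rw [Finset.sum_mul]
        exact Finset.sum_eq_zero he0
end

end SYM
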