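import Pool.Agent.Lib.MP_b1ea0f_al.Defs4
import Pool.Agent.Lib.MP_b1ea0f_al.KLaur

/-!
# VIndep: independence of the universal parameters

`xK` is multiplicatively independent (monomials are linearly independent). `KF n` has characteristic zero.
-/

namespace SYM
open Polynomial Module

instance charZero_KF (n : ℕ) : CharZero (KF n) :=
  charZero_of_injective_algebraMap (IsFractionRing.injective (RR n) (KF n))

/-- monomials as units -/
private noncomputable def mu (σ : Type) : Multiplicative (σ →₀ ℤ) →* (Laurent σ)ˣ :=
  (AddMonoidAlgebra.of ℤ (σ →₀ ℤ)).toHomUnits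

private theorem var_eq {σ : Type} (i : σ) :
    Laurent.var i = mu σ (Multiplicative.ofAdd (Finsupp.single i 1)) := by
  apply Units.ext
  rfl

private theorem mu_injective (σ : Type) : Function.Injective (mu σ) := by
  intro a b h
  have h1 : ((mu σ a : (Laurent σ)ˣ) : Laurent σ) = ((mu σ b : (Laurent σ)ˣ) : Laurent σ) := by
    rw [h]
  exact AddMonoidAlgebra.of_injective h1

theorem indep_xK (n : ℕ) : Indep (xK n) := by
  intro v hv
  have h1 : mon (xK n) v = Units.map (algebraMap (RR n) (KF n) : RR n →* KF n) (mon (XX n) v) := by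
    unfold mon xK mapx
    rw [map_prod]
    refine Finset.prod_congr rfl fun l _ => ?_
    rw [map_zpow]
  have h2 : mon (XX n) v = 1 := by
    apply Units.ext
    apply IsFractionRing.injective (RR n) (KF n)
    rw [h1] at hv
    have h3 := congrArg (fun u : (KF n)ˣ => (u : KF n)) hv
    simpa using h3
  have h3 : mon (XX n) v = mu (J n) (∏ l, Multiplicative.ofAdd (Finsupp.single l (v l))) := by
    unfold mon XX
    rw [map_prod]
    refine Finset.prod_congr rfl fun l _ => ?_
    rw [var_eq, ← map_zpow, ← ofAdd_zsmul]
    congr 2
    simp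
  rw [h3, ← map_one (mu (J n))] at h2
  have h4 := mu_injective _ h2
  have h5 : ∑ l, Finsupp.single l (v l) = (0 : J n →₀ ℤ) := by
    have := congrArg Multiplicative.toAdd h4
    simpa [toAdd_prod] using this
  funext l
  have h6 := DFunLike.congr_fun h5 l
  rw [Finsupp.finsetSum_apply, Finset.sum_eq_single l] at h6
  · simpa using h6
  · intro b _ hb
    exact Finsupp.single_eq_of_ne' hb
  · intro h; exact absurd (Finset.mem_univ _) h

end SYM
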