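import Pool.Agent.Lib.MP_b1ea0f_al.Defs4

/-!
# VSemi: traces and semilinear isomorphisms
-/

namespace SYM
open Polynomial Module

private theorem trace_aux {κ κ' A B : Type} [Field κ] [Field κ'] [AddCommGroup A] [Module κ A]
    [AddCommGroup B] [Module κ' B] [FiniteDimensional κ A] (τ : κ ≃+* κ') (Φ : A ≃+ B)
    (h : ∀ (c : κ) (a : A), Φ (c • a) = τ c • Φ a) (F : A →ₗ[κ] A) (G : B →ₗ[κ'] B)
    (hFG : ∀ a, G (Φ a) = Φ (F a)) : LinearMap.trace κ' B G = τ (LinearMap.trace κ A F) := by
  classical
  set b := Module.finBasis κ A with hb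
  have hs : ∀ (c : κ') (u : B), Φ.symm (c • u) = τ.symm c • Φ.symm u := by
    intro c u
    apply Φ.injective
    rw [AddEquiv.apply_symm_apply, h, RingEquiv.apply_symm_apply, AddEquiv.apply_symm_apply]
  let b' : Basis (Fin (finrank κ A)) κ' B := Basis.ofEquivFun
    { toFun := fun u j => τ (b.repr (Φ.symm u) j)
      invFun := fun f => ∑ j, f j • Φ (b j)
      map_add' := by
        intro u v
        funext j
        simp [map_add]
      map_smul' := by
        intro c u
        funext j
        simp [hs]
      left_inv := by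
        intro u
        have h1 : ∀ j, τ (b.repr (Φ.symm u) j) • Φ (b j) = Φ (b.repr (Φ.symm u) j • b j) := by
          intro j
          rw [h]
        simp only [h1]
        rw [← map_sum, b.sum_repr, AddEquiv.apply_symm_apply]
      right_inv := by
        intro f
        funext j
        have h1 : ∀ i, Φ.symm (f i • Φ (b i)) = τ.symm (f i) • b i := by
          intro i
          rw [hs, AddEquiv.symm_apply_apply]
        simp only [map_sum, h1]
        rw [← map_sum, Basis.repr_sum_self, RingEquiv.apply_symm_apply] }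
  have hrep : ∀ (u : A) (j), b'.repr (Φ u) j = τ (b.repr u j) := by
    intro u j
    rw [← Basis.equivFun_apply, Basis.equivFun_ofEquivFun]
    show τ (b.repr (Φ.symm (Φ u)) j) = _
    rw [AddEquiv.symm_apply_apply]
  have hb' : ∀ j, b' j = Φ (b j) := by
    intro j
    apply b'.repr.injective
    ext i
    rw [hrep, Basis.repr_self, Basis.repr_self, Finsupp.single_apply, Finsupp.single_apply]
    split_ifs <;> simp
  rw [LinearMap.trace_eq_matrix_trace κ' b', LinearMap.trace_eq_matrix_trace κ b, Matrix.trace,
    Matrix.trace, map_sum]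
  refine Finset.sum_congr rfl fun i _ => ?_
  rw [Matrix.diag_apply, Matrix.diag_apply, LinearMap.toMatrix_apply, LinearMap.toMatrix_apply,
    hb', hFG, hrep]

/-- a ring isomorphism semilinear over a field isomorphism preserves traces of left multiplications -/
theorem trace_semilinear {κ κ' A B : Type} [Field κ] [Field κ'] [Ring A] [Algebra κ A] [Ring B]
    [Algebra κ' B] [FiniteDimensional κ A] [FiniteDimensional κ' B] (τ : κ ≃+* κ') (Φ : A ≃+* B)
    (h : ∀ c : κ, Φ (algebraMap κ A c) = algebraMap κ' B (τ c)) (a : A) :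
    LinearMap.trace κ' B (LinearMap.mulLeft κ' (Φ a)) = τ (LinearMap.trace κ A (LinearMap.mulLeft κ a)) := by
  refine trace_aux τ (Φ : A ≃+ B) ?_ _ _ ?_
  · intro c u
    show Φ (c • u) = τ c • Φ u
    rw [Algebra.smul_def, Algebra.smul_def, map_mul, h]
  · intro u
    show Φ a * Φ u = Φ (a * u)
    rw [map_mul]

/-- anti-isomorphisms exchange left and right multiplication -/
theorem trace_antisemilinear {κ κ' A B : Type} [Field κ] [Field κ'] [Ring A] [Algebra κ A] [Ring B]
    [Algebra κ' B] [FiniteDimensional κ A] [FiniteDimensional κ' B] (τ : κ ≃+* κ') (Φ : A ≃+ B)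
    (hΦ : ∀ u v, Φ (u * v) = Φ v * Φ u)
    (h : ∀ c : κ, Φ (algebraMap κ A c) = algebraMap κ' B (τ c)) (a : A) :
    LinearMap.trace κ' B (LinearMap.mulRight κ' (Φ a)) =
      τ (LinearMap.trace κ A (LinearMap.mulLeft κ a)) := by
  refine trace_aux τ Φ ?_ _ _ ?_
  · intro c u
    rw [Algebra.smul_def, Algebra.smul_def, hΦ, h, Algebra.commutes]
  · intro u
    rw [LinearMap.mulRight_apply, LinearMap.mulLeft_apply, hΦ]

end SYM
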