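import Pool.Agent.Lib.MP_b1ea0f_al.Defs4
import Pool.Agent.Lib.MP_b1ea0f_al.VSemi
import Pool.Agent.Lib.MP_b1ea0f_al.RStar
import Pool.Agent.Lib.MP_b1ea0f_al.RInd
import Pool.Agent.Lib.MP_b1ea0f_al.TSym
import Pool.Agent.Lib.MP_b1ea0f_al.TIndep
import Pool.Agent.Lib.MP_b1ea0f_al.TProps
import Pool.Agent.Lib.MP_b1ea0f_al.TOmega
import Pool.Agent.Lib.MP_b1ea0f_al.VIndep
import Pool.Agent.Lib.MP_b1ea0f_al.KLaur
import Pool.Agent.Lib.MP_b1ea0f_al.KRank
import Pool.Agent.Lib.MP_b1ea0f_al.KFin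
import Pool.Agent.Lib.MP_b1ea0f_al.RHalf
import Pool.Agent.Lib.MP_b1ea0f_al.GSplit

/-!
# VBar: condition (3)

Paper 8.8. `bar` on `KF n`; `Φ : H n (xK n) → H n (xK n)` semilinear anti-automorphism with `gen g ↦ (gen g)^{-1}` (build it by the universal property into `(H n (xK n))ᵐᵒᵖ` with scalars through `bar`). `Φ z = z^{-1}`. `trace_antisemilinear`, `trace_left_right`. `Φ(ω(z)) = C^{-1} z^N ω(z)`: both sides are polynomials in `z`; compare values
at all roots `ζ` (`z` satisfies `DD` with distinct roots over `Ω`, `split`): `ω̄(ζ^{-1}) d² bar(schur)(ζ^{-1}) = 1` and `schur_star`, `q^{2ϖ} = C ζ^{-N}` (`deg_varpi`).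
-/

namespace SYM
open Polynomial Module

/-! ### the product over a leg at an inverse -/

private theorem vb_prod {k A : Type*} [CommRing k] [Ring A] [Algebra k A] {ι : Type*}
    (s : Finset ι) (y : ι → kˣ) (u : Aˣ)
    (h : aeval (u : A) (∏ j ∈ s, (X - C ((y j : kˣ) : k))) = 0) :
    aeval ((u⁻¹ : Aˣ) : A) (∏ j ∈ s, (X - C (((y j)⁻¹ : kˣ) : k))) = 0 := by
  classical
  have key : ∀ t : Finset ι, ∃ (c : k) (m : ℕ),
      aeval ((u⁻¹ : Aˣ) : A) (∏ j ∈ t, (X - C (((y j)⁻¹ : kˣ) : k))) =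
        c • (((u⁻¹ : Aˣ) : A) ^ m * aeval (u : A) (∏ j ∈ t, (X - C ((y j : kˣ) : k)))) := by
    intro t
    induction t using Finset.induction_on with
    | empty => exact ⟨1, 0, by simp⟩
    | insert i t hi ih =>
      obtain ⟨c, m, hc⟩ := ih
      refine ⟨-(((y i)⁻¹ : kˣ) : k) * c, m + 1, ?_⟩
      rw [Finset.prod_insert hi, Finset.prod_insert hi, map_mul, map_mul, hc]
      simp only [map_sub, aeval_X, aeval_C]
      have h1 : ((u⁻¹ : Aˣ) : A) - algebraMap k A (((y i)⁻¹ : kˣ) : k) =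
          (-(((y i)⁻¹ : kˣ) : k)) • (((u⁻¹ : Aˣ) : A) * ((u : A) - algebraMap k A (y i : k))) := by
        rw [mul_sub, Units.inv_mul, smul_sub, ← Algebra.commutes, ← Algebra.smul_def, smul_smul,
          neg_mul, Units.inv_mul, Algebra.algebraMap_eq_smul_one]
        simp only [neg_smul, one_smul]
        abel
      have h2 : Commute ((u : A) - algebraMap k A (y i : k)) (((u⁻¹ : Aˣ) : A) ^ m) := by
        apply Commute.pow_right
        apply Commute.sub_left
        · exact (Units.mul_inv u).trans (Units.inv_mul u).symm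
        · exact Algebra.commute_algebraMap_left _ _
      rw [h1, smul_mul_assoc, mul_smul_comm, smul_smul, mul_assoc, ← mul_assoc _ _ (aeval _ _),
        h2.eq, pow_succ']
      simp only [mul_assoc]
  obtain ⟨c, m, hc⟩ := key s
  rw [hc, h, mul_zero, smul_zero]

/-! ### the semilinear anti-automorphism -/

section
variable {n : ℕ} {K : Type} [Field K] (x : J n → Kˣ) (τ : K ≃+* K)

/-- the inverse of a generator -/
private noncomputable def vb_gi (x : J n → Kˣ) (g : Fin 3) : H n x :=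
  (((isUnit_gen x g).unit⁻¹ : (H n x)ˣ) : H n x)

private theorem vb_gi_wd (g : Fin 3) : vb_gi x g = ((wd n x (FreeGroup.of g)⁻¹ : (H n x)ˣ) : H n x) := by
  rw [map_inv]
  simp only [wd, FreeGroup.lift_apply_of]
  rfl

/-- the opposite algebra, scalars through `τ` -/
private noncomputable abbrev vb_alg : Algebra K (H n x)ᵐᵒᵖ :=
  Algebra.compHom (H n x)ᵐᵒᵖ (τ : K →+* K)

private theorem vb_aeval (v : H n x) (p : K[X]) :
    letI := vb_alg x τ
    aeval (MulOpposite.op v : (H n x)ᵐᵒᵖ) p = MulOpposite.op (aeval v (p.map (τ : K →+* K))) := by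
  let := vb_alg x τ
  have hc : ∀ c : K, algebraMap K (H n x)ᵐᵒᵖ c =
      MulOpposite.op (algebraMap K (H n x) (τ c)) := fun c => rfl
  induction p using Polynomial.induction_on' with
  | add p q hp hq => rw [map_add, hp, hq, Polynomial.map_add, map_add, MulOpposite.op_add]
  | monomial m c =>
    rw [Polynomial.map_monomial, aeval_monomial, aeval_monomial, hc, MulOpposite.op_mul,
      ← MulOpposite.op_pow]
    rw [← MulOpposite.op_mul, ← MulOpposite.op_mul]
    congr 1
    exact (Algebra.commutes _ _).symm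

private theorem vb_star (hτ : ∀ l, τ (x l : K) = (((x l)⁻¹ : Kˣ) : K)) :
    letI := vb_alg x τ
    IsStar n x (fun g => (MulOpposite.op (vb_gi x g) : (H n x)ᵐᵒᵖ)) := by
  let := vb_alg x τ
  have hs := isStar_gen n x
  refine ⟨fun g => ?_, ?_, ?_⟩
  · rw [vb_aeval]
    have h1 : (P n x g).map (τ : K →+* K) =
        ∏ j : Fin (leg n g), (X - C (((x ⟨g, j⟩)⁻¹ : Kˣ) : K)) := by
      simp only [P, Polynomial.map_prod, Polynomial.map_sub, map_X, map_C]
      refine Finset.prod_congr rfl fun j _ => ?_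
      congr 2
      exact hτ _
    rw [h1]
    have h2 := vb_prod Finset.univ (fun j => x ⟨g, j⟩) (isUnit_gen x g).unit (by
      have h3 := hs.poly g
      rw [P] at h3
      exact h3)
    rw [← MulOpposite.op_zero]
    exact congrArg MulOpposite.op h2
  · have h1 : (isUnit_gen x 0).unit * (isUnit_gen x 1).unit * (isUnit_gen x 2).unit =
        (isUnit_gen x 1).unit * (isUnit_gen x 2).unit * (isUnit_gen x 0).unit :=
      Units.ext hs.cyc1
    have h2 := congrArg (fun u : (H n x)ˣ => ((u⁻¹ : (H n x)ˣ) : H n x)) h1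
    simp only [mul_inv_rev, Units.val_mul] at h2
    simp only [← MulOpposite.op_mul]
    exact congrArg MulOpposite.op h2
  · have h1 : (isUnit_gen x 0).unit * (isUnit_gen x 1).unit * (isUnit_gen x 2).unit =
        (isUnit_gen x 2).unit * (isUnit_gen x 0).unit * (isUnit_gen x 1).unit :=
      Units.ext hs.cyc2
    have h2 := congrArg (fun u : (H n x)ˣ => ((u⁻¹ : (H n x)ˣ) : H n x)) h1
    simp only [mul_inv_rev, Units.val_mul] at h2
    simp only [← MulOpposite.op_mul]
    exact congrArg MulOpposite.op h2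

private theorem vb_hom (hτ : ∀ l, τ (x l : K) = (((x l)⁻¹ : Kˣ) : K)) :
    ∃ φ : H n x →+* (H n x)ᵐᵒᵖ,
      (∀ c, φ (algebraMap K (H n x) c) = MulOpposite.op (algebraMap K (H n x) (τ c))) ∧
      (∀ g, φ (gen n x g) = MulOpposite.op (vb_gi x g)) := by
  let := vb_alg x τ
  exact ⟨(lift n x _ (vb_star x τ hτ)).toRingHom, fun c => AlgHom.commutes _ c,
    fun g => lift_gen n x _ (vb_star x τ hτ) g⟩

private theorem vb_exists (hτ : ∀ l, τ (x l : K) = (((x l)⁻¹ : Kˣ) : K))
    (hττ : ∀ c, τ (τ c) = c) :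
    ∃ Φ : H n x ≃+ H n x, (∀ u v, Φ (u * v) = Φ v * Φ u) ∧
      (∀ c, Φ (algebraMap K (H n x) c) = algebraMap K (H n x) (τ c)) ∧
      (∀ w : FreeGroup (Fin 3), Φ (wd n x w⁻¹ : H n x) = (wd n x w : H n x)) := by
  obtain ⟨φ, hφc, hφg⟩ := vb_hom x τ hτ
  have hm : ∀ u v, (φ (u * v)).unop = (φ v).unop * (φ u).unop := by
    intro u v
    rw [map_mul, MulOpposite.unop_mul]
  have hgi : ∀ g, (φ (vb_gi x g)).unop = gen n x g := by
    intro g
    have h1 : gen n x g * vb_gi x g = 1 := Units.mul_inv (isUnit_gen x g).unit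
    have h2 := hm (gen n x g) (vb_gi x g)
    rw [h1, map_one, MulOpposite.unop_one, hφg, MulOpposite.unop_op] at h2
    have h3 : vb_gi x g * gen n x g = 1 := Units.inv_mul (isUnit_gen x g).unit
    calc (φ (vb_gi x g)).unop = (φ (vb_gi x g)).unop * (vb_gi x g * gen n x g) := by
          rw [h3, mul_one]
      _ = gen n x g := by rw [← mul_assoc, ← h2, one_mul]
  let Ψ : H n x →ₐ[K] H n x :=
    { toFun := fun u => (φ ((φ u).unop)).unop
      map_one' := by simp
      map_mul' := fun u v => by rw [hm, hm]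
      map_zero' := by simp
      map_add' := fun u v => by simp only [map_add, MulOpposite.unop_add]
      commutes' := fun c => by
        rw [hφc, MulOpposite.unop_op, hφc, MulOpposite.unop_op, hττ] }
  have hΨ : Ψ = AlgHom.id K _ := by
    apply hom_ext
    intro g
    change (φ ((φ (gen n x g)).unop)).unop = gen n x g
    rw [hφg, MulOpposite.unop_op, hgi]
  have hinv : ∀ u, (φ ((φ u).unop)).unop = u := fun u => DFunLike.congr_fun hΨ u
  let Φ : H n x ≃+ H n x :=
    { toFun := fun u => (φ u).unop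
      invFun := fun u => (φ u).unop
      left_inv := hinv
      right_inv := hinv
      map_add' := fun u v => by simp only [map_add, MulOpposite.unop_add] }
  refine ⟨Φ, hm, fun c => ?_, ?_⟩
  · change (φ (algebraMap K (H n x) c)).unop = _
    rw [hφc, MulOpposite.unop_op]
  · let F : FreeGroup (Fin 3) →* H n x :=
      { toFun := fun w => (φ (wd n x w⁻¹ : H n x)).unop
        map_one' := by simp
        map_mul' := fun w w' => by
          rw [mul_inv_rev, map_mul, Units.val_mul, hm] }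
    have hF : F = (Units.coeHom (H n x)).comp (wd n x) := by
      apply FreeGroup.ext_hom
      intro g
      change (φ (wd n x (FreeGroup.of g)⁻¹ : H n x)).unop = (wd n x (FreeGroup.of g) : H n x)
      rw [← vb_gi_wd, hgi, wd_of]
    intro w
    exact DFunLike.congr_fun hF w

private theorem vb_poly (Φ : H n x ≃+ H n x) (hm : ∀ u v, Φ (u * v) = Φ v * Φ u)
    (hc : ∀ c, Φ (algebraMap K (H n x) c) = algebraMap K (H n x) (τ c))
    (h1 : Φ 1 = 1) (u : H n x) (p : K[X]) :
    Φ (aeval u p) = aeval (Φ u) (p.map (τ : K →+* K)) := by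
  induction p using Polynomial.induction_on' with
  | add p q hp hq => rw [map_add, map_add, hp, hq, Polynomial.map_add, map_add]
  | monomial m c =>
    rw [Polynomial.map_monomial, aeval_monomial, aeval_monomial, hm, hc]
    have h2 : Φ (u ^ m) = Φ u ^ m := by
      induction m with
      | zero => rw [pow_zero, pow_zero, h1]
      | succ m ih => rw [pow_succ, hm, ih, pow_succ']
    rw [h2]
    exact (Algebra.commutes _ _).symm

end

/-! ### the value of `ω` at the inverse -/

private theorem vb_hmap {n : ℕ} {k k' : Type} [CommRing k] [CommRing k'] (f : k →+* k')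
    (x : J n → kˣ) (u : H n x) (p : k[X]) :
    hmap f n x (aeval u p) = aeval (hmap f n x u) (p.map f) := by
  rw [aeval_def, aeval_def, Polynomial.hom_eval₂, Polynomial.eval₂_map]
  congr 1
  ext c
  exact hmap_algebraMap f n x c

private theorem vb_val {n : ℕ} (hn : HN n) {K Ω : Type} [Field K] [Field Ω] (x : J n → Kˣ)
    (τ : K ≃+* K) (hτ : ∀ l, τ (x l : K) = (((x l)⁻¹ : Kˣ) : K)) (ω : K[X])
    (hω : IsOmega x ω) (f : K →+* Ω) {α : Vec n} (hα : α ∈ Rc n) (ζ : Ωˣ)
    (hζ : ζ ^ dg α = mon (mapx f x) α) :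
    ω.eval₂ (f.comp (τ : K →+* K)) ((ζ⁻¹ : Ωˣ) : Ω) * f ((mon x (2 • varpi n) : Kˣ) : K) =
      ω.eval₂ f (ζ : Ω) * (ζ : Ω) ^ NZ n := by
  have h1 := hω α hα Ω f ζ hζ
  have hx : mapx (f.comp (τ : K →+* K)) x = fun l => (mapx f x l)⁻¹ := by
    funext l
    apply Units.ext
    change f (τ (x l : K)) = _
    rw [hτ]
    change f (((x l)⁻¹ : Kˣ) : K) = (((Units.map (f : K →* Ω) (x l))⁻¹ : Ωˣ) : Ω)
    rw [← map_inv]
    rfl
  have h2 := hω α hα Ω (f.comp (τ : K →+* K)) ζ⁻¹ (by
    rw [hx, inv_pow, hζ]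
    simp only [mon, inv_zpow, Finset.prod_inv_distrib])
  have hq : qch (mapx f x) ζ α = 1 := (qch_eq_one hn _ _ hα).2 hζ
  rw [hx, schur_star hn hα _ _ hq] at h2
  have hdeg : deg (2 • varpi n) = (NZ n : ℤ) := by
    rw [← natCast_zsmul, deg_smul']
    exact (deg_varpi hn).2.1
  have hq2 : ((qch (mapx f x) ζ (2 • varpi n) : Ωˣ) : Ω) * (ζ : Ω) ^ NZ n =
      f ((mon x (2 • varpi n) : Kˣ) : K) := by
    rw [qch, hdeg, mon_mapx, Units.val_mul, ← Units.val_pow_eq_pow_val, mul_assoc,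
      ← Units.val_mul, zpow_neg, zpow_natCast, inv_mul_cancel, Units.val_one, mul_one]
    rfl
  set S := schur α (mapx f x) ζ
  set Q := ((qch (mapx f x) ζ (2 • varpi n) : Ωˣ) : Ω)
  set w1 := ω.eval₂ (f.comp (τ : K →+* K)) ((ζ⁻¹ : Ωˣ) : Ω)
  set w2 := ω.eval₂ f (ζ : Ω)
  have h3 : w1 * Q = w2 := by
    have h4 : (w1 * Q) * ((dg α : Ω) ^ 2 * S) = w2 * ((dg α : Ω) ^ 2 * S) := by
      linear_combination h2 - h1
    have h5 : (dg α : Ω) ^ 2 * S ≠ 0 := by
      intro h6
      rw [mul_assoc, h6, mul_zero] at h1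
      exact zero_ne_one h1
    exact mul_right_cancel₀ h5 h4
  rw [← hq2, ← h3]
  ring

private theorem vb_omega {n : ℕ} (hn : HN n) {K : Type} [Field K] [CharZero K]
    {x : J n → Kˣ} (hx : Indep x) (hr : finrank K (H n x) = NZ n ^ 2)
    (τ : K ≃+* K) (hτ : ∀ l, τ (x l : K) = (((x l)⁻¹ : Kˣ) : K)) (ω : K[X])
    (hω : IsOmega x ω) :
    aeval (((zu n x)⁻¹ : (H n x)ˣ) : H n x) (ω.map (τ : K →+* K)) *
      algebraMap K (H n x) ((mon x (2 • varpi n) : Kˣ) : K) =
      aeval (zz n x) ω * zz n x ^ NZ n := by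
  let Ω := AlgebraicClosure K
  let f : K →+* Ω := algebraMap K Ω
  apply hmap_injective_field f n x
  have hx' : Indep (mapx f x) := hx.map f
  have hfin : FiniteDimensional Ω (H n (mapx f x)) := finite_field n hn _
  have hr' : finrank Ω (H n (mapx f x)) = NZ n ^ 2 := by rw [finrank_map_field, hr]
  obtain ⟨ρ, hρz, -, hρb, -⟩ := split hn (hx'.gen hn) hr'
  apply hρb.1
  funext i
  change ρ i _ = ρ i _
  simp only [map_mul, map_pow, hmap_algebraMap, vb_hmap, hmap_zz, AlgHom.commutes]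
  have hz1 : ρ i (zz n (mapx f x)) = algebraMap Ω _ ((i.1.2 : Ωˣ) : Ω) := by
    rw [hρz, Algebra.algebraMap_eq_smul_one]
  have hz2 : ρ i (hmap f n x (((zu n x)⁻¹ : (H n x)ˣ) : H n x)) =
      algebraMap Ω _ (((i.1.2)⁻¹ : Ωˣ) : Ω) := by
    have h1 : hmap f n x (((zu n x)⁻¹ : (H n x)ˣ) : H n x) * zz n (mapx f x) = 1 := by
      rw [← hmap_zz, ← zu_val, ← map_mul, Units.inv_mul, map_one]
    have h2 := congrArg (ρ i) h1
    rw [map_mul, map_one, hz1] at h2
    have h3 : algebraMap Ω (Module.End Ω (Fin (dg i.1.1) → Ω)) ((i.1.2 : Ωˣ) : Ω) *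
        algebraMap Ω _ (((i.1.2)⁻¹ : Ωˣ) : Ω) = 1 := by
      rw [← map_mul, Units.mul_inv, map_one]
    calc _ = ρ i (hmap f n x (((zu n x)⁻¹ : (H n x)ˣ) : H n x)) *
          (algebraMap Ω (Module.End Ω (Fin (dg i.1.1) → Ω)) ((i.1.2 : Ωˣ) : Ω) *
        algebraMap Ω _ (((i.1.2)⁻¹ : Ωˣ) : Ω)) := by rw [h3, mul_one]
      _ = _ := by rw [← mul_assoc, h2, one_mul]
  rw [← Polynomial.aeval_algHom_apply, ← Polynomial.aeval_algHom_apply, hz1, hz2,
    Polynomial.aeval_algebraMap_apply, Polynomial.aeval_algebraMap_apply, ← map_mul, ← map_pow,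
    ← map_mul]
  congr 1
  have h5 := vb_val hn x τ hτ ω hω f i.2.1 i.1.2 i.2.2
  rw [Polynomial.map_map, aeval_def, aeval_def, eval₂_map, eval₂_map]
  exact h5

/-! ### the automorphism of the fraction field -/

private theorem vb_bar (σ : Type) (r : Laurent σ) : Laurent.bar (Laurent.bar r) = r := by
  have h : (Laurent.bar.comp Laurent.bar : Laurent σ →+* Laurent σ) = RingHom.id _ := by
    apply lift_ext
    intro i
    have h1 : (Laurent.bar : Laurent σ →+* Laurent σ) ((Laurent.var i : (Laurent σ)ˣ) : Laurent σ) =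
        (((Laurent.var i)⁻¹ : (Laurent σ)ˣ) : Laurent σ) := by
      rw [Laurent.bar, Laurent.lift_var]
    have h2 : (Laurent.bar : Laurent σ →+* Laurent σ)
        (((Laurent.var i)⁻¹ : (Laurent σ)ˣ) : Laurent σ) =
        ((Laurent.var i : (Laurent σ)ˣ) : Laurent σ) := by
      have h3 : (Laurent.bar : Laurent σ →+* Laurent σ)
          (((Laurent.var i)⁻¹ : (Laurent σ)ˣ) : Laurent σ) *
          (((Laurent.var i)⁻¹ : (Laurent σ)ˣ) : Laurent σ) = 1 := by
        have h4 : (Laurent.bar : Laurent σ →+* Laurent σ)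
            ((((Laurent.var i)⁻¹ : (Laurent σ)ˣ) : Laurent σ) *
              ((Laurent.var i : (Laurent σ)ˣ) : Laurent σ)) = 1 := by
          rw [Units.inv_mul, map_one]
        rwa [map_mul, h1] at h4
      calc _ = (Laurent.bar : Laurent σ →+* Laurent σ)
            (((Laurent.var i)⁻¹ : (Laurent σ)ˣ) : Laurent σ) *
            ((((Laurent.var i)⁻¹ : (Laurent σ)ˣ) : Laurent σ) *
              ((Laurent.var i : (Laurent σ)ˣ) : Laurent σ)) := by rw [Units.inv_mul, mul_one]
        _ = _ := by rw [← mul_assoc, h3, one_mul]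
    rw [RingHom.comp_apply, h1, h2, RingHom.id_apply]
  exact DFunLike.congr_fun h r

private theorem vb_tau (n : ℕ) : ∃ τ : KF n ≃+* KF n,
    (∀ r : RR n, τ (algebraMap (RR n) (KF n) r) = algebraMap (RR n) (KF n) (Laurent.bar r)) ∧
    (∀ c, τ (τ c) = c) ∧
    (∀ l, τ ((xK n l : (KF n)ˣ) : KF n) = (((xK n l)⁻¹ : (KF n)ˣ) : KF n)) := by
  let e : RR n ≃+* RR n := RingEquiv.ofRingHom Laurent.bar Laurent.bar
    (RingHom.ext (vb_bar _)) (RingHom.ext (vb_bar _))
  let τ : KF n ≃+* KF n := IsFractionRing.ringEquivOfRingEquiv e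
  have h1 : ∀ r : RR n, τ (algebraMap (RR n) (KF n) r) =
      algebraMap (RR n) (KF n) (Laurent.bar r) := fun r =>
    IsFractionRing.ringEquivOfRingEquiv_algebraMap e r
  refine ⟨τ, h1, ?_, ?_⟩
  · have h2 : ((τ : KF n →+* KF n).comp (τ : KF n →+* KF n)) = RingHom.id _ := by
      apply IsLocalization.ringHom_ext (nonZeroDivisors (RR n))
      refine RingHom.ext fun r => ?_
      change τ (τ (algebraMap (RR n) (KF n) r)) = algebraMap (RR n) (KF n) r
      rw [h1, h1, vb_bar]
    exact fun c => DFunLike.congr_fun h2 c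
  · intro l
    change τ (algebraMap (RR n) (KF n) (XX n l : RR n)) = _
    rw [h1]
    change algebraMap (RR n) (KF n) (Laurent.bar ((Laurent.var l : (RR n)ˣ) : RR n)) =
      (((Units.map ((algebraMap (RR n) (KF n) : RR n →+* KF n) : RR n →* KF n)
        (Laurent.var l))⁻¹ : (KF n)ˣ) : KF n)
    rw [← map_inv, Laurent.bar, Laurent.lift_var]
    rfl

private theorem vb_comm {k A : Type*} [CommRing k] [Ring A] [Algebra k A] (z u : A)
    (h : Commute z u) (p : k[X]) : Commute (aeval z p) u := by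
  induction p using Polynomial.induction_on' with
  | add p q hp hq => rw [map_add]; exact hp.add_left hq
  | monomial m c =>
    rw [aeval_monomial]
    exact (Algebra.commute_algebraMap_left _ _).mul_left (h.pow_left _)

theorem T_bar {n : ℕ} (hn : HN n) (ω : (KF n)[X]) (hω : IsOmega (xK n) ω)
    (T : H n (XX n) →ₗ[RR n] RR n) (hT : ∀ h, algebraMap (RR n) (KF n) (T h) =
      tr (xK n) ω (hmap (algebraMap (RR n) (KF n)) n (XX n) h)) (w : FreeGroup (Fin 3)) :
    Laurent.bar (T (wd n (XX n) w⁻¹ : H n (XX n))) * (CC n : RR n) =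
      T ((wd n (XX n) w : H n (XX n)) * zz n (XX n) ^ NZ n) := by
  have hinj : Function.Injective (algebraMap (RR n) (KF n)) := IsFractionRing.injective _ _
  have hr : finrank (KF n) (H n (xK n)) = NZ n ^ 2 := generic_rank n hn _ hinj
  have hfin : FiniteDimensional (KF n) (H n (xK n)) := finite_field n hn _
  obtain ⟨τ, hτ1, hτ2, hτ3⟩ := vb_tau n
  obtain ⟨Φ, hm, hc, hw⟩ := vb_exists (xK n) τ hτ3 hτ2
  have h1 : Φ 1 = 1 := by
    have h2 := hc 1
    rw [map_one τ, map_one (algebraMap (KF n) (H n (xK n)))] at h2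
    exact h2
  have hwd : ∀ v : FreeGroup (Fin 3), hmap (algebraMap (RR n) (KF n)) n (XX n)
      (wd n (XX n) v : H n (XX n)) = (wd n (xK n) v : H n (xK n)) := by
    intro v
    let F : FreeGroup (Fin 3) →* H n (xK n) :=
      ((hmap (algebraMap (RR n) (KF n)) n (XX n) : H n (XX n) →+* H n (xK n)) :
        H n (XX n) →* H n (xK n)).comp ((Units.coeHom (H n (XX n))).comp (wd n (XX n)))
    have hF : F = (Units.coeHom (H n (xK n))).comp (wd n (xK n)) := by
      apply FreeGroup.ext_hom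
      intro g
      change hmap (algebraMap (RR n) (KF n)) n (XX n) (wd n (XX n) (FreeGroup.of g) :
        H n (XX n)) = (wd n (xK n) (FreeGroup.of g) : H n (xK n))
      rw [wd_of, wd_of, hmap_gen]
    exact DFunLike.congr_fun hF v
  have hzu : Φ (zz n (xK n)) = (((zu n (xK n))⁻¹ : (H n (xK n))ˣ) : H n (xK n)) := by
    have h2 := hw (FreeGroup.of 0 * FreeGroup.of 1 * FreeGroup.of 2)⁻¹
    rw [inv_inv, map_inv] at h2
    rw [← zu_val]
    exact h2
  apply hinj
  have hC : algebraMap (RR n) (KF n) (CC n : RR n) =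
      ((mon (xK n) (2 • varpi n) : (KF n)ˣ) : KF n) := by
    rw [xK, mon_mapx]
    rfl
  have hcomm := fun u => zz_comm n (xK n) u
  rw [map_mul, ← hτ1, hT, hT, hwd, map_mul, map_pow, hwd, hmap_zz, tr_apply, tr_apply,
    ← trace_antisemilinear τ Φ hm hc, hm, hw, vb_poly (xK n) τ Φ hm hc h1, hzu, hC]
  have hom := vb_omega hn (indep_xK n) hr τ hτ3 ω hω
  have hlin : LinearMap.trace (KF n) (H n (xK n)) (LinearMap.mulRight (KF n)
      (aeval (((zu n (xK n))⁻¹ : (H n (xK n))ˣ) : H n (xK n)) (ω.map (τ : KF n →+* KF n)) *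
        (wd n (xK n) w : H n (xK n)))) * ((mon (xK n) (2 • varpi n) : (KF n)ˣ) : KF n) =
      LinearMap.trace (KF n) (H n (xK n)) (LinearMap.mulRight (KF n)
      (aeval (zz n (xK n)) ω * zz n (xK n) ^ NZ n * (wd n (xK n) w : H n (xK n)))) := by
    rw [← hom, mul_assoc (aeval _ _), Algebra.commutes, ← mul_assoc,
      mul_comm (LinearMap.trace _ _ _), ← smul_eq_mul, ← map_smul]
    congr 1
    ext u
    simp only [LinearMap.smul_apply, LinearMap.mulRight_apply]
    rw [← Algebra.commutes, ← Algebra.smul_def, mul_smul_comm]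
  rw [hlin, ← trace_left_right hn (indep_xK n) hr]
  congr 2
  have hz1 : Commute (zz n (xK n)) (wd n (xK n) w : H n (xK n)) := hcomm _
  have hz2 : Commute (aeval (zz n (xK n)) ω) (wd n (xK n) w : H n (xK n)) :=
    vb_comm _ _ hz1 ω
  have hz3 : Commute (aeval (zz n (xK n)) ω) (zz n (xK n) ^ NZ n) :=
    vb_comm _ _ ((Commute.refl _).pow_right _) ω
  rw [mul_assoc, ((hz1.pow_left _)).eq, ← mul_assoc, hz2.eq, mul_assoc, hz3.eq, mul_assoc]

end SYM
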