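import Pool.Agent.Lib.MP_b1ea0f_al.Defs4
import Pool.Agent.Lib.MP_b1ea0f_al.KAll
import Pool.Agent.Lib.MP_b1ea0f_al.BMap
import Pool.Agent.Lib.MP_b1ea0f_al.SFin

/-!
# VBasis: H is free over local rings; coordinates

`H n (XX n)` projective (`projective_H`), base change to the local ring `O` (`bc_equiv`): finite projective over a local ring: free (`Module.free_of_flat_of_isLocalRing` or similar). Rank: the residue field point, `finrank_all`. `O` nontrivial.
-/

namespace SYM
open Polynomial Module

theorem exists_basis {n : ℕ} (hn : HN n) {O : Type} [CommRing O] [IsLocalRing O]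
    (f : RR n →+* O) :
    ∃ (ι : Type) (_ : Finite ι) (_ : Basis ι O (H n (mapx f (XX n)))), Nat.card ι = NZ n ^ 2 := by
  let _ : Algebra (RR n) O := f.toAlgebra
  have h1 : Module.Finite (RR n) (H n (XX n)) := finite_H n hn (XX n)
  have h2 : Module.Projective (RR n) (H n (XX n)) := projective_H n hn
  obtain ⟨e, -⟩ := bc_equiv (k := RR n) (k' := O) n (XX n)
  have h3 : Module.Finite O (H n (mapx f (XX n))) := finite_H n hn _
  have h4 : Module.Projective O (H n (mapx (algebraMap (RR n) O) (XX n))) :=
    Module.Projective.of_equiv e.toLinearEquiv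
  have h5 : Module.Projective O (H n (mapx f (XX n))) := h4
  have h6 : Module.Free O (H n (mapx f (XX n))) := Module.free_of_flat_of_isLocalRing
  refine ⟨Module.Free.ChooseBasisIndex O (H n (mapx f (XX n))), inferInstance,
    Module.Free.chooseBasis O _, ?_⟩
  obtain ⟨b', -⟩ := exists_basis_map (IsLocalRing.residue O) n (mapx f (XX n))
    (Module.Free.chooseBasis O (H n (mapx f (XX n))))
  rw [← finrank_all n hn (mapx (IsLocalRing.residue O) (mapx f (XX n))),
    Module.finrank_eq_nat_card_basis b']

/-- coordinates on the projective module -/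
theorem exists_coord {n : ℕ} (hn : HN n) : ∃ (m : ℕ) (A : Fin m → (H n (XX n) →ₗ[RR n] RR n))
    (B : Fin m → H n (XX n)), ∀ h, h = ∑ i, A i h • B i := by
  classical
  have h1 : Module.Finite (RR n) (H n (XX n)) := finite_H n hn (XX n)
  have h2 : Module.Projective (RR n) (H n (XX n)) := projective_H n hn
  obtain ⟨m, p, hp⟩ := Module.Finite.exists_fin' (RR n) (H n (XX n))
  obtain ⟨s, hs⟩ := Module.projective_lifting_property p LinearMap.id hp
  refine ⟨m, fun i => (LinearMap.proj i).comp s, fun i => p (Pi.single i 1), fun h => ?_⟩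
  have h3 : p (s h) = h := LinearMap.congr_fun hs h
  conv_lhs => rw [← h3]
  rw [LinearMap.pi_apply_eq_sum_univ p (s h)]
  refine Finset.sum_congr rfl fun i _ => ?_
  congr 2
  funext j
  simp [Pi.single_apply, eq_comm]

end SYM
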