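import Pool.Agent.Lib.MP_b1ea0f_al.Defs4
import Pool.Agent.Lib.MP_b1ea0f_al.KLaur

/-!
# VCurve: the curve satisfies LocHyp

Direct from the definition of `curve`.
-/

namespace SYM
open Polynomial Module

theorem locHyp_curve {n : ℕ} {KK : Type} [Field KK] (k : J n) (y : J n → KKˣ)
    (hy : ∀ v : J n → ℤ, v k = 0 → ∏ l, y l ^ v l = 1 → v = 0) :
    LocHyp n (mapx (curve k y) (XX n)) k := by
  have h1 : ∀ l, l ≠ k → ((mapx (curve k y) (XX n) l : (PowerSeries KK)ˣ) : PowerSeries KK) =
      PowerSeries.C (y l : KK) := by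
    intro l hl
    change curve k y ((Laurent.var l : (RR n)ˣ) : RR n) = _
    unfold curve
    rw [Laurent.lift_var, if_neg hl]
    rfl
  have h2 : ((mapx (curve k y) (XX n) k : (PowerSeries KK)ˣ) : PowerSeries KK) =
      PowerSeries.C (y k : KK) + PowerSeries.X := by
    change curve k y ((Laurent.var k : (RR n)ˣ) : RR n) = _
    unfold curve
    rw [Laurent.lift_var, if_pos rfl]
  refine ⟨fun l hl => ?_, ?_, fun v hv h => ?_⟩
  · rw [h1 l hl]
    simp
  · rw [h2]
    simp
  · apply hy v hv
    rw [← h]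
    unfold mon
    refine Finset.prod_congr rfl fun l _ => ?_
    congr 1
    apply Units.ext
    change (y l : KK) = (PowerSeries.constantCoeff (R := KK))
      ((mapx (curve k y) (XX n) l : (PowerSeries KK)ˣ) : PowerSeries KK)
    by_cases hl : l = k
    · subst hl
      rw [h2]
      simp
    · rw [h1 l hl]
      simp

end SYM
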