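import Pool.Agent.Lib.MP_b1ea0f_al.Defs4
import Pool.Agent.Lib.MP_b1ea0f_al.VCurve
import Pool.Agent.Lib.MP_b1ea0f_al.VBasis
import Pool.Agent.Lib.MP_b1ea0f_al.ULoc
import Pool.Agent.Lib.MP_b1ea0f_al.TProps
import Pool.Agent.Lib.MP_b1ea0f_al.VIndep
import Pool.Agent.Lib.MP_b1ea0f_al.TOmega
import Pool.Agent.Lib.MP_b1ea0f_al.BMap

/-!
# VLocT: the local trace on a curve

`φ = curve k y` injective; `F : KF n →+* LaurentSeries KK` its extension (`IsFractionRing.lift`), `F ∘ algebraMap = algebraMap ∘ φ`. `local_thm` for `mapx φ (XX n)` (`locHyp_curve`, `exists_basis`) and `ω.map F` (`IsOmega.map`). By `tr_map`: `algebraMap (T' (hmap φ h)) = F (tr (xK n) ω (hmap h))`. CAREFUL: `mapx F (xK n)` and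
`mapx algebraMap (mapx φ (XX n))` are equal (both `mapx _ (XX n)` for equal ring homs, `mapx g (mapx f x) = mapx (g.comp f) x` is `rfl`); transport along the equality of ring homs (generalize it and `subst`).
-/

namespace SYM
open Polynomial Module

private theorem vl_hmap_hmap {k k' k'' : Type} [CommRing k] [CommRing k'] [CommRing k'']
    (f : k →+* k') (f' : k' →+* k'') (n : ℕ) (x : J n → kˣ) (h : H n x) :
    hmap f' n (mapx f x) (hmap f n x h) = hmap (f'.comp f) n x h := by
  have hh : h ∈ Algebra.adjoin k (Set.range (gen n x)) := by rw [adjoin_gen]; trivial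
  induction hh using Algebra.adjoin_induction with
  | mem y hy =>
    obtain ⟨g, rfl⟩ := hy
    rw [hmap_gen, hmap_gen, hmap_gen]
    rfl
  | algebraMap r =>
    rw [hmap_algebraMap, hmap_algebraMap, hmap_algebraMap]
    rfl
  | add y z _ _ hy hz => rw [map_add, map_add, hy, hz]; exact (map_add _ _ _).symm
  | mul y z _ _ hy hz => rw [map_mul, map_mul, hy, hz]; exact (map_mul _ _ _).symm

private theorem vl_tr_congr {n : ℕ} {k L : Type} [CommRing k] [Field L] (f f' : k →+* L)
    (hf : f = f') (x : J n → kˣ) (ω : L[X]) (h : H n x) :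
    tr (mapx f x) ω (hmap f n x h) = tr (mapx f' x) ω (hmap f' n x h) := by
  subst hf
  rfl

private theorem vl_omega_congr {n : ℕ} {k L : Type} [CommRing k] [Field L] (f f' : k →+* L)
    (hf : f = f') (x : J n → kˣ) (ω : L[X]) (h : IsOmega (mapx f x) ω) :
    IsOmega (mapx f' x) ω := by
  subst hf
  exact h

theorem exists_Tloc {n : ℕ} (hn : HN n) (ω : (KF n)[X]) (hω : IsOmega (xK n) ω)
    {KK : Type} [Field KK] [IsAlgClosed KK] [CharZero KK] (k : J n) (y : J n → KKˣ)
    (hy : ∀ v : J n → ℤ, v k = 0 → ∏ l, y l ^ v l = 1 → v = 0)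
    (hinj : Function.Injective (curve k y)) :
    ∃ T' : H n (mapx (curve k y) (XX n)) →ₗ[PowerSeries KK] PowerSeries KK, Frob T' ∧
      ∀ (h : H n (XX n)) (u w : RR n), w ≠ 0 →
        algebraMap (RR n) (KF n) w * tr (xK n) ω (hmap (algebraMap (RR n) (KF n)) n (XX n) h) =
          algebraMap (RR n) (KF n) u →
        curve k y w * T' (hmap (curve k y) n (XX n) h) = curve k y u := by
  set φ : RR n →+* PowerSeries KK := curve k y with hφ
  set g : PowerSeries KK →+* LaurentSeries KK := algebraMap (PowerSeries KK) (LaurentSeries KK)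
    with hg
  have hgi : Function.Injective g := HahnSeries.ofPowerSeries_injective
  have hgφ : Function.Injective (g.comp φ) := hgi.comp hinj
  have hdom : IsDomain (RR n) := hinj.isDomain φ
  set F : KF n →+* LaurentSeries KK := IsFractionRing.lift hgφ with hF
  have hFa : ∀ r, F (algebraMap (RR n) (KF n) r) = g (φ r) := fun r =>
    IsFractionRing.lift_algebraMap hgφ r
  have hcomp : F.comp (algebraMap (RR n) (KF n)) = g.comp φ := RingHom.ext hFa
  obtain ⟨ι, hι, b, hb⟩ := exists_basis hn φ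
  have hΩ : IsOmega (mapx g (mapx φ (XX n))) (ω.map F) :=
    vl_omega_congr (F.comp (algebraMap (RR n) (KF n))) (g.comp φ) hcomp (XX n) _ (hω.map F)
  obtain ⟨T, hT, hTr⟩ := local_thm hn (locHyp_curve k y hy) b hb (ω.map F) hΩ
  refine ⟨T, hT, ?_⟩
  intro h u w _ huw
  apply hgi
  have e1 : g (T (hmap φ n (XX n) h)) =
      F (tr (xK n) ω (hmap (algebraMap (RR n) (KF n)) n (XX n) h)) := by
    rw [hTr, ← tr_map hn (xK n) ω F]
    rw [vl_hmap_hmap, vl_hmap_hmap]
    exact (vl_tr_congr (F.comp (algebraMap (RR n) (KF n))) (g.comp φ) hcomp (XX n) _ h).symm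
  rw [map_mul, e1, ← hFa, ← map_mul, huw, hFa]


end SYM
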