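import Pool.Agent.Lib.MP_b1ea0f_al.Defs4
import Pool.Agent.Lib.MP_b1ea0f_al.VLocT
import Pool.Agent.Lib.MP_b1ea0f_al.BMap
import Pool.Agent.Lib.MP_b1ea0f_al.KLaur

/-!
# VDivC: divisibility along curves

`T'` of `exists_Tloc`: `T' (hmap φ h) = φ (T h)` (take `w = 1`), `Frob T'`: `u' := hmap φ u`, `u' = ∑ T'(u' a_i) b_i` and `φ(w) ∣ T'(h' u')` for all `h'` (span of the image), `T'` symmetric; so `u' = φ(w) u''`; apply the base change of `A` (`exists_form_map`).
-/

namespace SYM
open Polynomial Module

/-- symmetry of a form from symmetry on the image of the base change map -/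
private theorem symm_of_span {n : ℕ} {k k' : Type} [CommRing k] [CommRing k'] (f : k →+* k')
    (x : J n → kˣ) (T' : H n (mapx f x) →ₗ[k'] k')
    (h : ∀ a b, T' (hmap f n x a * hmap f n x b) = T' (hmap f n x b * hmap f n x a))
    (a b : H n (mapx f x)) : T' (a * b) = T' (b * a) := by
  have h1 : ∀ c : H n x, ∀ b : H n (mapx f x), T' (hmap f n x c * b) = T' (b * hmap f n x c) := by
    intro c b
    have hb : b ∈ Submodule.span k' (Set.range (hmap f n x)) := by
      rw [hmap_span]; trivial
    induction hb using Submodule.span_induction with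
    | mem y hy =>
      obtain ⟨d, rfl⟩ := hy
      exact h c d
    | zero => simp
    | add y z _ _ hy hz => rw [mul_add, add_mul, map_add, map_add, hy, hz]
    | smul r y _ hy => rw [mul_smul_comm, smul_mul_assoc, map_smul, map_smul, hy]
  have ha : a ∈ Submodule.span k' (Set.range (hmap f n x)) := by
    rw [hmap_span]; trivial
  induction ha using Submodule.span_induction with
  | mem y hy =>
    obtain ⟨d, rfl⟩ := hy
    exact h1 d b
  | zero => simp
  | add y z _ _ hy hz => rw [mul_add, add_mul, map_add, map_add, hy, hz]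
  | smul r y _ hy => rw [mul_smul_comm, smul_mul_assoc, map_smul, map_smul, hy]

theorem div_curve {n : ℕ} (hn : HN n) (ω : (KF n)[X]) (hω : IsOmega (xK n) ω)
    (T : H n (XX n) →ₗ[RR n] RR n) (hT : ∀ h, algebraMap (RR n) (KF n) (T h) =
      tr (xK n) ω (hmap (algebraMap (RR n) (KF n)) n (XX n) h)) (w : RR n) (hw : w ≠ 0)
    (u : H n (XX n)) (hu : ∀ h, w ∣ T (h * u)) (A : H n (XX n) →ₗ[RR n] RR n)
    {KK : Type} [Field KK] [IsAlgClosed KK] [CharZero KK] (k : J n) (y : J n → KKˣ)
    (hy : ∀ v : J n → ℤ, v k = 0 → ∏ l, y l ^ v l = 1 → v = 0)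
    (hinj : Function.Injective (curve k y)) : curve k y w ∣ curve k y (A u) := by
  obtain ⟨T', ⟨m, a, b, hab⟩, hT'⟩ := exists_Tloc hn ω hω k y hy hinj
  -- compatibility
  have h1 : ∀ h : H n (XX n), T' (hmap (curve k y) n (XX n) h) = curve k y (T h) := by
    intro h
    have h2 := hT' h (T h) 1 one_ne_zero (by rw [map_one, one_mul, hT])
    rwa [map_one, one_mul] at h2
  -- symmetry of `T`
  have hinjK : Function.Injective (algebraMap (RR n) (KF n)) := IsFractionRing.injective _ _
  have hsym : ∀ h h' : H n (XX n), T (h * h') = T (h' * h) := by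
    intro h h'
    apply hinjK
    rw [hT, hT, (hmap (algebraMap (RR n) (KF n)) n (XX n)).map_mul,
      (hmap (algebraMap (RR n) (KF n)) n (XX n)).map_mul, tr_comm]
  have hsym' : ∀ h h', T' (h * h') = T' (h' * h) := by
    apply symm_of_span
    intro c d
    rw [← map_mul, ← map_mul, h1, h1, hsym]
  -- divisibility
  have hdiv : ∀ h', curve k y w ∣ T' (h' * hmap (curve k y) n (XX n) u) := by
    intro h'
    have hh : h' ∈ Submodule.span (PowerSeries KK) (Set.range (hmap (curve k y) n (XX n))) := by
      rw [hmap_span]; trivial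
    induction hh using Submodule.span_induction with
    | mem y' hy' =>
      obtain ⟨d, rfl⟩ := hy'
      rw [← map_mul, h1]
      exact map_dvd _ (hu d)
    | zero => simp
    | add y' z' _ _ hy' hz' => rw [add_mul, map_add]; exact dvd_add hy' hz'
    | smul r y' _ hy' => rw [smul_mul_assoc, map_smul]; exact Dvd.dvd.mul_left hy' r
  have hdiv' : ∀ i, ∃ c, T' (hmap (curve k y) n (XX n) u * a i) = curve k y w * c := by
    intro i
    rw [hsym']
    exact hdiv (a i)
  choose c hc using hdiv'
  have hu' : hmap (curve k y) n (XX n) u = curve k y w • ∑ i, c i • b i := by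
    conv_lhs => rw [hab (hmap (curve k y) n (XX n) u)]
    rw [Finset.smul_sum]
    refine Finset.sum_congr rfl fun i _ => ?_
    rw [hc, mul_smul]
  obtain ⟨A', hA'⟩ := exists_form_map (curve k y) n (XX n) A
  rw [← hA', hu', map_smul, smul_eq_mul]
  exact dvd_mul_right _ _

end SYM
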