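import Pool.Agent.Lib.MP_b1ea0f_al.Defs4
import Pool.Agent.Lib.MP_b1ea0f_al.VIndep
import Pool.Agent.Lib.MP_b1ea0f_al.TOmega
import Pool.Agent.Lib.MP_b1ea0f_al.TProps
import Pool.Agent.Lib.MP_b1ea0f_al.TForm
import Pool.Agent.Lib.MP_b1ea0f_al.GSplit
import Pool.Agent.Lib.MP_b1ea0f_al.KFin
import Pool.Agent.Lib.MP_b1ea0f_al.KAll
import Pool.Agent.Lib.MP_b1ea0f_al.VBasis
import Pool.Agent.Lib.MP_b1ea0f_al.UHensel
import Pool.Agent.Lib.MP_b1ea0f_al.RGroup
import Pool.Agent.Lib.MP_b1ea0f_al.RInd
import Pool.Agent.Lib.MP_b1ea0f_al.TIndep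
import Pool.Agent.Lib.MP_b1ea0f_al.RHalf
import Pool.Agent.Lib.MP_b1ea0f_al.BMap

/-!
# VGrp: the value of the trace at the group point

Paper 8.7. WLOG the target is `κ0` = algebraic closure of `FractionRing (MvPolynomial (J n) κ)` (⊇ κ). `φ : RR n → κ0⟦X⟧`, `x_l ↦ C (f x_l) + X C(X_l)`, injective, `cc ∘ φ = f`. `Om` := algebraic closure of `LaurentSeries κ0`. `tr = ∑_{i} tr ρ_i / (d_i s_i)` over `Om`. For each `i = (α, ζ)` over `Om`: `ζ` is the image of an element of
`κ0⟦X⟧` (roots lift from `κ0`), and `schur α .. ζ` is the image of a power series with constant term `N²/d²` (`schur_group`). Hence `N² T(h) ≡ ∑ d_i tr ρ_i(h)·(1 + X..)`: make it precise: `N² s_i^{-1} d_i^{-2} = 1 + X g_i` with `g_i ∈ κ0⟦X⟧`, `N² φ(T h) = ∑_i d_i tr ρ_i(h)(1 + X g_i) = Tr(L_h) + X ·(integral over κ0⟦X⟧)`;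
`tr ρ_i(h)` is integral over `κ0⟦X⟧` (or use the lattice representations as in ULatB), the difference is in `κ0((X))` and integral, so in `κ0⟦X⟧`: constant terms agree.
-/

namespace SYM
open Polynomial Module

theorem exists_groupPoint {κ : Type} [Field κ] [CharZero κ] [IsAlgClosed κ] (n : ℕ) (hn : HN n) :
    ∃ (f : RR n →+* κ) (ξ : κˣ), IsGroupPoint ξ (mapx f (XX n)) := by
  have h0 : 0 < NZ n := by
    rcases hn with rfl | rfl | rfl <;> decide
  have : NeZero (NZ n : κ) := ⟨Nat.cast_ne_zero.2 h0.ne'⟩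
  obtain ⟨ξ, hξ⟩ := HasEnoughRootsOfUnity.exists_primitiveRoot κ (NZ n)
  have hu : IsUnit ξ := hξ.isUnit h0.ne'
  obtain ⟨u, rfl⟩ := hu
  refine ⟨Laurent.lift fun l => u ^ (NZ n / leg n l.1 * ((l.2 : ℕ) + 1)), u, ?_⟩
  rw [mapx_lift]
  exact ⟨IsPrimitiveRoot.coe_units_iff.1 hξ, fun l => rfl⟩

/-! ### injectivity of homomorphisms of Laurent polynomial rings -/

private noncomputable def jj (σ : Type) : MvPolynomial σ ℤ →+* Laurent σ :=
  MvPolynomial.eval₂Hom (Int.castRingHom _) fun i => ((Laurent.var i : (Laurent σ)ˣ) : Laurent σ)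

private theorem single_var {σ : Type} (i : σ) (m : ℤ) :
    (AddMonoidAlgebra.single (Finsupp.single i m) (1 : ℤ) : Laurent σ) =
      ((Laurent.var i ^ m : (Laurent σ)ˣ) : Laurent σ) := by
  have hN : ∀ k : ℕ, (AddMonoidAlgebra.single (Finsupp.single i (k : ℤ)) (1 : ℤ) : Laurent σ) =
      ((Laurent.var i ^ k : (Laurent σ)ˣ) : Laurent σ) := by
    intro k
    induction k with
    | zero => simp [AddMonoidAlgebra.one_def]
    | succ k ih =>
      rw [pow_succ, Units.val_mul, ← ih]
      show _ = AddMonoidAlgebra.single _ _ * AddMonoidAlgebra.single _ _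
      rw [AddMonoidAlgebra.single_mul_single, ← Finsupp.single_add]
      push_cast
      simp
  rcases Int.eq_nat_or_neg m with ⟨k, rfl | rfl⟩
  · rw [hN, zpow_natCast]
  · rw [zpow_neg, zpow_natCast]
    refine eq_comm.1 (Units.inv_eq_of_mul_eq_one_right ?_)
    rw [← hN, AddMonoidAlgebra.single_mul_single, ← Finsupp.single_add]
    simp [AddMonoidAlgebra.one_def]

private theorem exists_mul {σ : Type} (p : Laurent σ) : ∃ (u : (Laurent σ)ˣ)
    (r q : MvPolynomial σ ℤ), (u : Laurent σ) = jj σ r ∧ p * u = jj σ q := by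
  have h1 : ∀ v : σ →₀ ℤ, ∃ (u : (Laurent σ)ˣ) (r q : MvPolynomial σ ℤ),
      (u : Laurent σ) = jj σ r ∧
      (AddMonoidAlgebra.single v (1 : ℤ) : Laurent σ) * u = jj σ q := by
    intro v
    induction v using Finsupp.induction_linear with
    | zero =>
      refine ⟨1, 1, 1, ?_, ?_⟩
      · rw [Units.val_one, map_one]
      · rw [Units.val_one, mul_one, map_one, AddMonoidAlgebra.one_def]
    | add v w hv hw =>
      obtain ⟨u, r, q, hr, hu⟩ := hv
      obtain ⟨u', r', q', hr', hu'⟩ := hw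
      refine ⟨u * u', r * r', q * q', ?_, ?_⟩
      · rw [Units.val_mul, map_mul, hr, hr']
      have h2 : (AddMonoidAlgebra.single (v + w) (1 : ℤ) : Laurent σ) =
          AddMonoidAlgebra.single v 1 * AddMonoidAlgebra.single w 1 := by
        rw [AddMonoidAlgebra.single_mul_single, mul_one]
      rw [h2, Units.val_mul, map_mul, ← hu, ← hu']
      ring
    | single i m =>
      rcases Int.eq_nat_or_neg m with ⟨k, rfl | rfl⟩
      · refine ⟨1, 1, MvPolynomial.X i ^ k, ?_, ?_⟩
        · rw [Units.val_one, map_one]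
        rw [single_var, zpow_natCast, map_pow]
        simp [jj]
      · refine ⟨Laurent.var i ^ k, MvPolynomial.X i ^ k, 1, ?_, ?_⟩
        · rw [map_pow]
          simp [jj]
        rw [single_var, zpow_neg, zpow_natCast, Units.inv_mul, map_one]
  induction p using AddMonoidAlgebra.induction_linear with
  | zero => exact ⟨1, 1, 0, by rw [Units.val_one, map_one], by rw [zero_mul, map_zero]⟩
  | add p p' hp hp' =>
    obtain ⟨u, r, q, hr, hu⟩ := hp
    obtain ⟨u', r', q', hr', hu'⟩ := hp'
    refine ⟨u * u', r * r', q * r' + q' * r, ?_, ?_⟩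
    · rw [Units.val_mul, map_mul, hr, hr']
    rw [map_add, map_mul, map_mul, ← hu, ← hu', ← hr, ← hr', Units.val_mul]
    ring
  | single v c =>
    obtain ⟨u, r, q, hr, hu⟩ := h1 v
    refine ⟨u, r, MvPolynomial.C c * q, hr, ?_⟩
    have h2 : jj σ (MvPolynomial.C c) = AddMonoidAlgebra.single 0 c := by
      simp only [jj, MvPolynomial.coe_eval₂Hom, MvPolynomial.eval₂_C]
      rw [eq_intCast, ← zsmul_one, AddMonoidAlgebra.one_def]
      simp
    rw [map_mul, ← hu, h2, ← mul_assoc, AddMonoidAlgebra.single_mul_single, zero_add, mul_one]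

private theorem lift_inj {σ : Type} {k : Type} [CommRing k] (y : σ → kˣ)
    (hy : ∀ q : MvPolynomial σ ℤ,
      MvPolynomial.eval₂Hom (Int.castRingHom k) (fun i => (y i : k)) q = 0 → q = 0) :
    Function.Injective (Laurent.lift y) := by
  rw [injective_iff_map_eq_zero]
  intro p hp
  obtain ⟨u, r, q, hr, hu⟩ := exists_mul p
  have h1 : (Laurent.lift y).comp (jj σ) =
      MvPolynomial.eval₂Hom (Int.castRingHom k) (fun i => (y i : k)) := by
    apply MvPolynomial.ringHom_ext
    · intro c
      simp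
    · intro i
      simp [jj]
  have h2 : q = 0 := by
    apply hy
    rw [← h1, RingHom.comp_apply, ← hu, map_mul, hp, zero_mul]
  rw [h2, map_zero] at hu
  exact (Units.mul_left_eq_zero u).1 hu

private theorem laurent_ext {σ : Type} {k : Type*} [CommRing k] {F G : Laurent σ →+* k}
    (h : ∀ i, F (Laurent.var i : (Laurent σ)ˣ) = G (Laurent.var i : (Laurent σ)ˣ)) : F = G := by
  have h1 : ∀ v : σ →₀ ℤ, F (AddMonoidAlgebra.single v 1) = G (AddMonoidAlgebra.single v 1) := by
    intro v
    induction v using Finsupp.induction_linear with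
    | zero => rw [← AddMonoidAlgebra.one_def, map_one, map_one]
    | add v w hv hw =>
      have h2 : (AddMonoidAlgebra.single (v + w) (1 : ℤ) : Laurent σ) =
          AddMonoidAlgebra.single v 1 * AddMonoidAlgebra.single w 1 := by
        rw [AddMonoidAlgebra.single_mul_single, mul_one]
      rw [h2, map_mul, map_mul, hv, hw]
    | single i m =>
      rw [single_var]
      have h3 : Units.map (F : Laurent σ →* k) (Laurent.var i) =
          Units.map (G : Laurent σ →* k) (Laurent.var i) := Units.ext (h i)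
      have h4 : Units.map (F : Laurent σ →* k) (Laurent.var i ^ m) =
          Units.map (G : Laurent σ →* k) (Laurent.var i ^ m) := by
        rw [map_zpow, map_zpow, h3]
      exact congrArg Units.val h4
  refine RingHom.ext fun p => ?_
  induction p using AddMonoidAlgebra.induction_linear with
  | zero => rw [map_zero, map_zero]
  | add p p' hp hp' => rw [map_add, map_add, hp, hp']
  | single v c =>
    have h2 : (AddMonoidAlgebra.single v c : Laurent σ) = c • AddMonoidAlgebra.single v 1 := by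
      simp
    rw [h2, map_zsmul, map_zsmul, h1]

/-! ### a homomorphism to a power series ring -/

section ps
variable {κ : Type} [Field κ] [CharZero κ] {n : ℕ}

private noncomputable def yy (a : J n → κˣ) (l : J n) : (MvPowerSeries (J n) κ)ˣ :=
  (MvPowerSeries.isUnit_iff_constantCoeff.2 (by simp :
    IsUnit (MvPowerSeries.constantCoeff (MvPowerSeries.C (a l : κ) + MvPowerSeries.X l)))).unit

omit [CharZero κ] in
private theorem yy_val (a : J n → κˣ) (l : J n) : ((yy a l : (MvPowerSeries (J n) κ)ˣ) :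
    MvPowerSeries (J n) κ) = MvPowerSeries.C (a l : κ) + MvPowerSeries.X l := rfl

private theorem yy_inj (a : J n → κˣ) : Function.Injective (Laurent.lift (yy a)) := by
  apply lift_inj
  intro q hq
  have h1 : (MvPolynomial.eval₂Hom (Int.castRingHom (MvPowerSeries (J n) κ))
      (fun i => ((yy a i : (MvPowerSeries (J n) κ)ˣ) : MvPowerSeries (J n) κ))) =
      (MvPolynomial.coeToMvPowerSeries.ringHom (R := κ) (σ := J n)).comp
        ((MvPolynomial.aeval (R := κ) fun l => (MvPolynomial.C (a l : κ) +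
          MvPolynomial.X l : MvPolynomial (J n) κ)).toRingHom.comp
          (MvPolynomial.map (Int.castRingHom κ))) := by
    apply MvPolynomial.ringHom_ext
    · intro c
      simp
    · intro i
      simp [yy_val]
  have h2 : Function.Injective ((MvPolynomial.aeval (R := κ) fun l => (MvPolynomial.C (a l : κ) +
          MvPolynomial.X l : MvPolynomial (J n) κ))) := by
    apply Function.LeftInverse.injective
      (g := MvPolynomial.aeval (R := κ) fun l => (MvPolynomial.X l - MvPolynomial.C (a l : κ)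
        : MvPolynomial (J n) κ))
    intro p
    rw [← AlgHom.comp_apply]
    have h3 : (MvPolynomial.aeval (R := κ) fun l => (MvPolynomial.X l - MvPolynomial.C (a l : κ)
        : MvPolynomial (J n) κ)).comp (MvPolynomial.aeval (R := κ) fun l =>
          (MvPolynomial.C (a l : κ) + MvPolynomial.X l : MvPolynomial (J n) κ)) =
        AlgHom.id κ _ := by
      apply MvPolynomial.algHom_ext
      intro i
      simp [MvPolynomial.algebraMap_eq]
    rw [h3]
    rfl
  rw [h1] at hq
  have h4 : Function.Injective (MvPolynomial.map (σ := J n) (Int.castRingHom κ)) :=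
    MvPolynomial.map_injective _ Int.cast_injective
  have h5 := MvPolynomial.coe_injective (σ := J n) (R := κ)
  have h6 : ((MvPolynomial.aeval (R := κ) fun l => (MvPolynomial.C (a l : κ) +
          MvPolynomial.X l : MvPolynomial (J n) κ)) (MvPolynomial.map (Int.castRingHom κ) q)) = 0 := by
    apply h5
    rw [MvPolynomial.coe_zero]
    exact hq
  rw [← map_zero (MvPolynomial.aeval (R := κ) fun l => (MvPolynomial.C (a l : κ) +
          MvPolynomial.X l : MvPolynomial (J n) κ))] at h6
  have h7 := h2 h6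
  rw [← map_zero (MvPolynomial.map (σ := J n) (Int.castRingHom κ))] at h7
  exact h4 h7

end ps

/-! ### base change -/

private theorem hmap_hmap {k k' k'' : Type*} [CommRing k] [CommRing k'] [CommRing k'']
    (f : k →+* k') (g : k' →+* k'') (n : ℕ) (x : J n → kˣ) (h : H n x) :
    (hmap g n (mapx f x) (hmap f n x h) : H n (mapx g (mapx f x))) = hmap (g.comp f) n x h := by
  let : Algebra k (H n (mapx (g.comp f) x)) := Algebra.compHom _ (g.comp f)
  let F1 : H n x →ₐ[k] H n (mapx (g.comp f) x) :=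
    { toRingHom := (hmap g n (mapx f x)).comp (hmap f n x)
      commutes' := fun r => by
        show hmap g n (mapx f x) (hmap f n x (algebraMap k _ r)) = _
        rw [hmap_algebraMap, hmap_algebraMap]
        rfl }
  let F2 : H n x →ₐ[k] H n (mapx (g.comp f) x) :=
    { toRingHom := hmap (g.comp f) n x
      commutes' := fun r => by
        show hmap (g.comp f) n x (algebraMap k _ r) = _
        rw [hmap_algebraMap]
        rfl }
  have h1 : F1 = F2 := by
    apply hom_ext
    intro i
    show hmap g n (mapx f x) (hmap f n x (gen n x i)) = hmap (g.comp f) n x (gen n x i)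
    rw [hmap_gen, hmap_gen, hmap_gen]
    rfl
  exact DFunLike.congr_fun h1 h

private noncomputable def tG {n : ℕ} {k : Type} [CommRing k] (G : RR n →+* k)
    (h : H n (XX n)) : k :=
  LinearMap.trace k (H n (mapx G (XX n))) (LinearMap.mulLeft k (hmap G n (XX n) h))

private theorem tG_comp {n : ℕ} (hn : HN n) {k k' : Type} [CommRing k] [CommRing k']
    [Nontrivial k'] (F : RR n →+* k) (g : k →+* k') (G : RR n →+* k') (hG : G = g.comp F)
    {ι : Type} [Finite ι] (b : Basis ι k (H n (mapx F (XX n)))) (h : H n (XX n)) :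
    tG G h = g (tG F h) := by
  subst hG
  have h1 := trace_mulLeft_map hn (mapx F (XX n)) g b (hmap F n (XX n) h)
  rw [hmap_hmap] at h1
  exact h1

private theorem kill_poly {n : ℕ} {O Ω : Type} [CommRing O] [CommRing Ω] (i0 : O →+* Ω)
    (F0 : RR n →+* O) (G : RR n →+* Ω) (hG : G = i0.comp F0)
    [Module.Finite O (H n (mapx F0 (XX n)))] (h : H n (XX n)) :
    ∃ p : O[X], p.Monic ∧ aeval (hmap G n (XX n) h) (p.map i0) = 0 := by
  subst hG
  obtain ⟨p, hp, hp'⟩ := IsIntegral.of_finite O (hmap F0 n (XX n) h)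
  refine ⟨p, hp, ?_⟩
  have h1 := congrArg (hmap i0 n (mapx F0 (XX n))) hp'
  rw [Polynomial.hom_eval₂, map_zero, hmap_hmap] at h1
  rw [Polynomial.aeval_def, Polynomial.eval₂_map]
  have h2 : (algebraMap Ω (H n (mapx (i0.comp F0) (XX n)))).comp i0 =
      (hmap i0 n (mapx F0 (XX n))).comp (algebraMap O (H n (mapx F0 (XX n)))) := by
    refine RingHom.ext fun r => ?_
    exact (hmap_algebraMap i0 n (mapx F0 (XX n)) r).symm
  rw [h2]
  exact h1

private theorem exists_trace {O Ω : Type} [CommRing O] [IsDomain O] [IsIntegrallyClosed O]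
    [Field Ω] [Algebra O Ω] [IsFractionRing O Ω] [IsAlgClosed Ω] {d : ℕ}
    (M : Module.End Ω (Fin d → Ω)) (p : O[X]) (hp : p.Monic)
    (hM : aeval M (p.map (algebraMap O Ω)) = 0) :
    ∃ t : O, algebraMap O Ω t = LinearMap.trace Ω _ M := by
  rw [← IsIntegrallyClosed.isIntegral_iff (K := Ω)]
  rw [Module.End.trace_eq_sum_roots_charpoly_of_splits (IsAlgClosed.splits _)]
  apply IsIntegral.multiset_sum
  intro μ hμ
  have h1 : M.HasEigenvalue μ :=
    (Module.End.hasEigenvalue_iff_isRoot_charpoly M μ).2 (Polynomial.isRoot_of_mem_roots hμ)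
  obtain ⟨v, hv⟩ := h1.exists_hasEigenvector
  have h2 := Module.End.aeval_apply_of_hasEigenvector (p := p.map (algebraMap O Ω)) hv
  rw [hM, LinearMap.zero_apply] at h2
  have h3 := (smul_eq_zero.1 h2.symm).resolve_right hv.2
  refine ⟨p, hp, ?_⟩
  rw [← Polynomial.eval_map]
  exact h3

private theorem schur_loc {n : ℕ} (hn : HN n)
    {O Ω : Type} [CommRing O] [IsDomain O] [IsLocalRing O] [IsIntegrallyClosed O]
    [Field Ω] [Algebra O Ω] [IsFractionRing O Ω] [CharZero Ω]
    [CharZero (IsLocalRing.ResidueField O)]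
    (F0 : RR n →+* O) (xo : J n → Ωˣ) (hx : xo = mapx (algebraMap O Ω) (mapx F0 (XX n)))
    (ξ : (IsLocalRing.ResidueField O)ˣ)
    (hξ : IsGroupPoint ξ (mapx ((IsLocalRing.residue O).comp F0) (XX n)))
    {α : Vec n} (hα : α ∈ Rc n) (ζ : Ωˣ) (hζ : ζ ^ dg α = mon xo α) :
    ∃ c : O, IsLocalRing.residue O c = 0 ∧
      (NZ n : Ω) ^ 2 / ((dg α : Ω) * schur α xo ζ) = (dg α : Ω) * (1 + algebraMap O Ω c) := by
  have hi0 : Function.Injective (algebraMap O Ω) := IsFractionRing.injective O Ω
  obtain ⟨-, hd1, -, -⟩ := dg_bounds hn hα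
  have hζ1 : ζ ^ dg α = Units.map (algebraMap O Ω : O →* Ω)
      (mon (mapx F0 (XX n)) α) := by
    rw [hζ, hx, mon_mapx]
  have hζ2 : ((ζ : Ωˣ) : Ω) ^ dg α =
      algebraMap O Ω (mon (mapx F0 (XX n)) α : Oˣ) := by
    have h3 := congrArg Units.val hζ1
    rwa [Units.val_pow_eq_pow_val] at h3
  have hζ3 : ((ζ⁻¹ : Ωˣ) : Ω) ^ dg α =
      algebraMap O Ω ((mon (mapx F0 (XX n)) α)⁻¹ : Oˣ) := by
    have h4 : (ζ⁻¹) ^ dg α = Units.map (algebraMap O Ω : O →* Ω)
      (mon (mapx F0 (XX n)) α)⁻¹ := by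
      rw [inv_pow, hζ1, map_inv]
    have h3 := congrArg Units.val h4
    rwa [Units.val_pow_eq_pow_val] at h3
  obtain ⟨y, hy⟩ := (IsIntegrallyClosed.isIntegral_iff (R := O) (K := Ω)).1
    (IsIntegral.of_pow hd1 (x := ((ζ : Ωˣ) : Ω)) (by
      rw [hζ2]; exact isIntegral_algebraMap))
  obtain ⟨y', hy'⟩ := (IsIntegrallyClosed.isIntegral_iff (R := O) (K := Ω)).1
    (IsIntegral.of_pow hd1 (x := ((ζ⁻¹ : Ωˣ) : Ω)) (by
      rw [hζ3]; exact isIntegral_algebraMap))
  have hyy : y * y' = 1 := by
    apply hi0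
    rw [map_mul, hy, hy', Units.mul_inv, map_one]
  let z : Oˣ := ⟨y, y', hyy, by rw [mul_comm]; exact hyy⟩
  have hz : Units.map (algebraMap O Ω : O →* Ω) z = ζ := Units.ext hy
  have hzd : z ^ dg α = mon (mapx F0 (XX n)) α := by
    apply Units.map_injective (f := (algebraMap O Ω : O →* Ω)) hi0
    rw [map_pow, hz, hζ1]
  have hs1 : schur α xo ζ = algebraMap O Ω (schur α (mapx F0 (XX n)) z) := by
    rw [← schur_map, hz, hx]
  have hs2 : IsLocalRing.residue O (schur α (mapx F0 (XX n)) z) =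
      (NZ n : IsLocalRing.ResidueField O) ^ 2 / (dg α : IsLocalRing.ResidueField O) ^ 2 := by
    rw [← schur_map]
    refine schur_group hn ξ (mapx (IsLocalRing.residue O) (mapx F0 (XX n))) hξ hα _ ?_
    rw [← map_pow, hzd, ← mon_mapx]
  have hdk : (dg α : IsLocalRing.ResidueField O) ≠ 0 := Nat.cast_ne_zero.2 (by omega)
  have hNk : (NZ n : IsLocalRing.ResidueField O) ≠ 0 := by
    apply Nat.cast_ne_zero.2
    rcases hn with rfl | rfl | rfl <;> decide
  have hD : IsLocalRing.residue O ((dg α : O) ^ 2 * schur α (mapx F0 (XX n)) z) =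
      (NZ n : IsLocalRing.ResidueField O) ^ 2 := by
    rw [map_mul, hs2, map_pow, map_natCast]
    field_simp
  have hDu : IsUnit ((dg α : O) ^ 2 * schur α (mapx F0 (XX n)) z) := by
    apply (isUnit_map_iff (IsLocalRing.residue O) _).1
    rw [hD]
    exact (pow_ne_zero 2 hNk).isUnit
  obtain ⟨u, hu⟩ := hDu
  refine ⟨(NZ n : O) ^ 2 * ((u⁻¹ : Oˣ) : O) - 1, ?_, ?_⟩
  · have h4 : IsLocalRing.residue O (u : O) * IsLocalRing.residue O ((u⁻¹ : Oˣ) : O) = 1 := by
      rw [← map_mul, Units.mul_inv, map_one]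
    rw [hu, hD] at h4
    rw [map_sub, map_mul, map_one, map_pow, map_natCast, h4, sub_self]
  · have h4 : algebraMap O Ω (u : O) * algebraMap O Ω ((u⁻¹ : Oˣ) : O) = 1 := by
      rw [← map_mul, Units.mul_inv, map_one]
    rw [hu, map_mul, map_pow, map_natCast, ← hs1] at h4
    have hdΩ : (dg α : Ω) ≠ 0 := Nat.cast_ne_zero.2 (by omega)
    have hsΩ : schur α xo ζ ≠ 0 := by
      intro h5
      rw [h5, mul_zero, zero_mul] at h4
      exact zero_ne_one h4
    rw [map_sub, map_mul, map_pow, map_natCast, map_one, div_eq_iff (mul_ne_zero hdΩ hsΩ)]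
    linear_combination (-(NZ n : Ω) ^ 2) * h4

/-- the main step, over a local ring -/
private theorem core {n : ℕ} (hn : HN n) (ω : (KF n)[X]) (hω : IsOmega (xK n) ω)
    (T : H n (XX n) →ₗ[RR n] RR n) (hT : ∀ h, algebraMap (RR n) (KF n) (T h) =
      tr (xK n) ω (hmap (algebraMap (RR n) (KF n)) n (XX n) h))
    {O Ω : Type} [CommRing O] [IsDomain O] [IsLocalRing O] [IsIntegrallyClosed O]
    [Field Ω] [Algebra O Ω] [IsFractionRing O Ω] [IsAlgClosed Ω] [CharZero Ω]
    [CharZero (IsLocalRing.ResidueField O)]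
    (F0 : RR n →+* O) (hF0 : Function.Injective F0) (ξ : (IsLocalRing.ResidueField O)ˣ)
    (hξ : IsGroupPoint ξ (mapx ((IsLocalRing.residue O).comp F0) (XX n)))
    (h : H n (XX n)) : (NZ n : IsLocalRing.ResidueField O) ^ 2 *
      IsLocalRing.residue O (F0 (T h)) = IsLocalRing.residue O (tG F0 h) := by
  have hi0 : Function.Injective (algebraMap O Ω) := IsFractionRing.injective O Ω
  have hinj : Function.Injective ((algebraMap O Ω).comp F0) := hi0.comp hF0
  let g : KF n →+* Ω := IsFractionRing.lift hinj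
  have hg : ∀ r, g (algebraMap (RR n) (KF n) r) = algebraMap O Ω (F0 r) := fun r =>
    IsFractionRing.lift_algebraMap hinj r
  have hG : g.comp (algebraMap (RR n) (KF n)) = (algebraMap O Ω).comp F0 := RingHom.ext hg
  have hx : mapx g (xK n) = mapx (algebraMap O Ω) (mapx F0 (XX n)) := by
    show mapx (g.comp (algebraMap (RR n) (KF n))) (XX n) =
      mapx ((algebraMap O Ω).comp F0) (XX n)
    rw [hG]
  have hgen : Gen (mapx g (xK n)) := ((indep_xK n).map g).gen hn
  have hfd := finite_field n hn (mapx g (xK n))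
  obtain ⟨ρ, h1, -, -, h2⟩ := split hn hgen (finrank_all n hn _)
  obtain ⟨ι, _, b, -⟩ := exists_basis hn F0
  have hfin : Module.Finite O (H n (mapx F0 (XX n))) := Module.Finite.of_basis b
  have e1 := tr_map hn (xK n) ω g (hmap (algebraMap (RR n) (KF n)) n (XX n) h)
  rw [← hT h, hg, tr_formula (ω.map g) (hω.map g) ρ h1 h2] at e1
  have e2 := h2 (hmap g n (xK n) (hmap (algebraMap (RR n) (KF n)) n (XX n) h))
  have e3 : LinearMap.trace Ω (H n (mapx g (xK n))) (LinearMap.mulLeft Ω
      (hmap g n (xK n) (hmap (algebraMap (RR n) (KF n)) n (XX n) h))) =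
      algebraMap O Ω (tG F0 h) := by
    rw [hmap_hmap]
    exact tG_comp hn F0 (algebraMap O Ω) _ hG b h
  rw [e3] at e2
  obtain ⟨p, hp, hp'⟩ := kill_poly (algebraMap O Ω) F0 _ hG h
  have ht : ∀ i : Idx (mapx g (xK n)), ∃ t : O, algebraMap O Ω t = LinearMap.trace Ω _
      (ρ i (hmap g n (xK n) (hmap (algebraMap (RR n) (KF n)) n (XX n) h))) := by
    intro i
    refine exists_trace _ p hp ?_
    rw [Polynomial.aeval_algHom_apply, hmap_hmap]
    exact (congrArg (ρ i) hp').trans (map_zero (ρ i))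
  choose t ht using ht
  have hc : ∀ i : Idx (mapx g (xK n)), ∃ c : O, IsLocalRing.residue O c = 0 ∧
      (NZ n : Ω) ^ 2 / ((dg i.1.1 : Ω) * schur i.1.1 (mapx g (xK n)) i.1.2) =
        (dg i.1.1 : Ω) * (1 + algebraMap O Ω c) := fun i =>
    schur_loc hn F0 _ hx ξ hξ i.2.1 i.1.2 i.2.2
  choose c hc1 hc2 using hc
  have e4 : (NZ n : O) ^ 2 * F0 (T h) = tG F0 h + ∑ i, t i * ((dg i.1.1 : O) * c i) := by
    apply hi0
    rw [map_mul, ← e1, map_add, e2, map_sum, Finset.mul_sum, ← Finset.sum_add_distrib]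
    refine Finset.sum_congr rfl fun i _ => ?_
    rw [map_pow, map_natCast, map_mul, map_mul, map_natCast, ht]
    have h5 := hc2 i
    rw [mul_div_assoc', mul_comm ((NZ n : Ω) ^ 2), mul_div_assoc, h5]
    ring
  have e5 := congrArg (IsLocalRing.residue O) e4
  rw [map_mul, map_pow, map_natCast, map_add, map_sum] at e5
  rw [e5, add_eq_left]
  refine Finset.sum_eq_zero fun i _ => ?_
  rw [map_mul, map_mul, hc1, mul_zero, mul_zero]

theorem T_group {n : ℕ} (hn : HN n) (ω : (KF n)[X]) (hω : IsOmega (xK n) ω)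
    (T : H n (XX n) →ₗ[RR n] RR n) (hT : ∀ h, algebraMap (RR n) (KF n) (T h) =
      tr (xK n) ω (hmap (algebraMap (RR n) (KF n)) n (XX n) h))
    {κ : Type} [Field κ] [CharZero κ] [IsAlgClosed κ] (f : RR n →+* κ) (ξ : κˣ)
    (hx : IsGroupPoint ξ (mapx f (XX n)))
    (h : H n (XX n)) : (NZ n : κ) ^ 2 * f (T h) = LinearMap.trace κ (H n (mapx f (XX n)))
      (LinearMap.mulLeft κ (hmap f n (XX n) h)) := by
  have : IsDomain (MvPowerSeries (J n) κ) := NoZeroDivisors.to_isDomain _
  let Ω : Type := AlgebraicClosure (FractionRing (MvPowerSeries (J n) κ))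
  let i1 : MvPowerSeries (J n) κ →+* Ω := (algebraMap (FractionRing (MvPowerSeries (J n) κ)) Ω).comp
    (algebraMap (MvPowerSeries (J n) κ) (FractionRing (MvPowerSeries (J n) κ)))
  have hi1 : Function.Injective i1 :=
    (algebraMap (FractionRing (MvPowerSeries (J n) κ)) Ω).injective.comp
      (IsFractionRing.injective (MvPowerSeries (J n) κ) (FractionRing (MvPowerSeries (J n) κ)))
  have hcz : CharZero Ω := charZero_of_injective_ringHom
    (f := i1.comp (MvPowerSeries.C (σ := J n) (R := κ))) (RingHom.injective _)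
  obtain ⟨A, hA, hloc⟩ := IsLocalRing.exists_factor_valuationRing i1
  let ψ : MvPowerSeries (J n) κ →+* A :=
    { toFun := fun x => ⟨i1 x, hA x⟩
      map_one' := Subtype.ext (map_one i1)
      map_zero' := Subtype.ext (map_zero i1)
      map_mul' := fun a b => Subtype.ext (map_mul i1 a b)
      map_add' := fun a b => Subtype.ext (map_add i1 a b) }
  have hψ : ∀ x, IsUnit (ψ x) → IsUnit x := fun x hx => hloc.map_nonunit x hx
  have hψi : Function.Injective ψ := fun a b hab => hi1 (congrArg Subtype.val hab)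
  let φ : RR n →+* MvPowerSeries (J n) κ := Laurent.lift (yy (mapx f (XX n)))
  let j : κ →+* IsLocalRing.ResidueField A :=
    (IsLocalRing.residue A).comp (ψ.comp (MvPowerSeries.C (σ := J n) (R := κ)))
  have hcz' : CharZero (IsLocalRing.ResidueField A) :=
    charZero_of_injective_ringHom (f := j) (RingHom.injective _)
  have hj : (IsLocalRing.residue A).comp (ψ.comp φ) = j.comp f := by
    apply laurent_ext
    intro l
    show IsLocalRing.residue A (ψ (Laurent.lift (yy (mapx f (XX n))) (Laurent.var l : (RR n)ˣ))) =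
      IsLocalRing.residue A (ψ (MvPowerSeries.C (f (Laurent.var l : (RR n)ˣ))))
    rw [Laurent.lift_var, yy_val, map_add, map_add]
    have h1 : IsLocalRing.residue A (ψ (MvPowerSeries.X l)) = 0 := by
      rw [IsLocalRing.residue_eq_zero_iff, IsLocalRing.mem_maximalIdeal, mem_nonunits_iff]
      intro hu
      have h2 := MvPowerSeries.isUnit_iff_constantCoeff.1 (hψ _ hu)
      rw [MvPowerSeries.constantCoeff_X] at h2
      exact not_isUnit_zero h2
    rw [h1, add_zero]
    rfl
  have hξ : IsGroupPoint (Units.map (j : κ →* IsLocalRing.ResidueField A) ξ)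
      (mapx ((IsLocalRing.residue A).comp (ψ.comp φ)) (XX n)) := by
    rw [hj]
    refine ⟨?_, fun l => ?_⟩
    · exact hx.1.map_of_injective (Units.map_injective (RingHom.injective j))
    · show Units.map (j : κ →* IsLocalRing.ResidueField A) (mapx f (XX n) l) = _
      rw [hx.2 l, map_pow]
  have e1 := core hn ω hω T hT (O := A) (Ω := Ω) (ψ.comp φ) (hψi.comp (yy_inj _)) _ hξ h
  have e2 : j (f (T h)) = IsLocalRing.residue A ((ψ.comp φ) (T h)) :=
    (DFunLike.congr_fun hj (T h)).symm
  have hfd := finite_field n hn (mapx f (XX n))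
  have e3 := tG_comp hn f j _ hj (Module.finBasis κ (H n (mapx f (XX n)))) h
  obtain ⟨ι, _, b, -⟩ := exists_basis hn (ψ.comp φ)
  have e4 := tG_comp hn (ψ.comp φ) (IsLocalRing.residue A) _ rfl b h
  rw [← e4, e3, ← e2] at e1
  apply RingHom.injective j
  rw [map_mul, map_pow, map_natCast]
  exact e1

end SYM
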