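import Pool.Agent.Lib.MP_b1ea0f_al.Defs4
import Pool.Agent.Lib.MP_b1ea0f_al.VGrp
import Pool.Agent.Lib.MP_b1ea0f_al.KAlg
import Pool.Agent.Lib.MP_b1ea0f_al.KRank

/-!
# VGrpW: canonical trace at the group point

`group_alg`: `hmap f (wd w) ↦ of (lift gg w)`; the trace of left multiplication by a group element `g` on `κ[G]` is `|G|` if `g = 1` and `0` otherwise; `card_GG`.
-/

namespace SYM
open Polynomial Module

/-- the trace of left multiplication by a group element on the group algebra -/
private theorem trace_of {κ G : Type} [Field κ] [Group G] [Fintype G] [DecidableEq G] (g : G) :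
    LinearMap.trace κ (MonoidAlgebra κ G) (LinearMap.mulLeft κ (MonoidAlgebra.of κ G g)) =
      if g = 1 then (Fintype.card G : κ) else 0 := by
  rw [LinearMap.trace_eq_matrix_trace κ (MonoidAlgebra.basis G κ), Matrix.trace]
  have h1 : ∀ h : G, Matrix.diag (LinearMap.toMatrix (MonoidAlgebra.basis G κ)
      (MonoidAlgebra.basis G κ) (LinearMap.mulLeft κ (MonoidAlgebra.of κ G g))) h =
      if g = 1 then (1 : κ) else 0 := by
    intro h
    rw [Matrix.diag_apply, LinearMap.toMatrix_apply, LinearMap.mulLeft_apply,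
      MonoidAlgebra.basis_apply, MonoidAlgebra.of_apply, MonoidAlgebra.single_mul_single, one_mul]
    show (MonoidAlgebra.single (g * h) (1 : κ)).coeff h = _
    rw [MonoidAlgebra.coeff_single, Finsupp.single_apply]
    simp only [mul_eq_right]
  rw [Finset.sum_congr rfl fun h _ => h1 h]
  split_ifs
  · simp
  · simp

theorem T_group_word {n : ℕ} (hn : HN n) (ω : (KF n)[X]) (hω : IsOmega (xK n) ω)
    (T : H n (XX n) →ₗ[RR n] RR n) (hT : ∀ h, algebraMap (RR n) (KF n) (T h) =
      tr (xK n) ω (hmap (algebraMap (RR n) (KF n)) n (XX n) h))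
    {κ : Type} [Field κ] [CharZero κ] [IsAlgClosed κ] (f : RR n →+* κ) (ξ : κˣ)
    (hx : IsGroupPoint ξ (mapx f (XX n)))
    (w : FreeGroup (Fin 3)) :
    (FreeGroup.lift (gg n) w = 1 → f (T (wd n (XX n) w : H n (XX n))) = 1) ∧
    (FreeGroup.lift (gg n) w ≠ 1 → f (T (wd n (XX n) w : H n (XX n))) = 0) := by
  classical
  obtain ⟨e, he⟩ := group_alg hn ξ (mapx f (XX n)) hx
  have hN : NZ n ≠ 0 := by unfold NZ; split_ifs <;> norm_num
  have hfin : Finite (GG n) := Nat.finite_of_card_ne_zero (by rw [card_GG n hn]; positivity)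
  let : Fintype (GG n) := Fintype.ofFinite _
  -- the words
  have hw : e (hmap f n (XX n) (wd n (XX n) w : H n (XX n))) =
      MonoidAlgebra.of κ (GG n) (FreeGroup.lift (gg n) w) := by
    have h1 : ((e : H n (mapx f (XX n)) →ₐ[κ] MonoidAlgebra κ (GG n)) :
        H n (mapx f (XX n)) →* MonoidAlgebra κ (GG n)).comp
        (((hmap f n (XX n) : H n (XX n) →+* H n (mapx f (XX n))) :
          H n (XX n) →* H n (mapx f (XX n))).comp ((Units.coeHom (H n (XX n))).comp
            (wd n (XX n)))) = (MonoidAlgebra.of κ (GG n)).comp (FreeGroup.lift (gg n)) := by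
      apply FreeGroup.ext_hom
      intro g
      show e (hmap f n (XX n) ((wd n (XX n) (FreeGroup.of g) : (H n (XX n))ˣ) : H n (XX n))) =
        MonoidAlgebra.of κ (GG n) (FreeGroup.lift (gg n) (FreeGroup.of g))
      rw [wd_of, hmap_gen, he, FreeGroup.lift_apply_of]
    exact DFunLike.congr_fun h1 w
  -- the trace
  have ht := T_group hn ω hω T hT f ξ hx (wd n (XX n) w : H n (XX n))
  have hc : e.toLinearEquiv.conj (LinearMap.mulLeft κ
      (hmap f n (XX n) (wd n (XX n) w : H n (XX n)))) =
      LinearMap.mulLeft κ (MonoidAlgebra.of κ (GG n) (FreeGroup.lift (gg n) w)) := by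
    apply LinearMap.ext
    intro u
    rw [← hw]
    show e (hmap f n (XX n) (wd n (XX n) w : H n (XX n)) * e.symm u) = _
    rw [map_mul, AlgEquiv.apply_symm_apply]
    rfl
  rw [← LinearMap.trace_conj' _ e.toLinearEquiv, hc, trace_of, ← Nat.card_eq_fintype_card,
    card_GG n hn] at ht
  have hN2 : ((NZ n : κ)) ^ 2 ≠ 0 := pow_ne_zero 2 (Nat.cast_ne_zero.2 hN)
  constructor
  · intro h
    rw [if_pos h, Nat.cast_pow] at ht
    exact mul_left_cancel₀ hN2 (by rw [ht, mul_one])
  · intro h
    rw [if_neg h] at ht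
    exact (mul_eq_zero.1 ht).resolve_left hN2

end SYM
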