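import Pool.Agent.Lib.MP_b1ea0f_al.Defs4
import Pool.Agent.Lib.MP_b1ea0f_al.VGrp
import Pool.Agent.Lib.MP_b1ea0f_al.VGrpW
import Pool.Agent.Lib.MP_b1ea0f_al.KRank
import Pool.Agent.Lib.MP_b1ea0f_al.KAll
import Pool.Agent.Lib.MP_b1ea0f_al.KLaur
import Pool.Agent.Lib.MP_b1ea0f_al.BMap
import Pool.Agent.Lib.MP_b1ea0f_al.VIndep

/-!
# VDivL: divisibility at l (Gram matrix at the group point)

Paper 8.5, at `l`. Choose words `b_g`, `g ∈ GG n` (finite, `card_GG`), with `lift gg b_g = g`; Gram matrix `Γ = (T(b_g b_h))`; `f(Γ)` (group point) is a permutation matrix, `det = ±1`. If `l ∣ det Γ` in `RR n` then `±1 = l · f(r)` with `f(r) ∈ ℤ[ξ]` integral over `ℤ`: contradiction (`1/l` is not integral). The `b_g` are a basis of `H(KF)`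
(`det ≠ 0`, `generic_rank`), so `c u = ∑ c_g b_g` ...: `det Γ • u = ∑_g (adj Γ · (T(u b_h)))_g b_g` (holds in `H n (XX n)` since it holds over `KF`, `H` torsion-free); the `T(u b_h)` are divisible by `w`: `det Γ • u = w • u'`, `w' = det Γ`.
-/

namespace SYM
open Polynomial Module

open scoped TensorProduct in
private theorem hmap_inj {n : ℕ} (hn : HN n) :
    Function.Injective (hmap (algebraMap (RR n) (KF n)) n (XX n)) := by
  obtain ⟨e, he⟩ := bc_equiv (k := RR n) (k' := KF n) n (XX n)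
  have hP : Module.Projective (RR n) (H n (XX n)) := projective_H n hn
  have hF : Module.Flat (RR n) (H n (XX n)) := inferInstance
  have h1 : Function.Injective
      (fun h : H n (XX n) => ((1 : KF n) ⊗ₜ[RR n] h : KF n ⊗[RR n] H n (XX n))) :=
    Algebra.TensorProduct.includeRight_injective (IsFractionRing.injective (RR n) (KF n))
  intro a b hab
  apply h1
  apply e.injective
  change e (1 ⊗ₜ a) = e (1 ⊗ₜ b)
  rw [he, he]
  exact hab

private theorem NZ_pos {n : ℕ} (hn : HN n) : 0 < NZ n := by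
  rcases hn with rfl | rfl | rfl <;> simp [NZ]

private theorem lift_gg_surj (n : ℕ) (g : GG n) : ∃ w, FreeGroup.lift (gg n) w = g := by
  have h : FreeGroup.lift (gg n) = PresentedGroup.mk {w | GRel n w} := by
    apply FreeGroup.ext_hom
    intro a
    rw [FreeGroup.lift_apply_of]
    rfl
  obtain ⟨w, hw⟩ := PresentedGroup.mk_surjective {w | GRel n w} g
  exact ⟨w, by rw [h, hw]⟩

private theorem int_image {n : ℕ} (hn : HN n) {κ : Type} [Field κ] (f : RR n →+* κ) (ξ : κˣ)
    (hx : IsGroupPoint ξ (mapx f (XX n))) (r : RR n) : IsIntegral ℤ (f r) := by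
  have hroot : ∀ l : J n, (mapx f (XX n) l) ^ NZ n = 1 := by
    intro l
    rw [hx.2 l, ← pow_mul, mul_comm, pow_mul, hx.1.pow_eq_one, one_pow]
  have hf := lift_eq f
  have hr : f r = (AddMonoidAlgebra.lift ℤ κ (J n →₀ ℤ)
      (Laurent.monHom fun i => Units.map (f : RR n →* κ) (Laurent.var i))) r := by
    conv_lhs => rw [hf]
    rfl
  rw [hr, AddMonoidAlgebra.lift_apply]
  refine IsIntegral.sum _ fun v _ => ?_
  refine IsIntegral.smul _ ?_
  refine IsIntegral.of_pow (NZ_pos hn) ?_
  have h1 : (((v.prod fun i e => (mapx f (XX n) i) ^ e : κˣ) : κ)) ^ NZ n = 1 := by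
    rw [← Units.val_pow_eq_pow_val]
    have h2 : (v.prod fun i e => (mapx f (XX n) i) ^ e : κˣ) ^ NZ n = 1 := by
      unfold Finsupp.prod
      rw [← Finset.prod_pow]
      refine Finset.prod_eq_one fun i _ => ?_
      rw [← zpow_natCast, ← zpow_mul, mul_comm, zpow_mul, zpow_natCast, hroot, one_zpow]
    rw [h2, Units.val_one]
  have h3 : (Laurent.monHom fun i => Units.map (f : RR n →* κ) (Laurent.var i))
      (Multiplicative.ofAdd v) = (((v.prod fun i e => (mapx f (XX n) i) ^ e : κˣ) : κ)) := rfl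
  rw [h3, h1]
  exact isIntegral_one

private theorem not_int {κ : Type} [Field κ] [CharZero κ] (l : ℕ) (hl : l.Prime) (y : κ)
    (hy : IsIntegral ℤ y) : (l : κ) ^ 2 * y ≠ 1 := by
  intro h
  have hl0 : (l : κ) ≠ 0 := Nat.cast_ne_zero.mpr hl.ne_zero
  have hyq : y = algebraMap ℚ κ (1 / (l : ℚ) ^ 2) := by
    rw [map_div₀, map_one, map_pow, map_natCast]
    field_simp
    rw [mul_comm]
    exact h
  rw [hyq] at hy
  have h1 : IsIntegral ℤ (1 / (l : ℚ) ^ 2) :=
    (isIntegral_algebraMap_iff (algebraMap ℚ κ).injective).mp hy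
  obtain ⟨m, hm⟩ := IsIntegrallyClosed.isIntegral_iff.mp h1
  have hlq : (l : ℚ) ≠ 0 := Nat.cast_ne_zero.mpr hl.ne_zero
  have h2 : ((m * (l : ℤ) ^ 2 : ℤ) : ℚ) = ((1 : ℤ) : ℚ) := by
    push_cast
    have h3 : (m : ℚ) = 1 / (l : ℚ) ^ 2 := by
      rw [← hm]
      rfl
    rw [h3]
    field_simp
  have h4 : m * (l : ℤ) ^ 2 = 1 := by exact_mod_cast h2
  have h5 : (l : ℤ) ∣ 1 := ⟨m * l, by rw [← h4]; ring⟩
  have h6 : (l : ℕ) ∣ 1 := by exact_mod_cast h5
  exact hl.one_lt.ne' (Nat.dvd_one.mp h6)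

theorem div_ell {n : ℕ} (hn : HN n) (ω : (KF n)[X]) (hω : IsOmega (xK n) ω)
    (T : H n (XX n) →ₗ[RR n] RR n) (hT : ∀ h, algebraMap (RR n) (KF n) (T h) =
      tr (xK n) ω (hmap (algebraMap (RR n) (KF n)) n (XX n) h)) (w : RR n) (hw : w ≠ 0)
    (u : H n (XX n)) (hu : ∀ h, w ∣ T (h * u)) (l : ℕ) (hl : l.Prime) :
    ∃ (w' : RR n) (u' : H n (XX n)), ¬ ((l : RR n) ∣ w') ∧ w' • u = w • u' := by
  classical
  have hNZ : NZ n ^ 2 ≠ 0 := pow_ne_zero 2 (NZ_pos hn).ne'
  have hcard := card_GG n hn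
  have hfin : Finite (GG n) := Nat.finite_of_card_ne_zero (by rw [hcard]; exact hNZ)
  let hft : Fintype (GG n) := Fintype.ofFinite _
  have hcard' : Fintype.card (GG n) = NZ n ^ 2 := by rw [← Nat.card_eq_fintype_card, hcard]
  choose b hb using lift_gg_surj n
  let e : GG n → H n (XX n) := fun g => (wd n (XX n) (b g) : H n (XX n))
  have hee : ∀ g h, e g * e h = (wd n (XX n) (b g * b h) : H n (XX n)) := by
    intro g h
    rw [map_mul, Units.val_mul]
  let Γ : Matrix (GG n) (GG n) (RR n) := Matrix.of fun g h => T (e g * e h)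
  have hΓ : ∀ g h, Γ g h = T (e g * e h) := fun g h => rfl
  -- the group point
  obtain ⟨f, ξ, hx⟩ := exists_groupPoint (κ := ℂ) n hn
  have hM : ∀ g h, f (Γ g h) = if g * h = 1 then 1 else 0 := by
    intro g h
    have h1 := T_group_word hn ω hω T hT f ξ hx (b g * b h)
    rw [map_mul, hb, hb] at h1
    rw [hΓ, hee]
    split_ifs with h2
    · exact h1.1 h2
    · exact h1.2 h2
  have hsq : f Γ.det ^ 2 = 1 := by
    have h1 : (Γ.map f) * (Γ.map f) = 1 := by
      ext g k
      rw [Matrix.mul_apply, Finset.sum_eq_single g⁻¹]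
      · rw [Matrix.map_apply, Matrix.map_apply, hM, hM, mul_inv_cancel, if_pos rfl, one_mul,
          Matrix.one_apply]
        refine if_congr ?_ rfl rfl
        rw [inv_mul_eq_one]
      · intro h _ hne
        rw [Matrix.map_apply, hM, if_neg, zero_mul]
        intro h2
        exact hne (eq_inv_of_mul_eq_one_right h2)
      · intro h2
        exact absurd (Finset.mem_univ _) h2
    have h2 : (Γ.map f).det = f Γ.det := (RingHom.map_det f Γ).symm
    rw [sq, ← h2, ← Matrix.det_mul, h1, Matrix.det_one]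
  have hdet0 : Γ.det ≠ 0 := by
    intro h0
    rw [h0, map_zero] at hsq
    norm_num at hsq
  -- the fraction field
  let ι := hmap (algebraMap (RR n) (KF n)) n (XX n)
  have hι : Function.Injective ι := hmap_inj hn
  have hKinj : Function.Injective (algebraMap (RR n) (KF n)) :=
    IsFractionRing.injective (RR n) (KF n)
  let ΓK : Matrix (GG n) (GG n) (KF n) := Γ.map (algebraMap (RR n) (KF n))
  have hΓK : ΓK.det ≠ 0 := by
    have h1 : ΓK.det = algebraMap (RR n) (KF n) Γ.det := (RingHom.map_det _ Γ).symm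
    rw [h1]
    intro h2
    exact hdet0 (hKinj (by rw [h2, map_zero]))
  let TK := tr (xK n) ω
  have hTK : ∀ g h, TK (ι (e g) * ι (e h)) = ΓK g h := by
    intro g h
    rw [← map_mul]
    exact (hT _).symm
  have hcoef : ∀ a : GG n → KF n, (∀ h, TK (ι (e h) * ∑ g, a g • ι (e g)) = 0) → a = 0 := by
    intro a ha
    apply Matrix.eq_zero_of_mulVec_eq_zero hΓK
    ext h
    rw [Pi.zero_apply, ← ha h, Finset.mul_sum, map_sum, Matrix.mulVec, dotProduct]
    refine Finset.sum_congr rfl fun g _ => ?_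
    rw [mul_smul_comm, map_smul, hTK, smul_eq_mul, mul_comm]
  have hli : LinearIndependent (KF n) fun g => ι (e g) := by
    rw [Fintype.linearIndependent_iff]
    intro a ha
    have h1 : a = 0 := hcoef a fun h => by rw [ha, mul_zero, map_zero]
    intro g
    rw [h1]
    rfl
  have hrank : finrank (KF n) (H n (xK n)) = NZ n ^ 2 := generic_rank n hn _ hKinj
  have hspan : ∀ v : H n (xK n), ∃ a : GG n → KF n, v = ∑ g, a g • ι (e g) := by
    intro v
    have h1 : Nonempty (GG n) := ⟨1⟩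
    have h2 := hli.span_eq_top_of_card_eq_finrank (by rw [hcard', hrank])
    have h3 : v ∈ Submodule.span (KF n) (Set.range fun g => ι (e g)) := by
      rw [h2]
      exact Submodule.mem_top
    obtain ⟨a, ha⟩ := (Submodule.mem_span_range_iff_exists_fun (KF n)).mp h3
    exact ⟨a, ha.symm⟩
  have hzero : ∀ v : H n (xK n), (∀ h, TK (ι (e h) * v) = 0) → v = 0 := by
    intro v hv
    obtain ⟨a, rfl⟩ := hspan v
    rw [hcoef a hv]
    simp
  -- the element u'
  choose c hc using fun h => hu (e h)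
  let u' : H n (XX n) := ∑ g, (Γ.adjugate.mulVec c) g • e g
  refine ⟨Γ.det, u', ?_, ?_⟩
  · rintro ⟨r, hr⟩
    have h1 : (l : ℂ) ^ 2 * f (r ^ 2) = 1 := by
      rw [← hsq, hr, map_mul, map_natCast, map_pow]
      ring
    exact not_int l hl _ (int_image hn f ξ hx _) h1
  · have h0 : Γ.det • u - w • u' = 0 := by
      apply hι
      rw [map_zero]
      apply hzero
      intro h
      have h1 : TK (ι (e h) * ι (Γ.det • u - w • u')) =
          algebraMap (RR n) (KF n) (T (e h * (Γ.det • u - w • u'))) := by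
        rw [← map_mul]
        exact (hT _).symm
      rw [h1]
      have h2 : T (e h * (Γ.det • u - w • u')) = 0 := by
        rw [mul_sub, mul_smul_comm, mul_smul_comm, map_sub, map_smul, map_smul, hc h,
          Finset.mul_sum, map_sum]
        have h3 : ∑ g, T (e h * ((Γ.adjugate.mulVec c) g • e g)) = Γ.det * c h := by
          have h4 : (Γ.mulVec (Γ.adjugate.mulVec c)) h = Γ.det * c h := by
            rw [Matrix.mulVec_mulVec, Matrix.mul_adjugate, Matrix.smul_mulVec, Matrix.one_mulVec]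
            rfl
          rw [← h4, Matrix.mulVec, dotProduct]
          refine Finset.sum_congr rfl fun g _ => ?_
          rw [mul_smul_comm, map_smul, smul_eq_mul, mul_comm, hΓ]
        rw [h3, smul_eq_mul, smul_eq_mul]
        ring
      rw [h2, map_zero]
    exact sub_eq_zero.mp h0

end SYM
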