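import Pool.Agent.Lib.MP_b1ea0f_al.Defs4
import Pool.Agent.Lib.MP_b1ea0f_al.WIrr
import Pool.Agent.Lib.MP_b1ea0f_al.RHalf
import Pool.Agent.Lib.MP_b1ea0f_al.KFin
import Pool.Agent.Lib.MP_b1ea0f_al.FDec
import Pool.Agent.Lib.MP_b1ea0f_al.WSchur
import Pool.Agent.Lib.MP_b1ea0f_al.BMap
import Pool.Agent.Lib.MP_b1ea0f_al.LChar

/-!
# VEll: H = [H,H] + sum k[z] e_j for generic parameters

Paper 8.4, second part: over a field `κ` with generic parameters, `H = C := [H,H] + ∑ κ[z] e_j`. WLOG `κ` algebraically closed. `C` is stable under `z` and (as `H` is finite-dimensional, `z^{-1}` is a polynomial in `z`) it is enough: `C + (z - z0)H = H` for every eigenvalue `z0` (blocks, nilpotent `z - z0`).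
`H/(z-z0) ≅ End(κ^d)` (`block_quot`), `End = [End,End] + κ e` for an element `e` of nonzero trace; `e_j`, with `α_j = 1` (`exists_one`), has trace `∏_{i≠j}(x_j - x_i) ≠ 0`.
-/

namespace SYM
open Polynomial Module

/-- a trace form on endomorphisms is a multiple of the trace -/
private theorem trace_unique {κ : Type} [Field κ] {d : ℕ}
    (F : Module.End κ (Fin d → κ) →ₗ[κ] κ) (hF : ∀ a b, F (a * b) = F (b * a)) :
    ∃ c : κ, ∀ a, F a = c * LinearMap.trace κ (Fin d → κ) a := by
  classical
  rcases Nat.eq_zero_or_pos d with h0 | h0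
  · subst h0
    refine ⟨0, fun a => ?_⟩
    have : a = 0 := LinearMap.ext fun v => Subsingleton.elim _ _
    rw [this, map_zero, map_zero, mul_zero]
  let i0 : Fin d := ⟨0, h0⟩
  let G : Matrix (Fin d) (Fin d) κ → κ := fun M => F (Matrix.toLin' M)
  have hG : ∀ M N : Matrix (Fin d) (Fin d) κ, G (M * N) = G (N * M) := by
    intro M N
    show F (Matrix.toLin' (M * N)) = F (Matrix.toLin' (N * M))
    rw [Matrix.toLin'_mul, Matrix.toLin'_mul]
    exact hF _ _
  have hzero : ∀ (i j : Fin d) (c : κ), i ≠ j → G (Matrix.single i j c) = 0 := by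
    intro i j c hij
    have h1 : G (Matrix.single i i (1 : κ) * Matrix.single i j c) =
        G (Matrix.single i j c * Matrix.single i i (1 : κ)) := hG _ _
    rw [Matrix.single_mul_single_same, one_mul,
      Matrix.single_mul_single_of_ne (c := c) (h := Ne.symm hij)] at h1
    rw [h1]
    show F (Matrix.toLin' 0) = 0
    rw [map_zero, map_zero]
  have hdiag : ∀ (i : Fin d) (c : κ), G (Matrix.single i i c) = c * G (Matrix.single i0 i0 1) := by
    intro i c
    have h1 : G (Matrix.single i i0 (1 : κ) * Matrix.single i0 i c) =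
        G (Matrix.single i0 i c * Matrix.single i i0 (1 : κ)) := hG _ _
    rw [Matrix.single_mul_single_same, Matrix.single_mul_single_same, one_mul, mul_one] at h1
    rw [h1]
    have h2 : Matrix.single i0 i0 c = c • Matrix.single i0 i0 (1 : κ) := by
      rw [Matrix.smul_single, smul_eq_mul, mul_one]
    show F (Matrix.toLin' _) = c * F (Matrix.toLin' _)
    rw [h2, map_smul, map_smul, smul_eq_mul]
  refine ⟨G (Matrix.single i0 i0 1), fun a => ?_⟩
  have h1 : a = Matrix.toLin' (LinearMap.toMatrix' a) := (Matrix.toLin'_toMatrix' a).symm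
  set M := LinearMap.toMatrix' a with hM
  have h2 : F a = G M := by
    show F a = F (Matrix.toLin' M)
    rw [← h1]
  have h3 : LinearMap.trace κ (Fin d → κ) a = M.trace := by
    rw [LinearMap.trace_eq_matrix_trace κ (Pi.basisFun κ (Fin d)), hM]
    rfl
  rw [h2, h3]
  have h4 : G M = ∑ i, ∑ j, G (Matrix.single i j (M i j)) := by
    have h5 := Matrix.matrix_eq_sum_single M
    conv_lhs => rw [h5]
    show F (Matrix.toLin' _) = _
    simp only [map_sum]
    rfl
  rw [h4, Matrix.trace, Finset.mul_sum]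
  refine Finset.sum_congr rfl fun i _ => ?_
  rw [Finset.sum_eq_single i]
  · rw [hdiag, Matrix.diag_apply, mul_comm]
  · intro j _ hj
    exact hzero i j _ (Ne.symm hj)
  · intro h
    exact absurd (Finset.mem_univ i) h

/-- the elements `e_j` -/
private noncomputable def ee {κ : Type} [Field κ] (n : ℕ) (x : J n → κˣ) (j : J n) : κ[X] :=
  ∏ i ∈ Finset.univ.erase j.2, (X - C ((x ⟨j.1, i⟩ : κˣ) : κ))

private theorem step1 {n : ℕ} (hn : HN n) {κ : Type} [Field κ] [IsAlgClosed κ] {x : J n → κˣ}
    (hx : Gen x) (z0 : κ) (S : H n x →ₗ[κ] κ) (hS : ∀ v w, S (v * w) = S (w * v))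
    (he : ∀ j : J n, S (aeval (gen n x j.1) (ee n x j)) = 0)
    (hz : ∀ h, S (h * (zz n x - algebraMap κ _ z0)) = 0) (u : H n x) : S u = 0 := by
  classical
  have _ := finite_field n hn x
  set y := zz n x - algebraMap κ (H n x) z0 with hy
  have hyc : ∀ h, y * h = h * y := by
    intro h
    rw [hy, sub_mul, mul_sub, zz_comm, Algebra.commutes]
  let I : Ideal (H n x) := Ideal.span {y}
  have hI : ∀ h, h ∈ I → ∃ a, h = a * y := by
    intro h hh
    obtain ⟨a, ha⟩ := Ideal.mem_span_singleton'.1 hh
    exact ⟨a, ha.symm⟩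
  have hI2 : I.IsTwoSided := by
    refine ⟨fun {a} b ha => ?_⟩
    obtain ⟨c, rfl⟩ := hI a ha
    rw [mul_assoc, hyc, ← mul_assoc]
    exact I.mul_mem_left _ (Ideal.subset_span rfl)
  let π : H n x →ₐ[κ] (H n x ⧸ I) := Ideal.Quotient.mkₐ κ I
  have hπ : Function.Surjective π := Ideal.Quotient.mkₐ_surjective κ I
  have hπ0 : ∀ h, π h = 0 → ∃ a, h = a * y := fun h hh => hI h (Ideal.Quotient.eq_zero_iff_mem.1 hh)
  have hfin : FiniteDimensional κ (H n x ⧸ I) := Module.Finite.of_surjective π.toLinearMap hπ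
  rcases subsingleton_or_nontrivial (H n x ⧸ I) with hs | hs
  · obtain ⟨a, ha⟩ := hπ0 u (Subsingleton.elim _ _)
    rw [ha]
    exact hz a
  have hyπ : π (zz n x) = algebraMap κ _ z0 := by
    have h1 : π y = 0 := Ideal.Quotient.eq_zero_iff_mem.2 (Ideal.subset_span rfl)
    rw [hy, map_sub, AlgHom.commutes, sub_eq_zero] at h1
    exact h1
  have hz0 : z0 ≠ 0 := by
    rintro rfl
    rw [map_zero] at hyπ
    have h1 : IsUnit (zz n x) := by rw [← zu_val]; exact Units.isUnit _
    have h2 := h1.map π
    rw [hyπ] at h2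
    exact not_isUnit_zero h2
  obtain ⟨α, hα, -, ρ, hρ, hdv⟩ := block_quot hn hx π hπ (Units.mk0 z0 hz0) (by
    rw [Units.val_mk0]; exact hyπ)
  let φ : H n x →ₐ[κ] Module.End κ (Fin (dg α) → κ) := ρ.comp π
  have hφ : Function.Surjective φ := hρ.2.comp hπ
  obtain ⟨ψ, hψ⟩ := φ.toLinearMap.exists_rightInverse_of_surjective
    (LinearMap.range_eq_top.2 hφ)
  have hψ' : ∀ a, φ (ψ a) = a := fun a => LinearMap.congr_fun hψ a
  let F : Module.End κ (Fin (dg α) → κ) →ₗ[κ] κ := S ∘ₗ ψ
  have hF : ∀ h, F (φ h) = S h := by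
    intro h
    have h1 : φ (ψ (φ h) - h) = 0 := by rw [map_sub, hψ', sub_self]
    have h2 : π (ψ (φ h) - h) = 0 := by
      apply hρ.1
      rw [map_zero]
      exact h1
    obtain ⟨a, ha⟩ := hπ0 _ h2
    have h3 : S (ψ (φ h) - h) = 0 := by rw [ha]; exact hz a
    rw [map_sub, sub_eq_zero] at h3
    exact h3
  have hFt : ∀ a b, F (a * b) = F (b * a) := by
    intro a b
    obtain ⟨v, rfl⟩ := hφ a
    obtain ⟨w, rfl⟩ := hφ b
    rw [← map_mul, ← map_mul, hF, hF, hS]
  obtain ⟨c, hc⟩ := trace_unique F hFt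
  obtain ⟨⟨g, j⟩, hl⟩ := exists_one hn hα
  have hstar : IsStar n x (fun g => φ (gen n x g)) := (isStar_gen n x).map φ
  have h1 := trace_aeval hstar g (ee n x ⟨g, j⟩)
  have h2 : (dv x fun g => φ (gen n x g)) = α := hdv
  rw [h2] at h1
  have h3 : ∀ i : Fin (leg n g), i ≠ j →
      (ee n x ⟨g, j⟩).eval ((x ⟨g, i⟩ : κˣ) : κ) = 0 := by
    intro i hi
    unfold ee
    rw [Polynomial.eval_prod]
    exact Finset.prod_eq_zero (Finset.mem_erase.2 ⟨hi, Finset.mem_univ i⟩) (by simp)
  have h4 : (ee n x ⟨g, j⟩).eval ((x ⟨g, j⟩ : κˣ) : κ) ≠ 0 := by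
    unfold ee
    rw [Polynomial.eval_prod, Finset.prod_ne_zero_iff]
    intro i hi
    rw [Polynomial.eval_sub, Polynomial.eval_X, Polynomial.eval_C, sub_ne_zero]
    intro h5
    have h6 := hx.g2 g j i (Units.ext h5)
    exact (Finset.mem_erase.1 hi).1 h6.symm
  have h5 : LinearMap.trace κ (Fin (dg α) → κ) (aeval (φ (gen n x g)) (ee n x ⟨g, j⟩)) ≠ 0 := by
    rw [h1, Finset.sum_eq_single j (fun i _ hi => by rw [h3 i hi, mul_zero])
      (fun h => absurd (Finset.mem_univ j) h), hl]
    simpa using h4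
  have h6 : F (φ (aeval (gen n x g) (ee n x ⟨g, j⟩))) = 0 := by
    rw [hF]
    exact he ⟨g, j⟩
  rw [hc, ← Polynomial.aeval_algHom_apply] at h6
  have h7 : c = 0 := by
    rcases mul_eq_zero.1 h6 with h | h
    · exact h
    · exact absurd h h5
  rw [← hF, hc, h7, zero_mul]

private theorem step2 {n : ℕ} (hn : HN n) {κ : Type} [Field κ] [IsAlgClosed κ] {x : J n → κˣ}
    (hx : Gen x) (T : H n x →ₗ[κ] κ) (hT : ∀ v w, T (v * w) = T (w * v))
    (he : ∀ (m : ℕ) (j : J n), T (zz n x ^ m * aeval (gen n x j.1) (ee n x j)) = 0)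
    (u : H n x) : T u = 0 := by
  classical
  have _ := finite_field n hn x
  obtain ⟨r, z0, e, -, he2, -, he1, hep, hec, hnil, -⟩ := exists_blocks (n := n) (x := x)
  have hpoly : ∀ (q : κ[X]) (j : J n), T (aeval (zz n x) q * aeval (gen n x j.1) (ee n x j)) = 0 := by
    intro q j
    induction q using Polynomial.induction_on' with
    | add a b ha hb => rw [map_add, add_mul, map_add, ha, hb, add_zero]
    | monomial m c =>
      rw [Polynomial.aeval_monomial, mul_assoc, ← Algebra.smul_def, map_smul, he, smul_zero]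
  have hblock : ∀ i, ∀ u, T (e i * u) = 0 := by
    intro i
    set y := zz n x - algebraMap κ (H n x) (z0 i) with hy
    have hyc : ∀ h, y * h = h * y := by
      intro h
      rw [hy, sub_mul, mul_sub, zz_comm, Algebra.commutes]
    have hyck : ∀ (k : ℕ) h, y ^ k * h = h * y ^ k := fun k h =>
      ((Commute.pow_left (show Commute y h from hyc h) k)).eq
    obtain ⟨K, hK⟩ := hnil i
    have hidem : ∀ m : ℕ, e i ^ (m + 1) = e i := by
      intro m
      induction m with
      | zero => rw [zero_add, pow_one]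
      | succ m ih => rw [pow_succ, ih, he2]
    have hKe : y ^ (K + 1) * e i = 0 := by
      have h1 : (y * e i) ^ (K + 1) = y ^ (K + 1) * e i ^ (K + 1) :=
        (show Commute y (e i) from hyc _).mul_pow _
      rw [hidem] at h1
      rw [← h1, pow_succ, hK, zero_mul]
    obtain ⟨p, hp⟩ := hep i
    have hdesc : ∀ m : ℕ, m ≤ K + 1 → ∀ u, T (y ^ (K + 1 - m) * e i * u) = 0 := by
      intro m
      induction m with
      | zero =>
        intro _ u
        rw [Nat.sub_zero, hKe, zero_mul, map_zero]
      | succ m ih =>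
        intro hm u
        have ih' := ih (by omega)
        have hkm : K + 1 - m = K + 1 - (m + 1) + 1 := by omega
        set k := K + 1 - (m + 1) with hk
        rw [hkm] at ih'
        have hcc : ∀ h, (y ^ k * e i) * h = h * (y ^ k * e i) := by
          intro h
          rw [mul_assoc, hec, ← mul_assoc, hyck, mul_assoc]
        let S : H n x →ₗ[κ] κ := T ∘ₗ LinearMap.mulLeft κ (y ^ k * e i)
        have hSa : ∀ h, S h = T (y ^ k * e i * h) := fun h => rfl
        have h1 := step1 hn hx (z0 i) S (by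
            intro v w
            rw [hSa, hSa, ← mul_assoc, hT, ← mul_assoc, ← hcc w, mul_assoc])
          (by
            intro j
            rw [hSa]
            have h2 : y ^ k * e i = aeval (zz n x) ((X - C (z0 i)) ^ k * p) := by
              rw [map_mul, map_pow, map_sub, Polynomial.aeval_X, Polynomial.aeval_C, ← hy, ← hp]
            rw [h2]
            exact hpoly _ j)
          (by
            intro h
            rw [hSa, ← hy, ← hyc h, ← mul_assoc, mul_assoc (y ^ k), hec i y, ← mul_assoc (y ^ k),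
              ← pow_succ]
            exact ih' h) u
        rw [← hSa]
        exact h1
    intro u
    have h1 := hdesc (K + 1) le_rfl u
    rwa [Nat.sub_self, pow_zero, one_mul] at h1
  have h1 : u = ∑ i, e i * u := by rw [← Finset.sum_mul, he1, one_mul]
  rw [h1, map_sum]
  exact Finset.sum_eq_zero fun i _ => hblock i u

theorem ell_span {n : ℕ} (hn : HN n) {κ : Type} [Field κ] {x : J n → κˣ} (hx : Gen x)
    (h : H n x) : h ∈ Submodule.span κ ({u : H n x | ∃ v w, u = v * w - w * v} ∪
      {u : H n x | ∃ (m : ℕ) (j : J n), u = zz n x ^ m *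
        (aeval (gen n x j.1) (∏ i ∈ Finset.univ.erase j.2,
          (X - C ((x ⟨j.1, i⟩ : κˣ) : κ))))}) := by
  classical
  set M := Submodule.span κ ({u : H n x | ∃ v w, u = v * w - w * v} ∪
      {u : H n x | ∃ (m : ℕ) (j : J n), u = zz n x ^ m *
        (aeval (gen n x j.1) (∏ i ∈ Finset.univ.erase j.2,
          (X - C ((x ⟨j.1, i⟩ : κˣ) : κ))))}) with hM
  by_contra hcon
  obtain ⟨T, hTh, hTM⟩ := Submodule.exists_le_ker_of_notMem hcon
  have hT0 : ∀ u ∈ M, T u = 0 := fun u hu => LinearMap.mem_ker.1 (hTM hu)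
  let f : κ →+* AlgebraicClosure κ := algebraMap κ (AlgebraicClosure κ)
  have hf : Function.Injective f := f.injective
  have hUf : Function.Injective (Units.map (f : κ →* AlgebraicClosure κ)) := by
    intro a b hab
    apply Units.ext
    exact hf (congrArg Units.val hab)
  have hx' : Gen (mapx f x) := by
    refine ⟨?_, ?_⟩
    · intro α hα β hβ hαβ
      rw [mon_mapx, mon_mapx, ← map_pow, ← map_pow] at hαβ
      exact hx.g1 α hα β hβ (hUf hαβ)
    · intro g j j' hjj
      exact hx.g2 g j j' (hUf hjj)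
  obtain ⟨T', hT'⟩ := exists_form_map f n x T
  have hcomm : ∀ v w, T' (v * w) = T' (w * v) := by
    intro v w
    have hv : v ∈ Submodule.span (AlgebraicClosure κ) (Set.range (hmap f n x)) := by
      rw [hmap_span]; trivial
    have hw : w ∈ Submodule.span (AlgebraicClosure κ) (Set.range (hmap f n x)) := by
      rw [hmap_span]; trivial
    induction hv using Submodule.span_induction with
    | zero => rw [zero_mul, mul_zero]
    | add a b _ _ ha hb => rw [add_mul, mul_add, map_add, map_add, ha, hb]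
    | smul c a _ ha => rw [smul_mul_assoc, mul_smul_comm, map_smul, map_smul, ha]
    | mem a ha =>
      obtain ⟨v, rfl⟩ := ha
      induction hw using Submodule.span_induction with
      | zero => rw [zero_mul, mul_zero]
      | add a b _ _ ha hb => rw [add_mul, mul_add, map_add, map_add, ha, hb]
      | smul c a _ ha => rw [smul_mul_assoc, mul_smul_comm, map_smul, map_smul, ha]
      | mem a ha =>
        obtain ⟨w, rfl⟩ := ha
        rw [← map_mul, ← map_mul, hT', hT']
        congr 1
        have h1 := hT0 (v * w - w * v) (Submodule.subset_span (Or.inl ⟨v, w, rfl⟩))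
        rw [map_sub, sub_eq_zero] at h1
        exact h1
  have hzero := step2 hn hx' T' hcomm (by
    intro m j
    have h1 : zz n (mapx f x) ^ m * aeval (gen n (mapx f x) j.1) (ee n (mapx f x) j) =
        hmap f n x (zz n x ^ m * (aeval (gen n x j.1) (ee n x j))) := by
      rw [map_mul, map_pow, hmap_zz]
      congr 1
      have h2 : ee n (mapx f x) j = (ee n x j).map f := by
        unfold ee
        rw [Polynomial.map_prod]
        refine Finset.prod_congr rfl fun i _ => ?_
        rw [Polynomial.map_sub, Polynomial.map_X, Polynomial.map_C]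
        rfl
      rw [h2, Polynomial.aeval_def, Polynomial.aeval_def, Polynomial.eval₂_map,
        Polynomial.hom_eval₂, hmap_gen]
      congr 1
      ext r
      exact (hmap_algebraMap f n x r).symm
    rw [h1, hT', hT0, map_zero]
    exact Submodule.subset_span (Or.inr ⟨m, j, rfl⟩))
  apply hTh
  apply hf
  rw [← hT', hzero, map_zero]

end SYM
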