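import Pool.Agent.Lib.MP_b1ea0f_al.Defs4
import Pool.Agent.Lib.MP_b1ea0f_al.TOmega
import Pool.Agent.Lib.MP_b1ea0f_al.TIndep
import Pool.Agent.Lib.MP_b1ea0f_al.TUnit
import Pool.Agent.Lib.MP_b1ea0f_al.TProps
import Pool.Agent.Lib.MP_b1ea0f_al.TForm
import Pool.Agent.Lib.MP_b1ea0f_al.GSplit
import Pool.Agent.Lib.MP_b1ea0f_al.KFin
import Pool.Agent.Lib.MP_b1ea0f_al.KRank
import Pool.Agent.Lib.MP_b1ea0f_al.LChar
import Pool.Agent.Lib.MP_b1ea0f_al.VIndep
import Pool.Agent.Lib.MP_b1ea0f_al.KLaur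
import Pool.Agent.Lib.MP_b1ea0f_al.RHalf
import Pool.Agent.Lib.MP_b1ea0f_al.RInd

/-!
# VLam: l-integrality of t(z^m e_j)

Paper 8.4, first part. Pass to the algebraic closure `Ω` of `KF n`: `t(z^m e_j') = ∑_i ζ_i^m tr ρ_i(e') / (d_i s_i)`, `tr ρ_i(aeval gen ∏_{i≠j}(X - x_i)) = α_j ∏_{i≠j}(x_j - x_i)` (`trace_aeval`); `= c ∑_α α_j (1/d) ∑_{ζ^d = mon α} ζ^m / s_α(ζ)`, and `(1/d) ∑_ζ` = coefficient of `T^0` in
`AdjoinRoot (X^d - C (mon α))`. Work over the localisation `R_(l)` of `RR n` at the prime ideal `(l)` (or with denominators prime to `l`): `1/s_α ∈ R_(l)[T]/(T^d - mon α)` by `isUnit_schur'` (`mon v - 1` is not divisible by `l` for `v ≠ 0`).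
-/

namespace SYM
open Polynomial Module

section aux

/-- power sums of the roots of `X^d = c` -/
private theorem vlam_pow_sum {K : Type*} [Field K] [CharZero K] [IsAlgClosed K] [DecidableEq K]
    {d : ℕ} (hd : 0 < d) {c : K} (hc : c ≠ 0) (N : ℕ) :
    ∑ ζ ∈ (nthRoots d c).toFinset, ζ ^ N = if d ∣ N then (d : K) * c ^ (N / d) else 0 := by
  have : NeZero d := ⟨hd.ne'⟩
  have : NeZero (d : K) := ⟨Nat.cast_ne_zero.2 hd.ne'⟩
  obtain ⟨μ, hμ⟩ := HasEnoughRootsOfUnity.exists_primitiveRoot K d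
  obtain ⟨α, hα⟩ := IsAlgClosed.exists_pow_nat_eq c hd
  have hnd := hμ.nthRoots_nodup hc
  have h1 : ∑ ζ ∈ (nthRoots d c).toFinset, ζ ^ N = ((nthRoots d c).map (fun ζ => ζ ^ N)).sum := by
    rw [Finset.sum, Multiset.toFinset_val, hnd.dedup]
  rw [h1, hμ.nthRoots_eq hα, Multiset.map_map]
  have h2 : (Multiset.map ((fun ζ => ζ ^ N) ∘ fun x => μ ^ x * α) (Multiset.range d)).sum
      = ∑ x ∈ Finset.range d, (μ ^ N) ^ x * α ^ N := by
    rw [Finset.sum, Finset.range_val]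
    congr 1
    apply Multiset.map_congr rfl
    intro x _
    simp only [Function.comp_apply]
    rw [mul_pow, ← pow_mul, ← pow_mul, mul_comm x N]
  rw [h2, ← Finset.sum_mul]
  split_ifs with hN
  · obtain ⟨q, rfl⟩ := hN
    rw [pow_mul, hμ.pow_eq_one, one_pow, Nat.mul_div_cancel_left _ hd, pow_mul, hα]
    simp
  · have h3 : μ ^ N ≠ 1 := fun h => hN ((hμ.pow_eq_one_iff_dvd N).1 h)
    have h4 : (μ ^ N) ^ d = 1 := by
      rw [← pow_mul, mul_comm, pow_mul, hμ.pow_eq_one, one_pow]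
    rw [geom_sum_eq h3, h4, sub_self, zero_div, zero_mul]

/-- reduction modulo `l` -/
private noncomputable def vlam_red (n l : ℕ) : RR n →+* AddMonoidAlgebra (ZMod l) (J n →₀ ℤ) :=
  AddMonoidAlgebra.mapRingHom (J n →₀ ℤ) (Int.castRingHom (ZMod l))

private theorem vlam_red_eq_zero {n l : ℕ} (_hl : l.Prime) (r : RR n) :
    vlam_red n l r = 0 ↔ ((l : RR n) ∣ r) := by
  constructor
  · intro h
    have h1 : ∀ v, ((l : ℤ) ∣ r.coeff v) := by
      intro v
      have h2 := congrArg (fun f => f.coeff v) h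
      simp only [vlam_red, AddMonoidAlgebra.coeff_mapRingHom] at h2
      rw [← ZMod.intCast_zmod_eq_zero_iff_dvd]
      exact h2
    refine ⟨⟨r.coeff.mapRange (fun c => c / (l : ℤ)) (by simp)⟩, ?_⟩
    have h3 : ∀ s : RR n, (l : RR n) * s = (l : ℤ) • s := by
      intro s
      rw [zsmul_eq_mul, Int.cast_natCast]
    rw [h3]
    ext v
    have h4 : ((l : ℤ) • (⟨r.coeff.mapRange (fun c => c / (l : ℤ)) (by simp)⟩ : RR n)).coeff v
        = (l : ℤ) * (r.coeff v / (l : ℤ)) := by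
      rw [AddMonoidAlgebra.coeff_smul, Finsupp.smul_apply, Finsupp.mapRange_apply, smul_eq_mul]
    rw [h4, Int.mul_ediv_cancel' (h1 v)]
  · rintro ⟨s, rfl⟩
    rw [map_mul, map_natCast]
    have : ((l : ℕ) : AddMonoidAlgebra (ZMod l) (J n →₀ ℤ)) = 0 := by
      have h1 : ((l : ℕ) : AddMonoidAlgebra (ZMod l) (J n →₀ ℤ))
          = algebraMap (ZMod l) _ ((l : ℕ) : ZMod l) := by rw [map_natCast]
      rw [h1, ZMod.natCast_self, map_zero]
    rw [this, zero_mul]

private theorem vlam_prime {n l : ℕ} (hl : l.Prime) {a b : RR n} (ha : ¬ ((l : RR n) ∣ a))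
    (hb : ¬ ((l : RR n) ∣ b)) : ¬ ((l : RR n) ∣ a * b) := by
  have : Fact l.Prime := ⟨hl⟩
  rw [← vlam_red_eq_zero hl] at *
  rw [map_mul]
  exact mul_ne_zero ha hb

/-- monomials as units -/
private noncomputable def vlam_M (n : ℕ) : Multiplicative (J n →₀ ℤ) →* (RR n)ˣ :=
  (AddMonoidAlgebra.of ℤ (J n →₀ ℤ)).toHomUnits

private theorem vlam_M_val (n : ℕ) (v : J n →₀ ℤ) :
    ((vlam_M n (Multiplicative.ofAdd v) : (RR n)ˣ) : RR n) = AddMonoidAlgebra.single v 1 := rfl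

private theorem vlam_mon (n : ℕ) (v : Vec n) :
    mon (XX n) v = vlam_M n (Multiplicative.ofAdd (Finsupp.equivFunOnFinite.symm v)) := by
  have h1 : ∀ l : J n, XX n l = vlam_M n (Multiplicative.ofAdd (Finsupp.single l 1)) := by
    intro l
    apply Units.ext
    rfl
  have h2 : ∀ l : J n, XX n l ^ v l = vlam_M n (Multiplicative.ofAdd (Finsupp.single l (v l))) := by
    intro l
    rw [h1, ← map_zpow, ← ofAdd_zsmul, Finsupp.smul_single]
    simp
  unfold mon
  rw [Finset.prod_congr rfl fun l _ => h2 l, ← map_prod]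
  congr 1
  rw [← ofAdd_sum]
  congr 1
  ext l
  simp [Finsupp.finsetSum_apply, Finsupp.single_apply]

private theorem vlam_mon_sub {n l : ℕ} (hl : l.Prime) {v : Vec n} (hv : v ≠ 0) :
    ¬ ((l : RR n) ∣ ((mon (XX n) v : (RR n)ˣ) : RR n) - 1) := by
  have : Fact l.Prime := ⟨hl⟩
  rw [← vlam_red_eq_zero hl, vlam_mon, vlam_M_val, map_sub, map_one]
  intro h
  have h1 : (Finsupp.equivFunOnFinite.symm v : J n →₀ ℤ) ≠ 0 := by
    intro h2
    apply hv
    funext j
    have := DFunLike.congr_fun h2 j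
    simpa using this
  have h2 := congrArg (fun f => f.coeff (Finsupp.equivFunOnFinite.symm v : J n →₀ ℤ)) h
  simp only [vlam_red, AddMonoidAlgebra.mapRingHom_single, AddMonoidAlgebra.one_def] at h2
  rw [AddMonoidAlgebra.coeff_sub] at h2
  simp [AddMonoidAlgebra.coeff_single, h1.symm] at h2

/-- the localisation at `l` inside the fraction field -/
private noncomputable def vlam_S (n l : ℕ) (hl : l.Prime) : Subring (KF n) where
  carrier := {f | ∃ w' r : RR n, ¬ ((l : RR n) ∣ w') ∧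
    algebraMap (RR n) (KF n) w' * f = algebraMap (RR n) (KF n) r}
  mul_mem' := by
    rintro f g ⟨w, r, h1, h2⟩ ⟨w', r', h1', h2'⟩
    refine ⟨w * w', r * r', vlam_prime hl h1 h1', ?_⟩
    rw [map_mul, map_mul, ← h2, ← h2']
    ring
  one_mem' := ⟨1, 1, by
    have : Fact l.Prime := ⟨hl⟩
    rw [← vlam_red_eq_zero hl, map_one]
    exact one_ne_zero, by simp⟩
  add_mem' := by
    rintro f g ⟨w, r, h1, h2⟩ ⟨w', r', h1', h2'⟩
    refine ⟨w * w', w' * r + w * r', vlam_prime hl h1 h1', ?_⟩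
    rw [map_mul, map_add, map_mul, map_mul, ← h2, ← h2']
    ring
  zero_mem' := ⟨1, 0, by
    have : Fact l.Prime := ⟨hl⟩
    rw [← vlam_red_eq_zero hl, map_one]
    exact one_ne_zero, by simp⟩
  neg_mem' := by
    rintro f ⟨w, r, h1, h2⟩
    refine ⟨w, -r, h1, ?_⟩
    rw [map_neg, ← h2]
    ring

private theorem vlam_not_dvd_one {n l : ℕ} (hl : l.Prime) : ¬ ((l : RR n) ∣ 1) := by
  have : Fact l.Prime := ⟨hl⟩
  rw [← vlam_red_eq_zero hl, map_one]
  exact one_ne_zero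

/-- `RR n → S` -/
private noncomputable def vlam_i (n l : ℕ) (hl : l.Prime) : RR n →+* vlam_S n l hl where
  toFun r := ⟨algebraMap (RR n) (KF n) r, 1, r, vlam_not_dvd_one hl, by simp⟩
  map_one' := Subtype.ext (map_one _)
  map_zero' := Subtype.ext (map_zero _)
  map_mul' a b := Subtype.ext (map_mul _ _ _)
  map_add' a b := Subtype.ext (map_add _ _ _)

private theorem vlam_unit {n l : ℕ} (hl : l.Prime) {r : RR n} (hr : ¬ ((l : RR n) ∣ r)) :
    IsUnit (vlam_i n l hl r) := by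
  have h0 : r ≠ 0 := by
    rintro rfl
    exact hr (dvd_zero _)
  have h1 : algebraMap (RR n) (KF n) r ≠ 0 := by
    rw [Ne, FaithfulSMul.algebraMap_eq_zero_iff]
    exact h0
  refine IsUnit.of_mul_eq_one ⟨(algebraMap (RR n) (KF n) r)⁻¹, r, 1, hr, ?_⟩ ?_
  · rw [mul_inv_cancel₀ h1, map_one]
  · exact Subtype.ext (mul_inv_cancel₀ h1)

private theorem vlam_mapx {n : ℕ} {k k' k'' : Type*} [CommRing k] [CommRing k'] [CommRing k'']
    (f : k →+* k') (g : k' →+* k'') (x : J n → kˣ) :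
    mapx g (mapx f x) = mapx (g.comp f) x := by
  funext l
  exact Units.ext rfl

private theorem vlam_hmap_aeval {k k' : Type*} [CommRing k] [CommRing k'] (f : k →+* k') (n : ℕ)
    (x : J n → kˣ) (h : H n x) (p : k[X]) :
    hmap f n x (aeval h p) = aeval (hmap f n x h) (p.map f) := by
  rw [aeval_def, aeval_def, Polynomial.hom_eval₂, Polynomial.eval₂_map]
  congr 1
  ext r
  simp only [RingHom.comp_apply]
  exact hmap_algebraMap f n x r

private theorem vlam_dg_pos {n : ℕ} {α : Vec n} (hα : α ∈ Rc n) : 0 < dg α := by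
  have h := (Finset.mem_filter.1 hα).2.2
  unfold dg
  omega

private theorem vlam_inner {n : ℕ} (hn : HN n) {l : ℕ} (hl : l.Prime) {Ω : Type} [Field Ω]
    [CharZero Ω] [IsAlgClosed Ω] (f : KF n →+* Ω) (m : ℕ) {α : Vec n} (hα : α ∈ Rc n) :
    ∃ y : vlam_S n l hl,
      ∑ i ∈ Finset.univ.filter (fun i : Idx (mapx f (xK n)) => i.1.1 = α),
        ((i.1.2 : Ωˣ) : Ω) ^ m / ((dg i.1.1 : Ω) * schur i.1.1 (mapx f (xK n)) i.1.2) =
      f (y : KF n) := by
  classical
  set S := vlam_S n l hl with hS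
  set x' := mapx f (xK n) with hx'
  set xS : J n → Sˣ := mapx (vlam_i n l hl) (XX n) with hxS
  set h : S →+* Ω := f.comp S.subtype with hh
  have hd : 0 < dg α := vlam_dg_pos hα
  set a : Sˣ := mon xS α with ha
  have hxS' : mapx h xS = x' := by
    funext j
    exact Units.ext rfl
  have hmon : ((mon x' α : Ωˣ) : Ω) = h (a : S) := by
    rw [← hxS', mon_mapx]
    rfl
  let E := AdjoinRoot (X ^ dg α - C (a : S) : S[X])
  let o : S →+* E := AdjoinRoot.of _
  have hroot : (AdjoinRoot.root (X ^ dg α - C (a : S) : S[X])) ^ dg α = o (a : S) := by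
    have h1 := AdjoinRoot.eval₂_root (X ^ dg α - C (a : S) : S[X])
    rw [eval₂_sub, eval₂_pow, eval₂_X, eval₂_C, sub_eq_zero] at h1
    exact h1
  have hu : IsUnit (AdjoinRoot.root (X ^ dg α - C (a : S) : S[X])) := by
    rw [← isUnit_pow_iff hd.ne', hroot]
    exact a.isUnit.map o
  obtain ⟨z, hz⟩ := hu
  have hz' : z ^ dg α = mon (mapx o xS) α := by
    rw [mon_mapx]
    apply Units.ext
    rw [Units.val_pow_eq_pow_val, hz, hroot]
    rfl
  have hun : IsUnit (schur α (mapx o xS) z) := by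
    refine isUnit_schur' hn (mapx o xS) z hα hz' ?_
    intro v hv
    have h1 : ((mon (mapx o xS) v : Eˣ) : E) - 1
        = o (vlam_i n l hl (((mon (XX n) v : (RR n)ˣ) : RR n) - 1)) := by
      rw [map_sub, map_one, map_sub, map_one, mon_mapx, hxS, mon_mapx]
      rfl
    rw [h1]
    exact (vlam_unit hl (vlam_mon_sub hl hv)).map o
  obtain ⟨u, hu⟩ := hun.exists_left_inv
  obtain ⟨p, hp⟩ := AdjoinRoot.mk_surjective u
  have key : ∀ ζ : Ωˣ, ζ ^ dg α = mon x' α → eval₂ h (ζ : Ω) p * schur α x' ζ = 1 := by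
    intro ζ hζ
    have hζ' : eval₂ h (ζ : Ω) (X ^ dg α - C (a : S)) = 0 := by
      rw [eval₂_sub, eval₂_pow, eval₂_X, eval₂_C, ← hmon, ← hζ, Units.val_pow_eq_pow_val, sub_self]
    let g : E →+* Ω := AdjoinRoot.lift h (ζ : Ω) hζ'
    have e1 : mapx g (mapx o xS) = x' := by
      rw [vlam_mapx, ← hxS']
      have : g.comp o = h := by
        ext s
        exact AdjoinRoot.lift_of hζ'
      rw [this]
    have e2 : Units.map (g : E →* Ω) z = ζ := by
      apply Units.ext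
      rw [Units.coe_map, MonoidHom.coe_coe, hz]
      exact AdjoinRoot.lift_root hζ'
    have e3 := congrArg g hu
    rw [map_mul, map_one, ← schur_map, e1, e2, ← hp] at e3
    have e4 : g (AdjoinRoot.mk _ p) = eval₂ h (ζ : Ω) p := AdjoinRoot.lift_mk hζ' p
    rw [e4] at e3
    exact e3
  have hdΩ : (dg α : Ω) ≠ 0 := Nat.cast_ne_zero.2 hd.ne'
  have hc : ((mon x' α : Ωˣ) : Ω) ≠ 0 := Units.ne_zero _
  -- the sum over the index set
  have hsum : ∑ i ∈ Finset.univ.filter (fun i : Idx x' => i.1.1 = α),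
        ((i.1.2 : Ωˣ) : Ω) ^ m / ((dg i.1.1 : Ω) * schur i.1.1 x' i.1.2) =
      ∑ ζ ∈ (nthRoots (dg α) ((mon x' α : Ωˣ) : Ω)).toFinset,
        ζ ^ m * eval₂ h ζ p / (dg α : Ω) := by
    refine Finset.sum_nbij (fun i => ((i.1.2 : Ωˣ) : Ω)) ?_ ?_ ?_ ?_
    · intro i hi
      have hi' : i.1.1 = α := (Finset.mem_filter.1 hi).2
      rw [Multiset.mem_toFinset, mem_nthRoots hd, ← Units.val_pow_eq_pow_val, ← hi', i.2.2]
    · intro i hi i' hi' hii
      have h1 : i.1.1 = α := (Finset.mem_filter.1 hi).2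
      have h2 : i'.1.1 = α := (Finset.mem_filter.1 hi').2
      exact Subtype.ext (Prod.ext (h1.trans h2.symm) (Units.ext hii))
    · intro ζ hζ
      have h1 : ζ ^ dg α = ((mon x' α : Ωˣ) : Ω) :=
        (mem_nthRoots hd).1 (Multiset.mem_toFinset.1 hζ)
      have h2 : ζ ≠ 0 := by
        rintro rfl
        rw [zero_pow hd.ne'] at h1
        exact hc h1.symm
      exact ⟨⟨(α, Units.mk0 ζ h2), hα, Units.ext h1⟩,
        Finset.mem_coe.2 (Finset.mem_filter.2 ⟨Finset.mem_univ _, rfl⟩), rfl⟩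
    · intro i hi
      have h1 : i.1.1 = α := (Finset.mem_filter.1 hi).2
      have h2 := key i.1.2 (by rw [← h1]; exact i.2.2)
      rw [h1]
      have h3 : schur α x' i.1.2 ≠ 0 := right_ne_zero_of_mul_eq_one h2
      rw [div_eq_div_iff (mul_ne_zero hdΩ h3) hdΩ]
      linear_combination (-(((i.1.2 : Ωˣ) : Ω) ^ m * (dg α : Ω))) * h2
  rw [hsum]
  -- expand the polynomial
  refine ⟨∑ k ∈ Finset.range (p.natDegree + 1),
    (if dg α ∣ m + k then p.coeff k * (a : S) ^ ((m + k) / dg α) else 0), ?_⟩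
  have hR : f ((∑ k ∈ Finset.range (p.natDegree + 1),
      (if dg α ∣ m + k then p.coeff k * (a : S) ^ ((m + k) / dg α) else 0) : S) : KF n)
      = h (∑ k ∈ Finset.range (p.natDegree + 1),
      (if dg α ∣ m + k then p.coeff k * (a : S) ^ ((m + k) / dg α) else 0)) := rfl
  rw [hR, map_sum]
  have hL : ∀ ζ : Ω, ζ ^ m * eval₂ h ζ p / (dg α : Ω)
      = ∑ k ∈ Finset.range (p.natDegree + 1), h (p.coeff k) / (dg α : Ω) * ζ ^ (m + k) := by
    intro ζ
    rw [eval₂_eq_sum_range, Finset.mul_sum, Finset.sum_div]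
    apply Finset.sum_congr rfl
    intro k _
    rw [pow_add]
    ring
  rw [Finset.sum_congr rfl fun ζ _ => hL ζ, Finset.sum_comm]
  apply Finset.sum_congr rfl
  intro k _
  rw [← Finset.mul_sum, vlam_pow_sum hd hc, apply_ite h, map_zero, mul_ite, mul_zero]
  congr 1
  rw [map_mul, map_pow, ← hmon]
  field_simp

end aux

theorem ell_lam {n : ℕ} (hn : HN n) (l : ℕ) (hl : l.Prime) (ω : (KF n)[X])
    (hω : IsOmega (xK n) ω) (m : ℕ) (j : J n) :
    ∃ w' r : RR n, ¬ ((l : RR n) ∣ w') ∧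
      algebraMap (RR n) (KF n) w' * tr (xK n) ω (zz n (xK n) ^ m *
        (aeval (gen n (xK n) j.1) (∏ i ∈ Finset.univ.erase j.2,
          (X - C ((xK n ⟨j.1, i⟩ : (KF n)ˣ) : KF n))))) = algebraMap (RR n) (KF n) r := by
  classical
  let Ω := AlgebraicClosure (KF n)
  let f : KF n →+* Ω := algebraMap (KF n) Ω
  have hch : CharZero Ω := charZero_of_injective_algebraMap f.injective
  have hind : Indep (mapx f (xK n)) := (indep_xK n).map f
  have hgen : Gen (mapx f (xK n)) := hind.gen hn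
  have hfd : FiniteDimensional Ω (H n (mapx f (xK n))) := finite_field n hn _
  have hinj : Function.Injective (f.comp (algebraMap (RR n) (KF n))) :=
    f.injective.comp (FaithfulSMul.algebraMap_injective (RR n) (KF n))
  have hr : finrank Ω (H n (mapx f (xK n))) = NZ n ^ 2 := by
    have := generic_rank n hn (f.comp (algebraMap (RR n) (KF n))) hinj
    rw [← vlam_mapx] at this
    exact this
  obtain ⟨ρ, h1, h2, _, h4⟩ := split hn hgen hr
  have htf := tr_formula (ω.map f) (hω.map f) ρ h1 h4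
  set p : (KF n)[X] := ∏ i ∈ Finset.univ.erase j.2,
          (X - C ((xK n ⟨j.1, i⟩ : (KF n)ˣ) : KF n)) with hp
  set c : RR n := ∏ i ∈ Finset.univ.erase j.2,
    (((XX n ⟨j.1, j.2⟩ : (RR n)ˣ) : RR n) - ((XX n ⟨j.1, i⟩ : (RR n)ˣ) : RR n)) with hcdef
  have hev : ∀ j' : Fin (leg n j.1), (p.map f).eval ((mapx f (xK n) ⟨j.1, j'⟩ : Ωˣ) : Ω)
      = if j' = j.2 then f (algebraMap (RR n) (KF n) c) else 0 := by
    intro j'
    have e0 : ((mapx f (xK n) ⟨j.1, j'⟩ : Ωˣ) : Ω) = f ((xK n ⟨j.1, j'⟩ : (KF n)ˣ) : KF n) := rfl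
    rw [e0, eval_map, eval₂_at_apply, hp, eval_prod]
    split_ifs with hj
    · rw [hj, hcdef, map_prod, map_prod, map_prod]
      apply Finset.prod_congr rfl
      intro i _
      rw [eval_sub, eval_X, eval_C, map_sub, map_sub, map_sub]
      rfl
    · rw [Finset.prod_eq_zero (Finset.mem_erase.2 ⟨hj, Finset.mem_univ j'⟩), map_zero]
      simp
  have htr : ∀ i : Idx (mapx f (xK n)), LinearMap.trace Ω _ (ρ i (hmap f n (xK n)
      (zz n (xK n) ^ m * aeval (gen n (xK n) j.1) p))) =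
      ((i.1.1 j : ℤ) : Ω) * f (algebraMap (RR n) (KF n) c) * ((i.1.2 : Ωˣ) : Ω) ^ m := by
    intro i
    rw [map_mul, map_pow, hmap_zz, vlam_hmap_aeval, hmap_gen, map_mul, map_pow, h1, _root_.smul_pow,
      one_pow, smul_mul_assoc, one_mul, map_smul, ← aeval_algHom_apply]
    have hst : IsStar n (mapx f (xK n)) (fun g => ρ i (gen n (mapx f (xK n)) g)) :=
      (isStar_gen n _).map (ρ i)
    have := trace_aeval hst j.1 (p.map f)
    rw [this, Finset.sum_congr rfl fun j' _ => by rw [hev j']]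
    rw [h2 i]
    simp only [mul_ite, mul_zero, Finset.sum_ite_eq', Finset.mem_univ, if_true, smul_eq_mul]
    ring
  choose y hy using fun α : {α // α ∈ Rc n} => vlam_inner hn hl f m α.2
  have hmain : f (tr (xK n) ω (zz n (xK n) ^ m * aeval (gen n (xK n) j.1) p)) =
      f ((∑ α : {α // α ∈ Rc n}, ((α.1 j : ℤ) : vlam_S n l hl) * vlam_i n l hl c * y α :
        vlam_S n l hl) : KF n) := by
    rw [← tr_map hn, htf]
    rw [← Finset.sum_fiberwise_of_maps_to (s := Finset.univ) (t := Rc n)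
      (g := fun i : Idx (mapx f (xK n)) => i.1.1) (fun i _ => i.2.1)]
    rw [← Finset.sum_coe_sort (Rc n)]
    have hcast : f ((∑ α : {α // α ∈ Rc n}, ((α.1 j : ℤ) : vlam_S n l hl) * vlam_i n l hl c * y α :
        vlam_S n l hl) : KF n) = (f.comp (vlam_S n l hl).subtype)
        (∑ α : {α // α ∈ Rc n}, ((α.1 j : ℤ) : vlam_S n l hl) * vlam_i n l hl c * y α) := rfl
    rw [hcast, map_sum]
    apply Finset.sum_congr rfl
    intro α _
    have e3 : (f.comp (vlam_S n l hl).subtype) ((α.1 j : ℤ) : vlam_S n l hl)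
        = ((α.1 j : ℤ) : Ω) := map_intCast _ _
    rw [map_mul (f.comp (vlam_S n l hl).subtype), map_mul (f.comp (vlam_S n l hl).subtype), e3]
    have e1 : (f.comp (vlam_S n l hl).subtype) (vlam_i n l hl c)
        = f (algebraMap (RR n) (KF n) c) := rfl
    have e2 : (f.comp (vlam_S n l hl).subtype) (y α) = f (y α : KF n) := rfl
    rw [e1, e2, ← hy α, Finset.mul_sum]
    apply Finset.sum_congr rfl
    intro i hi
    have hi' : i.1.1 = α.1 := (Finset.mem_filter.1 hi).2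
    rw [htr i, ← hi']
    ring
  have hfin := f.injective hmain
  obtain ⟨w', r, hw, hr'⟩ := (∑ α : {α // α ∈ Rc n}, ((α.1 j : ℤ) : vlam_S n l hl) *
    vlam_i n l hl c * y α : vlam_S n l hl).2
  refine ⟨w', r, hw, ?_⟩
  rw [hfin]
  exact hr'

end SYM
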