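import Pool.Agent.Lib.MP_b1ea0f_al.Defs4
import Pool.Agent.Lib.MP_b1ea0f_al.VLam
import Pool.Agent.Lib.MP_b1ea0f_al.VEll
import Pool.Agent.Lib.MP_b1ea0f_al.TProps
import Pool.Agent.Lib.MP_b1ea0f_al.SFin
import Pool.Agent.Lib.MP_b1ea0f_al.KLaur
import Pool.Agent.Lib.MP_b1ea0f_al.TIndep
import Pool.Agent.Lib.MP_b1ea0f_al.BMap
import Pool.Agent.Lib.MP_b1ea0f_al.VIndep

/-!
# VEllInt: l-integrality of the trace

Paper 8.4: `TT := {h ∈ H_(l) : t(h) ∈ R_(l)}` contains commutators and `z^m e_j`; modulo `l` these span (`ell_span` over `κ = Frac(RR n / l)`, parameters independent), Nakayama for the finite `R_(l)`-module `H_(l)` (base change `RR n → R_(l)`, `R_(l)` = `Localization.AtPrime (l)`): the span is everything.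
-/

namespace SYM
open Polynomial Module

/-! ### the prime `(l)` -/

private theorem dvd_of_map {σ : Type} (l : ℕ) (f : Laurent σ)
    (hf : AddMonoidAlgebra.mapRingHom (σ →₀ ℤ) (Int.castRingHom (ZMod l)) f = 0) :
    (l : Laurent σ) ∣ f := by
  classical
  have hc : ∀ v, (l : ℤ) ∣ f.coeff v := by
    intro v
    have h1 := AddMonoidAlgebra.coeff_mapRingHom (Int.castRingHom (ZMod l)) f v
    rw [hf] at h1
    have h2 : ((f.coeff v : ℤ) : ZMod l) = 0 := by
      rw [← eq_intCast (Int.castRingHom (ZMod l)), ← h1]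
      rfl
    exact (ZMod.intCast_zmod_eq_zero_iff_dvd _ _).1 h2
  choose q hq using hc
  have hfs : f = f.coeff.sum AddMonoidAlgebra.single := (AddMonoidAlgebra.sum_coeff_single f).symm
  rw [hfs, Finsupp.sum]
  refine Finset.dvd_sum fun v _ => ?_
  refine ⟨AddMonoidAlgebra.single v (q v), ?_⟩
  rw [hq v]
  have h3 : (l : Laurent σ) = AddMonoidAlgebra.single 0 (l : ℤ) := by
    rw [AddMonoidAlgebra.natCast_def]
  rw [h3, AddMonoidAlgebra.single_mul_single, zero_add]

private theorem map_eq_zero_iff' {σ : Type} (l : ℕ) (f : Laurent σ) :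
    AddMonoidAlgebra.mapRingHom (σ →₀ ℤ) (Int.castRingHom (ZMod l)) f = 0 ↔
      (l : Laurent σ) ∣ f := by
  refine ⟨dvd_of_map l f, ?_⟩
  rintro ⟨g, rfl⟩
  rw [map_mul, map_natCast]
  have h1 : ((l : ℕ) : AddMonoidAlgebra (ZMod l) (σ →₀ ℤ)) = 0 := by
    have h2 := map_natCast (algebraMap (ZMod l) (AddMonoidAlgebra (ZMod l) (σ →₀ ℤ))) l
    rw [ZMod.natCast_self, map_zero] at h2
    exact h2.symm
  rw [h1, zero_mul]

private theorem ell_prime (σ : Type) {l : ℕ} (hl : l.Prime) :
    (Ideal.span {(l : Laurent σ)}).IsPrime := by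
  have : Fact l.Prime := ⟨hl⟩
  have h1 : Ideal.span {(l : Laurent σ)} =
      RingHom.ker (AddMonoidAlgebra.mapRingHom (σ →₀ ℤ) (Int.castRingHom (ZMod l))) := by
    ext f
    rw [Ideal.mem_span_singleton, RingHom.mem_ker, map_eq_zero_iff']
  rw [h1]
  exact RingHom.ker_isPrime _

/-! ### monomials -/

private theorem mon_XX {n : ℕ} (v : Vec n) :
    ((mon (XX n) v : (RR n)ˣ) : RR n) =
      AddMonoidAlgebra.single (∑ l, v l • Finsupp.single l (1 : ℤ)) (1 : ℤ) := by
  classical
  have h1 : ∀ i : J n, XX n i =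
      Units.map (AddMonoidAlgebra.of ℤ (J n →₀ ℤ))
        (toUnits (Multiplicative.ofAdd (Finsupp.single i (1 : ℤ)))) := by
    intro i
    ext1
    rfl
  have h2 : mon (XX n) v = Units.map (AddMonoidAlgebra.of ℤ (J n →₀ ℤ))
      (toUnits (∏ l, (Multiplicative.ofAdd (Finsupp.single l (1 : ℤ))) ^ v l)) := by
    rw [map_prod, map_prod, mon]
    refine Finset.prod_congr rfl fun i _ => ?_
    rw [h1, map_zpow, map_zpow]
  rw [h2, Units.coe_map]
  show AddMonoidAlgebra.of ℤ (J n →₀ ℤ) (∏ l, (Multiplicative.ofAdd (Finsupp.single l (1 : ℤ))) ^ v l) = _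
  rw [AddMonoidAlgebra.of_apply]
  congr 1

private theorem sum_single_apply {n : ℕ} (v : Vec n) (i : J n) :
    (∑ l, v l • Finsupp.single l (1 : ℤ) : J n →₀ ℤ) i = v i := by
  classical
  rw [Finsupp.finsetSum_apply, Finset.sum_eq_single i]
  · simp
  · intro b _ hb
    simp [hb]
  · simp

private theorem not_dvd_mon {n : ℕ} {l : ℕ} (hl : l.Prime) (v : Vec n)
    (h : (l : RR n) ∣ ((mon (XX n) v : (RR n)ˣ) : RR n) - 1) : v = 0 := by
  classical
  by_contra hv
  have hne : (∑ l, v l • Finsupp.single l (1 : ℤ) : J n →₀ ℤ) ≠ 0 := by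
    intro h0
    apply hv
    funext i
    rw [← sum_single_apply v i, h0]
    rfl
  have : Fact l.Prime := ⟨hl⟩
  have h1 := (map_eq_zero_iff' l _).2 h
  rw [map_sub, map_one, mon_XX, AddMonoidAlgebra.mapRingHom_single, sub_eq_zero,
    AddMonoidAlgebra.one_def] at h1
  have h2 := congrArg (fun f : AddMonoidAlgebra (ZMod l) (J n →₀ ℤ) =>
    f.coeff (∑ l, v l • Finsupp.single l (1 : ℤ) : J n →₀ ℤ)) h1
  simp only [AddMonoidAlgebra.coeff_single] at h2
  rw [Finsupp.single_eq_same, Finsupp.single_eq_of_ne hne] at h2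
  simp at h2

/-! ### ring homomorphisms out of H -/

private theorem exists_hom' {k k' : Type} [CommRing k] [CommRing k'] (f : k →+* k') (n : ℕ)
    (x : J n → kˣ) (y : J n → k'ˣ) (hy : mapx f x = y) :
    ∃ φ : H n x →+* H n y, (∀ g, φ (gen n x g) = gen n y g) ∧
      (∀ r, φ (algebraMap k _ r) = algebraMap k' _ (f r)) := by
  subst hy
  exact ⟨hmap f n x, hmap_gen f n x, hmap_algebraMap f n x⟩

private theorem ringHom_ext' {k : Type} [CommRing k] {n : ℕ} {x : J n → kˣ} {A : Type} [Ring A]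
    {F G : H n x →+* A} (hg : ∀ g, F (gen n x g) = G (gen n x g))
    (ha : ∀ r, F (algebraMap k _ r) = G (algebraMap k _ r)) : F = G := by
  refine RingHom.ext fun h => ?_
  have hh : h ∈ Algebra.adjoin k (Set.range (gen n x)) := by
    rw [adjoin_gen]
    trivial
  induction hh using Algebra.adjoin_induction with
  | mem x hx => obtain ⟨g, rfl⟩ := hx; exact hg g
  | algebraMap r => exact ha r
  | add x y _ _ hx hy => rw [map_add, map_add, hx, hy]
  | mul x y _ _ hx hy => rw [map_mul, map_mul, hx, hy]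

private theorem hmap_surj {k k' : Type} [CommRing k] [CommRing k'] (f : k →+* k')
    (hf : Function.Surjective f) (n : ℕ) (x : J n → kˣ) : Function.Surjective (hmap f n x) := by
  intro h
  have hh : h ∈ Algebra.adjoin k' (Set.range (gen n (mapx f x))) := by
    rw [adjoin_gen]
    trivial
  induction hh using Algebra.adjoin_induction with
  | mem y hy => obtain ⟨g, rfl⟩ := hy; exact ⟨gen n x g, hmap_gen f n x g⟩
  | algebraMap r =>
    obtain ⟨r, rfl⟩ := hf r
    exact ⟨algebraMap _ _ r, hmap_algebraMap f n x r⟩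
  | add y z _ _ hy hz =>
    obtain ⟨y, rfl⟩ := hy
    obtain ⟨z, rfl⟩ := hz
    exact ⟨y + z, map_add _ _ _⟩
  | mul y z _ _ hy hz =>
    obtain ⟨y, rfl⟩ := hy
    obtain ⟨z, rfl⟩ := hz
    exact ⟨y * z, map_mul _ _ _⟩

/-- the elements `z^m e_j` -/
private noncomputable def ee {k : Type} [CommRing k] {n : ℕ} (x : J n → kˣ) (m : ℕ) (j : J n) :
    H n x := zz n x ^ m * (aeval (gen n x j.1) (∏ i ∈ Finset.univ.erase j.2,
          (X - C ((x ⟨j.1, i⟩ : kˣ) : k))))

private theorem map_ee {k k' : Type} [CommRing k] [CommRing k'] (f : k →+* k') (n : ℕ)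
    (x : J n → kˣ) (y : J n → k'ˣ) (hy : mapx f x = y) (φ : H n x →+* H n y)
    (hg : ∀ g, φ (gen n x g) = gen n y g)
    (ha : ∀ r, φ (algebraMap k _ r) = algebraMap k' _ (f r)) (m : ℕ) (j : J n) :
    φ (ee x m j) = ee y m j := by
  subst hy
  have h1 : φ (zz n x) = zz n (mapx f x) := by
    simp only [zz_eq, map_mul, hg]
  have h2 : (∏ i ∈ Finset.univ.erase j.2,
      (X - C ((mapx f x ⟨j.1, i⟩ : k'ˣ) : k'))) = (∏ i ∈ Finset.univ.erase j.2,
      (X - C ((x ⟨j.1, i⟩ : kˣ) : k))).map f := by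
    rw [Polynomial.map_prod]
    refine Finset.prod_congr rfl fun i _ => ?_
    simp [mapx]
  have h3 : φ.comp (algebraMap k (H n x)) = (algebraMap k' (H n (mapx f x))).comp f :=
    RingHom.ext ha
  rw [ee, ee, map_mul, map_pow, h1, h2, aeval_def, aeval_def, hom_eval₂, eval₂_map, hg, h3]

/-- the spanning set -/
private def SS {k : Type} [CommRing k] {n : ℕ} (x : J n → kˣ) : Set (H n x) :=
  {u | ∃ v w, u = v * w - w * v} ∪ {u | ∃ (m : ℕ) (j : J n), u = ee x m j}

private theorem SS_map_surj {k k' : Type} [CommRing k] [CommRing k'] (f : k →+* k')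
    (hf : Function.Surjective f) (n : ℕ) (x : J n → kˣ) (u : H n (mapx f x))
    (hu : u ∈ SS (mapx f x)) : ∃ s ∈ SS x, hmap f n x s = u := by
  rcases hu with ⟨v, w, rfl⟩ | ⟨m, j, rfl⟩
  · obtain ⟨v, rfl⟩ := hmap_surj f hf n x v
    obtain ⟨w, rfl⟩ := hmap_surj f hf n x w
    refine ⟨v * w - w * v, Or.inl ⟨v, w, rfl⟩, ?_⟩
    rw [map_sub, map_mul, map_mul]
  · exact ⟨ee x m j, Or.inr ⟨m, j, rfl⟩,
      map_ee f n x _ rfl (hmap f n x) (hmap_gen f n x) (hmap_algebraMap f n x) m j⟩

/-- Nakayama -/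
private theorem span_top {R : Type} [CommRing R] [IsLocalRing R] {n : ℕ} (hn : HN n)
    (x : J n → Rˣ)
    (hx : Gen (mapx (algebraMap R (IsLocalRing.ResidueField R)) x)) :
    Submodule.span R (SS x) = ⊤ := by
  have fin : Module.Finite R (H n x) := finite_H n hn x
  obtain ⟨e, he⟩ := bc_equiv (k := R) (k' := IsLocalRing.ResidueField R) n x
  rw [← IsLocalRing.map_tensorProduct_mk_eq_top, eq_top_iff]
  intro u _
  have hsurj : Function.Surjective (algebraMap R (IsLocalRing.ResidueField R)) :=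
    IsLocalRing.residue_surjective
  have key : ∀ h ∈ Submodule.span (IsLocalRing.ResidueField R)
      (SS (mapx (algebraMap R (IsLocalRing.ResidueField R)) x)),
      e.symm h ∈ (Submodule.span R (SS x)).map
        (TensorProduct.mk R (IsLocalRing.ResidueField R) (H n x) 1) := by
    intro h hh
    induction hh using Submodule.span_induction with
    | mem h hh =>
      obtain ⟨s, hs, rfl⟩ := SS_map_surj _ hsurj n x h hh
      rw [← he s, AlgEquiv.symm_apply_apply]
      exact Submodule.mem_map_of_mem (f := TensorProduct.mk R (IsLocalRing.ResidueField R) (H n x) 1)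
        (Submodule.subset_span hs)
    | zero => rw [map_zero]; exact Submodule.zero_mem _
    | add a b _ _ ha hb => rw [map_add]; exact Submodule.add_mem _ ha hb
    | smul c a _ ha =>
      obtain ⟨m, hm, hm2⟩ := ha
      obtain ⟨r, rfl⟩ := hsurj c
      rw [map_smul, ← hm2]
      refine ⟨r • m, Submodule.smul_mem _ _ hm, ?_⟩
      rw [map_smul, algebraMap_smul]
  have h1 := key (e u) (ell_span hn hx (e u))
  rwa [AlgEquiv.symm_apply_apply] at h1

private theorem mapx_mapx {k k' k'' : Type} [CommRing k] [CommRing k'] [CommRing k'']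
    (f : k →+* k') (g : k' →+* k'') {n : ℕ} (x : J n → kˣ) :
    mapx g (mapx f x) = mapx (g.comp f) x := rfl

private theorem mon_mapx' {k k' : Type} [CommRing k] [CommRing k'] (f : k →+* k') {n : ℕ}
    (x : J n → kˣ) (v : Vec n) : mon (mapx f x) v = Units.map (f : k →* k') (mon x v) := by
  simp only [mon, mapx, map_prod, map_zpow]

private theorem indep_res {n : ℕ} {l : ℕ} (hl : l.Prime)
    [hI : (Ideal.span {(l : RR n)}).IsPrime] :
    Indep (mapx (algebraMap (Localization.AtPrime (Ideal.span {(l : RR n)}))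
      (IsLocalRing.ResidueField (Localization.AtPrime (Ideal.span {(l : RR n)}))))
      (mapx (algebraMap (RR n) (Localization.AtPrime (Ideal.span {(l : RR n)}))) (XX n))) := by
  intro v hv
  apply not_dvd_mon hl v
  rw [← Ideal.mem_span_singleton, ← Ideal.algebraMap_residueField_eq_zero, map_sub, map_one,
    sub_eq_zero]
  rw [mapx_mapx, mon_mapx'] at hv
  have h1 := congrArg (fun u : (Ideal.span {(l : RR n)}).ResidueFieldˣ =>
    (u : (Ideal.span {(l : RR n)}).ResidueField)) hv
  exact h1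

theorem ell_integral {n : ℕ} (hn : HN n) (l : ℕ) (hl : l.Prime) (ω : (KF n)[X])
    (hω : IsOmega (xK n) ω) (h : H n (XX n)) :
    ∃ w' r : RR n, ¬ ((l : RR n) ∣ w') ∧
      algebraMap (RR n) (KF n) w' *
        tr (xK n) ω (hmap (algebraMap (RR n) (KF n)) n (XX n) h) =
      algebraMap (RR n) (KF n) r := by
  classical
  have hI : (Ideal.span {(l : RR n)}).IsPrime := ell_prime (J n) hl
  have hmem : ∀ w : RR n, w ∈ (Ideal.span {(l : RR n)}).primeCompl ↔ ¬ ((l : RR n) ∣ w) := by
    intro w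
    rw [Ideal.mem_primeCompl_iff, Ideal.mem_span_singleton]
  have hu : ∀ y : (Ideal.span {(l : RR n)}).primeCompl,
      IsUnit (algebraMap (RR n) (KF n) y) := by
    rintro ⟨y, hy⟩
    have hy0 : y ≠ 0 := by
      rintro rfl
      exact (hmem 0).1 hy (dvd_zero _)
    exact IsUnit.mk0 _ (by
      intro h0
      exact hy0 ((IsFractionRing.injective (RR n) (KF n)) (by rw [h0, map_zero])))
  set a : RR n →+* Localization.AtPrime (Ideal.span {(l : RR n)}) := algebraMap _ _ with ha
  set xl := mapx a (XX n) with hxl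
  set fl : Localization.AtPrime (Ideal.span {(l : RR n)}) →+* KF n :=
    IsLocalization.lift (M := (Ideal.span {(l : RR n)}).primeCompl) hu with hfl
  have hfl1 : ∀ r, fl (a r) = algebraMap (RR n) (KF n) r := fun r => IsLocalization.lift_eq hu r
  have hcomp : fl.comp a = algebraMap (RR n) (KF n) := RingHom.ext hfl1
  have hy : mapx fl xl = xK n := by
    rw [hxl, mapx_mapx, hcomp]
  obtain ⟨φ, hφg, hφa⟩ := exists_hom' fl n xl (xK n) hy
  have htop : Submodule.span (Localization.AtPrime (Ideal.span {(l : RR n)})) (SS xl) = ⊤ :=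
    span_top hn xl ((indep_res hl).gen hn)
  have key : ∀ m ∈ Submodule.span (Localization.AtPrime (Ideal.span {(l : RR n)})) (SS xl),
      ∃ c, tr (xK n) ω (φ m) = fl c := by
    intro m hm
    induction hm using Submodule.span_induction with
    | mem m hm =>
      rcases hm with ⟨v, w, rfl⟩ | ⟨m, j, rfl⟩
      · refine ⟨0, ?_⟩
        rw [map_sub, map_sub, map_mul φ v w, map_mul φ w v, tr_comm, sub_self, map_zero]
      · obtain ⟨w', r, hw', hr⟩ := ell_lam hn l hl ω hω m j
        refine ⟨IsLocalization.mk' (M := (Ideal.span {(l : RR n)}).primeCompl) _ r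
          ⟨w', (hmem w').2 hw'⟩, ?_⟩
        rw [map_ee fl n xl (xK n) hy φ hφg hφa]
        have h1 : fl (IsLocalization.mk' (M := (Ideal.span {(l : RR n)}).primeCompl) _ r
          ⟨w', (hmem w').2 hw'⟩) * algebraMap (RR n) (KF n) w' = algebraMap (RR n) (KF n) r := by
          rw [← hfl1, ← hfl1, ← map_mul]
          congr 1
          exact IsLocalization.mk'_spec _ r _
        have h2 : algebraMap (RR n) (KF n) w' ≠ 0 := (hu ⟨w', (hmem w').2 hw'⟩).ne_zero
        apply mul_left_cancel₀ h2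
        rw [mul_comm _ (fl _), h1]
        exact hr
    | zero => exact ⟨0, by rw [map_zero, map_zero, map_zero]⟩
    | add x y _ _ hx hy =>
      obtain ⟨c, hc⟩ := hx
      obtain ⟨d, hd⟩ := hy
      exact ⟨c + d, by rw [map_add, map_add, hc, hd, map_add]⟩
    | smul c x _ hx =>
      obtain ⟨d, hd⟩ := hx
      refine ⟨c * d, ?_⟩
      rw [Algebra.smul_def, map_mul, hφa, ← Algebra.smul_def, map_smul, hd, map_mul, smul_eq_mul]
  obtain ⟨c, hc⟩ := key (hmap a n (XX n) h) (by rw [htop]; trivial)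
  have hφ : φ (hmap a n (XX n) h) = hmap (algebraMap (RR n) (KF n)) n (XX n) h := by
    have h1 : φ.comp (hmap a n (XX n)) = hmap (algebraMap (RR n) (KF n)) n (XX n) := by
      apply ringHom_ext'
      · intro g
        rw [RingHom.comp_apply, hmap_gen, hmap_gen]
        exact hφg g
      · intro r
        rw [RingHom.comp_apply, hmap_algebraMap, hmap_algebraMap]
        rw [← hfl1]
        exact hφa _
    exact congrArg (fun F : H n (XX n) →+* H n (xK n) => F h) h1
  rw [← hφ, hc]
  obtain ⟨⟨r, w⟩, hrw⟩ := IsLocalization.surj (Ideal.span {(l : RR n)}).primeCompl c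
  refine ⟨w, r, (hmem w).1 w.2, ?_⟩
  have h2 := congrArg fl hrw
  rw [map_mul] at h2
  rw [← hfl1, ← hfl1, mul_comm]
  exact h2

end SYM
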