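import Pool.Agent.Lib.MP_b1ea0f_al.Defs4
import Pool.Agent.Lib.MP_b1ea0f_al.KLaur

/-!
# VHart: Hartogs for Laurent polynomials

Paper 8.2. Let `w` be (the image of) a polynomial, and argue by induction on its prime factors. Let `π` be a
prime factor of `w` in `ℤ[x]`. If `π` divides the product of the variables, it is a unit of `Laurent σ`.
If `π` is a constant, `h1` shows that `π` divides `u`. Otherwise `π` has positive degree in some `x_k`; take
`KK` an algebraic closure of `Frac(ℤ[x]/(π))` and `y` the images of the variables. The curve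
`x_k = y_k + X` is injective (its kernel is contained in `(π)`, and `∂π/∂x_k ∉ (π)`), `curve w` vanishes at
`X = 0`, hence so does `curve u`, that is, `π` divides `u`.
-/

namespace SYM
open Polynomial Module

private theorem polyMap_X {σ : Type} (i : σ) :
    polyMap σ (MvPolynomial.X i) = ((Laurent.var i : (Laurent σ)ˣ) : Laurent σ) := by
  simp [polyMap]

private theorem polyMap_C {σ : Type} (a : ℤ) :
    polyMap σ (MvPolynomial.C a) = (a : Laurent σ) := by
  simp [polyMap]

private noncomputable def mm (σ : Type) [Fintype σ] : MvPolynomial σ ℤ := ∏ i, MvPolynomial.X i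

private theorem polyMap_mm {σ : Type} [Fintype σ] :
    polyMap σ (mm σ) = ∏ i, ((Laurent.var i : (Laurent σ)ˣ) : Laurent σ) := by
  simp only [mm, map_prod, polyMap_X]

private theorem isUnit_mm {σ : Type} [Fintype σ] : IsUnit (polyMap σ (mm σ)) := by
  rw [polyMap_mm]
  have h : (∏ i, ((Laurent.var i : (Laurent σ)ˣ) : Laurent σ)) =
      ((∏ i, Laurent.var i : (Laurent σ)ˣ) : Laurent σ) := by
    rw [Units.coe_prod]
  rw [h]
  exact Units.isUnit _

private theorem exists_poly' {σ : Type} [Fintype σ] (f : Laurent σ) :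
    ∃ (p : MvPolynomial σ ℤ) (m : ℕ), f * polyMap σ (mm σ) ^ m = polyMap σ p := by
  obtain ⟨p, m, h⟩ := exists_poly f
  exact ⟨p, m, by rw [polyMap_mm]; exact h⟩

private theorem prime_dvd {σ : Type} [Fintype σ] {π p : MvPolynomial σ ℤ} (hπ : Prime π)
    (hm : ¬ π ∣ mm σ) (h : polyMap σ π ∣ polyMap σ p) : π ∣ p := by
  obtain ⟨f, hf⟩ := h
  obtain ⟨r, m, hr⟩ := exists_poly' f
  have h1 : p * mm σ ^ m = π * r := by
    apply polyMap_injective σ
    rw [map_mul, map_mul, map_pow, hf, mul_assoc, hr]
  rcases hπ.dvd_or_dvd ⟨r, h1⟩ with h | h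
  · exact h
  · exact absurd (hπ.dvd_of_dvd_pow h) hm

/-- a prime not dividing the product of the variables stays prime -/
private theorem prime_mul {σ : Type} [Fintype σ] {π : MvPolynomial σ ℤ} (hπ : Prime π)
    (hm : ¬ π ∣ mm σ) {f g : Laurent σ} (h : polyMap σ π ∣ f * g) :
    polyMap σ π ∣ f ∨ polyMap σ π ∣ g := by
  obtain ⟨p, a, hp⟩ := exists_poly' f
  obtain ⟨q, b, hq⟩ := exists_poly' g
  have h1 : polyMap σ π ∣ polyMap σ (p * q) := by
    rw [map_mul, ← hp, ← hq]
    have h2 : f * polyMap σ (mm σ) ^ a * (g * polyMap σ (mm σ) ^ b) =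
        f * g * (polyMap σ (mm σ) ^ a * polyMap σ (mm σ) ^ b) := by ring
    rw [h2]
    exact Dvd.dvd.mul_right h _
  rcases hπ.dvd_or_dvd (prime_dvd hπ hm h1) with h | h
  · left
    have h3 : polyMap σ π ∣ f * polyMap σ (mm σ) ^ a := by rw [hp]; exact map_dvd _ h
    exact ((isUnit_mm.pow a).dvd_mul_right).1 h3
  · right
    have h3 : polyMap σ π ∣ g * polyMap σ (mm σ) ^ b := by rw [hq]; exact map_dvd _ h
    exact ((isUnit_mm.pow b).dvd_mul_right).1 h3

private theorem mem_of_dvd {σ : Type} {π q : MvPolynomial σ ℤ} {k : σ}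
    (hk : MvPolynomial.degreeOf k q < MvPolynomial.degreeOf k π) (h : π ∣ q) : q = 0 := by
  by_contra hq
  obtain ⟨r, rfl⟩ := h
  have h1 : π ≠ 0 := left_ne_zero_of_mul hq
  have h2 : r ≠ 0 := right_ne_zero_of_mul hq
  rw [MvPolynomial.degreeOf_mul_eq h1 h2] at hk
  omega

private theorem pderiv_ne {σ : Type} {π : MvPolynomial σ ℤ} {k : σ}
    (hk : 0 < MvPolynomial.degreeOf k π) : ¬ π ∣ MvPolynomial.pderiv k π := by
  intro h
  have h0 : MvPolynomial.degreeOf k (MvPolynomial.pderiv k π) < MvPolynomial.degreeOf k π := by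
    rw [MvPolynomial.degreeOf_lt_iff hk]
    intro m hm
    rw [MvPolynomial.mem_support_iff, MvPolynomial.coeff_pderiv] at hm
    have h1 : m + Finsupp.single k 1 ∈ π.support := by
      rw [MvPolynomial.mem_support_iff]
      exact left_ne_zero_of_mul hm
    have h2 := MvPolynomial.monomial_le_degreeOf k h1
    simp at h2
    omega
  have h1 := mem_of_dvd h0 h
  -- some monomial of positive degree in `x_k`
  have h2 : ∃ m ∈ π.support, m k ≠ 0 := by
    by_contra hc
    push Not at hc
    have h3 : MvPolynomial.degreeOf k π < 1 := by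
      rw [MvPolynomial.degreeOf_lt_iff Nat.one_pos]
      intro m hm
      rw [hc m hm]
      exact Nat.one_pos
    omega
  obtain ⟨m, hm, hmk⟩ := h2
  obtain ⟨m', rfl⟩ : ∃ m', m = m' + Finsupp.single k 1 := by
    refine ⟨m - Finsupp.single k 1, ?_⟩
    rw [tsub_add_cancel_of_le]
    rw [Finsupp.single_le_iff]
    omega
  have h3 := MvPolynomial.coeff_pderiv (i := k) π m'
  rw [h1, MvPolynomial.coeff_zero] at h3
  have h4 := left_ne_zero_of_mul (a := MvPolynomial.coeff (m' + Finsupp.single k 1) π)
    (b := 1) (by rw [mul_one]; exact MvPolynomial.mem_support_iff.1 hm)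
  rcases mul_eq_zero.1 h3.symm with h5 | h5
  · exact h4 h5
  · have : (0 : ℤ) ≤ m' k := Int.natCast_nonneg _
    omega

private theorem curve_X {σ : Type} [DecidableEq σ] {KK : Type} [Field KK] (k : σ) (y : σ → KKˣ)
    (l : σ) : curve k y (polyMap σ (MvPolynomial.X l)) =
      PowerSeries.C (y l : KK) + if l = k then PowerSeries.X else 0 := by
  rw [polyMap_X, curve, Laurent.lift_var]
  split_ifs with h
  · subst h; rfl
  · rw [add_zero]; rfl

private theorem curve_C {σ : Type} [DecidableEq σ] {KK : Type} [Field KK] (k : σ) (y : σ → KKˣ)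
    (a : ℤ) : curve k y (polyMap σ (MvPolynomial.C a)) = PowerSeries.C (a : KK) := by
  rw [polyMap_C, map_intCast, map_intCast]

private theorem curve_cc {σ : Type} [DecidableEq σ] {KK : Type} [Field KK] (k : σ) (y : σ → KKˣ)
    (p : MvPolynomial σ ℤ) : PowerSeries.constantCoeff (R := KK) (curve k y (polyMap σ p)) =
      MvPolynomial.eval₂Hom (Int.castRingHom KK) (fun l => (y l : KK)) p := by
  have h : ((PowerSeries.constantCoeff (R := KK)).comp (curve k y)).comp (polyMap σ) =
      MvPolynomial.eval₂Hom (Int.castRingHom KK) (fun l => (y l : KK)) := by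
    apply MvPolynomial.ringHom_ext
    · intro a
      simp
    · intro l
      simp only [RingHom.comp_apply, curve_X, MvPolynomial.coe_eval₂Hom, MvPolynomial.eval₂_X]
      split_ifs <;> simp
  exact RingHom.congr_fun h p

private theorem curve_c1 {σ : Type} [DecidableEq σ] {KK : Type} [Field KK] (k : σ) (y : σ → KKˣ)
    (p : MvPolynomial σ ℤ) : PowerSeries.coeff 1 (curve k y (polyMap σ p)) =
      MvPolynomial.eval₂Hom (Int.castRingHom KK) (fun l => (y l : KK))
        (MvPolynomial.pderiv k p) := by
  induction p using MvPolynomial.induction_on with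
  | C a => rw [curve_C, PowerSeries.coeff_C, if_neg one_ne_zero, MvPolynomial.pderiv_C, map_zero]
  | add p q hp hq => rw [map_add, map_add, map_add, hp, hq, map_add, map_add]
  | mul_X p l hp =>
    have h1 : curve k y (polyMap σ (p * MvPolynomial.X l)) =
        curve k y (polyMap σ p) * curve k y (polyMap σ (MvPolynomial.X l)) := by
      rw [map_mul, map_mul]
    rw [h1, PowerSeries.coeff_one_mul, hp, curve_cc, curve_cc, MvPolynomial.pderiv_mul, map_add,
      map_mul, map_mul, MvPolynomial.pderiv_X, curve_X]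
    by_cases h : l = k
    · subst h
      simp only [if_true, Pi.single_eq_same, map_add, PowerSeries.coeff_C,
        PowerSeries.coeff_one_X, if_neg one_ne_zero, zero_add, map_one]
      ring
    · simp only [if_neg h, Pi.single_eq_of_ne h, map_add, PowerSeries.coeff_C,
        if_neg one_ne_zero, add_zero, map_zero]
      ring

private theorem dvd_of_prime {σ : Type} [Fintype σ] [DecidableEq σ] (u w : Laurent σ)
    (h1 : ∀ l : ℕ, l.Prime → ∃ w' : Laurent σ, ¬ ((l : Laurent σ) ∣ w') ∧ w ∣ u * w')
    (h2 : ∀ (KK : Type) [Field KK] [IsAlgClosed KK] [CharZero KK] (k : σ) (y : σ → KKˣ),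
      (∀ v : σ → ℤ, v k = 0 → ∏ l, y l ^ v l = 1 → v = 0) → Function.Injective (curve k y) →
      curve k y w ∣ curve k y u) (π : MvPolynomial σ ℤ) (hπ : Prime π) (hw : polyMap σ π ∣ w) :
    polyMap σ π ∣ u := by
  by_cases hm : π ∣ mm σ
  · exact (isUnit_of_dvd_unit (map_dvd _ hm) isUnit_mm).dvd
  by_cases hc : ∀ k, MvPolynomial.degreeOf k π = 0
  · -- constant prime
    have h3 : π = MvPolynomial.C (MvPolynomial.coeff 0 π) := by
      rw [← MvPolynomial.totalDegree_eq_zero_iff_eq_C, MvPolynomial.totalDegree_eq_zero_iff]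
      intro m hm k
      have := MvPolynomial.monomial_le_degreeOf k hm
      rw [hc k] at this
      omega
    generalize MvPolynomial.coeff 0 π = a at h3
    subst h3
    have ha : Prime a := (MvPolynomial.prime_C_iff σ).1 hπ
    have hl : (a.natAbs).Prime := Int.prime_iff_natAbs_prime.1 ha
    obtain ⟨w', hw', h4⟩ := h1 _ hl
    have h5 : polyMap σ (MvPolynomial.C a) ∣ u * w' := hw.trans h4
    rcases prime_mul hπ hm h5 with h6 | h6
    · exact h6
    · exfalso
      apply hw'
      refine dvd_trans ?_ h6
      rw [polyMap_C]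
      have h7 : ((a.natAbs : ℤ) : Laurent σ) ∣ (a : Laurent σ) := by
        apply Int.cast_dvd_cast
        exact Int.natAbs_dvd.2 dvd_rfl
      simpa using h7
  · push Not at hc
    obtain ⟨k, hk⟩ := hc
    have hk' : 0 < MvPolynomial.degreeOf k π := Nat.pos_of_ne_zero hk
    have hPrime : (Ideal.span {π}).IsPrime := (Ideal.span_singleton_prime hπ.ne_zero).2 hπ
    let F : Type := FractionRing (MvPolynomial σ ℤ ⧸ Ideal.span {π})
    let KK : Type := AlgebraicClosure F
    let ev : MvPolynomial σ ℤ →+* KK :=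
      ((algebraMap F KK).comp (algebraMap (MvPolynomial σ ℤ ⧸ Ideal.span {π}) F)).comp
        (Ideal.Quotient.mk _)
    have hev : ∀ p, ev p = 0 ↔ π ∣ p := by
      intro p
      have hi : Function.Injective
          ((algebraMap F KK).comp (algebraMap (MvPolynomial σ ℤ ⧸ Ideal.span {π}) F)) := by
        rw [RingHom.coe_comp]
        exact (algebraMap F KK).injective.comp (IsFractionRing.injective _ _)
      show ((algebraMap F KK).comp (algebraMap (MvPolynomial σ ℤ ⧸ Ideal.span {π}) F))
        (Ideal.Quotient.mk _ p) = 0 ↔ _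
      rw [map_eq_zero_iff _ hi, Ideal.Quotient.eq_zero_iff_mem, Ideal.mem_span_singleton]
    have : CharZero KK := by
      apply charZero_of_inj_zero
      intro n hn
      have h3 : ev (MvPolynomial.C (n : ℤ)) = 0 := by
        have h4 : (MvPolynomial.C (n : ℤ) : MvPolynomial σ ℤ) = ((n : ℕ) : MvPolynomial σ ℤ) := by
          simp
        rw [h4, map_natCast]
        exact hn
      have h4 := mem_of_dvd (k := k) (by rw [MvPolynomial.degreeOf_C]; exact hk') ((hev _).1 h3)
      have h5 := (MvPolynomial.C_eq_zero).1 h4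
      exact_mod_cast h5
    have hX : ∀ l, ev (MvPolynomial.X l) ≠ 0 := by
      intro l hl
      apply hm
      refine ((hev _).1 hl).trans ?_
      exact Finset.dvd_prod_of_mem _ (Finset.mem_univ l)
    let y : σ → KKˣ := fun l => Units.mk0 (ev (MvPolynomial.X l)) (hX l)
    have hevy : MvPolynomial.eval₂Hom (Int.castRingHom KK) (fun l => (y l : KK)) = ev := by
      apply MvPolynomial.ringHom_ext
      · intro a
        simp
      · intro l
        simp [y]
    have hy : ∀ v : σ → ℤ, v k = 0 → ∏ l, y l ^ v l = 1 → v = 0 := by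
      intro v hvk hv
      have h3 : ∏ l, (y l : KK) ^ (v l).toNat = ∏ l, (y l : KK) ^ (- v l).toNat := by
        have h4 : ∏ l, y l ^ ((v l).toNat) = ∏ l, y l ^ ((- v l).toNat) := by
          have h5 : ∀ l, y l ^ v l = y l ^ ((v l).toNat) * (y l ^ ((- v l).toNat))⁻¹ := by
            intro l
            rw [← zpow_natCast, ← zpow_natCast, ← zpow_neg, ← zpow_add]
            congr 1
            omega
          rw [Finset.prod_congr rfl (fun l _ => h5 l), Finset.prod_mul_distrib,
            Finset.prod_inv_distrib] at hv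
          exact mul_inv_eq_one.1 hv
        have h5 := congrArg (Units.val) h4
        simpa [Units.coe_prod] using h5
      have h4 : ev (∏ l, MvPolynomial.X l ^ (v l).toNat - ∏ l, MvPolynomial.X l ^ (- v l).toNat) =
          0 := by
        rw [map_sub, map_prod, map_prod, sub_eq_zero]
        simpa [y] using h3
      have hmono : ∀ n : σ → ℕ, (∏ l, (MvPolynomial.X l : MvPolynomial σ ℤ) ^ n l) =
          MvPolynomial.monomial (Finsupp.equivFunOnFinite.symm n) 1 := by
        intro n
        rw [MvPolynomial.monomial_eq, Finsupp.prod_fintype _ _ (by simp)]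
        simp
      have h5 : (∏ l, (MvPolynomial.X l : MvPolynomial σ ℤ) ^ (v l).toNat -
          ∏ l, MvPolynomial.X l ^ (- v l).toNat) = 0 := by
        refine mem_of_dvd (k := k) ?_ ((hev _).1 h4)
        refine lt_of_le_of_lt (MvPolynomial.degreeOf_sub_le _ _ _) ?_
        rw [hmono, hmono, max_lt_iff]
        constructor
        · rw [MvPolynomial.degreeOf_monomial_eq _ _ one_ne_zero]
          simpa [hvk] using hk'
        · rw [MvPolynomial.degreeOf_monomial_eq _ _ one_ne_zero]
          simpa [hvk] using hk'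
      rw [hmono, hmono, sub_eq_zero] at h5
      have h6 := (MvPolynomial.monomial_left_injective (one_ne_zero (α := ℤ))) h5
      have h7 := Finsupp.equivFunOnFinite.symm.injective h6
      funext l
      have h8 := congrFun h7 l
      simp only [Pi.zero_apply]
      omega
    have hcurve0 : curve k y (polyMap σ π) ≠ 0 := by
      intro h
      have h3 := curve_c1 k y π
      rw [h, hevy, map_zero] at h3
      exact pderiv_ne hk' ((hev _).1 h3.symm)
    -- injectivity
    have hinjP : ∀ p : MvPolynomial σ ℤ, curve k y (polyMap σ p) = 0 → p = 0 := by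
      have key : ∀ (n : ℕ) (p : MvPolynomial σ ℤ), MvPolynomial.degreeOf k p ≤ n →
          curve k y (polyMap σ p) = 0 → p = 0 := by
        intro n
        induction n using Nat.strong_induction_on with
        | _ n ih =>
          intro p hp h
          by_contra hne
          have h3 := curve_cc k y p
          rw [h, hevy, map_zero] at h3
          obtain ⟨q, rfl⟩ := (hev _).1 h3.symm
          rw [map_mul, map_mul] at h
          have h4 := (mul_eq_zero.1 h).resolve_left hcurve0
          have hq0 : q ≠ 0 := right_ne_zero_of_mul hne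
          rw [MvPolynomial.degreeOf_mul_eq hπ.ne_zero hq0] at hp
          exact hq0 (ih (MvPolynomial.degreeOf k q) (by omega) q le_rfl h4)
      intro p h
      exact key _ p le_rfl h
    have hinj : Function.Injective (curve k y) := by
      rw [injective_iff_map_eq_zero]
      intro f hf
      obtain ⟨p, m, hp⟩ := exists_poly' f
      have h3 : curve k y (polyMap σ p) = 0 := by
        rw [← hp, map_mul, hf, zero_mul]
      have h4 := hinjP p h3
      rw [h4, map_zero] at hp
      exact (mul_eq_zero.1 hp).resolve_right (isUnit_mm.pow m).ne_zero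
    have h3 := h2 KK k y hy hinj
    obtain ⟨p, m, hp⟩ := exists_poly' u
    have h4 : curve k y (polyMap σ π) ∣ curve k y (polyMap σ p) := by
      rw [← hp, map_mul]
      exact ((_root_.map_dvd (curve k y) hw).trans h3).mul_right _
    have h5 : ev p = 0 := by
      rw [← hevy, ← curve_cc k y p]
      obtain ⟨q, hq⟩ := h4
      rw [hq, map_mul, curve_cc, hevy, (hev π).2 dvd_rfl, zero_mul]
    have h6 : polyMap σ π ∣ u * polyMap σ (mm σ) ^ m := by
      rw [hp]
      exact map_dvd _ ((hev _).1 h5)
    exact ((isUnit_mm.pow m).dvd_mul_right).1 h6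

theorem hartogs {σ : Type} [Fintype σ] [DecidableEq σ] (u w : Laurent σ) (hw : w ≠ 0)
    (h1 : ∀ l : ℕ, l.Prime → ∃ w' : Laurent σ, ¬ ((l : Laurent σ) ∣ w') ∧ w ∣ u * w')
    (h2 : ∀ (KK : Type) [Field KK] [IsAlgClosed KK] [CharZero KK] (k : σ) (y : σ → KKˣ),
      (∀ v : σ → ℤ, v k = 0 → ∏ l, y l ^ v l = 1 → v = 0) → Function.Injective (curve k y) →
      curve k y w ∣ curve k y u) : w ∣ u := by
  have key : ∀ p : MvPolynomial σ ℤ, p ≠ 0 → ∀ u : Laurent σ,
      (∀ l : ℕ, l.Prime → ∃ w' : Laurent σ, ¬ ((l : Laurent σ) ∣ w') ∧ polyMap σ p ∣ u * w') →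
      (∀ (KK : Type) [Field KK] [IsAlgClosed KK] [CharZero KK] (k : σ) (y : σ → KKˣ),
        (∀ v : σ → ℤ, v k = 0 → ∏ l, y l ^ v l = 1 → v = 0) → Function.Injective (curve k y) →
        curve k y (polyMap σ p) ∣ curve k y u) → polyMap σ p ∣ u := by
    intro p
    induction p using UniqueFactorizationMonoid.induction_on_prime with
    | h₁ => intro h; exact absurd rfl h
    | h₂ x hx => intro _ u _ _; exact (hx.map (polyMap σ)).dvd
    | h₃ a π ha hπ ih =>
      intro h0 u h1 h2
      have h3 : polyMap σ π ∣ u :=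
        dvd_of_prime u (polyMap σ (π * a)) h1 h2 π hπ (map_dvd _ (dvd_mul_right _ _))
      obtain ⟨u', rfl⟩ := h3
      have hπ0 : polyMap σ π ≠ 0 := by
        rw [Ne, map_eq_zero_iff _ (polyMap_injective σ)]
        exact hπ.ne_zero
      rw [map_mul]
      apply mul_dvd_mul_left
      apply ih ha u'
      · intro l hl
        obtain ⟨w', hw', h4⟩ := h1 l hl
        refine ⟨w', hw', ?_⟩
        rw [map_mul, mul_assoc] at h4
        exact (mul_dvd_mul_iff_left hπ0).1 h4
      · intro KK _ _ _ k y hy hi
        have h4 := h2 KK k y hy hi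
        rw [map_mul, map_mul, map_mul] at h4
        refine (mul_dvd_mul_iff_left ?_).1 h4
        rw [Ne, map_eq_zero_iff _ hi]
        exact hπ0
  obtain ⟨p, m, hp⟩ := exists_poly' w
  have hu : IsUnit (polyMap σ (mm σ) ^ m) := isUnit_mm.pow m
  have hp0 : p ≠ 0 := by
    rintro rfl
    rw [map_zero] at hp
    exact hw ((mul_eq_zero.1 hp).resolve_right hu.ne_zero)
  have h3 : polyMap σ p ∣ u := by
    apply key p hp0 u
    · intro l hl
      obtain ⟨w', hw', h4⟩ := h1 l hl
      refine ⟨w', hw', ?_⟩
      rw [← hp]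
      exact hu.mul_right_dvd.2 h4
    · intro KK _ _ _ k y hy hi
      rw [← hp, map_mul]
      exact (hu.map (curve k y)).mul_right_dvd.2 (h2 KK k y hy hi)
  rw [← hp] at h3
  exact (dvd_mul_right _ _).trans h3

end SYM
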