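import Pool.Agent.Lib.MP_b1ea0f_al.Defs4
import Pool.Agent.Lib.MP_b1ea0f_al.VHart
import Pool.Agent.Lib.MP_b1ea0f_al.VDivC
import Pool.Agent.Lib.MP_b1ea0f_al.VDivL
import Pool.Agent.Lib.MP_b1ea0f_al.VBasis
import Pool.Agent.Lib.MP_b1ea0f_al.TSym
import Pool.Agent.Lib.MP_b1ea0f_al.VIndep
import Pool.Agent.Lib.MP_b1ea0f_al.KRank
import Pool.Agent.Lib.MP_b1ea0f_al.TProps
import Pool.Agent.Lib.MP_b1ea0f_al.BMap
import Pool.Agent.Lib.MP_b1ea0f_al.TOmega
import Pool.Agent.Lib.MP_b1ea0f_al.KLaur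

/-!
# VFrob: the integral trace is perfect

`div_of_T`: coordinates `A i` (`exists_coord`); `hartogs (A i u) w`: `h1` from `div_ell`, `h2` from `div_curve`; so `A i u = w c_i`, `u = w ∑ c_i B_i`. `exists_frac`: over `KF` the form is non-degenerate (`tr_nondeg`), so `φ = t(· u_K)`, clear denominators. `T_frob`: for each `A i` get `u_i` with `A i h = T(h u_i)`: `Frob` with `v_i = B_i`.
-/

namespace SYM
open Polynomial Module

theorem div_of_T {n : ℕ} (hn : HN n) (ω : (KF n)[X]) (hω : IsOmega (xK n) ω)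
    (T : H n (XX n) →ₗ[RR n] RR n) (hT : ∀ h, algebraMap (RR n) (KF n) (T h) =
      tr (xK n) ω (hmap (algebraMap (RR n) (KF n)) n (XX n) h)) (w : RR n) (hw : w ≠ 0)
    (u : H n (XX n)) (hu : ∀ h, w ∣ T (h * u)) : ∃ u', u = w • u' := by
  obtain ⟨m, A, B, hAB⟩ := exists_coord hn
  have key : ∀ i, w ∣ A i u := by
    intro i
    refine hartogs (A i u) w hw ?_ ?_
    · intro l hl
      obtain ⟨w', u', h1, h2⟩ := div_ell hn ω hω T hT w hw u hu l hl
      refine ⟨w', h1, A i u', ?_⟩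
      have h3 := congrArg (A i) h2
      rw [map_smul, map_smul, smul_eq_mul, smul_eq_mul] at h3
      rw [mul_comm, h3]
    · intro KK _ _ _ k y hy hinj
      exact div_curve hn ω hω T hT w hw u hu (A i) k y hy hinj
  choose c hc using key
  refine ⟨∑ i, c i • B i, ?_⟩
  rw [Finset.smul_sum]
  conv_lhs => rw [hAB u]
  refine Finset.sum_congr rfl fun i _ => ?_
  rw [hc i, mul_smul]

private theorem clear_denominators {n : ℕ} (y : H n (xK n)) :
    ∃ (w : RR n) (u : H n (XX n)), w ≠ 0 ∧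
      hmap (algebraMap (RR n) (KF n)) n (XX n) u = algebraMap (RR n) (KF n) w • y := by
  have hy : y ∈ Submodule.span (KF n) (Set.range (hmap (algebraMap (RR n) (KF n)) n (XX n))) := by
    rw [hmap_span]; trivial
  induction hy using Submodule.span_induction with
  | mem x hx =>
    obtain ⟨u, rfl⟩ := hx
    exact ⟨1, u, one_ne_zero, by rw [map_one, one_smul]⟩
  | zero => exact ⟨1, 0, one_ne_zero, by rw [map_zero, smul_zero]⟩
  | add x x' _ _ hx hx' =>
    obtain ⟨w, u, hw, hu⟩ := hx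
    obtain ⟨w', u', hw', hu'⟩ := hx'
    refine ⟨w * w', w' • u + w • u', mul_ne_zero hw hw', ?_⟩
    rw [map_add, hmap_smul, hmap_smul, hu, hu', smul_smul, smul_smul, map_mul, smul_add,
      mul_comm (algebraMap (RR n) (KF n) w')]
  | smul r x _ hx =>
    obtain ⟨w, u, hw, hu⟩ := hx
    obtain ⟨a, b, hb, hab⟩ := IsFractionRing.div_surjective (A := RR n) r
    have hb0 : b ≠ 0 := nonZeroDivisors.ne_zero hb
    have hb1 : algebraMap (RR n) (KF n) b ≠ 0 := by
      rw [Ne, IsFractionRing.to_map_eq_zero_iff]; exact hb0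
    refine ⟨b * w, a • u, mul_ne_zero hb0 hw, ?_⟩
    rw [hmap_smul, hu, smul_smul, smul_smul, map_mul, ← hab]
    congr 1
    field_simp

theorem exists_frac {n : ℕ} (hn : HN n) (ω : (KF n)[X]) (hω : IsOmega (xK n) ω)
    (T : H n (XX n) →ₗ[RR n] RR n) (hT : ∀ h, algebraMap (RR n) (KF n) (T h) =
      tr (xK n) ω (hmap (algebraMap (RR n) (KF n)) n (XX n) h)) (φ : H n (XX n) →ₗ[RR n] RR n) :
    ∃ (w : RR n) (u : H n (XX n)), w ≠ 0 ∧ ∀ h, w * φ h = T (h * u) := by
  have hinj : Function.Injective (algebraMap (RR n) (KF n)) := IsFractionRing.injective _ _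
  have hr : finrank (KF n) (H n (xK n)) = NZ n ^ 2 := generic_rank n hn _ hinj
  have hfin : Module.Finite (KF n) (H n (xK n)) := by
    apply Module.finite_of_finrank_pos
    rw [hr]
    have : 0 < NZ n := by unfold NZ; split_ifs <;> norm_num
    positivity
  obtain ⟨φ', hφ'⟩ := exists_form_map (algebraMap (RR n) (KF n)) n (XX n) φ
  -- the map `u ↦ tr(· u)`
  let Θ : H n (xK n) →ₗ[KF n] Dual (KF n) (H n (xK n)) :=
    (LinearMap.compr₂ (LinearMap.mul (KF n) (H n (xK n))) (tr (xK n) ω)).flip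
  have hΘ : ∀ u h, Θ u h = tr (xK n) ω (h * u) := fun u h => rfl
  have hΘinj : Function.Injective Θ := by
    rw [← LinearMap.ker_eq_bot, LinearMap.ker_eq_bot']
    intro u hu
    refine tr_nondeg hn (indep_xK n) hr ω hω u fun h' => ?_
    rw [tr_comm, ← hΘ, hu]; rfl
  have hΘsurj : Function.Surjective Θ :=
    (LinearMap.injective_iff_surjective_of_finrank_eq_finrank
      (Subspace.dual_finrank_eq (K := KF n) (V := H n (xK n))).symm).1 hΘinj
  obtain ⟨uK, huK⟩ := hΘsurj φ'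
  obtain ⟨w, u, hw, hu⟩ := clear_denominators uK
  refine ⟨w, u, hw, fun h => hinj ?_⟩
  rw [map_mul, hT, map_mul, hu, Algebra.mul_smul_comm, map_smul, smul_eq_mul, ← hφ' h, ← huK, hΘ]

theorem T_frob {n : ℕ} (hn : HN n) (ω : (KF n)[X]) (hω : IsOmega (xK n) ω)
    (T : H n (XX n) →ₗ[RR n] RR n) (hT : ∀ h, algebraMap (RR n) (KF n) (T h) =
      tr (xK n) ω (hmap (algebraMap (RR n) (KF n)) n (XX n) h)) : Frob T := by
  obtain ⟨m, A, B, hAB⟩ := exists_coord hn
  have key : ∀ i, ∃ u : H n (XX n), ∀ h, A i h = T (h * u) := by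
    intro i
    obtain ⟨w, v, hw, hv⟩ := exists_frac hn ω hω T hT (A i)
    obtain ⟨u, hu⟩ := div_of_T hn ω hω T hT w hw v fun h => ⟨A i h, (hv h).symm⟩
    refine ⟨u, fun h => ?_⟩
    have h1 := hv h
    rw [hu, Algebra.mul_smul_comm, map_smul, smul_eq_mul] at h1
    exact mul_left_cancel₀ hw h1
  choose u hu using key
  refine ⟨m, u, B, fun h => ?_⟩
  conv_lhs => rw [hAB h]
  exact Finset.sum_congr rfl fun i _ => by rw [hu i h]

end SYM
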