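import Pool.Agent.Lib.MP_b1ea0f_al.Defs4
import Pool.Agent.Lib.MP_b1ea0f_al.TForm
import Pool.Agent.Lib.MP_b1ea0f_al.GSplit
import Pool.Agent.Lib.MP_b1ea0f_al.KFin
import Pool.Agent.Lib.MP_b1ea0f_al.KRank
import Pool.Agent.Lib.MP_b1ea0f_al.TIndep
import Pool.Agent.Lib.MP_b1ea0f_al.TProps
import Pool.Agent.Lib.MP_b1ea0f_al.RHalf
import Pool.Agent.Lib.MP_b1ea0f_al.RInd
import Pool.Agent.Lib.MP_b1ea0f_al.VIndep
import Pool.Agent.Lib.MP_b1ea0f_al.KLaur
import Pool.Agent.Lib.MP_b1ea0f_al.TOmega

/-!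
# VOne: t(1) is constant (growth in each variable)

Paper 8.6. For `k : J n` and a sign: `KK` := algebraic closure of `FractionRing (RR n)` (or of the subfield of the other variables), `φ : RR n → KK((s))`, `x_k ↦ s^{±60}`, `x_l ↦ x_l` (`l ≠ k`), injective; the roots of `ζ^d = x^α` are `ρ s^{±60 α_k/d}`. Orders (valuation on `LaurentSeries`, `HahnSeries.order`): `ord q^v = e(v) := ±60(v_k - deg v α_k/d)`,
`ord(q^c - 1) = min(0,e(c))` (if `e(c) = 0` it is a constant different from 1 by independence), `ord schur = -e(ϖ) - (1/2)∑|e(c)| ≤ 0` by `growth`. So `φ(T 1) = ∑ 1/s_i` has order ≥ 0 for both signs; a Laurent polynomial with this property for all `k` is a constant.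
-/

namespace SYM
open Polynomial Module

section LS
variable {F : Type} [Field F]

private noncomputable abbrev jj (F : Type) [Field F] : PowerSeries F →+* LaurentSeries F :=
  HahnSeries.ofPowerSeries ℤ F

private def Ge (a : ℤ) (f : LaurentSeries F) : Prop :=
  ∃ p : PowerSeries F, f = HahnSeries.single a (1 : F) * jj F p

private theorem Ge.mul {a b : ℤ} {f g : LaurentSeries F} (hf : Ge a f) (hg : Ge b g) :
    Ge (a + b) (f * g) := by
  obtain ⟨p, rfl⟩ := hf
  obtain ⟨q, rfl⟩ := hg
  refine ⟨p * q, ?_⟩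
  rw [map_mul, mul_mul_mul_comm, HahnSeries.single_mul_single, one_mul]

private theorem Ge.mono {a b : ℤ} {f : LaurentSeries F} (h : a ≤ b) (hf : Ge b f) : Ge a f := by
  obtain ⟨p, rfl⟩ := hf
  refine ⟨PowerSeries.X ^ (b - a).toNat * p, ?_⟩
  rw [map_mul, HahnSeries.ofPowerSeries_X_pow, ← mul_assoc, HahnSeries.single_mul_single, one_mul,
    show a + ((b - a).toNat : ℤ) = b by omega]

private theorem Ge.add {a : ℤ} {f g : LaurentSeries F} (hf : Ge a f) (hg : Ge a g) :
    Ge a (f + g) := by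
  obtain ⟨p, rfl⟩ := hf
  obtain ⟨q, rfl⟩ := hg
  exact ⟨p + q, by rw [map_add, mul_add]⟩

private theorem Ge.zero {a : ℤ} : Ge a (0 : LaurentSeries F) := ⟨0, by simp⟩

private theorem Ge.sum {ι : Type*} {a : ℤ} (s : Finset ι) (f : ι → LaurentSeries F)
    (h : ∀ i ∈ s, Ge a (f i)) : Ge a (∑ i ∈ s, f i) := by
  classical
  induction s using Finset.induction_on with
  | empty => simpa using Ge.zero
  | insert i s hi ih =>
    rw [Finset.sum_insert hi]
    exact (h i (Finset.mem_insert_self _ _)).add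
      (ih fun j hj => h j (Finset.mem_insert_of_mem hj))

private theorem Ge.prod {ι : Type*} (s : Finset ι) (a : ι → ℤ) (f : ι → LaurentSeries F)
    (h : ∀ i ∈ s, Ge (a i) (f i)) : Ge (∑ i ∈ s, a i) (∏ i ∈ s, f i) := by
  classical
  induction s using Finset.induction_on with
  | empty => exact ⟨1, by simp [HahnSeries.single_zero_one]⟩
  | insert i s hi ih =>
    rw [Finset.sum_insert hi, Finset.prod_insert hi]
    exact (h i (Finset.mem_insert_self _ _)).mul
      (ih fun j hj => h j (Finset.mem_insert_of_mem hj))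

private theorem Ge.coeff {f : LaurentSeries F} (hf : Ge 0 f) (m : ℤ) (hm : m < 0) :
    f.coeff m = 0 := by
  obtain ⟨p, rfl⟩ := hf
  rw [HahnSeries.single_zero_one, one_mul, PowerSeries.coeff_coe, if_pos hm]

private theorem Ge.single (e : ℤ) (a : F) : Ge e (HahnSeries.single e a : LaurentSeries F) :=
  ⟨PowerSeries.C a, by
    rw [HahnSeries.ofPowerSeries_C, HahnSeries.C_apply, HahnSeries.single_mul_single, add_zero,
      one_mul]⟩

private theorem Ge.inv_ps (p : PowerSeries F) (hp : PowerSeries.constantCoeff p ≠ 0) :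
    Ge 0 ((jj F p)⁻¹) := by
  refine ⟨p⁻¹, ?_⟩
  rw [HahnSeries.single_zero_one, one_mul]
  refine inv_eq_of_mul_eq_one_right ?_
  rw [← map_mul, PowerSeries.mul_inv_cancel p hp, map_one]

private theorem inv_sub_one (e : ℤ) (a : Fˣ) (h : e = 0 → a ≠ 1) :
    Ge (max 0 (-e)) ((HahnSeries.single e (a : F) - 1 : LaurentSeries F)⁻¹) ∧
      (HahnSeries.single e (a : F) - 1 : LaurentSeries F) ≠ 0 := by
  have key : (HahnSeries.single e (a : F) - 1 : LaurentSeries F) ≠ 0 := by
    intro h0
    rw [sub_eq_zero, ← HahnSeries.single_zero_one] at h0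
    have h1 := congrArg (fun f : LaurentSeries F => f.coeff e) h0
    simp only [HahnSeries.coeff_single_same] at h1
    by_cases he : e = 0
    · subst he
      rw [HahnSeries.coeff_single_same] at h1
      exact h rfl (Units.ext h1)
    · rw [HahnSeries.coeff_single_of_ne he] at h1
      exact a.ne_zero h1
  refine ⟨?_, key⟩
  rcases lt_trichotomy e 0 with he | he | he
  · rw [max_eq_right (by omega)]
    have h1 : (HahnSeries.single e (a : F) - 1 : LaurentSeries F) =
        HahnSeries.single e (1 : F) * jj F (PowerSeries.C (a : F) - PowerSeries.X ^ (-e).toNat) := by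
      rw [map_sub, HahnSeries.ofPowerSeries_C, HahnSeries.ofPowerSeries_X_pow, mul_sub,
        HahnSeries.C_apply, HahnSeries.single_mul_single, HahnSeries.single_mul_single, add_zero,
        one_mul, one_mul, show e + ((-e).toNat : ℤ) = 0 by omega, HahnSeries.single_zero_one]
    rw [h1, mul_inv]
    have h2 : (HahnSeries.single e (1 : F) : LaurentSeries F)⁻¹ = HahnSeries.single (-e) 1 := by
      refine inv_eq_of_mul_eq_one_left ?_
      rw [HahnSeries.single_mul_single, neg_add_cancel, one_mul, HahnSeries.single_zero_one]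
    rw [h2]
    have h3 := (Ge.single (-e) (1 : F)).mul (Ge.inv_ps (PowerSeries.C (a : F) -
      PowerSeries.X ^ (-e).toNat) (by
        rw [map_sub, PowerSeries.constantCoeff_C, map_pow, PowerSeries.constantCoeff_X, zero_pow
          (by omega), sub_zero]
        exact a.ne_zero))
    rwa [add_zero] at h3
  · subst he
    rw [neg_zero, max_self]
    have h1 : (HahnSeries.single (0 : ℤ) (a : F) - 1 : LaurentSeries F) =
        jj F (PowerSeries.C ((a : F) - 1)) := by
      rw [HahnSeries.ofPowerSeries_C, map_sub, map_one, HahnSeries.C_apply]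
    rw [h1]
    refine Ge.inv_ps _ ?_
    rw [PowerSeries.constantCoeff_C, sub_ne_zero]
    exact fun h2 => h rfl (Units.ext h2)
  · rw [max_eq_left (by omega)]
    have h1 : (HahnSeries.single e (a : F) - 1 : LaurentSeries F) =
        jj F (PowerSeries.C (a : F) * PowerSeries.X ^ e.toNat - 1) := by
      rw [map_sub, map_one, map_mul, HahnSeries.ofPowerSeries_C, HahnSeries.ofPowerSeries_X_pow,
        HahnSeries.C_apply, HahnSeries.single_mul_single, zero_add, mul_one,
        show (e.toNat : ℤ) = e by omega]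
    rw [h1]
    refine Ge.inv_ps _ ?_
    rw [map_sub, map_one, map_mul, map_pow, PowerSeries.constantCoeff_X, zero_pow (by omega),
      mul_zero, zero_sub]
    exact neg_ne_zero.2 one_ne_zero

/-- the units `a s^e` -/
private noncomputable def sg (F : Type) [Field F] :
    Multiplicative ℤ × Fˣ →* (LaurentSeries F)ˣ where
  toFun p :=
    { val := HahnSeries.single p.1.toAdd (p.2 : F)
      inv := HahnSeries.single (-p.1.toAdd) ((p.2⁻¹ : Fˣ) : F)
      val_inv := by
        rw [HahnSeries.single_mul_single, add_neg_cancel, ← Units.val_mul, mul_inv_cancel,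
          Units.val_one, HahnSeries.single_zero_one]
      inv_val := by
        rw [HahnSeries.single_mul_single, neg_add_cancel, ← Units.val_mul, inv_mul_cancel,
          Units.val_one, HahnSeries.single_zero_one] }
  map_one' := by
    apply Units.ext
    show HahnSeries.single (0 : ℤ) ((1 : Fˣ) : F) = 1
    rw [Units.val_one, HahnSeries.single_zero_one]
  map_mul' p q := by
    apply Units.ext
    show HahnSeries.single (p.1 * q.1).toAdd ((p.2 * q.2 : Fˣ) : F) = HahnSeries.single _ _ *
      HahnSeries.single _ _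
    rw [HahnSeries.single_mul_single, toAdd_mul, Units.val_mul]

private theorem sg_val (p : Multiplicative ℤ × Fˣ) :
    ((sg F p : (LaurentSeries F)ˣ) : LaurentSeries F) = HahnSeries.single p.1.toAdd (p.2 : F) := rfl

private theorem mon_sg {n : ℕ} (y : J n → Fˣ) (k : J n) (E : ℤ) (x : J n → (LaurentSeries F)ˣ)
    (hx : ∀ l, x l = sg F (Multiplicative.ofAdd (if l = k then E else 0), y l)) (v : Vec n) :
    mon x v = sg F (Multiplicative.ofAdd (E * v k), mon y v) := by
  classical
  have h1 : mon x v = sg F (∏ l, (Multiplicative.ofAdd (if l = k then E else 0), y l) ^ v l) := by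
    rw [map_prod]
    unfold mon
    refine Finset.prod_congr rfl fun l _ => ?_
    rw [hx l, map_zpow]
  rw [h1]
  congr 1
  apply Prod.ext
  · rw [Prod.fst_prod]
    have h2 : ∀ l : J n, ((Multiplicative.ofAdd (if l = k then E else 0), y l) ^ v l :
        Multiplicative ℤ × Fˣ).1 = Multiplicative.ofAdd (if l = k then E * v k else 0) := by
      intro l
      rw [Prod.pow_fst, ← ofAdd_zsmul]
      congr 1
      split_ifs with hl
      · rw [hl, smul_eq_mul, mul_comm]
      · rw [smul_zero]
    rw [Finset.prod_congr rfl fun l _ => h2 l, ← ofAdd_sum, Finset.sum_ite_eq' Finset.univ k]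
    simp
  · rw [Prod.snd_prod]
    rfl

private theorem qch_sg {n : ℕ} (y : J n → Fˣ) (k : J n) (E : ℤ) (x : J n → (LaurentSeries F)ˣ)
    (hx : ∀ l, x l = sg F (Multiplicative.ofAdd (if l = k then E else 0), y l)) (b : ℤ) (r : Fˣ)
    (v : Vec n) :
    qch x (sg F (Multiplicative.ofAdd b, r)) v =
      sg F (Multiplicative.ofAdd (E * v k - deg v * b), qch y r v) := by
  unfold qch
  rw [mon_sg y k E x hx, ← map_zpow, ← map_mul]
  congr 1
  apply Prod.ext
  · show Multiplicative.ofAdd (E * v k) * (Multiplicative.ofAdd b) ^ (-deg v) = _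
    rw [← ofAdd_zsmul, ← ofAdd_add]
    congr 1
    rw [smul_eq_mul]
    ring
  · rfl

private theorem schur_inv {n : ℕ} (hn : HN n)
    (y : J n → Fˣ) (hy : Indep y) (k : J n) (E : ℤ) {α : Vec n} (hα : α ∈ Rc n) (r : Fˣ)
    (hr : r ^ dg α = mon y α) (b : ℤ) (hb : b * dg α = E * α k)
    (x : J n → (LaurentSeries F)ˣ)
    (hx : ∀ l, x l = sg F (Multiplicative.ofAdd (if l = k then E else 0), y l)) :
    (sg F (Multiplicative.ofAdd b, r)) ^ dg α = mon x α ∧
      Ge 0 ((schur α x (sg F (Multiplicative.ofAdd b, r)))⁻¹) := by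
  classical
  have hdeg : deg α = (dg α : ℤ) := by
    have := ((mem_Rc hn).1 hα).2
    unfold dg
    omega
  have hd1 : (1 : ℤ) ≤ dg α := by
    rw [← hdeg]
    exact ((mem_Rc hn).1 hα).2
  have hz : (sg F (Multiplicative.ofAdd b, r)) ^ dg α = mon x α := by
    rw [mon_sg y k E x hx, ← map_pow]
    congr 1
    apply Prod.ext
    · show (Multiplicative.ofAdd b) ^ dg α = _
      rw [← ofAdd_nsmul]
      congr 1
      rw [nsmul_eq_mul, ← hb]
      ring
    · exact hr
  refine ⟨hz, ?_⟩
  set z := sg F (Multiplicative.ofAdd b, r) with hzdef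
  obtain ⟨h⟩ := exists_half hn hα
  have hq := (qch_eq_one hn x z hα).2 hz
  have hc : ∀ v, qch x z v = sg F (Multiplicative.ofAdd (E * v k - deg v * b), qch y r v) :=
    qch_sg y k E x hx b r
  rw [schur_eq hn hα h x z hq]
  unfold Half.D
  rw [mul_inv, mul_inv, mul_inv, mul_inv, ← Finset.prod_inv_distrib]
  have hs : Ge 0 (((sgn n : ℤ) : LaurentSeries F)⁻¹) := by
    have h1 : (sgn n : ℤ) = 1 ∨ (sgn n : ℤ) = -1 := by
      unfold sgn BMM.kap
      split_ifs
      · exact Or.inl rfl
      · exact Or.inr rfl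
    rcases h1 with h1 | h1 <;> rw [h1]
    · rw [Int.cast_one, inv_one]
      exact ⟨1, by rw [HahnSeries.single_zero_one, one_mul, map_one]⟩
    · rw [Int.cast_neg, Int.cast_one, inv_neg, inv_one]
      exact ⟨-1, by rw [HahnSeries.single_zero_one, one_mul, map_neg, map_one]⟩
  have hq' : ∀ v, Ge (E * v k - deg v * b) ((((qch x z (-v) : (LaurentSeries F)ˣ) :
      LaurentSeries F))⁻¹) := by
    intro v
    rw [qch_neg, ← Units.val_inv_eq_inv_val, inv_inv, hc, sg_val]
    exact Ge.single _ _
  have he : Ge 0 (((-1 : LaurentSeries F) ^ h.eps)⁻¹) := by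
    rcases neg_one_pow_eq_or (LaurentSeries F) h.eps with h1 | h1 <;> rw [h1]
    · rw [inv_one]
      exact ⟨1, by rw [HahnSeries.single_zero_one, one_mul, map_one]⟩
    · rw [inv_neg, inv_one]
      exact ⟨-1, by rw [HahnSeries.single_zero_one, one_mul, map_neg, map_one]⟩
  have hp : Ge (∑ c ∈ h.L, max 0 (-(E * c k - deg c * b)))
      (∏ c ∈ h.L, (((qch x z c : (LaurentSeries F)ˣ) : LaurentSeries F) - 1)⁻¹) := by
    refine Ge.prod _ _ _ fun c hcL => ?_
    rw [hc, sg_val]
    refine (inv_sub_one _ _ ?_).1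
    intro _
    exact Indep.qch_ne hn hy hα r hr (h.isRoot c hcL) (h.ip_eq c hcL)
  have htot := (hs.mul (hq' (varpi n))).mul ((he.mul (hq' h.mu)).mul hp)
  refine Ge.mono ?_ htot
  have e1 : ∀ v : Vec n, (dg α : ℤ) * (E * v k - deg v * b) = E * (v k * deg α - deg v * α k) := by
    intro v
    rw [hdeg]
    linear_combination (-deg v) * hb
  have e2 : ∑ c ∈ h.L, (E * c k - deg c * b) = 2 * (E * h.mu k - deg h.mu * b) := by
    have h1 : (∑ c ∈ h.L, c) k = 2 * h.mu k + h.eps * α k := by
      rw [h.sum_eq]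
      simp [two_mul, two_nsmul]
    have h2 : deg (∑ c ∈ h.L, c) = 2 * deg h.mu + h.eps * deg α := by
      rw [h.sum_eq, lev_add', ← natCast_zsmul, ← natCast_zsmul, deg_smul', deg_smul']
      push_cast
      ring
    have h3 : deg (∑ c ∈ h.L, c) = ∑ c ∈ h.L, deg c := by
      induction h.L using Finset.induction_on with
      | empty => simp [deg, BMM.lev]
      | insert i s hi ih => rw [Finset.sum_insert hi, Finset.sum_insert hi, lev_add', ih]
    rw [Finset.sum_sub_distrib, ← Finset.mul_sum, ← Finset.sum_mul, ← h3, h2,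
      ← Finset.sum_apply, h1, hdeg]
    linear_combination (-(h.eps : ℤ)) * hb
  have e3 : ∑ c ∈ h.L, 2 * max 0 (-(E * c k - deg c * b)) =
      ∑ c ∈ h.L, |E * c k - deg c * b| - ∑ c ∈ h.L, (E * c k - deg c * b) := by
    rw [← Finset.sum_sub_distrib]
    refine Finset.sum_congr rfl fun c _ => ?_
    rcases abs_cases (E * c k - deg c * b) with ⟨h1, h2⟩ | ⟨h1, h2⟩
    · rw [h1, max_eq_left (by omega)]
      ring
    · rw [h1, max_eq_right (by omega)]
      ring
  have e4 := growth hn hα h k
  have e5 : (dg α : ℤ) * ∑ c ∈ h.L, |E * c k - deg c * b| =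
      |E| * ∑ c ∈ h.L, |c k * deg α - deg c * α k| := by
    rw [Finset.mul_sum, Finset.mul_sum]
    refine Finset.sum_congr rfl fun c _ => ?_
    rw [← abs_mul, ← e1, abs_mul, abs_of_nonneg (by omega : (0 : ℤ) ≤ dg α)]
  have e6 : 0 ≤ (dg α : ℤ) * (2 * (E * varpi n k - deg (varpi n) * b) +
      ∑ c ∈ h.L, |E * c k - deg c * b|) := by
    have h1 : (dg α : ℤ) * (2 * (E * varpi n k - deg (varpi n) * b)) =
        E * (2 * (varpi n k * deg α - deg (varpi n) * α k)) := by
      linear_combination 2 * e1 (varpi n)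
    rw [mul_add, e5, h1]
    have h2 : -(|E| * |2 * (varpi n k * deg α - deg (varpi n) * α k)|) ≤
        E * (2 * (varpi n k * deg α - deg (varpi n) * α k)) := by
      rw [← abs_mul]
      exact neg_abs_le _
    have h3 := mul_le_mul_of_nonneg_left e4 (abs_nonneg E)
    linarith
  have e7 : 0 ≤ 2 * (E * varpi n k - deg (varpi n) * b) + ∑ c ∈ h.L, |E * c k - deg c * b| := by
    by_contra h1
    push Not at h1
    have := mul_neg_of_pos_of_neg (by omega : (0 : ℤ) < dg α) h1
    omega
  rw [← Finset.mul_sum] at e3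
  omega

private theorem mem_range_of_root [IsAlgClosed F] {Om : Type*} [Field Om] (g : F →+* Om) (d : ℕ)
    (hd : 0 < d) (a : F) (w : Om) (hw : w ^ d = g a) : ∃ r : F, g r = w ∧ r ^ d = a := by
  have h0 : (X ^ d - C a : F[X]) ≠ 0 := X_pow_sub_C_ne_zero hd a
  have h1 := (IsAlgClosed.splits (X ^ d - C a : F[X])).roots_map g
  have h2 : w ∈ ((X ^ d - C a : F[X]).map g).roots := by
    rw [mem_roots ((Polynomial.map_ne_zero_iff g.injective).2 h0), IsRoot.def]
    simp [hw]
  rw [h1, Multiset.mem_map] at h2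
  obtain ⟨r, hr, hrw⟩ := h2
  refine ⟨r, hrw, ?_⟩
  rw [mem_roots h0, IsRoot.def] at hr
  simpa [sub_eq_zero] using hr

private theorem lift_formula {n : ℕ} {k : Type*} [CommRing k] (y : J n → kˣ) (P : RR n) :
    Laurent.lift y P = ∑ v ∈ P.coeff.support, (P.coeff v) • ((mon y (⇑v) : kˣ) : k) := by
  unfold Laurent.lift
  rw [AlgHom.toRingHom_eq_coe, RingHom.coe_coe, AddMonoidAlgebra.lift_apply]
  unfold Finsupp.sum
  refine Finset.sum_congr rfl fun v _ => ?_
  show P.coeff v • (((v.prod fun i e => (y i) ^ e : kˣ)) : k) = _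
  unfold mon
  rw [Finsupp.prod_fintype _ _ fun i => zpow_zero _]

private theorem coeff_phi {n : ℕ} (y : J n → Fˣ) (k : J n) (E : ℤ)
    (x : J n → (LaurentSeries F)ˣ)
    (hx : ∀ l, x l = sg F (Multiplicative.ofAdd (if l = k then E else 0), y l)) (P : RR n)
    (m : ℤ) : (Laurent.lift x P).coeff m =
      Laurent.lift y (AddMonoidAlgebra.ofCoeff (P.coeff.filter fun v => E * v k = m)) := by
  classical
  rw [lift_formula, lift_formula, HahnSeries.coeff_sum]
  simp only [Finsupp.support_filter]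
  rw [Finset.sum_filter]
  refine Finset.sum_congr rfl fun v _ => ?_
  rw [mon_sg y k E x hx, sg_val]
  show (P.coeff v • (HahnSeries.single (E * v k) ((mon y (⇑v) : Fˣ) : F) :
    LaurentSeries F)).coeff m = _
  have h1 : (P.coeff v • (HahnSeries.single (E * v k) ((mon y (⇑v) : Fˣ) : F) :
    LaurentSeries F)) = HahnSeries.single (E * v k) (P.coeff v • ((mon y (⇑v) : Fˣ) : F)) := by
    exact (map_zsmul (HahnSeries.single.addMonoidHom (E * v k)) _ _).symm
  rw [h1]
  split_ifs with h2
  · rw [Finsupp.filter_apply_pos (fun v : J n →₀ ℤ => E * v k = m) P.coeff h2, h2,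
      HahnSeries.coeff_single_same]
  · rw [HahnSeries.coeff_single_of_ne (Ne.symm h2)]

end LS

private theorem main_one {n : ℕ} (hn : HN n) (ω : (KF n)[X]) (hω : IsOmega (xK n) ω)
    (T : H n (XX n) →ₗ[RR n] RR n) (hT : ∀ h, algebraMap (RR n) (KF n) (T h) =
      tr (xK n) ω (hmap (algebraMap (RR n) (KF n)) n (XX n) h)) (k : J n) (E : ℤ)
    (hE : (60 : ℤ) ∣ E) (v : J n →₀ ℤ) (hv : (T 1).coeff v ≠ 0) : 0 ≤ E * v k := by
  classical
  let F := AlgebraicClosure (KF n)
  let iF : KF n →+* F := algebraMap (KF n) F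
  let iota : RR n →+* F := iF.comp (algebraMap (RR n) (KF n))
  have hiota : Function.Injective iota :=
    iF.injective.comp (IsFractionRing.injective (RR n) (KF n))
  let y : J n → Fˣ := mapx iF (xK n)
  have hy : Indep y := (indep_xK n).map iF
  have hiy : ∀ P : RR n, Laurent.lift y P = iota P := by
    intro P
    have h1 : Laurent.lift y = iota := by
      refine lift_ext fun l => ?_
      rw [Laurent.lift_var]
      rfl
    rw [h1]
  let x : J n → (LaurentSeries F)ˣ :=
    fun l => sg F (Multiplicative.ofAdd (if l = k then E else 0), y l)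
  have hx : ∀ l, x l = sg F (Multiplicative.ofAdd (if l = k then E else 0), y l) := fun _ => rfl
  let φ : RR n →+* LaurentSeries F := Laurent.lift x
  have hco : ∀ (P : RR n) (m : ℤ), (φ P).coeff m =
      iota (AddMonoidAlgebra.ofCoeff (P.coeff.filter fun v => E * v k = m)) := by
    intro P m
    rw [← hiy]
    exact coeff_phi y k E x hx P m
  have hne : ∀ (P : RR n) (v : J n →₀ ℤ), P.coeff v ≠ 0 → (φ P).coeff (E * v k) ≠ 0 := by
    intro P v hv h0
    rw [hco, map_eq_zero_iff _ hiota] at h0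
    have h1 := congrArg (fun Q : RR n => Q.coeff v) h0
    simp only [AddMonoidAlgebra.coeff_zero] at h1
    rw [Finsupp.filter_apply_pos (fun v' : J n →₀ ℤ => E * v' k = E * v k) P.coeff rfl] at h1
    exact hv h1
  have hφ : Function.Injective φ := by
    rw [injective_iff_map_eq_zero]
    intro P hP
    by_contra h0
    obtain ⟨v, hv⟩ : ∃ v, P.coeff v ≠ 0 := by
      by_contra h1
      push Not at h1
      exact h0 (AddMonoidAlgebra.ext (Finsupp.ext h1))
    refine hne P v hv ?_
    rw [hP]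
    rfl
  let Om := AlgebraicClosure (LaurentSeries F)
  let g : LaurentSeries F →+* Om := algebraMap (LaurentSeries F) Om
  let f : RR n →+* Om := g.comp φ
  have hf : Function.Injective f := g.injective.comp hφ
  let ψ : KF n →+* Om := IsFractionRing.lift (K := KF n) hf
  have hψ : ∀ P : RR n, ψ (algebraMap (RR n) (KF n) P) = f P := fun P =>
    IsFractionRing.lift_algebraMap hf P
  have hxO : mapx ψ (xK n) = mapx g x := by
    funext l
    apply Units.ext
    show ψ (algebraMap (RR n) (KF n) ((XX n l : (RR n)ˣ) : RR n)) = g ((x l : _ˣ) : LaurentSeries F)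
    rw [hψ]
    show g (Laurent.lift x (XX n l : RR n)) = _
    unfold XX
    rw [Laurent.lift_var]
  have hxO' : mapx ψ (xK n) = mapx f (XX n) := by
    funext l
    apply Units.ext
    show ψ (algebraMap (RR n) (KF n) ((XX n l : (RR n)ˣ) : RR n)) = f (XX n l : RR n)
    rw [hψ]
  have hI : Indep (mapx ψ (xK n)) := (indep_xK n).map ψ
  have := finite_field n hn (mapx ψ (xK n))
  have : CharZero Om := charZero_of_injective_ringHom hf
  have hr : finrank Om (H n (mapx ψ (xK n))) = NZ n ^ 2 := by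
    rw [hxO']
    exact generic_rank n hn f hf
  obtain ⟨ρ, h1, -, -, h4⟩ := split hn (hI.gen hn) hr
  have h5 := tr_formula (ω.map ψ) (hω.map ψ) ρ h1 h4 1
  have h6 : tr (mapx ψ (xK n)) (ω.map ψ) 1 = f (T 1) := by
    rw [← hψ, hT, ← tr_map hn, RingHom.map_one, RingHom.map_one]
  rw [h6] at h5
  have h7 : ∀ (α : Vec n) (ζ : Omˣ), α ∈ Rc n → ζ ^ dg α = mon (mapx ψ (xK n)) α →
      ∃ q : LaurentSeries F, Ge 0 q ∧ (schur α (mapx ψ (xK n)) ζ)⁻¹ = g q := by
    rw [hxO]
    intro α ζ hα hζ
    obtain ⟨hd0, hd1, -, hd60⟩ := dg_bounds hn hα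
    obtain ⟨b, hb⟩ : ∃ b : ℤ, b * dg α = E * α k := by
      obtain ⟨c, hc⟩ := (Int.natCast_dvd_natCast.2 hd60).trans hE
      exact ⟨c * α k, by rw [hc]; ring⟩
    have h8 : (Units.map (g : LaurentSeries F →* Om) (sg F (Multiplicative.ofAdd b, 1))⁻¹ *
        ζ) ^ dg α = Units.map (g : LaurentSeries F →* Om)
          (sg F (1, mon y α)) := by
      rw [mul_pow, hζ, mon_mapx, mon_sg y k E x hx, ← map_pow, ← map_mul]
      congr 1
      rw [← map_inv, ← map_pow, ← map_mul]
      congr 1
      apply Prod.ext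
      · show ((Multiplicative.ofAdd b)⁻¹) ^ dg α * Multiplicative.ofAdd (E * α k) = 1
        rw [← hb, ← ofAdd_neg, ← ofAdd_nsmul, ← ofAdd_add]
        rw [show dg α • -b + b * (dg α : ℤ) = 0 by rw [nsmul_eq_mul]; ring]
        rfl
      · show (1⁻¹ : Fˣ) ^ dg α * mon y α = _
        rw [inv_one, one_pow, one_mul]
    obtain ⟨r0, hr0, hr1⟩ := mem_range_of_root (g.comp HahnSeries.C) (dg α) hd1
      ((mon y α : Fˣ) : F) _ (congrArg Units.val h8)
    have hr2 : r0 ≠ 0 := by
      rintro rfl
      rw [zero_pow (by omega)] at hr1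
      exact (mon y α).ne_zero hr1.symm
    obtain ⟨hz, hGe⟩ := schur_inv hn y hy k E hα (Units.mk0 r0 hr2) (Units.ext hr1) b hb x hx
    refine ⟨_, hGe, ?_⟩
    have h9 : ζ = Units.map (g : LaurentSeries F →* Om)
        (sg F (Multiplicative.ofAdd b, Units.mk0 r0 hr2)) := by
      have h10 : Units.map (g : LaurentSeries F →* Om) (sg F (Multiplicative.ofAdd b, 1))⁻¹ *
          ζ = Units.map (g : LaurentSeries F →* Om) (sg F (1, Units.mk0 r0 hr2)) := by
        apply Units.ext
        rw [← hr0]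
        rfl
      rw [map_inv, inv_mul_eq_iff_eq_mul] at h10
      rw [h10, ← map_mul, ← map_mul]
      congr 2
      apply Prod.ext
      · exact mul_one _
      · exact one_mul _
    rw [map_inv₀, ← schur_map, ← h9]
  have h8 : ∀ i : Idx (mapx ψ (xK n)), ∃ q : LaurentSeries F, Ge 0 q ∧
      LinearMap.trace Om _ (ρ i 1) / ((dg i.1.1 : Om) * schur i.1.1 (mapx ψ (xK n)) i.1.2) =
        g q := by
    intro i
    obtain ⟨q, hq1, hq2⟩ := h7 i.1.1 i.1.2 i.2.1 i.2.2
    refine ⟨q, hq1, ?_⟩
    have hd1 := (dg_bounds hn i.2.1).2.1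
    rw [← hq2, map_one]
    have h11 : LinearMap.trace Om (Fin (dg i.1.1) → Om) 1 = (dg i.1.1 : Om) := by
      rw [LinearMap.trace_one, Module.finrank_fin_fun]
    rw [h11]
    have h12 : (dg i.1.1 : Om) ≠ 0 := Nat.cast_ne_zero.2 (by omega)
    rw [div_mul_eq_div_div, div_self h12, one_div]
  choose q hq1 hq2 using h8
  rw [Finset.sum_congr rfl fun i _ => hq2 i, ← map_sum] at h5
  have h9 : φ (T 1) = ∑ i, q i := g.injective h5
  by_contra hlt
  push Not at hlt
  refine hne (T 1) v hv ?_
  rw [h9]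
  exact (Ge.sum _ _ fun i _ => hq1 i).coeff _ hlt

theorem T_one_const {n : ℕ} (hn : HN n) (ω : (KF n)[X]) (hω : IsOmega (xK n) ω)
    (T : H n (XX n) →ₗ[RR n] RR n) (hT : ∀ h, algebraMap (RR n) (KF n) (T h) =
      tr (xK n) ω (hmap (algebraMap (RR n) (KF n)) n (XX n) h)) :
    ∃ m : ℤ, T 1 = (m : RR n) := by
  classical
  refine ⟨(T 1).coeff 0, ?_⟩
  apply AddMonoidAlgebra.ext
  have h1 : (((T 1).coeff 0 : ℤ) : RR n) = AddMonoidAlgebra.single 0 ((T 1).coeff 0) := by
    rw [AddMonoidAlgebra.intCast_def, Int.cast_id]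
  rw [h1]
  refine Finsupp.ext fun v => ?_
  by_cases hv : v = 0
  · subst hv
    simp
  · have h2 : (T 1).coeff v = 0 := by
      by_contra h3
      apply hv
      refine Finsupp.ext fun k => ?_
      have h4 := main_one hn ω hω T hT k 60 (dvd_refl _) v h3
      have h5 := main_one hn ω hω T hT k (-60) (by norm_num) v h3
      show v k = 0
      omega
    rw [h2]
    simp [Finsupp.single_apply, Ne.symm hv]

end SYM
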