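import Pool.Agent.Lib.MP_b1ea0f_al.Defs4
import Pool.Agent.Lib.MP_b1ea0f_al.VSemi
import Pool.Agent.Lib.MP_b1ea0f_al.RPerm
import Pool.Agent.Lib.MP_b1ea0f_al.RInd
import Pool.Agent.Lib.MP_b1ea0f_al.TIndep
import Pool.Agent.Lib.MP_b1ea0f_al.TProps
import Pool.Agent.Lib.MP_b1ea0f_al.TForm
import Pool.Agent.Lib.MP_b1ea0f_al.TOmega
import Pool.Agent.Lib.MP_b1ea0f_al.VIndep
import Pool.Agent.Lib.MP_b1ea0f_al.KLaur
import Pool.Agent.Lib.MP_b1ea0f_al.KFin
import Pool.Agent.Lib.MP_b1ea0f_al.KAll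
import Pool.Agent.Lib.MP_b1ea0f_al.GSplit
import Pool.Agent.Lib.MP_b1ea0f_al.RHalf

/-!
# VPerm: invariance under permutations in the legs
-/

namespace SYM
open Polynomial Module

/-- the functional does not depend on the choice of `ω` -/
private theorem omega_unique {n : ℕ} (hn : HN n) {κ : Type} [Field κ] [CharZero κ] {x : J n → κˣ}
    (hx : Indep x) {ω ω' : κ[X]} (hω : IsOmega x ω) (hω' : IsOmega x ω') (h : H n x) :
    tr x ω h = tr x ω' h := by
  set f := algebraMap κ (AlgebraicClosure κ) with hf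
  have hfd := finite_field n hn (mapx f x)
  obtain ⟨ρ, h1, _, _, h4⟩ := split hn ((hx.map f).gen hn) (finrank_all n hn (mapx f x))
  apply f.injective
  rw [← tr_map hn x ω f h, ← tr_map hn x ω' f h, tr_formula _ (hω.map f) ρ h1 h4,
    tr_formula _ (hω'.map f) ρ h1 h4]

/-- parameters with the same polynomials -/
private theorem exists_equiv {n : ℕ} {k : Type} [CommRing k] (x x' : J n → kˣ)
    (hP : ∀ g, P n x' g = P n x g) :
    ∃ e : H n x' ≃ₐ[k] H n x, ∀ g, e (gen n x' g) = gen n x g := by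
  have h1 : IsStar n x' (gen n x) := by
    have h := isStar_gen n x
    exact ⟨fun g => by rw [hP]; exact h.poly g, h.cyc1, h.cyc2⟩
  have h2 : IsStar n x (gen n x') := by
    have h := isStar_gen n x'
    exact ⟨fun g => by rw [← hP]; exact h.poly g, h.cyc1, h.cyc2⟩
  refine ⟨AlgEquiv.ofAlgHom (lift n x' _ h1) (lift n x _ h2) (hom_ext fun g => ?_)
    (hom_ext fun g => ?_), fun g => ?_⟩
  · simp
  · simp
  · simp

private theorem tr_equiv {n : ℕ} (hn : HN n) {κ : Type} [Field κ] (x x' : J n → κˣ)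
    (e : H n x' ≃ₐ[κ] H n x) (he : ∀ g, e (gen n x' g) = gen n x g) (ω : κ[X]) (h : H n x') :
    tr x' ω h = tr x ω (e h) := by
  have i1 := finite_field n hn x
  have i2 := finite_field n hn x'
  rw [tr_apply, tr_apply]
  have h1 := trace_semilinear (RingEquiv.refl κ) (e : H n x' ≃+* H n x)
    (fun c => by simp) (h * aeval (zz n x') ω)
  have h2 : e (h * aeval (zz n x') ω) = e h * aeval (zz n x) ω := by
    have h3 : (e : H n x' →ₐ[κ] H n x) (zz n x') = zz n x := by
      show e (zz n x') = zz n x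
      rw [zz_eq, zz_eq, map_mul, map_mul, he, he, he]
    have h4 := Polynomial.aeval_algHom_apply (e : H n x' →ₐ[κ] H n x) (zz n x') ω
    rw [h3] at h4
    rw [map_mul, h4]
    rfl
  rw [← h2]
  exact h1.symm

section
variable {n : ℕ} (σ : ∀ g, Equiv.Perm (Fin (leg n g)))

private theorem permJ_inv (l : J n) : permJ (fun g => (σ g)⁻¹) (permJ σ l) = l := by
  obtain ⟨g, j⟩ := l
  exact Sigma.ext rfl (heq_of_eq (Equiv.symm_apply_apply (σ g) j))

private theorem P_perm {k : Type} [CommRing k] (x : J n → kˣ) (g : Fin 3) :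
    P n (fun l => x (permJ σ l)) g = P n x g := by
  unfold P
  exact Equiv.prod_comp (σ g) (fun j => (X - C ((x ⟨g, j⟩ : kˣ) : k)))

private theorem mon_perm {k : Type*} [CommRing k] (x : J n → kˣ) (v : Vec n) :
    mon (fun l => x (permJ σ l)) (fun l => v (permJ σ l)) = mon x v := by
  unfold mon
  rw [Fintype.prod_sigma, Fintype.prod_sigma]
  refine Finset.prod_congr rfl fun g _ => ?_
  exact Equiv.prod_comp (σ g) (fun j => x ⟨g, j⟩ ^ v ⟨g, j⟩)

private theorem dg_perm (v : Vec n) : dg (fun l => v (permJ σ l)) = dg v := by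
  unfold dg
  congr 1
  exact Equiv.sum_comp (σ 0) (fun j => v ⟨0, j⟩)

private theorem isOmega_perm (hn : HN n) {κ : Type} [Field κ] (x : J n → κˣ) (ω : κ[X])
    (h : IsOmega (fun l => x (permJ σ l)) ω) : IsOmega x ω := by
  intro α hα E _ f ζ hζ
  have hq : qch (mapx f x) ζ α = 1 := (qch_eq_one hn _ _ hα).2 hζ
  obtain ⟨h1, h2⟩ := schur_perm hn σ hα (mapx f x) ζ hq
  have h3 := h _ h1 E f ζ (by
    rw [dg_perm, hζ]
    exact (mon_perm σ (mapx f x) α).symm)
  rw [dg_perm] at h3
  rw [← h2]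
  exact h3

private theorem lift_perm_inj : Function.Injective
    (Laurent.lift (fun l => XX n (permJ σ l)) : RR n →+* RR n) := by
  have h : (Laurent.lift (fun l => XX n (permJ (fun g => (σ g)⁻¹) l)) : RR n →+* RR n).comp
      (Laurent.lift (fun l => XX n (permJ σ l)) : RR n →+* RR n) = RingHom.id _ := by
    apply lift_ext
    intro i
    rw [RingHom.comp_apply, Laurent.lift_var]
    unfold XX
    rw [Laurent.lift_var, permJ_inv]
    rfl
  intro u v huv
  have h1 := congrArg (Laurent.lift (fun l => XX n (permJ (fun g => (σ g)⁻¹) l)) : RR n →+* RR n)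
    huv
  rw [← RingHom.comp_apply, ← RingHom.comp_apply, h] at h1
  exact h1

end

theorem T_perm {n : ℕ} (hn : HN n) (ω : (KF n)[X]) (hω : IsOmega (xK n) ω)
    (T : H n (XX n) →ₗ[RR n] RR n) (hT : ∀ h, algebraMap (RR n) (KF n) (T h) =
      tr (xK n) ω (hmap (algebraMap (RR n) (KF n)) n (XX n) h))
    (σ : ∀ g, Equiv.Perm (Fin (leg n g))) (w : FreeGroup (Fin 3)) :
    Laurent.lift (fun l => XX n (permJ σ l)) (T (wd n (XX n) w : H n (XX n))) =
      T (wd n (XX n) w : H n (XX n)) := by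
  set τ0 : RR n →+* RR n := Laurent.lift (fun l => XX n (permJ σ l)) with hτ0
  have hinj : Function.Injective ((algebraMap (RR n) (KF n)).comp τ0) :=
    (IsFractionRing.injective (RR n) (KF n)).comp (lift_perm_inj σ)
  obtain ⟨τ, hτ⟩ : ∃ τ : KF n →+* KF n, ∀ r : RR n,
      τ (algebraMap (RR n) (KF n) r) = algebraMap (RR n) (KF n) (τ0 r) :=
    ⟨IsFractionRing.lift hinj, fun r => IsFractionRing.lift_algebraMap hinj r⟩
  have hx : mapx τ (xK n) = fun l => xK n (permJ σ l) := by
    funext l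
    apply Units.ext
    show τ (algebraMap (RR n) (KF n) (XX n l : (RR n)ˣ)) =
      algebraMap (RR n) (KF n) (XX n (permJ σ l) : (RR n)ˣ)
    rw [hτ, hτ0]
    congr 1
    exact Laurent.lift_var _ l
  have hP : ∀ g, P n (mapx τ (xK n)) g = P n (xK n) g := by
    intro g
    rw [hx]
    exact P_perm σ (xK n) g
  obtain ⟨e, he⟩ := exists_equiv (xK n) (mapx τ (xK n)) hP
  have hω1 : IsOmega (xK n) (ω.map τ) := by
    apply isOmega_perm σ hn
    rw [← hx]
    exact hω.map τ
  have hkey : ∀ u : FreeGroup (Fin 3), e (hmap τ n (xK n)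
      (hmap (algebraMap (RR n) (KF n)) n (XX n) (wd n (XX n) u : H n (XX n)))) =
      hmap (algebraMap (RR n) (KF n)) n (XX n) (wd n (XX n) u : H n (XX n)) := by
    intro u
    have h1 : (Units.map ((((e : H n (mapx τ (xK n)) ≃+* H n (xK n)) :
        H n (mapx τ (xK n)) →+* H n (xK n)).comp ((hmap τ n (xK n)).comp
        (hmap (algebraMap (RR n) (KF n)) n (XX n)))) : H n (XX n) →* H n (xK n))).comp
          (wd n (XX n)) =
        (Units.map (hmap (algebraMap (RR n) (KF n)) n (XX n) : H n (XX n) →* H n (xK n))).comp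
          (wd n (XX n)) := by
      apply FreeGroup.ext_hom
      intro g
      apply Units.ext
      simp only [MonoidHom.comp_apply, Units.coe_map, wd_of, MonoidHom.coe_coe, RingHom.comp_apply,
        hmap_gen]
      exact he g
    have h2 := congrArg Units.val (DFunLike.congr_fun h1 u)
    exact h2
  apply IsFractionRing.injective (RR n) (KF n)
  rw [← hτ, hT, ← tr_map hn (xK n) ω τ, tr_equiv hn (xK n) _ e he, hkey]
  exact omega_unique hn (indep_xK n) hω1 hω _

end SYM
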