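import Pool.Agent.Lib.MP_b1ea0f_al.Defs4
import Pool.Agent.Lib.MP_b1ea0f_al.VSemi
import Pool.Agent.Lib.MP_b1ea0f_al.RPerm
import Pool.Agent.Lib.MP_b1ea0f_al.RInd
import Pool.Agent.Lib.MP_b1ea0f_al.TIndep
import Pool.Agent.Lib.MP_b1ea0f_al.TProps
import Pool.Agent.Lib.MP_b1ea0f_al.TOmega
import Pool.Agent.Lib.MP_b1ea0f_al.VIndep
import Pool.Agent.Lib.MP_b1ea0f_al.KLaur
import Pool.Agent.Lib.MP_b1ea0f_al.KFin
import Pool.Agent.Lib.MP_b1ea0f_al.KRank
import Pool.Agent.Lib.MP_b1ea0f_al.GSplit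
import Pool.Agent.Lib.MP_b1ea0f_al.RHalf

/-!
# VScale: homogeneity

Paper 8.9 (SC). It is enough to treat the universal case: `k = RR' := Laurent (J n ⊕ Fin 3)`, `lam g` = new variables. Over `K' = Frac RR'`: parameters `x` and `x' = lam · x`; the isomorphism `H n x' ≅ H n x`, `gen g ↦ lam g · gen g`, `K'`-linear, `z ↦ (∏ lam) z`; both `T` base changed to `K'` are `tr` for the images of `ω` under the two
embeddings `KF n → K'`; they correspond by `schur_scale`. Word `w ↦ ∏ lam^{expo} w`.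
-/

namespace SYM
open Polynomial Module

private theorem hmap_wd {n : ℕ} {k k' : Type} [CommRing k] [CommRing k'] (f : k →+* k')
    (x : J n → kˣ) (w : FreeGroup (Fin 3)) :
    hmap f n x ((wd n x w : (H n x)ˣ) : H n x) =
      ((wd n (mapx f x) w : (H n (mapx f x))ˣ) : H n (mapx f x)) := by
  have h : (Units.map ((hmap f n x : H n x →+* H n (mapx f x)) : H n x →* H n (mapx f x))).comp
      (wd n x) = wd n (mapx f x) := by
    apply FreeGroup.ext_hom
    intro g
    apply Units.ext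
    rw [MonoidHom.comp_apply, Units.coe_map, wd_of, wd_of]
    exact hmap_gen f n x g
  exact congrArg Units.val (DFunLike.congr_fun h w)

section
variable {n : ℕ} {κ : Type} [Field κ] {x x' : J n → κˣ} {lam : Fin 3 → κˣ}

private theorem P_comp (h : ∀ l, x' l = lam l.1 * x l) (g : Fin 3) :
    (P n x' g).comp (C ((lam g : κˣ) : κ) * X) =
      C (((lam g : κˣ) : κ) ^ leg n g) * P n x g := by
  unfold P
  rw [Polynomial.prod_comp]
  have h1 : ∀ j : Fin (leg n g), (X - C ((x' ⟨g, j⟩ : κˣ) : κ)).comp (C ((lam g : κˣ) : κ) * X) =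
      C ((lam g : κˣ) : κ) * (X - C ((x ⟨g, j⟩ : κˣ) : κ)) := by
    intro j
    rw [h ⟨g, j⟩, sub_comp, X_comp, C_comp, Units.val_mul, C_mul, mul_sub]
  rw [Finset.prod_congr rfl fun j _ => h1 j, Finset.prod_mul_distrib, Finset.prod_const,
    Finset.card_univ, Fintype.card_fin, C_pow]

private theorem isStar_scale (h : ∀ l, x' l = lam l.1 * x l) {A : Type*} [Ring A] [Algebra κ A]
    {a : Fin 3 → A} (ha : IsStar n x a) : IsStar n x' (fun g => ((lam g : κˣ) : κ) • a g) := by
  refine ⟨fun g => ?_, ?_, ?_⟩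
  · have h1 : aeval (aeval (a g) (C ((lam g : κˣ) : κ) * X)) (P n x' g) =
        aeval (a g) (C (((lam g : κˣ) : κ) ^ leg n g) * P n x g) := by
      rw [← aeval_comp, P_comp h g]
    have h2 : aeval (a g) (C ((lam g : κˣ) : κ) * X) = ((lam g : κˣ) : κ) • a g := by
      rw [map_mul, aeval_C, aeval_X, ← Algebra.smul_def]
    have h3 : aeval (a g) (C (((lam g : κˣ) : κ) ^ leg n g) * P n x g) = 0 := by
      rw [map_mul, ha.poly, mul_zero]
    rw [h2, h3] at h1
    exact h1
  · simp only [smul_mul_smul_comm]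
    rw [ha.cyc1]
    congr 1
    ring
  · simp only [smul_mul_smul_comm]
    rw [ha.cyc2]
    congr 1
    ring

private noncomputable def Phi (h : ∀ l, x' l = lam l.1 * x l) : H n x' →ₐ[κ] H n x :=
  lift n x' _ (isStar_scale h (isStar_gen n x))

private theorem Phi_gen (h : ∀ l, x' l = lam l.1 * x l) (g : Fin 3) :
    Phi h (gen n x' g) = ((lam g : κˣ) : κ) • gen n x g :=
  lift_gen n x' _ _ g

private theorem inv_hyp (h : ∀ l, x' l = lam l.1 * x l) : ∀ l, x l = (lam l.1)⁻¹ * x' l := by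
  intro l
  rw [h l, inv_mul_cancel_left]

private theorem Phi_comp (h : ∀ l, x' l = lam l.1 * x l) {lam' : Fin 3 → κˣ}
    (h' : ∀ l, x l = lam' l.1 * x' l) (hll : ∀ g, lam' g * lam g = 1) :
    (Phi h').comp (Phi h) = AlgHom.id κ (H n x') := by
  apply hom_ext
  intro g
  rw [AlgHom.comp_apply, Phi_gen, map_smul, Phi_gen, smul_smul, AlgHom.id_apply,
    ← Units.val_mul, mul_comm, hll g, Units.val_one, one_smul]

private noncomputable def PhiE (h : ∀ l, x' l = lam l.1 * x l) : H n x' ≃ₐ[κ] H n x :=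
  AlgEquiv.ofAlgHom (Phi h) (Phi (lam := fun g => (lam g)⁻¹) (inv_hyp h))
    (Phi_comp (lam := fun g => (lam g)⁻¹) (inv_hyp h) h fun g => by simp)
    (Phi_comp h (inv_hyp h) fun g => by simp)

private theorem PhiE_gen (h : ∀ l, x' l = lam l.1 * x l) (g : Fin 3) :
    PhiE h (gen n x' g) = ((lam g : κˣ) : κ) • gen n x g := Phi_gen h g

private theorem PhiE_zz (h : ∀ l, x' l = lam l.1 * x l) :
    PhiE h (zz n x') = ((lam 0 * lam 1 * lam 2 : κˣ) : κ) • zz n x := by
  rw [zz_eq, map_mul, map_mul, PhiE_gen, PhiE_gen, PhiE_gen, smul_mul_smul_comm,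
    smul_mul_smul_comm, zz_eq, Units.val_mul, Units.val_mul]

private noncomputable def chr (lam : Fin 3 → κˣ) : FreeGroup (Fin 3) →* κˣ where
  toFun w := ∏ g, lam g ^ (expo g w).toAdd
  map_one' := by simp
  map_mul' u v := by
    rw [← Finset.prod_mul_distrib]
    refine Finset.prod_congr rfl fun g _ => ?_
    rw [map_mul, toAdd_mul, zpow_add]

private theorem chr_of (lam : Fin 3 → κˣ) (g : Fin 3) : chr lam (FreeGroup.of g) = lam g := by
  change ∏ g', lam g' ^ (expo g' (FreeGroup.of g)).toAdd = lam g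
  rw [Finset.prod_eq_single g]
  · simp [expo]
  · intro g' _ hne
    simp [expo, Ne.symm hne]
  · intro hg
    exact absurd (Finset.mem_univ g) hg

private noncomputable def wdB (lam : Fin 3 → κˣ) (x : J n → κˣ) :
    FreeGroup (Fin 3) →* (H n x)ˣ where
  toFun w := Units.map ((algebraMap κ (H n x) : κ →+* H n x) : κ →* H n x) (chr lam w) * wd n x w
  map_one' := by simp
  map_mul' u v := by
    apply Units.ext
    simp only [map_mul, Units.val_mul, Units.coe_map, MonoidHom.coe_coe]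
    have h1 : algebraMap κ (H n x) ((chr lam v : κˣ) : κ) * ((wd n x u : (H n x)ˣ) : H n x) =
      ((wd n x u : (H n x)ˣ) : H n x) * algebraMap κ (H n x) ((chr lam v : κˣ) : κ) :=
      Algebra.commutes _ _
    rw [mul_assoc, mul_assoc, ← mul_assoc (algebraMap κ (H n x) ((chr lam v : κˣ) : κ)), h1]
    simp only [mul_assoc]

private theorem PhiE_wd (h : ∀ l, x' l = lam l.1 * x l) (w : FreeGroup (Fin 3)) :
    PhiE h ((wd n x' w : (H n x')ˣ) : H n x') =
      ((∏ g, lam g ^ (expo g w).toAdd : κˣ) : κ) • ((wd n x w : (H n x)ˣ) : H n x) := by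
  have e : (Units.map ((PhiE h : H n x' ≃ₐ[κ] H n x) : H n x' →* H n x)).comp (wd n x') =
      wdB lam x := by
    apply FreeGroup.ext_hom
    intro g
    apply Units.ext
    rw [MonoidHom.comp_apply, Units.coe_map, wd_of]
    change PhiE h (gen n x' g) = algebraMap κ (H n x) ((chr lam (FreeGroup.of g) : κˣ) : κ) *
      ((wd n x (FreeGroup.of g) : (H n x)ˣ) : H n x)
    rw [PhiE_gen, chr_of, wd_of, Algebra.smul_def]
  have e2 := congrArg Units.val (DFunLike.congr_fun e w)
  rw [Algebra.smul_def]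
  exact e2

private theorem trace_PhiE (h : ∀ l, x' l = lam l.1 * x l) (a : H n x') :
    LinearMap.trace κ (H n x') (LinearMap.mulLeft κ a) =
      LinearMap.trace κ (H n x) (LinearMap.mulLeft κ (PhiE h a)) := by
  rw [← LinearMap.trace_conj' (LinearMap.mulLeft κ a) (PhiE h).toLinearEquiv]
  congr 1
  ext y
  rw [LinearEquiv.conj_apply_apply, LinearMap.mulLeft_apply, LinearMap.mulLeft_apply]
  change PhiE h (a * (PhiE h).symm y) = _
  rw [map_mul, AlgEquiv.apply_symm_apply]

private theorem mapx_id (x : J n → κˣ) : mapx (RingHom.id κ) x = x := by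
  funext l
  apply Units.ext
  rfl

private theorem IsOmega.self {ω : κ[X]} (hω : IsOmega x ω) {α : Vec n} (hα : α ∈ Rc n) (ζ : κˣ)
    (hζ : ζ ^ dg α = mon x α) : ω.eval (ζ : κ) * (dg α : κ) ^ 2 * schur α x ζ = 1 := by
  have h := hω α hα κ (RingHom.id κ) ζ
  rw [mapx_id, eval₂_id] at h
  exact h hζ

private theorem aeval_zz_scale [IsAlgClosed κ] [CharZero κ] (hn : HN n)
    (h : ∀ l, x' l = lam l.1 * x l) (hx : Gen x) [FiniteDimensional κ (H n x)]
    (hr : finrank κ (H n x) = NZ n ^ 2) (ω ω' : κ[X]) (hω : IsOmega x ω)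
    (hω' : IsOmega x' ω') :
    aeval (((lam 0 * lam 1 * lam 2 : κˣ) : κ) • zz n x) ω' = aeval (zz n x) ω := by
  obtain ⟨ρ, h1, -, h3, -⟩ := split hn hx hr
  apply h3.1
  funext i
  obtain ⟨⟨α, ζ⟩, hα, hζ⟩ := i
  have e1 := h1 ⟨⟨α, ζ⟩, hα, hζ⟩
  simp only at e1 ⊢
  rw [← aeval_algHom_apply, ← aeval_algHom_apply, map_smul, e1, smul_smul,
    ← Algebra.algebraMap_eq_smul_one, ← Algebra.algebraMap_eq_smul_one,
    aeval_algebraMap_apply_eq_algebraMap_eval, aeval_algebraMap_apply_eq_algebraMap_eval]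
  congr 1
  have hxx : x' = fun l => lam l.1 * x l := funext h
  have hq : qch x ζ α = 1 := (qch_eq_one hn x ζ hα).2 hζ
  have hα' := (mem_Rc hn).1 hα
  have hq' : qch x' (lam 0 * lam 1 * lam 2 * ζ) α = 1 := by
    rw [hxx, qch_scale x ζ lam hα'.1.1, hq]
  have hζ' := (qch_eq_one hn x' _ hα).1 hq'
  have e2 := IsOmega.self hω hα ζ hζ
  have e3 := IsOmega.self hω' hα _ hζ'
  have e4 : schur α x' (lam 0 * lam 1 * lam 2 * ζ) = schur α x ζ := by
    rw [hxx]
    exact schur_scale hn hα x ζ lam hq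
  rw [e4, Units.val_mul (lam 0 * lam 1 * lam 2) ζ] at e3
  have hne : (dg α : κ) ^ 2 * schur α x ζ ≠ 0 := by
    intro h0
    rw [mul_assoc, h0, mul_zero] at e2
    exact zero_ne_one e2
  refine mul_right_cancel₀ hne ?_
  rw [← mul_assoc, ← mul_assoc]
  exact e3.trans e2.symm

private theorem tr_scale [IsAlgClosed κ] [CharZero κ] (hn : HN n)
    (h : ∀ l, x' l = lam l.1 * x l) (hx : Gen x) [FiniteDimensional κ (H n x)]
    (hr : finrank κ (H n x) = NZ n ^ 2) (ω ω' : κ[X]) (hω : IsOmega x ω)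
    (hω' : IsOmega x' ω') (w : FreeGroup (Fin 3)) :
    tr x' ω' ((wd n x' w : (H n x')ˣ) : H n x') =
      ((∏ g, lam g ^ (expo g w).toAdd : κˣ) : κ) *
        tr x ω ((wd n x w : (H n x)ˣ) : H n x) := by
  rw [tr_apply, trace_PhiE h, map_mul, ← aeval_algHom_apply, PhiE_wd, PhiE_zz,
    aeval_zz_scale hn h hx hr ω ω' hω hω', ← tr_apply, map_smul, smul_eq_mul]

end

private theorem key_field {n : ℕ} (hn : HN n) (ω : (KF n)[X]) (hω : IsOmega (xK n) ω)
    (T : H n (XX n) →ₗ[RR n] RR n) (hT : ∀ h, algebraMap (RR n) (KF n) (T h) =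
      tr (xK n) ω (hmap (algebraMap (RR n) (KF n)) n (XX n) h))
    {κ : Type} [Field κ] [IsAlgClosed κ] [CharZero κ] (f0 f1 : RR n →+* κ)
    (h0 : Function.Injective f0) (h1 : Function.Injective f1) (lam : Fin 3 → κˣ)
    (hl : ∀ l : J n, f1 ((XX n l : (RR n)ˣ) : RR n) =
      ((lam l.1 : κˣ) : κ) * f0 ((XX n l : (RR n)ˣ) : RR n)) (w : FreeGroup (Fin 3)) :
    f1 (T (wd n (XX n) w : H n (XX n))) = ((∏ g, lam g ^ (expo g w).toAdd : κˣ) : κ) *
      f0 (T (wd n (XX n) w : H n (XX n))) := by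
  have hF : ∀ (f : RR n →+* κ) (hf : Function.Injective f), ∃ F : KF n →+* κ,
      ∀ t, F (algebraMap (RR n) (KF n) t) = f t := fun f hf =>
    ⟨IsFractionRing.lift hf, fun t => IsFractionRing.lift_algebraMap hf t⟩
  obtain ⟨F0, hF0⟩ := hF f0 h0
  obtain ⟨F1, hF1⟩ := hF f1 h1
  have hT2 : ∀ (f : RR n →+* κ) (F : KF n →+* κ),
      (∀ t, F (algebraMap (RR n) (KF n) t) = f t) →
      f (T (wd n (XX n) w : H n (XX n))) = tr (mapx F (xK n)) (ω.map F)
        ((wd n (mapx F (xK n)) w : (H n (mapx F (xK n)))ˣ) : H n (mapx F (xK n))) := by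
    intro f F hfF
    rw [← hfF, hT, ← tr_map hn (xK n) ω F, hmap_wd, hmap_wd]
  rw [hT2 f0 F0 hF0, hT2 f1 F1 hF1]
  have hx : Gen (mapx F0 (xK n)) := Indep.gen hn (Indep.map (indep_xK n) F0)
  have := finite_field n hn (mapx F0 (xK n))
  have hx0 : mapx F0 (xK n) = mapx f0 (XX n) := by
    funext l
    apply Units.ext
    exact hF0 _
  have hr : finrank κ (H n (mapx F0 (xK n))) = NZ n ^ 2 := by
    rw [hx0]
    exact generic_rank n hn f0 h0
  refine tr_scale hn ?_ hx hr _ _ (IsOmega.map hω F0) (IsOmega.map hω F1) w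
  intro l
  apply Units.ext
  rw [Units.val_mul]
  change F1 (algebraMap (RR n) (KF n) ((XX n l : (RR n)ˣ) : RR n)) =
    ((lam l.1 : κˣ) : κ) * F0 (algebraMap (RR n) (KF n) ((XX n l : (RR n)ˣ) : RR n))
  rw [hF0, hF1, hl]

private theorem key_univ {n : ℕ} (hn : HN n) (ω : (KF n)[X]) (hω : IsOmega (xK n) ω)
    (T : H n (XX n) →ₗ[RR n] RR n) (hT : ∀ h, algebraMap (RR n) (KF n) (T h) =
      tr (xK n) ω (hmap (algebraMap (RR n) (KF n)) n (XX n) h)) (w : FreeGroup (Fin 3)) :
    (Laurent.lift (fun l => Laurent.var (Sum.inr l.1) * Laurent.var (Sum.inl l)) :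
        RR n →+* Laurent (J n ⊕ Fin 3)) (T (wd n (XX n) w : H n (XX n))) =
      ((∏ g, Laurent.var (Sum.inr g) ^ (expo g w).toAdd : (Laurent (J n ⊕ Fin 3))ˣ) :
        Laurent (J n ⊕ Fin 3)) *
        (Laurent.lift (fun l => Laurent.var (Sum.inl l)) : RR n →+* Laurent (J n ⊕ Fin 3))
          (T (wd n (XX n) w : H n (XX n))) := by
  let U := Laurent (J n ⊕ Fin 3)
  let K1 := FractionRing U
  have : CharZero K1 := (algebraMap U K1).charZero_iff (IsFractionRing.injective U K1) |>.1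
    inferInstance
  let κ := AlgebraicClosure K1
  let ι : U →+* κ := (algebraMap K1 κ).comp (algebraMap U K1)
  have hι : Function.Injective ι := (algebraMap K1 κ).injective.comp
    (IsFractionRing.injective U K1)
  have hinj : ∀ y : J n → Uˣ, (∀ l, (Laurent.lift (Sum.elim (XX n) 1) : U →+* RR n) (y l : U) =
      ((XX n l : (RR n)ˣ) : RR n)) → Function.Injective (Laurent.lift y : RR n →+* U) := by
    intro y hy
    have e : (Laurent.lift (Sum.elim (XX n) 1) : U →+* RR n).comp (Laurent.lift y) =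
        RingHom.id (RR n) := by
      apply lift_ext
      intro i
      rw [RingHom.comp_apply, Laurent.lift_var]
      exact hy i
    exact Function.LeftInverse.injective (g := (Laurent.lift (Sum.elim (XX n) 1) : U →+* RR n))
      fun t => RingHom.congr_fun e t
  apply hι
  rw [map_mul]
  have key := key_field hn ω hω T hT (ι.comp (Laurent.lift fun l => Laurent.var (Sum.inl l)))
    (ι.comp (Laurent.lift fun l => Laurent.var (Sum.inr l.1) * Laurent.var (Sum.inl l)))
    (hι.comp (hinj _ fun l => by rw [Laurent.lift_var, Sum.elim_inl]))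
    (hι.comp (hinj _ fun l => by
      rw [Units.val_mul, map_mul, Laurent.lift_var, Laurent.lift_var, Sum.elim_inl,
        Sum.elim_inr, Pi.one_apply, Units.val_one, one_mul]))
    (fun g => Units.map (ι : U →* κ) (Laurent.var (Sum.inr g))) (fun l => by
      rw [RingHom.comp_apply, RingHom.comp_apply]
      change ι (Laurent.lift _ ((Laurent.var l : (RR n)ˣ) : RR n)) =
        ι _ * ι (Laurent.lift _ ((Laurent.var l : (RR n)ˣ) : RR n))
      rw [Laurent.lift_var, Laurent.lift_var, ← map_mul, Units.val_mul]) w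
  refine key.trans (congrArg₂ (· * ·) ?_ rfl)
  have e2 : Units.map (ι : U →* κ) (∏ g, Laurent.var (Sum.inr g) ^ (expo g w).toAdd) =
      ∏ g, Units.map (ι : U →* κ) (Laurent.var (Sum.inr g)) ^ (expo g w).toAdd := by
    rw [map_prod]
    exact Finset.prod_congr rfl fun g _ => map_zpow _ _ _
  exact (congrArg Units.val e2).symm

theorem T_scale {n : ℕ} (hn : HN n) (ω : (KF n)[X]) (hω : IsOmega (xK n) ω)
    (T : H n (XX n) →ₗ[RR n] RR n) (hT : ∀ h, algebraMap (RR n) (KF n) (T h) =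
      tr (xK n) ω (hmap (algebraMap (RR n) (KF n)) n (XX n) h))
    {k : Type} [CommRing k] (x : J n → kˣ) (lam : Fin 3 → kˣ) (w : FreeGroup (Fin 3)) :
    Laurent.lift (fun l => lam l.1 * x l) (T (wd n (XX n) w : H n (XX n))) =
      ((∏ g, lam g ^ (expo g w).toAdd : kˣ) : k) *
        Laurent.lift x (T (wd n (XX n) w : H n (XX n))) := by
  have key := key_univ hn ω hω T hT w
  let ψ : Laurent (J n ⊕ Fin 3) →+* k := Laurent.lift (Sum.elim x lam)
  have hψ : ∀ i, ψ ((Laurent.var i : (Laurent (J n ⊕ Fin 3))ˣ) : Laurent (J n ⊕ Fin 3)) =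
      ((Sum.elim x lam i : kˣ) : k) := fun i => Laurent.lift_var _ i
  have e1 : ψ.comp (Laurent.lift (fun l => Laurent.var (Sum.inr l.1) * Laurent.var (Sum.inl l)) :
      RR n →+* Laurent (J n ⊕ Fin 3)) = Laurent.lift (fun l => lam l.1 * x l) := by
    apply lift_ext
    intro i
    rw [RingHom.comp_apply, Laurent.lift_var, Laurent.lift_var, Units.val_mul, map_mul, hψ, hψ,
      Units.val_mul, Sum.elim_inl, Sum.elim_inr]
  have e0 : ψ.comp (Laurent.lift (fun l => Laurent.var (Sum.inl l)) :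
      RR n →+* Laurent (J n ⊕ Fin 3)) = Laurent.lift x := by
    apply lift_ext
    intro i
    rw [RingHom.comp_apply, Laurent.lift_var, hψ, Laurent.lift_var, Sum.elim_inl]
  have h := congrArg ψ key
  rw [map_mul, ← RingHom.comp_apply ψ, ← RingHom.comp_apply ψ, e1, e0] at h
  rw [h]
  congr 1
  have e2 : Units.map (ψ : Laurent (J n ⊕ Fin 3) →* k)
      (∏ g, Laurent.var (Sum.inr g) ^ (expo g w).toAdd) =
      ∏ g, lam g ^ (expo g w).toAdd := by
    rw [map_prod]
    refine Finset.prod_congr rfl fun g _ => ?_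
    rw [map_zpow]
    congr 1
    apply Units.ext
    rw [Units.coe_map]
    exact hψ _
  exact congrArg Units.val e2

end SYM
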