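import Pool.Agent.Lib.MP_b1ea0f_al.Defs4
import Pool.Agent.Lib.MP_b1ea0f_al.VHart
import Pool.Agent.Lib.MP_b1ea0f_al.VLocT
import Pool.Agent.Lib.MP_b1ea0f_al.VEllInt
import Pool.Agent.Lib.MP_b1ea0f_al.VIndep
import Pool.Agent.Lib.MP_b1ea0f_al.TOmega
import Pool.Agent.Lib.MP_b1ea0f_al.KLaur

/-!
# VT: the trace is integral

`q = tr .. = u/w`; `hartogs`: `h1` from `ell_integral`, `h2` from `exists_Tloc` (`curve w * T' = curve u`). Linear by injectivity of `algebraMap`.
-/

namespace SYM
open Polynomial Module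

theorem exists_T {n : ℕ} (hn : HN n) (ω : (KF n)[X]) (hω : IsOmega (xK n) ω) :
    ∃ T : H n (XX n) →ₗ[RR n] RR n, ∀ h, algebraMap (RR n) (KF n) (T h) =
      tr (xK n) ω (hmap (algebraMap (RR n) (KF n)) n (XX n) h) := by
  have hinj : Function.Injective (algebraMap (RR n) (KF n)) := IsFractionRing.injective _ _
  have key : ∀ h : H n (XX n), ∃ r : RR n, algebraMap (RR n) (KF n) r =
      tr (xK n) ω (hmap (algebraMap (RR n) (KF n)) n (XX n) h) := by
    intro h
    obtain ⟨q, hq⟩ : ∃ q, q = tr (xK n) ω (hmap (algebraMap (RR n) (KF n)) n (XX n) h) := ⟨_, rfl⟩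
    rw [← hq]
    obtain ⟨u, w, hw0, hquw⟩ := IsFractionRing.div_surjective (A := RR n) q
    have hw : w ≠ 0 := nonZeroDivisors.ne_zero hw0
    have hw' : algebraMap (RR n) (KF n) w ≠ 0 := by
      intro h0
      exact hw (hinj (by rw [h0, map_zero]))
    have hwq : algebraMap (RR n) (KF n) w * q = algebraMap (RR n) (KF n) u := by
      rw [← hquw]
      field_simp
    have hdvd : w ∣ u := by
      apply hartogs u w hw
      · intro l hl
        obtain ⟨w', r, hlw, hr⟩ := ell_integral hn l hl ω hω h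
        refine ⟨w', hlw, r, ?_⟩
        apply hinj
        rw [map_mul, map_mul, ← hr, ← hq, ← hwq]
        ring
      · intro KK _ _ _ k y hy hinjc
        obtain ⟨T', -, hT'⟩ := exists_Tloc hn ω hω k y hy hinjc
        have h1 := hT' h u w hw (by rw [← hq]; exact hwq)
        exact ⟨_, h1.symm⟩
    obtain ⟨r, hr⟩ := hdvd
    refine ⟨r, ?_⟩
    rw [hr, map_mul] at hwq
    exact (mul_left_cancel₀ hw' hwq).symm
  choose T hT using key
  refine ⟨{ toFun := T, map_add' := ?_, map_smul' := ?_ }, hT⟩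
  · intro a b
    apply hinj
    rw [map_add, hT, hT, hT, map_add, map_add]
  · intro r a
    apply hinj
    rw [RingHom.id_apply, smul_eq_mul, map_mul, hT, hT, hmap_smul, map_smul, smul_eq_mul]

end SYM
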