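import Pool.Agent.Lib.MP_b1ea0f_al.Defs4
import Pool.Agent.Lib.MP_b1ea0f_al.VT
import Pool.Agent.Lib.MP_b1ea0f_al.VGrp
import Pool.Agent.Lib.MP_b1ea0f_al.VGrpW
import Pool.Agent.Lib.MP_b1ea0f_al.VFrob
import Pool.Agent.Lib.MP_b1ea0f_al.VOne
import Pool.Agent.Lib.MP_b1ea0f_al.VBar
import Pool.Agent.Lib.MP_b1ea0f_al.VPerm
import Pool.Agent.Lib.MP_b1ea0f_al.VScale
import Pool.Agent.Lib.MP_b1ea0f_al.TOmega
import Pool.Agent.Lib.MP_b1ea0f_al.TProps
import Pool.Agent.Lib.MP_b1ea0f_al.VIndep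
import Pool.Agent.Lib.MP_b1ea0f_al.KLaur

/-!
# VMain: assembly: StarTrace exists

Assembly (done).
-/

namespace SYM
open Polynomial Module

theorem exists_starTrace (n : ℕ) (hn : HN n) : Nonempty (StarTrace n) := by
  obtain ⟨ω, hω⟩ := exists_omega hn (xK n) (indep_xK n)
  obtain ⟨T, hT⟩ := exists_T hn ω hω
  have hc : ∀ h h', T (h * h') = T (h' * h) := by
    intro h h'
    apply IsFractionRing.injective (RR n) (KF n)
    rw [hT, hT, map_mul (hmap _ _ _), map_mul (hmap _ _ _), tr_comm]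
  refine ⟨⟨T, T_frob hn ω hω T hT, hc, ?_, ?_, T_bar hn ω hω T hT, T_perm hn ω hω T hT, ?_⟩⟩
  · obtain ⟨m, hm⟩ := T_one_const hn ω hω T hT
    obtain ⟨f, ξ, hx⟩ := exists_groupPoint (κ := ℂ) n hn
    have h1 := (T_group_word hn ω hω T hT f ξ hx 1).1 (map_one _)
    rw [map_one, Units.val_one, hm, map_intCast] at h1
    rw [hm, show m = 1 by exact_mod_cast h1, Int.cast_one]
  · intro κ _ _ _ f ξ hx w
    exact T_group_word hn ω hω T hT f ξ hx w
  · intro k _ x lam w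
    exact T_scale hn ω hω T hT x lam w

end SYM
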